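import Mathlib

namespace Pool.Agent.H20

/-- A plane drawing without crossings: distinct points for the vertices, a simple arc for each
edge joining the points of its ends, whose interior meets no vertex point and no other arc. -/
def IsPlanar {W : Type} (H : SimpleGraph W) : Prop :=
  ∃ (p : W → ℝ × ℝ) (γ : W → W → C(unitInterval, ℝ × ℝ)),
    Function.Injective p ∧
    (∀ u v, H.Adj u v → γ u v 0 = p u ∧ γ u v 1 = p v ∧ Function.Injective (γ u v)) ∧
    (∀ (u v w : W) (t : unitInterval), H.Adj u v → 0 < (t : ℝ) → (t : ℝ) < 1 → γ u v t ≠ p w) ∧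
    (∀ (u v u' v' : W) (s t : unitInterval), H.Adj u v → H.Adj u' v' →
      ¬ ((u = u' ∧ v = v') ∨ (u = v' ∧ v = u')) →
      0 < (s : ℝ) → (s : ℝ) < 1 → 0 < (t : ℝ) → (t : ℝ) < 1 → γ u v s ≠ γ u' v' t)

/-- The incidence graph of the hypergraph with vertex set `V` and edge family `E`:
a vertex `v` is joined to an edge `i` exactly when `v ∈ E i`. -/
def incidenceGraph {V ι : Type} (E : ι → Finset V) : SimpleGraph (V ⊕ ι) :=
  SimpleGraph.fromRel fun a b => ∃ v i, a = Sum.inl v ∧ b = Sum.inr i ∧ v ∈ E i

/-- The adjacency multigraph of the hypergraph `E` is the simple graph `G`: two distinct vertices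
lie together in exactly one edge when adjacent in `G`, and in no edge otherwise. -/
def AdjacencyIs {V : Type} {m : ℕ} (E : Fin m → Finset V) (G : SimpleGraph V) : Prop :=
  ∀ u v, u ≠ v →
    (G.Adj u v → {i | u ∈ E i ∧ v ∈ E i}.ncard = 1) ∧
    (¬ G.Adj u v → {i | u ∈ E i ∧ v ∈ E i}.ncard = 0)

/-- Reduced genus zero: `G` is the adjacency multigraph of a hypergraph of genus zero. -/
def ReducedGenusZero {V : Type} (G : SimpleGraph V) : Prop :=
  ∃ (m : ℕ) (E : Fin m → Finset V), AdjacencyIs E G ∧ IsPlanar (incidenceGraph E)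

/-- Any two distinct maximal cliques have at most one common vertex. -/
def CliquePartitioned {V : Type} (G : SimpleGraph V) : Prop :=
  ∀ A B : Set V, Maximal G.IsClique A → Maximal G.IsClique B → A ≠ B → (A ∩ B).Subsingleton

/-- Heawood's function. -/
noncomputable def heawood (g : ℕ) : ℝ := (7 + Real.sqrt (1 + 48 * g)) / 2

end Pool.Agent.H20
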