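import Mathlib

set_option autoImplicit false

namespace H20.Ac

open Finset Classical

/-- few cells of a row lie in no zero-sum subset -/
lemma bad_card (k G : ℕ) (hG : 0 < G) (X : Fin k → ℕ) :
    (univ.filter fun j : Fin k => ¬ ∃ U : Finset (Fin k), j ∈ U ∧ G ∣ ∑ i ∈ U, X i).card < 2 * G := by
  by_contra h
  rw [not_lt] at h
  obtain ⟨t, hts, hc, hd⟩ := Int.erdos_ginzburg_ziv (n := G) (fun i => (X i : ℤ))
    (s := univ.filter fun j : Fin k => ¬ ∃ U : Finset (Fin k), j ∈ U ∧ G ∣ ∑ i ∈ U, X i)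
    (by omega)
  obtain ⟨j, hj⟩ : t.Nonempty := card_pos.mp (by omega)
  have h1 := (mem_filter.mp (hts hj)).2
  apply h1
  refine ⟨t, hj, ?_⟩
  have : ((G : ℕ) : ℤ) ∣ ((∑ i ∈ t, X i : ℕ) : ℤ) := by push_cast; exact hd
  exact Int.natCast_dvd_natCast.mp this

lemma good_cell (G : ℕ) (hG : 0 < G) (X Y : Fin (4 * G) → Fin (4 * G) → ℕ) :
    ∃ i j : Fin (4 * G), (∃ U : Finset (Fin (4 * G)), j ∈ U ∧ G ∣ ∑ l ∈ U, X i l) ∧
      (∃ W : Finset (Fin (4 * G)), i ∈ W ∧ G ∣ ∑ l ∈ W, Y j l) := by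
  by_contra h
  set P : Fin (4 * G) → Fin (4 * G) → Prop :=
    fun i j => ¬ ∃ U : Finset (Fin (4 * G)), j ∈ U ∧ G ∣ ∑ l ∈ U, X i l with hP
  set Q : Fin (4 * G) → Fin (4 * G) → Prop :=
    fun j i => ¬ ∃ W : Finset (Fin (4 * G)), i ∈ W ∧ G ∣ ∑ l ∈ W, Y j l with hQ
  have h1 : ∀ i j, 1 ≤ (if P i j then 1 else 0) + (if Q j i then 1 else 0) := by
    intro i j
    by_cases a : P i j
    · simp [a]
    · by_cases b : Q j i
      · simp [b]
      · exfalso
        apply h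
        exact ⟨i, j, not_not.mp a, not_not.mp b⟩
  have h2 : ∀ i, ∑ j, (if P i j then 1 else 0) ≤ 2 * G - 1 := by
    intro i
    have := bad_card (4 * G) G hG (X i)
    rw [← card_filter]
    have e : (univ.filter fun j => P i j) = (univ.filter fun j : Fin (4 * G) =>
        ¬ ∃ U : Finset (Fin (4 * G)), j ∈ U ∧ G ∣ ∑ l ∈ U, X i l) := by
      ext j; simp [hP]
    rw [e]; omega
  have h3 : ∀ j, ∑ i, (if Q j i then 1 else 0) ≤ 2 * G - 1 := by
    intro j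
    have := bad_card (4 * G) G hG (Y j)
    rw [← card_filter]
    have e : (univ.filter fun i => Q j i) = (univ.filter fun i : Fin (4 * G) =>
        ¬ ∃ U : Finset (Fin (4 * G)), i ∈ U ∧ G ∣ ∑ l ∈ U, Y j l) := by
      ext i; simp [hQ]
    rw [e]; omega
  have h4 : ∑ _i : Fin (4 * G), ∑ _j : Fin (4 * G), 1 ≤
      ∑ i, ∑ j, ((if P i j then 1 else 0) + (if Q j i then 1 else 0)) :=
    sum_le_sum fun i _ => sum_le_sum fun j _ => h1 i j
  simp only [sum_add_distrib] at h4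
  rw [sum_comm (f := fun i j => if Q j i then 1 else 0)] at h4
  have h5 : ∑ i, ∑ j, (if P i j then 1 else 0) ≤ ∑ _i : Fin (4 * G), (2 * G - 1) :=
    sum_le_sum fun i _ => h2 i
  have h6 : ∑ j, ∑ i, (if Q j i then 1 else 0) ≤ ∑ _i : Fin (4 * G), (2 * G - 1) :=
    sum_le_sum fun j _ => h3 j
  simp only [sum_const, card_univ, Fintype.card_fin, smul_eq_mul, mul_one] at h4 h5 h6
  obtain ⟨g, rfl⟩ : ∃ g, G = g + 1 := ⟨G - 1, by omega⟩
  have e : 2 * (g + 1) - 1 = 2 * g + 1 := by omega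
  rw [e] at h5 h6
  nlinarith

abbrev Cp (N n : ℕ) := (Fin n → Finset (Fin N)) × (Fin n → Finset (Fin N))
abbrev Pt (k : ℕ) := Fin k × Finset (Fin k)
abbrev XX (N n k : ℕ) := Fin N ⊕ (Cp N n × Pt k × Fin n)

def R (N n k : ℕ) : XX N n k → XX N n k → Prop
  | Sum.inl _, Sum.inl _ => False
  | Sum.inl w, Sum.inr y => w ∈ y.1.2 y.2.2
  | Sum.inr x, Sum.inl w => w ∈ x.1.1 x.2.2
  | Sum.inr x, Sum.inr y => x.1 = y.1 ∧ y.2.1.1 ∈ x.2.1.2 ∧ x.2.1.1 ∈ y.2.1.2

/-- weight seen through the cell (i, l) -/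
noncomputable def cw {N n k : ℕ} (g : XX N n k → ℕ) (c : Cp N n) (i l : Fin k) : ℕ :=
  ∑ W : Finset (Fin k), ∑ t : Fin n, if i ∈ W then g (Sum.inr (c, (l, W), t)) else 0

lemma sum_left {N n k : ℕ} (g : XX N n k → ℕ) (c : Cp N n) (i : Fin k) (U : Finset (Fin k))
    (s : Fin n) :
    ∑ y, (if R N n k (Sum.inr (c, (i, U), s)) y then g y else 0) =
      ∑ w ∈ c.1 s, g (Sum.inl w) + ∑ l ∈ U, cw g c i l := by
  rw [Fintype.sum_sum_type]
  congr 1
  · rw [← sum_filter]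
    congr 1
    ext w; simp [R]
  · rw [Fintype.sum_prod_type, sum_eq_single c]
    · rw [Fintype.sum_prod_type, Fintype.sum_prod_type]
      have : ∑ l ∈ U, cw g c i l = ∑ l, if l ∈ U then cw g c i l else 0 := by
        rw [← sum_filter]; congr 1; ext l; simp
      rw [this]
      refine sum_congr rfl fun l _ => ?_
      by_cases hl : l ∈ U
      · simp only [R, hl, cw, true_and, if_true]
      · simp [R, hl]
    · intro c' _ hc
      refine sum_eq_zero fun y _ => ?_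
      have : ¬ c = c' := fun e => hc e.symm
      simp [R, this]
    · simp

lemma sum_right {N n k : ℕ} (f : XX N n k → ℕ) (c : Cp N n) (j : Fin k) (W : Finset (Fin k))
    (t : Fin n) :
    ∑ x, (if R N n k x (Sum.inr (c, (j, W), t)) then f x else 0) =
      ∑ w ∈ c.2 t, f (Sum.inl w) + ∑ l ∈ W, cw f c j l := by
  rw [Fintype.sum_sum_type]
  congr 1
  · rw [← sum_filter]
    congr 1
    ext w; simp [R]
  · rw [Fintype.sum_prod_type, sum_eq_single c]
    · rw [Fintype.sum_prod_type, Fintype.sum_prod_type]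
      have : ∑ l ∈ W, cw f c j l = ∑ l, if l ∈ W then cw f c j l else 0 := by
        rw [← sum_filter]; congr 1; ext l; simp
      rw [this]
      refine sum_congr rfl fun l _ => ?_
      by_cases hl : l ∈ W
      · simp only [R, hl, cw, true_and, and_true, if_true]
      · simp [R, hl]
    · intro c' _ hc
      refine sum_eq_zero fun y _ => ?_
      simp [R, hc]
    · simp

lemma cw_le {N n k : ℕ} (C : ℕ) (g : XX N n k → ℕ) (hg : ∀ x, g x ≤ C) (c : Cp N n) (i : Fin k)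
    (U : Finset (Fin k)) : ∑ l ∈ U, cw g c i l ≤ k * (2 ^ k * (n * C)) := by
  have h1 : ∀ l, cw g c i l ≤ 2 ^ k * (n * C) := by
    intro l
    unfold cw
    calc _ ≤ ∑ _W : Finset (Fin k), ∑ _t : Fin n, C := by
          refine sum_le_sum fun W _ => sum_le_sum fun t _ => ?_
          split_ifs
          · exact hg _
          · exact Nat.zero_le _
      _ = _ := by simp
  calc _ ≤ ∑ _l ∈ U, 2 ^ k * (n * C) := sum_le_sum fun l _ => h1 l
    _ = U.card * (2 ^ k * (n * C)) := by simp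
    _ ≤ _ := by
      apply Nat.mul_le_mul_right
      simpa using card_le_univ U

lemma mono (C L : ℕ) (hC : 0 < C) (f : Fin (C * L) → ℕ) (hf : ∀ w, 1 ≤ f w ∧ f w ≤ C) :
    ∃ a, 1 ≤ a ∧ a ≤ C ∧ ∀ m ≤ L, ∃ T : Finset (Fin (C * L)), ∑ w ∈ T, f w = a * m := by
  obtain ⟨a, ha, hL⟩ := exists_le_card_fiber_of_mul_le_card_of_maps_to (s := univ) (t := Icc 1 C)
    (f := f) (n := L) (fun w _ => mem_Icc.mpr (hf w)) ⟨1, by simp; omega⟩ (by simp)
  refine ⟨a, (mem_Icc.mp ha).1, (mem_Icc.mp ha).2, fun m hm => ?_⟩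
  obtain ⟨T, hT, hc⟩ := exists_subset_card_eq (n := m) (s := univ.filter fun x => f x = a)
    (le_trans hm hL)
  refine ⟨T, ?_⟩
  rw [sum_congr rfl (g := fun _ => a) fun w hw => (mem_filter.mp (hT hw)).2]
  simp [hc, mul_comm]

theorem core (C : ℕ) (hC : 0 < C) : ∃ N n k : ℕ, ∀ f g : XX N n k → ℕ,
    (∀ x, 1 ≤ f x ∧ f x ≤ C) → (∀ x, 1 ≤ g x ∧ g x ≤ C) →
    ∃ x y, R N n k x y ∧ ∑ y', (if R N n k x y' then g y' else 0) =
      ∑ x', (if R N n k x' y then f x' else 0) := by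
  obtain ⟨G, hG, hd⟩ : ∃ G : ℕ, 0 < G ∧ ∀ a, 1 ≤ a → a ≤ C → a ∣ G :=
    ⟨C.factorial, Nat.factorial_pos _, fun a h1 h2 => Nat.dvd_factorial h1 h2⟩
  obtain ⟨h, hh⟩ : ∃ h, h = 4 * G * (2 ^ (4 * G) * C) := ⟨_, rfl⟩
  obtain ⟨n, hn⟩ : ∃ n, n = 2 * h + 1 := ⟨_, rfl⟩
  obtain ⟨M, hM⟩ : ∃ M, M = n * h := ⟨_, rfl⟩
  refine ⟨C * (G * (n * n + M + n)), n, 4 * G, fun f g hf hg => ?_⟩
  obtain ⟨a, ha1, ha2, ha⟩ := mono C (G * (n * n + M + n)) hC (fun w => f (Sum.inl w))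
    fun w => hf _
  obtain ⟨b, hb1, hb2, hb⟩ := mono C (G * (n * n + M + n)) hC (fun w => g (Sum.inl w))
    fun w => hg _
  obtain ⟨a', ha'⟩ := hd a ha1 ha2
  obtain ⟨b', hb'⟩ := hd b hb1 hb2
  have ha'' : a' ≤ G := by rw [ha']; exact Nat.le_mul_of_pos_left _ ha1
  have hb'' : b' ≤ G := by rw [hb']; exact Nat.le_mul_of_pos_left _ hb1
  have e1 : ∀ s : Fin n, ∃ T : Finset (Fin (C * (G * (n * n + M + n)))),
      ∑ w ∈ T, g (Sum.inl w) = G * (n * s) := by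
    intro s
    obtain ⟨T, hT⟩ := hb (b' * (n * s)) (by
      apply Nat.mul_le_mul hb''
      have : n * s ≤ n * n := Nat.mul_le_mul_left _ s.2.le
      omega)
    exact ⟨T, by rw [hT, ← mul_assoc, ← hb']⟩
  have e2 : ∀ t : Fin n, ∃ T : Finset (Fin (C * (G * (n * n + M + n)))),
      ∑ w ∈ T, f (Sum.inl w) = G * (M + (n - 1 - t)) := by
    intro t
    obtain ⟨T, hT⟩ := ha (a' * (M + (n - 1 - t))) (by
      apply Nat.mul_le_mul ha''
      omega)
    exact ⟨T, by rw [hT, ← mul_assoc, ← ha']⟩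
  choose T1 hT1 using e1
  choose T2 hT2 using e2
  obtain ⟨i, j, ⟨U, hU, α, hα⟩, ⟨W, hW, β, hβ⟩⟩ :=
    good_cell G hG (cw g (T1, T2)) (cw f (T1, T2))
  have hMe : 4 * G * (2 ^ (4 * G) * (n * C)) = M := by rw [hM, hh]; ring
  have b1 := cw_le C g (fun x => (hg x).2) (T1, T2) i U
  have b2 := cw_le C f (fun x => (hf x).2) (T1, T2) j W
  rw [hMe] at b1 b2
  have b3 : α ≤ M := le_trans (Nat.le_mul_of_pos_left _ hG) (hα ▸ b1)
  have b4 : β ≤ M := le_trans (Nat.le_mul_of_pos_left _ hG) (hβ ▸ b2)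
  have hn0 : 0 < n := by omega
  obtain ⟨E, hE⟩ : ∃ E, E = β + M + (n - 1) - α := ⟨_, rfl⟩
  have hE2 : E < n * n := by
    have : n * n = 2 * M + n := by rw [hM]; nth_rewrite 2 [hn]; ring
    omega
  have hs : E / n < n := (Nat.div_lt_iff_lt_mul hn0).mpr hE2
  have ht : E % n < n := Nat.mod_lt _ hn0
  refine ⟨Sum.inr ((T1, T2), (i, U), ⟨E / n, hs⟩), Sum.inr ((T1, T2), (j, W), ⟨E % n, ht⟩),
    ⟨rfl, hU, hW⟩, ?_⟩
  rw [sum_left, sum_right, hα, hβ]
  simp only [hT1, hT2]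
  rw [← mul_add, ← mul_add]
  congr 1
  have := Nat.div_add_mod E n
  omega

def gr {X : Type} (r : X → X → Prop) : SimpleGraph (X ⊕ X) where
  Adj u v := match u, v with
    | Sum.inl x, Sum.inr y => r x y
    | Sum.inr y, Sum.inl x => r x y
    | _, _ => False
  symm := ⟨by rintro (x | x) (y | y) h <;> exact h⟩
  loopless := ⟨by rintro (x | x) h <;> exact h⟩

lemma gr_col {X : Type} (r : X → X → Prop) : (gr r).Colorable 2 := by
  refine ⟨SimpleGraph.Coloring.mk (fun v => match v with | Sum.inl _ => 0 | Sum.inr _ => 1) ?_⟩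
  rintro (x | x) (y | y) h
  · exact h.elim
  · simp
  · simp
  · exact h.elim

theorem main (C : ℕ) : ∃ (V : Type) (_ : Fintype V) (G : SimpleGraph V), G.Colorable 2 ∧
    ∀ f : V → ℕ, (∀ v, 1 ≤ f v ∧ f v ≤ C) →
      ∃ u v, G.Adj u v ∧ ∑ w, (if G.Adj u w then f w else 0) = ∑ w, (if G.Adj v w then f w else 0) := by
  obtain ⟨N, n, k, h⟩ := core (C + 1) (by omega)
  refine ⟨XX N n k ⊕ XX N n k, inferInstance, gr (R N n k), gr_col _, fun f hf => ?_⟩
  obtain ⟨x, y, hxy, e⟩ := h (fun x => f (Sum.inl x)) (fun y => f (Sum.inr y))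
    (fun x => ⟨(hf _).1, le_trans (hf _).2 (by omega)⟩)
    (fun x => ⟨(hf _).1, le_trans (hf _).2 (by omega)⟩)
  refine ⟨Sum.inl x, Sum.inr y, hxy, ?_⟩
  have l1 : ∑ w, (if (gr (R N n k)).Adj (Sum.inl x) w then f w else 0) =
      ∑ y', (if R N n k x y' then f (Sum.inr y') else 0) := by
    rw [Fintype.sum_sum_type, sum_eq_zero (s := univ)
      (f := fun a => if (gr (R N n k)).Adj (Sum.inl x) (Sum.inl a) then f (Sum.inl a) else 0)
      (fun a _ => if_neg (fun h => h)), zero_add]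
    exact sum_congr rfl fun a _ => if_congr Iff.rfl rfl rfl
  have l2 : ∑ w, (if (gr (R N n k)).Adj (Sum.inr y) w then f w else 0) =
      ∑ x', (if R N n k x' y then f (Sum.inl x') else 0) := by
    rw [Fintype.sum_sum_type, sum_eq_zero (s := univ)
      (f := fun a => if (gr (R N n k)).Adj (Sum.inr y) (Sum.inr a) then f (Sum.inr a) else 0)
      (fun a _ => if_neg (fun h => h)), add_zero]
    exact sum_congr rfl fun a _ => if_congr Iff.rfl rfl rfl
  rw [l1, l2, e]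

lemma nb_sum {V : Type} [Fintype V] (G : SimpleGraph V) (u : V) [Fintype (G.neighborSet u)]
    (f : V → ℕ) : ∑ w ∈ G.neighborFinset u, f w = ∑ w, (if G.Adj u w then f w else 0) := by
  rw [← sum_filter]
  congr 1
  ext w; simp

end H20.Ac
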