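import Pool.Agent.H20.BSatDefs

namespace H20.BSat

open Finset

def LE : List ℕ := [0, 1, 2, 3, 4, 8, 16, 20, 32, 34, 35, 64, 66, 72, 80, 82, 96, 98, 112, 114]
def LA : List ℕ := [6, 7, 10, 11, 17, 25, 29, 39, 48, 52, 58, 59, 62, 63, 74, 91, 95, 106, 107,
  111, 118, 119, 122, 123, 124, 125, 126, 127]
def LC : List ℕ := [7, 11, 29, 127]

def fit (w p : ℕ) (t : Bool) : Bool := p == 7 || (w.testBit p == t)
def fit4 (w p0 p1 p2 p3 : ℕ) (t0 t1 t2 t3 : Bool) : Bool :=
  fit w p0 t0 && fit w p1 t1 && fit w p2 t2 && fit w p3 t3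
def cnt (p : ℕ) (t b : Bool) : ℕ := if p == 7 && t == b then 1 else 0
def cnt4 (p0 p1 p2 p3 : ℕ) (t0 t1 t2 t3 b : Bool) : ℕ :=
  cnt p0 t0 b + cnt p1 t1 b + cnt p2 t2 b + cnt p3 t3 b

def real (p0 p1 p2 p3 : ℕ) (t0 t1 t2 t3 : Bool) : Bool :=
  (cnt4 p0 p1 p2 p3 t0 t1 t2 t3 true == 0 && LE.any fun w => fit4 w p0 p1 p2 p3 t0 t1 t2 t3) ||
  (cnt4 p0 p1 p2 p3 t0 t1 t2 t3 false == 0 && LA.any fun w => fit4 w p0 p1 p2 p3 t0 t1 t2 t3) ||
  (cnt4 p0 p1 p2 p3 t0 t1 t2 t3 true == 1 && fit4 0 p0 p1 p2 p3 t0 t1 t2 t3) ||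
  (cnt4 p0 p1 p2 p3 t0 t1 t2 t3 false == 1 && LC.any fun w => fit4 w p0 p1 p2 p3 t0 t1 t2 t3)

def five (p0 p1 p2 p3 : ℕ) : Bool :=
  real p0 p1 p2 p3 true false true false && real p0 p1 p2 p3 true false false true &&
  real p0 p1 p2 p3 false true true false && real p0 p1 p2 p3 false true false true &&
  real p0 p1 p2 p3 false false true true

theorem noshat : ((List.range 8).all fun a => (List.range 8).all fun b => (List.range 8).all fun c =>
    (List.range 8).all fun d => !(real a b c d true true false false && five a b c d)) = true := by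
  decide +kernel

def R0 : List (Fin 7 × Fin 7 × Fin 7 × Fin 7) := [(0, 2, 1, 3), (0, 2, 1, 4), (0, 5, 1, 2),
  (0, 6, 1, 2), (0, 3, 1, 4), (2, 5, 0, 4), (3, 4, 0, 5), (0, 6, 3, 4), (0, 6, 4, 5), (3, 5, 1, 2),
  (2, 6, 1, 5), (1, 4, 3, 6), (3, 5, 1, 6), (1, 4, 5, 6), (2, 3, 4, 5), (2, 6, 3, 5), (3, 5, 4, 6)]
def R1 : List (Fin 7 × Fin 7 × Fin 7) := [(0, 1, 4), (4, 0, 5), (1, 2, 3), (2, 1, 4), (3, 1, 4),
  (6, 1, 3), (5, 1, 4)]
def R2 : List (Fin 7 × Fin 7 × Fin 7) := [(1, 2, 0), (1, 3, 0), (0, 4, 2), (2, 5, 0), (0, 6, 3),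
  (0, 6, 4), (0, 6, 5), (3, 5, 1), (2, 5, 4), (4, 5, 6)]
def R4 : List (Fin 7 × Fin 7) := [(1, 2), (1, 3), (2, 3)]

def b0 (w : ℕ) : Prop := ∃ r ∈ R0, w.testBit r.1 = true ∧ w.testBit r.2.1 = true ∧
  w.testBit r.2.2.1 = false ∧ w.testBit r.2.2.2 = false
def b1 (w : ℕ) : Prop := ∃ r ∈ R1, w.testBit r.1 = true ∧
  w.testBit r.2.1 = false ∧ w.testBit r.2.2 = false
def b2 (w : ℕ) : Prop := ∃ r ∈ R2, w.testBit r.1 = true ∧ w.testBit r.2.1 = true ∧
  w.testBit r.2.2 = false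
def b4 (w : ℕ) : Prop := ∃ r ∈ R4, w.testBit r.1 = true ∧ w.testBit r.2 = true

instance (w : ℕ) : Decidable (b0 w) := by unfold b0; infer_instance
instance (w : ℕ) : Decidable (b1 w) := by unfold b1; infer_instance
instance (w : ℕ) : Decidable (b2 w) := by unfold b2; infer_instance
instance (w : ℕ) : Decidable (b4 w) := by unfold b4; infer_instance

theorem cover : ∀ w < 128, b0 w ∨ (b1 w ∧ w ∈ LE) ∨ (b2 w ∧ w ∈ LA) ∨ (b1 w ∧ b2 w) ∨ w = 0 ∨
    (b4 w ∧ w ∈ LC) := by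
  decide +kernel

theorem ok0 : ∀ r ∈ R0, five r.1 r.2.1 r.2.2.1 r.2.2.2 = true ∧ r.1 ≠ r.2.1 ∧
  r.2.2.1 ≠ r.2.2.2 := by decide +kernel
theorem ok1 : ∀ r ∈ R1, five r.1 7 r.2.1 r.2.2 = true ∧ r.2.1 ≠ r.2.2 := by decide +kernel
theorem ok2 : ∀ r ∈ R2, five r.1 r.2.1 r.2.2 7 = true ∧ r.1 ≠ r.2.1 := by decide +kernel
theorem ok3 : five 7 7 1 4 = true := by decide +kernel
theorem ok4 : ∀ r ∈ R4, five r.1 r.2 7 7 = true ∧ r.1 ≠ r.2 := by decide +kernel

variable {β : Type} [Fintype β] [DecidableEq β]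

abbrev P (β : Type) := Fin 7 ⊕ β

def mk (w : ℕ) (Y : Finset β) : Finset (P β) :=
  (univ.filter fun i : Fin 7 => w.testBit i = true).disjSum Y

@[simp] theorem inl_mk (w : ℕ) (Y : Finset β) (i : Fin 7) :
    Sum.inl i ∈ mk w Y ↔ w.testBit i = true := by simp [mk]
@[simp] theorem inr_mk (w : ℕ) (Y : Finset β) (y : β) : Sum.inr y ∈ mk w Y ↔ y ∈ Y := by simp [mk]

def Fam (β : Type) [Fintype β] [DecidableEq β] : Finset (Finset (P β)) :=
  ((LE.toFinset.image fun w => mk w (∅ : Finset β)) ∪ (LA.toFinset.image fun w => mk w univ)) ∪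
  ((univ.image fun z : β => mk 0 {z}) ∪
    ((LC.toFinset ×ˢ univ).image fun q : ℕ × β => mk q.1 {q.2}ᶜ))

theorem card_Fam : (Fam β).card ≤ 48 + 5 * Fintype.card β := by
  have h1 : LE.toFinset.card ≤ 20 := (List.toFinset_card_le _).trans (by decide)
  have h2 : LA.toFinset.card ≤ 28 := (List.toFinset_card_le _).trans (by decide)
  have h3 : LC.toFinset.card ≤ 4 := (List.toFinset_card_le _).trans (by decide)
  have a1 := card_image_le (s := LE.toFinset) (f := fun w => mk w (∅ : Finset β))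
  have a2 := card_image_le (s := LA.toFinset) (f := fun w => mk w (univ : Finset β))
  have a3 := card_image_le (s := (univ : Finset β)) (f := fun z : β => mk 0 {z})
  have a4 := card_image_le (s := LC.toFinset ×ˢ (univ : Finset β))
    (f := fun q : ℕ × β => mk q.1 {q.2}ᶜ)
  rw [card_product, card_univ] at a4
  rw [card_univ] at a3
  have a5 : LC.toFinset.card * Fintype.card β ≤ 4 * Fintype.card β := Nat.mul_le_mul_right _ h3
  unfold Fam
  refine (card_union_le _ _).trans ?_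
  refine (Nat.add_le_add (card_union_le _ _) (card_union_le _ _)).trans ?_
  omega

theorem mem_Fam (X : Finset (P β)) : X ∈ Fam β ↔ (∃ w ∈ LE, mk w ∅ = X) ∨ (∃ w ∈ LA, mk w univ = X)
    ∨ (∃ z, mk 0 {z} = X) ∨ ∃ w ∈ LC, ∃ z, mk w {z}ᶜ = X := by
  simp only [Fam, mem_union, mem_image, List.mem_toFinset, mem_univ, true_and, mem_product,
    and_true, Prod.exists, or_assoc]
  refine or_congr Iff.rfl (or_congr Iff.rfl (or_congr Iff.rfl ⟨?_, ?_⟩))
  · rintro ⟨a, b, h, e⟩; exact ⟨a, h, b, e⟩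
  · rintro ⟨a, h, b, e⟩; exact ⟨a, b, h, e⟩

def code : P β → ℕ
  | .inl i => i
  | .inr _ => 7

theorem code_lt (x : P β) : code x < 8 := by
  rcases x with i | y
  · have := i.2; simp only [code]; omega
  · simp [code]

theorem fit_mk (w : ℕ) (Y : Finset β) (x : P β) : fit w (code x) (decide (x ∈ mk w Y)) = true := by
  rcases x with i | y
  · simp [fit, code]
  · simp [fit, code]

theorem cnt_mk (w : ℕ) (Y : Finset β) (x : P β) (b : Bool) :
    cnt (code x) (decide (x ∈ mk w Y)) b =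
      if ∃ y, x = .inr y ∧ decide (y ∈ Y) = b then 1 else 0 := by
  rcases x with i | y
  · have : (i : ℕ) ≠ 7 := by have := i.2; omega
    simp [cnt, code, this]
  · simp [cnt, code]

theorem LC_sub : ∀ w ∈ LC, w ∈ LA := by decide

theorem real_of_mem {X : Finset (P β)} (hX : X ∈ Fam β) (a b c d : P β) (hab : a ≠ b) (hac : a ≠ c)
    (had : a ≠ d) (hbc : b ≠ c) (hbd : b ≠ d) (hcd : c ≠ d) :
    real (code a) (code b) (code c) (code d) (decide (a ∈ X)) (decide (b ∈ X)) (decide (c ∈ X))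
      (decide (d ∈ X)) = true := by
  have f4 : ∀ (w : ℕ) (Y : Finset β), fit4 w (code a) (code b) (code c) (code d)
      (decide (a ∈ mk w Y)) (decide (b ∈ mk w Y)) (decide (c ∈ mk w Y)) (decide (d ∈ mk w Y)) = true := by
    intro w Y; simp [fit4, fit_mk]
  simp only [real, Bool.or_eq_true, Bool.and_eq_true, beq_iff_eq, List.any_eq_true]
  rcases (mem_Fam X).1 hX with ⟨w, hw, rfl⟩ | ⟨w, hw, rfl⟩ | ⟨z, rfl⟩ | ⟨w, hw, z, rfl⟩
  · exact Or.inl (Or.inl (Or.inl ⟨by simp [cnt4, cnt_mk], w, hw, f4 _ _⟩))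
  · exact Or.inl (Or.inl (Or.inr ⟨by simp [cnt4, cnt_mk], w, hw, f4 _ _⟩))
  · have : cnt4 (code a) (code b) (code c) (code d) (decide (a ∈ mk 0 {z})) (decide (b ∈ mk 0 {z}))
        (decide (c ∈ mk 0 {z})) (decide (d ∈ mk 0 {z})) true ≤ 1 := by
      simp only [cnt4, cnt_mk, mem_singleton, decide_eq_true_eq, exists_eq_right]
      split_ifs <;> simp_all
    rcases Nat.le_one_iff_eq_zero_or_eq_one.1 this with h | h
    · exact Or.inl (Or.inl (Or.inl ⟨h, 0, by decide, f4 _ _⟩))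
    · exact Or.inl (Or.inr ⟨h, f4 _ _⟩)
  · have : cnt4 (code a) (code b) (code c) (code d) (decide (a ∈ mk w {z}ᶜ)) (decide (b ∈ mk w {z}ᶜ))
        (decide (c ∈ mk w {z}ᶜ)) (decide (d ∈ mk w {z}ᶜ)) false ≤ 1 := by
      simp only [cnt4, cnt_mk, mem_singleton, mem_compl, decide_eq_false_iff_not, not_not,
        exists_eq_right]
      split_ifs <;> simp_all
    rcases Nat.le_one_iff_eq_zero_or_eq_one.1 this with h | h
    · exact Or.inl (Or.inl (Or.inr ⟨h, w, LC_sub w hw, f4 _ _⟩))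
    · exact Or.inr ⟨h, w, hw, f4 _ _⟩

theorem tr_of (w : ℕ) (Y : Finset β) (x : P β) (t : Bool) (h : fit w (code x) t = true)
    (hy : ∀ y, x = .inr y → (y ∈ Y ↔ t = true)) : x ∈ mk w Y ↔ t = true := by
  rcases x with i | y
  · have : (i : ℕ) ≠ 7 := by have := i.2; omega
    simp only [fit, code, Bool.or_eq_true, beq_iff_eq, this, false_or] at h
    simp [h]
  · simpa using hy y rfl

theorem cnt_zero {x : P β} {t b : Bool} (h : cnt (code x) t b = 0) (y : β) (e : x = .inr y) :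
    t = !b := by
  subst e; cases t <;> cases b <;> simp_all [cnt, code]

theorem cnt_one {x : P β} {t b : Bool} (h : cnt (code x) t b ≠ 0) : ∃ y, x = .inr y ∧ t = b := by
  rcases x with i | y
  · have : (i : ℕ) ≠ 7 := by have := i.2; omega
    simp [cnt, code, this] at h
  · cases t <;> cases b <;> simp_all [cnt, code]

theorem one_of (a b c d : P β) (hab : a ≠ b) (hac : a ≠ c)
    (had : a ≠ d) (hbc : b ≠ c) (hbd : b ≠ d) (hcd : c ≠ d) (t0 t1 t2 t3 u : Bool)
    (h : cnt4 (code a) (code b) (code c) (code d) t0 t1 t2 t3 u = 1) :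
    ∃ z : β, (∀ y, a = .inr y → (y = z ↔ t0 = u)) ∧ (∀ y, b = .inr y → (y = z ↔ t1 = u)) ∧
      (∀ y, c = .inr y → (y = z ↔ t2 = u)) ∧ (∀ y, d = .inr y → (y = z ↔ t3 = u)) := by
  unfold cnt4 at h
  have key : ∀ (x x' : P β) (t : Bool) (z : β), x' = .inr z → x ≠ x' → cnt (code x) t u = 0 →
      ∀ y, x = .inr y → (y = z ↔ t = u) := by
    intro x x' t z e hne h0 y e'
    have := cnt_zero h0 y e'
    constructor
    · rintro rfl; exact absurd (e'.trans e.symm) hne
    · intro h'; rw [h'] at this; cases u <;> simp at this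
  have self : ∀ (x : P β) (t : Bool) (z : β), x = .inr z → t = u →
      ∀ y, x = .inr y → (y = z ↔ t = u) := by
    intro x t z e h0 y e'
    rw [e] at e'; simp [h0, (Sum.inr.inj e').symm]
  by_cases h0 : cnt (code a) t0 u = 0
  · by_cases h1 : cnt (code b) t1 u = 0
    · by_cases h2 : cnt (code c) t2 u = 0
      · obtain ⟨z, e, ht⟩ := cnt_one (x := d) (t := t3) (b := u) (by omega)
        exact ⟨z, key _ _ _ _ e had h0, key _ _ _ _ e hbd h1, key _ _ _ _ e hcd h2, self _ _ _ e ht⟩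
      · obtain ⟨z, e, ht⟩ := cnt_one h2
        exact ⟨z, key _ _ _ _ e hac h0, key _ _ _ _ e hbc h1, self _ _ _ e ht,
          key _ _ _ _ e hcd.symm (by omega)⟩
    · obtain ⟨z, e, ht⟩ := cnt_one h1
      exact ⟨z, key _ _ _ _ e hab h0, self _ _ _ e ht, key _ _ _ _ e hbc.symm (by omega),
        key _ _ _ _ e hbd.symm (by omega)⟩
  · obtain ⟨z, e, ht⟩ := cnt_one h0
    exact ⟨z, self _ _ _ e ht, key _ _ _ _ e hab.symm (by omega), key _ _ _ _ e hac.symm (by omega),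
      key _ _ _ _ e had.symm (by omega)⟩

theorem mem_of_real (a b c d : P β) (hab : a ≠ b) (hac : a ≠ c)
    (had : a ≠ d) (hbc : b ≠ c) (hbd : b ≠ d) (hcd : c ≠ d) (t0 t1 t2 t3 : Bool)
    (h : real (code a) (code b) (code c) (code d) t0 t1 t2 t3 = true) :
    ∃ X ∈ Fam β, (a ∈ X ↔ t0 = true) ∧ (b ∈ X ↔ t1 = true) ∧ (c ∈ X ↔ t2 = true) ∧
      (d ∈ X ↔ t3 = true) := by
  simp only [real, Bool.or_eq_true, Bool.and_eq_true, beq_iff_eq, List.any_eq_true, fit4] at h
  rcases h with ((⟨h, w, hw, f⟩ | ⟨h, w, hw, f⟩) | ⟨h, f⟩) | ⟨h, w, hw, f⟩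
  · unfold cnt4 at h
    refine ⟨mk w ∅, (mem_Fam _).2 (Or.inl ⟨w, hw, rfl⟩), tr_of _ _ _ _ f.1.1.1 ?_,
      tr_of _ _ _ _ f.1.1.2 ?_, tr_of _ _ _ _ f.1.2 ?_, tr_of _ _ _ _ f.2 ?_⟩ <;> intro y e
    · simp [cnt_zero (t := t0) (b := true) (by omega) y e]
    · simp [cnt_zero (t := t1) (b := true) (by omega) y e]
    · simp [cnt_zero (t := t2) (b := true) (by omega) y e]
    · simp [cnt_zero (t := t3) (b := true) (by omega) y e]
  · unfold cnt4 at h
    refine ⟨mk w univ, (mem_Fam _).2 (Or.inr (Or.inl ⟨w, hw, rfl⟩)), tr_of _ _ _ _ f.1.1.1 ?_,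
      tr_of _ _ _ _ f.1.1.2 ?_, tr_of _ _ _ _ f.1.2 ?_, tr_of _ _ _ _ f.2 ?_⟩ <;> intro y e
    · simp [cnt_zero (t := t0) (b := false) (by omega) y e]
    · simp [cnt_zero (t := t1) (b := false) (by omega) y e]
    · simp [cnt_zero (t := t2) (b := false) (by omega) y e]
    · simp [cnt_zero (t := t3) (b := false) (by omega) y e]
  · obtain ⟨z, k0, k1, k2, k3⟩ := one_of a b c d hab hac had hbc hbd hcd _ _ _ _ _ h
    refine ⟨mk 0 {z}, (mem_Fam _).2 (Or.inr (Or.inr (Or.inl ⟨z, rfl⟩))), tr_of _ _ _ _ f.1.1.1 ?_,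
      tr_of _ _ _ _ f.1.1.2 ?_, tr_of _ _ _ _ f.1.2 ?_, tr_of _ _ _ _ f.2 ?_⟩ <;> intro y e
    · simpa using k0 y e
    · simpa using k1 y e
    · simpa using k2 y e
    · simpa using k3 y e
  · obtain ⟨z, k0, k1, k2, k3⟩ := one_of a b c d hab hac had hbc hbd hcd _ _ _ _ _ h
    refine ⟨mk w {z}ᶜ, (mem_Fam _).2 (Or.inr (Or.inr (Or.inr ⟨w, hw, z, rfl⟩))),
      tr_of _ _ _ _ f.1.1.1 ?_,
      tr_of _ _ _ _ f.1.1.2 ?_, tr_of _ _ _ _ f.1.2 ?_, tr_of _ _ _ _ f.2 ?_⟩ <;> intro y e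
    · simp [k0 y e]
    · simp [k1 y e]
    · simp [k2 y e]
    · simp [k3 y e]

theorem free : ¬ HasCopy 4 (Fam β) := by
  rintro ⟨f, -, hf, h⟩
  have hx : ∀ j : Fin 4, ∃ x, x ∈ f {j} ∧ x ∉ f {j}ᶜ := by
    intro j
    by_contra hc
    push Not at hc
    have : ({j} : Finset (Fin 4)) ⊆ {j}ᶜ := (h _ _).2 hc
    simp at this
  choose x hx1 hx2 using hx
  have tr : ∀ (j : Fin 4) (I : Finset (Fin 4)), x j ∈ f I ↔ j ∈ I := by
    intro j I
    constructor
    · intro hj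
      by_contra hn
      exact hx2 j ((h I {j}ᶜ).1 (by intro i hi; simp; rintro rfl; exact hn hi) hj)
    · intro hj
      exact (h {j} I).1 (by simpa using hj) (hx1 j)
  have ne : ∀ i j : Fin 4, i ≠ j → x i ≠ x j := by
    intro i j hij e
    have := (tr i {j}).1 (e ▸ hx1 j)
    exact hij (by simpa using this)
  have r := fun I => real_of_mem (hf I) (x 0) (x 1) (x 2) (x 3) (ne _ _ (by decide))
    (ne _ _ (by decide)) (ne _ _ (by decide)) (ne _ _ (by decide)) (ne _ _ (by decide))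
    (ne _ _ (by decide))
  simp only [tr] at r
  have k := noshat
  simp only [List.all_eq_true, List.mem_range] at k
  have k2 := k _ (code_lt (x 0)) _ (code_lt (x 1)) _ (code_lt (x 2)) _ (code_lt (x 3))
  have r1 := r {0, 1}
  have r2 := r {0, 2}
  have r3 := r {0, 3}
  have r4 := r {1, 2}
  have r5 := r {1, 3}
  have r6 := r {2, 3}
  generalize code (x 0) = a at *
  generalize code (x 1) = b at *
  generalize code (x 2) = c at *
  generalize code (x 3) = d at *
  simp only [mem_insert, mem_singleton, Fin.reduceEq, or_self, or_false, false_or, or_true, true_or,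
    decide_true, decide_false] at r1 r2 r3 r4 r5 r6
  rw [five, r1, r2, r3, r4, r5, r6] at k2
  simp at k2

theorem sing_mem (x : P β) : {x} ∈ Fam β := by
  rw [mem_Fam]
  rcases x with i | y
  · refine Or.inl ⟨2 ^ (i : ℕ), by revert i; decide, ?_⟩
    ext (j | y) <;> simp [Nat.testBit_two_pow, Fin.ext_iff, eq_comm]
  · refine Or.inr (Or.inr (Or.inl ⟨y, ?_⟩))
    ext (j | y) <;> simp

theorem cosing_mem (x : P β) : {x}ᶜ ∈ Fam β := by
  rw [mem_Fam]
  rcases x with i | y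
  · refine Or.inr (Or.inl ⟨127 - 2 ^ (i : ℕ), by revert i; decide, ?_⟩)
    ext (j | y)
    · simp only [inl_mk, mem_compl, mem_singleton, Sum.inl.injEq]
      revert i j; decide
    · simp
  · refine Or.inr (Or.inr (Or.inr ⟨127, by decide, y, ?_⟩))
    ext (j | y)
    · simp only [inl_mk, mem_compl, mem_singleton, reduceCtorEq, not_false_eq_true, iff_true]
      revert j; decide
    · simp

theorem empty_mem : (∅ : Finset (P β)) ∈ Fam β := by
  rw [mem_Fam]
  refine Or.inl ⟨0, by decide, ?_⟩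
  ext (j | y) <;> simp

theorem univ_mem : (univ : Finset (P β)) ∈ Fam β := by
  rw [mem_Fam]
  refine Or.inr (Or.inl ⟨127, by decide, ?_⟩)
  ext (j | y)
  · simp only [inl_mk, mem_univ, iff_true]
    revert j; decide
  · simp

theorem copy_of (X : Finset (P β)) (a b c d : P β) (hab : a ≠ b) (hcd : c ≠ d) (ha : a ∈ X)
    (hb : b ∈ X) (hc : c ∉ X) (hd : d ∉ X)
    (h : five (code a) (code b) (code c) (code d) = true) : HasCopy 4 (insert X (Fam β)) := by
  have hac : a ≠ c := by rintro rfl; exact hc ha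
  have had : a ≠ d := by rintro rfl; exact hd ha
  have hbc : b ≠ c := by rintro rfl; exact hc hb
  have hbd : b ≠ d := by rintro rfl; exact hd hb
  simp only [five, Bool.and_eq_true] at h
  obtain ⟨⟨⟨⟨h1, h2⟩, h3⟩, h4⟩, h5⟩ := h
  have m := mem_of_real a b c d hab hac had hbc hbd hcd
  let x : Fin 4 → P β := ![a, b, c, d]
  have xi : Function.Injective x := by
    intro i j
    fin_cases i <;> fin_cases j <;> simp [x, hab, hac, had, hbc, hbd, hcd, hab.symm, hac.symm,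
      had.symm, hbc.symm, hbd.symm, hcd.symm]
  have two : ∀ I : Finset (Fin 4), I.card = 2 → ∃ S ∈ insert X (Fam β), ∀ j, x j ∈ S ↔ j ∈ I := by
    intro I hI
    have : I = {0, 1} ∨ I = {0, 2} ∨ I = {0, 3} ∨ I = {1, 2} ∨ I = {1, 3} ∨ I = {2, 3} := by
      revert I; decide
    rcases this with rfl | rfl | rfl | rfl | rfl | rfl
    · exact ⟨X, mem_insert_self _ _, by intro j; fin_cases j <;> simp [x, ha, hb, hc, hd]⟩
    · obtain ⟨S, hS, k0, k1, k2, k3⟩ := m _ _ _ _ h1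
      exact ⟨S, mem_insert_of_mem hS, by intro j; fin_cases j <;> simp [x, k0, k1, k2, k3]⟩
    · obtain ⟨S, hS, k0, k1, k2, k3⟩ := m _ _ _ _ h2
      exact ⟨S, mem_insert_of_mem hS, by intro j; fin_cases j <;> simp [x, k0, k1, k2, k3]⟩
    · obtain ⟨S, hS, k0, k1, k2, k3⟩ := m _ _ _ _ h3
      exact ⟨S, mem_insert_of_mem hS, by intro j; fin_cases j <;> simp [x, k0, k1, k2, k3]⟩
    · obtain ⟨S, hS, k0, k1, k2, k3⟩ := m _ _ _ _ h4
      exact ⟨S, mem_insert_of_mem hS, by intro j; fin_cases j <;> simp [x, k0, k1, k2, k3]⟩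
    · obtain ⟨S, hS, k0, k1, k2, k3⟩ := m _ _ _ _ h5
      exact ⟨S, mem_insert_of_mem hS, by intro j; fin_cases j <;> simp [x, k0, k1, k2, k3]⟩
  have all : ∀ I : Finset (Fin 4), ∃ S ∈ insert X (Fam β), (∀ j, x j ∈ S ↔ j ∈ I) ∧
      (I.card ≤ 1 → S = I.image x) ∧ (3 ≤ I.card → S = (Iᶜ.image x)ᶜ) := by
    intro I
    by_cases h1 : I.card ≤ 1
    · refine ⟨I.image x, mem_insert_of_mem ?_, fun j => by simp [xi.eq_iff], fun _ => rfl,
        fun h => by omega⟩
      rcases card_le_one_iff_subset_singleton.1 h1 with ⟨j, hj⟩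
      rcases subset_singleton_iff.1 hj with rfl | rfl
      · simpa using empty_mem
      · simpa using sing_mem (x j)
    by_cases h3 : 3 ≤ I.card
    · refine ⟨(Iᶜ.image x)ᶜ, mem_insert_of_mem ?_, fun j => by simp [xi.eq_iff], fun h => by omega,
        fun _ => rfl⟩
      have : Iᶜ.card ≤ 1 := by rw [card_compl]; simp; omega
      rcases card_le_one_iff_subset_singleton.1 this with ⟨j, hj⟩
      rcases subset_singleton_iff.1 hj with e | e <;> rw [e]
      · simpa using univ_mem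
      · simpa using cosing_mem (x j)
    obtain ⟨S, hS, k⟩ := two I (by omega)
    exact ⟨S, hS, k, fun h => by omega, fun h => by omega⟩
  choose f hf k1 k2 k3 using all
  have iff : ∀ I J, I ⊆ J ↔ f I ⊆ f J := by
    intro I J
    constructor
    · intro hIJ
      by_cases h1 : I.card ≤ 1
      · rw [k2 I h1]
        intro z hz
        obtain ⟨j, hj, rfl⟩ := mem_image.1 hz
        exact (k1 J j).2 (hIJ hj)
      by_cases h3 : 3 ≤ J.card
      · rw [k3 J h3]
        intro z hz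
        rw [mem_compl]
        intro hz'
        obtain ⟨j, hj, rfl⟩ := mem_image.1 hz'
        exact mem_compl.1 hj (hIJ ((k1 I j).1 hz))
      rw [eq_of_subset_of_card_le hIJ (by omega)]
    · intro hIJ j hj
      exact (k1 J j).1 (hIJ ((k1 I j).2 hj))
  exact ⟨f, fun I J e => Subset.antisymm ((iff _ _).2 (e ▸ Subset.refl _))
    ((iff _ _).2 (e ▸ Subset.refl _)), hf, iff⟩

theorem saturated [Nonempty β] : Saturated 4 (Fam β) := by
  refine ⟨free, fun X hX => ?_⟩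
  let w := Nat.ofBits (fun i : Fin 7 => decide (Sum.inl i ∈ X))
  have hw : w < 128 := Nat.ofBits_lt_two_pow _
  have hb : ∀ i : Fin 7, w.testBit i = decide (Sum.inl i ∈ X) := fun i => by
    simp [w, Nat.testBit_ofBits_lt _ _ i.2]
  have hin : ∀ i : Fin 7, w.testBit i = true → Sum.inl i ∈ X := fun i h => by
    simpa [hb] using h
  have hout : ∀ i : Fin 7, w.testBit i = false → Sum.inl i ∉ X := fun i h => by
    simpa [hb] using h
  have hX' : X = mk w X.toRight := by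
    ext (i | y) <;> simp [hb]
  have c1 : b1 w → ∀ y, Sum.inr y ∈ X → HasCopy 4 (insert X (Fam β)) := by
    rintro ⟨r, hr, k1, k2, k3⟩ y hy
    exact copy_of X (.inl r.1) (.inr y) (.inl r.2.1) (.inl r.2.2) (by simp)
      (by simpa using (ok1 r hr).2) (hin _ k1) hy (hout _ k2) (hout _ k3) (ok1 r hr).1
  have c2 : b2 w → ∀ y, Sum.inr y ∉ X → HasCopy 4 (insert X (Fam β)) := by
    rintro ⟨r, hr, k1, k2, k3⟩ y hy
    exact copy_of X (.inl r.1) (.inl r.2.1) (.inl r.2.2) (.inr y) (by simpa using (ok2 r hr).2)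
      (by simp) (hin _ k1) (hin _ k2) (hout _ k3) hy (ok2 r hr).1
  rcases cover w hw with ⟨r, hr, k1, k2, k3, k4⟩ | ⟨h, hl⟩ | ⟨h, hl⟩ | ⟨h, h'⟩ | h | ⟨⟨r, hr, k1, k2⟩, hl⟩
  · exact copy_of X (.inl r.1) (.inl r.2.1) (.inl r.2.2.1) (.inl r.2.2.2)
      (by simpa using (ok0 r hr).2.1) (by simpa using (ok0 r hr).2.2) (hin _ k1) (hin _ k2)
      (hout _ k3) (hout _ k4) (ok0 r hr).1
  · by_contra hn
    refine hX ((mem_Fam _).2 (Or.inl ⟨w, hl, ?_⟩))
    rw [hX']; congr 1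
    ext y; simpa using fun hy => hn (c1 h y hy)
  · by_contra hn
    refine hX ((mem_Fam _).2 (Or.inr (Or.inl ⟨w, hl, ?_⟩)))
    rw [hX']; congr 1
    ext y; simp only [mem_univ, mem_toRight, true_iff]
    by_contra hy; exact hn (c2 h y hy)
  · obtain ⟨y⟩ := ‹Nonempty β›
    by_cases hy : Sum.inr y ∈ X
    · exact c1 h y hy
    · exact c2 h' y hy
  · by_cases h1 : X.toRight.card ≤ 1
    · exfalso
      apply hX
      rw [mem_Fam]
      obtain ⟨j, hj⟩ := card_le_one_iff_subset_singleton.1 h1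
      rcases subset_singleton_iff.1 hj with e | e
      · exact Or.inl ⟨0, by decide, by rw [hX', e, h]⟩
      · exact Or.inr (Or.inr (Or.inl ⟨j, by rw [hX', e, h]⟩))
    · obtain ⟨y, hy, y', hy', hne⟩ := one_lt_card.1 (not_le.1 h1)
      exact copy_of X (.inr y) (.inr y') (.inl 1) (.inl 4) (by simpa using hne) (by simp)
        (by simpa using hy) (by simpa using hy') (hout _ (by simp [h])) (hout _ (by simp [h])) ok3
  · by_cases h1 : X.toRightᶜ.card ≤ 1
    · exfalso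
      apply hX
      rw [mem_Fam]
      obtain ⟨j, hj⟩ := card_le_one_iff_subset_singleton.1 h1
      rcases subset_singleton_iff.1 hj with e | e
      · refine Or.inr (Or.inl ⟨w, LC_sub w hl, ?_⟩)
        rw [hX']; congr 1
        rw [← compl_compl X.toRight, e]; simp
      · refine Or.inr (Or.inr (Or.inr ⟨w, hl, j, ?_⟩))
        rw [hX']; congr 1
        rw [← e]; simp
    · obtain ⟨y, hy, y', hy', hne⟩ := one_lt_card.1 (not_le.1 h1)
      exact copy_of X (.inl r.1) (.inl r.2) (.inr y) (.inr y') (by simpa using (ok4 r hr).2)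
        (by simpa using hne) (hin _ k1) (hin _ k2) (by simpa using hy) (by simpa using hy')
        (ok4 r hr).1

theorem copy_map {α γ : Type} [DecidableEq γ] (e : α ≃ γ) {k : ℕ} {F : Finset (Finset α)}
    {G : Finset (Finset γ)} (hG : ∀ S ∈ F, S.map e.toEmbedding ∈ G) (h : HasCopy k F) :
    HasCopy k G := by
  obtain ⟨f, hi, hf, h⟩ := h
  exact ⟨fun I => (f I).map e.toEmbedding, fun I J e' => hi (map_injective _ e'),
    fun I => hG _ (hf I), fun I J => by rw [map_subset_map]; exact h I J⟩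

theorem sat_le (n : ℕ) (hn : 8 ≤ n) : sat n 4 ≤ 5 * n + 13 := by
  obtain ⟨N, rfl⟩ : ∃ N, n = 7 + (N + 1) := ⟨n - 8, by omega⟩
  let e : P (Fin (N + 1)) ≃ Fin (7 + (N + 1)) := finSumFinEquiv
  let G := (Fam (Fin (N + 1))).image fun S => S.map e.toEmbedding
  have hs := saturated (β := Fin (N + 1))
  have back : ∀ S ∈ G, S.map e.symm.toEmbedding ∈ Fam (Fin (N + 1)) := by
    intro S hS
    obtain ⟨T, hT, rfl⟩ := mem_image.1 hS
    simpa [map_map] using hT
  have hG : Saturated 4 G := by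
    refine ⟨fun h => hs.1 (copy_map e.symm back h), fun S hS => ?_⟩
    have eS : (S.map e.symm.toEmbedding).map e.toEmbedding = S := by simp [map_map]
    refine copy_map e ?_ (hs.2 (S.map e.symm.toEmbedding) fun h => hS (mem_image.2 ⟨_, h, eS⟩))
    intro T hT
    rcases mem_insert.1 hT with rfl | hT
    · rw [eS]; exact mem_insert_self _ _
    · exact mem_insert_of_mem (mem_image_of_mem _ hT)
  have h1 : sat (7 + (N + 1)) 4 ≤ G.card := Nat.sInf_le ⟨G, hG, rfl⟩
  refine h1.trans (card_image_le.trans (card_Fam.trans ?_))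
  simp; omega

end H20.BSat
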