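import Mathlib

namespace H20.BSat

/-- `F` contains an induced copy of the Boolean lattice `Q_k`. -/
def HasCopy {α : Type} (k : ℕ) (F : Finset (Finset α)) : Prop :=
  ∃ f : Finset (Fin k) → Finset α, Function.Injective f ∧ (∀ x, f x ∈ F) ∧
    ∀ x y, x ⊆ y ↔ f x ⊆ f y

/-- `F` is `Q_k`-saturated. -/
def Saturated {α : Type} [DecidableEq α] (k : ℕ) (F : Finset (Finset α)) : Prop :=
  ¬ HasCopy k F ∧ ∀ S : Finset α, S ∉ F → HasCopy k (insert S F)

/-- The induced saturation number `sat*(n, Q_k)`. -/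
noncomputable def sat (n k : ℕ) : ℕ :=
  sInf {m | ∃ F : Finset (Finset (Fin n)), Saturated k F ∧ F.card = m}

end H20.BSat
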