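import Pool.Agent.H20.BetwDefs

namespace Pool.Agent.H20.Betw
open Pool.Agent.H20 Finset SimpleGraph

section
variable {V I : Type} [Fintype V] [DecidableEq V] [Fintype I] [DecidableEq I]
  (c : V → I) (d : V → Bool)

def G : SimpleGraph V where
  Adj x y := x ≠ y ∧ (c x ≠ c y ∨ d x = d y)
  symm := ⟨fun _ _ h => ⟨h.1.symm, h.2.imp Ne.symm Eq.symm⟩⟩
  loopless := ⟨fun _ h => h.1 rfl⟩

theorem adj_out {s t u : V} (h : c s = c t) (hd : d s ≠ d t) :
    (G c d).Adj s u ∧ (G c d).Adj u t ↔ c u ≠ c s := by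
  constructor
  · rintro ⟨⟨_, h1⟩, ⟨_, h2⟩⟩ e
    rcases h1 with h1 | h1
    · exact h1 e.symm
    · rcases h2 with h2 | h2
      · exact h2 (e.trans h)
      · exact hd (h1.trans h2)
  · intro e
    exact ⟨⟨fun h' => e (by rw [h']), Or.inl e.symm⟩, ⟨fun h' => e (by rw [h', h]), Or.inl (h ▸ e)⟩⟩

def w2 {s t : V} (h : c s = c t) (hd : d s ≠ d t) (u : {u // c u ≠ c s}) : (G c d).Walk s t :=
  .cons ((adj_out c d h hd).2 u.2).1 (.cons ((adj_out c d h hd).2 u.2).2 .nil)

theorem w2_inj {s t : V} (h : c s = c t) (hd : d s ≠ d t) : Function.Injective (w2 c d h hd) := by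
  intro u v e
  have := congrArg Walk.support e
  simp only [w2, Walk.support_cons, Walk.support_nil, List.cons.injEq, true_and, and_true] at this
  exact Subtype.ext this

theorem geo2 {s t : V} (h : c s = c t) (hd : d s ≠ d t) (hex : ∃ u, c u ≠ c s) :
    geodesics (G c d) s t = Set.range (w2 c d h hd) := by
  obtain ⟨u, hu⟩ := hex
  have hne : s ≠ t := fun e => hd (by rw [e])
  have h2 : (G c d).dist s t = 2 := by
    have h1 := dist_le (w2 c d h hd ⟨u, hu⟩)
    have h3 : (G c d).dist s t ≠ 0 := by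
      rw [Ne, dist_eq_zero_iff_eq_or_not_reachable]
      rintro (e | e)
      · exact hne e
      · exact e ⟨w2 c d h hd ⟨u, hu⟩⟩
    have h4 : (G c d).dist s t ≠ 1 := by
      rw [Ne, dist_eq_one_iff_adj]
      rintro ⟨_, e | e⟩
      · exact e h
      · exact hd e
    simp only [w2, Walk.length_cons, Walk.length_nil] at h1
    omega
  ext p
  simp only [geodesics, h2, Set.mem_ofPred_eq, Set.mem_range]
  constructor
  · intro hp
    match p, hp with
    | .cons a (.cons b .nil), _ => exact ⟨⟨_, (adj_out c d h hd).1 ⟨a, b⟩⟩, rfl⟩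
  · rintro ⟨u, rfl⟩
    rfl

theorem term (hex : ∀ s, ∃ u, c u ≠ c s) (v s t : V) (hs : s ≠ v) (ht : t ≠ v) (hst : s ≠ t) :
    (({p ∈ geodesics (G c d) s t | v ∈ p.support}.ncard : ℚ) / (geodesics (G c d) s t).ncard) =
      if c s = c t ∧ d s ≠ d t ∧ c v ≠ c s then
        1 / ((univ.filter fun u => c u ≠ c s).card : ℚ) else 0 := by
  by_cases h : c s = c t ∧ d s ≠ d t
  · rw [geo2 c d h.1 h.2 (hex s), Set.ncard_range_of_injective (w2_inj c d h.1 h.2),
      Nat.card_eq_fintype_card, Fintype.card_subtype]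
    by_cases hv : c v ≠ c s
    · have : {p ∈ Set.range (w2 c d h.1 h.2) | v ∈ p.support} = {w2 c d h.1 h.2 ⟨v, hv⟩} := by
        ext p
        simp only [Set.mem_ofPred_eq, Set.mem_range, Set.mem_singleton_iff]
        constructor
        · rintro ⟨⟨u, rfl⟩, h2⟩
          simp only [w2, Walk.support_cons, Walk.support_nil, List.mem_cons, List.not_mem_nil,
            or_false] at h2
          rcases h2 with e | e | e
          · exact absurd e.symm hs
          · congr 1
            exact Subtype.ext e.symm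
          · exact absurd e.symm ht
        · rintro rfl
          exact ⟨⟨_, rfl⟩, by simp [w2]⟩
      rw [this, Set.ncard_singleton, if_pos ⟨h.1, h.2, hv⟩, Nat.cast_one]
    · have : {p ∈ Set.range (w2 c d h.1 h.2) | v ∈ p.support} = ∅ := by
        ext p
        simp only [Set.mem_ofPred_eq, Set.mem_range, Set.mem_empty_iff_false, iff_false]
        rintro ⟨⟨u, rfl⟩, h2⟩
        simp only [w2, Walk.support_cons, Walk.support_nil, List.mem_cons, List.not_mem_nil,
          or_false] at h2
        rcases h2 with e | e | e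
        · exact hs e.symm
        · exact hv (e ▸ u.2)
        · exact ht e.symm
      rw [this, if_neg (fun h' => hv h'.2.2)]
      simp
  · have ha : (G c d).Adj s t := ⟨hst, by tauto⟩
    have : {p ∈ geodesics (G c d) s t | v ∈ p.support} = ∅ := by
      ext p
      simp only [geodesics, dist_eq_one_iff_adj.2 ha, Set.mem_ofPred_eq, Set.mem_empty_iff_false,
        iff_false]
      rintro ⟨hp, h2⟩
      match p, hp, h2 with
      | .cons a .nil, _, h2 =>
        simp only [Walk.support_cons, Walk.support_nil, List.mem_cons, List.not_mem_nil,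
          or_false] at h2
        exact h2.elim (fun e => hs e.symm) (fun e => ht e.symm)
    rw [this, if_neg (fun h' => h ⟨h'.1, h'.2.1⟩)]
    simp

theorem conn [Nonempty V] (hex : ∀ s, ∃ u, c u ≠ c s) : (G c d).Connected := by
  refine ⟨fun s t => ?_⟩
  by_cases e : s = t
  · rw [e]
  · by_cases h : c s = c t ∧ d s ≠ d t
    · obtain ⟨u, hu⟩ := hex s
      exact ⟨w2 c d h.1 h.2 ⟨u, hu⟩⟩
    · exact Adj.reachable ⟨e, by tauto⟩

theorem betw_eq (hex : ∀ s, ∃ u, c u ≠ c s) (l : ℚ)
    (h : ∀ i, ((univ.filter fun u => c u = i ∧ d u = true).card : ℚ) *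
      (univ.filter fun u => c u = i ∧ d u = false).card = l * (univ.filter fun u => c u ≠ i).card)
    (v : V) : betw (G c d) v = l * (Fintype.card I - 1) := by
  have pos : ∀ s, ((univ.filter fun u => c u ≠ c s).card : ℚ) ≠ 0 := fun s => by
    obtain ⟨u, hu⟩ := hex s
    exact Nat.cast_ne_zero.2 (card_ne_zero_of_mem (a := u) (by simpa using hu))
  have e1 : betw (G c d) v = (∑ x : V × V, if c x.1 = c x.2 ∧ d x.1 ≠ d x.2 ∧ c v ≠ c x.1 then
      1 / ((univ.filter fun u => c u ≠ c x.1).card : ℚ) else 0) / 2 := by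
    unfold betw
    congr 1
    rw [sum_congr (s₂ := (univ.erase v).offDiag) (Finset.ext fun x => by simp only [mem_offDiag, mem_erase]) fun x hx => term c d hex v x.1 x.2
      (mem_erase.1 (mem_offDiag.1 hx).1).1 (mem_erase.1 (mem_offDiag.1 hx).2.1).1
      (mem_offDiag.1 hx).2.2]
    refine sum_subset (subset_univ _) fun x _ hx => if_neg fun h' => hx ?_
    refine mem_offDiag.2 ⟨mem_erase.2 ⟨fun e => h'.2.2 (by rw [e]), mem_univ _⟩,
      mem_erase.2 ⟨fun e => h'.2.2 (by rw [← e, h'.1]), mem_univ _⟩, fun e => h'.2.1 (by rw [e])⟩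
  have e2 : ∀ i, (∑ x ∈ univ.filter fun x : V × V => c x.1 = i,
      if c x.1 = c x.2 ∧ d x.1 ≠ d x.2 ∧ c v ≠ c x.1 then
      1 / ((univ.filter fun u => c u ≠ c x.1).card : ℚ) else 0) = if c v ≠ i then 2 * l else 0 := by
    intro i
    rw [sum_congr rfl (g := fun x => if c x.1 = c x.2 ∧ d x.1 ≠ d x.2 ∧ c v ≠ i then
      1 / ((univ.filter fun u => c u ≠ i).card : ℚ) else 0) fun x hx => by
        rw [(mem_filter.1 hx).2], ← sum_filter, sum_const, filter_filter]
    by_cases hv : c v ≠ i
    · have : (univ.filter fun x : V × V => c x.1 = i ∧ c x.1 = c x.2 ∧ d x.1 ≠ d x.2 ∧ c v ≠ i) =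
          (univ.filter fun u => c u = i ∧ d u = true) ×ˢ (univ.filter fun u => c u = i ∧ d u = false) ∪
          (univ.filter fun u => c u = i ∧ d u = false) ×ˢ (univ.filter fun u => c u = i ∧ d u = true) := by
        ext ⟨s, t⟩
        simp only [mem_filter, mem_univ, true_and, mem_union, mem_product]
        cases d s <;> cases d t <;> simp [hv] <;> intro e <;> rw [e, eq_comm]
      have p : ((univ.filter fun u => c u ≠ i).card : ℚ) ≠ 0 :=
        Nat.cast_ne_zero.2 (card_ne_zero_of_mem (a := v) (by simpa using hv))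
      rw [this, card_union_of_disjoint, card_product, card_product, if_pos hv, nsmul_eq_mul]
      · push_cast
        rw [mul_comm (_ : ℚ) ((univ.filter fun u => c u = i ∧ d u = true).card : ℚ), h i]
        field_simp
        ring
      · rw [Finset.disjoint_left]
        intro x h1 h2
        simp only [mem_product, mem_filter] at h1 h2
        exact absurd (h1.1.2.2.symm.trans h2.1.2.2) (by decide)
    · simp [hv]
  rw [e1, ← sum_fiberwise (s := univ) (g := fun x : V × V => c x.1), sum_congr rfl fun i _ => e2 i,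
    ← sum_filter, sum_const, filter_ne, card_erase_of_mem (mem_univ _), card_univ, nsmul_eq_mul,
    Nat.cast_sub (Fintype.card_pos_iff.2 ⟨c v⟩)]
  push_cast
  ring

end

theorem build {I : Type} [Fintype I] [DecidableEq I] [Nontrivial I] (a b : I → ℕ) (l : ℚ)
    (ha : ∀ i, 0 < a i) (h : ∀ i, (a i : ℚ) * b i = l * (∑ j, ((a j : ℚ) + b j) - a i - b i)) :
    ∃ (V : Type) (_ : Fintype V) (G : SimpleGraph V), G.Connected ∧
      ∀ v, betw G v = l * (Fintype.card I - 1) := by
  classical
  let V := Σ i : I, Fin (a i) ⊕ Fin (b i)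
  have hex : ∀ s : V, ∃ u : V, u.1 ≠ s.1 := fun s => by
    obtain ⟨j, hj⟩ := exists_ne s.1
    exact ⟨⟨j, .inl ⟨0, ha j⟩⟩, hj⟩
  have : Nonempty V := ⟨⟨Classical.arbitrary I, .inl ⟨0, ha _⟩⟩⟩
  refine ⟨V, inferInstance, G Sigma.fst fun x => x.2.isLeft, conn _ _ hex,
    betw_eq _ _ hex l fun i => ?_⟩
  have c1 : (univ.filter fun u : V => u.1 = i ∧ u.2.isLeft = true).card = a i := by
    rw [← Fintype.card_fin (a i), ← card_univ, ← card_image_of_injective
      (f := fun x => (⟨i, .inl x⟩ : V)) _ fun x y e => by simpa [V] using e]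
    congr 1
    ext ⟨j, x | x⟩
    · simp only [mem_filter, mem_univ, true_and, Sum.isLeft_inl, and_true, mem_image]
      exact ⟨fun e => by subst e; exact ⟨x, rfl⟩, fun ⟨y, e⟩ => (congrArg Sigma.fst e).symm⟩
    · simp only [mem_filter, mem_univ, true_and, Sum.isLeft_inr, mem_image]
      refine ⟨fun e => absurd e.2 (by decide), fun ⟨y, e⟩ => ?_⟩
      exact absurd (congrArg (fun z : V => z.2.isLeft) e) (by simp)
  have c2 : (univ.filter fun u : V => u.1 = i ∧ u.2.isLeft = false).card = b i := by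
    rw [← Fintype.card_fin (b i), ← card_univ, ← card_image_of_injective
      (f := fun x => (⟨i, .inr x⟩ : V)) _ fun x y e => by simpa [V] using e]
    congr 1
    ext ⟨j, x | x⟩
    · simp only [mem_filter, mem_univ, true_and, Sum.isLeft_inl, mem_image]
      refine ⟨fun e => absurd e.2 (by decide), fun ⟨y, e⟩ => ?_⟩
      exact absurd (congrArg (fun z : V => z.2.isLeft) e) (by simp)
    · simp only [mem_filter, mem_univ, true_and, Sum.isLeft_inr, and_true, mem_image]
      exact ⟨fun e => by subst e; exact ⟨x, rfl⟩, fun ⟨y, e⟩ => (congrArg Sigma.fst e).symm⟩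
  have c3 : (univ.filter fun u : V => u.1 ≠ i).card + (a i + b i) = ∑ j, (a j + b j) := by
    have h1 := card_filter_add_card_filter_not (s := (univ : Finset V)) fun u => u.1 = i
    have h2 := card_filter_add_card_filter_not (s := univ.filter fun u : V => u.1 = i)
      fun u => u.2.isLeft = true
    simp only [filter_filter, Bool.not_eq_true, c1, c2] at h2
    have h3 : (univ : Finset V).card = ∑ j, (a j + b j) := by simp [V]
    simp only [ne_eq]
    omega
  have c4 := congrArg (Nat.cast : ℕ → ℚ) c3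
  push_cast at c4
  rw [c1, c2, h i, ← c4]
  ring

theorem params (q m : ℕ) (hq : 0 < q) (hm : 0 < m) (hc : Nat.Coprime q m) :
    ∃ r t k2 k3 y c : ℕ, 0 < t ∧ 0 < y ∧ y + 1 = q * r ∧ m * t + c = q * r ∧
      k2 + c * q * r = 2 * (q + m) * r + 1 ∧ k2 + k3 = m * t + 1 := by
  obtain ⟨c, hc1, hc2⟩ : ∃ c, c * q ≤ 2 * (q + m) ∧ 2 * (q + m) < (c + 1) * q :=
    ⟨2 * (q + m) / q, Nat.div_mul_le_self _ _, by
      have := Nat.lt_mul_div_succ (2 * (q + m)) hq
      rw [mul_comm q] at this
      exact this⟩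
  obtain ⟨u, v, huv⟩ := Nat.isCoprime_iff_coprime.2 hc
  have hL : (0 : ℤ) ≤ |c * u| := abs_nonneg _
  have hL2 := neg_abs_le ((c : ℤ) * u)
  obtain ⟨r, hr⟩ := Int.eq_ofNat_of_zero_le (a := c * u + m * (|c * u| + c + 2)) (by nlinarith)
  have r1 : c + 2 ≤ r := by
    have : (c : ℤ) + 2 ≤ r := by rw [← hr]; nlinarith
    exact_mod_cast this
  have r2 : r ≤ q * r := Nat.le_mul_of_pos_left _ hq
  have e : (m : ℤ) * (q * (|c * u| + c + 2) - c * v) + c = q * r := by
    rw [← hr]; linear_combination (-(c : ℤ)) * huv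
  have r3 : (c : ℤ) + 2 ≤ q * r := by exact_mod_cast r1.trans r2
  have tp : (0 : ℤ) < q * (|c * u| + c + 2) - c * v := by
    by_contra hn
    have : (m : ℤ) * (q * (|c * u| + c + 2) - c * v) ≤ 0 :=
      mul_nonpos_of_nonneg_of_nonpos (by positivity) (not_lt.1 hn)
    omega
  obtain ⟨t, ht⟩ := Int.eq_ofNat_of_zero_le tp.le
  rw [ht] at e tp
  have e' : m * t + c = q * r := by exact_mod_cast e
  have a1 : c * q * r ≤ 2 * (q + m) * r := Nat.mul_le_mul_right _ hc1
  have a2 : (2 * (q + m) + 1) * r ≤ (c + 1) * q * r := Nat.mul_le_mul_right _ hc2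
  have a3 : (c + 1) * q * r = c * q * r + q * r := by ring
  have a4 : (2 * (q + m) + 1) * r = 2 * (q + m) * r + r := by ring
  exact ⟨r, t, 2 * (q + m) * r + 1 - c * q * r, m * t + 1 - (2 * (q + m) * r + 1 - c * q * r),
    q * r - 1, c, by exact_mod_cast tp, by omega, by omega, e', by omega, by omega⟩

theorem attained (α : ℚ) (h : 1 < α) : ∃ (V : Type) (_ : Fintype V) (G : SimpleGraph V),
    G.Connected ∧ ∀ v, betw G v = α := by
  have h0 : (α.den : ℤ) < α.num := by
    have h1 := Rat.num_div_den α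
    rw [← h1, one_lt_div (by exact_mod_cast α.den_pos)] at h
    exact_mod_cast h
  obtain ⟨m, hm⟩ := Int.eq_ofNat_of_zero_le (a := α.num - α.den) (by omega)
  have hα : α = ((α.den + m : ℕ) : ℚ) / α.den := by
    conv_lhs => rw [← Rat.num_div_den α]
    congr 1
    have : α.num = ((α.den + m : ℕ) : ℤ) := by push_cast; omega
    rw [this, Int.cast_natCast]
  have hc : Nat.Coprime α.den m := by
    have h1 := α.reduced
    have : α.num.natAbs = α.den + m := by omega
    rw [this] at h1
    simpa using h1.symm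
  have hq := α.den_pos
  generalize α.den = q at *
  obtain ⟨r, t, k2, k3, y, c, ht, hy, e1, e2, e3, e4⟩ := params q m hq (by omega) hc
  have hw : 0 < q * t := Nat.mul_pos hq ht
  have hcard : Fintype.card (Fin (q * t) ⊕ Fin k2 ⊕ Fin k3) = (q + m) * t + 1 := by
    simp only [Fintype.card_sum, Fintype.card_fin, e4]; ring
  have : Nontrivial (Fin (q * t) ⊕ Fin k2 ⊕ Fin k3) := by
    rw [← Fintype.one_lt_card_iff_nontrivial, hcard]
    have := Nat.mul_pos (show 0 < q + m by omega) ht
    omega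
  have f1 := congrArg (Nat.cast : ℕ → ℚ) e1
  have f2 := congrArg (Nat.cast : ℕ → ℚ) e2
  have f3 := congrArg (Nat.cast : ℕ → ℚ) e3
  have f4 := congrArg (Nat.cast : ℕ → ℚ) e4
  push_cast at f1 f2 f3 f4
  have q0 : (q : ℚ) ≠ 0 := by positivity
  have t0 : (t : ℚ) ≠ 0 := by positivity
  obtain ⟨V, i, G, h1, h2⟩ := build (I := Fin (q * t) ⊕ Fin k2 ⊕ Fin k3)
    (Sum.elim (fun _ => 1) (Sum.elim (fun _ => y + 1) fun _ => y))
    (Sum.elim (fun _ => 2 * y + 1 + (y + 1) * y * (q * t))
      (Sum.elim (fun _ => y + 1 + y * (q * t)) fun _ => y + 2 + (y + 1) * (q * t)))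
    (1 / (q * t)) (by rintro (i | i | i) <;> simp [hy]) (by
      have hs : ∑ j : Fin (q * t) ⊕ Fin k2 ⊕ Fin k3,
          (((Sum.elim (fun _ => 1) (Sum.elim (fun _ => y + 1) fun _ => y) j : ℕ) : ℚ) +
          (Sum.elim (fun _ => 2 * y + 1 + (y + 1) * y * (q * t))
            (Sum.elim (fun _ => y + 1 + y * (q * t)) fun _ => y + 2 + (y + 1) * (q * t)) j : ℕ)) =
          2 * y + 2 + q * t * (2 * y + 1 + (y + 1) * y) + (q * t) ^ 2 * ((y + 1) * y) := by
        simp only [Fintype.sum_sum_type, Sum.elim_inl, Sum.elim_inr, sum_const, card_univ,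
          Fintype.card_fin, nsmul_eq_mul]
        push_cast
        linear_combination (2 * y + 2 + (y + 1) * (q * t)) * f4 - q * t * f3 +
          q * t * (y + 1) * f2 + (q * t * (q * r - c + y) + 2 * (q + m) * t - q * t * (y + 1)
            + q * t - q * t * (q * r) - q * t * (y + 1)) * f1
      rw [hs]
      rintro (i | i | i) <;> simp only [Sum.elim_inl, Sum.elim_inr] <;> push_cast <;>
        field_simp <;> ring)
  refine ⟨V, i, G, h1, fun v => ?_⟩
  rw [h2 v, hcard, hα]
  push_cast
  field_simp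
  ring

end Pool.Agent.H20.Betw
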