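import Mathlib

namespace Pool.Agent.H20

/-- The shortest `s`-`t` paths: walks whose length is the distance. -/
def geodesics {V : Type} (G : SimpleGraph V) (s t : V) : Set (G.Walk s t) :=
  {p | p.length = G.dist s t}

open Classical in
/-- Betweenness of `v`: half the sum over ordered pairs of distinct vertices other than `v`. -/
noncomputable def betw {V : Type} [Fintype V] (G : SimpleGraph V) (v : V) : ℚ :=
  (∑ x ∈ (Finset.univ.erase v).offDiag,
    (({p ∈ geodesics G x.1 x.2 | v ∈ p.support}.ncard : ℚ) / (geodesics G x.1 x.2).ncard)) / 2

end Pool.Agent.H20
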