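import Pool.Agent.H20.CSatDefs

namespace H20.CSat

open Finset

variable {α : Type} [Fintype α] [DecidableEq α] {m : ℕ}

theorem HasCopy.mono {i : Fin m → ℕ} {F G : Finset (Finset α)} (h : HasCopy i F) (hs : F ⊆ G) :
    HasCopy i G := by
  obtain ⟨b, h1, h2, h3⟩ := h
  exact ⟨b, h1, fun p => hs (h2 p), h3⟩

theorem extend (i : Fin m → ℕ) (F U : Finset (Finset α)) (h : ¬ HasCopy i F)
    (hU : ∀ G ∉ U, HasCopy i (insert G F)) : ∃ K : Finset (Finset α), Saturated i K ∧ K.card ≤ U.card := by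
  classical
  obtain ⟨K, hK, hmax⟩ := exists_max_image
    ((univ : Finset (Finset (Finset α))).filter fun K => F ⊆ K ∧ ¬ HasCopy i K) card
    ⟨F, by simp [h]⟩
  simp only [mem_filter, mem_univ, true_and] at hK hmax
  refine ⟨K, ⟨hK.2, fun G hG => ?_⟩, card_le_card fun G hG => ?_⟩
  · by_contra hn
    have := hmax (insert G K) ⟨hK.1.trans (subset_insert _ _), hn⟩
    rw [card_insert_of_notMem hG] at this
    omega
  · by_contra hn
    exact hK.2 ((hU G hn).mono (insert_subset hG hK.1))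

theorem sat_le {n : ℕ} (i : Fin m → ℕ) (F U : Finset (Finset (Fin n))) (h : ¬ HasCopy i F)
    (hU : ∀ G ∉ U, HasCopy i (insert G F)) : sat n i ≤ U.card := by
  obtain ⟨K, hK, hc⟩ := extend i F U h hU
  have : sat n i ≤ K.card := Nat.sInf_le ⟨K, hK, rfl⟩
  exact this.trans hc

theorem sat_le_pow (n : ℕ) (i : Fin m → ℕ) (j : Fin m) (hj : 1 ≤ i j) : sat n i ≤ 2 ^ n := by
  have := sat_le (n := n) i ∅ univ (by rintro ⟨b, -, h, -⟩; simpa using h ⟨j, ⟨0, hj⟩⟩) (by simp)
  simpa using this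

theorem build (i : Fin m → ℕ) (F : Finset (Finset α)) (c : Fin m → ℕ → Finset α)
    (h1 : ∀ j a, a < i j → c j a ∈ F) (h2 : ∀ j a, a + 1 < i j → c j a ⊂ c j (a + 1))
    (h3 : ∀ j j' a b, j ≠ j' → a < i j → b < i j' → ¬ c j a ⊆ c j' b) : HasCopy i F := by
  have lt : ∀ j a b, a < b → b < i j → c j a ⊂ c j b := by
    intro j a b hab hb
    induction b with
    | zero => omega
    | succ b ih =>
      rcases Nat.lt_succ_iff_lt_or_eq.1 hab with h | rfl
      · exact (ih h (by omega)).trans (h2 j b hb)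
      · exact h2 j a hb
  have iff : ∀ p q : (Σ j : Fin m, Fin (i j)),
      (p.1 = q.1 ∧ (p.2 : ℕ) ≤ (q.2 : ℕ)) ↔ c p.1 p.2 ⊆ c q.1 q.2 := by
    rintro ⟨j, a⟩ ⟨j', b⟩
    constructor
    · rintro ⟨e, hab⟩
      dsimp only at e hab ⊢
      subst e
      rcases hab.lt_or_eq with h | h
      · exact (lt j a b h b.2).subset
      · rw [h]
    · intro h
      dsimp only at h ⊢
      by_cases e : j = j'
      · subst e
        refine ⟨rfl, ?_⟩
        by_contra hn
        exact (lt j b a (not_le.1 hn) a.2).not_subset h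
      · exact absurd h (h3 j j' a b e a.2 b.2)
  refine ⟨fun p => c p.1 p.2, ?_, fun p => h1 _ _ p.2.2, iff⟩
  rintro ⟨j, a⟩ ⟨j', b⟩ e
  obtain ⟨e1, e2⟩ := (iff ⟨j, a⟩ ⟨j', b⟩).2 (le_of_eq e)
  obtain ⟨-, e3⟩ := (iff ⟨j', b⟩ ⟨j, a⟩).2 (le_of_eq e.symm)
  dsimp only at e1 e2 e3
  subst e1
  rw [Fin.ext (le_antisymm e2 e3)]

def rk (Z X : Finset α) : ℕ := (X ∩ Z).card + if Zᶜ ⊆ X then 1 else 0

def Base (Z : Finset α) (d s k : ℕ) : Finset (Finset α) :=
  univ.filter fun X => ((X \ Z).card = d ∨ Zᶜ ⊆ X) ∧ s ≤ rk Z X ∧ rk Z X + 2 ≤ s + k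

theorem rk_lt {Z X Y : Finset α} {d s k : ℕ} (hX : X ∈ Base Z d s k) (hY : Y ∈ Base Z d s k)
    (h : X ⊂ Y) : rk Z X < rk Z Y := by
  simp only [Base, mem_filter, mem_univ, true_and] at hX hY
  have hc := card_lt_card h
  have e1 := card_sdiff_add_card_inter X Z
  have e2 := card_sdiff_add_card_inter Y Z
  have le : (X ∩ Z).card ≤ (Y ∩ Z).card := card_le_card (inter_subset_inter_right h.subset)
  unfold rk
  by_cases h1 : Zᶜ ⊆ X
  · have h2 : Zᶜ ⊆ Y := h1.trans h.subset
    have : (Y \ Z).card ≤ (X \ Z).card :=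
      card_le_card fun x hx => by
        simp only [mem_sdiff] at hx ⊢; exact ⟨h1 (mem_compl.2 hx.2), hx.2⟩
    simp only [h1, h2, if_true]; omega
  · by_cases h2 : Zᶜ ⊆ Y
    · simp only [h1, h2, if_true, if_false]; omega
    · have a1 := hX.1.resolve_right h1
      have a2 := hY.1.resolve_right h2
      simp only [h1, h2, if_false]; omega

theorem has_extra {i : Fin m → ℕ} {Z : Finset α} {d s k : ℕ}
    (b : (Σ j : Fin m, Fin (i j)) → Finset α) (hb : Function.Injective b)
    (h : ∀ p q, (p.1 = q.1 ∧ (p.2 : ℕ) ≤ (q.2 : ℕ)) ↔ b p ⊆ b q) (j : Fin m) (hj : i j = k)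
    (hk : 1 ≤ k) : ∃ a : Fin (i j), b ⟨j, a⟩ ∉ Base Z d s k := by
  by_contra hn
  push Not at hn
  have key : ∀ a (ha : a < i j), s + a ≤ rk Z (b ⟨j, ⟨a, ha⟩⟩) := by
    intro a
    induction a with
    | zero =>
      intro ha
      have := hn ⟨0, ha⟩
      simp only [Base, mem_filter] at this
      exact this.2.2.1
    | succ a ih =>
      intro ha
      have h1 := ih (by omega)
      have h2 : b ⟨j, ⟨a, by omega⟩⟩ ⊂ b ⟨j, ⟨a + 1, ha⟩⟩ := by
        refine ssubset_of_subset_of_ne ((h _ _).1 ⟨rfl, by simp⟩) fun e => ?_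
        have := hb e
        simp at this
      have := rk_lt (hn _) (hn _) h2
      omega
  have h1 := key (k - 1) (by omega)
  have h2 := hn ⟨k - 1, by omega⟩
  simp only [Base, mem_filter] at h2
  omega

theorem flag (A B C : Finset α) (hAB : A ⊆ B) (hBC : B ⊆ C) : ∃ f : ℕ → Finset α,
    Monotone f ∧ (∀ a, f a ⊆ C) ∧ (∀ a ≤ C.card, (f a).card = a) ∧ f A.card = A ∧ f B.card = B := by
  let L := A.toList ++ (B \ A).toList ++ (C \ B).toList
  have hB : B.card = A.card + (B \ A).card := by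
    rw [card_sdiff_of_subset hAB]; have := card_le_card hAB; omega
  have hC : C.card = B.card + (C \ B).card := by
    rw [card_sdiff_of_subset hBC]; have := card_le_card hBC; omega
  have nd : L.Nodup := by
    simp only [L, List.nodup_append, nodup_toList, mem_toList, List.mem_append, mem_sdiff, true_and]
    refine ⟨?_, ?_⟩
    · rintro a ha b hb rfl; exact hb.2 ha
    · rintro a (ha | ha) b hb rfl
      · exact hb.2 (hAB ha)
      · exact hb.2 ha.1
  have len : L.length = C.card := by simp [L]; omega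
  refine ⟨fun a => (L.take a).toFinset, fun a b hab x hx => ?_, fun a x hx => ?_, fun a ha => ?_,
    ?_, ?_⟩
  · simp only [List.mem_toFinset] at hx ⊢
    exact (List.take_prefix_take_left hab).subset hx
  · have := List.mem_of_mem_take (List.mem_toFinset.1 hx)
    simp only [L, List.mem_append, mem_toList, mem_sdiff] at this
    rcases this with (h | h) | h
    · exact hBC (hAB h)
    · exact hBC h.1
    · exact h.1
  · rw [List.toFinset_card_of_nodup (nd.sublist (List.take_sublist _ _))]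
    simp; omega
  · have : L.take A.card = A.toList := by
      simp only [L, List.append_assoc]
      exact List.take_left' (by simp)
    simp [this]
  · have : L.take B.card = A.toList ++ (B \ A).toList := by
      exact List.take_left' (by simp; omega)
    simp [this, union_sdiff_of_subset hAB]

theorem gchain (Z G Y A C : Finset α) (s k : ℕ) (hs : 2 ≤ s) (hk : 1 ≤ k) (hY : Y ⊂ G \ Z)
    (hG : ¬ Zᶜ ⊆ G) (hA : A ⊆ G ∩ Z) (hA' : A.card + 1 ≤ s) (hC : G ∩ Z ⊆ C) (hCZ : C ⊆ Z)
    (hc : s + k ≤ C.card) :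
    ∃ (c : ℕ → Finset α) (Φ Q : Finset α), Φ.card = s + k ∧ Q ⊆ Φ ∧ Φ ⊆ C ∧ Q.card = s ∧
      (∀ a < k, c a ∈ insert G (Base Z Y.card s k)) ∧ (∀ a, a + 1 < k → c a ⊂ c (a + 1)) ∧
      (∀ a < k, A ∪ Y ⊆ c a ∧ c a ∩ Z ⊆ C ∧
        (c a = G ∨ (c a ∩ Z ⊆ Φ ∧ (c a ∩ Z).card + 2 ≤ s + k ∧ s ≤ (c a ∩ Z).card + 1 ∧
          (c a ⊆ G ∨ Zᶜ ⊆ c a))) ∧
        (s ≤ (G ∩ Z).card → Q ⊆ c a) ∧ ((G ∩ Z).card < s → G ⊆ c a ∧ G ∩ Z ⊆ Φ)) := by
  obtain ⟨f, mono, sub, crd, fA, fB⟩ := flag A (G ∩ Z) C hA hC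
  set w := (G ∩ Z).card with hw
  have hYZ : ∀ x ∈ Y, x ∉ Z := fun x hx => (mem_sdiff.1 (hY.subset hx)).2
  have hYG : Y ⊆ G := fun x hx => (mem_sdiff.1 (hY.subset hx)).1
  have fZ : ∀ a, f a ⊆ Z := fun a => (sub a).trans hCZ
  have i1 : ∀ a, (f a ∪ Y) ∩ Z = f a := by
    intro a; ext x; simp only [mem_inter, mem_union]
    exact ⟨fun h => h.1.resolve_right fun h' => hYZ x h' h.2, fun h => ⟨Or.inl h, fZ a h⟩⟩
  have i2 : ∀ a, (f a ∪ Zᶜ) ∩ Z = f a := by
    intro a; ext x; simp only [mem_inter, mem_union, mem_compl]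
    exact ⟨fun h => h.1.resolve_right fun h' => h' h.2, fun h => ⟨Or.inl h, fZ a h⟩⟩
  have i3 : ∀ a, (f a ∪ Y) \ Z = Y := by
    intro a; ext x; simp only [mem_sdiff, mem_union]
    exact ⟨fun h => h.1.resolve_left fun h' => h.2 (fZ a h'), fun h => ⟨Or.inr h, hYZ x h⟩⟩
  have lo : ∀ a ≤ w, f a ∪ Y ⊆ G := fun a ha =>
    union_subset ((mono ha).trans (by rw [fB]; exact inter_subset_left)) hYG
  have hi : ∀ a, w ≤ a → G ⊆ f a ∪ Zᶜ := by
    intro a ha x hx
    by_cases hz : x ∈ Z
    · exact mem_union_left _ (mono ha (by rw [fB]; exact mem_inter.2 ⟨hx, hz⟩))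
    · exact mem_union_right _ (mem_compl.2 hz)
  have Af : ∀ a, s ≤ a + 1 → A ⊆ f a := fun a ha => by
    rw [← fA]; exact mono (by omega)
  have st : ∀ a (T : Finset α), a + 1 ≤ s + k → (∀ x ∈ T, x ∉ Z) → f a ∪ T ⊂ f (a + 1) ∪ T := by
    intro a T ha hT
    refine ssubset_of_subset_of_ne (union_subset_union_left (mono (by omega))) fun e => ?_
    have : f (a + 1) ⊆ f a := fun x hx => by
      have : x ∈ f a ∪ T := e ▸ mem_union_left _ hx
      exact (mem_union.1 this).resolve_right fun h => hT x h (fZ _ hx)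
    have := card_le_card this
    rw [crd _ (by omega), crd _ (by omega)] at this
    omega
  let p := min (w + 1 - s) (k - 1)
  refine ⟨fun a => if a < p then f (s + a) ∪ Y else if a = p then G else f (s + a - 2) ∪ Zᶜ,
    f (s + k), f s, crd _ hc, mono (by omega), sub _, crd _ (by omega), ?_, ?_, ?_⟩
  · intro a ha
    dsimp only
    split_ifs with h1 h2
    · refine mem_insert_of_mem ?_
      have : ¬ Zᶜ ⊆ f (s + a) ∪ Y := fun h => hG (h.trans (lo _ (by omega)))
      simp only [Base, mem_filter, mem_univ, true_and, rk, i1, i3, this, if_false, true_or]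
      rw [crd _ (by omega)]; omega
    · exact mem_insert_self _ _
    · refine mem_insert_of_mem ?_
      simp only [Base, mem_filter, mem_univ, true_and, rk, i2, subset_union_right, if_true, or_true]
      rw [crd _ (by omega)]; omega
  · intro a ha
    dsimp only
    by_cases h1 : a + 1 < p
    · rw [if_pos (by omega), if_pos h1]
      exact st _ _ (by omega) hYZ
    by_cases h2 : a + 1 = p
    · rw [if_pos (by omega), if_neg h1, if_pos h2]
      refine ssubset_of_subset_of_ne (lo _ (by omega)) fun e => ?_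
      have := i3 (s + a)
      rw [e] at this
      exact hY.ne this.symm
    by_cases h3 : a = p
    · rw [if_neg (by omega), if_pos h3, if_neg h1, if_neg h2]
      refine ssubset_of_subset_of_ne (hi _ (by omega)) fun e => hG ?_
      rw [e]; exact subset_union_right
    · rw [if_neg (by omega), if_neg h3, if_neg h1, if_neg h2]
      have := st (s + a - 2) Zᶜ (by omega) (fun x hx => mem_compl.1 hx)
      rwa [show s + a - 2 + 1 = s + (a + 1) - 2 by omega] at this
  · intro a ha
    dsimp only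
    have AG : A ∪ Y ⊆ G := union_subset (hA.trans inter_subset_left) hYG
    have sm : w < s → G ∩ Z ⊆ f (s + k) := fun h => by rw [← fB]; exact mono (by omega)
    have qG : s ≤ w → f s ⊆ G := fun h => subset_union_left.trans (lo s h)
    split_ifs with h1 h2
    · refine ⟨union_subset_union_left (Af _ (by omega)), by rw [i1]; exact sub _,
        Or.inr ⟨by rw [i1]; exact mono (by omega), by rw [i1, crd _ (by omega)]; omega,
          by rw [i1, crd _ (by omega)]; omega, Or.inl (lo _ (by omega))⟩,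
        fun _ => (mono (by omega)).trans subset_union_left, fun h => by omega⟩
    · exact ⟨AG, hC, Or.inl rfl, qG, fun h => ⟨Subset.refl _, sm h⟩⟩
    · refine ⟨AG.trans (hi _ (by omega)), by rw [i2]; exact sub _,
        Or.inr ⟨by rw [i2]; exact mono (by omega), by rw [i2, crd _ (by omega)]; omega,
          by rw [i2, crd _ (by omega)]; omega, Or.inr subset_union_right⟩,
        fun h => (qG h).trans (hi _ (by omega)), fun h => ⟨hi _ (by omega), sm h⟩⟩

theorem card_out (S O : Finset α) : (univ.filter fun X : Finset α => X \ S = O).card ≤ 2 ^ S.card := by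
  rw [← card_powerset]
  refine card_le_card_of_injOn (fun X => X ∩ S) (fun X _ => by simp) ?_
  intro X hX Y hY e
  simp only [coe_filter, mem_univ, true_and, Set.mem_ofPred_eq] at hX hY e
  rw [← sdiff_union_inter X S, ← sdiff_union_inter Y S, hX, hY, e]

end H20.CSat
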