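import Pool.Agent.H20.CSat1

namespace H20.CSat

open Finset

variable {α : Type} [Fintype α] [DecidableEq α] {m : ℕ}

def Ex (z : Fin m → α) (T : Finset (Fin m)) : Finset (Finset α) :=
  insert (T.image z) ((T.image fun j => (T.image z).erase (z j)) ∪ T.image fun j => {z j}ᶜ)

theorem extras {i : Fin m → ℕ} {Z : Finset α} {d s k : ℕ} {E : Finset (Finset α)} (hk : 1 ≤ k)
    (b : (Σ j : Fin m, Fin (i j)) → Finset α) (hb : Function.Injective b)
    (hm : ∀ p, b p ∈ Base Z d s k ∪ E)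
    (h : ∀ p q, (p.1 = q.1 ∧ (p.2 : ℕ) ≤ (q.2 : ℕ)) ↔ b p ⊆ b q) :
    ∃ x : Fin m → Finset α, (∀ j, i j = k → x j ∈ E) ∧
      (∀ j j', i j = k → i j' = k → j ≠ j' → ¬ x j ⊆ x j') ∧
      ∀ j, i j = k → ∀ p : (Σ j : Fin m, Fin (i j)), p.1 ≠ j → ¬ x j ⊆ b p ∧ ¬ b p ⊆ x j := by
  have : ∀ j, ∃ X : Finset α, i j = k → X ∈ E ∧ ∃ a, X = b ⟨j, a⟩ := by
    intro j
    by_cases hj : i j = k
    · obtain ⟨a, ha⟩ := has_extra (Z := Z) (d := d) (s := s) b hb h j hj hk
      exact ⟨b ⟨j, a⟩, fun _ => ⟨(mem_union.1 (hm _)).resolve_left ha, a, rfl⟩⟩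
    · exact ⟨∅, fun h => absurd h hj⟩
  choose x hx using this
  refine ⟨x, fun j hj => (hx j hj).1, fun j j' hj hj' hne hs => ?_, fun j hj p hp => ?_⟩
  · obtain ⟨a, ha⟩ := (hx j hj).2
    obtain ⟨a', ha'⟩ := (hx j' hj').2
    rw [ha, ha'] at hs
    exact hne ((h _ _).2 hs).1
  · obtain ⟨a, ha⟩ := (hx j hj).2
    rw [ha]
    exact ⟨fun hs => hp ((h _ _).2 hs).1.symm, fun hs => hp ((h _ _).2 hs).1⟩

theorem free2 (i : Fin m → ℕ) (k : ℕ) (j0 j1 : Fin m) (h0 : i j0 = k) (h1 : i j1 < k)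
    (hp : 1 ≤ i j1) (z : Fin m → α) (Z : Finset α) (s : ℕ) :
    ¬ HasCopy i (Base Z 0 s k ∪ Ex z ((univ.filter fun j => i j = k).erase j0)) := by
  rintro ⟨b, hb, hm, h⟩
  set T := (univ.filter fun j => i j = k).erase j0 with hT
  obtain ⟨x, x1, x2, x3⟩ := extras (by omega) b hb hm h
  set X := b ⟨j1, ⟨0, hp⟩⟩ with hX
  have x4 : ∀ j, i j = k → ¬ x j ⊆ X ∧ ¬ X ⊆ x j := fun j hj =>
    x3 j hj _ (by rintro rfl; exact absurd hj h1.ne)
  obtain ⟨g, g1, g2⟩ : ∃ g : Fin m → Finset α, (∀ l, (T.image z).erase (z l) ⊆ g l) ∧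
      ∀ j, i j = k → ∃ l ∈ T, x j = (T.image z).erase (z l) ∨ x j = g l := by
    have er : ∀ l, (T.image z).erase (z l) ⊆ {z l}ᶜ := fun l y hy => by
      simpa using (mem_erase.1 hy).1
    by_cases hz : T.image z ⊆ X
    · refine ⟨fun l => {z l}ᶜ, er, fun j hj => ?_⟩
      have := x1 j hj
      simp only [Ex, mem_insert, mem_union, mem_image] at this
      rcases this with e | ⟨l, hl, e⟩ | ⟨l, hl, e⟩
      · exact absurd (e ▸ hz) (x4 j hj).1
      · exact ⟨l, hl, Or.inl e.symm⟩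
      · exact ⟨l, hl, Or.inr e.symm⟩
    · obtain ⟨y, hy, hyX⟩ := not_subset.1 hz
      obtain ⟨l0, hl0, rfl⟩ := mem_image.1 hy
      refine ⟨fun l => if l = l0 then T.image z else {z l}ᶜ, fun l => ?_, fun j hj => ?_⟩
      · dsimp only
        split_ifs
        · exact erase_subset _ _
        · exact er l
      · have := x1 j hj
        simp only [Ex, mem_insert, mem_union, mem_image] at this
        rcases this with e | ⟨l, hl, e⟩ | ⟨l, hl, e⟩
        · exact ⟨l0, hl0, Or.inr (by simp [e])⟩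
        · exact ⟨l, hl, Or.inl e.symm⟩
        · refine ⟨l, hl, Or.inr ?_⟩
          dsimp only
          rw [if_neg, e]
          rintro rfl
          refine (x4 j hj).2 ?_
          rw [← e]
          intro y hy
          simp only [mem_compl, mem_singleton]
          rintro rfl; exact hyX hy
  have g3 : ∀ j, ∃ l, i j = k → l ∈ T ∧ (x j = (T.image z).erase (z l) ∨ x j = g l) := by
    intro j
    by_cases hj : i j = k
    · obtain ⟨l, hl⟩ := g2 j hj
      exact ⟨l, fun _ => hl⟩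
    · exact ⟨j, fun h => absurd h hj⟩
  choose l hl using g3
  obtain ⟨j, hj, j', hj', hne, e⟩ := exists_ne_map_eq_of_card_lt_of_maps_to
    (s := univ.filter fun j => i j = k) (t := T) (f := l)
    (card_erase_lt_of_mem (by simp [h0])) (fun j hj => (hl j (by simpa using hj)).1)
  simp only [mem_filter, mem_univ, true_and] at hj hj'
  have a1 := x2 j j' hj hj' hne
  have a2 := x2 j' j hj' hj hne.symm
  rcases (hl j hj).2 with e1 | e1 <;> rcases (hl j' hj').2 with e2 | e2 <;>
    rw [e1, e2, e] at a1 a2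
  · exact a1 (Subset.refl _)
  · exact a1 (g1 _)
  · exact a2 (g1 _)
  · exact a1 (Subset.refl _)

theorem pick (z : Fin m → α) (hz : Function.Injective z) (T : Finset (Fin m)) (G : Finset α) :
    ∃ (τ : Fin m → Finset α) (bot : Fin m → Prop), (∀ j, τ j ⊆ T.image z) ∧
      (∀ j ∉ T, τ j = G ∩ T.image z) ∧
      (∀ j ∈ T, (bot j → τ j ∈ Ex z T) ∧ (¬ bot j → z j ∉ τ j)) ∧
      ∀ j ∈ T, ∀ j', j' ≠ j → (bot j → ¬ τ j ⊆ τ j') ∧ (¬ bot j → z j ∈ τ j') := by
  classical
  have er : ∀ j ∈ T, (T.image z).erase (z j) ∈ Ex z T := fun j hj =>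
    mem_insert_of_mem (mem_union_left _ (mem_image_of_mem _ hj))
  have me : ∀ j ∈ T, ∀ j', j' ≠ j → z j ∈ (T.image z).erase (z j') := fun j hj j' hne =>
    mem_erase.2 ⟨fun e => hne (hz e).symm, mem_image_of_mem _ hj⟩
  by_cases h : ∀ j ∈ T, ∃ l ∈ T, l ≠ j ∧ z l ∉ G
  · refine ⟨fun j => if j ∈ T then (T.image z).erase (z j) else G ∩ T.image z, fun _ => True,
      fun j => ?_, fun j hj => by simp [hj], fun j hj => ⟨fun _ => by simp only [hj, if_true]; exact er j hj,
        fun h => absurd trivial h⟩, fun j hj j' hne => ⟨fun _ hs => ?_, fun h => absurd trivial h⟩⟩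
    · dsimp only; split_ifs
      · exact erase_subset _ _
      · exact inter_subset_right
    · simp only [hj, if_true] at hs
      split_ifs at hs with h'
      · exact notMem_erase _ _ (hs (me j' h' j hne.symm))
      · obtain ⟨l, hl, hne, hG⟩ := h j hj
        exact hG (mem_inter.1 (hs (me l hl j hne.symm))).1
  · push Not at h
    obtain ⟨j0, hj0, h⟩ := h
    refine ⟨fun j => if j = j0 ∧ z j0 ∉ G then T.image z else
      if j ∈ T then (T.image z).erase (z j) else G ∩ T.image z, fun j => j = j0 ∧ z j0 ∉ G,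
      fun j => ?_, fun j hj => ?_, fun j hj => ⟨fun hb => ?_, fun hb => ?_⟩,
      fun j hj j' hne => ⟨fun hb hs => ?_, fun hb => ?_⟩⟩
    · dsimp only; split_ifs
      · exact Subset.refl _
      · exact erase_subset _ _
      · exact inter_subset_right
    · have : j ≠ j0 := by rintro rfl; exact hj hj0
      simp [hj, this]
    · dsimp only; rw [if_pos hb]; exact mem_insert_self _ _
    · dsimp only; rw [if_neg hb, if_pos hj]; exact notMem_erase _ _
    · dsimp only at hs
      rw [if_pos hb, if_neg (fun h' => hne (h'.1.trans hb.1.symm))] at hs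
      split_ifs at hs with h'
      · exact notMem_erase _ _ (hs (mem_image_of_mem _ h'))
      · exact hb.2 (mem_inter.1 (hs (mem_image_of_mem _ hj0))).1
    · dsimp only
      split_ifs with h1 h2
      · exact mem_image_of_mem _ hj
      · exact me j hj j' hne
      · refine mem_inter.2 ⟨?_, mem_image_of_mem _ hj⟩
        by_cases e : j = j0
        · by_contra hn; exact hb ⟨e, e ▸ hn⟩
        · exact h j hj e

theorem blocks (R : Finset α) (q : ℕ) (hq : 1 ≤ q) (h : m * q ≤ R.card) :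
    ∃ (B : Fin m → ℕ → Finset α) (e : Fin m → α), (∀ j, e j ∈ R) ∧ (∀ j a, B j a ⊆ R) ∧
      (∀ j, Monotone (B j)) ∧ (∀ j, ∀ a ≤ q, (B j a).card = a) ∧ (∀ j a, 1 ≤ a → e j ∈ B j a) ∧
      ∀ j j' a, j ≠ j' → e j ∉ B j' a := by
  obtain ⟨f⟩ : Nonempty (Fin m × Fin q ↪ R) :=
    Function.Embedding.nonempty_of_card_le (by simpa using h)
  have inj : Function.Injective fun p => (f p : α) := Subtype.val_injective.comp f.injective
  refine ⟨fun j a => (univ.filter fun x : Fin q => (x : ℕ) < a).image fun x => (f (j, x) : α),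
    fun j => f (j, ⟨0, hq⟩), fun j => (f _).2, fun j a y hy => ?_, fun j a b hab => ?_,
    fun j a ha => ?_, fun j a ha => ?_, fun j j' a hne hy => ?_⟩
  · obtain ⟨x, -, rfl⟩ := mem_image.1 hy; exact (f _).2
  · exact image_subset_image (fun x hx => by simp at hx ⊢; omega)
  · rw [card_image_of_injective _ (fun x y e => by simpa using inj e), Fin.card_filter_val_lt]
    omega
  · exact mem_image.2 ⟨⟨0, hq⟩, by simp; omega, rfl⟩
  · obtain ⟨x, -, e⟩ := mem_image.1 hy
    have := inj e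
    simp only [Prod.mk.injEq] at this
    exact hne this.1.symm

theorem block2 (i : Fin m → ℕ) (k : ℕ) (j0 : Fin m) (h0 : i j0 = k) (hk : ∀ j, i j ≤ k)
    (hk1 : 1 ≤ k) (z : Fin m → α) (hz : Function.Injective z) (Z : Finset α) (hzZ : ∀ j, z j ∈ Z)
    (hZ : m + (m + 2 + k) + m * (m + 2 + k) ≤ Z.card) (G : Finset α) (hG1 : (G \ Z).Nonempty)
    (hG2 : ¬ Zᶜ ⊆ G) :
    HasCopy i (insert G (Base Z 0 (m + 2) k ∪ Ex z ((univ.filter fun j => i j = k).erase j0))) := by
  classical
  set T := (univ.filter fun j => i j = k).erase j0 with hT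
  set s := m + 2 with hs
  set Z0 := T.image z with hZ0
  have c0 : Z0.card ≤ m := card_image_le.trans (by simpa using card_le_univ T)
  have Z0Z : Z0 ⊆ Z := fun y hy => by obtain ⟨j, -, rfl⟩ := mem_image.1 hy; exact hzZ j
  have c1 : (Z \ Z0).card + Z0.card = Z.card := card_sdiff_add_card_eq_card Z0Z
  obtain ⟨c, Φ, Q, p1, p2, p3, p4, p5, p6, p7⟩ := gchain Z G ∅ (G ∩ Z0) ((G ∩ Z0) ∪ (Z \ Z0)) s k
    (by omega) hk1 hG1.empty_ssubset hG2 (inter_subset_inter_left Z0Z)
    (by have := card_le_card (inter_subset_right (s₁ := G) (s₂ := Z0)); omega)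
    (fun y hy => by simp only [mem_inter, mem_union, mem_sdiff] at hy ⊢; tauto)
    (union_subset (inter_subset_right.trans Z0Z) sdiff_subset)
    (le_trans (by omega) (card_le_card subset_union_right))
  obtain ⟨B, e, b1, b2, b3, b4, b5, b6⟩ := blocks (m := m) ((Z \ Z0) \ Φ) (s + k) (by omega)
    (by have := le_card_sdiff Φ (Z \ Z0); omega)
  obtain ⟨τ, bot, t1, t2, t3, t4⟩ := pick z hz T G
  rw [← hZ0] at t1 t2
  have j0T : j0 ∉ T := notMem_erase _ _
  have eZ : ∀ j, e j ∈ Z ∧ e j ∉ Z0 ∧ e j ∉ Φ := fun j => by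
    have := b1 j; simp only [mem_sdiff] at this; tauto
  have BZ : ∀ j a, ∀ y ∈ B j a, y ∈ Z ∧ y ∉ Z0 ∧ y ∉ Φ := fun j a y hy => by
    have := b2 j a hy; simp only [mem_sdiff] at this; tauto
  obtain ⟨h, hh⟩ := hG1
  rw [mem_sdiff] at hh
  set w := (G ∩ Z).card with hw
  obtain ⟨O, η, o1, o2, o3⟩ : ∃ (O : Finset α) (η : ℕ), (∀ y ∈ O, y ∉ Z) ∧
      (s ≤ w → O = Zᶜ ∧ η = 1) ∧ (w < s → O = ∅ ∧ η = 0) := by
    by_cases hsw : s ≤ w
    · exact ⟨Zᶜ, 1, fun y hy => mem_compl.1 hy, fun _ => ⟨rfl, rfl⟩, fun h => by omega⟩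
    · exact ⟨∅, 0, by simp, fun h => absurd h hsw, fun _ => ⟨rfl, rfl⟩⟩
  have η1 : η ≤ 1 := by
    rcases le_or_gt s w with h | h
    · exact (o2 h).2.le
    · rw [(o3 h).2]; omega
  have τc : ∀ j, (τ j).card ≤ m := fun j => (card_le_card (t1 j)).trans c0
  let D : Fin m → ℕ → Finset α := fun j a => τ j ∪ B j (s + a - η - (τ j).card) ∪ O
  have DZ : ∀ j a, D j a ∩ Z = τ j ∪ B j (s + a - η - (τ j).card) := by
    intro j a; ext y
    simp only [D, mem_inter, mem_union]
    refine ⟨fun h => h.1.resolve_right fun h' => o1 y h' h.2, fun h => ⟨Or.inl h, ?_⟩⟩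
    rcases h with h | h
    · exact Z0Z (t1 j h)
    · exact (BZ _ _ _ h).1
  have Dc : ∀ j a, a ≤ k → (D j a ∩ Z).card = s + a - η := by
    intro j a ha
    have := τc j
    rw [DZ, card_union_of_disjoint (disjoint_left.2 fun y hy hy' => (BZ _ _ _ hy').2.1 (t1 j hy)),
      b4 _ _ (by omega)]
    omega
  have De : ∀ j a, e j ∈ D j a := fun j a =>
    mem_union_left _ (mem_union_right _ (b5 _ _ (by have := τc j; omega)))
  have De' : ∀ j j' a, j ≠ j' → e j ∉ D j' a := by
    intro j j' a hne hy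
    simp only [D, mem_union] at hy
    rcases hy with (hy | hy) | hy
    · exact (eZ j).2.1 (t1 _ hy)
    · exact b6 _ _ _ hne hy
    · exact o1 _ hy (eZ j).1
  have Dm : ∀ j a, a + 2 ≤ k → D j a ∈ Base Z 0 s k := by
    intro j a ha
    simp only [Base, mem_filter, mem_univ, true_and, rk, Dc j a (by omega)]
    rcases le_or_gt s w with h' | h'
    · have : Zᶜ ⊆ D j a := by rw [← (o2 h').1]; exact subset_union_right
      simp only [this, if_true, or_true, true_and, (o2 h').2]; omega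
    · have a1 : D j a ⊆ Z := by
        rw [← inter_eq_left, DZ]; simp [D, (o3 h').1]
      have : ¬ Zᶜ ⊆ D j a := fun hs => hh.2 (a1 (hs (mem_compl.2 hh.2)))
      simp only [this, if_false, or_false, (o3 h').2, sdiff_eq_empty_iff_subset.2 a1, card_empty,
        true_and]
      omega
  have Ds : ∀ j a, a + 1 ≤ k → D j a ⊂ D j (a + 1) := by
    intro j a ha
    refine ssubset_of_subset_of_ne (union_subset_union_left (union_subset_union_right
      (b3 j (by omega)))) fun e => ?_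
    have h1 := Dc j a (by omega)
    have h2 := Dc j (a + 1) ha
    rw [e] at h1
    omega
  let typ : Finset α → Finset α → Prop := fun σ X => X ∩ Z0 = σ ∧ ¬ X ⊆ Z0 ∧ ¬ Z0ᶜ ⊆ X
  have Dt : ∀ j a, j ≠ j0 → typ (τ j) (D j a) := by
    intro j a hj
    refine ⟨?_, fun hs => (eZ j).2.1 (hs (De j a)),
      fun hs => De' j0 j a hj.symm (hs (mem_compl.2 (eZ j0).2.1))⟩
    ext y
    simp only [D, mem_inter, mem_union]
    refine ⟨fun h => ?_, fun h => ⟨Or.inl (Or.inl h), t1 j h⟩⟩
    rcases h.1 with (hy | hy) | hy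
    · exact hy
    · exact absurd h.2 (BZ _ _ _ hy).2.1
    · exact absurd (Z0Z h.2) (o1 _ hy)
  have ct : ∀ a < k, typ (τ j0) (c a) := by
    intro a ha
    obtain ⟨q1, q2, q3, -, -⟩ := p7 a ha
    refine ⟨?_, fun hs => ?_, fun hs => ?_⟩
    · rw [t2 j0 j0T]
      ext y
      simp only [mem_inter]
      refine ⟨fun h => ?_, fun h => ⟨q1 (mem_union_left _ (mem_inter.2 h)), h.2⟩⟩
      have := q2 (mem_inter.2 ⟨h.1, Z0Z h.2⟩)
      simp only [mem_union, mem_inter, mem_sdiff] at this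
      tauto
    · rcases q3 with q | ⟨-, -, q, -⟩
      · exact hh.2 (Z0Z (hs (q ▸ hh.1)))
      · have := card_le_card (inter_subset_left.trans hs : c a ∩ Z ⊆ Z0)
        omega
    · rcases q3 with q | ⟨q, -, -, -⟩
      · exact hG2 ((compl_subset_compl.2 Z0Z).trans (q ▸ hs))
      · exact (eZ j0).2.2 (q (mem_inter.2 ⟨hs (mem_compl.2 (eZ j0).2.1), (eZ j0).1⟩))
  have GD : ∀ a < k, ∀ j b, ¬ c a ⊆ D j b ∧ ¬ D j b ⊆ c a := by
    intro a ha j b
    obtain ⟨-, -, q3, q4, q5⟩ := p7 a ha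
    constructor
    · intro hs
      rcases le_or_gt s w with h' | h'
      · obtain ⟨u, hu, hu'⟩ : ∃ u ∈ Q, u ∉ Z0 := by
          by_contra hn; push Not at hn
          have := card_le_card (show Q ⊆ Z0 from hn); omega
        have uZ : u ∈ Z := (union_subset (inter_subset_right.trans Z0Z) sdiff_subset) (p3 (p2 hu))
        have := mem_inter.2 ⟨hs (q4 h' hu), uZ⟩
        rw [DZ] at this
        rcases mem_union.1 this with hy | hy
        · exact hu' (t1 _ hy)
        · exact (BZ _ _ _ hy).2.2 (p2 hu)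
      · have a1 : D j b ⊆ Z := by
          rw [← inter_eq_left, DZ]; simp [D, (o3 h').1]
        exact hh.2 (a1 (hs ((q5 h').1 hh.1)))
    · intro hs
      rcases q3 with q | ⟨q, -, -, -⟩
      · rcases le_or_gt s w with h' | h'
        · refine hG2 ?_
          rw [← (o2 h').1, ← q]
          exact subset_union_right.trans hs
        · exact (eZ j).2.2 ((q5 h').2 (mem_inter.2 ⟨q ▸ hs (De j b), (eZ j).1⟩))
      · exact (eZ j).2.2 (q (mem_inter.2 ⟨hs (De j b), (eZ j).1⟩))
  let x : Fin m → Finset α := fun j => if bot j then τ j else {z j}ᶜ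
  have xm : ∀ j ∈ T, x j ∈ Ex z T := by
    intro j hj
    simp only [x]; split_ifs with hb
    · exact (t3 j hj).1 hb
    · exact mem_insert_of_mem (mem_union_right _ (mem_image_of_mem _ hj))
  have zZ0 : ∀ j ∈ T, z j ∈ Z0 := fun j hj => mem_image_of_mem _ hj
  have co : ∀ j ∈ T, Z0ᶜ ⊆ {z j}ᶜ := fun j hj => compl_subset_compl.2 (by simpa using zZ0 j hj)
  have XT : ∀ j ∈ T, ∀ j', j' ≠ j → ∀ X, typ (τ j') X → ¬ x j ⊆ X ∧ ¬ X ⊆ x j := by
    rintro j hj j' hne X ⟨q1, q2, q3⟩
    simp only [x]; split_ifs with hb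
    · exact ⟨fun hs => (t4 j hj j' hne).1 hb (q1 ▸ subset_inter hs (t1 j)),
        fun hs => q2 (hs.trans (t1 j))⟩
    · refine ⟨fun hs => q3 ((co j hj).trans hs), fun hs => ?_⟩
      have := (t4 j hj j' hne).2 hb
      rw [← q1] at this
      simpa using hs (mem_inter.1 this).1
  have XX : ∀ j ∈ T, ∀ j' ∈ T, j ≠ j' → ¬ x j ⊆ x j' := by
    intro j hj j' hj' hne
    simp only [x]; split_ifs with hb hb' hb'
    · exact (t4 j hj j' hne.symm).1 hb
    · intro hs; simpa using hs ((t4 j' hj' j hne).2 hb')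
    · intro hs
      exact (eZ j).2.1 (t1 _ (hs (co j hj (mem_compl.2 (eZ j).2.1))))
    · intro hs
      have : z j' ∈ ({z j}ᶜ : Finset α) := by simpa using fun e => hne (hz e).symm
      simpa using hs this
  let cc : Fin m → ℕ → Finset α := fun j a => if j = j0 then c a else if j ∈ T then
    (if bot j then (if a = 0 then x j else D j (a - 1)) else (if a + 1 = k then x j else D j a))
    else D j a
  have lt : ∀ j, j ≠ j0 → j ∉ T → i j < k := fun j h1 h2 =>
    lt_of_le_of_ne (hk j) fun e => h2 (by simp [hT, h1, e])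
  have cls : ∀ j a, a < i j → (j = j0 ∧ a < k ∧ cc j a = c a) ∨
      (j ≠ j0 ∧ ∃ b, b + 2 ≤ k ∧ cc j a = D j b) ∨ (j ∈ T ∧ cc j a = x j) := by
    intro j a ha
    have := hk j
    simp only [cc]
    split_ifs with h1 h2 h3 h4 h5
    · exact Or.inl ⟨h1, by omega, rfl⟩
    · exact Or.inr (Or.inr ⟨h2, rfl⟩)
    · exact Or.inr (Or.inl ⟨h1, a - 1, by omega, rfl⟩)
    · exact Or.inr (Or.inr ⟨h2, rfl⟩)
    · exact Or.inr (Or.inl ⟨h1, a, by omega, rfl⟩)
    · exact Or.inr (Or.inl ⟨h1, a, by have := lt j h1 h2; omega, rfl⟩)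
  refine build i _ cc (fun j a ha => ?_) (fun j a ha => ?_) (fun j j' a b hne ha hb => ?_)
  · rcases cls j a ha with ⟨-, h1, e⟩ | ⟨-, b, h1, e⟩ | ⟨h1, e⟩ <;> rw [e]
    · exact insert_subset_insert _ subset_union_left (p5 a h1)
    · exact mem_insert_of_mem (mem_union_left _ (Dm j b h1))
    · exact mem_insert_of_mem (mem_union_right _ (xm j h1))
  · have := hk j
    simp only [cc]
    by_cases h1 : j = j0
    · simp only [h1, if_true]; exact p6 a (by omega)
    simp only [h1, if_false]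
    by_cases h2 : j ∈ T
    · simp only [h2, if_true]
      by_cases hb : bot j
      · simp only [hb, if_true, Nat.succ_ne_zero, if_false, Nat.add_sub_cancel]
        split_ifs with h3
        · subst h3
          simp only [x, hb, if_true]
          refine ssubset_of_subset_of_ne (subset_union_left.trans subset_union_left) fun e => ?_
          exact (Dt j 0 h1).2.1 (e ▸ t1 j)
        · have := Ds j (a - 1) (by omega)
          rwa [show a - 1 + 1 = a by omega] at this
      · simp only [hb, if_false]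
        rw [if_neg (by omega)]
        split_ifs with h3
        · simp only [x, hb, if_false]
          refine ssubset_of_subset_of_ne (fun y hy => ?_) fun e => ?_
          · simp only [mem_compl, mem_singleton]
            rintro rfl
            refine (t3 j h2).2 hb ?_
            rw [← (Dt j a h1).1]
            exact mem_inter.2 ⟨hy, zZ0 j h2⟩
          · exact (Dt j a h1).2.2 (e ▸ co j h2)
        · exact Ds j a (by omega)
    · simp only [h2, if_false]; exact Ds j a (by omega)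
  · rcases cls j a ha with ⟨h0, h1, e⟩ | ⟨h0, a', h1, e⟩ | ⟨h1, e⟩ <;>
      rcases cls j' b hb with ⟨h0', h1', e'⟩ | ⟨h0', b', h1', e'⟩ | ⟨h1', e'⟩ <;> rw [e, e']
    · exact absurd (h0.trans h0'.symm) hne
    · exact (GD a h1 _ _).1
    · exact (XT j' h1' j0 (h0 ▸ hne) _ (ct a h1)).2
    · exact (GD b h1' _ _).2
    · exact fun hs => De' j j' b' hne (hs (De j a'))
    · exact (XT j' h1' j hne _ (Dt j a' h0)).2
    · exact (XT j h1 j0 (h0' ▸ hne.symm) _ (ct b h1')).1
    · exact (XT j h1 j' hne.symm _ (Dt j' b' h0')).1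
    · exact XX j h1 j' h1' hne

theorem bounded (i : Fin m → ℕ) (hp : ∀ j, 1 ≤ i j) (hne : ∃ j j', i j ≠ i j') :
    ∃ C, ∀ n, sat n i ≤ C := by
  obtain ⟨a, a', haa⟩ := hne
  obtain ⟨j0, -, h0⟩ := exists_max_image univ i ⟨a, mem_univ _⟩
  simp only [mem_univ, true_imp_iff] at h0
  obtain ⟨j1, h1⟩ : ∃ j1, i j1 < i j0 := by
    have := h0 a; have := h0 a'
    by_cases e : i a = i j0
    · exact ⟨a', by omega⟩
    · exact ⟨a, by omega⟩
  set M := m + (m + 2 + i j0) + m * (m + 2 + i j0) with hM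
  refine ⟨2 ^ M + 2 ^ M, fun n => ?_⟩
  by_cases hn : n ≤ M
  · exact (sat_le_pow n i j0 (hp _)).trans ((Nat.pow_le_pow_right (by norm_num) hn).trans
      (Nat.le_add_right _ _))
  let z : Fin m → Fin n := fun j => ⟨j, by have := j.2; omega⟩
  let Z : Finset (Fin n) := univ.filter fun x => (x : ℕ) < M
  have hZ : Z.card = M := by rw [Fin.card_filter_val_lt]; omega
  refine (sat_le i _ ((univ.filter fun X => X \ Z = ∅) ∪ univ.filter fun X => X \ Z = Zᶜ)
    (free2 i _ j0 j1 rfl h1 (hp _) z Z (m + 2)) fun G hG => ?_).trans ?_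
  · simp only [mem_union, mem_filter, mem_univ, true_and, not_or] at hG
    refine block2 i _ j0 rfl h0 (hp _) z (fun x y e => Fin.ext (by simpa [z] using e)) Z
      (fun j => by have := j.2; simp [z, Z]; omega) hZ.ge G (nonempty_iff_ne_empty.2 hG.1)
      fun hs => hG.2 ?_
    ext y
    simp only [mem_sdiff, mem_compl]
    exact ⟨fun h => h.2, fun h => ⟨hs (mem_compl.2 h), h⟩⟩
  · refine (card_union_le _ _).trans ?_
    rw [← hZ]
    exact Nat.add_le_add (card_out _ _) (card_out _ _)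

end H20.CSat
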