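import Pool.Agent.H20.CSat2

namespace H20.CSat

open Finset

variable {m n : ℕ}

def seg (n a b : ℕ) : Finset (Fin n) := univ.filter fun x => a ≤ (x : ℕ) ∧ (x : ℕ) < b

@[simp] theorem mem_seg {a b : ℕ} {x : Fin n} : x ∈ seg n a b ↔ a ≤ (x : ℕ) ∧ (x : ℕ) < b := by
  simp [seg]

theorem card_seg (a k : ℕ) : (seg n a (a + k)).card ≤ k := by
  have : (seg n a (a + k)).card ≤ (Ico a (a + k)).card :=
    card_le_card_of_injOn (fun x => (x : ℕ)) (fun x hx => by simpa using hx)
      (fun x _ y _ e => Fin.ext e)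
  simpa using this

open Classical in
noncomputable def Fat (M : ℕ) (W : Fin m → Finset (Fin n)) (j0 : Fin m) : Finset (Finset (Fin n)) :=
  univ.filter fun X => ∃ j, j ≠ j0 ∧ ∃ t, X = W j ∪ seg n M t

theorem free3 (i : Fin m → ℕ) (k : ℕ) (hk : 1 ≤ k) (hi : ∀ j, i j = k) (M : ℕ)
    (W : Fin m → Finset (Fin n)) (j0 : Fin m) (Z : Finset (Fin n)) :
    ¬ HasCopy i (Base Z 1 2 k ∪ Fat M W j0) := by
  rintro ⟨b, hb, hm, h⟩
  obtain ⟨x, x1, x2, -⟩ := extras hk b hb hm h
  simp only [Fat, mem_filter, mem_univ, true_and, hi, true_imp_iff] at x1 x2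
  choose l hl t ht using x1
  obtain ⟨j, -, j', -, hne, e⟩ := exists_ne_map_eq_of_card_lt_of_maps_to
    (s := univ) (t := univ.erase j0) (f := l) (card_erase_lt_of_mem (mem_univ _))
    (fun j _ => by simpa using hl j)
  have mono : ∀ a b, a ≤ b → seg n M a ⊆ seg n M b := fun a b hab x hx => by
    simp only [mem_seg] at hx ⊢; omega
  rcases le_total (t j) (t j') with h' | h'
  · exact x2 j j' hne (by rw [ht j, ht j', e]; exact union_subset_union_right (mono _ _ h'))
  · exact x2 j' j hne.symm (by rw [ht j, ht j', e]; exact union_subset_union_right (mono _ _ h'))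

theorem block3 (i : Fin m → ℕ) (k : ℕ) (hk : 1 ≤ k) (hi : ∀ j, i j = k) (M : ℕ)
    (W : Fin m → Finset (Fin n)) (j0 : Fin m) (e : Fin m → Fin n) (hW : ∀ j, W j ⊆ seg n 0 M)
    (hc : ∀ j, (W j).card = 2 + k) (he : ∀ j, e j ∈ W j) (he' : ∀ j j', j ≠ j' → e j ∉ W j')
    (G : Finset (Fin n)) (γ β : Fin n) (h1 : M ≤ γ) (h2 : (γ : ℕ) + k ≤ β) (h3 : γ ∉ G) (h4 : β ∈ G)
    (h5 : ¬ G \ seg n 0 M ⊆ {β}) :
    HasCopy i (insert G (Base (seg n 0 M) 1 2 k ∪ Fat M W j0)) := by
  set Z := seg n 0 M with hZ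
  have βZ : β ∉ Z := by simp [hZ]; omega
  have γZ : γ ∉ Z := by simp [hZ]; omega
  obtain ⟨c, Φ, Q, -, -, -, -, p5, p6, p7⟩ := gchain Z G {β} ∅ Z 2 k le_rfl hk
    (ssubset_of_subset_not_subset (by simp [h4, βZ]) h5) (fun h => h3 (h (mem_compl.2 γZ)))
    (empty_subset _) (by simp) inter_subset_right (Subset.refl _) (hc j0 ▸ card_le_card (hW j0))
  rw [card_singleton] at p5
  let J : Fin m → ℕ → Finset (Fin n) := fun j a => W j ∪ seg n M (γ + a + 1)
  have nW : ∀ j (x : Fin n), M ≤ x → x ∉ W j := fun j x hx h => by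
    have := hW j h; simp [hZ] at this; omega
  have cJ : ∀ a < k, ∀ j, ∀ b < k, ¬ c a ⊆ J j b ∧ ¬ J j b ⊆ c a := by
    intro a ha j b hb
    obtain ⟨q1, -, q3, -, -⟩ := p7 a ha
    have γJ : γ ∈ J j b := mem_union_right _ (by simp; omega)
    refine ⟨fun hs => ?_, fun hs => ?_⟩
    · rcases mem_union.1 (hs (q1 (by simp : β ∈ _))) with h | h
      · exact nW j β (by omega) h
      · simp at h; omega
    · rcases q3 with q | ⟨-, q, -, -⟩
      · exact h3 (q ▸ hs γJ)
      · have := card_le_card (subset_inter (subset_union_left.trans hs) (hW j))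
        rw [hc] at this; omega
  refine build i _ (fun j a => if j = j0 then c a else J j a) (fun j a ha => ?_) (fun j a ha => ?_)
    (fun j j' a b hne ha hb => ?_)
  · rw [hi] at ha
    split_ifs with h
    · exact insert_subset_insert _ subset_union_left (p5 a ha)
    · exact mem_insert_of_mem (mem_union_right _ (by simp only [Fat, mem_filter, mem_univ, true_and]; exact ⟨j, h, _, rfl⟩))
  · rw [hi] at ha
    split_ifs with h
    · exact p6 a ha
    · refine ssubset_of_subset_not_subset (union_subset_union_right fun x hx => ?_) fun hs => ?_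
      · simp only [mem_seg] at hx ⊢; omega
      · have hlt : (γ : ℕ) + a + 1 < n := by have := β.2; omega
        have : (⟨γ + a + 1, hlt⟩ : Fin n) ∈ J j (a + 1) := mem_union_right _ (by simp; omega)
        rcases mem_union.1 (hs this) with h' | h'
        · exact nW j _ (by simp; omega) h'
        · simp at h'
  · rw [hi] at ha hb
    split_ifs with h h' h'
    · exact absurd (h.trans h'.symm) hne
    · exact (cJ a ha j' b hb).1
    · exact (cJ b hb j a ha).2
    · intro hs
      rcases mem_union.1 (hs (mem_union_left _ (he j))) with h'' | h''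
      · exact he' j j' hne h''
      · exact nW j _ (mem_seg.1 h'').1 (he j)

theorem linear_eq (i : Fin m → ℕ) (k : ℕ) (hk : 1 ≤ k) (hi : ∀ j, i j = k) (j0 : Fin m) :
    ∃ C, ∀ n, 1 ≤ n → sat n i ≤ C * n := by
  set M := m * (2 + k) with hM
  refine ⟨4 * 2 ^ (M + k), fun n hn1 => ?_⟩
  have pw : 2 ^ M ≤ 2 ^ (M + k) := Nat.pow_le_pow_right (by norm_num) (by omega)
  by_cases hn : n ≤ M
  · have := (sat_le_pow n i j0 (by rw [hi]; exact hk)).trans (Nat.pow_le_pow_right (by norm_num) hn)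
    nlinarith
  have hZ : (seg n 0 M).card = M := by
    have : seg n 0 M = univ.filter fun x : Fin n => (x : ℕ) < M := by ext; simp
    rw [this, Fin.card_filter_val_lt]; omega
  obtain ⟨B, e, -, b2, -, b4, b5, b6⟩ := blocks (m := m) (seg n 0 M) (2 + k) (by omega) hZ.ge
  let S : ℕ → Finset (Fin n) := fun t => seg n 0 M ∪ seg n t (t + k)
  refine (sat_le i _ ((range (n + 1)).biUnion fun t =>
      (univ.filter fun X => X \ S t = ∅) ∪ univ.filter fun X => X \ S t = seg n M t)
    (free3 i k hk hi M (fun j => B j (2 + k)) j0 (seg n 0 M)) fun G hG => ?_).trans ?_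
  · simp only [mem_biUnion, mem_range, mem_union, mem_filter, mem_univ, true_and, not_exists,
      not_and, not_or] at hG
    have ex : ∃ t, M ≤ t ∧ ∀ h : t < n, (⟨t, h⟩ : Fin n) ∉ G := ⟨n, by omega, fun h => by omega⟩
    classical
    have sp := Nat.find_spec ex
    have le : Nat.find ex ≤ n := Nat.find_min' ex ⟨by omega, fun h => by omega⟩
    have mn : ∀ x : Fin n, M ≤ x → (x : ℕ) < Nat.find ex → x ∈ G := fun x h1 h2 => by
      by_contra hx
      exact Nat.find_min ex h2 ⟨h1, fun _ => hx⟩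
    set t := Nat.find ex with ht
    obtain ⟨β, hβ, hβ'⟩ : ∃ β ∈ G, t + k ≤ (β : ℕ) := by
      by_contra hc
      push Not at hc
      refine (hG t (by omega)).2 ?_
      ext x
      simp only [S, mem_sdiff, mem_union, mem_seg]
      constructor
      · rintro ⟨h1, h2⟩; have := hc x h1; omega
      · rintro ⟨h1, h2⟩; exact ⟨mn x h1 h2, by omega⟩
    have tn : t < n := by have := β.2; omega
    refine block3 i k hk hi M _ j0 e (fun j => b2 j _) (fun j => b4 j _ le_rfl)
      (fun j => b5 j _ (by omega)) (fun j j' h => b6 j j' _ h) G ⟨t, tn⟩ β sp.1 hβ' (sp.2 tn) hβ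
      fun hs => (hG β (by have := β.2; omega)).1 ?_
    rw [sdiff_eq_empty_iff_subset]
    intro x hx
    by_cases hz : x ∈ seg n 0 M
    · exact mem_union_left _ hz
    · have := mem_singleton.1 (hs (mem_sdiff.2 ⟨hx, hz⟩))
      exact mem_union_right _ (by simp [this]; omega)
  · refine (card_biUnion_le_card_mul _ _ (2 * 2 ^ (M + k)) fun t _ => ?_).trans ?_
    · have : 2 ^ (S t).card ≤ 2 ^ (M + k) := Nat.pow_le_pow_right (by norm_num)
        ((card_union_le _ _).trans (by rw [hZ]; exact Nat.add_le_add_left (card_seg _ _) _))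
      have a1 := card_out (S t) ∅
      have a2 := card_out (S t) (seg n M t)
      refine (card_union_le _ _).trans ?_
      omega
    · rw [card_range]
      generalize 2 ^ (M + k) = y
      nlinarith [Nat.mul_le_mul_left y hn1]

theorem linear (i : Fin m → ℕ) (hm : 1 ≤ m) (hp : ∀ j, 1 ≤ i j) :
    ∃ C, ∀ n, 1 ≤ n → sat n i ≤ C * n := by
  by_cases h : ∃ j j', i j ≠ i j'
  · obtain ⟨C, hC⟩ := bounded i hp h
    exact ⟨C, fun n hn => (hC n).trans (Nat.le_mul_of_pos_right _ hn)⟩
  · push Not at h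
    exact linear_eq i (i ⟨0, hm⟩) (hp _) (fun j => h _ _) ⟨0, hm⟩

end H20.CSat
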