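import Mathlib

namespace H20.CSat

/-- `F` contains an induced copy of the disjoint union of chains of lengths `i j`. -/
def HasCopy {α : Type} {m : ℕ} (i : Fin m → ℕ) (F : Finset (Finset α)) : Prop :=
  ∃ b : (Σ j : Fin m, Fin (i j)) → Finset α, Function.Injective b ∧ (∀ p, b p ∈ F) ∧
    ∀ p q, (p.1 = q.1 ∧ (p.2 : ℕ) ≤ (q.2 : ℕ)) ↔ b p ⊆ b q

/-- `F` is induced saturated for that poset. -/
def Saturated {α : Type} [DecidableEq α] {m : ℕ} (i : Fin m → ℕ) (F : Finset (Finset α)) : Prop :=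
  ¬ HasCopy i F ∧ ∀ G : Finset α, G ∉ F → HasCopy i (insert G F)

/-- The induced saturation number. -/
noncomputable def sat (n : ℕ) {m : ℕ} (i : Fin m → ℕ) : ℕ :=
  sInf {k | ∃ F : Finset (Finset (Fin n)), Saturated i F ∧ F.card = k}

end H20.CSat
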