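import Mathlib

set_option autoImplicit false

namespace Pool.Agent.H20.Chordal

open Finset Classical SimpleGraph

variable {V : Type} (G : SimpleGraph V)

theorem chordless_of_min (D : Set V) {s t : V} (p : G.Walk s t) (h1 : ∀ x ∈ p.support, x ∈ D)
    (h2 : ∀ q : G.Walk s t, (∀ x ∈ q.support, x ∈ D) → p.length ≤ q.length) : p.IsChordless := by
  rw [Walk.isChordless_iff_forall_mem_edges]
  induction p with
  | nil =>
    intro u v hu hv h
    simp only [Walk.support_nil, List.mem_singleton] at hu hv
    exact absurd (hu.trans hv.symm) h.ne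
  | @cons s x t hsx p ih =>
    have ih' := ih (fun y hy => h1 y (by simp [hy])) (fun q hq => by
      have := h2 (Walk.cons hsx q) (by
        intro y hy
        simp only [Walk.support_cons, List.mem_cons] at hy
        rcases hy with rfl | hy
        · exact h1 _ (by simp)
        · exact hq y hy)
      simpa using this)
    have key : ∀ v, v ∈ p.support → G.Adj s v → v = x := by
      intro v hv h
      have a1 := h2 (Walk.cons h (p.dropUntil v hv)) (by
        intro y hy
        simp only [Walk.support_cons, List.mem_cons] at hy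
        rcases hy with rfl | hy
        · exact h1 _ (by simp)
        · exact h1 y (by simp [p.support_dropUntil_subset_support hv hy]))
      have a2 := congrArg Walk.length (p.take_spec hv)
      simp only [Walk.length_cons, Walk.length_append] at a1 a2
      exact (Walk.eq_of_length_eq_zero (p := p.takeUntil v hv) (by omega)).symm
    intro u v hu hv h
    simp only [Walk.support_cons, List.mem_cons, Walk.edges_cons] at hu hv ⊢
    rcases hu with rfl | hu <;> rcases hv with rfl | hv
    · exact absurd rfl h.ne
    · left; rw [key v hv h]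
    · left; rw [key u hu h.symm, Sym2.eq_swap]
    · right; exact ih' hu hv h

theorem exists_chordless (D : Set V) {s t : V} (p : G.Walk s t) (h1 : ∀ x ∈ p.support, x ∈ D) :
    ∃ q : G.Walk s t, q.IsPath ∧ q.IsChordless ∧ ∀ x ∈ q.support, x ∈ D := by
  have hex : ∃ n, ∃ q : G.Walk s t, (∀ x ∈ q.support, x ∈ D) ∧ q.length = n := ⟨_, p, h1, rfl⟩
  obtain ⟨q, q1, q2⟩ := Nat.find_spec hex
  have b1 : ∀ x ∈ q.bypass.support, x ∈ D := fun x hx => q1 x (q.support_bypass_subset_support hx)
  refine ⟨q.bypass, q.bypass_isPath, chordless_of_min G D _ b1 fun r hr => ?_, b1⟩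
  exact (q.length_bypass_le_length.trans q2.le).trans (Nat.find_min' hex ⟨r, hr, rfl⟩)

theorem hole (hG : ∀ (v : V) (c : G.Walk v v), c.IsCycle → 4 ≤ c.length → ¬ c.IsChordless)
    (C : Set V) (r a b : V) (hr : r ∉ C) (hrC : ∀ c ∈ C, ¬ G.Adj c r) (ha : G.Adj r a)
    (hb : G.Adj r b) (hab : a ≠ b) (p : G.Walk a b) (hp : ∀ x ∈ p.support, x ∈ C ∨ x = a ∨ x = b) :
    G.Adj a b := by
  by_contra hn
  obtain ⟨q, q1, q2, q3⟩ := exists_chordless G {x | x ∈ C ∨ x = a ∨ x = b} p hp
  have hrq : r ∉ q.support := by
    intro h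
    rcases q3 r h with h | h | h
    · exact hr h
    · exact ha.ne h
    · exact hb.ne h
  apply hG r (Walk.cons ha (q.concat hb.symm))
  · rw [Walk.cons_isCycle_iff, Walk.concat_isPath_iff]
    refine ⟨⟨q1, hrq⟩, ?_⟩
    rw [Walk.edges_concat]
    simp only [List.concat_eq_append, List.mem_append, List.mem_singleton, not_or]
    refine ⟨fun h => hrq (q.fst_mem_support_of_mem_edges h), ?_⟩
    rw [Sym2.eq_iff]
    rintro (⟨h, _⟩ | ⟨_, h⟩)
    · exact hb.ne h
    · exact hab h
  · simp only [Walk.length_cons, Walk.length_concat]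
    have h0 : q.length ≠ 0 := fun h => hab (Walk.eq_of_length_eq_zero h)
    have h1 : q.length ≠ 1 := fun h => hn (Walk.adj_of_length_eq_one h)
    omega
  · rw [Walk.isChordless_iff_forall_mem_edges]
    have key : ∀ v ∈ q.support, G.Adj r v → s(r, v) = s(r, a) ∨ s(r, v) = s(b, r) := by
      intro v hv h
      rcases q3 v hv with h' | rfl | rfl
      · exact absurd h.symm (hrC v h')
      · exact Or.inl rfl
      · exact Or.inr Sym2.eq_swap
    intro u v hu hv h
    simp only [Walk.support_cons, Walk.support_concat, List.concat_eq_append, List.mem_cons,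
      List.mem_append, Walk.edges_cons, Walk.edges_concat, List.not_mem_nil, or_false] at hu hv ⊢
    have hu' : u = r ∨ u ∈ q.support := by tauto
    have hv' : v = r ∨ v ∈ q.support := by tauto
    rcases hu' with rfl | hu' <;> rcases hv' with rfl | hv'
    · exact absurd rfl h.ne
    · have := key v hv' h; tauto
    · have := key u hu' h.symm
      rw [Sym2.eq_swap]; tauto
    · exact Or.inr (Or.inl (q2.mem_edges hu' hv' h))

/-- Dirac: every nonempty induced subgraph of a chordal graph has a simplicial vertex. -/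
theorem simplicial (hG : ∀ (v : V) (c : G.Walk v v), c.IsCycle → 4 ≤ c.length → ¬ c.IsChordless)
    (X : Finset V) : X.Nonempty →
    ∃ r ∈ X, ∀ a ∈ X, ∀ b ∈ X, G.Adj r a → G.Adj r b → a ≠ b → G.Adj a b := by
  induction X using Finset.strongInduction with
  | H X ih =>
    intro hX
    let Fam := X.powerset.filter (fun C : Finset V => C.Nonempty ∧
      (∀ a ∈ C, ∀ b ∈ C, ∃ p : G.Walk a b, ∀ x ∈ p.support, x ∈ C) ∧
      ∃ r ∈ X, r ∉ C ∧ ∀ c ∈ C, ¬ G.Adj c r)
    rcases Fam.eq_empty_or_nonempty with hF | hF
    · obtain ⟨r, hr⟩ := hX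
      refine ⟨r, hr, fun a ha b hb _ _ hab => ?_⟩
      by_contra hn
      have : ({a} : Finset V) ∈ Fam := by
        simp only [Fam, mem_filter, mem_powerset, singleton_subset_iff, singleton_nonempty,
          mem_singleton, forall_eq, true_and]
        exact ⟨ha, ⟨Walk.nil, by simp⟩, b, hb, hab.symm, hn⟩
      rw [hF] at this
      simp at this
    · obtain ⟨C, hC, hmax⟩ := exists_max_image Fam card hF
      simp only [Fam, mem_filter, mem_powerset] at hC hmax
      obtain ⟨c1, c2, c3, c4⟩ := hC
      let R := X.filter (fun r => r ∉ C ∧ ∀ c ∈ C, ¬ G.Adj c r)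
      have hR : R ⊂ X := by
        obtain ⟨c, hc⟩ := c2
        exact ⟨filter_subset _ _, fun h => (mem_filter.1 (h (c1 hc))).2.1 hc⟩
      obtain ⟨r, hr, hsimp⟩ := ih R hR (by
        obtain ⟨r, h1, h2⟩ := c4
        exact ⟨r, mem_filter.2 ⟨h1, h2⟩⟩)
      obtain ⟨r1, r2, r3⟩ := mem_filter.1 hr
      have hS : ∀ s ∈ X, s ∉ C → s ∉ R → ∃ c ∈ C, G.Adj c s := by
        intro s h1 h2 h3
        by_contra hc
        push Not at hc
        exact h3 (mem_filter.2 ⟨h1, h2, hc⟩)
      have compl : ∀ s ∈ X, s ∉ C → s ∉ R → ∀ y ∈ R, G.Adj s y := by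
        intro s h1 h2 h3 y hy
        obtain ⟨c, hc, hcs⟩ := hS s h1 h2 h3
        obtain ⟨y1, y2, y3⟩ := mem_filter.1 hy
        by_contra hn
        have := hmax (insert s C) ⟨insert_subset h1 c1, insert_nonempty _ _, ?_, y, y1, ?_, ?_⟩
        · rw [card_insert_of_notMem h2] at this
          omega
        · have k : ∀ b ∈ C, ∃ p : G.Walk s b, ∀ x ∈ p.support, x ∈ insert s C := by
            intro b hb
            obtain ⟨p, hp⟩ := c3 c hc b hb
            refine ⟨Walk.cons hcs.symm p, fun x hx => ?_⟩
            simp only [Walk.support_cons, List.mem_cons] at hx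
            rcases hx with rfl | hx
            · exact mem_insert_self _ _
            · exact mem_insert_of_mem (hp x hx)
          intro a ha b hb
          rcases mem_insert.1 ha with rfl | ha' <;> rcases mem_insert.1 hb with rfl | hb'
          · exact ⟨Walk.nil, by simp⟩
          · exact k b hb'
          · obtain ⟨p, hp⟩ := k a ha'
            exact ⟨p.reverse, fun x hx => hp x (by simpa using hx)⟩
          · obtain ⟨p, hp⟩ := c3 a ha' b hb'
            exact ⟨p, fun x hx => mem_insert_of_mem (hp x hx)⟩
        · intro h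
          rcases mem_insert.1 h with rfl | h
          · exact h3 hy
          · exact y2 h
        · intro z hz
          rcases mem_insert.1 hz with rfl | hz
          · exact hn
          · exact y3 z hz
      refine ⟨r, r1, fun a ha b hb hra hrb hab => ?_⟩
      have aC : a ∉ C := fun h => r3 a h hra.symm
      have bC : b ∉ C := fun h => r3 b h hrb.symm
      by_cases aR : a ∈ R <;> by_cases bR : b ∈ R
      · exact hsimp a aR b bR hra hrb hab
      · exact (compl b hb bC bR a aR).symm
      · exact compl a ha aC aR b bR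
      · obtain ⟨x, hx, hxa⟩ := hS a ha aC aR
        obtain ⟨y, hy, hyb⟩ := hS b hb bC bR
        obtain ⟨p, hp⟩ := c3 x hx y hy
        refine hole G hG (C : Set V) r a b r2 r3 hra hrb hab
          (Walk.cons hxa.symm (p.concat hyb)) ?_
        intro z hz
        simp only [Walk.support_cons, Walk.support_concat, List.concat_eq_append, List.mem_cons,
          List.mem_append, List.not_mem_nil, or_false] at hz
        rcases hz with h | h | h
        · exact Or.inr (Or.inl h)
        · exact Or.inl (hp z h)
        · exact Or.inr (Or.inr h)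

/-- Perfect elimination orderings. -/
theorem peo (hG : ∀ (v : V) (c : G.Walk v v), c.IsCycle → 4 ≤ c.length → ¬ c.IsChordless)
    (X : Finset V) : ∃ ρ : V → ℕ, (∀ u ∈ X, ∀ v ∈ X, ρ u = ρ v → u = v) ∧
      ∀ v ∈ X, ∀ a ∈ X, ∀ b ∈ X, G.Adj v a → G.Adj v b → ρ v < ρ a → ρ v < ρ b → a ≠ b →
        G.Adj a b := by
  induction X using Finset.strongInduction with
  | H X ih =>
    rcases X.eq_empty_or_nonempty with rfl | hX
    · exact ⟨fun _ => 0, by simp⟩
    obtain ⟨r, hr, hs⟩ := simplicial G hG X hX
    obtain ⟨ρ, h1, h2⟩ := ih (X.erase r) (erase_ssubset hr)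
    refine ⟨fun v => if v = r then 0 else ρ v + 1, ?_, ?_⟩
    · intro u hu v hv
      by_cases p : u = r <;> by_cases q : v = r <;> simp only [p, q, if_true, if_false]
      · simp
      · simp
      · simp
      · intro e
        exact h1 u (mem_erase.2 ⟨p, hu⟩) v (mem_erase.2 ⟨q, hv⟩) (by omega)
    · intro v hv a ha b hb hva hvb l1 l2 hab
      by_cases p : v = r
      · subst p; exact hs a ha b hb hva hvb hab
      · have q1 : a ≠ r := by
          rintro rfl
          simp at l1
        have q2 : b ≠ r := by
          rintro rfl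
          simp at l2
        simp only [p, q1, q2, if_false] at l1 l2
        exact h2 v (mem_erase.2 ⟨p, hv⟩) a (mem_erase.2 ⟨q1, ha⟩) b (mem_erase.2 ⟨q2, hb⟩) hva hvb
          (by omega) (by omega) hab

end Pool.Agent.H20.Chordal
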