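import Mathlib

set_option autoImplicit false

namespace Pool.Agent.H20.CircDefs

variable {V : Type}

/-- `f` is a `(k,q)`-colouring of `G`. -/
def IsCircCol (G : SimpleGraph V) (k q : ℕ) (f : V → Fin k) : Prop :=
  ∀ u v, G.Adj u v → (q : ℤ) ≤ |((f u : ℕ) : ℤ) - ((f v : ℕ) : ℤ)| ∧
    |((f u : ℕ) : ℤ) - ((f v : ℕ) : ℤ)| ≤ (k : ℤ) - (q : ℤ)

/-- `f` is a proper `k`-colouring of `G`. -/
def IsProperCol (G : SimpleGraph V) (k : ℕ) (f : V → Fin k) : Prop :=
  ∀ u v, G.Adj u v → f u ≠ f v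

/-- Any two maps with property `P` are joined by a sequence of maps with property `P`,
consecutive ones differing at exactly one vertex. -/
def Mixes {k : ℕ} (P : (V → Fin k) → Prop) : Prop :=
  ∀ f g, P f → P g → Relation.ReflTransGen
    (fun a b : V → Fin k => P a ∧ P b ∧ ∃ v, a v ≠ b v ∧ ∀ u, u ≠ v → a u = b u) f g

/-- The set of rationals `r` such that `G` is `(k,q)`-mixing whenever `k/q ≥ r`. -/
def R (G : SimpleGraph V) : Set ℚ :=
  {r | ∀ k q : ℕ, 0 < k → 0 < q → r ≤ (k : ℚ) / (q : ℚ) → Mixes (IsCircCol G k q)}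

/-- The circular mixing threshold. -/
noncomputable def circMixThreshold (G : SimpleGraph V) : ℝ := sInf ((fun r : ℚ => (r : ℝ)) '' R G)

/-- The mixing threshold. -/
noncomputable def mixThreshold (G : SimpleGraph V) : ℕ :=
  sInf {l : ℕ | 0 < l ∧ ∀ k : ℕ, l ≤ k → Mixes (IsProperCol G k)}

/-- The circular chromatic number. -/
noncomputable def circChrom (G : SimpleGraph V) : ℝ :=
  sInf {x : ℝ | ∃ k q : ℕ, 0 < k ∧ 0 < q ∧ x = (k : ℝ) / (q : ℝ) ∧ ∃ f, IsCircCol G k q f}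

end Pool.Agent.H20.CircDefs
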