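import Pool.Agent.H20.CircDrawDefs

namespace Pool.Agent.H20.CircDraw
open Pool.Agent.H20

instance (e f : Sym2 (Fin 7)) : Decidable (Cross e f) := by unfold Cross; infer_instance
instance (e : Sym2 (Fin 7)) : Decidable (IsSide e) := by unfold IsSide; infer_instance

def G : SimpleGraph (Fin 7) where
  Adj u v := v = u + 2 ∨ u = v + 2
  symm := ⟨fun _ _ h => h.symm⟩
  loopless := ⟨by decide⟩

def sh (i : Fin 7) : Sym2 (Fin 7) := s(i - 1, i + 1)
def lg (i : Fin 7) : Sym2 (Fin 7) := s(i, i + 3)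

theorem edge_sh (e : Sym2 (Fin 7)) (h : e ∈ G.edgeSet) : ∃ i, e = sh i := by
  induction e using Sym2.ind with
  | _ u v =>
    have : ∀ u v : Fin 7, (v = u + 2 ∨ u = v + 2) → ∃ i, s(u, v) = sh i := by decide +kernel
    exact this u v h

theorem sh_edge (i : Fin 7) : sh i ∈ G.edgeSet := by
  have : ∀ i : Fin 7, i + 1 = i - 1 + 2 := by decide
  exact Or.inl (this i)

theorem mp : MatchingPlanar G 1 := by
  rintro e he ⟨M, hc, h1, h2⟩
  obtain ⟨i, rfl⟩ := edge_sh e he
  obtain ⟨a, b, hab, rfl⟩ := Finset.card_eq_two.mp hc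
  have key : ∀ i j : Fin 7, Cross (sh j) (sh i) → i ∈ sh j := by decide +kernel
  obtain ⟨j, rfl⟩ := edge_sh a (h1 a (by simp)).1
  obtain ⟨l, rfl⟩ := edge_sh b (h1 b (by simp)).1
  exact h2 _ (by simp) _ (by simp) hab i (key _ _ (h1 _ (by simp)).2) (key _ _ (h1 _ (by simp)).2)

theorem bad (i : Fin 7) : CrossedByMatching G 2 (lg i) := by
  have k1 : ∀ i : Fin 7, sh i ≠ sh (i + 3) ∧ Cross (sh i) (lg i) ∧ Cross (sh (i + 3)) (lg i) ∧
      ∀ v, v ∈ sh i → v ∉ sh (i + 3) := by decide +kernel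
  obtain ⟨a1, a2, a3, a4⟩ := k1 i
  refine ⟨{sh i, sh (i + 3)}, Finset.card_pair a1, ?_, ?_⟩
  · intro e he
    simp only [Finset.mem_insert, Finset.mem_singleton] at he
    rcases he with rfl | rfl
    · exact ⟨sh_edge _, a2⟩
    · exact ⟨sh_edge _, a3⟩
  · intro e he f hf hne v hv hv'
    simp only [Finset.mem_insert, Finset.mem_singleton] at he hf
    rcases he with rfl | rfl <;> rcases hf with rfl | rfl
    · exact hne rfl
    · exact a4 v hv hv'
    · exact a4 v hv' hv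
    · exact hne rfl

theorem diag (d : Sym2 (Fin 7)) (h1 : ¬ d.IsDiag) (h2 : ¬ IsSide d) : ∃ i, d = sh i ∨ d = lg i := by
  induction d using Sym2.ind with
  | _ u v =>
    have : ∀ u v : Fin 7, u ≠ v → ¬ IsSide s(u, v) → ∃ i, s(u, v) = sh i ∨ s(u, v) = lg i := by
      decide +kernel
    exact this u v (by simpa using h1) h2

theorem no_tri (T : Set (Sym2 (Fin 7))) (hT : IsTriangulation T) :
    ∃ t ∈ T, CrossedByMatching G 2 t := by
  classical
  obtain ⟨D, hD, rfl⟩ := hT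
  by_contra hcon
  have hl : ∀ i, lg i ∉ D := fun i hi => hcon ⟨_, Or.inr hi, bad i⟩
  have hs : ∀ d ∈ D, ∃ i, d = sh i := by
    intro d hd
    obtain ⟨i, h | h⟩ := diag d (hD.prop.1 d hd).1 (hD.prop.1 d hd).2
    · exact ⟨i, h⟩
    · exact absurd (h ▸ hd) (hl i)
  have c1 : ∀ i : Fin 7, Cross (sh i) (sh (i + 1)) := by decide +kernel
  have c2 : ∀ b : Fin 7 → Bool, (∀ i, ¬ (b i = true ∧ b (i + 1) = true)) →
      ∃ j, b j = false ∧ b (j + 3) = false := by decide +kernel
  obtain ⟨j, j1, j2⟩ := c2 (fun i => decide (sh i ∈ D)) (fun i h =>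
    hD.prop.2 _ (by simpa using h.1) _ (by simpa using h.2) (c1 i))
  simp only [decide_eq_false_iff_not] at j1 j2
  have c3 : ∀ i j : Fin 7, (Cross (sh i) (lg j) ∨ Cross (lg j) (sh i)) → i = j ∨ i = j + 3 := by
    decide +kernel
  have c4 : ∀ j : Fin 7, ¬ (lg j).IsDiag ∧ ¬ IsSide (lg j) ∧ ¬ Cross (lg j) (lg j) := by
    decide +kernel
  have hn : NonCrossingDiagonals (insert (lg j) D) := by
    constructor
    · rintro d (rfl | hd)
      · exact ⟨(c4 j).1, (c4 j).2.1⟩
      · exact hD.prop.1 d hd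
    · rintro d (rfl | hd) d' (rfl | hd')
      · exact (c4 j).2.2
      · obtain ⟨i, rfl⟩ := hs d' hd'
        intro h
        rcases c3 i j (Or.inr h) with rfl | rfl
        · exact j1 hd'
        · exact j2 hd'
      · obtain ⟨i, rfl⟩ := hs d hd
        intro h
        rcases c3 i j (Or.inl h) with rfl | rfl
        · exact j1 hd
        · exact j2 hd
      · exact hD.prop.2 d hd d' hd'
  exact hl j (hD.le_of_ge hn (Set.subset_insert _ _) (Set.mem_insert _ _))

end Pool.Agent.H20.CircDraw
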