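import Mathlib

namespace Pool.Agent.H20

/-- The vertices `0, ..., n-1` lie on a circle in this order. Two segments cross when they have
four distinct endpoints that alternate around the circle. -/
def Cross {n : ℕ} (e f : Sym2 (Fin n)) : Prop :=
  ∃ a b c d : Fin n, a < b ∧ b < c ∧ c < d ∧
    ((e = s(a, c) ∧ f = s(b, d)) ∨ (e = s(b, d) ∧ f = s(a, c)))

/-- The edges of `G` crossing the segment `t` contain `m` pairwise independent edges. -/
def CrossedByMatching {n : ℕ} (G : SimpleGraph (Fin n)) (m : ℕ) (t : Sym2 (Fin n)) : Prop :=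
  ∃ M : Finset (Sym2 (Fin n)), M.card = m ∧ (∀ e ∈ M, e ∈ G.edgeSet ∧ Cross e t) ∧
    ∀ e ∈ M, ∀ f ∈ M, e ≠ f → ∀ v, v ∈ e → v ∉ f

/-- The circular drawing of `G` is `k`-matching-planar. -/
def MatchingPlanar {n : ℕ} (G : SimpleGraph (Fin n)) (k : ℕ) : Prop :=
  ∀ e ∈ G.edgeSet, ¬ CrossedByMatching G (k + 1) e

/-- A side of the outer polygon. -/
def IsSide {n : ℕ} (t : Sym2 (Fin n)) : Prop :=
  ∃ a b : Fin n, t = s(a, b) ∧ ((a : ℕ) + 1) % n = b

/-- A set of pairwise non-crossing diagonals of the outer polygon. -/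
def NonCrossingDiagonals {n : ℕ} (D : Set (Sym2 (Fin n))) : Prop :=
  (∀ d ∈ D, ¬ d.IsDiag ∧ ¬ IsSide d) ∧ ∀ d ∈ D, ∀ d' ∈ D, ¬ Cross d d'

/-- A triangulation of the outer cycle: all sides together with an inclusion-maximal set of
pairwise non-crossing diagonals. -/
def IsTriangulation {n : ℕ} (T : Set (Sym2 (Fin n))) : Prop :=
  ∃ D, Maximal NonCrossingDiagonals D ∧ T = {t | IsSide t} ∪ D

end Pool.Agent.H20
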