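import Pool.Agent.H20.CircDefs

namespace Pool.Agent.H20.CircRat
open Finset Pool.Agent.H20.CircDefs

def Sol {W : Type} (k q : ℕ) (E : W → W → Prop) (f : W → Fin k) : Prop :=
  ∀ u v, E u v → (q : ℤ) ≤ ((f u : ℕ) : ℤ) - ((f v : ℕ) : ℤ) ∧
    ((f u : ℕ) : ℤ) - ((f v : ℕ) : ℤ) ≤ (k : ℤ) - (q : ℤ)

def Gen (B k q : ℕ) : Prop := ∀ (a : ℤ) (b : ℕ), 1 ≤ b → b ≤ B → a * q ≠ b * k

def ST (B k q k' q' : ℕ) : Prop :=
  ∀ (a : ℤ) (b : ℕ), 1 ≤ b → b ≤ B → (a * q < b * k ↔ a * q' < b * k')

theorem sign1 {B k q k' q' : ℕ} (hq : 0 < q) (g : Gen B k q) (h : ST B k q k' q')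
    (m j : ℤ) (h1 : -(B : ℤ) ≤ j) (h2 : j ≤ B) (h3 : j * k ≤ m * q) : j * k' ≤ m * q' := by
  rcases lt_trichotomy j 0 with hj | hj | hj
  · obtain ⟨b, hb⟩ : ∃ b : ℕ, j = -(b : ℤ) := ⟨(-j).toNat, by omega⟩
    subst hb
    have a1 := g (-m) b (by omega) (by omega)
    have a2 := (h (-m) b (by omega) (by omega)).mp (lt_of_le_of_ne (by linarith) a1)
    linarith
  · subst hj
    have hq' : (0 : ℤ) < q := by exact_mod_cast hq
    have : 0 ≤ m := by
      by_contra hm
      have : m * q < 0 := mul_neg_of_neg_of_pos (by omega) hq'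
      linarith
    have : 0 ≤ m * q' := by positivity
    linarith
  · obtain ⟨b, hb⟩ : ∃ b : ℕ, j = (b : ℤ) := ⟨j.toNat, by omega⟩
    subst hb
    by_contra hlt
    have := (h m b (by omega) (by omega)).mpr (by linarith)
    linarith

theorem normal {W : Type} [Fintype W] {k q : ℕ} {E : W → W → Prop} (f0 : W → Fin k)
    (h0 : Sol k q E f0) : ∃ f : W → Fin k, Sol k q E f ∧
      ∀ v, ∃ (j : ℕ) (m : ℤ), j ≤ Fintype.card W ∧ ((f v : ℕ) : ℤ) = m * q - j * k := by
  classical
  obtain ⟨f, hf, hmin⟩ := Finset.exists_min_image (univ.filter fun f : W → Fin k => Sol k q E f)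
    (fun f => ∑ v, (f v : ℕ)) ⟨f0, mem_filter.mpr ⟨mem_univ _, h0⟩⟩
  simp only [mem_filter, mem_univ, true_and] at hf hmin
  let S : ℕ → Finset W := fun t =>
    univ.filter fun v => ∃ (j : ℕ) (m : ℤ), j ≤ t ∧ ((f v : ℕ) : ℤ) = m * q - j * k
  have hmono : ∀ t, S t ⊆ S (t + 1) := by
    intro t v hv
    obtain ⟨j, m, h1, h2⟩ := (mem_filter.mp hv).2
    exact mem_filter.mpr ⟨mem_univ _, j, m, by omega, h2⟩
  obtain ⟨t, ht, hst⟩ : ∃ t ≤ Fintype.card W, S t = S (t + 1) := by
    by_contra hcon
    push Not at hcon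
    have : ∀ t ≤ Fintype.card W + 1, t ≤ (S t).card := by
      intro t
      induction t with
      | zero => intro _; omega
      | succ t ih =>
        intro h
        have a1 := ih (by omega)
        have a2 := Finset.card_lt_card
          (Finset.ssubset_iff_subset_ne.mpr ⟨hmono t, hcon t (by omega)⟩)
        omega
    have a1 := this _ le_rfl
    have a2 := Finset.card_le_univ (S (Fintype.card W + 1))
    omega
  have hpos : ∀ v, v ∉ S t → 0 < (f v : ℕ) := by
    intro v hv
    by_contra h
    exact hv (mem_filter.mpr ⟨mem_univ _, 0, 0, by omega, by simp; omega⟩)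
  refine ⟨f, hf, fun v => ?_⟩
  have : v ∈ S t := by
    by_contra hv
    let g : W → Fin k := fun w => if w ∈ S t then f w else ⟨f w - 1, by have := (f w).2; omega⟩
    have g1 : ∀ w, w ∈ S t → ((g w : ℕ) : ℤ) = (f w : ℕ) := fun w h => by simp [g, h]
    have g2 : ∀ w, w ∉ S t → ((g w : ℕ) : ℤ) = (f w : ℕ) - 1 := fun w h => by
      have := hpos w h
      simp only [g, if_neg h]
      omega
    have hg : Sol k q E g := by
      intro a b hab
      obtain ⟨c1, c2⟩ := hf a b hab
      by_cases ha : a ∈ S t <;> by_cases hb : b ∈ S t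
      · rw [g1 a ha, g1 b hb]; exact ⟨c1, c2⟩
      · rw [g1 a ha, g2 b hb]
        refine ⟨by omega, ?_⟩
        by_contra hc
        apply hb
        rw [hst]
        obtain ⟨j, m, h1, h2⟩ := (mem_filter.mp ha).2
        refine mem_filter.mpr ⟨mem_univ _, j + 1, m + 1, by omega, ?_⟩
        push_cast
        have : ((f b : ℕ) : ℤ) = (f a : ℕ) - k + q := by omega
        rw [this, h2]; ring
      · rw [g2 a ha, g1 b hb]
        refine ⟨?_, by omega⟩
        by_contra hc
        apply ha
        obtain ⟨j, m, h1, h2⟩ := (mem_filter.mp hb).2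
        refine mem_filter.mpr ⟨mem_univ _, j, m + 1, h1, ?_⟩
        have : ((f a : ℕ) : ℤ) = (f b : ℕ) + q := by omega
        rw [this, h2]; ring
      · rw [g2 a ha, g2 b hb]; constructor <;> omega
    have a1 := hmin g hg
    have a2 : ∑ w, (g w : ℕ) < ∑ w, (f w : ℕ) := by
      refine Finset.sum_lt_sum (fun w _ => ?_) ⟨v, mem_univ _, ?_⟩
      · by_cases h : w ∈ S t
        · have := g1 w h; omega
        · have := g2 w h; omega
      · have := g2 v hv; omega
    omega
  obtain ⟨j, m, h1, h2⟩ := (mem_filter.mp this).2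
  exact ⟨j, m, by omega, h2⟩

theorem transfer {W : Type} [Fintype W] {B k q k' q' : ℕ} (hB : Fintype.card W + 1 ≤ B)
    (hq : 0 < q) (g : Gen B k q) (h : ST B k q k' q')
    {E : W → W → Prop} (f0 : W → Fin k) (h0 : Sol k q E f0) :
    ∃ f' : W → Fin k', Sol k' q' E f' := by
  obtain ⟨f, hf, hr⟩ := normal f0 h0
  choose j m hj he using hr
  have p0 : ∀ v, 0 ≤ m v * q' - j v * k' := by
    intro v
    have a1 := hj v
    have a2 := he v
    have := sign1 hq g h (m v) (j v) (by omega) (by omega) (by omega)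
    omega
  have p1 : ∀ v, m v * q' - j v * k' < k' := by
    intro v
    have a1 := hj v
    have a2 := he v
    have a3 := (f v).2
    have := (h (m v) (j v + 1) (by omega) (by omega)).mp (by push_cast; linarith [show ((f v : ℕ) : ℤ) < k by omega])
    push_cast at this
    linarith
  refine ⟨fun v => ⟨(m v * q' - j v * k').toNat, by have := p0 v; have := p1 v; omega⟩, ?_⟩
  intro u v huv
  obtain ⟨c1, c2⟩ := hf u v huv
  rw [he, he] at c1 c2
  have a1 := hj u
  have a2 := hj v
  simp only [Int.toNat_of_nonneg (p0 u), Int.toNat_of_nonneg (p0 v)]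
  have b1 := sign1 hq g h (m u - m v - 1) (j u - j v) (by omega) (by omega) (by linarith)
  have b2 := sign1 hq g h (m v - m u - 1) (j v - j u - 1) (by omega) (by omega) (by linarith)
  constructor <;> linarith

variable {V : Type} [Fintype V]

def Step (G : SimpleGraph V) (k q : ℕ) (a b : V → Fin k) : Prop :=
  IsCircCol G k q a ∧ IsCircCol G k q b ∧ ∃ v, a v ≠ b v ∧ ∀ u, u ≠ v → a u = b u

theorem Step.symm {G : SimpleGraph V} {k q : ℕ} {a b : V → Fin k} (h : Step G k q a b) :
    Step G k q b a := by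
  obtain ⟨h1, h2, v, h3, h4⟩ := h
  exact ⟨h2, h1, v, h3.symm, fun u hu => (h4 u hu).symm⟩

theorem col_of_sol {G : SimpleGraph V} {k q : ℕ} {E : V → V → Prop}
    (hE : ∀ u v, G.Adj u v → E u v ∨ E v u) {f : V → Fin k} (h : Sol k q E f) :
    IsCircCol G k q f := by
  intro u v huv
  rcases hE u v huv with h1 | h1
  · obtain ⟨c1, c2⟩ := h u v h1
    rw [abs_of_nonneg (by omega)]
    exact ⟨c1, c2⟩
  · obtain ⟨c1, c2⟩ := h v u h1
    rw [abs_of_nonpos (by omega)]
    constructor <;> omega

theorem down {G : SimpleGraph V} {B k q : ℕ} (hB : Fintype.card V ≤ B) (hq : 0 < q)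
    (g : Gen B k q) {E : V → V → Prop} (hE : ∀ u v, G.Adj u v → E u v ∨ E v u)
    (z : V → Fin k) (hz : Sol k q E z) : ∀ (N : ℕ) (f : V → Fin k), ∑ v, (f v : ℕ) = N →
      Sol k q E f → (∀ v, z v ≤ f v) → Relation.ReflTransGen (Step G k q) f z := by
  classical
  intro N
  induction N using Nat.strong_induction_on with
  | _ N ih =>
    intro f hN hf hle
    by_cases hfz : f = z
    · rw [hfz]
    obtain ⟨v0, hv0⟩ : ∃ v, z v < f v := by
      by_contra hcon
      push Not at hcon
      exact hfz (funext fun v => le_antisymm (hcon v) (hle v))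
    have hex : ∃ v, z v < f v ∧ (∀ u, E v u → ((f u : ℕ) : ℤ) ≠ (f v : ℕ) - q) ∧
        (∀ u, E u v → ((f u : ℕ) : ℤ) ≠ (f v : ℕ) - q + k) := by
      by_contra hcon
      have hb : ∀ v, ∃ u, z v < f v → z u < f u ∧
          (((f u : ℕ) : ℤ) = (f v : ℕ) - q ∨ ((f u : ℕ) : ℤ) = (f v : ℕ) - q + k) := by
        intro v
        by_cases hv : z v < f v
        · have h1 := fun h => hcon ⟨v, hv, h⟩
          rw [Fin.lt_def] at hv
          by_cases h2 : ∀ u, E v u → ((f u : ℕ) : ℤ) ≠ (f v : ℕ) - q
          · have h3 : ¬ ∀ u, E u v → ((f u : ℕ) : ℤ) ≠ (f v : ℕ) - q + k := fun h => h1 ⟨h2, h⟩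
            push Not at h3
            obtain ⟨u, e1, e2⟩ := h3
            have := hz u v e1
            exact ⟨u, fun _ => ⟨by rw [Fin.lt_def]; omega, Or.inr e2⟩⟩
          · push Not at h2
            obtain ⟨u, e1, e2⟩ := h2
            have := hz v u e1
            exact ⟨u, fun _ => ⟨by rw [Fin.lt_def]; omega, Or.inl e2⟩⟩
        · exact ⟨v, fun h => absurd h hv⟩
      choose b hb using hb
      have inv : ∀ (i : ℕ) (w : V), z w < f w → z (b^[i] w) < f (b^[i] w) ∧
          ∃ j : ℕ, j ≤ i ∧ ((f (b^[i] w) : ℕ) : ℤ) = (f w : ℕ) - i * q + j * k := by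
        intro i w hw
        induction i with
        | zero => exact ⟨hw, 0, le_rfl, by simp⟩
        | succ i ih =>
          obtain ⟨h1, j, h2, h3⟩ := ih
          rw [Function.iterate_succ_apply']
          obtain ⟨h4, h5⟩ := hb _ h1
          refine ⟨h4, ?_⟩
          rcases h5 with h5 | h5
          · exact ⟨j, by omega, by rw [h5, h3]; push_cast; ring⟩
          · exact ⟨j + 1, by omega, by rw [h5, h3]; push_cast; ring⟩
      have key : ∀ i i' : ℕ, i < i' → i' ≤ Fintype.card V → b^[i] v0 ≠ b^[i'] v0 := by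
        intro i i' h1 h2 e
        obtain ⟨p, rfl⟩ : ∃ p, i' = p + i := ⟨i' - i, by omega⟩
        rw [Function.iterate_add_apply] at e
        obtain ⟨_, j, h3, h4⟩ := inv p _ (inv i v0 hv0).1
        rw [← e] at h4
        have h5 : (p : ℤ) * q = j * k := by linarith
        have h6 : (0 : ℤ) < p * q := by
          have : 0 < p := by omega
          positivity
        have h7 : j ≠ 0 := by
          rintro rfl
          simp at h5
          omega
        exact g p j (by omega) (by omega) h5
      obtain ⟨i, hi, i', hi', hne, e⟩ := Finset.exists_ne_map_eq_of_card_lt_of_maps_to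
        (s := range (Fintype.card V + 1)) (t := (univ : Finset V)) (by simp)
        (f := fun i => b^[i] v0) (fun _ _ => mem_univ _)
      rw [mem_range] at hi hi'
      rcases lt_or_gt_of_ne hne with h | h
      · exact key i i' h (by omega) e
      · exact key i' i h (by omega) e.symm
    obtain ⟨v, hv, h1, h2⟩ := hex
    rw [Fin.lt_def] at hv
    let f' : V → Fin k := Function.update f v ⟨f v - 1, by have := (f v).2; omega⟩
    have e1 : ((f' v : ℕ) : ℤ) = (f v : ℕ) - 1 := by
      simp only [f', Function.update_self]; omega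
    have e2 : ∀ u, u ≠ v → f' u = f u := fun u hu => Function.update_of_ne hu _ _
    have hf' : Sol k q E f' := by
      intro a c hac
      obtain ⟨c1, c2⟩ := hf a c hac
      by_cases ha : a = v <;> by_cases hc : c = v
      · subst ha; subst hc; omega
      · subst ha
        rw [e1, e2 c hc]
        have := h1 c hac
        constructor <;> omega
      · subst hc
        rw [e1, e2 a ha]
        have := h2 a hac
        constructor <;> omega
      · rw [e2 a ha, e2 c hc]; exact ⟨c1, c2⟩
    refine Relation.ReflTransGen.head ⟨col_of_sol hE hf, col_of_sol hE hf', v, ?_,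
      fun u hu => (e2 u hu).symm⟩ (ih _ ?_ f' rfl hf' ?_)
    · intro e
      have := congrArg Fin.val e
      omega
    · rw [← hN]
      refine Finset.sum_lt_sum (fun w _ => ?_) ⟨v, mem_univ _, by omega⟩
      by_cases hw : w = v
      · subst hw; omega
      · rw [e2 w hw]
    · intro w
      by_cases hw : w = v
      · subst hw; rw [Fin.le_def]; omega
      · rw [e2 w hw]; exact hle w

theorem rsymm {G : SimpleGraph V} {k q : ℕ} {a b : V → Fin k}
    (h : Relation.ReflTransGen (Step G k q) a b) : Relation.ReflTransGen (Step G k q) b a := by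
  induction h with
  | refl => exact Relation.ReflTransGen.refl
  | tail _ h2 ih => exact Relation.ReflTransGen.head h2.symm ih

theorem conn {G : SimpleGraph V} {B k q : ℕ} (hB : Fintype.card V ≤ B) (hq : 0 < q)
    (g : Gen B k q) {E : V → V → Prop} (hE : ∀ u v, G.Adj u v → E u v ∨ E v u)
    (x y : V → Fin k) (hx : Sol k q E x) (hy : Sol k q E y) :
    Relation.ReflTransGen (Step G k q) x y := by
  have hz : Sol k q E (fun v => min (x v) (y v)) := by
    intro u v h
    have a1 := hx u v h
    have a2 := hy u v h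
    simp only [Fin.coe_min]
    constructor <;> omega
  exact (down hB hq g hE _ hz _ x rfl hx fun v => min_le_left _ _).trans
    (rsymm (down hB hq g hE _ hz _ y rfl hy fun v => min_le_right _ _))

def Ori (G : SimpleGraph V) {k : ℕ} (f : V → Fin k) (u v : V) : Prop := G.Adj u v ∧ f v < f u

theorem ori_total {G : SimpleGraph V} {k q : ℕ} (hq : 0 < q) {f : V → Fin k}
    (hf : IsCircCol G k q f) (u v : V) (h : G.Adj u v) : Ori G f u v ∨ Ori G f v u := by
  rcases lt_trichotomy (f u) (f v) with h1 | h1 | h1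
  · exact Or.inr ⟨h.symm, h1⟩
  · have := (hf u v h).1
    rw [h1] at this
    simp at this
    omega
  · exact Or.inl ⟨h, h1⟩

theorem sol_ori {G : SimpleGraph V} {k q : ℕ} {f : V → Fin k} (hf : IsCircCol G k q f) :
    Sol k q (Ori G f) f := by
  intro u v h
  have := hf u v h.1
  have h2 := h.2
  rw [Fin.lt_def] at h2
  rwa [abs_of_nonneg (by omega)] at this

theorem ori_eq {G : SimpleGraph V} {k q k' q' : ℕ} (hq : 0 < q) (hq' : 0 < q') {f : V → Fin k}
    {f' : V → Fin k'} (hf' : IsCircCol G k' q' f') (h : Sol k q (Ori G f') f) :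
    Sol k' q' (Ori G f) f' := by
  intro u v huv
  rcases ori_total hq' hf' u v huv.1 with h1 | h1
  · exact sol_ori hf' u v h1
  · have := h v u h1
    have h2 := huv.2
    rw [Fin.lt_def] at h2
    omega

theorem mix_transfer (G : SimpleGraph V) {B k q k' q' : ℕ} (hB : Fintype.card V + 2 ≤ B)
    (hq : 0 < q) (hq' : 0 < q') (g : Gen B k q) (g' : Gen B k' q') (h : ST B k q k' q')
    (hm : Mixes (IsCircCol G k q)) : Mixes (IsCircCol G k' q') := by
  classical
  have h' : ST B k' q' k q := fun a b h1 h2 => (h a b h1 h2).symm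
  intro f' g1 hf' hg1
  obtain ⟨f, hf⟩ := transfer (by omega) hq' g' h' f' (sol_ori hf')
  obtain ⟨e, he⟩ := transfer (by omega) hq' g' h' g1 (sol_ori hg1)
  have cf := col_of_sol (ori_total hq' hf') hf
  have ce := col_of_sol (ori_total hq' hg1) he
  have key : ∀ b : V → Fin k, Relation.ReflTransGen (Step G k q) f b → IsCircCol G k q b →
      ∀ b' : V → Fin k', Sol k' q' (Ori G b) b' → Relation.ReflTransGen (Step G k' q') f' b' := by
    intro b hb
    induction hb with
    | refl =>
      intro _ b' hb'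
      exact conn (B := B) (by omega) hq' g' (ori_total hq cf) _ _ (ori_eq hq hq' hf' hf) hb'
    | @tail a b _ hab ih =>
      intro cb b' hb'
      obtain ⟨ca, _, v, _, hv⟩ := hab
      let x : Option V → Fin k := fun o => o.elim (b v) a
      let E : Option V → Option V → Prop := fun o o' =>
        G.Adj (o.getD v) (o'.getD v) ∧ x o' < x o
      have hx : Sol k q E x := by
        rintro (_ | u) (_ | w) ⟨h1, h2⟩
        · exact absurd h1 (G.loopless.irrefl _)
        · have hw : w ≠ v := fun e => G.loopless.irrefl v (by simpa [e] using h1)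
          have := sol_ori cb v w ⟨h1, by rw [← hv w hw]; exact h2⟩
          rw [← hv w hw] at this
          exact this
        · have hu : u ≠ v := fun e => G.loopless.irrefl v (by simpa [e] using h1)
          have := sol_ori cb u v ⟨h1, by rw [← hv u hu]; exact h2⟩
          rw [← hv u hu] at this
          exact this
        · exact sol_ori ca u w ⟨h1, h2⟩
      obtain ⟨x', hx'⟩ := transfer (by simp; omega) hq g h x hx
      let a' : V → Fin k' := fun u => x' (some u)
      let c' : V → Fin k' := fun u => if u = v then x' none else x' (some u)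
      have ha' : Sol k' q' (Ori G a) a' := fun u w huw => hx' (some u) (some w) huw
      have hc' : Sol k' q' (Ori G b) c' := by
        intro u w ⟨h1, h2⟩
        by_cases hu : u = v <;> by_cases hw : w = v
        · subst hu; subst hw; exact absurd h1 (G.loopless.irrefl _)
        · subst hu
          simp only [c', if_neg hw, if_true]
          exact hx' none (some w) ⟨h1, by rw [← hv w hw] at h2; exact h2⟩
        · subst hw
          simp only [c', if_neg hu, if_true]
          exact hx' (some u) none ⟨h1, by rw [← hv u hu] at h2; exact h2⟩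
        · simp only [c', if_neg hu, if_neg hw]
          exact hx' (some u) (some w) ⟨h1, by rw [← hv u hu, ← hv w hw] at h2; exact h2⟩
      have r1 := ih ca a' ha'
      have r3 := conn (B := B) (by omega) hq' g' (ori_total hq cb) _ _ hc' hb'
      refine r1.trans (Relation.ReflTransGen.trans ?_ r3)
      by_cases hac : a' v = c' v
      · have : a' = c' := by
          funext u
          by_cases hu : u = v
          · rw [hu, hac]
          · simp only [a', c', if_neg hu]
        rw [this]
      · exact Relation.ReflTransGen.single ⟨col_of_sol (ori_total hq ca) ha',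
          col_of_sol (ori_total hq cb) hc', v, hac, fun u hu => by simp only [a', c', if_neg hu]⟩
  exact key e (hm f e cf ce) ce g1 (ori_eq hq hq' hg1 he)

theorem rational (G : SimpleGraph V) : ∃ x : ℚ, circMixThreshold G = x := by
  unfold circMixThreshold
  set S := (fun r : ℚ => (r : ℝ)) '' R G with hS
  by_cases hne : S.Nonempty
  swap
  · exact ⟨0, by rw [Set.not_nonempty_iff_eq_empty.mp hne]; simp⟩
  by_cases hb : BddBelow S
  swap
  · exact ⟨0, by rw [Real.sInf_of_not_bddBelow hb]; simp⟩
  by_contra hirr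
  set s := sInf S with hs
  set B := Fintype.card V + 2 with hB
  have hev : ∀ᶠ x in nhds s, ∀ b ∈ Icc 1 B,
      ((⌊(b : ℝ) * s⌋ : ℤ) : ℝ) < b * x ∧ (b : ℝ) * x < (⌊(b : ℝ) * s⌋ : ℤ) + 1 := by
    rw [Filter.eventually_all_finset]
    intro b hb
    have hb0 : (0 : ℝ) < b := by
      have := (mem_Icc.mp hb).1
      exact_mod_cast this
    have hc : Continuous fun x : ℝ => (b : ℝ) * x := by fun_prop
    have h1 : ((⌊(b : ℝ) * s⌋ : ℤ) : ℝ) < b * s := by
      refine lt_of_le_of_ne (Int.floor_le _) fun e => hirr ⟨(⌊(b : ℝ) * s⌋ : ℚ) / b, ?_⟩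
      push_cast
      rw [e]; field_simp
    exact (hc.continuousAt.eventually (lt_mem_nhds h1)).and
      (hc.continuousAt.eventually (gt_mem_nhds (Int.lt_floor_add_one _)))
  obtain ⟨ε, hε, hball⟩ := Metric.eventually_nhds_iff.mp hev
  have near : ∀ k q : ℕ, 0 < q → s - ε < (k : ℝ) / q → (k : ℝ) / q < s + ε →
      Gen B k q ∧ ∀ (a : ℤ) (b : ℕ), 1 ≤ b → b ≤ B → (a * q < b * k ↔ a ≤ ⌊(b : ℝ) * s⌋) := by
    intro k q hq h1 h2
    have hq' : (0 : ℝ) < q := by exact_mod_cast hq
    have h3 := hball (y := (k : ℝ) / q) (by rw [Real.dist_eq, abs_lt]; constructor <;> linarith)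
    have h4 : ∀ b : ℕ, 1 ≤ b → b ≤ B → ⌊(b : ℝ) * s⌋ * q < b * k ∧
        (b : ℤ) * k < (⌊(b : ℝ) * s⌋ + 1) * q := by
      intro b b1 b2
      obtain ⟨c1, c2⟩ := h3 b (mem_Icc.mpr ⟨b1, b2⟩)
      rw [← mul_div_assoc, lt_div_iff₀ hq'] at c1
      rw [← mul_div_assoc, div_lt_iff₀ hq'] at c2
      constructor
      · exact_mod_cast c1
      · exact_mod_cast c2
    have hqz : (0 : ℤ) < q := by exact_mod_cast hq
    constructor
    · intro a b b1 b2 e
      obtain ⟨c1, c2⟩ := h4 b b1 b2
      rw [← e] at c1 c2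
      have := lt_of_mul_lt_mul_right c1 hqz.le
      have := lt_of_mul_lt_mul_right c2 hqz.le
      omega
    · intro a b b1 b2
      obtain ⟨c1, c2⟩ := h4 b b1 b2
      constructor
      · intro h
        have := lt_of_mul_lt_mul_right (h.trans c2) hqz.le
        omega
      · intro h
        exact lt_of_le_of_lt (mul_le_mul_of_nonneg_right h hqz.le) c1
  obtain ⟨_, ⟨r, hr, rfl⟩, hrs⟩ := exists_lt_of_csInf_lt hne (show sInf S < s + ε by linarith)
  simp only at hrs
  have hsr : s ≤ r := csInf_le hb ⟨r, hr, rfl⟩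
  obtain ⟨r', h1, h2⟩ := exists_rat_btwn (show s - ε < s by linarith)
  have hr' : r' ∈ R G := by
    intro k q hk hq hle
    by_cases hc : r ≤ (k : ℚ) / q
    · exact hr k q hk hq hc
    · have hlt : (k : ℚ) / q < r := not_le.mp hc
      have hpos : 0 < r := lt_trans (by positivity) hlt
      have e0 : ((r.num.toNat : ℕ) : ℚ) / (r.den : ℚ) = r := by
        have : ((r.num.toNat : ℕ) : ℤ) = r.num := Int.toNat_of_nonneg (Rat.num_pos.mpr hpos).le
        have h3 : ((r.num.toNat : ℕ) : ℚ) = (r.num : ℚ) := by exact_mod_cast this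
        rw [h3, Rat.num_div_den]
      have hk0 : 0 < r.num.toNat := by
        have := Rat.num_pos.mpr hpos
        omega
      have m0 := hr r.num.toNat r.den hk0 r.den_pos e0.ge
      have e1 : ((r.num.toNat : ℕ) : ℝ) / (r.den : ℝ) = r := by
        have := congrArg (fun t : ℚ => (t : ℝ)) e0
        simpa using this
      have c1 : (r' : ℝ) ≤ (k : ℝ) / q := by
        have := (Rat.cast_le (K := ℝ)).mpr hle
        simpa using this
      have c2 : (k : ℝ) / q < r := by
        have := (Rat.cast_lt (K := ℝ)).mpr hlt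
        simpa using this
      obtain ⟨g1, n1⟩ := near r.num.toNat r.den r.den_pos (by rw [e1]; linarith) (by rw [e1]; linarith)
      obtain ⟨g2, n2⟩ := near k q hq (by linarith) (by linarith)
      exact mix_transfer G (B := B) le_rfl r.den_pos hq g1 g2
        (fun a b b1 b2 => (n1 a b b1 b2).trans (n2 a b b1 b2).symm) m0
  have := csInf_le hb ⟨r', hr', rfl⟩
  simp only at this
  linarith

end Pool.Agent.H20.CircRat
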