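import Mathlib

set_option autoImplicit false

namespace Pool.Agent.H20.TreeSep

open Finset Classical

/-- Balanced separations of bounded order with respect to any large vertex set. -/
def HasSep {V : Type} (G : SimpleGraph V) (w : ℕ) : Prop :=
  ∀ (Y : Finset V) (t : ℕ), 0 < t → 3 * t + 2 * w ≤ Y.card →
    ∃ (P Q : Set V) (Z : Finset V), Z.card ≤ w ∧ (∀ v, v ∈ P ∨ v ∈ Q) ∧
      (∀ v, v ∈ Z ↔ (v ∈ P ∧ v ∈ Q)) ∧
      (∀ u v, G.Adj u v → (u ∈ P ∧ v ∈ P) ∨ (u ∈ Q ∧ v ∈ Q)) ∧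
      (∃ A ⊆ Y, t ≤ A.card ∧ ∀ v ∈ A, v ∉ P) ∧ (∃ A ⊆ Y, t ≤ A.card ∧ ∀ v ∈ A, v ∉ Q)

variable {ι : Type} (T : SimpleGraph ι)

def Fam (i : ι) (N : Finset ι) : Prop := i ∈ N ∧ ∀ x ∈ N, ∀ y, y ∉ N → T.Adj x y → x = i

theorem exit {i : ι} {N : Finset ι} (h : Fam T i N) {x y : ι} (q : T.Walk x y) (hx : x ∈ N)
    (hy : y ∉ N) : i ∈ q.support := by
  induction q with
  | nil => exact absurd hx hy
  | @cons a b c hab q ih =>
    by_cases hb : b ∈ N
    · simp [ih hb hy]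
    · rw [← h.2 a hx b hb hab]; simp

theorem nbr {i : ι} {N : Finset ι} (h : Fam T i N) {x y : ι} (q : T.Walk x y) (hy : y = i)
    (hx : x ∈ N) (hxi : x ≠ i) : ∃ c ∈ N, T.Adj i c := by
  induction q with
  | nil => exact absurd hy hxi
  | @cons a b c hab q ih =>
    by_cases hb : b = i
    · exact ⟨a, hx, hb ▸ hab.symm⟩
    · refine ih hy ?_ hb
      by_contra hbN
      exact hxi (h.2 a hx b hbN hab)

theorem split [Fintype ι] (hT : T.IsTree) {i : ι} {N : Finset ι} (h : Fam T i N) {x : ι}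
    (hx : x ∈ N) (hxi : x ≠ i) :
    ∃ c, ∃ N' : Finset ι, Fam T c N' ∧ Fam T i (N \ N') ∧ N' ⊆ N ∧ i ∉ N' := by
  obtain ⟨q⟩ := hT.connected x i
  obtain ⟨c, hc, hic⟩ := nbr T h q rfl hx hxi
  have hbr : ¬ (T.deleteEdges {s(i, c)}).Reachable i c :=
    SimpleGraph.isBridge_iff.1 (SimpleGraph.isAcyclic_iff_forall_adj_isBridge.1 hT.isAcyclic hic)
  let N' : Finset ι := univ.filter (fun y => (T.deleteEdges {s(i, c)}).Reachable c y)
  have mem : ∀ y, y ∈ N' ↔ (T.deleteEdges {s(i, c)}).Reachable c y := fun y => by simp [N']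
  have hi : i ∉ N' := fun hh => hbr ((mem i).1 hh).symm
  have hcN : c ∈ N' := (mem c).2 (SimpleGraph.Reachable.refl _)
  have st : ∀ a ∈ N', ∀ b, T.Adj a b → s(a, b) ≠ s(i, c) → b ∈ N' := by
    intro a ha b hab hne
    refine (mem b).2 (((mem a).1 ha).trans (SimpleGraph.Adj.reachable ?_))
    simp [hab, hne]
  have sub : N' ⊆ N := by
    intro y hy
    obtain ⟨p⟩ := (mem y).1 hy
    have : ∀ a b (p : (T.deleteEdges {s(i, c)}).Walk a b), a ∈ N' → a ∈ N → b ∈ N := by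
      intro a b p
      induction p with
      | nil => exact fun _ h => h
      | @cons a b d hab p ih =>
        intro h1 h2
        rw [SimpleGraph.deleteEdges_adj] at hab
        refine ih (st a h1 b hab.1 (by simpa using hab.2)) ?_
        by_contra hb
        exact hi (h.2 a h2 b hb hab.1 ▸ h1)
    exact this c y p hcN hc
  refine ⟨c, N', ⟨hcN, ?_⟩, ⟨mem_sdiff.2 ⟨h.1, hi⟩, ?_⟩, sub, hi⟩
  · intro a ha b hb hab
    by_contra hne
    apply hb
    apply st a ha b hab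
    intro e
    rcases Sym2.eq_iff.1 e with ⟨e1, _⟩ | ⟨e1, _⟩
    · exact hi (e1 ▸ ha)
    · exact hne e1
  · intro a ha b hb hab
    rw [mem_sdiff] at ha hb
    by_cases hbN : b ∈ N
    · have hb' : b ∈ N' := by
        by_contra hh
        exact hb ⟨hbN, hh⟩
      by_contra hne
      apply ha.2
      apply st b hb' a hab.symm
      intro e
      rcases Sym2.eq_iff.1 e with ⟨e1, _⟩ | ⟨_, e1⟩
      · exact hi (e1 ▸ hb')
      · exact hne e1
    · exact h.2 a ha.1 b hbN hab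

theorem hasSep [Fintype ι] {V : Type} (G : SimpleGraph V) (hT : T.IsTree) (B : ι → Finset V)
    (w : ℕ) (hw : ∀ i, (B i).card ≤ w) (cov : ∀ v, ∃ i, v ∈ B i)
    (edge : ∀ u v, G.Adj u v → ∃ i, u ∈ B i ∧ v ∈ B i)
    (run : ∀ v i j, v ∈ B i → v ∈ B j → ∃ q : T.Walk i j, ∀ x ∈ q.support, v ∈ B x) :
    HasSep G w := by
  intro Y t ht hY
  let y : Finset ι → ℕ := fun N => (Y.filter (fun v => ∃ j ∈ N, v ∈ B j)).card
  obtain ⟨i0⟩ := hT.connected.nonempty
  obtain ⟨N, hN, hmin⟩ := exists_min_image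
    (univ.filter (fun N : Finset ι => (∃ i, Fam T i N) ∧ t + w ≤ y N)) card
    ⟨univ, by
      simp only [mem_filter, mem_univ, true_and]
      refine ⟨⟨i0, mem_univ _, fun x _ z hz => absurd (mem_univ z) hz⟩, ?_⟩
      have : Y.filter (fun v => ∃ j ∈ (univ : Finset ι), v ∈ B j) = Y := by
        apply filter_true_of_mem
        intro v _
        obtain ⟨j, hj⟩ := cov v
        exact ⟨j, mem_univ _, hj⟩
      simp only [y]
      rw [this]; omega⟩
  simp only [mem_filter, mem_univ, true_and] at hN hmin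
  obtain ⟨⟨i, hi⟩, hy⟩ := hN
  have hx : ∃ x ∈ N, x ≠ i := by
    by_contra hc
    push Not at hc
    have : y N ≤ (B i).card := by
      apply card_le_card
      intro v hv
      obtain ⟨j, hj, h⟩ := (mem_filter.1 hv).2
      exact hc j hj ▸ h
    have := hw i
    omega
  obtain ⟨x, hx, hxi⟩ := hx
  obtain ⟨c, N', f1, f2, sub, hiN⟩ := split T hT hi hx hxi
  have l1 : y N' < t + w := by
    by_contra hc
    have h1 := hmin N' ⟨⟨c, f1⟩, by omega⟩
    have h2 : N'.card < N.card := card_lt_card ⟨sub, fun hh => hiN (hh hi.1)⟩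
    omega
  have l2 : y (N \ N') < t + w := by
    by_contra hc
    have h1 := hmin _ ⟨⟨i, f2⟩, by omega⟩
    have h2 : (N \ N').card < N.card := card_lt_card (sdiff_ssubset sub ⟨c, f1.1⟩)
    omega
  have l3 : y N ≤ y N' + y (N \ N') := by
    refine le_trans (card_le_card ?_) (card_union_le _ _)
    intro v hv
    obtain ⟨h0, j, hj, h⟩ := mem_filter.1 hv
    by_cases hj' : j ∈ N'
    · exact mem_union_left _ (mem_filter.2 ⟨h0, j, hj', h⟩)
    · exact mem_union_right _ (mem_filter.2 ⟨h0, j, mem_sdiff.2 ⟨hj, hj'⟩, h⟩)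
  have key : ∀ v, (∃ j ∈ N, v ∈ B j) → (∃ j, j ∉ N ∧ v ∈ B j) → v ∈ B i := by
    rintro v ⟨a, ha, hva⟩ ⟨b, hb, hvb⟩
    obtain ⟨q, hq⟩ := run v a b hva hvb
    exact hq i (exit T hi q ha hb)
  refine ⟨{v | ∃ j ∈ N, v ∈ B j}, {v | v ∈ B i ∨ ∃ j, j ∉ N ∧ v ∈ B j}, B i, hw i, ?_, ?_, ?_,
    ?_, ?_⟩
  · intro v
    obtain ⟨j, hj⟩ := cov v
    by_cases h : j ∈ N
    · exact Or.inl ⟨j, h, hj⟩
    · exact Or.inr (Or.inr ⟨j, h, hj⟩)
  · intro v
    constructor
    · exact fun h => ⟨⟨i, hi.1, h⟩, Or.inl h⟩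
    · rintro ⟨h1, h2 | h2⟩
      · exact h2
      · exact key v h1 h2
  · intro u v huv
    obtain ⟨j, h1, h2⟩ := edge u v huv
    by_cases h : j ∈ N
    · exact Or.inl ⟨⟨j, h, h1⟩, ⟨j, h, h2⟩⟩
    · exact Or.inr ⟨Or.inr ⟨j, h, h1⟩, Or.inr ⟨j, h, h2⟩⟩
  · have := card_filter_add_card_filter_not (s := Y) (fun v => ∃ j ∈ N, v ∈ B j)
    simp only [y] at l1 l2 l3
    refine ⟨Y.filter (fun v => ¬ ∃ j ∈ N, v ∈ B j), filter_subset _ _, by omega, ?_⟩
    intro v hv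
    exact (mem_filter.1 hv).2
  · refine ⟨(Y.filter (fun v => ∃ j ∈ N, v ∈ B j)) \ B i,
      sdiff_subset.trans (filter_subset _ _), ?_, ?_⟩
    · have := le_card_sdiff (B i) (Y.filter (fun v => ∃ j ∈ N, v ∈ B j))
      have := hw i
      simp only [y] at hy
      omega
    · intro v hv
      obtain ⟨h1, h⟩ := mem_sdiff.1 hv
      rintro (h2 | h2)
      · exact h h2
      · exact h (key v (mem_filter.1 h1).2 h2)

theorem run_of_connected {V : Type} (B : ι → Finset V)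
    (h : ∀ v : V, (T.induce {i | v ∈ B i}).Connected) :
    ∀ v i j, v ∈ B i → v ∈ B j → ∃ q : T.Walk i j, ∀ x ∈ q.support, v ∈ B x := by
  intro v i j hi hj
  obtain ⟨p⟩ := h v ⟨i, hi⟩ ⟨j, hj⟩
  refine ⟨p.map (SimpleGraph.Embedding.induce {i | v ∈ B i}).toHom, ?_⟩
  intro x hx
  have h2 := SimpleGraph.Walk.support_map (SimpleGraph.Embedding.induce {i | v ∈ B i}).toHom p
  obtain ⟨a, _, rfl⟩ := List.mem_map.1 (h2 ▸ hx)
  exact a.2

end Pool.Agent.H20.TreeSep
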