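import Mathlib
import Pool.Agent.H20.TreeSep

set_option autoImplicit false

namespace Pool.Agent.H20.Cluster

open Finset Classical Pool.Agent.H20.TreeSep

variable {V : Type} [Fintype V] (G : SimpleGraph V)

structure Gir : Prop where
  h3 : ∀ a b c, G.Adj a b → G.Adj b c → G.Adj c a → False
  h4 : ∀ a b c d, G.Adj a b → G.Adj b c → G.Adj c d → G.Adj d a → a ≠ c → b ≠ d → False
  h6 : ∀ a b c d e f, G.Adj a b → G.Adj b c → G.Adj c d → G.Adj d e → G.Adj e f → G.Adj f a →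
    a ≠ c → a ≠ d → a ≠ e → b ≠ d → b ≠ e → b ≠ f → c ≠ e → c ≠ f → d ≠ f → False

theorem gir_of (h : (7 : ℕ∞) ≤ G.egirth) : Gir G := by
  rw [SimpleGraph.le_egirth] at h
  refine ⟨?_, ?_, ?_⟩
  · intro a b c h1 h2 h3
    have := h a (.cons h1 (.cons h2 (.cons h3 .nil))) (by
      have := h1.ne; have := h2.ne; have := h3.ne
      have := h1.ne'; have := h2.ne'; have := h3.ne'
      simp [SimpleGraph.Walk.isCycle_def, SimpleGraph.Walk.isTrail_def, *])
    simp at this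
    exact absurd this (by decide)
  · intro a b c d h1 h2 h3 h4 n1 n2
    have := h a (.cons h1 (.cons h2 (.cons h3 (.cons h4 .nil)))) (by
      have := h1.ne; have := h2.ne; have := h3.ne; have := h4.ne
      have := h1.ne'; have := h2.ne'; have := h3.ne'; have := h4.ne'
      have := n1.symm; have := n2.symm
      simp [SimpleGraph.Walk.isCycle_def, SimpleGraph.Walk.isTrail_def, *])
    simp at this
    exact absurd this (by decide)
  · intro a b c d e f h1 h2 h3 h4 h5 h6 n1 n2 n3 n4 n5 n6 n7 n8 n9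
    have := h a (.cons h1 (.cons h2 (.cons h3 (.cons h4 (.cons h5 (.cons h6 .nil)))))) (by
      have := h1.ne; have := h2.ne; have := h3.ne; have := h4.ne; have := h5.ne; have := h6.ne
      have := h1.ne'; have := h2.ne'; have := h3.ne'; have := h4.ne'; have := h5.ne'
      have := h6.ne'
      have := n1.symm; have := n2.symm; have := n3.symm; have := n4.symm; have := n5.symm
      have := n6.symm; have := n7.symm; have := n8.symm; have := n9.symm
      simp [SimpleGraph.Walk.isCycle_def, SimpleGraph.Walk.isTrail_def, *])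
    simp at this
    exact absurd this (by decide)

def Inv (X Y S : Finset V) (φ : V → Bool) : Prop :=
  ∀ s ∈ S, ∀ v ∈ X, v ∉ Y → G.Adj s v → φ v ≠ φ s

def Closed (X : Finset V) (f : V → Bool) (U : Finset V) : Prop :=
  ∀ u ∈ U, ∀ v ∈ X, G.Adj u v → f u = f v → v ∈ U

theorem phase (hg : Gir G) (X Y S : Finset V) (φ : V → Bool) (hS : S ⊆ Y) (hY : Y ⊆ X)
    (hI : Inv G X Y S φ) (b : Bool) :
    ∃ (Y' : Finset V) (φ' : V → Bool), Y ⊆ Y' ∧ Y' ⊆ X ∧ Y'.card ≤ Y.card + 2 * Y.card ^ 2 ∧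
      (∀ v ∈ Y', φ' v = φ v) ∧ (∀ s ∈ S, ∀ v ∈ X, v ∉ Y → G.Adj s v → φ' v = φ v) ∧
      Inv G X Y' (S ∪ Y'.filter (fun v => φ v = b)) φ' ∧ (∀ v ∈ Y', v ∉ Y → φ v = b) := by
  let F : V → Prop := fun v => v ∈ X ∧ v ∉ Y ∧ ∃ s ∈ S, G.Adj s v
  let A1 : Finset V := univ.filter (fun v => F v ∧ φ v = b ∧ ∃ y ∈ Y, φ y = b ∧ G.Adj y v)
  let A2 : Finset V := univ.filter (fun v => F v ∧ φ v = b ∧ ∃ u, F u ∧ G.Adj u v)
  have c1 : A1.card ≤ Y.card ^ 2 := by
    have : ∀ v ∈ A1, ∃ p ∈ Y ×ˢ Y, G.Adj p.1 v ∧ G.Adj p.2 v ∧ p.1 ≠ p.2 := by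
      intro v hv
      obtain ⟨-, ⟨h1, h2, s, hs, hsv⟩, h3, y, hy, h4, h5⟩ := mem_filter.1 hv
      refine ⟨(s, y), mem_product.2 ⟨hS hs, hy⟩, hsv, h5, fun e => ?_⟩
      simp only at e
      exact hI s hs v h1 h2 hsv (by rw [h3, e, h4])
    choose! p hp1 hp2 hp3 hp4 using this
    rw [sq, ← card_product]
    apply card_le_card_of_injOn p hp1
    intro v hv w hw e
    by_contra hne
    exact hg.h4 (p v).1 v (p v).2 w (hp2 v hv) (hp3 v hv).symm (e ▸ hp3 w hw)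
      (e ▸ (hp2 w hw).symm) (hp4 v hv) hne
  have c2 : A2.card ≤ Y.card ^ 2 := by
    have : ∀ v ∈ A2, ∃ p ∈ Y ×ˢ Y, ∃ u, v ∉ Y ∧ u ∉ Y ∧ G.Adj p.1 v ∧ G.Adj p.2 u ∧ G.Adj u v := by
      intro v hv
      obtain ⟨-, ⟨h1, h2, s, hs, hsv⟩, h3, u, ⟨h4, h5, s', hs', h6⟩, h7⟩ := mem_filter.1 hv
      exact ⟨(s, s'), mem_product.2 ⟨hS hs, hS hs'⟩, u, h2, h5, hsv, h6, h7⟩
    choose! p hp1 u hp2 hp3 hp4 hp5 hp6 using this
    rw [sq, ← card_product]
    apply card_le_card_of_injOn p hp1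
    intro v hv w hw e
    by_contra hne
    have s1 := (mem_product.1 (hp1 v hv)).1
    have s2 := (mem_product.1 (hp1 v hv)).2
    have a1 := hp4 v hv
    have a2 := hp5 v hv
    have a3 := hp6 v hv
    have b1 : G.Adj (p v).1 w := e ▸ hp4 w hw
    have b2 : G.Adj (p v).2 (u w) := e ▸ hp5 w hw
    have b3 := hp6 w hw
    have n1 : ∀ x, x ∉ Y → (p v).1 ≠ x := fun x hx e => hx (e ▸ s1)
    have n2 : ∀ x, x ∉ Y → (p v).2 ≠ x := fun x hx e => hx (e ▸ s2)
    by_cases e2 : u v = u w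
    · exact hg.h4 (p v).1 v (u v) w a1 a3.symm (e2 ▸ b3) b1.symm (n1 _ (hp3 v hv)) hne
    · refine hg.h6 (p v).1 v (u v) (p v).2 (u w) w a1 a3.symm a2.symm b2 b3 b1.symm
        (n1 _ (hp3 v hv)) ?_ (n1 _ (hp3 w hw)) (n2 _ (hp2 v hv)).symm ?_ hne e2 ?_
        (n2 _ (hp2 w hw))
      · intro e3
        exact hg.h3 _ _ _ a1 a3.symm (e3 ▸ a2.symm)
      · intro e3
        exact hg.h3 _ _ _ a2 a3 (e3 ▸ b2.symm)
      · intro e3
        exact hg.h3 _ _ _ b2 b3 (e3 ▸ a2.symm)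
  refine ⟨Y ∪ (A1 ∪ A2), fun v => if v ∈ Y ∪ (A1 ∪ A2) ∨ F v then φ v else !b,
    subset_union_left, ?_, ?_, ?_, ?_, ?_, ?_⟩
  · refine union_subset hY (union_subset ?_ ?_) <;> intro v hv <;> exact (mem_filter.1 hv).2.1.1
  · have := card_union_le Y (A1 ∪ A2)
    have := card_union_le A1 A2
    omega
  · intro v hv
    exact if_pos (Or.inl hv)
  · intro s hs v h1 h2 h3
    exact if_pos (Or.inr ⟨h1, h2, s, hs, h3⟩)
  · intro s hs v h1 h2 h3
    have hvY : v ∉ Y := fun h => h2 (mem_union_left _ h)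
    rcases mem_union.1 hs with hs | hs
    · have f1 : F v := ⟨h1, hvY, s, hs, h3⟩
      beta_reduce
      rw [if_pos (Or.inr f1), if_pos (Or.inl (mem_union_left _ (hS hs)))]
      exact hI s hs v h1 hvY h3
    · obtain ⟨k1, k2⟩ := mem_filter.1 hs
      beta_reduce
      rw [if_pos (Or.inl k1), k2]
      by_cases f1 : F v
      · rw [if_pos (Or.inr f1)]
        intro e
        apply h2
        rcases mem_union.1 k1 with k | k
        · exact mem_union_right _ (mem_union_left _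
            (mem_filter.2 ⟨mem_univ _, f1, e, s, k, k2, h3⟩))
        · have f2 : F s := by
            rcases mem_union.1 k with k | k <;> exact (mem_filter.1 k).2.1
          exact mem_union_right _ (mem_union_right _
            (mem_filter.2 ⟨mem_univ _, f1, e, s, f2, h3⟩))
      · rw [if_neg (fun h => h.elim h2 f1)]
        simp
  · intro v hv h2
    rcases mem_union.1 hv with k | k
    · exact absurd k h2
    · rcases mem_union.1 k with k | k <;> exact (mem_filter.1 k).2.2.1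

def hh (y : ℕ) : ℕ := y + 2 * y ^ 2

theorem hh_mono {a b : ℕ} (h : a ≤ b) : hh a ≤ hh b := by
  unfold hh; gcongr

theorem sealAll (hg : Gir G) (X Y S : Finset V) (φ : V → Bool) (hS : S ⊆ Y) (hY : Y ⊆ X)
    (hI : Inv G X Y S φ) :
    ∃ (Y' : Finset V) (φ' : V → Bool), Y ⊆ Y' ∧ Y' ⊆ X ∧ Y'.card ≤ hh (hh Y.card) ∧
      (∀ v ∈ Y, φ' v = φ v) ∧ (∀ s ∈ S, ∀ v ∈ X, v ∉ Y → G.Adj s v → φ' v = φ v) ∧
      Inv G X Y' Y' φ' := by
  obtain ⟨Y1, φ1, a1, a2, a3, a4, a5, a6, a7⟩ := phase G hg X Y S φ hS hY hI true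
  obtain ⟨Y2, φ2, b1, b2, b3, b4, b5, b6, b7⟩ := phase G hg X Y1 _ φ1
    (union_subset (hS.trans a1) (filter_subset _ _)) a2 a6 false
  refine ⟨Y2, φ2, a1.trans b1, b2, le_trans b3 (hh_mono a3), ?_, ?_, ?_⟩
  · intro v hv
    rw [b4 v (b1 (a1 hv)), a4 v (a1 hv)]
  · intro s hs v h1 h2 h3
    rw [← a5 s hs v h1 h2 h3]
    by_cases h : v ∈ Y1
    · exact b4 v (b1 h)
    · exact b5 s (mem_union_left _ hs) v h1 h h3
  · intro s hs
    apply b6 s
    by_cases h : φ1 s = false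
    · exact mem_union_right _ (mem_filter.2 ⟨hs, h⟩)
    · have h1 : s ∈ Y1 := by
        by_contra hc
        exact h (b7 s hs hc)
      refine mem_union_left _ (mem_union_right _ (mem_filter.2 ⟨h1, ?_⟩))
      rw [← a4 s h1]
      simpa using h

def Concl (X Y S : Finset V) (φ : V → Bool) (g c : ℕ) : Prop :=
  ∃ f : V → Bool, (∀ y ∈ Y, f y = φ y) ∧ (∀ s ∈ S, ∀ v ∈ X, v ∉ Y → G.Adj s v → f v = φ v) ∧
    (∃ U, Y ⊆ U ∧ U.card ≤ g ∧ Closed G X f U) ∧
    ∀ v ∈ X, ∃ U, v ∈ U ∧ U.card ≤ c ∧ Closed G X f U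

theorem merge (X Y S : Finset V) (φ : V → Bool) (hS : S ⊆ Y) (hY : Y ⊆ X) (P Q : Set V)
    (Z : Finset V) (h1 : ∀ v, v ∈ P ∨ v ∈ Q) (h2 : ∀ v, v ∈ Z ↔ (v ∈ P ∧ v ∈ Q))
    (h3 : ∀ u v, G.Adj u v → (u ∈ P ∧ v ∈ P) ∨ (u ∈ Q ∧ v ∈ Q)) (g c : ℕ) (hgc : 2 * g ≤ c)
    (k1 : Concl G (X.filter (· ∈ P)) ((Y ∪ (Z ∩ X)).filter (· ∈ P)) (S.filter (· ∈ P)) φ g c)
    (k2 : Concl G (X.filter (· ∈ Q)) ((Y ∪ (Z ∩ X)).filter (· ∈ Q)) (S.filter (· ∈ Q)) φ g c) :
    Concl G X Y S φ (2 * g) c := by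
  obtain ⟨f1, a1, a2, ⟨U1, a3, a4, a5⟩, a6⟩ := k1
  obtain ⟨f2, b1, b2, ⟨U2, b3, b4, b5⟩, b6⟩ := k2
  let f : V → Bool := fun v => if v ∈ P then f1 v else f2 v
  have fP : ∀ v, v ∈ P → f v = f1 v := fun v hv => if_pos hv
  have zP : ∀ v ∈ X, v ∈ P → v ∈ Q → v ∈ (Y ∪ (Z ∩ X)).filter (· ∈ P) := fun v hx hp hq =>
    mem_filter.2 ⟨mem_union_right _ (mem_inter.2 ⟨(h2 v).2 ⟨hp, hq⟩, hx⟩), hp⟩
  have zQ : ∀ v ∈ X, v ∈ P → v ∈ Q → v ∈ (Y ∪ (Z ∩ X)).filter (· ∈ Q) := fun v hx hp hq =>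
    mem_filter.2 ⟨mem_union_right _ (mem_inter.2 ⟨(h2 v).2 ⟨hp, hq⟩, hx⟩), hq⟩
  have fQ : ∀ v ∈ X, v ∈ Q → f v = f2 v := by
    intro v hx hq
    by_cases hp : v ∈ P
    · rw [fP v hp, a1 v (zP v hx hp hq), b1 v (zQ v hx hp hq)]
    · exact if_neg hp
  -- restrict the closed sets to their own sides
  let W1 := U1.filter (fun v => v ∈ X ∧ v ∈ P)
  let W2 := U2.filter (fun v => v ∈ X ∧ v ∈ Q)
  have cW : (W1 ∪ W2).card ≤ 2 * g := by
    have := card_union_le W1 W2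
    have := card_filter_le U1 (fun v => v ∈ X ∧ v ∈ P)
    have := card_filter_le U2 (fun v => v ∈ X ∧ v ∈ Q)
    simp only [W1, W2] at *
    omega
  have clP : ∀ U, Closed G (X.filter (· ∈ P)) f1 U → ∀ u ∈ U, u ∈ P → ∀ v ∈ X, v ∈ P →
      G.Adj u v → f u = f v → v ∈ U := by
    intro U hU u hu hp v hx hp' hadj e
    exact hU u hu v (mem_filter.2 ⟨hx, hp'⟩) hadj (by rw [← fP u hp, ← fP v hp', e])
  have clQ : ∀ U, Closed G (X.filter (· ∈ Q)) f2 U → ∀ u ∈ U, u ∈ X → u ∈ Q → ∀ v ∈ X, v ∈ Q →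
      G.Adj u v → f u = f v → v ∈ U := by
    intro U hU u hu hx' hp v hx hp' hadj e
    exact hU u hu v (mem_filter.2 ⟨hx, hp'⟩) hadj (by rw [← fQ u hx' hp, ← fQ v hx hp', e])
  have clW : Closed G X f (W1 ∪ W2) := by
    intro u hu v hx hadj e
    have hux : u ∈ X := by
      rcases mem_union.1 hu with k | k <;> exact (mem_filter.1 k).2.1
    rcases h3 u v hadj with ⟨p1, p2⟩ | ⟨q1, q2⟩
    · have : u ∈ U1 := by
        rcases mem_union.1 hu with k | k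
        · exact (mem_filter.1 k).1
        · exact a3 (zP u hux p1 (mem_filter.1 k).2.2)
      exact mem_union_left _ (mem_filter.2 ⟨clP U1 a5 u this p1 v hx p2 hadj e, hx, p2⟩)
    · have : u ∈ U2 := by
        rcases mem_union.1 hu with k | k
        · exact b3 (zQ u hux (mem_filter.1 k).2.2 q1)
        · exact (mem_filter.1 k).1
      exact mem_union_right _ (mem_filter.2 ⟨clQ U2 b5 u this hux q1 v hx q2 hadj e, hx, q2⟩)
  have zW : ∀ v ∈ X, v ∈ P → v ∈ Q → v ∈ W1 ∪ W2 := fun v hx hp hq =>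
    mem_union_left _ (mem_filter.2 ⟨a3 (zP v hx hp hq), hx, hp⟩)
  refine ⟨f, ?_, ?_, ⟨W1 ∪ W2, ?_, cW, clW⟩, ?_⟩
  · intro y hy
    rcases h1 y with hp | hq
    · rw [fP y hp]; exact a1 y (mem_filter.2 ⟨mem_union_left _ hy, hp⟩)
    · rw [fQ y (hY hy) hq]; exact b1 y (mem_filter.2 ⟨mem_union_left _ hy, hq⟩)
  · intro s hs v hx hv hadj
    rcases h3 s v hadj with ⟨p1, p2⟩ | ⟨q1, q2⟩
    · rw [fP v p2]
      by_cases h : v ∈ (Y ∪ (Z ∩ X)).filter (· ∈ P)
      · exact a1 v h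
      · exact a2 s (mem_filter.2 ⟨hs, p1⟩) v (mem_filter.2 ⟨hx, p2⟩) h hadj
    · rw [fQ v hx q2]
      by_cases h : v ∈ (Y ∪ (Z ∩ X)).filter (· ∈ Q)
      · exact b1 v h
      · exact b2 s (mem_filter.2 ⟨hs, q1⟩) v (mem_filter.2 ⟨hx, q2⟩) h hadj
  · intro y hy
    rcases h1 y with hp | hq
    · exact mem_union_left _
        (mem_filter.2 ⟨a3 (mem_filter.2 ⟨mem_union_left _ hy, hp⟩), hY hy, hp⟩)
    · exact mem_union_right _
        (mem_filter.2 ⟨b3 (mem_filter.2 ⟨mem_union_left _ hy, hq⟩), hY hy, hq⟩)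
  · intro v hx
    by_cases hW : v ∈ W1 ∪ W2
    · exact ⟨_, hW, cW.trans hgc, clW⟩
    · rcases h1 v with hp | hq
      · obtain ⟨U, u1, u2, u3⟩ := a6 v (mem_filter.2 ⟨hx, hp⟩)
        refine ⟨U.filter (fun v => v ∈ X ∧ v ∈ P ∧ v ∉ W1 ∪ W2), mem_filter.2 ⟨u1, hx, hp, hW⟩,
          (card_filter_le _ _).trans u2, ?_⟩
        intro a ha b hb hadj e
        obtain ⟨m1, m2, m3, m4⟩ := mem_filter.1 ha
        have hbP : b ∈ P := by
          rcases h3 a b hadj with ⟨_, p2⟩ | ⟨q1, _⟩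
          · exact p2
          · exact absurd (zW a m2 m3 q1) m4
        exact mem_filter.2 ⟨clP U u3 a m1 m3 b hb hbP hadj e, hb, hbP,
          fun h => m4 (clW b h a m2 hadj.symm e.symm)⟩
      · obtain ⟨U, u1, u2, u3⟩ := b6 v (mem_filter.2 ⟨hx, hq⟩)
        refine ⟨U.filter (fun v => v ∈ X ∧ v ∈ Q ∧ v ∉ W1 ∪ W2), mem_filter.2 ⟨u1, hx, hq, hW⟩,
          (card_filter_le _ _).trans u2, ?_⟩
        intro a ha b hb hadj e
        obtain ⟨m1, m2, m3, m4⟩ := mem_filter.1 ha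
        have hbQ : b ∈ Q := by
          rcases h3 a b hadj with ⟨p1, _⟩ | ⟨_, q2⟩
          · exact absurd (zW a m2 p1 m3) m4
          · exact q2
        exact mem_filter.2 ⟨clQ U u3 a m1 m2 m3 b hb hbQ hadj e, hb, hbQ,
          fun h => m4 (clW b h a m2 hadj.symm e.symm)⟩

theorem side_card (X Y Z A : Finset V) (P : Set V) (w : ℕ) (hZ : Z.card ≤ w) (hA : A ⊆ Y)
    (hw : w + 1 ≤ A.card) (hP : ∀ v ∈ A, v ∉ P) :
    ((Y ∪ (Z ∩ X)).filter (· ∈ P)).card + 1 ≤ Y.card := by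
  have h1 : (Y ∪ (Z ∩ X)).filter (· ∈ P) ⊆ (Y \ A) ∪ Z := by
    intro v hv
    obtain ⟨h1, h2⟩ := mem_filter.1 hv
    rcases mem_union.1 h1 with h | h
    · exact mem_union_left _ (mem_sdiff.2 ⟨h, fun ha => hP v ha h2⟩)
    · exact mem_union_right _ (mem_inter.1 h).1
  have h2 := card_le_card h1
  have h3 := card_union_le (Y \ A) Z
  have h4 := card_sdiff_add_card_eq_card hA
  omega

theorem Concl.mono {X Y S : Finset V} {φ : V → Bool} {g g' c : ℕ} (h : Concl G X Y S φ g c)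
    (hg : g ≤ g') : Concl G X Y S φ g' c := by
  obtain ⟨f, a1, a2, ⟨U, a3, a4, a5⟩, a6⟩ := h
  exact ⟨f, a1, a2, ⟨U, a3, a4.trans hg, a5⟩, a6⟩

theorem main (hg : Gir G) (w : ℕ) (hs : HasSep G w) (η : ℕ) (hη : hh (hh (5 * w + 3)) ≤ η)
    (n : ℕ) : ∀ (X Y S : Finset V) (φ : V → Bool), (X \ Y).card * (η + 1) + Y.card = n →
      S ⊆ Y → Y ⊆ X → Y.card ≤ η → Inv G X Y S φ →
      Concl G X Y S φ (η * 2 ^ Y.card) (η * 2 ^ η) := by
  induction n using Nat.strong_induction_on with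
  | _ n ih =>
    intro X Y S φ hn hS hY hc hI
    have le1 : ∀ m, η ≤ η * 2 ^ m := fun m => Nat.le_mul_of_pos_right _ (by positivity)
    by_cases hXY : X ⊆ Y
    · have hcl : Closed G X φ Y := fun u _ v hv _ _ => hXY hv
      exact ⟨φ, fun _ _ => rfl, fun _ _ _ _ _ _ => rfl, ⟨Y, subset_rfl, hc.trans (le1 _), hcl⟩,
        fun v hv => ⟨Y, hXY hv, hc.trans (le1 _), hcl⟩⟩
    by_cases hsm : Y.card < 5 * w + 3
    · obtain ⟨v0, hv0, hv0'⟩ := not_subset.1 hXY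
      obtain ⟨Y', φ', a1, a2, a3, a4, a5, a6⟩ := sealAll G hg X (insert v0 Y) S φ
        (hS.trans (subset_insert _ _)) (insert_subset hv0 hY)
        (fun s hs v h1 h2 => hI s hs v h1 (fun h => h2 (mem_insert_of_mem h)))
      have c1 : Y'.card ≤ η := by
        refine a3.trans (le_trans (hh_mono (hh_mono ?_)) hη)
        rw [card_insert_of_notMem hv0']; omega
      have c2 : (X \ Y').card + 1 ≤ (X \ Y).card := by
        apply card_lt_card
        refine ⟨sdiff_subset_sdiff subset_rfl ((subset_insert _ _).trans a1), fun h => ?_⟩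
        exact (mem_sdiff.1 (h (mem_sdiff.2 ⟨hv0, hv0'⟩))).2 (a1 (mem_insert_self _ _))
      obtain ⟨f, b1, b2, -, b3⟩ := ih _ (by
        rw [← hn]
        have := Nat.mul_le_mul_right (η + 1) c2
        rw [add_mul] at this
        omega) X Y' Y' φ' rfl subset_rfl a2 c1 a6
      refine ⟨f, ?_, ?_, ⟨Y', (subset_insert _ _).trans a1, c1.trans (le1 _), ?_⟩, b3⟩
      · intro y hy
        rw [b1 y (a1 (mem_insert_of_mem hy)), a4 y (mem_insert_of_mem hy)]
      · intro s hs v h1 h2 h3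
        have e1 : f v = φ' v := by
          by_cases h : v ∈ Y'
          · exact b1 v h
          · exact b2 s (a1 (mem_insert_of_mem (hS hs))) v h1 h h3
        rw [e1]
        by_cases h : v ∈ insert v0 Y
        · exact a4 v h
        · exact a5 s hs v h1 h h3
      · intro u hu v hv hadj e
        by_contra h
        exact a6 u hu v hv h hadj (by rw [← b2 u hu v hv h hadj, ← b1 u hu, e])
    · obtain ⟨P, Q, Z, z1, z2, z3, z4, ⟨A, A1, A2, A3⟩, ⟨B, B1, B2, B3⟩⟩ :=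
        hs Y (w + 1) (by omega) (by omega)
      have side : ∀ (P : Set V) (A : Finset V), A ⊆ Y → w + 1 ≤ A.card → (∀ v ∈ A, v ∉ P) →
          Concl G (X.filter (· ∈ P)) ((Y ∪ (Z ∩ X)).filter (· ∈ P)) (S.filter (· ∈ P)) φ
            (η * 2 ^ (Y.card - 1)) (η * 2 ^ η) := by
        intro P A A1 A2 A3
        have c1 := side_card X Y Z A P w z1 A1 A2 A3
        have c2 : (X.filter (· ∈ P) \ (Y ∪ (Z ∩ X)).filter (· ∈ P)).card ≤ (X \ Y).card := by
          apply card_le_card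
          intro v hv
          obtain ⟨h1, h2⟩ := mem_sdiff.1 hv
          obtain ⟨h3, h4⟩ := mem_filter.1 h1
          exact mem_sdiff.2 ⟨h3, fun h => h2 (mem_filter.2 ⟨mem_union_left _ h, h4⟩)⟩
        refine (ih _ ?_ _ _ _ φ rfl ?_ ?_ (by omega) ?_).mono G ?_
        · rw [← hn]
          have := Nat.mul_le_mul_right (η + 1) c2
          omega
        · exact filter_subset_filter _ (hS.trans subset_union_left)
        · exact filter_subset_filter _ (union_subset hY inter_subset_right)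
        · intro s hs v h1 h2 h3
          obtain ⟨h4, h5⟩ := mem_filter.1 h1
          exact hI s (mem_filter.1 hs).1 v h4
            (fun h => h2 (mem_filter.2 ⟨mem_union_left _ h, h5⟩)) h3
        · exact Nat.mul_le_mul_left _ (Nat.pow_le_pow_right (by norm_num) (by omega))
      have e : η * 2 ^ Y.card = 2 * (η * 2 ^ (Y.card - 1)) := by
        obtain ⟨m, hm⟩ : ∃ m, Y.card = m + 1 := ⟨Y.card - 1, by omega⟩
        rw [hm, Nat.add_sub_cancel, pow_succ]; ring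
      rw [e]
      refine merge G X Y S φ hS hY P Q Z z2 z3 z4 _ _ ?_ (side P A A1 A2 A3) (side Q B B1 B2 B3)
      rw [← e]
      exact Nat.mul_le_mul_left _ (Nat.pow_le_pow_right (by norm_num) hc)

theorem clustered (w : ℕ) : ∃ c : ℕ, ∀ (V : Type) [Fintype V] (G : SimpleGraph V),
    (7 : ℕ∞) ≤ G.egirth → HasSep G w →
    ∃ f : V → Fin 2, ∀ s : Finset V, (∀ x ∈ s, ∀ y ∈ s, f x = f y) →
      (G.induce (s : Set V)).Connected → s.card ≤ c := by
  refine ⟨hh (hh (5 * w + 3)) * 2 ^ hh (hh (5 * w + 3)), fun V _ G hg hs => ?_⟩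
  obtain ⟨f, -, -, -, h⟩ := main G (gir_of G hg) w hs _ le_rfl _ univ ∅ ∅ (fun _ => true) rfl
    subset_rfl (empty_subset _) (by simp) (by simp [Inv])
  refine ⟨fun v => if f v then 1 else 0, fun s h1 h2 => ?_⟩
  obtain ⟨⟨v, hv⟩⟩ := h2.nonempty
  obtain ⟨U, u1, u2, u3⟩ := h v (mem_univ _)
  refine le_trans (card_le_card fun x hx => ?_) u2
  obtain ⟨p⟩ := h2 ⟨v, hv⟩ ⟨x, hx⟩
  have : ∀ (a b : (s : Set V)) (p : (G.induce (s : Set V)).Walk a b), a.1 ∈ U → b.1 ∈ U := by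
    intro a b p
    induction p with
    | nil => exact id
    | @cons a b d hab p ih =>
      intro ha
      apply ih
      refine u3 a.1 ha b.1 (mem_univ _) hab ?_
      have := h1 a.1 a.2 b.1 b.2
      beta_reduce at this
      revert this
      cases f a.1 <;> cases f b.1 <;> simp
  exact this _ _ p u1

end Pool.Agent.H20.Cluster
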