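import Pool.Agent.H20.Plane

namespace Pool.Agent.H20.Cube
open Pool.Agent.H20 Pool.Agent.H20.Plane

def mask : Fin 13 → ℕ := ![530, 1029, 3082, 6164, 4617, 1856, 3232, 6464, 4768, 305, 102, 204, 408]

def adjB (u v : Fin 13) : Bool := (mask u).testBit v

def G : SimpleGraph (Fin 13) where
  Adj u v := adjB u v = true
  symm := ⟨by decide⟩
  loopless := ⟨by decide⟩

instance : DecidableRel G.Adj := fun u v => inferInstanceAs (Decidable (adjB u v = true))

def E : Fin 9 → Finset (Fin 13) :=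
  ![{0, 4, 9}, {1, 2, 10}, {2, 3, 11}, {3, 4, 12}, {5, 8, 9}, {5, 6, 10}, {6, 7, 11},
    {7, 8, 12}, {0, 1}]

def X : Fin 13 ⊕ Fin 9 → ℤ :=
  Sum.elim ![3, 9, 12, 6, 0, 6, 8, 6, 4, 2, 10, 10, 2] ![0, 12, 12, 0, 4, 8, 8, 4, 6]
def Y : Fin 13 ⊕ Fin 9 → ℤ :=
  Sum.elim ![-1, -1, 6, 12, 6, 4, 6, 8, 6, 2, 2, 10, 10] ![0, 0, 12, 12, 4, 4, 8, 8, -2]

def inc : Fin 13 ⊕ Fin 9 → Fin 13 ⊕ Fin 9 → Bool
  | Sum.inl v, Sum.inr i => decide (v ∈ E i)
  | Sum.inr i, Sum.inl v => decide (v ∈ E i)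
  | _, _ => false

theorem inc_of (a b : Fin 13 ⊕ Fin 9) (h : (incidenceGraph E).Adj a b) : inc a b = true := by
  simp only [incidenceGraph, SimpleGraph.fromRel_adj] at h
  rcases h.2 with ⟨v, i, rfl, rfl, h⟩ | ⟨v, i, rfl, rfl, h⟩ <;> simpa [inc] using h

theorem chk0 : ∀ u v, X u = X v → Y u = Y v → u = v := by decide +kernel

theorem chk1 : ∀ u v, inc u v = true → ∀ w,
    nosol (X v - X u) (Y v - Y u) 0 0 (X w - X u) (Y w - Y u) = true := by decide +kernel

theorem chk2 : ∀ u v, inc u v = true → ∀ u' v', inc u' v' = true →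
      ¬ ((u = u' ∧ v = v') ∨ (u = v' ∧ v = u')) →
      nosol (X v - X u) (Y v - Y u) (X u' - X v') (Y u' - Y v') (X u' - X u) (Y u' - Y u)
        = true := by decide +kernel

theorem planar : IsPlanar (incidenceGraph E) :=
  planar_of_coords _ X Y chk0 (fun u v w h => chk1 u v (inc_of u v h) w)
    (fun u v h u' v' h' => chk2 u v (inc_of u v h) u' v' (inc_of u' v' h'))

theorem cnt : ∀ u v : Fin 13, u ≠ v →
    (Finset.univ.filter fun i => u ∈ E i ∧ v ∈ E i).card = if adjB u v = true then 1 else 0 := by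
  decide +kernel

theorem adjIs : AdjacencyIs E G := by
  intro u v huv
  have h : {i | u ∈ E i ∧ v ∈ E i}.ncard
      = (Finset.univ.filter fun i => u ∈ E i ∧ v ∈ E i).card := by
    rw [← Set.ncard_coe_finset]
    congr 1
    ext i
    simp
  rw [h, cnt u v huv]
  constructor
  · intro h1
    exact if_pos h1
  · intro h1
    exact if_neg h1

theorem rg0 : ReducedGenusZero G := ⟨9, E, adjIs, planar⟩

theorem diamond : ∀ u v : Fin 13, adjB u v = true → ∀ x, adjB u x = true → adjB v x = true →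
    ∀ y, adjB u y = true → adjB v y = true → x = y := by decide +kernel

theorem cp : CliquePartitioned G := by
  intro A B hA hB hne u hu v hv
  by_contra huv
  have hadj : G.Adj u v := hA.prop hu.1 hv.1 huv
  have key : ∀ A B : Set (Fin 13), Maximal G.IsClique A → G.IsClique B → u ∈ A → v ∈ A →
      u ∈ B → v ∈ B → B ⊆ A := by
    intro A B hA hB uA vA uB vB y hy
    have : G.IsClique (insert y A) := by
      refine hA.prop.insert ?_
      intro x hx hne
      by_cases h1 : y = u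
      · subst h1; exact hA.prop uA hx hne
      by_cases h2 : y = v
      · subst h2; exact hA.prop vA hx hne
      by_cases h3 : x = u
      · subst h3; exact hB hy uB h1
      by_cases h4 : x = v
      · subst h4; exact hB hy vB h2
      exact absurd (diamond u v hadj y (hB uB hy (Ne.symm h1)) (hB vB hy (Ne.symm h2)) x
        (hA.prop uA hx (Ne.symm h3)) (hA.prop vA hx (Ne.symm h4))) hne
    exact hA.le_of_ge this (Set.subset_insert y A) (Set.mem_insert y A)
  exact hne (Set.Subset.antisymm (key B A hB hA.prop hu.2 hv.2 hu.1 hv.1)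
    (key A B hA hB.prop hu.1 hv.1 hu.2 hv.2))

theorem noK4 : ∀ a b : Fin 13, adjB a b = true → ∀ c, adjB a c = true → adjB b c = true →
    ∀ d, adjB a d = true → adjB b d = true → adjB c d = false := by decide +kernel

theorem omega3 : G.cliqueNum = 3 := by
  apply le_antisymm
  · obtain ⟨s, hs⟩ := G.exists_isNClique_cliqueNum
    by_contra hlt
    have h3 : 3 < s.card := by rw [hs.card_eq]; omega
    obtain ⟨a, b, c, d, ha, hb, hc, hd, hab, hac, had, hbc, hbd, hcd⟩ :=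
      Finset.three_lt_card_iff.mp h3
    have := noK4 a b (hs.isClique ha hb hab) c (hs.isClique ha hc hac) (hs.isClique hb hc hbc) d
      (hs.isClique ha hd had) (hs.isClique hb hd hbd)
    have h2 : adjB c d = true := hs.isClique hc hd hcd
    rw [h2] at this
    exact absurd this (by decide)
  · have h : G.IsNClique 3 ({0, 4, 9} : Finset (Fin 13)) := by decide
    exact h.card_eq ▸ h.isClique.card_le_cliqueNum

set_option synthInstance.maxSize 2000 in
theorem no3aux : ∀ a0 : Fin 3, ∀ a1 : Fin 3, a0 ≠ a1 → ∀ a2 : Fin 3, a1 ≠ a2 → ∀ a3 : Fin 3, a2 ≠ a3 → ∀ a4 : Fin 3, a0 ≠ a4 → a3 ≠ a4 → ∀ a5 : Fin 3, ∀ a6 : Fin 3, a5 ≠ a6 → ∀ a7 : Fin 3, a6 ≠ a7 → ∀ a8 : Fin 3, a5 ≠ a8 → a7 ≠ a8 → ∀ a9 : Fin 3, a0 ≠ a9 → a4 ≠ a9 → a5 ≠ a9 → a8 ≠ a9 → ∀ a10 : Fin 3, a1 ≠ a10 → a2 ≠ a10 → a5 ≠ a10 → a6 ≠ a10 → ∀ a11 : Fin 3, a2 ≠ a11 → a3 ≠ a11 → a6 ≠ a11 → a7 ≠ a11 → ∀ a12 : Fin 3, a3 ≠ a12 → a4 ≠ a12 → a7 ≠ a12 → a8 ≠ a12 → False := by decide +kernel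

theorem no3 : ¬ G.Colorable 3 := by
  rintro ⟨c⟩
  have e : ∀ u v, adjB u v = true → c u ≠ c v := fun u v h => c.valid h
  exact no3aux (c 0) (c 1) (e _ _ (by decide)) (c 2) (e _ _ (by decide)) (c 3) (e _ _ (by decide)) (c 4) (e _ _ (by decide)) (e _ _ (by decide)) (c 5) (c 6) (e _ _ (by decide)) (c 7) (e _ _ (by decide)) (c 8) (e _ _ (by decide)) (e _ _ (by decide)) (c 9) (e _ _ (by decide)) (e _ _ (by decide)) (e _ _ (by decide)) (e _ _ (by decide)) (c 10) (e _ _ (by decide)) (e _ _ (by decide)) (e _ _ (by decide)) (e _ _ (by decide)) (c 11) (e _ _ (by decide)) (e _ _ (by decide)) (e _ _ (by decide)) (e _ _ (by decide)) (c 12) (e _ _ (by decide)) (e _ _ (by decide)) (e _ _ (by decide)) (e _ _ (by decide))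

def col : Fin 13 → Fin 4 := ![0, 1, 0, 1, 2, 0, 1, 0, 1, 3, 2, 2, 3]

theorem col4 : G.Colorable 4 := ⟨SimpleGraph.Coloring.mk col (by
  have : ∀ u v : Fin 13, adjB u v = true → col u ≠ col v := by decide +kernel
  intro u v h; exact this u v h)⟩

theorem chi4 : G.chromaticNumber = 4 := by
  apply le_antisymm
  · exact col4.chromaticNumber_le
  · by_contra h
    have h' : G.chromaticNumber ≤ 3 := by
      have : G.chromaticNumber < 3 + 1 := by
        have h4 : (3 + 1 : ℕ∞) = 4 := by norm_num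
        rw [h4]
        exact not_le.mp h
      exact Order.le_of_lt_add_one this
    exact no3 (SimpleGraph.chromaticNumber_le_iff_colorable.mp h')

end Pool.Agent.H20.Cube
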