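import Mathlib

namespace Pool.Agent.H20.Lag

open Finset Equiv

theorem perm_lll {α ι : Type} [Fintype α] [DecidableEq α] [DecidableEq ι] (E : Finset ι)
    (p q a b : ι → α) (C : ι → ι → Prop) [∀ e, DecidablePred (C e)] (d : ℕ)
    (hab : ∀ e ∈ E, a e ≠ b e)
    (hC : ∀ e ∈ E, ∀ s ∈ E, ¬ C e s → (p s ≠ p e ∧ p s ≠ q e ∧ q s ≠ p e ∧ q s ≠ q e) ∧
      a s ≠ a e ∧ a s ≠ b e ∧ b s ≠ a e ∧ b s ≠ b e)
    (hd : ∀ e ∈ E, (E.filter (C e)).card ≤ d)
    (hm : 4 * d + 3 ≤ (Fintype.card α - 2) * (Fintype.card α - 3)) :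
    ∃ σ : Perm α, ∀ e ∈ E, ¬ (σ (p e) = a e ∧ σ (q e) = b e) := by
  classical
  obtain ⟨m, hme⟩ : ∃ m, m = (Fintype.card α - 2) * (Fintype.card α - 3) := ⟨_, rfl⟩
  rw [← hme] at hm
  obtain ⟨A, hA⟩ : ∃ A : ι → Finset (Perm α),
      ∀ e σ, σ ∈ A e ↔ σ (p e) = a e ∧ σ (q e) = b e :=
    ⟨fun e => univ.filter fun σ => σ (p e) = a e ∧ σ (q e) = b e, by simp⟩
  obtain ⟨N, hN⟩ : ∃ N : Finset ι → Finset (Perm α), ∀ S σ, σ ∈ N S ↔ ∀ s ∈ S, σ ∉ A s :=
    ⟨fun S => univ.filter fun σ => ∀ s ∈ S, σ ∉ A s, by simp⟩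
  have lop : ∀ e ∈ E, ∀ S ⊆ E, (∀ s ∈ S, ¬ C e s) → m * (A e ∩ N S).card ≤ (N S).card := by
    intro e he S hS hc
    have hT : ((univ \ {a e, b e}).offDiag).card = m := by
      rw [offDiag_card, card_univ_diff, card_pair (hab e he), hme]
      obtain ⟨n, hn⟩ : ∃ n, n = Fintype.card α - 2 := ⟨_, rfl⟩
      rw [show Fintype.card α - 3 = n - 1 by omega, ← hn, Nat.mul_sub_one]
    rw [← hT, ← card_product]
    have key : ∀ (z : α × α) (σ : Perm α), z ∈ (univ \ {a e, b e}).offDiag → σ ∈ A e →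
        (swap (a e) z.1 * swap (b e) z.2 * σ) (p e) = z.1 ∧
        (swap (a e) z.1 * swap (b e) z.2 * σ) (q e) = z.2 := by
      intro z σ hz hσ
      simp only [mem_offDiag, mem_sdiff, mem_univ, mem_insert, mem_singleton, true_and,
        not_or] at hz
      obtain ⟨⟨z1, z2⟩, ⟨z3, z4⟩, z5⟩ := hz
      obtain ⟨h1, h2⟩ := (hA e σ).1 hσ
      simp only [Perm.mul_apply, h1, h2, swap_apply_left]
      rw [swap_apply_of_ne_of_ne (hab e he) (Ne.symm z3), swap_apply_left,
        swap_apply_of_ne_of_ne z3 (Ne.symm z5)]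
      exact ⟨rfl, rfl⟩
    refine card_le_card_of_injOn (fun z => swap (a e) z.1.1 * swap (b e) z.1.2 * z.2) ?_ ?_
    · rintro ⟨z, σ⟩ hz
      simp only [coe_product, Set.mem_prod, mem_coe, mem_inter] at hz ⊢
      obtain ⟨hz, hσ, hσ'⟩ := hz
      obtain ⟨h1, h2⟩ := (hA e σ).1 hσ
      refine (hN _ _).2 fun s hs hh => (hN _ _).1 hσ' s hs ?_
      obtain ⟨⟨c1, c2, c3, c4⟩, c5, c6, c7, c8⟩ := hC e he s (hS hs) (hc s hs)
      have fix : ∀ x y : α, x ≠ p e → x ≠ q e → y ≠ a e → y ≠ b e →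
          (swap (a e) z.1 * swap (b e) z.2 * σ) x = y → σ x = y := by
        intro x y x1 x2 y1 y2 h
        have n1 : σ x ≠ a e := fun h => x1 (σ.injective (h.trans h1.symm))
        have n2 : σ x ≠ b e := fun h => x2 (σ.injective (h.trans h2.symm))
        simp only [mem_offDiag, mem_sdiff, mem_univ, mem_insert, mem_singleton, true_and,
          not_or] at hz
        obtain ⟨⟨z1, z2⟩, ⟨z3, z4⟩, z5⟩ := hz
        simp only [Perm.mul_apply] at h
        by_cases k2 : σ x = z.2
        · rw [k2, swap_apply_right, swap_apply_of_ne_of_ne (hab e he).symm (Ne.symm z2)] at h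
          exact absurd h.symm y2
        · rw [swap_apply_of_ne_of_ne n2 k2] at h
          by_cases k1 : σ x = z.1
          · rw [k1, swap_apply_right] at h
            exact absurd h.symm y1
          · rwa [swap_apply_of_ne_of_ne n1 k1] at h
      obtain ⟨g1, g2⟩ := (hA _ _).1 hh
      exact (hA _ _).2 ⟨fix _ _ c1 c2 c5 c6 g1, fix _ _ c3 c4 c7 c8 g2⟩
    · rintro ⟨z, σ⟩ hz ⟨z', σ'⟩ hz' h
      simp only [coe_product, Set.mem_prod, mem_coe, mem_inter] at hz hz' h
      obtain ⟨k1, k2⟩ := key z σ hz.1 hz.2.1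
      obtain ⟨k3, k4⟩ := key z' σ' hz'.1 hz'.2.1
      rw [h] at k1 k2
      have : z = z' := Prod.ext (k1.symm.trans k3) (k2.symm.trans k4)
      subst this
      rw [mul_left_cancel h]
  have cover : ∀ S T : Finset ι, N S ⊆ N (S ∪ T) ∪ T.biUnion fun s => A s ∩ N S := by
    intro S T σ hσ
    by_cases h : ∃ s ∈ T, σ ∈ A s
    · obtain ⟨s, hs, h⟩ := h
      exact mem_union_right _ (mem_biUnion.2 ⟨s, hs, mem_inter.2 ⟨h, hσ⟩⟩)
    · push Not at h
      exact mem_union_left _ ((hN _ _).2 fun s hs => (mem_union.1 hs).elim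
        ((hN _ _).1 hσ s) (h s))
  have main : ∀ (n : ℕ) (S : Finset ι), S.card = n → S ⊆ E → ∀ e ∈ E,
      m * (A e ∩ N S).card ≤ 2 * (N S).card := by
    intro n
    induction n using Nat.strong_induction_on with
    | _ n ih =>
    intro S hn hS e he
    by_cases h0 : ∀ s ∈ S, ¬ C e s
    · have := lop e he S hS h0
      omega
    have hlt : (S.filter fun s => ¬ C e s).card < n := by
      rw [← hn]
      exact card_lt_card (filter_ssubset.2 (by simpa using h0))
    have hsub : (S.filter fun s => ¬ C e s) ⊆ E := (filter_subset _ _).trans hS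
    have h1 := lop e he _ hsub fun s hs => (mem_filter.1 hs).2
    have h2 : (A e ∩ N S).card ≤ (A e ∩ N (S.filter fun s => ¬ C e s)).card :=
      card_le_card (inter_subset_inter_left fun σ hσ =>
        (hN _ _).2 fun s hs => (hN _ _).1 hσ s (mem_filter.1 hs).1)
    have h3 := card_le_card (cover (S.filter fun s => ¬ C e s) (S.filter (C e)))
    rw [union_comm (S.filter _), filter_union_filter_not_eq] at h3
    have h4 := h3.trans ((card_union_le _ _).trans (Nat.add_le_add_left card_biUnion_le _))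
    have h5 : m * ∑ s ∈ S.filter (C e), (A s ∩ N (S.filter fun s => ¬ C e s)).card ≤
        d * (2 * (N (S.filter fun s => ¬ C e s)).card) := by
      rw [mul_sum]
      refine (sum_le_card_nsmul _ _ _ fun s hs =>
        ih _ hlt _ rfl hsub s (hS (mem_filter.1 hs).1)).trans ?_
      exact Nat.mul_le_mul_right _ ((card_le_card (filter_subset_filter _ hS)).trans (hd e he))
    generalize (N (S.filter fun s => ¬ C e s)).card = Y at *
    have h6 : Y ≤ 2 * (N S).card := by
      by_contra h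
      have := Nat.mul_le_mul_left m h4
      nlinarith
    exact (Nat.mul_le_mul_left m h2).trans (h1.trans h6)
  have pos : ∀ S : Finset ι, S ⊆ E → 0 < (N S).card := by
    intro S
    induction S using Finset.induction_on with
    | empty => exact fun _ => card_pos.2 ⟨1, (hN _ _).2 (by simp)⟩
    | insert e S _ ih =>
      intro h
      have hS : S ⊆ E := (subset_insert _ _).trans h
      have h1 := main _ S rfl hS e (h (mem_insert_self _ _))
      have h2 := (card_le_card (cover S {e})).trans (card_union_le _ _)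
      rw [singleton_biUnion, union_comm, ← insert_eq] at h2
      have := ih hS
      by_contra h0
      nlinarith
  obtain ⟨σ, hσ⟩ := card_pos.1 (pos E Subset.rfl)
  exact ⟨σ, fun e he h => (hN _ _).1 hσ e he ((hA _ _).2 h)⟩

end Pool.Agent.H20.Lag
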