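import Mathlib

namespace Pool.Agent.H20.Lag

open Finset

variable {V : Type} [Fintype V] [DecidableEq V]

def wt (P : V → Fin 3 → ℝ) (ω : V → Fin 3) : ℝ := ∏ v, P v (ω v)

def Ex (P : V → Fin 3 → ℝ) (f : (V → Fin 3) → ℝ) : ℝ := ∑ ω, wt P ω * f ω

def cs (t : Finset (Fin 3)) (ω : V → Fin 3) : Finset V := univ.filter fun v => ω v ∈ t

def pr (P : V → Fin 3 → ℝ) (t : Finset (Fin 3)) (v : V) : ℝ := ∑ i ∈ t, P v i

open Classical in
noncomputable def ind (B : Prop) : ℝ := if B then 1 else 0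

def IsP (P : V → Fin 3 → ℝ) : Prop := (∀ v i, 0 ≤ P v i) ∧ ∀ v, ∑ i, P v i = 1

theorem ind_nonneg (B : Prop) : 0 ≤ ind B := by unfold ind; split_ifs <;> norm_num

theorem ind_le (B : Prop) : ind B ≤ 1 := by unfold ind; split_ifs <;> norm_num

theorem ind_pos {B : Prop} (h : B) : ind B = 1 := by simp [ind, h]

theorem ind_neg {B : Prop} (h : ¬ B) : ind B = 0 := by simp [ind, h]

variable {P : V → Fin 3 → ℝ}

theorem wt_nonneg (hP : IsP P) (ω : V → Fin 3) : 0 ≤ wt P ω := prod_nonneg fun v _ => hP.1 v _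

theorem Ex_mono (hP : IsP P) {f g : (V → Fin 3) → ℝ} (h : ∀ ω, f ω ≤ g ω) : Ex P f ≤ Ex P g :=
  sum_le_sum fun ω _ => mul_le_mul_of_nonneg_left (h ω) (wt_nonneg hP ω)

theorem Ex_add (f g : (V → Fin 3) → ℝ) : Ex P (fun ω => f ω + g ω) = Ex P f + Ex P g := by
  simp only [Ex, mul_add, sum_add_distrib]

theorem Ex_sub (f g : (V → Fin 3) → ℝ) : Ex P (fun ω => f ω - g ω) = Ex P f - Ex P g := by
  simp only [Ex, mul_sub, sum_sub_distrib]

theorem Ex_mul (a : ℝ) (f : (V → Fin 3) → ℝ) : Ex P (fun ω => a * f ω) = a * Ex P f := by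
  simp only [Ex, mul_sum]
  exact sum_congr rfl fun _ _ => by ring

theorem Ex_sum {ι : Type} (I : Finset ι) (f : ι → (V → Fin 3) → ℝ) :
    Ex P (fun ω => ∑ i ∈ I, f i ω) = ∑ i ∈ I, Ex P (f i) := by
  simp only [Ex, mul_sum]
  exact sum_comm

theorem pr_nonneg (hP : IsP P) (t : Finset (Fin 3)) (v : V) : 0 ≤ pr P t v :=
  sum_nonneg fun i _ => hP.1 v i

theorem pr_le (hP : IsP P) (t : Finset (Fin 3)) (v : V) : pr P t v ≤ 1 :=
  hP.2 v ▸ sum_le_sum_of_subset_of_nonneg (subset_univ _) fun i _ _ => hP.1 v i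

theorem Ex_ind (hP : IsP P) (t : Finset (Fin 3)) (e : Finset V) :
    Ex P (fun ω => ind (e ⊆ cs t ω)) = ∏ v ∈ e, pr P t v := by
  have h := prod_univ_sum (fun _ : V => (univ : Finset (Fin 3)))
    (fun v i => P v i * if v ∈ e then (if i ∈ t then 1 else 0) else 1)
  rw [Fintype.piFinset_univ] at h
  have e1 : ∏ v ∈ e, pr P t v =
      ∏ v, ∑ i, P v i * if v ∈ e then (if i ∈ t then 1 else 0) else 1 := by
    rw [← prod_filter_mul_prod_filter_not univ (fun v => v ∈ e)]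
    have : ∏ v ∈ univ.filter (fun v => ¬ v ∈ e),
        ∑ i, P v i * (if v ∈ e then (if i ∈ t then 1 else 0) else 1) = 1 :=
      prod_eq_one fun v hv => by simp [(mem_filter.1 hv).2, hP.2 v]
    rw [this, mul_one, filter_mem_eq_inter, univ_inter]
    refine prod_congr rfl fun v hv => ?_
    simp [hv, pr]
  rw [e1, h]
  refine sum_congr rfl fun ω _ => ?_
  rw [prod_mul_distrib]
  congr 1
  beta_reduce
  by_cases hω : e ⊆ cs t ω
  · rw [ind_pos hω]
    refine (prod_eq_one fun v _ => ?_).symm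
    split_ifs with h1 h2
    · rfl
    · exact absurd (mem_filter.1 (hω h1)).2 h2
    · rfl
  · rw [ind_neg hω]
    obtain ⟨v, h1, h2⟩ := not_subset.1 hω
    refine (prod_eq_zero (mem_univ v) ?_).symm
    have : ω v ∉ t := fun h => h2 (mem_filter.2 ⟨mem_univ _, h⟩)
    simp [h1, this]

theorem Ex_const (hP : IsP P) (a : ℝ) : Ex P (fun _ => a) = a := by
  have := Ex_ind hP ∅ ∅
  simp only [empty_subset, prod_empty, ind_pos] at this
  have h := Ex_mul (P := P) a fun _ => 1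
  simp only [mul_one] at h
  rw [h, this, mul_one]

noncomputable def Zf {ι : Type} (I : Finset ι) (e : ι → Finset V) (w : ι → ℝ) (A : Finset V) : ℝ :=
  ∑ i ∈ I, w i * ind (e i ⊆ A)

def mu (P : V → Fin 3 → ℝ) (t : Finset (Fin 3)) {ι : Type} (I : Finset ι) (e : ι → Finset V)
    (w : ι → ℝ) : ℝ := ∑ i ∈ I, w i * ∏ v ∈ e i, pr P t v

theorem Ex_Zf (hP : IsP P) (t : Finset (Fin 3)) {ι : Type} (I : Finset ι) (e : ι → Finset V)
    (w : ι → ℝ) : Ex P (fun ω => Zf I e w (cs t ω)) = mu P t I e w := by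
  unfold Zf mu
  rw [Ex_sum]
  exact sum_congr rfl fun i _ => by rw [Ex_mul, Ex_ind hP]

theorem one_sub_prod (s : Finset V) (f : V → ℝ) (h0 : ∀ v, 0 ≤ f v) (h1 : ∀ v, f v ≤ 1) :
    1 - ∏ v ∈ s, f v ≤ ∑ v ∈ s, (1 - f v) := by
  induction s using Finset.induction_on with
  | empty => simp
  | insert a s ha ih =>
    rw [prod_insert ha, sum_insert ha]
    have : ∏ v ∈ s, f v ≤ 1 := prod_le_one (fun v _ => h0 v) fun v _ => h1 v
    nlinarith [h0 a, h1 a]

theorem var_Zf (hP : IsP P) (t : Finset (Fin 3)) {ι : Type} (I : Finset ι) (e : ι → Finset V)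
    (w : ι → ℝ) (hw : ∀ i ∈ I, 0 ≤ w i) :
    Ex P (fun ω => (Zf I e w (cs t ω) - mu P t I e w) ^ 2) ≤
      ∑ v, (1 - pr P t v) * (∑ i ∈ I.filter (fun i => v ∈ e i), w i) ^ 2 := by
  have e1 : ∀ ω, (Zf I e w (cs t ω) - mu P t I e w) ^ 2 =
      (∑ i ∈ I, ∑ j ∈ I, w i * w j * ind (e i ∪ e j ⊆ cs t ω)) -
        2 * mu P t I e w * Zf I e w (cs t ω) + mu P t I e w ^ 2 := by
    intro ω
    have : Zf I e w (cs t ω) ^ 2 = ∑ i ∈ I, ∑ j ∈ I, w i * w j * ind (e i ∪ e j ⊆ cs t ω) := by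
      rw [sq, Zf, sum_mul_sum]
      refine sum_congr rfl fun i _ => sum_congr rfl fun j _ => ?_
      by_cases h1 : e i ⊆ cs t ω
      · by_cases h2 : e j ⊆ cs t ω
        · rw [ind_pos h1, ind_pos h2, ind_pos (union_subset h1 h2)]; ring
        · rw [ind_neg h2, ind_neg fun h => h2 (union_subset_right h)]; ring
      · rw [ind_neg h1, ind_neg fun h => h1 (union_subset_left h)]; ring
    rw [← this]; ring
  simp only [e1]
  rw [Ex_add, Ex_sub, Ex_mul, Ex_Zf hP, Ex_const hP, Ex_sum]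
  simp only [Ex_sum, Ex_mul, Ex_ind hP]
  have e2 : mu P t I e w ^ 2 = ∑ i ∈ I, ∑ j ∈ I,
      w i * w j * ((∏ v ∈ e i, pr P t v) * ∏ v ∈ e j, pr P t v) := by
    rw [sq, mu, sum_mul_sum]
    exact sum_congr rfl fun i _ => sum_congr rfl fun j _ => by ring
  have e3 : ∑ v, (1 - pr P t v) * (∑ i ∈ I.filter (fun i => v ∈ e i), w i) ^ 2 =
      ∑ i ∈ I, ∑ j ∈ I, w i * w j * ∑ v ∈ e i ∩ e j, (1 - pr P t v) := by
    simp only [sq, sum_filter]
    simp only [sum_mul_sum]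
    simp only [mul_sum]
    rw [sum_comm]
    refine sum_congr rfl fun i _ => ?_
    rw [sum_comm]
    refine sum_congr rfl fun j _ => ?_
    rw [← sum_filter_add_sum_filter_not univ (fun v => v ∈ e i ∩ e j), filter_mem_eq_inter,
      univ_inter, sum_eq_zero (s := univ.filter fun v => ¬ v ∈ e i ∩ e j), add_zero]
    · refine sum_congr rfl fun v hv => ?_
      simp only [mem_inter] at hv
      simp only [hv.1, hv.2, if_true]
      ring
    · intro v hv
      have := (mem_filter.1 hv).2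
      by_cases h1 : v ∈ e i
      · have h2 : v ∉ e j := fun h => this (mem_inter.2 ⟨h1, h⟩)
        simp [h2]
      · simp [h1]
  have e4 : ∀ x y z : ℝ, y = z → x - 2 * mu P t I e w * mu P t I e w + mu P t I e w ^ 2 =
      x - mu P t I e w ^ 2 := fun x y z _ => by ring
  rw [e4 _ 0 0 rfl, e2, e3, ← sum_sub_distrib]
  refine sum_le_sum fun i hi => ?_
  rw [← sum_sub_distrib]
  refine sum_le_sum fun j hj => ?_
  rw [← mul_sub]
  refine mul_le_mul_of_nonneg_left ?_ (mul_nonneg (hw i hi) (hw j hj))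
  rw [← prod_union_inter]
  have a1 := one_sub_prod (e i ∩ e j) (pr P t) (pr_nonneg hP t) (pr_le hP t)
  have a2 : ∏ v ∈ e i ∪ e j, pr P t v ≤ 1 :=
    prod_le_one (fun v _ => pr_nonneg hP t v) fun v _ => pr_le hP t v
  have a3 : ∏ v ∈ e i ∩ e j, pr P t v ≤ 1 :=
    prod_le_one (fun v _ => pr_nonneg hP t v) fun v _ => pr_le hP t v
  nlinarith

theorem cheb (hP : IsP P) (f : (V → Fin 3) → ℝ) (B : (V → Fin 3) → Prop) {d z : ℝ} (hd : 0 < d)
    (hB : ∀ ω, B ω → d ≤ |f ω|) (hz : Ex P (fun ω => f ω ^ 2) ≤ z * d ^ 2) :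
    Ex P (fun ω => ind (B ω)) ≤ z := by
  have : Ex P (fun ω => d ^ 2 * ind (B ω)) ≤ Ex P (fun ω => f ω ^ 2) := Ex_mono hP fun ω => by
    by_cases h : B ω
    · rw [ind_pos h, mul_one, ← sq_abs (f ω)]
      exact pow_le_pow_left₀ hd.le (hB ω h) 2
    · rw [ind_neg h, mul_zero]; exact sq_nonneg _
  rw [Ex_mul] at this
  exact le_of_mul_le_mul_left (by linarith) (pow_pos hd 2)

theorem markov (hP : IsP P) (f : (V → Fin 3) → ℝ) (B : (V → Fin 3) → Prop) {d z : ℝ} (hd : 0 < d)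
    (hf : ∀ ω, 0 ≤ f ω) (hB : ∀ ω, B ω → d ≤ f ω) (hz : Ex P f ≤ z * d) :
    Ex P (fun ω => ind (B ω)) ≤ z := by
  have : Ex P (fun ω => d * ind (B ω)) ≤ Ex P f := Ex_mono hP fun ω => by
    by_cases h : B ω
    · rw [ind_pos h, mul_one]; exact hB ω h
    · rw [ind_neg h, mul_zero]; exact hf ω
  rw [Ex_mul] at this
  exact le_of_mul_le_mul_left (by linarith) hd

def PD (b : Fin 3 → ℝ) (D : Finset V) (v : V) (i : Fin 3) : ℝ :=
  if v ∈ D then (if i = 0 then 1 else 0) else b i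

theorem PD_isP {b : Fin 3 → ℝ} (h0 : ∀ i, 0 ≤ b i) (h1 : ∑ i, b i = 1) (D : Finset V) :
    IsP (PD b D) := by
  refine ⟨fun v i => ?_, fun v => ?_⟩
  · unfold PD; split_ifs <;> first | exact h0 i | norm_num
  · unfold PD; split_ifs
    · simp
    · exact h1

theorem Ex_force (b : Fin 3 → ℝ) (v : V) (f : (V → Fin 3) → ℝ) :
    Ex (PD b ∅) (fun ω => ind (ω v = 0) * f ω) = b 0 * Ex (PD b {v}) f := by
  unfold Ex
  rw [mul_sum]
  refine sum_congr rfl fun ω _ => ?_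
  unfold wt
  rw [← mul_prod_erase _ _ (mem_univ v), ← mul_prod_erase _ _ (mem_univ v)]
  have : ∏ u ∈ univ.erase v, PD b {v} u (ω u) = ∏ u ∈ univ.erase v, PD b ∅ u (ω u) :=
    prod_congr rfl fun u hu => by simp [PD, (mem_erase.1 hu).1]
  rw [this]
  by_cases h : ω v = 0
  · simp [PD, h, ind_pos]; ring
  · simp [PD, h, ind_neg]

end Pool.Agent.H20.Lag
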