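import Pool.Agent.H20.Cyc1
import Pool.Agent.H20.Lag2

namespace Pool.Agent.H20.Lag

open Finset Equiv

theorem lll_cyc {t : ℕ} [NeZero t] (ht : 10000 ≤ t) (S : ZMod t → ZMod t → ZMod t → Prop)
    [∀ i a b, Decidable (S i a b)] (hs : ∀ i a b, S i a b → S i b a)
    (h1 : ∀ j, (univ.filter fun z : ZMod t × ZMod t => ¬ S j z.1 z.2).card ≤ 200 * t)
    (h2 : ∀ c, 100 * (univ.filter fun z : ZMod t × ZMod t => ¬ S z.1 c z.2).card ≤ t ^ 2) :
    ∃ σ : Perm (ZMod t), ∀ i, S i (σ i) (σ (i + 1)) := by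
  haveI : Fact (1 < t) := ⟨by omega⟩
  obtain ⟨E, hE⟩ : ∃ E : Finset (ZMod t × ZMod t × ZMod t),
      ∀ e, e ∈ E ↔ e.2.1 ≠ e.2.2 ∧ ¬ S e.1 e.2.1 e.2.2 :=
    ⟨univ.filter fun e => e.2.1 ≠ e.2.2 ∧ ¬ S e.1 e.2.1 e.2.2, by simp⟩
  have c1 : ∀ j, (E.filter fun s => s.1 = j).card ≤ 200 * t := fun j =>
    le_trans (card_le_card_of_injOn (fun s => s.2) (fun s hs => by
      simp only [coe_filter, Set.mem_ofPred_eq, hE, mem_univ, true_and] at hs ⊢
      exact hs.2 ▸ hs.1.2) fun s hs s' hs' h => by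
      simp only [coe_filter, Set.mem_ofPred_eq] at hs hs'
      exact Prod.ext (hs.2.trans hs'.2.symm) h) (h1 j)
  have c2 : ∀ c, (E.filter fun s => s.2.1 = c).card ≤ t ^ 2 / 100 := fun c =>
    le_trans (card_le_card_of_injOn (t := univ.filter fun z : ZMod t × ZMod t => ¬ S z.1 c z.2)
      (fun s => (s.1, s.2.2)) (fun s hs => by
      simp only [coe_filter, Set.mem_ofPred_eq, hE, mem_univ, true_and] at hs ⊢
      exact hs.2 ▸ hs.1.2) fun s hs s' hs' h => by
      simp only [coe_filter, Set.mem_ofPred_eq, Prod.mk.injEq] at hs hs' h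
      exact Prod.ext h.1 (Prod.ext (hs.2.trans hs'.2.symm) h.2))
      ((Nat.le_div_iff_mul_le (by norm_num)).2 (by rw [mul_comm]; exact h2 c))
  have c3 : ∀ c, (E.filter fun s => s.2.2 = c).card ≤ t ^ 2 / 100 := fun c =>
    le_trans (card_le_card_of_injOn (t := univ.filter fun z : ZMod t × ZMod t => ¬ S z.1 c z.2)
      (fun s => (s.1, s.2.1)) (fun s hs' => by
      simp only [coe_filter, Set.mem_ofPred_eq, hE, mem_univ, true_and] at hs' ⊢
      exact fun h => hs'.1.2 (hs _ _ _ (hs'.2 ▸ h))) fun s hs s' hs' h => by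
      simp only [coe_filter, Set.mem_ofPred_eq, Prod.mk.injEq] at hs hs' h
      exact Prod.ext h.1 (Prod.ext h.2 (hs.2.trans hs'.2.symm)))
      ((Nat.le_div_iff_mul_le (by norm_num)).2 (by rw [mul_comm]; exact h2 c))
  obtain ⟨σ, hσ⟩ := perm_lll E (fun e => e.1) (fun e => e.1 + 1) (fun e => e.2.1) (fun e => e.2.2)
    (fun e s => s.1 = e.1 ∨ s.1 = e.1 + 1 ∨ s.1 = e.1 - 1 ∨ s.2.1 = e.2.1 ∨ s.2.1 = e.2.2 ∨
      s.2.2 = e.2.1 ∨ s.2.2 = e.2.2) (600 * t + 4 * (t ^ 2 / 100)) (fun e he => ((hE e).1 he).1)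
    (fun e _ s _ h => by
      simp only [not_or] at h
      obtain ⟨k1, k2, k3, k4⟩ := h
      exact ⟨⟨k1, k2, fun h => k3 (eq_sub_of_add_eq h), fun h => k1 (add_right_cancel h)⟩, k4⟩)
    (fun e _ => by
      simp only [filter_or]
      have u := fun A B : Finset (ZMod t × ZMod t × ZMod t) => card_union_le A B
      have := c1 e.1
      have := c1 (e.1 + 1)
      have := c1 (e.1 - 1)
      have := c2 e.2.1
      have := c2 e.2.2
      have := c3 e.2.1
      have := c3 e.2.2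
      refine (u _ _).trans ((Nat.add_le_add_left ((u _ _).trans (Nat.add_le_add_left
        ((u _ _).trans (Nat.add_le_add_left ((u _ _).trans (Nat.add_le_add_left ((u _ _).trans
        (Nat.add_le_add_left (u _ _) _)) _)) _)) _)) _).trans ?_)
      omega)
    (by
      rw [ZMod.card]
      obtain ⟨s, rfl⟩ : ∃ s, t = s + 3 := ⟨t - 3, by omega⟩
      have := Nat.div_mul_le_self ((s + 3) ^ 2) 100
      rw [show s + 3 - 2 = s + 1 by omega, Nat.add_sub_cancel]
      nlinarith)
  refine ⟨σ, fun i => by_contra fun h => hσ (i, σ i, σ (i + 1)) ((hE _).2 ⟨fun h => ?_, h⟩)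
    ⟨rfl, rfl⟩⟩
  have : i = i + 1 := σ.injective h
  simp at this

variable {V : Type} [Fintype V] [DecidableEq V]

noncomputable def wp (x : V → ℝ) (P : V → Prop) : ℝ := ∑ a, x a * ind (P a)

omit [DecidableEq V] in
theorem wp_or {x : V → ℝ} (hx : ∀ v, 0 ≤ x v) (P Q : V → Prop) :
    wp x (fun a => P a ∨ Q a) ≤ wp x P + wp x Q := by
  unfold wp
  rw [← sum_add_distrib]
  refine sum_le_sum fun a _ => ?_
  rw [← mul_add]
  refine mul_le_mul_of_nonneg_left ?_ (hx a)
  by_cases h : P a ∨ Q a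
  · rcases h with h | h
    · linarith [ind_pos h, ind_le (P a ∨ Q a), ind_nonneg (Q a)]
    · linarith [ind_pos h, ind_le (P a ∨ Q a), ind_nonneg (P a)]
  · linarith [ind_neg h, ind_nonneg (P a), ind_nonneg (Q a)]

theorem wp_mem (x : V → ℝ) (S : Finset V) : wp x (· ∈ S) = ∑ v ∈ S, x v := by
  unfold wp
  rw [← sum_filter_add_sum_filter_not univ (fun v => v ∈ S), filter_mem_eq_inter, univ_inter,
    sum_eq_zero (s := univ.filter fun v => ¬ v ∈ S), add_zero]
  · exact sum_congr rfl fun v hv => by rw [ind_pos hv, mul_one]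
  · intro v hv
    rw [ind_neg (mem_filter.1 hv).2, mul_zero]

omit [DecidableEq V] in
theorem pick {x : V → ℝ} (hx1 : ∑ v, x v = 1) {P : V → Prop} (h : wp x P < 1) : ∃ a, ¬ P a := by
  by_contra h'
  push Not at h'
  simp only [wp, ind_pos (h' _), mul_one] at h
  linarith

theorem greedy {x : V → ℝ} (hx : ∀ v, 0 ≤ x v) (hx1 : ∑ v, x v = 1) {R : V → V → V → Prop}
    (hs : ∀ z a b, R z a b → R z b a) {t : ℕ} (ht : 10000 ≤ t) {W : Finset V}
    (hW : ∑ v ∈ W, x v ≤ 1 / 10) {w : ℕ → V}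
    (hR : ∀ i < t, ∑ a, x a * wp x (fun b => ¬ R (w i) a b) ≤ 2 / t)
    (hX : ∀ v, x v ≤ 76 / 100 / t) :
    ∃ u : ℕ → V, Set.InjOn u (Set.Iio t) ∧ (∀ i < t, u i ∉ W) ∧
      ∀ i < t, R (w i) (u i) (u ((i + 1) % t)) := by
  have ht' : (10000 : ℝ) ≤ t := by exact_mod_cast ht
  have bad : ∀ i < t, wp x (fun a => ¬ wp x (fun b => ¬ R (w i) a b) ≤ 1 / 20) ≤ 1 / 100 := by
    intro i hi
    have h1 : 1 / 20 * wp x (fun a => ¬ wp x (fun b => ¬ R (w i) a b) ≤ 1 / 20) ≤ 2 / t := by
      refine le_trans ?_ (hR i hi)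
      rw [wp, mul_sum]
      refine sum_le_sum fun a _ => ?_
      rw [mul_left_comm]
      refine mul_le_mul_of_nonneg_left ?_ (hx a)
      by_cases h : wp x (fun b => ¬ R (w i) a b) ≤ 1 / 20
      · rw [ind_neg (not_not.2 h), mul_zero]
        exact sum_nonneg fun b _ => mul_nonneg (hx b) (ind_nonneg _)
      · rw [ind_pos h, mul_one]
        exact (not_le.1 h).le
    have h2 : (2 : ℝ) / t ≤ 2 / 10000 := by gcongr
    linarith
  have main : ∀ i, i < t → ∃ u : ℕ → V, Set.InjOn u (Set.Iic i) ∧ (∀ j ≤ i, u j ∉ W) ∧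
      (∀ j < i, R (w j) (u j) (u (j + 1))) ∧ wp x (fun b => ¬ R (w i) (u i) b) ≤ 1 / 20 ∧
      wp x (fun b => ¬ R (w (t - 1)) (u 0) b) ≤ 1 / 20 ∧ (0 < i → R (w (t - 1)) (u 0) (u i)) := by
    intro i
    induction i with
    | zero =>
      intro h0
      obtain ⟨a, ha⟩ := pick hx1 (((wp_or hx _ _).trans (add_le_add ((wp_mem x W).le.trans hW)
        ((wp_or hx _ _).trans (add_le_add (bad 0 h0) (bad (t - 1) (by omega)))))).trans_lt
        (by norm_num))
      simp only [not_or, not_not] at ha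
      exact ⟨fun _ => a, fun i hi j hj _ => (Nat.le_zero.1 hi).trans (Nat.le_zero.1 hj).symm,
        fun _ _ => ha.1, fun j hj => absurd hj (Nat.not_lt_zero j), ha.2.1, ha.2.2,
        fun h => absurd h (lt_irrefl 0)⟩
    | succ i ih =>
      intro hi
      obtain ⟨u, u1, u2, u3, u4, u5, -⟩ := ih (by omega)
      have hU : ∑ v ∈ (range (i + 1)).image u, x v ≤ 76 / 100 := by
        refine (sum_le_card_nsmul _ _ _ fun v _ => hX v).trans ?_
        have h1 : (((range (i + 1)).image u).card : ℝ) ≤ t := by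
          exact_mod_cast (card_image_le.trans (by rw [card_range]; omega))
        rw [nsmul_eq_mul]
        calc _ ≤ (t : ℝ) * (76 / 100 / t) := by gcongr
          _ = _ := by field_simp
      obtain ⟨a, ha⟩ := pick hx1 (((wp_or hx _ _).trans (add_le_add ((wp_mem x W).le.trans hW)
        ((wp_or hx _ _).trans (add_le_add ((wp_mem x _).le.trans hU) ((wp_or hx _ _).trans
        (add_le_add u4 ((wp_or hx _ _).trans (add_le_add u5 (bad (i + 1) hi))))))))).trans_lt
        (by norm_num))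
      simp only [not_or, not_not, mem_image, mem_range, not_exists, not_and] at ha
      obtain ⟨a1, a2, a3, a4, a5⟩ := ha
      have e1 : ∀ j ≤ i, Function.update u (i + 1) a j = u j := fun j hj =>
        Function.update_of_ne (by omega) _ _
      have e2 : Function.update u (i + 1) a (i + 1) = a := Function.update_self _ _ _
      refine ⟨Function.update u (i + 1) a, fun j hj k hk h => ?_, fun j hj => ?_, fun j hj => ?_,
        by rwa [e2], by rwa [e1 0 (by omega)], fun _ => by rwa [e2, e1 0 (by omega)]⟩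
      · rcases (show j ≤ i ∨ j = i + 1 from by have := Set.mem_Iic.1 hj; omega) with j1 | rfl <;>
        rcases (show k ≤ i ∨ k = i + 1 from by have := Set.mem_Iic.1 hk; omega) with k1 | rfl
        · rw [e1 j j1, e1 k k1] at h
          exact u1 j1 k1 h
        · rw [e1 j j1, e2] at h
          exact absurd h (a2 j (by omega))
        · rw [e1 k k1, e2] at h
          exact absurd h.symm (a2 k (by omega))
        · rfl
      · rcases (show j ≤ i ∨ j = i + 1 by omega) with j1 | rfl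
        · rw [e1 j j1]; exact u2 j j1
        · rwa [e2]
      · rcases (show j < i ∨ j = i by omega) with j1 | rfl
        · rw [e1 j j1.le, e1 (j + 1) j1]; exact u3 j j1
        · rwa [e1 j le_rfl, e2]
  obtain ⟨u, u1, u2, u3, -, -, u6⟩ := main (t - 1) (by omega)
  refine ⟨u, u1.mono fun j hj => Set.mem_Iic.2 (by have := Set.mem_Iio.1 hj; omega),
    fun i hi => u2 i (by omega), fun i hi => ?_⟩
  rcases (show i < t - 1 ∨ i = t - 1 by omega) with h | rfl
  · rw [Nat.mod_eq_of_lt (by omega)]; exact u3 i h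
  · rw [show t - 1 + 1 = t by omega, Nat.mod_self]
    exact hs _ _ _ (u6 (by omega))

end Pool.Agent.H20.Lag
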