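import Pool.Agent.H20.Cyc2

namespace Pool.Agent.H20.Lag

open Finset Equiv

variable {V : Type} [Fintype V] [DecidableEq V]

omit [Fintype V] [DecidableEq V] in
theorem enum {t : ℕ} [NeZero t] {W : Finset V} (h : t ≤ W.card) :
    ∃ φ : ZMod t → V, Function.Injective φ ∧ ∀ i, φ i ∈ W := by
  obtain ⟨f⟩ := Function.Embedding.nonempty_of_card_le (α := ZMod t) (β := W)
    (by rwa [ZMod.card, Fintype.card_coe])
  exact ⟨fun i => f i, Subtype.val_injective.comp f.injective, fun i => (f i).2⟩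

theorem cyc_core {x : V → ℝ} (hx : ∀ v, 0 ≤ x v) (hx1 : ∑ v, x v = 1) {R : V → V → V → Prop}
    (hs : ∀ z a b, R z a b → R z b a) {t : ℕ} [NeZero t] (ht : 2000000 ≤ t)
    (hR : ∀ z, 0 < x z → ∑ a, x a * wp x (fun b => ¬ R z a b) ≤ 2 / t)
    (hX : ∀ v, x v ≤ 76 / 100 / t) (hn : 2 * t ≤ (univ.filter fun v => 0 < x v).card) :
    ∃ u w : ZMod t → V, Function.Injective u ∧ Function.Injective w ∧ (∀ i j, u i ≠ w j) ∧
      ∀ i, R (w i) (u i) (u (i + 1)) := by
  classical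
  haveI : Fact (1 < t) := ⟨by omega⟩
  have ht' : (2000000 : ℝ) ≤ t := by exact_mod_cast ht
  have ht0 : (0 : ℝ) < t := by linarith
  obtain ⟨L, hL⟩ : ∃ L : Finset V, ∀ v, v ∈ L ↔ 0 < x v ∧ x v < 1 / 10 / t :=
    ⟨univ.filter fun v => 0 < x v ∧ x v < 1 / 10 / t, by simp⟩
  have wL : ∀ W ⊆ L, W.card ≤ t → ∑ v ∈ W, x v ≤ 1 / 10 := by
    intro W hW hc
    refine (sum_le_card_nsmul _ _ _ fun v hv => ((hL v).1 (hW hv)).2.le).trans ?_
    have h1 : (W.card : ℝ) ≤ t := by exact_mod_cast hc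
    rw [nsmul_eq_mul]
    calc _ ≤ (t : ℝ) * (1 / 10 / t) := by gcongr
      _ = _ := by field_simp
  rcases le_total t L.card with hc | hc
  · obtain ⟨W, hW, hWc⟩ := exists_subset_card_eq hc
    obtain ⟨φ, hφ, hφW⟩ := enum (t := t) hWc.ge
    obtain ⟨u, u1, u2, u3⟩ := greedy hx hx1 hs (t := t) (by omega) (wL W hW hWc.le)
      (w := fun i => φ i) (fun i _ => hR _ ((hL _).1 (hW (hφW _))).1) hX
    refine ⟨fun i => u i.val, φ, fun i j h => ZMod.val_injective t (u1 i.val_lt j.val_lt h), hφ,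
      fun i j h => u2 _ i.val_lt (by rw [show u i.val = φ j from h]; exact hφW j), fun i => ?_⟩
    have := u3 _ i.val_lt
    simp only [ZMod.natCast_zmod_val] at this
    simpa only [ZMod.val_add, ZMod.val_one] using this
  obtain ⟨H, hH⟩ : ∃ H : Finset V, ∀ v, v ∈ H ↔ 1 / 10 / t ≤ x v :=
    ⟨univ.filter fun v => 1 / 10 / t ≤ x v, by simp⟩
  obtain ⟨Z, hZ⟩ : ∃ Z, Z = univ.filter fun v => 0 < x v := ⟨_, rfl⟩
  rw [← hZ] at hn
  have hZ' : ∀ v, v ∈ Z ↔ 0 < x v := by simp [hZ]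
  have hη : (0 : ℝ) < 1 / 10 / t := by positivity
  have hZs : Z ⊆ L ∪ H := fun v hv => by
    rw [mem_union, hL, hH]
    rcases lt_or_ge (x v) (1 / 10 / t) with h | h
    · exact Or.inl ⟨(hZ' v).1 hv, h⟩
    · exact Or.inr h
  have H1 : (H.card : ℝ) ≤ 10 * t := by
    have h1 := card_nsmul_le_sum H x _ fun v hv => (hH v).1 hv
    have h2 : ∑ v ∈ H, x v ≤ 1 :=
      hx1 ▸ sum_le_sum_of_subset_of_nonneg (subset_univ _) fun v _ _ => hx v
    rw [nsmul_eq_mul, ← mul_div_assoc, div_le_iff₀ ht0] at h1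
    nlinarith
  have H2 : 118 / 100 * (t : ℝ) ≤ H.card := by
    have h1 : ∑ v, x v = ∑ v ∈ Z, x v := (sum_subset (subset_univ Z) fun v _ hv =>
      le_antisymm (not_lt.1 fun h => hv ((hZ' v).2 h)) (hx v)).symm
    have h2 : ∑ v ∈ Z, x v ≤ ∑ v ∈ L ∪ H, x v :=
      sum_le_sum_of_subset_of_nonneg hZs fun v _ _ => hx v
    have h3 := sum_union_inter (s₁ := L) (s₂ := H) (f := x)
    have h4 : 0 ≤ ∑ v ∈ L ∩ H, x v := sum_nonneg fun v _ => hx v
    have h5 := sum_le_card_nsmul H x _ fun v _ => hX v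
    have h6 := wL L Subset.rfl hc
    have h7 : 9 / 10 ≤ (H.card : ℝ) * (76 / 100) / t := by
      rw [nsmul_eq_mul, ← mul_div_assoc] at h5
      linarith
    rw [le_div_iff₀ ht0] at h7
    linarith
  have Z1 : (Z.card : ℝ) ≤ 11 * t := by
    have h1 : Z.card ≤ t + H.card :=
      (card_le_card hZs).trans ((card_union_le _ _).trans (by omega))
    have h2 : (Z.card : ℝ) ≤ t + H.card := by exact_mod_cast h1
    linarith
  have cnt : ∀ z ∈ Z, ∑ a ∈ H, ((H.filter fun b => ¬ R z a b).card : ℝ) ≤ 200 * t := by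
    intro z hz
    have h1 : ∑ a ∈ H, 1 / 10 / t * (((H.filter fun b => ¬ R z a b).card : ℝ) * (1 / 10 / t)) ≤
        ∑ a, x a * wp x (fun b => ¬ R z a b) := by
      have hw : ∀ a, 0 ≤ wp x (fun b => ¬ R z a b) := fun a =>
        sum_nonneg fun b _ => mul_nonneg (hx b) (ind_nonneg _)
      refine le_trans (sum_le_sum fun a ha => ?_) (sum_le_sum_of_subset_of_nonneg (subset_univ H)
        fun a _ _ => mul_nonneg (hx a) (hw a))
      refine mul_le_mul ((hH a).1 ha) ?_ (by positivity) (hx a)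
      rw [← nsmul_eq_mul]
      refine (card_nsmul_le_sum _ (fun b => x b * ind (¬ R z a b)) _ fun b hb => ?_).trans
        (sum_le_sum_of_subset_of_nonneg (subset_univ _)
          fun b _ _ => mul_nonneg (hx b) (ind_nonneg _))
      rw [ind_pos (mem_filter.1 hb).2, mul_one]
      exact (hH b).1 (mem_filter.1 hb).1
    rw [← mul_sum, ← sum_mul] at h1
    have h2 := h1.trans (hR z ((hZ' z).1 hz))
    generalize ∑ a ∈ H, ((H.filter fun b => ¬ R z a b).card : ℝ) = y at *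
    have e : 1 / 10 / (t : ℝ) * (y * (1 / 10 / t)) = y / (100 * t) / t := by field_simp; ring
    rw [e, div_le_div_iff_of_pos_right ht0, div_le_iff₀ (by positivity)] at h2
    linarith
  obtain ⟨D, hD⟩ : ∃ D : V → ℝ, D = fun a => ∑ z ∈ Z, ((H.filter fun b => ¬ R z a b).card : ℝ) :=
    ⟨_, rfl⟩
  have D0 : ∀ a, 0 ≤ D a := fun a => by rw [hD]; positivity
  have D1 : ∑ a ∈ H, D a ≤ 11 * t * (200 * t) := by
    rw [hD, sum_comm]
    refine (sum_le_card_nsmul _ _ _ cnt).trans ?_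
    rw [nsmul_eq_mul]
    gcongr
  have B1 : ((H.filter fun a => ¬ 100 * D a ≤ t ^ 2).card : ℝ) ≤ 220000 := by
    have h1 := card_nsmul_le_sum (H.filter fun a => ¬ 100 * D a ≤ t ^ 2) D (t ^ 2 / 100)
      fun a ha => by linarith [not_le.1 (mem_filter.1 ha).2]
    have h2 := h1.trans ((sum_le_sum_of_subset_of_nonneg (filter_subset _ _)
      fun a _ _ => D0 a).trans D1)
    rw [nsmul_eq_mul] at h2
    exact le_of_mul_le_mul_right (a := (t : ℝ) ^ 2) (by linarith) (by positivity)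
  have B2 : t ≤ (H.filter fun a => 100 * D a ≤ t ^ 2).card := by
    have h1 : (((H.filter fun a => 100 * D a ≤ t ^ 2).card : ℝ)) +
        (H.filter fun a => ¬ 100 * D a ≤ t ^ 2).card = H.card := by
      exact_mod_cast card_filter_add_card_filter_not _
    exact_mod_cast (show (t : ℝ) ≤ (H.filter fun a => 100 * D a ≤ t ^ 2).card by linarith)
  obtain ⟨U, hU, hUc⟩ := exists_subset_card_eq B2
  obtain ⟨φ, hφ, hφU⟩ := enum (t := t) hUc.ge
  obtain ⟨ψ, hψ, hψW⟩ := enum (t := t) (W := Z \ U) (le_trans (by omega) (le_card_sdiff U Z))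
  have φH : ∀ i, φ i ∈ H := fun i => (mem_filter.1 (hU (hφU i))).1
  have ψZ : ∀ i, ψ i ∈ Z := fun i => (mem_sdiff.1 (hψW i)).1
  have one : ∀ z a, ((univ.filter fun b : ZMod t => ¬ R z a (φ b)).card : ℝ) ≤
      (H.filter fun b => ¬ R z a b).card := fun z a =>
    Nat.cast_le.2 (card_le_card_of_injOn φ (fun b hb => mem_coe.2 (mem_filter.2
      ⟨φH b, (mem_filter.1 (mem_coe.1 hb)).2⟩)) hφ.injOn)
  have two : ∀ (P : ZMod t → ZMod t → Prop) [∀ a b, Decidable (P a b)],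
      ((univ.filter fun z : ZMod t × ZMod t => P z.1 z.2).card : ℝ) =
        ∑ a, ((univ.filter fun b => P a b).card : ℝ) := by
    intro P _
    simp only [card_filter]
    push_cast
    rw [Fintype.sum_prod_type]
  have three : ∀ (f : ZMod t → V) (K : Finset V) (c : V → ℕ), Function.Injective f →
      (∀ i, f i ∈ K) → ∑ i, (c (f i) : ℝ) ≤ ∑ v ∈ K, (c v : ℝ) := by
    intro f K c hf hK
    rw [← sum_image (g := f) (f := fun v => (c v : ℝ)) hf.injOn]
    exact sum_le_sum_of_subset_of_nonneg (image_subset_iff.2 fun i _ => hK i)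
      fun v _ _ => Nat.cast_nonneg _
  obtain ⟨σ, hσ⟩ := lll_cyc (t := t) (by omega) (fun i a b => R (ψ i) (φ a) (φ b))
    (fun i a b => hs _ _ _) (fun j => by
      have h1 := (sum_le_sum fun a (_ : a ∈ univ) => one (ψ j) (φ a)).trans
        ((three φ H (fun a => (H.filter fun b => ¬ R (ψ j) a b).card) hφ φH).trans (cnt _ (ψZ j)))
      rw [← two fun a b => ¬ R (ψ j) (φ a) (φ b)] at h1
      exact_mod_cast h1) (fun c => by
      have h1 := (sum_le_sum fun i (_ : i ∈ univ) => one (ψ i) (φ c)).trans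
        (three ψ Z (fun z => (H.filter fun b => ¬ R z (φ c) b).card) hψ ψZ)
      rw [← two fun i b => ¬ R (ψ i) (φ c) (φ b)] at h1
      have h2 := (mem_filter.1 (hU (hφU c))).2
      rw [hD] at h2
      exact_mod_cast (mul_le_mul_of_nonneg_left h1 (by norm_num : (0 : ℝ) ≤ 100)).trans h2)
  exact ⟨fun i => φ (σ i), ψ, hφ.comp σ.injective, hψ,
    fun i j h => (mem_sdiff.1 (hψW j)).2 (h ▸ hφU (σ i)), hσ⟩

end Pool.Agent.H20.Lag
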