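import Pool.Agent.H20.Lag2

namespace Pool.Agent.H20.Lag

open Finset

variable {V : Type} [Fintype V] [DecidableEq V]

theorem pr_PD (b : Fin 3 → ℝ) (D : Finset V) (t : Finset (Fin 3)) (v : V) :
    pr (PD b D) t v = if v ∈ D then (if 0 ∈ t then 1 else 0) else ∑ i ∈ t, b i := by
  unfold pr PD
  split_ifs with h1 h2 <;> simp [*]

theorem var_bound {b : Fin 3 → ℝ} (h0 : ∀ i, 0 ≤ b i) (h1 : ∑ i, b i = 1) {D : Finset V} {v0 : V}
    (hD : D ⊆ {v0}) (t : Finset (Fin 3)) {a : V → ℝ} {am U : ℝ} (ha : ∀ v, 0 ≤ a v)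
    (ham : ∀ v, a v ≤ am) (hU : ∑ v, a v ≤ U) :
    ∑ v, (1 - pr (PD b D) t v) * a v ^ 2 ≤ (1 - ∑ i ∈ t, b i) * (am * U) + am ^ 2 := by
  have hb : 0 ≤ 1 - ∑ i ∈ t, b i :=
    sub_nonneg.2 (h1 ▸ sum_le_sum_of_subset_of_nonneg (subset_univ _) fun i _ _ => h0 i)
  have hm : 0 ≤ am := (ha v0).trans (ham v0)
  calc ∑ v, (1 - pr (PD b D) t v) * a v ^ 2
      ≤ ∑ v, ((1 - ∑ i ∈ t, b i) * (am * a v) + if v = v0 then am ^ 2 else 0) := by
        refine sum_le_sum fun v _ => ?_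
        have e1 : a v ^ 2 ≤ am * a v := by nlinarith [ha v, ham v]
        have e2 : a v ^ 2 ≤ am ^ 2 := pow_le_pow_left₀ (ha v) (ham v) 2
        have e3 := mul_nonneg hb (mul_nonneg hm (ha v))
        by_cases hv : v ∈ D
        · rw [if_pos (mem_singleton.1 (hD hv))]
          nlinarith [pr_nonneg (PD_isP h0 h1 D) t v, sq_nonneg (a v)]
        · rw [pr_PD, if_neg hv]
          have := mul_le_mul_of_nonneg_left e1 hb
          split_ifs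
          · nlinarith [sq_nonneg am]
          · linarith
    _ ≤ _ := by
        rw [sum_add_distrib, ← mul_sum, ← mul_sum, sum_ite_eq']
        simp only [mem_univ, if_true]
        exact add_le_add_left (mul_le_mul_of_nonneg_left (mul_le_mul_of_nonneg_left hU hm) hb) _

theorem Zf_single (a : V → ℝ) (A : Finset V) :
    Zf univ (fun v => ({v} : Finset V)) a A = ∑ v ∈ A, a v := by
  unfold Zf
  rw [← sum_filter_add_sum_filter_not univ (fun v => v ∈ A), filter_mem_eq_inter, univ_inter,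
    sum_eq_zero (s := univ.filter fun v => ¬ v ∈ A), add_zero]
  · exact sum_congr rfl fun v hv => by rw [ind_pos (singleton_subset_iff.2 hv), mul_one]
  · intro v hv
    rw [ind_neg fun h => (mem_filter.1 hv).2 (singleton_subset_iff.1 h), mul_zero]

theorem cs_compl (t : Finset (Fin 3)) (ω : V → Fin 3) : cs tᶜ ω = (cs t ω)ᶜ := by
  ext v
  simp [cs]

theorem lin_conc {b : Fin 3 → ℝ} (h0 : ∀ i, 0 ≤ b i) (h1 : ∑ i, b i = 1) {D : Finset V} {v0 : V}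
    (hD : D ⊆ {v0}) {t : Finset (Fin 3)} (ht : 0 ∈ t) {a : V → ℝ} {am U d z : ℝ}
    (ha : ∀ v, 0 ≤ a v) (ham : ∀ v, a v ≤ am) (hU : ∑ v, a v ≤ U) (hd : 0 < d) (hm : am ≤ d / 2)
    (hz : 4 * ((∑ i ∈ t, b i) * (am * U) + am ^ 2) ≤ z * d ^ 2) :
    Ex (PD b D) (fun ω => ind (¬ |∑ v ∈ cs t ω, a v - (∑ i ∈ t, b i) * ∑ v, a v| ≤ d)) ≤ z := by
  have hP := PD_isP h0 h1 D
  have hc : ∑ i ∈ tᶜ, b i = 1 - ∑ i ∈ t, b i := by rw [← h1, ← sum_add_sum_compl t]; ring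
  have hb : 0 ≤ ∑ i ∈ tᶜ, b i := sum_nonneg fun i _ => h0 i
  have hb' : 0 ≤ ∑ i ∈ t, b i := sum_nonneg fun i _ => h0 i
  have hmu : mu (PD b D) tᶜ univ (fun v => ({v} : Finset V)) a =
      (∑ i ∈ tᶜ, b i) * (∑ v, a v - ∑ v ∈ D, a v) := by
    unfold mu
    rw [← sum_add_sum_compl D, ← sum_add_sum_compl D a, sum_eq_zero, zero_add, add_sub_cancel_left,
      mul_sum]
    · refine sum_congr rfl fun v hv => ?_
      rw [prod_singleton, pr_PD, if_neg (mem_compl.1 hv), mul_comm]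
    · intro v hv
      simp [pr_PD, hv, ht]
  have hDa : ∑ v ∈ D, a v ≤ am :=
    (sum_le_sum_of_subset_of_nonneg hD fun v _ _ => ha v).trans (by simpa using ham v0)
  have hDa' : 0 ≤ ∑ v ∈ D, a v := sum_nonneg fun v _ => ha v
  refine cheb hP (fun ω => Zf univ (fun v => ({v} : Finset V)) a (cs tᶜ ω) -
    mu (PD b D) tᶜ univ (fun v => ({v} : Finset V)) a) _ (half_pos hd) (fun ω h => ?_) ?_
  · rw [Zf_single, hmu, cs_compl, hc]
    have e := sum_add_sum_compl (cs t ω) a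
    have e2 : (1 - ∑ i ∈ t, b i) * ∑ v ∈ D, a v ≤ am := by nlinarith
    have e3 : 0 ≤ (1 - ∑ i ∈ t, b i) * ∑ v ∈ D, a v := mul_nonneg (hc ▸ hb) hDa'
    rw [abs_le, not_and_or] at h
    rw [le_abs]
    rcases h with h | h
    · left; nlinarith
    · right; nlinarith
  · refine (var_Zf hP _ _ _ _ fun v _ => ha v).trans ?_
    have e : ∀ v : V, ∑ i ∈ univ.filter (fun i : V => v ∈ ({i} : Finset V)), a i = a v := by
      intro v
      rw [sum_filter]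
      simp
    simp only [e]
    refine (var_bound h0 h1 hD _ ha ham hU).trans ?_
    rw [hc]
    nlinarith

def wv (Ms : Finset (Finset V)) (w : Finset V → ℝ) (v : V) : ℝ :=
  ∑ e ∈ Ms.filter (fun e => v ∈ e), w e

theorem mu_le {b : Fin 3 → ℝ} (h0 : ∀ i, 0 ≤ b i) (h1 : ∑ i, b i = 1) {D : Finset V} {v0 : V}
    (hD : D ⊆ {v0}) (t : Finset (Fin 3)) {Ms : Finset (Finset V)} {w : Finset V → ℝ} {k : ℕ}
    (hc : ∀ e ∈ Ms, e.card = k + 1) (hw : ∀ e ∈ Ms, 0 ≤ w e) :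
    mu (PD b D) t Ms id w ≤ (∑ i ∈ t, b i) ^ (k + 1) * ∑ e ∈ Ms, w e +
      (if 0 ∈ t then (∑ i ∈ t, b i) ^ k * wv Ms w v0 else 0) := by
  have hP := PD_isP h0 h1 D
  have hb : 0 ≤ ∑ i ∈ t, b i := sum_nonneg fun i _ => h0 i
  unfold mu wv
  split_ifs with ht
  · rw [sum_filter, mul_sum, mul_sum, ← sum_add_distrib]
    refine sum_le_sum fun e he => ?_
    have key : ∀ s : Finset V, v0 ∉ s → ∏ v ∈ s, pr (PD b D) t v = (∑ i ∈ t, b i) ^ s.card := by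
      intro s hs
      rw [← prod_const]
      refine prod_congr rfl fun v hv => ?_
      rw [pr_PD, if_neg fun h => hs (mem_singleton.1 (hD h) ▸ hv)]
    simp only [id]
    split_ifs with hv
    · rw [← mul_prod_erase e _ hv, key _ (notMem_erase _ _), card_erase_of_mem hv, hc e he,
        Nat.add_sub_cancel]
      have := mul_nonneg (hw e he) (pow_nonneg hb k)
      nlinarith [pr_le hP t v0, mul_nonneg (pow_nonneg hb (k + 1)) (hw e he)]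
    · rw [key _ hv, hc e he]
      nlinarith
  · rw [add_zero, mul_sum]
    refine sum_le_sum fun e he => ?_
    rw [mul_comm _ (w e), ← hc e he, ← prod_const]
    refine mul_le_mul_of_nonneg_left (prod_le_prod (fun v _ => pr_nonneg hP t v) fun v _ => ?_)
      (hw e he)
    rw [pr_PD]
    split_ifs
    · exact hb
    · exact le_rfl

def bb (r0 r1 : ℝ) : Fin 3 → ℝ := ![r0, r1 - r0, 1 - r1]

def GE (x : V → ℝ) (Ms : Finset (Finset V)) (w : Finset V → ℝ) (r : ℕ) (r0 r1 d0 d1 d2 : ℝ)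
    (ω : V → Fin 3) : Prop :=
  |∑ v ∈ cs {0} ω, x v - r0| ≤ d0 ∧ |∑ v ∈ cs {0, 1} ω, x v - r1| ≤ d0 ∧
  |∑ v ∈ cs {0} ω, x v ^ 2 - r0 * ∑ v, x v ^ 2| ≤ d1 ∧
  |∑ v ∈ cs {0, 1} ω, x v ^ 2 - r1 * ∑ v, x v ^ 2| ≤ d1 ∧
  Zf Ms id w (cs {1, 2} ω) ≤ (1 - r0) ^ r * ∑ e ∈ Ms, w e + d1 ∧
  Zf Ms id w (cs {0, 1} ω) ≤ r1 ^ r * ((∑ e ∈ Ms, w e) / r1 + d2)

theorem Zf_nonneg {Ms : Finset (Finset V)} {w : Finset V → ℝ} (hw : ∀ e ∈ Ms, 0 ≤ w e)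
    (A : Finset V) : 0 ≤ Zf Ms id w A :=
  sum_nonneg fun e he => mul_nonneg (hw e he) (ind_nonneg _)

theorem bb_ok {r0 r1 : ℝ} (h0 : 0 ≤ r0) (h1 : r0 ≤ r1) (h2 : r1 ≤ 1) :
    (∀ i, 0 ≤ bb r0 r1 i) ∧ ∑ i, bb r0 r1 i = 1 ∧ ∑ i ∈ {0}, bb r0 r1 i = r0 ∧
      ∑ i ∈ {0, 1}, bb r0 r1 i = r1 ∧ ∑ i ∈ {1, 2}, bb r0 r1 i = 1 - r0 := by
  refine ⟨fun i => ?_, ?_, ?_, ?_, ?_⟩
  · fin_cases i <;> simp [bb] <;> linarith
  · simp [bb, Fin.sum_univ_three]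
  · simp [bb]
  · simp [bb]
  · simp [bb]

theorem ind_six {a b c d e f : Prop} : ind (¬ (a ∧ b ∧ c ∧ d ∧ e ∧ f)) ≤
    ind (¬ a) + ind (¬ b) + ind (¬ c) + ind (¬ d) + ind (¬ e) + ind (¬ f) := by
  have n1 := ind_nonneg (¬ a)
  have n2 := ind_nonneg (¬ b)
  have n3 := ind_nonneg (¬ c)
  have n4 := ind_nonneg (¬ d)
  have n5 := ind_nonneg (¬ e)
  have n6 := ind_nonneg (¬ f)
  by_cases hG : a ∧ b ∧ c ∧ d ∧ e ∧ f
  · rw [ind_neg (not_not.2 hG)]; linarith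
  · rw [ind_pos hG]
    simp only [not_and_or] at hG
    rcases hG with h | h | h | h | h | h <;> linarith [ind_pos h]

theorem bad_le {x : V → ℝ} {Ms : Finset (Finset V)} {w : Finset V → ℝ} {k : ℕ}
    {r0 r1 ρ τ ε θ D : ℝ} (hx : ∀ v, 0 ≤ x v) (hx1 : ∑ v, x v = 1)
    (hc : ∀ e ∈ Ms, e.card = k + 1) (hw : ∀ e ∈ Ms, 0 ≤ w e) (hρ : 0 < ρ) (hρ1 : ρ ≤ 1)
    (hτ : 0 < τ) (hε : 0 < ε) (hε1 : ε ≤ 1) (hθ : 0 < θ) (hθ1 : θ ≤ 1) (hD : 1 ≤ D)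
    (a0 : 0 ≤ r0) (a1 : r0 ≤ ρ) (a2 : ρ ≤ r1) (a3 : r1 ≤ 2 * ρ) (a4 : r1 ≤ 1)
    (hX : ∀ v, x v ≤ D * (ρ * τ)) (hS : ∑ v, x v ^ 2 ≤ ρ * τ)
    (hwv : ∀ v, wv Ms w v ≤ D ^ 3 * (ρ * τ) ^ 2) (hwU : ∑ v, wv Ms w v ≤ D ^ 2 * (ρ * τ))
    (H : 12 * D ^ 6 * τ ≤ ε ^ 2 * θ ^ (2 * (k + 1) + 1)) {F : Finset V} {v0 : V} (hF : F ⊆ {v0}) :
    Ex (PD (bb r0 r1) F) (fun ω => ind (¬ GE x Ms w (k + 1) r0 r1 (ε * ρ) (ε * ρ * (ρ * τ))
      (ε * τ) ω)) ≤ 12 * θ := by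
  obtain ⟨b0, b1, b2, b3, b4⟩ := bb_ok a0 (a1.trans a2) a4
  have hP := PD_isP b0 b1 F
  have H1 : 12 * D ^ 6 * τ ≤ ε ^ 2 * θ :=
    H.trans (mul_le_mul_of_nonneg_left (pow_le_of_le_one hθ.le hθ1 (by omega)) (sq_nonneg _))
  have hDp : ∀ i : ℕ, i ≤ 6 → 12 * (D ^ i * τ) ≤ ε ^ 2 * θ := fun i hi => by
    have := mul_le_mul_of_nonneg_right (pow_le_pow_right₀ hD hi) hτ.le
    nlinarith
  have hεθ : ε ^ 2 * θ ≤ ε * θ := by nlinarith [mul_pos hε hθ]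
  have hεθ' : ε * θ ≤ ε := by nlinarith
  have d1 := hDp 1 (by norm_num)
  have d2 := hDp 2 (by norm_num)
  have d3 := hDp 3 (by norm_num)
  have d5 := hDp 5 (by norm_num)
  have d6 := hDp 6 (by norm_num)
  rw [pow_one] at d1
  have hτ1 : τ ≤ 1 := by nlinarith
  have hu : 0 < ρ * τ := mul_pos hρ hτ
  have hw0 : ∀ v, 0 ≤ wv Ms w v := fun v => sum_nonneg fun e he => hw e (mem_filter.1 he).1
  have hM : 0 ≤ ∑ e ∈ Ms, w e := sum_nonneg hw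
  have l1 : ∀ (t : Finset (Fin 3)) (q : ℝ), 0 ∈ t → ∑ i ∈ t, bb r0 r1 i = q → q ≤ 2 * ρ →
      Ex (PD (bb r0 r1) F) (fun ω => ind (¬ |∑ v ∈ cs t ω, x v - q| ≤ ε * ρ)) ≤ 2 * θ := by
    intro t q ht hq hq2
    have := lin_conc b0 b1 hF ht (z := 2 * θ) hx hX hx1.le (mul_pos hε hρ) (by nlinarith) (by
      rw [hq]
      have e1 : q * (D * (ρ * τ) * 1) ≤ 2 * ρ * (D * (ρ * τ) * 1) :=
        mul_le_mul_of_nonneg_right hq2 (by positivity)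
      have e2 : (D * τ) ^ 2 ≤ D * τ := by nlinarith [mul_pos (by linarith : 0 < D) hτ]
      nlinarith [mul_le_mul_of_nonneg_left e2 (sq_nonneg ρ), mul_le_mul_of_nonneg_left d1 (sq_nonneg ρ),
        mul_pos (pow_pos hε 2) hθ, sq_nonneg ρ])
    rwa [hq, hx1, mul_one] at this
  have l2 : ∀ (t : Finset (Fin 3)) (q : ℝ), 0 ∈ t → ∑ i ∈ t, bb r0 r1 i = q → q ≤ 2 * ρ →
      Ex (PD (bb r0 r1) F) (fun ω => ind (¬ |∑ v ∈ cs t ω, x v ^ 2 - q * ∑ v, x v ^ 2| ≤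
        ε * ρ * (ρ * τ))) ≤ 2 * θ := by
    intro t q ht hq hq2
    have := lin_conc b0 b1 hF ht (z := 2 * θ) (a := fun v => x v ^ 2) (fun v => sq_nonneg _)
      (fun v => pow_le_pow_left₀ (hx v) (hX v) 2) hS (mul_pos (mul_pos hε hρ) hu)
      (by nlinarith [mul_le_mul_of_nonneg_left (show D ^ 2 * τ ≤ ε / 2 by linarith)
            (mul_pos hρ hu).le]) (by
      rw [hq]
      have e1 : q * ((D * (ρ * τ)) ^ 2 * (ρ * τ)) ≤ 2 * ρ * ((D * (ρ * τ)) ^ 2 * (ρ * τ)) :=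
        mul_le_mul_of_nonneg_right hq2 (by positivity)
      have e2 : (D ^ 2 * τ) ^ 2 ≤ D ^ 2 * τ := by
        nlinarith [mul_pos (pow_pos (by linarith : 0 < D) 2) hτ]
      have e3 : 4 * (2 * (D ^ 2 * τ) + (D ^ 2 * τ) ^ 2) ≤ 2 * θ * ε ^ 2 := by
        nlinarith [mul_pos (pow_pos hε 2) hθ]
      nlinarith [mul_le_mul_of_nonneg_left e3 (sq_nonneg (ρ * (ρ * τ)))])
    rwa [hq] at this
  have l3 : Ex (PD (bb r0 r1) F) (fun ω => ind (¬ Zf Ms id w (cs {1, 2} ω) ≤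
      (1 - r0) ^ (k + 1) * ∑ e ∈ Ms, w e + ε * ρ * (ρ * τ))) ≤ 2 * θ := by
    have hmu := mu_le b0 b1 hF {1, 2} hc hw
    rw [b4, if_neg (by decide), add_zero] at hmu
    refine cheb hP (fun ω => Zf Ms id w (cs {1, 2} ω) - mu (PD (bb r0 r1) F) {1, 2} Ms id w) _
      (mul_pos (mul_pos hε hρ) hu) (fun ω h => le_abs.2 (Or.inl (by linarith [not_le.1 h]))) ?_
    refine (var_Zf hP _ _ _ _ hw).trans ((var_bound b0 b1 hF _ hw0 hwv hwU).trans ?_)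
    rw [b4]
    have e1 : (1 - (1 - r0)) * (D ^ 3 * (ρ * τ) ^ 2 * (D ^ 2 * (ρ * τ))) ≤
        ρ * (D ^ 3 * (ρ * τ) ^ 2 * (D ^ 2 * (ρ * τ))) :=
      mul_le_mul_of_nonneg_right (by linarith) (by positivity)
    have e2 : D ^ 6 * τ * τ ≤ D ^ 6 * τ := by
      nlinarith [mul_pos (pow_pos (by linarith : 0 < D) 6) hτ]
    have e3 : D ^ 5 * τ + D ^ 6 * τ * τ ≤ 2 * θ * ε ^ 2 := by
      nlinarith [mul_pos (pow_pos hε 2) hθ]
    nlinarith [mul_le_mul_of_nonneg_left e3 (sq_nonneg (ρ * (ρ * τ)))]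
  have l4 : Ex (PD (bb r0 r1) F) (fun ω => ind (¬ Zf Ms id w (cs {0, 1} ω) ≤
      r1 ^ (k + 1) * ((∑ e ∈ Ms, w e) / r1 + ε * τ))) ≤ 2 * θ := by
    have hmu := mu_le b0 b1 hF {0, 1} hc hw
    rw [b3, if_pos (by decide)] at hmu
    have hr1 : 0 < r1 := by linarith
    have hk := pow_pos hr1 k
    have e0 : r1 ^ (k + 1) * ((∑ e ∈ Ms, w e) / r1 + ε * τ) =
        r1 ^ k * (∑ e ∈ Ms, w e + r1 * (ε * τ)) := by field_simp; ring
    have e1 : wv Ms w v0 ≤ θ / 2 * (r1 * (ε * τ)) := by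
      refine (hwv v0).trans ?_
      have t1 : ρ ^ 2 ≤ r1 := by nlinarith
      have t2 : D ^ 3 * τ ≤ θ / 2 * ε := by nlinarith [mul_pos hε hθ]
      calc D ^ 3 * (ρ * τ) ^ 2 = ρ ^ 2 * (D ^ 3 * τ) * τ := by ring
        _ ≤ r1 * (θ / 2 * ε) * τ := by gcongr
        _ = _ := by ring
    have hpos : 0 < r1 * (ε * τ) := by positivity
    rw [pow_succ] at hmu
    simp only [e0]
    by_cases hcase : r1 ≤ θ
    · refine markov hP (fun ω => Zf Ms id w (cs {0, 1} ω)) _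
        (d := r1 ^ k * (∑ e ∈ Ms, w e + r1 * (ε * τ))) (by positivity) (fun ω => Zf_nonneg hw _)
        (fun ω h => (not_le.1 h).le) ?_
      rw [Ex_Zf hP]
      refine hmu.trans ?_
      have t1 : r1 * ∑ e ∈ Ms, w e + wv Ms w v0 ≤ 2 * θ * (∑ e ∈ Ms, w e + r1 * (ε * τ)) := by
        nlinarith [mul_le_mul_of_nonneg_right hcase hM, mul_nonneg hθ.le hM, mul_pos hθ hpos]
      nlinarith [mul_le_mul_of_nonneg_left t1 hk.le]
    · refine cheb hP (fun ω => Zf Ms id w (cs {0, 1} ω) - mu (PD (bb r0 r1) F) {0, 1} Ms id w) _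
        (d := r1 ^ k * (r1 * (ε * τ)) / 2) (by positivity)
        (fun ω h => le_abs.2 (Or.inl ?_)) ?_
      · have t1 : r1 * ∑ e ∈ Ms, w e + wv Ms w v0 ≤ ∑ e ∈ Ms, w e + r1 * (ε * τ) / 2 := by
          nlinarith [mul_le_mul_of_nonneg_right a4 hM]
        nlinarith [mul_le_mul_of_nonneg_left t1 hk.le, not_le.1 h]
      · refine (var_Zf hP _ _ _ _ hw).trans ((var_bound b0 b1 hF _ hw0 hwv hwU).trans ?_)
        rw [b3]
        have hu1 : ρ * τ ≤ τ := by nlinarith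
        have t1 : (1 - r1) * (D ^ 3 * (ρ * τ) ^ 2 * (D ^ 2 * (ρ * τ))) ≤ D ^ 6 * τ ^ 3 := by
          calc _ ≤ 1 * (D ^ 3 * τ ^ 2 * (D ^ 3 * τ)) := by
                gcongr
                · linarith
                · norm_num
            _ = _ := by ring
        have t2 : (D ^ 3 * (ρ * τ) ^ 2) ^ 2 ≤ D ^ 6 * τ ^ 3 := by
          calc _ ≤ (D ^ 3 * τ ^ 2) ^ 2 := by gcongr
            _ = D ^ 6 * τ ^ 3 * τ := by ring
            _ ≤ D ^ 6 * τ ^ 3 * 1 := by gcongr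
            _ = _ := mul_one _
        have t3 : θ ^ (2 * (k + 1)) ≤ r1 ^ (2 * (k + 1)) :=
          pow_le_pow_left₀ hθ.le (not_le.1 hcase).le _
        have t4 : 12 * D ^ 6 * τ ≤ ε ^ 2 * θ * r1 ^ (2 * (k + 1)) := by
          refine H.trans ?_
          rw [pow_succ θ, mul_comm _ θ, ← mul_assoc]
          gcongr
        have t5 : (r1 ^ k * (r1 * (ε * τ)) / 2) ^ 2 = r1 ^ (2 * (k + 1)) * ε ^ 2 * τ ^ 2 / 4 := by
          ring
        rw [t5]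
        nlinarith [mul_le_mul_of_nonneg_left t4 (sq_nonneg τ),
          mul_pos (pow_pos (by linarith : 0 < D) 6) (pow_pos hτ 3)]
  have m1 := l1 {0} r0 (by decide) b2 (by linarith)
  have m2 := l1 {0, 1} r1 (by decide) b3 a3
  have m3 := l2 {0} r0 (by decide) b2 (by linarith)
  have m4 := l2 {0, 1} r1 (by decide) b3 a3
  have m := add_le_add (add_le_add (add_le_add (add_le_add (add_le_add m1 m2) m3) m4) l3) l4
  rw [← Ex_add, ← Ex_add, ← Ex_add, ← Ex_add, ← Ex_add] at m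
  refine le_trans (Ex_mono hP fun ω => ?_) (m.trans (le_of_eq (by ring)))
  exact ind_six

end Pool.Agent.H20.Lag
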