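import Pool.Agent.H20.Lag1
import Pool.Agent.H20.Lag3

namespace Pool.Agent.H20.Lag

open Finset Filter Topology

variable {V : Type} [Fintype V] [DecidableEq V]

omit [Fintype V] in
theorem pw_mix {Γ : Finset (Finset V)} {k : ℕ} (hc : ∀ e ∈ Γ, e.card = k + 1) (x : V → ℝ) (v : V)
    (t : ℝ) : pw Γ (fun i => (1 - t) * x i + if i = v then t else 0) =
      (1 - t) ^ (k + 1) * pw Γ x + t * (1 - t) ^ k * lk Γ v x := by
  unfold pw lk
  rw [sum_filter, mul_sum, mul_sum, ← sum_add_distrib]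
  refine sum_congr rfl fun e he => ?_
  have key : ∀ s : Finset V, v ∉ s → ∏ i ∈ s, ((1 - t) * x i + if i = v then t else 0) =
      (1 - t) ^ s.card * ∏ i ∈ s, x i := by
    intro s hs
    rw [← prod_const, ← prod_mul_distrib]
    refine prod_congr rfl fun i hi => ?_
    rw [if_neg fun h : i = v => hs (h ▸ hi), add_zero]
  split_ifs with hv
  · rw [← mul_prod_erase e _ hv, ← mul_prod_erase e x hv, key _ (notMem_erase _ _),
      card_erase_of_mem hv, hc e he, Nat.add_sub_cancel, if_pos rfl]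
    ring
  · rw [key _ hv, hc e he]
    ring

theorem lk_le {Γ : Finset (Finset V)} {k : ℕ} (hc : ∀ e ∈ Γ, e.card = k + 1) {x : V → ℝ}
    (hx : ∀ v, 0 ≤ x v) (hx1 : ∑ v, x v = 1)
    (hmax : ∀ y : V → ℝ, (∀ v, 0 ≤ y v) → ∑ v, y v = 1 → pw Γ y ≤ pw Γ x) (v : V) :
    lk Γ v x ≤ (k + 1 : ℕ) * pw Γ x := by
  have h : Tendsto (fun t : ℝ => (1 - t) ^ k * lk Γ v x) (𝓝[>] 0)
      (𝓝 ((1 - 0) ^ k * lk Γ v x)) :=
    (by fun_prop : Continuous fun t : ℝ => (1 - t) ^ k * lk Γ v x).continuousAt.tendsto.mono_left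
      nhdsWithin_le_nhds
  rw [sub_zero, one_pow, one_mul] at h
  refine le_of_tendsto h ?_
  filter_upwards [Ioo_mem_nhdsGT (zero_lt_one' ℝ)] with t ht
  have h1 := hmax (fun i => (1 - t) * x i + if i = v then t else 0)
    (fun i => add_nonneg (mul_nonneg (by linarith [ht.2]) (hx i)) (by
      split_ifs
      · exact ht.1.le
      · exact le_rfl)) (by
      rw [sum_add_distrib, ← mul_sum, hx1]
      simp)
  rw [pw_mix hc] at h1
  have h2 := one_add_mul_le_pow (a := -t) (by linarith [ht.2]) (k + 1)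
  have h3 := mul_le_mul_of_nonneg_right h2 (pw_nonneg (F := Γ) hx)
  rw [← sub_eq_add_neg 1 t] at h3
  exact le_of_mul_le_mul_left (a := t) (by linarith) ht.1

noncomputable def ww (r : ℕ) (x : V → ℝ) (e : Finset V) : ℝ := r.factorial * ∏ i ∈ e, x i

omit [Fintype V] [DecidableEq V] in
theorem sum_ww (r : ℕ) (x : V → ℝ) (F : Finset (Finset V)) :
    ∑ e ∈ F, ww r x e = r.factorial * pw F x := by
  unfold ww pw
  rw [mul_sum]

theorem kkt {Γ : Finset (Finset V)} {k : ℕ} (hk : 1 ≤ k) (hc : ∀ e ∈ Γ, e.card = k + 2)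
    {y : V → ℝ} (hy : ∀ v, 0 ≤ y v) (hy1 : ∑ v, y v = 1) {δ : ℝ} (hδ : (k + 3) * δ ≤ 1)
    (hΛ : 1 - δ ≤ (k + 2).factorial * pw Γ y) :
    ∃ (x : V → ℝ) (X : ℝ), (∀ v, 0 ≤ x v) ∧ ∑ v, x v = 1 ∧ pw Γ y ≤ pw Γ x ∧ (∀ v, x v ≤ X) ∧
      X ≤ δ ∧ ∑ v, x v * (X - x v) ≤ ∑ e ∈ univ.powersetCard (k + 2) \ Γ, ww (k + 2) x e ∧
      ∑ e ∈ univ.powersetCard (k + 2) \ Γ, ww (k + 2) x e ≤ δ ∧
      ∀ v, wv (univ.powersetCard (k + 2) \ Γ) (ww (k + 2) x) v ≤ (k + 2) * δ ^ 2 := by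
  obtain ⟨x, ⟨hx, hx1⟩, hmax⟩ := (isCompact_stdSimplex ℝ V).exists_isMaxOn ⟨y, hy, hy1⟩
    (f := pw Γ) (Continuous.continuousOn (by unfold pw; fun_prop))
  have hmax' : ∀ y : V → ℝ, (∀ v, 0 ≤ y v) → ∑ v, y v = 1 → pw Γ y ≤ pw Γ x :=
    fun y h1 h2 => hmax (show y ∈ stdSimplex ℝ V from ⟨h1, h2⟩)
  obtain ⟨u, -, hu⟩ := exists_max_image univ x (nonempty_of_sum_ne_zero (hx1 ▸ one_ne_zero))
  have hu0 : 0 < x u := by
    by_contra h
    have : ∑ v, x v ≤ 0 := sum_nonpos fun v hv => (hu v hv).trans (not_lt.1 h)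
    linarith
  obtain ⟨Ms, hMs⟩ : ∃ Ms, Ms = (univ : Finset V).powersetCard (k + 2) \ Γ := ⟨_, rfl⟩
  rw [← hMs]
  have hMc : ∀ e ∈ Ms, e.card = k + 2 := fun e he =>
    (mem_powersetCard.1 (mem_sdiff.1 (hMs ▸ he)).1).2
  obtain ⟨Λ, hΛe⟩ : ∃ Λ : ℝ, Λ = (k + 2).factorial * pw Γ x := ⟨_, rfl⟩
  have hΛ1 : 1 - δ ≤ Λ := by
    rw [hΛe]
    exact hΛ.trans (mul_le_mul_of_nonneg_left (hmax' y hy hy1) (Nat.cast_nonneg _))
  obtain ⟨m, hm⟩ : ∃ m : V → ℝ, m = fun v => (k + 1).factorial * lk Ms v x := ⟨_, rfl⟩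
  have hm0 : ∀ v, 0 ≤ m v := fun v => by
    rw [hm]; exact mul_nonneg (Nat.cast_nonneg _) (lk_nonneg hx v)
  have fac : ((k + 2).factorial : ℝ) = (k + 2) * (k + 1).factorial := by
    rw [Nat.factorial_succ (k + 1)]; push_cast; ring
  have eq1 : ∀ v, 0 < x v → lk Γ v x = (k + 2 : ℕ) * pw Γ x := by
    intro v hv
    have h1 := sum_lk (s := univ) hc (fun e _ => subset_univ e) x
    have h2 : ∑ v, x v * ((k + 2 : ℕ) * pw Γ x - lk Γ v x) = 0 := by
      simp only [mul_sub, sum_sub_distrib]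
      rw [← sum_mul, hx1, h1, one_mul, sub_self]
    have h3 := (sum_eq_zero_iff_of_nonneg fun v _ => mul_nonneg (hx v)
      (sub_nonneg.2 (lk_le hc hx hx1 hmax' v))).1 h2 v (mem_univ v)
    exact (sub_eq_zero.1 ((mul_eq_zero.1 h3).resolve_left hv.ne')).symm
  have eq2 : ∀ v, 0 < x v → EE (k + 1) (univ.erase v) x = Λ + m v := by
    intro v hv
    have h1 : lk (univ.powersetCard (k + 2)) v x = lk Γ v x + lk Ms v x := by
      have : (univ : Finset V).powersetCard (k + 2) = Γ ∪ Ms := by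
        rw [hMs, union_sdiff_of_subset fun e he => mem_powersetCard.2 ⟨subset_univ _, hc e he⟩]
      unfold lk
      rw [this, filter_union, sum_union (disjoint_filter_filter (hMs ▸ disjoint_sdiff))]
    unfold EE
    rw [← lk_complete (k + 1) (mem_univ v), h1, eq1 v hv, hΛe, hm, fac]
    push_cast
    ring
  have eq3 : ∀ v, ∑ i ∈ univ.erase v, x i = 1 - x v := fun v => by
    rw [← hx1, ← add_sum_erase _ _ (mem_univ v)]; ring
  have le1 : ∀ v, 0 < x v → x v + m v ≤ δ := by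
    intro v hv
    have h1 := EE_le hx (k + 1) (univ.erase v)
    have h0 : 0 ≤ ∑ i ∈ univ.erase v, x i := sum_nonneg fun i _ => hx i
    rw [eq3] at h1 h0
    have h2 : (1 - x v) ^ (k + 1) ≤ 1 - x v := pow_le_of_le_one h0 (by linarith) (by omega)
    linarith [eq2 v hv]
  have hX : x u ≤ δ := by linarith [le1 u hu0, hm0 u]
  have le2 : ∀ v, x v * m v ≤ x v * δ := fun v => by
    rcases (hx v).eq_or_lt with h | h
    · rw [← h, zero_mul, zero_mul]
    · exact mul_le_mul_of_nonneg_left (by linarith [le1 v h]) h.le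
  have hk' : (1 : ℝ) ≤ k := by exact_mod_cast hk
  have le3 : ∀ v, x v * (x u - x v) ≤ x v * m v := fun v => by
    rcases (hx v).eq_or_lt with h | h
    · rw [← h, zero_mul, zero_mul]
    refine mul_le_mul_of_nonneg_left ?_ h.le
    by_cases huv : u = v
    · rw [huv, sub_self]; exact hm0 v
    have s1 := EE_split k (mem_erase.2 ⟨huv, mem_univ u⟩) x
    have s2 := EE_split k (mem_erase.2 ⟨Ne.symm huv, mem_univ v⟩) x
    rw [erase_right_comm] at s2
    rw [eq2 v h] at s1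
    rw [eq2 u hu0] at s2
    have s3 := EE_succ_le hx k ((univ.erase v).erase u)
    have s4 : ∑ i ∈ (univ.erase v).erase u, x i ≤ 1 :=
      hx1 ▸ sum_le_sum_of_subset_of_nonneg (subset_univ _) fun i _ _ => hx i
    have s5 := EE_nonneg hx k ((univ.erase v).erase u)
    generalize EE k ((univ.erase v).erase u) x = E at *
    have s6 : 1 - δ ≤ E * (1 + (k + 1) * δ) := by
      nlinarith [hm0 v, mul_le_mul_of_nonneg_right s4 s5,
        mul_le_mul_of_nonneg_left (mul_le_mul_of_nonneg_right hX s5) (show (0 : ℝ) ≤ k + 1 by linarith)]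
    have s7 : 1 / 2 ≤ E := by
      by_contra hE
      have : 0 < 1 + (k + 1) * δ := by nlinarith
      nlinarith [mul_lt_mul_of_pos_right (not_le.1 hE) this]
    have s8 : 1 ≤ (k + 1) * E := by nlinarith
    nlinarith [hm0 u, mul_le_mul_of_nonneg_left s8 (sub_nonneg.2 (hu v (mem_univ v)))]
  have hM : ∑ e ∈ Ms, ww (k + 2) x e = ∑ v, x v * m v := by
    have h1 := sum_lk (s := univ) hMc (fun e _ => subset_univ e) x
    rw [sum_ww, hm, fac]
    simp only [mul_left_comm (x _)]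
    rw [← mul_sum, h1]
    push_cast
    ring
  refine ⟨x, x u, hx, hx1, hmax' y hy hy1, fun v => hu v (mem_univ v), hX, ?_, ?_, fun v => ?_⟩
  · rw [hM]
    exact sum_le_sum fun v _ => le3 v
  · rw [hM]
    refine (sum_le_sum fun v _ => le2 v).trans ?_
    rw [← sum_mul, hx1, one_mul]
  · have : wv Ms (ww (k + 2) x) v = (k + 2) * (x v * m v) := by
      unfold wv
      rw [sum_ww, ← mul_lk, hm, fac]
      ring
    rw [this]
    refine mul_le_mul_of_nonneg_left ((le2 v).trans ?_) (by linarith)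
    rw [sq]
    exact mul_le_mul_of_nonneg_right ((hu v (mem_univ v)).trans hX) (hu0.le.trans hX)

end Pool.Agent.H20.Lag
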