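import Pool.Agent.H20.Cyc3
import Pool.Agent.H20.Lag7

namespace Pool.Agent.H20.Lag

open Finset

variable {V : Type} [Fintype V] [DecidableEq V]

theorem link_ge {Γ : Finset (Finset V)} (hc : ∀ e ∈ Γ, e.card = 3) {x : V → ℝ} (hx : ∀ v, 0 ≤ x v)
    (hx1 : ∑ v, x v = 1) (z : V) :
    ∑ a, x a * wp x (fun b => ¬ ({a, z, b} : Finset V) ∈ Γ) ≤ 1 - 2 * lk Γ z x := by
  have h1 : ∑ a, x a * wp x (fun b => ¬ ({a, z, b} : Finset V) ∈ Γ) =
      1 - ∑ p ∈ univ.filter (fun p : V × V => ({p.1, z, p.2} : Finset V) ∈ Γ), x p.1 * x p.2 := by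
    have : (1 : ℝ) = ∑ p : V × V, x p.1 * x p.2 := by
      rw [Fintype.sum_prod_type, ← sum_mul_sum, hx1, mul_one]
    rw [this, sum_filter, ← sum_sub_distrib, Fintype.sum_prod_type]
    refine sum_congr rfl fun a _ => ?_
    rw [wp, mul_sum]
    refine sum_congr rfl fun b _ => ?_
    split_ifs with h
    · rw [ind_neg (not_not.2 h)]; ring
    · rw [ind_pos h]; ring
  rw [h1, ← sum_fiberwise_of_maps_to (t := Γ.filter fun e => z ∈ e)
    (g := fun p : V × V => ({p.1, z, p.2} : Finset V))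
    fun p hp => mem_filter.2 ⟨(mem_filter.1 hp).2, by simp⟩, lk, mul_sum]
  refine sub_le_sub_left (sum_le_sum fun e he => ?_) 1
  obtain ⟨h2, h3⟩ := mem_filter.1 he
  obtain ⟨a, b, hab, h4⟩ := card_eq_two.1
    (show (e.erase z).card = 2 by rw [card_erase_of_mem h3, hc e h2])
  have h5 : e = {z, a, b} := by rw [← h4, insert_erase h3]
  have k1 : ({a, z, b} : Finset V) = e := by rw [h5, insert_comm]
  have k2 : ({b, z, a} : Finset V) = e := by rw [h5, insert_comm, pair_comm]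
  refine le_trans (le_of_eq ?_) (sum_le_sum_of_subset_of_nonneg (s := {(a, b), (b, a)}) ?_
    fun p _ _ => mul_nonneg (hx _) (hx _))
  · rw [h4, prod_pair hab, sum_pair fun h => hab (Prod.mk.inj h).1]
    ring
  · intro p hp
    rcases mem_insert.1 hp with rfl | hp
    · simp [k1, h2]
    · rw [mem_singleton.1 hp]
      simp [k2, h2]

omit [Fintype V] in
theorem EE_two (s : Finset V) (y : V → ℝ) :
    EE 2 s y = (∑ v ∈ s, y v) ^ 2 - ∑ v ∈ s, y v ^ 2 := by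
  rw [EE_succ, sq, sum_mul, ← sum_sub_distrib]
  refine sum_congr rfl fun v hv => ?_
  rw [EE_succ]
  simp only [EE_zero, mul_one]
  rw [← add_sum_erase s y hv]
  ring

theorem EE_three {y : V → ℝ} (h : ∑ v, y v = 1) :
    EE 3 univ y = 1 - ∑ v, (3 * y v ^ 2 - 2 * y v ^ 3) := by
  have e : ∀ v, y v * EE 2 (univ.erase v) y =
      y v * (1 - ∑ v, y v ^ 2) - (2 * y v ^ 2 - 2 * y v ^ 3) := fun v => by
    have h1 := add_sum_erase univ y (mem_univ v)
    have h2 := add_sum_erase univ (fun v => y v ^ 2) (mem_univ v)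
    rw [EE_two, ← h2, show ∑ i ∈ univ.erase v, y i = 1 - y v by linarith]
    ring
  rw [EE_succ]
  simp only [e, sum_sub_distrib, ← sum_mul, ← mul_sum, h]
  ring

theorem cyc_main {Γ : Finset (Finset V)} (hc : ∀ e ∈ Γ, e.card = 3) {t : ℕ} [NeZero t]
    (ht : 2000000 ≤ t) (hfree : ¬ ∃ u w : ZMod t → V, Function.Injective u ∧
      Function.Injective w ∧ (∀ i j, u i ≠ w j) ∧ ∀ i, ({u i, w i, u (i + 1)} : Finset V) ∈ Γ)
    {a : ℝ} (ha : a * (2 * t - 1) = 1) {y : V → ℝ} (hy : ∀ v, 0 ≤ y v) (hy1 : ∑ v, y v = 1)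
    (hΛ : 1 - 3 * a + 2 * a ^ 2 ≤ 6 * pw Γ y) :
    6 * pw Γ y ≤ 1 - 3 * a + 2 * a ^ 2 ∧
      ∃ A : Finset V, A.card = 2 * t - 1 ∧ A.powersetCard 3 ⊆ Γ := by
  obtain ⟨x, ⟨hx, hx1⟩, hmax⟩ := (isCompact_stdSimplex ℝ V).exists_isMaxOn ⟨y, hy, hy1⟩
    (f := pw Γ) (Continuous.continuousOn (by unfold pw; fun_prop))
  have hmax' : ∀ y : V → ℝ, (∀ v, 0 ≤ y v) → ∑ v, y v = 1 → pw Γ y ≤ pw Γ x :=
    fun y h1 h2 => hmax (show y ∈ stdSimplex ℝ V from ⟨h1, h2⟩)
  have hyx := hmax' y hy hy1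
  have ht' : (2000000 : ℝ) ≤ t := by exact_mod_cast ht
  have ht0 : (0 : ℝ) < t := by linarith
  have ha0 : 0 < a := by
    by_contra h
    nlinarith [mul_nonneg (neg_nonneg.2 (not_lt.1 h)) (show (0 : ℝ) ≤ 2 * t - 1 by linarith)]
  have ha1 : a ≤ 1 / 1000000 := by nlinarith
  have ha2 : 3 * a ≤ 151 / 100 / t := by
    rw [le_div_iff₀ ht0]
    nlinarith
  have eq1 : ∀ v, 0 < x v → lk Γ v x = 3 * pw Γ x := by
    intro v hv
    have h1 := sum_lk (s := univ) hc (fun e _ => subset_univ e) x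
    have h2 : ∑ v, x v * ((2 + 1 : ℕ) * pw Γ x - lk Γ v x) = 0 := by
      simp only [mul_sub, sum_sub_distrib]
      rw [← sum_mul, hx1, h1, one_mul, sub_self]
    have h3 := (sum_eq_zero_iff_of_nonneg fun v _ => mul_nonneg (hx v)
      (sub_nonneg.2 (lk_le hc hx hx1 hmax' v))).1 h2 v (mem_univ v)
    rw [← sub_eq_zero.1 ((mul_eq_zero.1 h3).resolve_left hv.ne')]
    norm_num
  have sub : Γ ⊆ univ.powersetCard 3 := fun e he => mem_powersetCard.2 ⟨subset_univ _, hc e he⟩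
  obtain ⟨Z, hZ⟩ : ∃ Z, Z = univ.filter fun v => 0 < x v := ⟨_, rfl⟩
  have hZ' : ∀ v, v ∈ Z ↔ 0 < x v := by simp [hZ]
  have hn : Z.card < 2 * t := by
    by_contra h
    refine hfree (cyc_core hx hx1 (R := fun z a b => ({a, z, b} : Finset V) ∈ Γ)
      (fun z a b h => by rwa [insert_comm, pair_comm, insert_comm]) ht (fun z hz => ?_)
      (fun v => ?_) (hZ ▸ not_lt.1 h))
    · refine (link_ge hc hx hx1 z).trans ?_
      have : 151 / 100 / (t : ℝ) ≤ 2 / t := by gcongr; norm_num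
      rw [eq1 z hz]
      nlinarith [sq_nonneg a]
    · by_contra h
      have hb : (0 : ℝ) < 76 / 100 / t := by positivity
      have hv : 0 < x v := hb.trans (not_le.1 h)
      have h1 : lk Γ v x ≤ lk (univ.powersetCard 3) v x :=
        sum_le_sum_of_subset_of_nonneg (filter_subset_filter _ sub)
          fun e _ _ => prod_nonneg fun i _ => hx i
      have h2 := EE_le hx 2 (univ.erase v)
      have h3 := add_sum_erase univ x (mem_univ v)
      have h4 : 0 ≤ ∑ i ∈ univ.erase v, x i := sum_nonneg fun i _ => hx i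
      rw [lk_complete 2 (mem_univ v), eq1 v hv] at h1
      have h5 : (∑ i ∈ univ.erase v, x i) ^ 2 ≤ (1 - 76 / 100 / t) ^ 2 :=
        pow_le_pow_left₀ h4 (by linarith [not_le.1 h]) 2
      have h6 : EE 2 (univ.erase v) x = 2 * pw ((univ.erase v).powersetCard 2) x := by
        simp [EE]
      have h7 : 76 / 100 / (t : ℝ) ≤ 1 / 1000 := by
        rw [div_le_iff₀ ht0]; linarith
      have h8 : 151 / 100 / (t : ℝ) = 151 / 76 * (76 / 100 / t) := by ring
      nlinarith [sq_nonneg a]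
  have e1 : EE 3 univ x = 6 * pw Γ x + 6 * pw (univ.powersetCard 3 \ Γ) x := by
    rw [← mul_add]
    unfold EE pw
    rw [add_comm (∑ e ∈ Γ, _), sum_sdiff sub]
    norm_num [Nat.factorial]
  have hM : 0 ≤ pw (univ.powersetCard 3 \ Γ) x := pw_nonneg hx
  have zero : ∀ v, v ∉ Z → x v = 0 := fun v hv =>
    le_antisymm (not_lt.1 fun h => hv ((hZ' v).2 h)) (hx v)
  have s1 : ∑ v ∈ Z, x v = 1 := hx1 ▸ sum_subset (subset_univ Z) fun v _ hv => zero v hv
  have s2 : ∑ v ∈ Z, (3 * x v ^ 2 - 2 * x v ^ 3) = ∑ v, (3 * x v ^ 2 - 2 * x v ^ 3) :=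
    sum_subset (subset_univ Z) fun v _ hv => by simp [zero v hv]
  have s3 : ∑ v ∈ Z, ((6 * a - 6 * a ^ 2) * x v - (3 * a ^ 2 - 4 * a ^ 3)) ≤
      ∑ v ∈ Z, (3 * x v ^ 2 - 2 * x v ^ 3) := sum_le_sum fun v _ => by
    have : x v ≤ 1 := hx1 ▸ single_le_sum (fun v _ => hx v) (mem_univ v)
    nlinarith [mul_nonneg (sq_nonneg (x v - a)) (show 0 ≤ 3 - 2 * x v - 4 * a by linarith)]
  rw [sum_sub_distrib, ← mul_sum, s1, s2, sum_const, nsmul_eq_mul] at s3
  rw [EE_three hx1] at e1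
  have n1 : (Z.card : ℝ) ≤ 2 * t - 1 := by
    have : Z.card + 1 ≤ 2 * t := hn
    have : (Z.card : ℝ) + 1 ≤ 2 * t := by exact_mod_cast this
    linarith
  have p1 : 0 < 3 * a ^ 2 - 4 * a ^ 3 := by nlinarith [pow_pos ha0 2]
  have p2 : (2 * t - 1) * (3 * a ^ 2 - 4 * a ^ 3) = 3 * a - 4 * a ^ 2 := by
    calc _ = a * (2 * t - 1) * (3 * a - 4 * a ^ 2) := by ring
      _ = _ := by rw [ha, one_mul]
  have p3 := mul_le_mul_of_nonneg_right n1 p1.le
  refine ⟨by linarith, Z, ?_, fun e he => ?_⟩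
  · have h1 : 2 * (t : ℝ) - 1 ≤ Z.card := le_of_mul_le_mul_right (by linarith) p1
    have h2 : 2 * t ≤ Z.card + 1 := by exact_mod_cast (show 2 * (t : ℝ) ≤ Z.card + 1 by linarith)
    omega
  · by_contra h
    have h1 : pw (univ.powersetCard 3 \ Γ) x = 0 := by linarith
    have h2 := (sum_eq_zero_iff_of_nonneg fun e _ => prod_nonneg fun i _ => hx i).1 h1 e
      (mem_sdiff.2 ⟨mem_powersetCard.2 ⟨subset_univ _, (mem_powersetCard.1 he).2⟩, h⟩)
    exact (prod_pos fun i hi => (hZ' i).1 ((mem_powersetCard.1 he).1 hi)).ne' h2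

end Pool.Agent.H20.Lag
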