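import Pool.Agent.H20.DPDefs

namespace H20.DP

open Finset

def L (n : ℕ) : Finset (Finset ℕ) := (Icc 2 n).powerset.filter (fun A => n + 1 ≤ 2 * A.card)

lemma inter_two {n : ℕ} (hn : Odd n) {A B : Finset ℕ} (hA : A ⊆ Icc 2 n) (hB : B ⊆ Icc 2 n)
    (ha : n + 1 ≤ 2 * A.card) (hb : n + 1 ≤ 2 * B.card) : 2 ≤ (A ∩ B).card := by
  have h1 := card_union_add_card_inter A B
  have h2 : (A ∪ B).card ≤ (Icc 2 n).card := card_le_card (union_subset hA hB)
  rw [Nat.card_Icc] at h2
  obtain ⟨k, rfl⟩ := hn
  omega

lemma sdiff_eq (n : ℕ) : Icc 1 n \ {1} = Icc 2 n := by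
  ext x; simp only [mem_sdiff, mem_Icc, mem_singleton]; omega

lemma mem_Fam {n : ℕ} (hn : Odd n) {A : Finset ℕ} :
    A ∈ Fam n 1 ↔ A ⊆ Icc 1 n ∧ n + 1 ≤ 2 * (A ∩ Icc 2 n).card := by
  have : ¬ Odd (n + 1) := by
    rw [Nat.not_odd_iff_even]; exact hn.add_one
  simp only [Fam, this, if_false, mem_filter, mem_powerset, sdiff_eq]

lemma Fam_card {n : ℕ} (hn : Odd n) : (Fam n 1).card ≤ 2 * (L n).card := by
  have h : Fam n 1 ⊆ L n ∪ (L n).image (insert 1) := by
    intro A hA
    rw [mem_Fam hn] at hA
    have hm : A ∩ Icc 2 n ∈ L n := by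
      simp only [L, mem_filter, mem_powerset]
      exact ⟨inter_subset_right, hA.2⟩
    by_cases h1 : 1 ∈ A
    · refine mem_union_right _ (mem_image.2 ⟨_, hm, ?_⟩)
      ext x
      simp only [mem_insert, mem_inter, mem_Icc]
      constructor
      · rintro (rfl | h); exacts [h1, h.1]
      · intro hx
        have := mem_Icc.1 (hA.1 hx)
        by_cases hx1 : x = 1
        · exact Or.inl hx1
        · exact Or.inr ⟨hx, by omega, this.2⟩
    · refine mem_union_left _ ?_
      have : A ∩ Icc 2 n = A := by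
        ext x
        simp only [mem_inter, mem_Icc]
        constructor
        · exact fun h => h.1
        · intro hx
          have := mem_Icc.1 (hA.1 hx)
          have : x ≠ 1 := fun h => h1 (h ▸ hx)
          exact ⟨hx, by omega, by omega⟩
      rwa [this] at hm
  have h2 := card_le_card h
  have h3 := card_union_le (L n) ((L n).image (insert 1))
  have h4 : ((L n).image (insert 1)).card ≤ (L n).card := card_image_le
  omega

lemma d_Fstar {n : ℕ} (hn : Odd n) : d (Fstar n 1) ≤ (Fam n 1).card := by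
  have key : ∀ A ∈ Fstar n 1, A = ∅ ∨ A ∈ Fam n 1 := by
    intro A hA
    rcases mem_union.1 hA with h | h
    · exact Or.inr h
    · left
      have := (mem_filter.1 h).2
      exact card_eq_zero.1 (by omega)
  have h : ((Fstar n 1).powersetCard 2).filter (fun P => ∀ A ∈ P, ∀ B ∈ P, A ≠ B → A ∩ B = ∅)
      ⊆ (Fam n 1).image (fun A => ({∅, A} : Finset (Finset ℕ))) := by
    intro P hP
    obtain ⟨hP1, hP2⟩ := mem_filter.1 hP
    obtain ⟨hs, hc⟩ := mem_powersetCard.1 hP1
    obtain ⟨A, B, hAB, rfl⟩ := card_eq_two.1 hc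
    have hA := key A (hs (by simp))
    have hB := key B (hs (by simp))
    have hd := hP2 A (by simp) B (by simp) hAB
    rcases hA with rfl | hA
    · rcases hB with rfl | hB
      · exact absurd rfl hAB
      · exact mem_image.2 ⟨B, hB, rfl⟩
    · rcases hB with rfl | hB
      · exact mem_image.2 ⟨A, hA, pair_comm _ _⟩
      · exfalso
        rw [mem_Fam hn] at hA hB
        have := inter_two hn inter_subset_right inter_subset_right hA.2 hB.2
        have h0 : A ∩ Icc 2 n ∩ (B ∩ Icc 2 n) ⊆ A ∩ B :=
          inter_subset_inter inter_subset_left inter_subset_left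
        have := card_le_card h0
        rw [hd] at this
        simp only [card_empty] at this
        omega
  exact (card_le_card h).trans card_image_le

def G (n : ℕ) : Finset (Finset ℕ) := insert ∅ (insert {1} (L n))

lemma L_facts {n : ℕ} {A : Finset ℕ} (hA : A ∈ L n) : A ≠ ∅ ∧ A ≠ {1} ∧ 1 ∉ A := by
  obtain ⟨h1, h2⟩ := mem_filter.1 hA
  have h1 := mem_powerset.1 h1
  have h3 : 1 ∉ A := fun h => by have := mem_Icc.1 (h1 h); omega
  refine ⟨?_, ?_, h3⟩
  · rintro rfl; simp at h2
  · rintro rfl; simp at h3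

lemma G_sub {n : ℕ} (hn : Odd n) : G n ⊆ (Icc 1 n).powerset := by
  intro A hA
  simp only [G, mem_insert] at hA
  rw [mem_powerset]
  rcases hA with rfl | rfl | hA
  · simp
  · have := hn.pos
    simp only [singleton_subset_iff, mem_Icc]; omega
  · have h1 := mem_powerset.1 (mem_filter.1 hA).1
    exact h1.trans (Icc_subset_Icc_left (by norm_num))

lemma G_avoid {n : ℕ} (hn : Odd n) : Avoiding 1 (G n) := by
  intro A hA B hB hAB
  simp only [G, mem_insert] at hA hB
  rcases hA with rfl | rfl | hA
  · simp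
  · rcases hB with rfl | rfl | hB
    · simp
    · exact absurd rfl hAB
    · rw [singleton_inter_of_notMem (L_facts hB).2.2]; simp
  · rcases hB with rfl | rfl | hB
    · simp
    · rw [inter_singleton_of_notMem (L_facts hA).2.2]; simp
    · have := inter_two hn (mem_powerset.1 (mem_filter.1 hA).1) (mem_powerset.1 (mem_filter.1 hB).1)
        (mem_filter.1 hA).2 (mem_filter.1 hB).2
      omega

lemma d_G (n : ℕ) : 2 * (L n).card + 1 ≤ d (G n) := by
  have pair_ok : ∀ A ∈ G n, ∀ B ∈ G n, A ≠ B → A ∩ B = ∅ → ({A, B} : Finset (Finset ℕ)) ∈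
      ((G n).powersetCard 2).filter (fun P => ∀ A ∈ P, ∀ B ∈ P, A ≠ B → A ∩ B = ∅) := by
    intro A hA B hB hAB hd
    refine mem_filter.2 ⟨mem_powersetCard.2 ⟨?_, card_pair hAB⟩, ?_⟩
    · intro x hx
      simp only [mem_insert, mem_singleton] at hx
      rcases hx with rfl | rfl <;> assumption
    · intro x hx y hy hxy
      simp only [mem_insert, mem_singleton] at hx hy
      rcases hx with rfl | rfl <;> rcases hy with rfl | rfl
      · exact absurd rfl hxy
      · exact hd
      · rw [inter_comm]; exact hd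
      · exact absurd rfl hxy
  set X := (L n).image (fun A => ({∅, A} : Finset (Finset ℕ))) with hX
  set Y := (L n).image (fun A => ({{1}, A} : Finset (Finset ℕ))) with hY
  have hXc : X.card = (L n).card := by
    apply card_image_of_injOn
    intro A hA B hB h
    have h' : ({∅, A} : Finset (Finset ℕ)) = {∅, B} := h
    have : A ∈ ({∅, B} : Finset (Finset ℕ)) := h' ▸ (by simp)
    simp only [mem_insert, mem_singleton] at this
    exact this.resolve_left (L_facts hA).1
  have hYc : Y.card = (L n).card := by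
    apply card_image_of_injOn
    intro A hA B hB h
    have h' : ({{1}, A} : Finset (Finset ℕ)) = {{1}, B} := h
    have : A ∈ ({{1}, B} : Finset (Finset ℕ)) := h' ▸ (by simp)
    simp only [mem_insert, mem_singleton] at this
    exact this.resolve_left (L_facts hA).2.1
  have hXY : Disjoint X Y := by
    rw [disjoint_left]
    intro P hP hQ
    obtain ⟨A, hA, rfl⟩ := mem_image.1 hP
    obtain ⟨B, hB, h⟩ := mem_image.1 hQ
    have : (∅ : Finset ℕ) ∈ ({{1}, B} : Finset (Finset ℕ)) := h ▸ (by simp)
    simp only [mem_insert, mem_singleton] at this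
    rcases this with h | h
    · simp at h
    · exact (L_facts hB).1 h.symm
  have hn : ({∅, {1}} : Finset (Finset ℕ)) ∉ X ∪ Y := by
    intro h
    rcases mem_union.1 h with h | h
    · obtain ⟨A, hA, h⟩ := mem_image.1 h
      have : A ∈ ({∅, {1}} : Finset (Finset ℕ)) := h ▸ (by simp)
      simp only [mem_insert, mem_singleton] at this
      rcases this with h | h
      exacts [(L_facts hA).1 h, (L_facts hA).2.1 h]
    · obtain ⟨A, hA, h⟩ := mem_image.1 h
      have : A ∈ ({∅, {1}} : Finset (Finset ℕ)) := h ▸ (by simp)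
      simp only [mem_insert, mem_singleton] at this
      rcases this with h | h
      exacts [(L_facts hA).1 h, (L_facts hA).2.1 h]
  have hsub : insert ({∅, {1}} : Finset (Finset ℕ)) (X ∪ Y) ⊆
      ((G n).powersetCard 2).filter (fun P => ∀ A ∈ P, ∀ B ∈ P, A ≠ B → A ∩ B = ∅) := by
    intro P hP
    rcases mem_insert.1 hP with rfl | hP
    · exact pair_ok _ (by simp [G]) _ (by simp [G]) (by simp) (by simp)
    · rcases mem_union.1 hP with h | h
      · obtain ⟨A, hA, rfl⟩ := mem_image.1 h
        exact pair_ok _ (by simp [G]) _ (by simp [G, hA]) (L_facts hA).1.symm (by simp)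
      · obtain ⟨A, hA, rfl⟩ := mem_image.1 h
        exact pair_ok _ (by simp [G]) _ (by simp [G, hA]) (L_facts hA).2.1.symm
          (singleton_inter_of_notMem (L_facts hA).2.2)
  have := card_le_card hsub
  rw [card_insert_of_notMem hn, card_union_of_disjoint hXY] at this
  unfold d
  omega

theorem main (n : ℕ) (hn : Odd n) :
    ∃ F ⊆ (Icc 1 n).powerset, Avoiding 1 F ∧ d (Fstar n 1) < d F := by
  refine ⟨G n, G_sub hn, G_avoid hn, ?_⟩
  have := d_G n
  have := d_Fstar hn
  have := Fam_card hn
  omega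

end H20.DP
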