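import Mathlib

namespace H20.DP

open Finset

/-- `F` is `t`-avoiding: distinct members never meet in exactly `t` points. -/
def Avoiding (t : ℕ) (F : Finset (Finset ℕ)) : Prop :=
  ∀ A ∈ F, ∀ B ∈ F, A ≠ B → (A ∩ B).card ≠ t

/-- `d(F)`: the number of unordered pairs of distinct, disjoint members of `F`. -/
def d (F : Finset (Finset ℕ)) : ℕ :=
  ((F.powersetCard 2).filter (fun P => ∀ A ∈ P, ∀ B ∈ P, A ≠ B → A ∩ B = ∅)).card

/-- The family `F(n,t)` of subsets of `[n] = {1,…,n}`. -/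
def Fam (n t : ℕ) : Finset (Finset ℕ) :=
  if Odd (n + t) then (Icc 1 n).powerset.filter (fun A => n + t + 1 ≤ 2 * A.card)
  else (Icc 1 n).powerset.filter (fun A => n + t ≤ 2 * (A ∩ (Icc 1 n \ {1})).card)

/-- The family `F*(n,t) = F(n,t) ∪ [n]^(≤ t-1)`. -/
def Fstar (n t : ℕ) : Finset (Finset ℕ) :=
  Fam n t ∪ (Icc 1 n).powerset.filter (fun A => A.card + 1 ≤ t)

end H20.DP
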