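import Pool.Agent.H20.EOrdDefs
import Pool.Agent.H7.Veto

namespace Pool.Agent.H20.EOrd
open SimpleGraph

def Can (V : ℕ → ℕ → ℕ) (n : ℕ) (R : ℕ → ℕ → ℕ → ℕ → Prop) : Prop :=
  ∀ p q p' q', p < q → q < n → p' < q' → q' < n → R p q p' q' → V p q < V p' q'

def Tri (V : ℕ → ℕ → ℕ) (n : ℕ) : Prop :=
  Can V n (fun p q p' q' => p < p' ∨ (p = p' ∧ q < q')) ∨
  Can V n (fun p q p' q' => p < p' ∨ (p = p' ∧ q' < q)) ∨ Can V n (fun _ q _ q' => q < q')

def All (M : ℕ) (R : ℕ → ℕ → ℕ → ℕ → Prop) : Prop :=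
  ∀ a b c d, a < b → b < c → c < d → d < M → R a b c d

theorem core (U : ℕ → ℕ → ℕ) (n : ℕ) (D : All (3 * n + 3) fun a b c d => U a b < U c d)
    (Z : (All (3 * n + 3) fun a b c d => U a d < U b c) ∨
      All (3 * n + 3) fun a b c d => U b c < U a d)
    (A : (All (3 * n + 3) fun a b c _ => U a b < U a c) ∨
      All (3 * n + 3) fun a b c _ => U a c < U a b) :
    Tri (fun p q => U (3 * p) (3 * q)) n := by
  rcases Z with Z | Z
  · have k : ∀ p q p' q', p < q → q < n → p' < q' → q' < n → p < p' →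
        U (3 * p) (3 * q) < U (3 * p') (3 * q') := fun p q p' q' a b c d e =>
      (Z (3 * p) (3 * p + 1) (3 * p + 2) (3 * q) (by omega) (by omega) (by omega) (by omega)).trans
        (D (3 * p + 1) (3 * p + 2) (3 * p') (3 * q') (by omega) (by omega) (by omega) (by omega))
    rcases A with A | A
    · refine .inl fun p q p' q' a b c d e => ?_
      rcases e with e | ⟨rfl, e⟩
      · exact k _ _ _ _ a b c d e
      · exact A (3 * p) (3 * q) (3 * q') (3 * q' + 1) (by omega) (by omega) (by omega) (by omega)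
    · refine .inr (.inl fun p q p' q' a b c d e => ?_)
      rcases e with e | ⟨rfl, e⟩
      · exact k _ _ _ _ a b c d e
      · exact A (3 * p) (3 * q') (3 * q) (3 * q + 1) (by omega) (by omega) (by omega) (by omega)
  · refine .inr (.inr fun p q p' q' a b c d e => ?_)
    refine (D (3 * p) (3 * q) (3 * q + 1) (3 * q + 2) (by omega) (by omega) (by omega)
      (by omega)).trans ?_
    by_cases h : p' ≤ q
    · exact Z (3 * p') (3 * q + 1) (3 * q + 2) (3 * q') (by omega) (by omega) (by omega) (by omega)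
    · exact D (3 * q + 1) (3 * q + 2) (3 * p') (3 * q') (by omega) (by omega) (by omega) (by omega)

theorem canon (n : ℕ) : ∃ N, ∀ w : Sym2 ℕ → ℕ,
    (∀ a b c d, a < N → b < N → c < N → d < N → a ≠ b → c ≠ d → w s(a, b) = w s(c, d) →
      s(a, b) = s(c, d)) →
    ∃ g : ℕ → ℕ, (∀ p < n, g p < N) ∧ (∀ p < n, ∀ q < n, g p = g q → p = q) ∧
      Tri (fun p q => w s(g p, g q)) n := by
  classical
  obtain ⟨N, hN⟩ := H7.Veto.hom (Prop × Prop × Prop × Prop) 4 (3 * n + 3)
  refine ⟨N, fun w hw => ?_⟩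
  obtain ⟨τ, h1, h2, h3⟩ := hN fun f => (w s(f 0, f 1) < w s(f 2, f 3),
    w s(f 0, f 3) < w s(f 1, f 2), w s(f 0, f 1) < w s(f 0, f 2), w s(f 2, f 3) < w s(f 1, f 3))
  have inj : ∀ a b, a < 3 * n + 3 → b < 3 * n + 3 → τ a = τ b → a = b := fun a b ha hb e => by
    rcases lt_trichotomy a b with h | h | h
    · exact absurd e (h1 a b h hb).ne
    · exact h
    · exact absurd e (h1 b a h ha).ne'
  have tot : ∀ a b c d, a < 3 * n + 3 → b < 3 * n + 3 → c < 3 * n + 3 → d < 3 * n + 3 → a ≠ b →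
      c ≠ d → ¬ (a = c ∧ b = d) → ¬ (a = d ∧ b = c) → ¬ w s(τ a, τ b) < w s(τ c, τ d) →
      w s(τ c, τ d) < w s(τ a, τ b) := fun a b c d ha hb hc hd ab cd n1 n2 h => by
    refine lt_of_le_of_ne (not_lt.1 h) fun e => ?_
    rcases Sym2.eq_iff.1 (hw _ _ _ _ (h2 _ ha) (h2 _ hb) (h2 _ hc) (h2 _ hd)
      (fun e => ab (inj _ _ ha hb e)) (fun e => cd (inj _ _ hc hd e)) e.symm) with k | k
    · exact n1 ⟨inj _ _ ha hc k.1, inj _ _ hb hd k.2⟩
    · exact n2 ⟨inj _ _ ha hd k.1, inj _ _ hb hc k.2⟩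
  obtain ⟨δ, ζ, α, γ, H⟩ : ∃ δ ζ α γ : Prop, All (3 * n + 3) fun a b c d =>
      (w s(τ a, τ b) < w s(τ c, τ d) ↔ δ) ∧ (w s(τ a, τ d) < w s(τ b, τ c) ↔ ζ) ∧
      (w s(τ a, τ b) < w s(τ a, τ c) ↔ α) ∧ (w s(τ c, τ d) < w s(τ b, τ d) ↔ γ) := by
    by_cases hn : n = 0
    · exact ⟨True, True, True, True, fun a b c d _ _ _ _ => by omega⟩
    refine ⟨w s(τ 0, τ 1) < w s(τ 2, τ 3), w s(τ 0, τ 3) < w s(τ 1, τ 2),
      w s(τ 0, τ 1) < w s(τ 0, τ 2), w s(τ 2, τ 3) < w s(τ 1, τ 3), fun a b c d x y z t => ?_⟩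
    have := h3 ![a, b, c, d] ![0, 1, 2, 3]
      (Fin.strictMono_iff_lt_succ.2 fun i => by fin_cases i <;> simpa) (by decide)
      (fun i => by fin_cases i <;> simp <;> omega) (fun i => by fin_cases i <;> simp <;> omega)
    simpa using this
  by_cases hδ : δ
  · refine ⟨fun p => τ (3 * p), fun p hp => h2 _ (by omega),
      fun p hp q hq e => by have := inj _ _ (by omega) (by omega) e; omega,
      core (fun a b => w s(τ a, τ b)) n (fun a b c d x y z t => (H a b c d x y z t).1.2 hδ) ?_ ?_⟩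
    · by_cases h : ζ
      · exact .inl fun a b c d x y z t => (H a b c d x y z t).2.1.2 h
      · exact .inr fun a b c d x y z t => tot _ _ _ _ (by omega) (by omega) (by omega) (by omega)
          (by omega) (by omega) (by omega) (by omega) fun k => h ((H a b c d x y z t).2.1.1 k)
    · by_cases h : α
      · exact .inl fun a b c d x y z t => (H a b c d x y z t).2.2.1.2 h
      · exact .inr fun a b c d x y z t => tot _ _ _ _ (by omega) (by omega) (by omega) (by omega)
          (by omega) (by omega) (by omega) (by omega) fun k => h ((H a b c d x y z t).2.2.1.1 k)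
  · have H' := fun a b c d (x : a < b) (y : b < c) (z : c < d) (t : d < 3 * n + 3) =>
      H (3 * n + 2 - d) (3 * n + 2 - c) (3 * n + 2 - b) (3 * n + 2 - a) (by omega) (by omega)
        (by omega) (by omega)
    refine ⟨fun p => τ (3 * n + 2 - 3 * p), fun p hp => h2 _ (by omega),
      fun p hp q hq e => by have := inj _ _ (by omega) (by omega) e; omega,
      core (fun a b => w s(τ (3 * n + 2 - a), τ (3 * n + 2 - b))) n (fun a b c d x y z t => ?_)
        ?_ ?_⟩
    · refine tot _ _ _ _ (by omega) (by omega) (by omega) (by omega)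
        (by omega) (by omega) (by omega) (by omega) fun k => hδ ((H' a b c d x y z t).1.1 ?_)
      rwa [Sym2.eq_swap, Sym2.eq_swap (a := τ (3 * n + 2 - b))]
    · by_cases h : ζ
      · refine .inl fun a b c d x y z t => ?_
        have := (H' a b c d x y z t).2.1.2 h
        rwa [Sym2.eq_swap, Sym2.eq_swap (a := τ (3 * n + 2 - c))] at this
      · refine .inr fun a b c d x y z t => tot _ _ _ _ (by omega) (by omega) (by omega) (by omega)
          (by omega) (by omega) (by omega) (by omega) fun k => h ((H' a b c d x y z t).2.1.1 ?_)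
        rwa [Sym2.eq_swap, Sym2.eq_swap (a := τ (3 * n + 2 - c))]
    · by_cases h : γ
      · refine .inl fun a b c d x y z t => ?_
        have := (H' a b c d x y z t).2.2.2.2 h
        rwa [Sym2.eq_swap, Sym2.eq_swap (a := τ (3 * n + 2 - c))] at this
      · refine .inr fun a b c d x y z t => tot _ _ _ _ (by omega) (by omega) (by omega) (by omega)
          (by omega) (by omega) (by omega) (by omega) fun k => h ((H' a b c d x y z t).2.2.2.1 ?_)
        rwa [Sym2.eq_swap, Sym2.eq_swap (a := τ (3 * n + 2 - c))]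

def rk (m i : ℕ) : ℕ :=
  if i + 1 = m then 1 else if i + 2 = m then 3 else if i < m then 2 * (m - 1 - i)
  else if i = m then 2 else 2 * (i - m) + 3

def lab (m k : ℕ) : Sym2 (Fin k) → ℕ :=
  Sym2.lift ⟨fun a b => rk m (min a.1 b.1), fun a b => by simp only [min_comm]⟩

theorem edge {k : ℕ} {e : Sym2 (Fin k)} (h : e ∈ (pathGraph k).edgeSet) :
    ∃ a b : Fin k, a.1 + 1 = b.1 ∧ e = s(a, b) := by
  induction e using Sym2.ind with
  | _ a b =>
    rcases pathGraph_adj.1 h with h | h
    · exact ⟨a, b, h, rfl⟩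
    · exact ⟨b, a, h, Sym2.eq_swap⟩

theorem lab_eq {m k : ℕ} {a b : Fin k} (h : a.1 + 1 = b.1) : lab m k s(a, b) = rk m a.1 := by
  simp only [lab, Sym2.lift_mk]
  rw [min_eq_left (by omega)]

theorem lab_inj (m k : ℕ) : Set.InjOn (lab m k) (pathGraph k).edgeSet := fun e he e' he' h => by
  obtain ⟨a, b, x, rfl⟩ := edge he
  obtain ⟨c, d, y, rfl⟩ := edge he'
  rw [lab_eq x, lab_eq y] at h
  have : a.1 = c.1 := by
    unfold rk at h
    split_ifs at h <;> omega
  rw [Fin.ext this, Fin.ext (show b.1 = d.1 by omega)]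

theorem emb {N n m k : ℕ} (h : Sym2 (Fin (N + 1)) → ℕ) (g : ℕ → ℕ) (g1 : ∀ p < n, g p < N)
    (g2 : ∀ p < n, ∀ q < n, g p = g q → p = q) (R : ℕ → ℕ → ℕ → ℕ → Prop)
    (hc : Can (fun p q => h (Sym2.map (Fin.ofNat (N + 1)) s(g p, g q))) n R) (π : ℕ → ℕ)
    (p1 : ∀ x < k, π x < n) (p2 : ∀ x < k, ∀ y < k, π x = π y → x = y)
    (p3 : ∀ i j, i + 1 < k → j + 1 < k → rk m i < rk m j → R (min (π i) (π (i + 1)))
      (max (π i) (π (i + 1))) (min (π j) (π (j + 1))) (max (π j) (π (j + 1)))) :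
    Contains ⊤ h (pathGraph k) (lab m k) := by
  have inj : Function.Injective fun x : Fin k => Fin.ofNat (N + 1) (g (π x.1)) := fun x y e => by
    have e' := congrArg Fin.val e
    have a := g1 _ (p1 _ x.2)
    have b := g1 _ (p1 _ y.2)
    simp only [Fin.ofNat, Nat.mod_eq_of_lt (a.trans N.lt_succ_self),
      Nat.mod_eq_of_lt (b.trans N.lt_succ_self)] at e'
    exact Fin.ext (p2 _ x.2 _ y.2 (g2 _ (p1 _ x.2) _ (p1 _ y.2) e'))
  refine ⟨_, inj, fun u v uv => inj.ne uv.ne, fun e he e' he' lt => ?_⟩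
  obtain ⟨a, b, x, rfl⟩ := edge he
  obtain ⟨c, d, y, rfl⟩ := edge he'
  rw [lab_eq x, lab_eq y] at lt
  have mm : ∀ p q : ℕ, s(g (min p q), g (max p q)) = s(g p, g q) := fun p q => by
    rcases le_total p q with h | h
    · rw [min_eq_left h, max_eq_right h]
    · rw [min_eq_right h, max_eq_left h, Sym2.eq_swap]
  have n1 := mt (p2 _ a.2 _ b.2) (by omega)
  have n2 := mt (p2 _ c.2 _ d.2) (by omega)
  have := p3 a.1 c.1 (by omega) (by omega) lt
  rw [x, y] at this
  have := hc _ _ _ _ (by omega) (max_lt (p1 _ a.2) (p1 _ b.2)) (by omega)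
    (max_lt (p1 _ c.2) (p1 _ d.2)) this
  simp only [mm] at this
  exact this

theorem finite (m k : ℕ) (hm : 3 ≤ m) (hk : k + 1 = 2 * m) : ocn (pathGraph k) (lab m k) < ⊤ := by
  obtain ⟨N, hN⟩ := canon (4 * m + 1)
  refine lt_of_le_of_lt (iInf_le_of_le (N + 1) (iInf_le_of_le ⊤ (iInf_le _ fun h hi => ?_))) ?_
  · obtain ⟨g, g1, g2, hc⟩ := hN (fun e => h (e.map (Fin.ofNat (N + 1))))
      fun a b c d ha hb hc hd ab cd e => by
        have ne : ∀ a b, a < N → b < N → Fin.ofNat (N + 1) a = Fin.ofNat (N + 1) b → a = b :=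
          fun a b ha hb e => by
            simpa [Fin.ofNat, Nat.mod_eq_of_lt (ha.trans N.lt_succ_self),
              Nat.mod_eq_of_lt (hb.trans N.lt_succ_self)] using e
        have := hi (x₁ := s(_, _)) (x₂ := s(_, _)) (mt (ne a b ha hb) ab) (mt (ne c d hc hd) cd) e
        rcases Sym2.eq_iff.1 this with k | k
        · rw [ne _ _ ha hc k.1, ne _ _ hb hd k.2]
        · rw [ne _ _ ha hd k.1, ne _ _ hb hc k.2, Sym2.eq_swap]
    rcases hc with hc | hc | hc
    · refine emb h g g1 g2 _ hc (fun x => if x = m then 0 else if x + 1 = m then 3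
        else if x < m then 2 * (m - x) else 2 * (x - m) + 3) (fun x hx => ?_)
        (fun x hx y hy e => ?_) fun i j hi hj lt => ?_
      · split_ifs <;> omega
      · split_ifs at e <;> omega
      · unfold rk at lt
        split_ifs at lt ⊢ <;> omega
    · refine emb h g g1 g2 _ hc (fun x => if x = m then 0 else if x + 1 = m then 4 * m
        else if x < m then 2 * (m - x) else 2 * (x - m) + 3) (fun x hx => ?_)
        (fun x hx y hy e => ?_) fun i j hi hj lt => ?_
      · split_ifs <;> omega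
      · split_ifs at e <;> omega
      · unfold rk at lt
        split_ifs at lt ⊢ <;> omega
    · refine emb h g g1 g2 _ hc (fun x => if x = m then 0 else if x < m then rk m x
        else rk m (x - 1)) (fun x hx => ?_) (fun x hx y hy e => ?_) fun i j hi hj lt => ?_
      · unfold rk
        split_ifs <;> omega
      · unfold rk at e
        split_ifs at e <;> omega
      · have k : ∀ i, max (if i = m then 0 else if i < m then rk m i else rk m (i - 1))
            (if i + 1 = m then 0 else if i + 1 < m then rk m (i + 1) else rk m (i + 1 - 1)) =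
            rk m i := fun i => by
          unfold rk
          split_ifs <;> omega
        rwa [k, k]
  · rw [chromaticNumber_top]
    exact ENat.natCast_lt_top _

theorem avoid {n j : ℕ} (H : SimpleGraph (Fin n)) (hH : H.Colorable (2 ^ j)) :
    ∃ h : Sym2 (Fin n) → ℕ, Set.InjOn h H.edgeSet ∧
      ¬ Contains H h (pathGraph (4 * j + 5)) (lab (2 * j + 3) _) := by
  classical
  obtain ⟨c⟩ := hH
  have ex : ∀ e : Sym2 (Fin n), ∃ t : ℕ × Fin n × Fin n, e ∈ H.edgeSet → t.1 < j ∧
      e = s(t.2.1, t.2.2) ∧ (c t.2.1).1.testBit t.1 = false ∧ (c t.2.2).1.testBit t.1 = true := by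
    intro e
    induction e using Sym2.ind with
    | _ a b =>
      by_cases ab : H.Adj a b
      · have ne : (c a).1 ≠ (c b).1 := fun e => c.valid ab (Fin.ext e)
        obtain ⟨i, hi⟩ := Nat.exists_testBit_ne_of_ne ne
        have ij : i < j := by
          by_contra k
          have l := Nat.pow_le_pow_right (show 0 < 2 by omega) (not_lt.1 k)
          rw [Nat.testBit_lt_two_pow ((c a).2.trans_le l),
            Nat.testBit_lt_two_pow ((c b).2.trans_le l)] at hi
          exact hi rfl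
        cases k : (c a).1.testBit i
        · exact ⟨(i, a, b), fun _ => ⟨ij, rfl, k, by simpa [k] using hi⟩⟩
        · exact ⟨(i, b, a), fun _ => ⟨ij, Sym2.eq_swap, by simpa [k] using hi, k⟩⟩
      · exact ⟨(0, a, b), fun h => absurd h ab⟩
  choose t ht using ex
  have lex : ∀ a b x y : ℕ, x < n → y < n → a * n + x < b * n + y → a < b ∨ (a = b ∧ x < y) :=
    fun a b x y hx hy h => by
      rcases lt_trichotomy a b with k | k | k
      · exact .inl k
      · subst k
        exact .inr ⟨rfl, by omega⟩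
      · have := Nat.mul_le_mul_right n (show b + 1 ≤ a from k)
        rw [add_mul] at this
        omega
  have leq : ∀ a b x y : ℕ, x < n → y < n → a * n + x = b * n + y → a = b ∧ x = y :=
    fun a b x y hx hy h => by
      have h1 := lex a b x y hx hy
      have h2 := congrArg (· % n) h
      simp only [Nat.mul_add_mod', Nat.mod_eq_of_lt hx, Nat.mod_eq_of_lt hy] at h2
      subst h2
      exact ⟨Nat.eq_of_mul_eq_mul_right (by omega) (Nat.add_right_cancel h), rfl⟩
  refine ⟨fun e => ((t e).1 * n + (t e).2.1.1) * n + (t e).2.2.1, fun e he e' he' h => ?_,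
    fun ⟨φ, inj, adj, ord⟩ => ?_⟩
  · obtain ⟨h1, h2⟩ := leq _ _ _ _ (t e).2.2.2 (t e').2.2.2 h
    obtain ⟨-, h3⟩ := leq _ _ _ _ (t e).2.1.2 (t e').2.1.2 h1
    rw [(ht e he).2.1, (ht e' he').2.1, Fin.ext h2, Fin.ext h3]
  let v : ℕ → Fin (4 * j + 5) := Fin.ofNat _
  have hv : ∀ i < 4 * j + 5, (v i).1 = i := fun i hi => Nat.mod_eq_of_lt hi
  let T : ℕ → ℕ × Fin n × Fin n := fun i => t s(φ (v i), φ (v (i + 1)))
  have pe : ∀ i, i + 1 < 4 * j + 5 → (pathGraph _).Adj (v i) (v (i + 1)) := fun i hi =>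
    pathGraph_adj.2 (.inl (by rw [hv _ hi, hv _ (by omega)]))
  have hT := fun i hi => ht s(φ (v i), φ (v (i + 1))) (adj _ _ (pe i hi))
  have mono : ∀ i i', i + 1 < 4 * j + 5 → i' + 1 < 4 * j + 5 → rk (2 * j + 3) i < rk (2 * j + 3) i' →
      (T i).1 < (T i').1 ∨ ((T i).1 = (T i').1 ∧ (T i).2.1.1 ≤ (T i').2.1.1) := by
    intro i i' hi hi' lt
    have := ord s(v i, v (i + 1)) (pe i hi) s(v i', v (i' + 1)) (pe i' hi') (by
      rwa [lab_eq (by rw [hv _ hi, hv _ (by omega)]), lab_eq (by rw [hv _ hi', hv _ (by omega)]),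
        hv _ (by omega), hv _ (by omega)])
    rcases lex _ _ _ _ (T i).2.2.2 (T i').2.2.2 this with k | k
    · exact (lex _ _ _ _ (T i).2.1.2 (T i').2.1.2 k).imp_right fun k => ⟨k.1, k.2.le⟩
    · obtain ⟨k1, k2⟩ := leq _ _ _ _ (T i).2.1.2 (T i').2.1.2 k.1
      exact .inr ⟨k1, k2.le⟩
  have zz : ∀ i, i + 1 < 4 * j + 5 → ∀ x, x = i ∨ x = i + 1 →
      ((T i).2.1 = φ (v x) ↔ (c (φ (v x))).1.testBit (T i).1 = false) := by
    intro i hi x hx
    obtain ⟨-, e, b0, b1⟩ := hT i hi
    refine ⟨fun k => k ▸ b0, fun k => ?_⟩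
    have : φ (v x) ∈ s(φ (v i), φ (v (i + 1))) := by rcases hx with rfl | rfl <;> simp
    rw [e, Sym2.mem_iff] at this
    rcases this with l | l
    · exact l.symm
    · rw [l] at k
      exact absurd (k.symm.trans b1) (by decide)
  have ze : ∀ i, i + 1 < 4 * j + 5 → (T i).2.1 = φ (v i) ∨ (T i).2.1 = φ (v (i + 1)) := fun i hi => by
    have : (T i).2.1 ∈ s(φ (v i), φ (v (i + 1))) := by
      rw [(hT i hi).2.1]
      exact Sym2.mem_mk_left _ _
    exact Sym2.mem_iff.1 this
  have close : ∀ i, i + 1 ≤ 2 * j → (T (i + 1)).1 = (T i).1 → (T i).2.1 = φ (v (i + 1)) →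
      (T (i + 1)).2.1 = φ (v (i + 1)) → False := by
    intro i hi e a b
    have m1 := mono (i + 1) (4 * j + 3 - i) (by omega) (by omega) (by unfold rk; split_ifs <;> omega)
    have m2 := mono (4 * j + 3 - i) i (by omega) (by omega) (by unfold rk; split_ifs <;> omega)
    have : (T (4 * j + 3 - i)).2.1 = φ (v (i + 1)) := by
      rw [a] at m2
      rw [b] at m1
      exact Fin.ext (by omega)
    rcases ze (4 * j + 3 - i) (by omega) with k | k
    · have := congrArg Fin.val (inj (this.symm.trans k))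
      rw [hv _ (by omega), hv _ (by omega)] at this
      omega
    · have := congrArg Fin.val (inj (this.symm.trans k))
      rw [hv _ (by omega), hv _ (by omega)] at this
      omega
  have step : ∀ i, i + 2 ≤ 2 * j → (T (i + 2)).1 < (T i).1 := by
    intro i hi
    have m1 := mono (i + 2) (i + 1) (by omega) (by omega) (by unfold rk; split_ifs <;> omega)
    have m2 := mono (i + 1) i (by omega) (by omega) (by unfold rk; split_ifs <;> omega)
    by_contra k
    have e1 : (T (i + 1)).1 = (T i).1 := by omega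
    have e2 : (T (i + 2)).1 = (T (i + 1)).1 := by omega
    rcases ze (i + 1) (by omega) with z | z
    · refine close i (by omega) e1 ((zz i (by omega) _ (.inr rfl)).2 ?_) z
      rw [← e1]
      exact (zz (i + 1) (by omega) _ (.inl rfl)).1 z
    · refine close (i + 1) (by omega) e2 z ((zz (i + 2) (by omega) _ (.inl rfl)).2 ?_)
      rw [e2]
      exact (zz (i + 1) (by omega) _ (.inr rfl)).1 z
  have fin : ∀ s ≤ j, (T (2 * s)).1 + s < j := by
    intro s
    induction s with
    | zero => exact fun _ => (hT 0 (by omega)).1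
    | succ s ih =>
      intro hs
      have := step (2 * s) (by omega)
      have := ih (by omega)
      rw [show 2 * (s + 1) = 2 * s + 2 by ring]
      omega
  have := fin j le_rfl
  omega

theorem main (j : ℕ) : ∃ f : Sym2 (Fin (4 * j + 5)) → ℕ,
    Set.InjOn f (pathGraph (4 * j + 5)).edgeSet ∧ 2 ^ j < ocn (pathGraph (4 * j + 5)) f ∧
      ocn (pathGraph (4 * j + 5)) f < ⊤ := by
  refine ⟨lab (2 * j + 3) _, lab_inj _ _, ?_, finite (2 * j + 3) _ (by omega) (by omega)⟩
  refine lt_of_lt_of_le (b := ((2 ^ j + 1 : ℕ) : ℕ∞)) (by exact_mod_cast Nat.lt_succ_self _) ?_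
  refine le_iInf fun n => le_iInf fun H => le_iInf fun hH => ?_
  by_contra k
  have : H.Colorable (2 ^ j) := chromaticNumber_le_iff_colorable.1
    (ENat.lt_coe_add_one_iff.1 (by simpa using k))
  obtain ⟨h, h1, h2⟩ := avoid H this
  exact h2 (hH h h1)

end Pool.Agent.H20.EOrd
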