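import Mathlib

namespace Pool.Agent.H20.EOrd

/-- The graph `G` with edge labels `g` contains `F` with edge labels `f`, order preserved. -/
def Contains {V W : Type} (G : SimpleGraph V) (g : Sym2 V → ℕ) (F : SimpleGraph W)
    (f : Sym2 W → ℕ) : Prop :=
  ∃ φ : W → V, Function.Injective φ ∧ (∀ u v, F.Adj u v → G.Adj (φ u) (φ v)) ∧
    ∀ e₁ ∈ F.edgeSet, ∀ e₂ ∈ F.edgeSet, f e₁ < f e₂ → g (e₁.map φ) < g (e₂.map φ)

/-- Order chromatic number: least chromatic number of a finite graph all of whose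
edge-orderings contain `(F, f)`; it is `⊤` when there is no such graph. -/
noncomputable def ocn {W : Type} (F : SimpleGraph W) (f : Sym2 W → ℕ) : ℕ∞ :=
  ⨅ (n : ℕ) (H : SimpleGraph (Fin n))
    (_ : ∀ h : Sym2 (Fin n) → ℕ, Set.InjOn h H.edgeSet → Contains H h F f), H.chromaticNumber

end Pool.Agent.H20.EOrd
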