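import Mathlib

set_option autoImplicit false

namespace H20.Ed

open Finset

/-- local conditions that make a table of move codes a bijection between two guard sets -/
def Loc (n : ℕ) (c t t' : ℕ → ℕ → ℕ) : Prop :=
  ∀ x < n, ∀ y < n, c x y ≤ 5 ∧ (t x y = 1 ↔ c x y ≠ 0) ∧ (x = 0 → c x y ≠ 3) ∧
    (x + 1 = n → c x y ≠ 2) ∧ (y = 0 → c x y ≠ 5) ∧ (y + 1 = n → c x y ≠ 4) ∧ t' x y ≤ 1 ∧
    t' x y = (if c x y = 1 then 1 else 0) + (if x ≠ 0 ∧ c (x - 1) y = 2 then 1 else 0) +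
      (if x + 1 ≠ n ∧ c (x + 1) y = 3 then 1 else 0) + (if y ≠ 0 ∧ c x (y - 1) = 4 then 1 else 0) +
      (if y + 1 ≠ n ∧ c x (y + 1) = 5 then 1 else 0)

def DD (n : ℕ) (t : ℕ → ℕ → ℕ) : Finset (Fin n × Fin n) := univ.filter fun v => t v.1 v.2 = 1

def g1 (c : ℕ → ℕ → ℕ) (x y : ℕ) : ℕ := if c x y = 2 then x + 1 else if c x y = 3 then x - 1 else x
def g2 (c : ℕ → ℕ → ℕ) (x y : ℕ) : ℕ := if c x y = 4 then y + 1 else if c x y = 5 then y - 1 else y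

lemma g_lt {n : ℕ} {c t t' : ℕ → ℕ → ℕ} (h : Loc n c t t') {x y : ℕ} (hx : x < n) (hy : y < n) :
    g1 c x y < n ∧ g2 c x y < n := by
  obtain ⟨-, -, -, h2, -, h4, -⟩ := h x hx y hy
  unfold g1 g2
  constructor <;> split_ifs <;> omega

lemma arr {n : ℕ} {c t t' : ℕ → ℕ → ℕ} (h : Loc n c t t') {x y p q : ℕ} (hx : x < n) (hy : y < n)
    (h0 : c x y ≠ 0) (hp : g1 c x y = p) (hq : g2 c x y = q) :
    (c p q = 1 ∧ x = p ∧ y = q) ∨ ((p ≠ 0 ∧ c (p - 1) q = 2) ∧ x + 1 = p ∧ y = q) ∨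
    ((p + 1 ≠ n ∧ c (p + 1) q = 3) ∧ x = p + 1 ∧ y = q) ∨
    ((q ≠ 0 ∧ c p (q - 1) = 4) ∧ x = p ∧ y + 1 = q) ∨
    ((q + 1 ≠ n ∧ c p (q + 1) = 5) ∧ x = p ∧ y = q + 1) := by
  obtain ⟨h5, -, h1, -, h3, -⟩ := h x hx y hy
  unfold g1 at hp
  unfold g2 at hq
  have : c x y = 1 ∨ c x y = 2 ∨ c x y = 3 ∨ c x y = 4 ∨ c x y = 5 := by omega
  rcases this with e | e | e | e | e <;> simp only [e] at hp hq <;> norm_num at hp hq
  · subst hp hq; exact Or.inl ⟨e, rfl, rfl⟩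
  · subst hp hq; exact Or.inr (Or.inl ⟨⟨by omega, by simpa using e⟩, rfl, rfl⟩)
  · have : x = p + 1 := by omega
    subst this hq; exact Or.inr (Or.inr (Or.inl ⟨⟨by omega, e⟩, rfl, rfl⟩))
  · subst hp hq; exact Or.inr (Or.inr (Or.inr (Or.inl ⟨⟨by omega, by simpa using e⟩, rfl, rfl⟩)))
  · have : y = q + 1 := by omega
    subst this hp; exact Or.inr (Or.inr (Or.inr (Or.inr ⟨⟨by omega, e⟩, rfl, rfl⟩)))

lemma move {n : ℕ} {c t t' : ℕ → ℕ → ℕ} (h : Loc n c t t') :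
    ∃ f : Fin n × Fin n → Fin n × Fin n, Set.InjOn f (DD n t : Set (Fin n × Fin n)) ∧
      (DD n t).image f = DD n t' ∧ ∀ x ∈ DD n t, f x = x ∨
        (SimpleGraph.boxProd (SimpleGraph.pathGraph n) (SimpleGraph.pathGraph n)).Adj x (f x) := by
  let f : Fin n × Fin n → Fin n × Fin n := fun v =>
    (⟨g1 c v.1 v.2, (g_lt h v.1.2 v.2.2).1⟩, ⟨g2 c v.1 v.2, (g_lt h v.1.2 v.2.2).2⟩)
  have hm : ∀ v : Fin n × Fin n, v ∈ DD n t ↔ c v.1 v.2 ≠ 0 := fun v => by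
    simp only [DD, mem_filter, mem_univ, true_and]
    exact (h _ v.1.2 _ v.2.2).2.1
  refine ⟨f, fun u hu v hv e => ?_, ?_, fun u hu => ?_⟩
  · have e1 : g1 c u.1 u.2 = g1 c v.1 v.2 := congrArg (fun z : Fin n × Fin n => (z.1 : ℕ)) e
    have e2 : g2 c u.1 u.2 = g2 c v.1 v.2 := congrArg (fun z : Fin n × Fin n => (z.2 : ℕ)) e
    have a := arr h u.1.2 u.2.2 ((hm u).1 hu) e1 e2
    have b := arr h v.1.2 v.2.2 ((hm v).1 hv) rfl rfl
    obtain ⟨-, -, -, -, -, -, l1, l2⟩ := h _ (g_lt h v.1.2 v.2.2).1 _ (g_lt h v.1.2 v.2.2).2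
    generalize g1 c v.1 v.2 = p at *
    generalize g2 c v.1 v.2 = q at *
    have : (u.1 : ℕ) = v.1 ∧ (u.2 : ℕ) = v.2 := by
      rcases a with a | a | a | a | a <;> rcases b with b | b | b | b | b <;>
        first
        | omega
        | (exfalso; rw [if_pos a.1, if_pos b.1] at l2; omega)
    exact Prod.ext (Fin.ext this.1) (Fin.ext this.2)
  · ext v
    simp only [mem_image]
    constructor
    · rintro ⟨u, hu, rfl⟩
      have a := arr h u.1.2 u.2.2 ((hm u).1 hu) rfl rfl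
      obtain ⟨-, -, -, -, -, -, l1, l2⟩ := h _ (g_lt h u.1.2 u.2.2).1 _ (g_lt h u.1.2 u.2.2).2
      simp only [DD, mem_filter, mem_univ, true_and, f]
      rcases a with a | a | a | a | a <;> rw [if_pos a.1] at l2 <;> omega
    · intro hv
      simp only [DD, mem_filter, mem_univ, true_and] at hv
      obtain ⟨⟨x, hx⟩, ⟨y, hy⟩⟩ := v
      obtain ⟨-, -, -, -, -, -, -, l2⟩ := h x hx y hy
      simp only at hv
      by_cases a1 : c x y = 1
      · exact ⟨(⟨x, hx⟩, ⟨y, hy⟩), (hm _).2 (by simp [a1]), by simp [f, g1, g2, a1]⟩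
      by_cases a2 : x ≠ 0 ∧ c (x - 1) y = 2
      · exact ⟨(⟨x - 1, by omega⟩, ⟨y, hy⟩), (hm _).2 (by simp [a2.2]), by
          simp [f, g1, g2, a2.2]; omega⟩
      by_cases a3 : x + 1 ≠ n ∧ c (x + 1) y = 3
      · exact ⟨(⟨x + 1, by omega⟩, ⟨y, hy⟩), (hm _).2 (by simp [a3.2]), by simp [f, g1, g2, a3.2]⟩
      by_cases a4 : y ≠ 0 ∧ c x (y - 1) = 4
      · exact ⟨(⟨x, hx⟩, ⟨y - 1, by omega⟩), (hm _).2 (by simp [a4.2]), by
          simp [f, g1, g2, a4.2]; omega⟩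
      by_cases a5 : y + 1 ≠ n ∧ c x (y + 1) = 5
      · exact ⟨(⟨x, hx⟩, ⟨y + 1, by omega⟩), (hm _).2 (by simp [a5.2]), by simp [f, g1, g2, a5.2]⟩
      rw [if_neg a1, if_neg a2, if_neg a3, if_neg a4, if_neg a5] at l2
      omega
  · have a := arr h u.1.2 u.2.2 ((hm u).1 hu) rfl rfl
    simp only [SimpleGraph.boxProd_adj, SimpleGraph.pathGraph_adj, Prod.ext_iff, Fin.ext_iff, f]
    omega

def pi (K q x : ℕ) : ℕ := if x < K then x else if x < K + 5 * q then K + (x - K) % 5 else x + 5 - 5 * q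

def tri (K : ℕ) : List (ℕ × ℕ × ℕ) :=
  (K + 4, K, K + 1) :: (K + 3, K + 4, K) :: (List.range (2 * K + 5)).map fun i => (i - 1, i, i + 1)

lemma pi_lt {K q x : ℕ} (hq : 1 ≤ q) (hx : x < 2 * K + 5 * q) : pi K q x < 2 * K + 5 := by
  unfold pi; split_ifs <;> omega

lemma tri_mem {K q x : ℕ} (hK : 1 ≤ K) (hq : 1 ≤ q) (hx : x < 2 * K + 5 * q) :
    ∃ a b, (a, pi K q x, b) ∈ tri K ∧ (x ≠ 0 → a = pi K q (x - 1)) ∧
      (x + 1 ≠ 2 * K + 5 * q → b = pi K q (x + 1)) ∧ (pi K q x = 0 ↔ x = 0) ∧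
      (pi K q x + 1 = 2 * K + 5 ↔ x + 1 = 2 * K + 5 * q) := by
  by_cases h1 : K + 5 ≤ x ∧ x < K + 5 * q ∧ (x - K) % 5 = 0
  · have : pi K q x = K := by unfold pi; split_ifs <;> omega
    refine ⟨K + 4, K + 1, by simp [tri, this], fun _ => ?_, fun _ => ?_, ?_, ?_⟩ <;>
      unfold pi <;> split_ifs <;> omega
  by_cases h2 : K ≤ x ∧ x + 1 < K + 5 * q ∧ (x - K) % 5 = 4
  · have : pi K q x = K + 4 := by unfold pi; split_ifs <;> omega
    refine ⟨K + 3, K, by simp [tri, this], fun _ => ?_, fun _ => ?_, ?_, ?_⟩ <;>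
      unfold pi <;> split_ifs <;> omega
  refine ⟨pi K q x - 1, pi K q x + 1, ?_, fun _ => ?_, fun _ => ?_, ?_, ?_⟩
  · simp only [tri, List.mem_cons, List.mem_map, List.mem_range]
    exact Or.inr (Or.inr ⟨_, pi_lt hq hx, rfl⟩)
  all_goals unfold pi; split_ifs <;> omega

def cd (N M x y : ℕ) : ℕ := Nat.mod (Nat.shiftRight M (Nat.mul 3 (Nat.add (Nat.mul x N) y))) 8
def tb (N T x y : ℕ) : ℕ := Nat.mod (Nat.shiftRight T (Nat.add (Nat.mul x N) y)) 2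
def iz (c k : ℕ) : ℕ := cond (Nat.beq c k) 1 0

def cell (N T M T' a x b d y e : ℕ) : Bool :=
  Nat.ble (cd N M x y) 5 && Nat.beq (tb N T x y + iz (cd N M x y) 0) 1 &&
  Nat.beq (cond (Nat.beq x 0) (iz (cd N M x y) 3) 0 + cond (Nat.beq (x + 1) N) (iz (cd N M x y) 2) 0 +
    cond (Nat.beq y 0) (iz (cd N M x y) 5) 0 + cond (Nat.beq (y + 1) N) (iz (cd N M x y) 4) 0) 0 &&
  Nat.beq (tb N T' x y) (iz (cd N M x y) 1 + cond (Nat.beq x 0) 0 (iz (cd N M a y) 2) +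
    cond (Nat.beq (x + 1) N) 0 (iz (cd N M b y) 3) + cond (Nat.beq y 0) 0 (iz (cd N M x d) 4) +
    cond (Nat.beq (y + 1) N) 0 (iz (cd N M x e) 5))

def chk (K T M T' : ℕ) : Bool :=
  (tri K).all fun p => (tri K).all fun r =>
    cell (2 * K + 5) T M T' p.1 p.2.1 p.2.2 r.1 r.2.1 r.2.2

def tab (K q T : ℕ) (x y : ℕ) : ℕ := tb (2 * K + 5) T (pi K q x) (pi K q y)

lemma cond_beq (a b u v : ℕ) : cond (Nat.beq a b) u v = if a = b then u else v := by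
  by_cases h : a = b
  · subst h; simp
  · rw [if_neg h]
    have : Nat.beq a b = false := by
      cases e : Nat.beq a b
      · rfl
      · exact absurd (Nat.eq_of_beq_eq_true e) h
    rw [this]; rfl

lemma tb_le (N T x y : ℕ) : tb N T x y ≤ 1 := by
  have : tb N T x y < 2 := Nat.mod_lt _ (by norm_num)
  omega

lemma chk_loc {K q T M T' : ℕ} (hK : 1 ≤ K) (hq : 1 ≤ q) (h : chk K T M T' = true) :
    Loc (2 * K + 5 * q) (fun x y => cd (2 * K + 5) M (pi K q x) (pi K q y)) (tab K q T)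
      (tab K q T') := by
  intro x hx y hy
  obtain ⟨a, b, m1, a1, b1, z1, w1⟩ := tri_mem hK hq hx
  obtain ⟨d, e, m2, a2, b2, z2, w2⟩ := tri_mem hK hq hy
  have := List.all_eq_true.1 (List.all_eq_true.1 h _ m1) _ m2
  simp only [cell, iz, cond_beq, Bool.and_eq_true, Nat.beq_eq, Nat.ble_eq, z1, z2, w1, w2] at this
  obtain ⟨⟨⟨k1, k2⟩, k3⟩, k4⟩ := this
  simp only [tab]
  refine ⟨k1, ?_, ?_, ?_, ?_, ?_, tb_le _ _ _ _, ?_⟩
  · split_ifs at k2 <;> omega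
  · intro s e; rw [if_pos s, if_pos e] at k3; omega
  · intro s e; rw [if_pos s, if_pos e] at k3; omega
  · intro s e; rw [if_pos s, if_pos e] at k3; omega
  · intro s e; rw [if_pos s, if_pos e] at k3; omega
  · rw [k4]
    congr 1
    · congr 1
      · congr 1
        · congr 1
          by_cases s : x = 0
          · simp [s]
          · simp [s, a1 s]
        · by_cases s : x + 1 = 2 * K + 5 * q
          · simp [s]
          · simp [s, b1 s]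
      · by_cases s : y = 0
        · simp [s]
        · simp [s, a2 s]
    · by_cases s : y + 1 = 2 * K + 5 * q
      · simp [s]
      · simp [s, b2 s]

end H20.Ed
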