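import Pool.Agent.H20.Ed1

set_option autoImplicit false

namespace H20.Ed

open Finset

def st (dat : List (ℕ × List (ℕ × ℕ))) (r : ℕ) : ℕ := (dat.getD r (0, [])).1

def goodE (K : ℕ) (dat : List (ℕ × List (ℕ × ℕ))) (e : ℕ × List (ℕ × ℕ)) : Bool :=
  (e.2.all fun z => Nat.blt z.2 dat.length && chk K e.1 z.1 (st dat z.2)) &&
    Nat.beq (e.2.foldr (fun z acc => Nat.lor (st dat z.2) acc) e.1)
      (2 ^ ((2 * K + 5) * (2 * K + 5)) - 1)

def good (K : ℕ) (dat : List (ℕ × List (ℕ × ℕ))) : Bool := dat.all (goodE K dat)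

/-- the eternal family of the frozen statement -/
def Et (n k : ℕ) : Prop :=
  ∃ F : Set (Finset (Fin n × Fin n)), F.Nonempty ∧ (∀ D ∈ F, D.card = k) ∧
    ∀ D ∈ F, ∀ v : Fin n × Fin n, ∃ D' ∈ F, v ∈ D' ∧
      ∃ f : Fin n × Fin n → Fin n × Fin n,
        Set.InjOn f (D : Set (Fin n × Fin n)) ∧ D.image f = D' ∧
        ∀ x ∈ D, f x = x ∨
          (SimpleGraph.boxProd (SimpleGraph.pathGraph n) (SimpleGraph.pathGraph n)).Adj x (f x)

lemma tb_iff (N T x y : ℕ) : tb N T x y = 1 ↔ T.testBit (x * N + y) = true := by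
  rw [Nat.testBit_eq_decide_div_mod_eq]
  simp only [tb, Nat.shiftRight_eq, Nat.shiftRight_eq_div_pow, decide_eq_true_eq]
  rfl

lemma fold_bit (dat : List (ℕ × List (ℕ × ℕ))) (T i : ℕ) (L : List (ℕ × ℕ))
    (h : (L.foldr (fun z acc => Nat.lor (st dat z.2) acc) T).testBit i = true) :
    T.testBit i = true ∨ ∃ z ∈ L, (st dat z.2).testBit i = true := by
  induction L with
  | nil => exact Or.inl h
  | cons z L ih =>
    have h' : (st dat z.2 ||| L.foldr (fun z acc => Nat.lor (st dat z.2) acc) T).testBit i = true := h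
    rw [Nat.testBit_or, Bool.or_eq_true] at h'
    rcases h' with h' | h'
    · exact Or.inr ⟨z, by simp, h'⟩
    · rcases ih h' with a | ⟨w, hw, a⟩
      · exact Or.inl a
      · exact Or.inr ⟨w, by simp [hw], a⟩

lemma et_of_good {K q : ℕ} {dat : List (ℕ × List (ℕ × ℕ))} (hK : 1 ≤ K) (hq : 1 ≤ q)
    (h : good K dat = true) {e0 : ℕ × List (ℕ × ℕ)} (h0 : e0 ∈ dat) :
    Et (2 * K + 5 * q) (DD (2 * K + 5 * q) (tab K q e0.1)).card := by
  refine ⟨{D | D.card = (DD (2 * K + 5 * q) (tab K q e0.1)).card ∧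
    ∃ e ∈ dat, D = DD (2 * K + 5 * q) (tab K q e.1)}, ⟨_, rfl, e0, h0, rfl⟩, fun D hD => hD.1, ?_⟩
  rintro D ⟨hc, e, he, rfl⟩ v
  have g := List.all_eq_true.1 h e he
  simp only [goodE, Bool.and_eq_true, Nat.beq_eq, List.all_eq_true, Nat.blt_eq] at g
  obtain ⟨g1, g2⟩ := g
  have hb : (2 ^ ((2 * K + 5) * (2 * K + 5)) - 1).testBit
      (pi K q v.1 * (2 * K + 5) + pi K q v.2) = true := by
    rw [Nat.testBit_two_pow_sub_one]
    have a := pi_lt hq v.1.2
    have b := pi_lt hq v.2.2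
    simp only [decide_eq_true_eq]
    nlinarith
  rw [← g2] at hb
  rcases fold_bit dat _ _ _ hb with a | ⟨z, hz, a⟩
  · refine ⟨_, ⟨hc, e, he, rfl⟩, ?_, id, Set.injOn_id _, image_id, fun x _ => Or.inl rfl⟩
    simp only [DD, mem_filter, mem_univ, true_and, tab, tb_iff]
    exact a
  · obtain ⟨f, f1, f2, f3⟩ := move (chk_loc hK hq (g1 z hz).2)
    refine ⟨_, ⟨?_, dat.getD z.2 (0, []), ?_, rfl⟩, ?_, f, f1, f2, f3⟩
    · rw [← hc, ← card_image_of_injOn f1, f2]; rfl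
    · rw [List.getD_eq_getElem _ _ (g1 z hz).1]
      exact List.getElem_mem _
    · simp only [DD, mem_filter, mem_univ, true_and, tab, tb_iff]
      exact a

def sA (K : ℕ) (h : ℕ → ℕ) : ℕ := ∑ i ∈ range K, h i + ∑ i ∈ range K, h (K + 5 + i)
def sB (K : ℕ) (h : ℕ → ℕ) : ℕ := ∑ i ∈ range 5, h (K + i)

lemma sum_per (h : ℕ → ℕ) (q : ℕ) :
    ∑ i ∈ range (5 * q), h (i % 5) = q * ∑ i ∈ range 5, h i := by
  induction q with
  | zero => simp
  | succ q ih =>
    rw [Nat.mul_succ, sum_range_add, ih, add_one_mul]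
    have : ∑ i ∈ range 5, h ((5 * q + i) % 5) = ∑ i ∈ range 5, h i := by
      refine sum_congr rfl fun j hj => ?_
      rw [mem_range] at hj
      rw [show (5 * q + j) % 5 = j by omega]
    rw [this]

lemma sum_pi (K q : ℕ) (hq : 1 ≤ q) (h : ℕ → ℕ) :
    ∑ x ∈ range (2 * K + 5 * q), h (pi K q x) = sA K h + q * sB K h := by
  have e : 2 * K + 5 * q = K + 5 * q + K := by ring
  rw [e, sum_range_add, sum_range_add, sA, sB, ← sum_per (fun i => h (K + i)) q]
  have e1 : ∑ x ∈ range K, h (pi K q x) = ∑ i ∈ range K, h i :=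
    sum_congr rfl fun i hi => by rw [mem_range] at hi; simp [pi, hi]
  have e2 : ∑ x ∈ range (5 * q), h (pi K q (K + x)) = ∑ i ∈ range (5 * q), h (K + i % 5) :=
    sum_congr rfl fun i hi => by rw [mem_range] at hi; simp [pi, hi]
  have e3 : ∑ x ∈ range K, h (pi K q (K + 5 * q + x)) = ∑ i ∈ range K, h (K + 5 + i) :=
    sum_congr rfl fun i _ => by
      congr 1
      unfold pi; split_ifs <;> omega
  rw [e1, e2, e3]; ring

lemma sA_lin (K q : ℕ) (f g : ℕ → ℕ) : sA K (fun i => f i + q * g i) = sA K f + q * sA K g := by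
  simp only [sA, sum_add_distrib, mul_add, mul_sum]; ring

lemma sB_lin (K q : ℕ) (f g : ℕ → ℕ) : sB K (fun i => f i + q * g i) = sB K f + q * sB K g := by
  simp only [sB, sum_add_distrib, mul_sum]

def cnt (K T : ℕ) : Bool :=
  Nat.ble (sA K fun i => sA K (tb (2 * K + 5) T i)) 256 &&
  Nat.ble (sA K (fun i => sB K (tb (2 * K + 5) T i)) + sB K fun i => sA K (tb (2 * K + 5) T i))
    (4 * K + 4) && Nat.ble (sB K fun i => sB K (tb (2 * K + 5) T i)) 5

lemma card_DD (n : ℕ) (t : ℕ → ℕ → ℕ) :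
    (DD n t).card ≤ ∑ x ∈ range n, ∑ y ∈ range n, t x y := by
  rw [DD, card_filter, Fintype.sum_prod_type, ← Fin.sum_univ_eq_sum_range fun x => ∑ y ∈ range n, t x y]
  refine sum_le_sum fun x _ => ?_
  rw [← Fin.sum_univ_eq_sum_range fun y => t x y]
  refine sum_le_sum fun y _ => ?_
  split_ifs with h
  · exact h.ge
  · exact Nat.zero_le _

lemma card_le {K q T : ℕ} (hq : 1 ≤ q) (h : cnt K T = true) :
    5 * (DD (2 * K + 5 * q) (tab K q T)).card ≤
      (2 * K + 5 * q) ^ 2 + 4 * (2 * K + 5 * q) + 1280 := by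
  have a := card_DD (2 * K + 5 * q) (tab K q T)
  simp only [tab, sum_pi K q hq (tb (2 * K + 5) T _)] at a
  rw [sum_pi K q hq fun i => sA K (tb (2 * K + 5) T i) + q * sB K (tb (2 * K + 5) T i),
    sA_lin, sB_lin] at a
  simp only [cnt, Bool.and_eq_true, Nat.ble_eq] at h
  obtain ⟨⟨h1, h2⟩, h3⟩ := h
  have b := Nat.mul_le_mul_left q h2
  have c := Nat.mul_le_mul_left (q * q) h3
  generalize (sA K fun i => sA K (tb (2 * K + 5) T i)) = A1 at *
  generalize (sA K fun i => sB K (tb (2 * K + 5) T i)) = A2 at *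
  generalize (sB K fun i => sA K (tb (2 * K + 5) T i)) = A3 at *
  generalize (sB K fun i => sB K (tb (2 * K + 5) T i)) = A4 at *
  generalize (DD (2 * K + 5 * q) (tab K q T)).card = X at *
  have e1 : (2 * K + 5 * q) ^ 2 + 4 * (2 * K + 5 * q) + 1280 =
      5 * (256 + q * (4 * K + 4) + q * q * 5) + (4 * (K * K) + 8 * K) := by ring
  have e2 : A1 + q * A2 + q * (A3 + q * A4) = A1 + q * (A2 + A3) + q * q * A4 := by ring
  rw [e1]
  rw [e2] at a
  generalize q * (A2 + A3) = B1 at *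
  generalize q * (4 * K + 4) = B2 at *
  generalize q * q * A4 = B3 at *
  generalize q * q * 5 = B4 at *
  omega

lemma upper_of {K : ℕ} {dat : List (ℕ × List (ℕ × ℕ))} (hK : 1 ≤ K) (h : good K dat = true)
    (hl : 0 < dat.length) (hc : cnt K (st dat 0) = true) {n : ℕ} (q : ℕ) (hq : 1 ≤ q)
    (hn : n = 2 * K + 5 * q) : ∃ k, Et n k ∧ 5 * k ≤ n ^ 2 + 4 * n + 1280 := by
  subst hn
  refine ⟨_, et_of_good hK hq h (e0 := dat.getD 0 (0, [])) ?_, card_le hq hc⟩
  rw [List.getD_eq_getElem _ _ hl]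
  exact List.getElem_mem _

end H20.Ed
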