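import Mathlib

set_option autoImplicit false

namespace H20.Ed

open Finset

def force (X : ℕ) (f : ℕ → ℕ) : ℕ := Nat.casesOn X (f 0) fun n => f (n + 1)

lemma force_eq (X : ℕ) (f : ℕ → ℕ) : force X f = f X := by cases X <;> rfl

def rep (X L : ℕ) : ℕ → ℕ
  | 0 => X
  | j + 1 => force (rep X L j) fun Y =>
      Nat.lor Y (Nat.lor (Nat.shiftLeft Y (L * 3 ^ j)) (Nat.shiftLeft Y (2 * (L * 3 ^ j))))

lemma tb_shl {Y i : ℕ} (s : ℕ) (h : Y.testBit i = true) :
    (Nat.shiftLeft Y s).testBit (i + s) = true := by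
  show (Y <<< s).testBit (i + s) = true
  rw [Nat.testBit_shiftLeft]
  simp [h]

lemma tb_orl {X i : ℕ} (Y : ℕ) (h : X.testBit i = true) : (Nat.lor X Y).testBit i = true := by
  show (X ||| Y).testBit i = true
  simp [Nat.testBit_or, h]

lemma tb_orr {Y i : ℕ} (X : ℕ) (h : Y.testBit i = true) : (Nat.lor X Y).testBit i = true := by
  show (X ||| Y).testBit i = true
  simp [Nat.testBit_or, h]

lemma rep_bit {X L i : ℕ} (h : X.testBit i = true) (j : ℕ) :
    ∀ m < 3 ^ j, (rep X L j).testBit (i + L * m) = true := by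
  induction j with
  | zero => intro m hm; obtain rfl : m = 0 := by simpa using hm
            simpa [rep] using h
  | succ j ih =>
    intro m hm
    rw [rep, force_eq]
    rw [pow_succ] at hm
    by_cases h1 : m < 3 ^ j
    · exact tb_orl _ (ih m h1)
    by_cases h2 : m < 2 * 3 ^ j
    · obtain ⟨k, rfl⟩ : ∃ k, m = k + 3 ^ j := ⟨m - 3 ^ j, by omega⟩
      have := tb_shl (L * 3 ^ j) (ih k (by omega))
      rw [show i + L * k + L * 3 ^ j = i + L * (k + 3 ^ j) by ring] at this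
      exact tb_orr _ (tb_orl _ this)
    · obtain ⟨k, rfl⟩ : ∃ k, m = k + 2 * 3 ^ j := ⟨m - 2 * 3 ^ j, by omega⟩
      have := tb_shl (2 * (L * 3 ^ j)) (ih k (by omega))
      rw [show i + L * k + 2 * (L * 3 ^ j) = i + L * (k + 2 * 3 ^ j) by ring] at this
      exact tb_orr _ (tb_orr _ this)

def ee (r : ℕ) : ℕ := if r = 0 then 0 else if r = 10 then 8 else r - 1
def wt (r : ℕ) : ℕ := if r ≤ 8 then 5 else if r = 9 then 4 else if r = 10 then 1 else 0
def na (r a : ℕ) (M : Bool) : ℕ :=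
  if r = 0 then (if M then 2 else if a = 2 then 1 else 0) else if r = 10 then a
  else if M ∧ a = 0 then 1 else a
def nb (r a b : ℕ) (M : Bool) : ℕ :=
  if r = 0 then b else if r = 10 then (if M ∧ b = 0 then 1 else b)
  else if M then 2 else if a = 2 ∨ b = 2 then 1 else 0
def okk (r a b : ℕ) (M : Bool) : Prop :=
  M = true ∨ if r = 0 then a ≠ 0 else r = 10 ∨ b ≠ 0
instance (r a b : ℕ) (M : Bool) : Decidable (okk r a b M) := by unfold okk; infer_instance
def cost (r a b : ℕ) (M : Bool) : ℕ := wt r * M.toNat + a + b - na r a M - nb r a b M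

def out (r a b : ℕ) (M : Bool) (Y : ℕ) : ℕ :=
  if okk r a b M then
    Nat.shiftLeft Y (3 ^ ee r * (na r a M + 3 * nb r a b M) + 59049 * cost r a b M) else 0

def part (r X m a b : ℕ) : ℕ :=
  force (Nat.land (Nat.shiftRight X (3 ^ ee r * (a + 3 * b))) m) fun Y =>
    Nat.lor (out r a b false Y) (out r a b true Y)

def row (r X m a : ℕ) : ℕ := Nat.lor (part r X m a 0) (Nat.lor (part r X m a 1) (part r X m a 2))

def step (r X : ℕ) : ℕ :=
  force (rep (2 ^ 3 ^ ee r - 1) (9 * 3 ^ ee r) (11 - ee r)) fun m =>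
    Nat.lor (row r X m 0) (Nat.lor (row r X m 1) (row r X m 2))

def run (A : ℕ) : ℕ → ℕ
  | 0 => A
  | r + 1 => force (run A r) (step r)

lemma step_bit {r X a b lo h : ℕ} {M : Bool} (ha : a ≤ 2) (hb : b ≤ 2) (hlo : lo < 3 ^ ee r)
    (hh : h < 3 ^ (11 - ee r)) (ok : okk r a b M)
    (hX : X.testBit (lo + 3 ^ ee r * (a + 3 * b) + 9 * 3 ^ ee r * h) = true) :
    (step r X).testBit (lo + 3 ^ ee r * (na r a M + 3 * nb r a b M) + 9 * 3 ^ ee r * h +
      59049 * cost r a b M) = true := by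
  have h1 : (rep (2 ^ 3 ^ ee r - 1) (9 * 3 ^ ee r) (11 - ee r)).testBit
      (lo + 9 * 3 ^ ee r * h) = true :=
    rep_bit (by rw [Nat.testBit_two_pow_sub_one]; simpa using hlo) _ _ hh
  rw [step, force_eq]
  generalize rep (2 ^ 3 ^ ee r - 1) (9 * 3 ^ ee r) (11 - ee r) = m at *
  have h2 : (Nat.land (Nat.shiftRight X (3 ^ ee r * (a + 3 * b))) m).testBit
      (lo + 9 * 3 ^ ee r * h) = true := by
    show ((X >>> (3 ^ ee r * (a + 3 * b))) &&& m).testBit _ = true
    rw [Nat.testBit_and, Nat.testBit_shiftRight, h1, Bool.and_true, ← hX]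
    congr 1; ring
  have h3 : (part r X m a b).testBit (lo + 3 ^ ee r * (na r a M + 3 * nb r a b M) +
      9 * 3 ^ ee r * h + 59049 * cost r a b M) = true := by
    rw [part, force_eq]
    have := tb_shl (3 ^ ee r * (na r a M + 3 * nb r a b M) + 59049 * cost r a b M) h2
    rw [show lo + 9 * 3 ^ ee r * h + (3 ^ ee r * (na r a M + 3 * nb r a b M) +
      59049 * cost r a b M) = lo + 3 ^ ee r * (na r a M + 3 * nb r a b M) +
      9 * 3 ^ ee r * h + 59049 * cost r a b M by ring] at this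
    cases M
    · exact tb_orl _ (by rw [out, if_pos ok]; exact this)
    · exact tb_orr _ (by rw [out, if_pos ok]; exact this)
  have h4 : (row r X m a).testBit (lo + 3 ^ ee r * (na r a M + 3 * nb r a b M) +
      9 * 3 ^ ee r * h + 59049 * cost r a b M) = true := by
    have : b = 0 ∨ b = 1 ∨ b = 2 := by omega
    rcases this with rfl | rfl | rfl
    · exact tb_orl _ h3
    · exact tb_orr _ (tb_orl _ h3)
    · exact tb_orr _ (tb_orr _ h3)
  have : a = 0 ∨ a = 1 ∨ a = 2 := by omega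
  rcases this with rfl | rfl | rfl
  · exact tb_orl _ h4
  · exact tb_orr _ (tb_orl _ h4)
  · exact tb_orr _ (tb_orr _ h4)

def idx (d : ℕ → ℕ) : ℕ := ∑ y ∈ range 10, d y * 3 ^ y
def dsum (d : ℕ → ℕ) : ℕ := ∑ y ∈ range 10, d y

lemma lo_lt (d : ℕ → ℕ) (h : ∀ y, d y ≤ 2) (e : ℕ) : ∑ y ∈ range e, d y * 3 ^ y < 3 ^ e := by
  induction e with
  | zero => simp
  | succ e ih =>
    rw [sum_range_succ, pow_succ]
    have := Nat.mul_le_mul_right (3 ^ e) (h e)
    omega

lemma split10 (f : ℕ → ℕ) {e : ℕ} (he : e ≤ 8) : ∑ y ∈ range 10, f y =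
    ∑ y ∈ range e, f y + f e + f (e + 1) + ∑ y ∈ range (8 - e), f (e + 2 + y) := by
  rw [show 10 = e + 2 + (8 - e) by omega, sum_range_add, sum_range_succ, sum_range_succ]

lemma idx_split (d : ℕ → ℕ) {e : ℕ} (he : e ≤ 8) : idx d = ∑ y ∈ range e, d y * 3 ^ y +
    3 ^ e * (d e + 3 * d (e + 1)) + 9 * 3 ^ e * ∑ y ∈ range (8 - e), d (e + 2 + y) * 3 ^ y := by
  rw [idx, split10 _ he, mul_sum]
  have : ∑ y ∈ range (8 - e), d (e + 2 + y) * 3 ^ (e + 2 + y) =
      ∑ y ∈ range (8 - e), 9 * 3 ^ e * (d (e + 2 + y) * 3 ^ y) :=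
    sum_congr rfl fun y _ => by ring
  rw [this]; ring

lemma ee_le {r : ℕ} (hr : r ≤ 10) : ee r ≤ 8 := by unfold ee; split_ifs <;> omega

lemma cost_eq : ∀ r ≤ 10, ∀ a ≤ 2, ∀ b ≤ 2, ∀ M : Bool, okk r a b M →
    cost r a b M + na r a M + nb r a b M = wt r * M.toNat + a + b := by decide

lemma step_dig {r X k : ℕ} {M : Bool} {d d' : ℕ → ℕ} (hr : r ≤ 10) (hd : ∀ y, d y ≤ 2)
    (h1 : ∀ y < 10, y ≠ ee r → y ≠ ee r + 1 → d' y = d y) (ok : okk r (d (ee r)) (d (ee r + 1)) M)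
    (h2 : d' (ee r) = na r (d (ee r)) M) (h3 : d' (ee r + 1) = nb r (d (ee r)) (d (ee r + 1)) M)
    (hX : 27 ≤ k ∨ X.testBit (idx d + 59049 * k) = true) :
    ∃ k', (27 ≤ k' ∨ (step r X).testBit (idx d' + 59049 * k') = true) ∧
      k' + dsum d' = k + dsum d + wt r * M.toNat := by
  have he := ee_le hr
  have e1 : ∀ f : ℕ → ℕ → ℕ, ∑ y ∈ range (ee r), f (d' y) y = ∑ y ∈ range (ee r), f (d y) y :=
    fun f => sum_congr rfl fun y hy => by
      rw [mem_range] at hy
      rw [h1 y (by omega) (by omega) (by omega)]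
  have e2 : ∀ f : ℕ → ℕ → ℕ, ∑ y ∈ range (8 - ee r), f (d' (ee r + 2 + y)) y =
      ∑ y ∈ range (8 - ee r), f (d (ee r + 2 + y)) y :=
    fun f => sum_congr rfl fun y hy => by
      rw [mem_range] at hy
      rw [h1 _ (by omega) (by omega) (by omega)]
  refine ⟨k + cost r (d (ee r)) (d (ee r + 1)) M, ?_, ?_⟩
  · by_cases hk : 27 ≤ k
    · exact Or.inl (by omega)
    refine Or.inr ?_
    have hX := hX.resolve_left hk
    have p1 : 59049 * k = 9 * 3 ^ ee r * (3 ^ (8 - ee r) * k) := by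
      rw [← mul_assoc, mul_assoc 9, ← pow_add, show ee r + (8 - ee r) = 8 by omega]; norm_num
    have p2 := lo_lt (fun y => d (ee r + 2 + y)) (fun y => hd _) (8 - ee r)
    have p3 : 3 ^ (11 - ee r) = 3 ^ (8 - ee r) * 27 := by
      rw [show 11 - ee r = 8 - ee r + 3 by omega, pow_add]; norm_num
    have p4 : 3 ^ (8 - ee r) * k ≤ 3 ^ (8 - ee r) * 26 := Nat.mul_le_mul_left _ (by omega)
    rw [idx_split d he, p1, add_assoc, ← mul_add] at hX
    have := step_bit (hd _) (hd _) (lo_lt d hd _) (by omega) ok hX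
    rw [idx_split d' he, e1 fun a y => a * 3 ^ y, e2 fun a y => a * 3 ^ y, h2, h3, mul_add 59049, p1]
    rw [← this]
    congr 1; ring
  · have := cost_eq r hr _ (hd _) _ (hd _) M ok
    rw [dsum, dsum, split10 d he, split10 d' he, e1 fun a _ => a, e2 fun a _ => a, h2, h3]
    omega

end H20.Ed
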