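import Pool.Agent.H20.Ed4

set_option autoImplicit false

namespace H20.Ed

open Finset

lemma fin0 {A s : ℕ} (h : force A (fun A => force (run A 11) (fin s A)) = 0) :
    run A 11 % 2 ^ s = 0 ∧ (run A 11 >>> s) ||| A = A := by
  rw [force_eq, force_eq, fin, Nat.add_eq_zero_iff] at h
  exact ⟨h.1, Nat.xor_eq_zero_iff.1 h.2⟩

lemma shl_ones {a b j : ℕ} (h1 : b ≤ j) (h2 : j < a + b) : (ones a b).testBit j = true := by
  have := tb_shl (Y := 2 ^ a - 1) (i := j - b) b (by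
    rw [Nat.testBit_two_pow_sub_one, decide_eq_true_eq]; omega)
  rwa [Nat.sub_add_cancel h1] at this

lemma top_bit {i k : ℕ} (hi : i < 59049) (h1 : 7 ≤ k) (h2 : k < 27) :
    AA.testBit (i + 59049 * k) = true := by
  have : top.testBit (i + 59049 * k) = true := by
    delta top
    exact shl_ones (by omega) (by omega)
  delta AA
  exact tb_orr _ (tb_orr _ (tb_orr _ (tb_orr _ (tb_orr _ (tb_orr _ (tb_orr _ this))))))

lemma end_aux {A X s j : ℕ} (c1 : X % 2 ^ s = 0) (c2 : (X >>> s) ||| A = A)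
    (h : X.testBit j = true) : s ≤ j ∧ A.testBit (j - s) = true := by
  have hs : s ≤ j := by
    have := Nat.testBit_mod_two_pow X s j
    rw [c1, h, Nat.zero_testBit, Bool.and_true, eq_comm, decide_eq_false_iff_not] at this
    omega
  refine ⟨hs, ?_⟩
  rw [← c2, Nat.testBit_or, Nat.testBit_shiftRight, Nat.add_sub_cancel' hs, h, Bool.true_or]

lemma col_end {i k : ℕ} (hi : i < 59049)
    (h : 27 ≤ k ∨ (run AA 11).testBit (i + 59049 * k) = true) :
    ∃ k', AA.testBit (i + 59049 * k') = true ∧ k' + 11 ≤ k := by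
  rcases h with h | h
  · exact ⟨16, top_bit hi (by norm_num) (by norm_num), by omega⟩
  obtain ⟨a, b⟩ := end_aux (fin0 cert).1 (fin0 cert).2 h
  refine ⟨k - 11, ?_, by omega⟩
  rwa [show i + 59049 * k - 649539 = i + 59049 * (k - 11) by omega] at b

def cur (g : ℕ → ℕ → Bool) (x r y : ℕ) : ℕ :=
  if g x y then 2 else
    if g (x - 1) y ∨ (y ≠ 0 ∧ g x (y - 1)) ∨ (y + 1 < r ∧ g x (y + 1)) then 1 else 0

def dig (g : ℕ → ℕ → Bool) (x r y : ℕ) : ℕ := if y < r then cur g x r y else cur g (x - 1) 11 y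

lemma dig_le (g : ℕ → ℕ → Bool) (x r y : ℕ) : dig g x r y ≤ 2 := by
  unfold dig cur; split_ifs <;> omega

lemma idx_lt (d : ℕ → ℕ) (h : ∀ y, d y ≤ 2) : idx d < 59049 := lo_lt d h 10

/-- the cell in column `x` and row `y` is dominated -/
def Dm (g : ℕ → ℕ → Bool) (x y : ℕ) : Prop :=
  g x y ∨ g (x - 1) y ∨ g (x + 1) y ∨ g x (y + 1) ∨ (y ≠ 0 ∧ g x (y - 1))

lemma dig_step (g : ℕ → ℕ → Bool) (x r : ℕ) (hr : r ≤ 10) (h : ∀ y < 10, Dm g x y) :
    (∀ y < 10, y ≠ ee r → y ≠ ee r + 1 → dig g (x + 1) (r + 1) y = dig g (x + 1) r y) ∧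
    okk r (dig g (x + 1) r (ee r)) (dig g (x + 1) r (ee r + 1)) (g (x + 1) r) ∧
    dig g (x + 1) (r + 1) (ee r) = na r (dig g (x + 1) r (ee r)) (g (x + 1) r) ∧
    dig g (x + 1) (r + 1) (ee r + 1) =
      nb r (dig g (x + 1) r (ee r)) (dig g (x + 1) r (ee r + 1)) (g (x + 1) r) := by
  refine ⟨fun y hy a b => ?_, ?_⟩
  · have c : y ≠ r ∧ y + 1 ≠ r := by unfold ee at a b; split_ifs at a b <;> omega
    simp only [dig, cur, show y < r + 1 ↔ y < r by omega, show y + 1 < r + 1 ↔ y + 1 < r by omega]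
  by_cases h0 : r = 0
  · subst h0
    have := h 0 (by norm_num)
    simp only [Dm, ee, okk, na, nb, dig, cur] at this ⊢
    norm_num at this ⊢
    revert this
    cases g x 0 <;> cases g (x - 1) 0 <;> cases g (x + 1) 0 <;> cases g x 1 <;> simp
  by_cases h1 : r = 10
  · subst h1
    simp only [ee, okk, na, nb, dig, cur]
    norm_num
    cases g (x + 1) 9 <;> cases g x 9 <;> cases g (x + 1) 8 <;> cases g (x + 1) 10 <;> simp
  obtain ⟨s, rfl⟩ : ∃ s, r = s + 1 := ⟨r - 1, by omega⟩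
  have := h (s + 1) (by omega)
  have h2 : s + 1 + 1 < 11 := by omega
  simp only [Dm, ee, okk, na, nb, dig, cur, h0, h1, h2, if_false, Nat.add_sub_cancel] at this ⊢
  by_cases h3 : s = 0 <;> norm_num [h3] at this ⊢ <;> revert this
  · cases g x 0 <;> cases g x 1 <;> cases g x 2 <;> cases g (x - 1) 1 <;>
      cases g (x + 1) 0 <;> cases g (x + 1) 1 <;> simp
  · cases g x s <;> cases g x (s + 1) <;> cases g x (s + 1 + 1) <;> cases g (x - 1) (s + 1) <;>
      cases g (x + 1) s <;> cases g (x + 1) (s + 1) <;> cases g (x + 1) (s - 1) <;> simp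

def cw (g : ℕ → ℕ → Bool) (x r : ℕ) : ℕ := ∑ y ∈ range r, wt y * (g x y).toNat

lemma col (g : ℕ → ℕ → Bool) (x k : ℕ) (h : ∀ y < 10, Dm g x y)
    (hk : AA.testBit (idx (dig g (x + 1) 0) + 59049 * k) = true) (r : ℕ) (hr : r ≤ 11) :
    ∃ k', (27 ≤ k' ∨ (run AA r).testBit (idx (dig g (x + 1) r) + 59049 * k') = true) ∧
      k' + dsum (dig g (x + 1) r) = k + dsum (dig g (x + 1) 0) + cw g (x + 1) r := by
  induction r with
  | zero => exact ⟨k, Or.inr hk, by simp [cw]⟩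
  | succ r ih =>
    obtain ⟨k1, a, b⟩ := ih (by omega)
    obtain ⟨s1, s2, s3, s4⟩ := dig_step g x r (by omega) h
    obtain ⟨k2, c, d⟩ := step_dig (by omega) (dig_le g (x + 1) r) s1 s2 s3 s4 a
    refine ⟨k2, by rw [run, force_eq]; exact c, ?_⟩
    rw [cw, sum_range_succ, ← cw]
    omega

lemma dig_end (g : ℕ → ℕ → Bool) (x : ℕ) :
    idx (dig g x 11) = idx (dig g (x + 1) 0) ∧ dsum (dig g x 11) = dsum (dig g (x + 1) 0) := by
  have : ∀ y ∈ range 10, dig g x 11 y = dig g (x + 1) 0 y := fun y hy => by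
    rw [mem_range] at hy
    simp [dig, show y < 11 by omega]
  exact ⟨sum_congr rfl fun y hy => by rw [this y hy], sum_congr rfl this⟩

lemma strip_aux (g : ℕ → ℕ → Bool) (L : ℕ) (h : ∀ x, 1 ≤ x → x ≤ L → ∀ y < 10, Dm g x y) :
    ∃ k, AA.testBit (idx (dig g (L + 2) 0) + 59049 * k) = true ∧
      k + dsum (dig g (L + 2) 0) + 11 * L ≤ 27 + ∑ x ∈ range (L + 2), cw g x 11 := by
  induction L with
  | zero =>
    refine ⟨7, top_bit (idx_lt _ (dig_le _ _ _)) le_rfl (by norm_num), ?_⟩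
    have : dsum (dig g (0 + 2) 0) ≤ ∑ _y ∈ range 10, 2 := sum_le_sum fun y _ => dig_le _ _ _ _
    simp only [sum_const, card_range, smul_eq_mul] at this
    omega
  | succ L ih =>
    obtain ⟨k, a, b⟩ := ih fun x h1 h2 => h x h1 (by omega)
    obtain ⟨k1, c, d⟩ := col g (L + 1) k (h _ (by omega) le_rfl) a 11 le_rfl
    obtain ⟨k2, e, f⟩ := col_end (idx_lt _ (dig_le _ _ _)) c
    rw [(dig_end g _).1] at e
    rw [(dig_end g _).2] at d
    refine ⟨k2, e, ?_⟩
    rw [show L + 1 + 2 = L + 2 + 1 by ring, sum_range_succ]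
    simp only [show L + 1 + 1 = L + 2 by ring] at d
    omega

lemma strip (g : ℕ → ℕ → Bool) (L : ℕ) (h : ∀ x, 1 ≤ x → x ≤ L → ∀ y < 10, Dm g x y) :
    11 * L ≤ 27 + ∑ x ∈ range (L + 2), ∑ y ∈ range 11, wt y * (g x y).toNat := by
  obtain ⟨k, -, b⟩ := strip_aux g L h
  simp only [cw] at b
  omega

end H20.Ed
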