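import Pool.Agent.H20.Ed5
import Pool.Agent.H20.Ed2

set_option autoImplicit false

namespace H20.Ed

open Finset

def ind (a m x : ℕ) : ℕ := if a ≤ x ∧ x < a + m then 1 else 0

lemma shift (f : ℕ → ℕ) {a m n : ℕ} (h : a + m ≤ n) :
    ∑ i ∈ range m, f (i + a) = ∑ x ∈ range n, ind a m x * f x := by
  simp only [ind, ite_mul, one_mul, zero_mul]
  rw [← sum_filter, show filter (fun x => a ≤ x ∧ x < a + m) (range n) = Ico a (a + m) by
    ext x; simp only [mem_filter, mem_range, mem_Ico]; omega, sum_Ico_eq_sum_range]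
  simp only [Nat.add_sub_cancel_left, add_comm]

lemma shift2 (F : ℕ → ℕ → ℕ) {a b m n : ℕ} (h1 : a + m ≤ n) (h2 : b + m ≤ n) :
    ∑ i ∈ range m, ∑ j ∈ range m, F (i + a) (j + b) =
      ∑ x ∈ range n, ∑ y ∈ range n, ind a m x * ind b m y * F x y := by
  rw [shift (fun x => ∑ j ∈ range m, F x (j + b)) h1]
  refine sum_congr rfl fun x _ => ?_
  rw [shift (F x) h2, mul_sum]
  exact sum_congr rfl fun y _ => by ring

lemma wt_ext (f : ℕ → ℕ) {n : ℕ} (h : 11 ≤ n) :
    ∑ y ∈ range 11, wt y * f y = ∑ y ∈ range n, wt y * f y := by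
  refine sum_subset (range_mono h) fun y _ hy => ?_
  rw [mem_range] at hy
  have : wt y = 0 := by unfold wt; split_ifs <;> omega
  simp [this]

lemma wt_refl (f : ℕ → ℕ) {n : ℕ} (h : 11 ≤ n) :
    ∑ y ∈ range 11, wt y * f (n - 1 - y) = ∑ y ∈ range n, wt (n - 1 - y) * f y := by
  rw [wt_ext (fun y => f (n - 1 - y)) h, ← sum_range_reflect]
  refine sum_congr rfl fun y hy => ?_
  rw [mem_range] at hy
  rw [show n - 1 - (n - 1 - y) = y by omega]

lemma zone {n x : ℕ} (hn : 24 ≤ n) (hx : x < n) :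
    let P := ind 11 (n - 22) x
    let a := wt x
    let b := wt (n - 1 - x)
    let i := ind 9 (n - 20) x
    let j := ind 10 (n - 20) x
    let k := ind 11 (n - 20) x
    (P = 0 ∧ a + b = 5 ∧ i = 0 ∧ j = 0 ∧ k = 0) ∨ (P = 0 ∧ a + b = 4 ∧ i + k = 1 ∧ j = 0) ∨
      (P = 0 ∧ a + b = 1 ∧ i + k = 1 ∧ j = 1) ∨ (P = 1 ∧ a + b = 0 ∧ i + k = 2 ∧ j = 1) := by
  simp only [ind, wt]
  split_ifs <;> omega

lemma lower_nat (G : ℕ → ℕ → Bool) {n : ℕ} (hn : 24 ≤ n)
    (h : ∀ x < n, ∀ y < n, G x y ∨ (x ≠ 0 ∧ G (x - 1) y) ∨ (x + 1 < n ∧ G (x + 1) y) ∨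
      (y + 1 < n ∧ G x (y + 1)) ∨ (y ≠ 0 ∧ G x (y - 1))) :
    n ^ 2 + 4 * n ≤ 5 * ∑ x ∈ range n, ∑ y ∈ range n, (G x y).toNat + 764 := by
  have e : n - 24 + 2 = n - 22 := by omega
  have s1 := strip (fun x y => G (x + 11) y) (n - 24) fun x a b y c => by
    have := h (x + 11) (by omega) y (by omega)
    simp only [Dm, show x - 1 + 11 = x + 11 - 1 by omega, show x + 1 + 11 = x + 11 + 1 by omega]
    tauto
  have s2 := strip (fun x y => G (x + 11) (n - 1 - y)) (n - 24) fun x a b y c => by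
    have := h (x + 11) (by omega) (n - 1 - y) (by omega)
    simp only [Dm, show x - 1 + 11 = x + 11 - 1 by omega, show x + 1 + 11 = x + 11 + 1 by omega,
      show n - 1 - (y + 1) = n - 1 - y - 1 by omega]
    rcases this with t | t | t | t | t
    · tauto
    · tauto
    · tauto
    · have y0 : y ≠ 0 := by omega
      rw [show n - 1 - y + 1 = n - 1 - (y - 1) by omega] at t
      exact Or.inr (Or.inr (Or.inr (Or.inr ⟨y0, t.2⟩)))
    · tauto
  have s3 := strip (fun x y => G y (x + 11)) (n - 24) fun x a b y c => by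
    have := h y (by omega) (x + 11) (by omega)
    simp only [Dm, show x - 1 + 11 = x + 11 - 1 by omega, show x + 1 + 11 = x + 11 + 1 by omega]
    tauto
  have s4 := strip (fun x y => G (n - 1 - y) (x + 11)) (n - 24) fun x a b y c => by
    have := h (n - 1 - y) (by omega) (x + 11) (by omega)
    simp only [Dm, show x - 1 + 11 = x + 11 - 1 by omega, show x + 1 + 11 = x + 11 + 1 by omega,
      show n - 1 - (y + 1) = n - 1 - y - 1 by omega]
    rcases this with t | t | t | t | t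
    · tauto
    · tauto
    · have y0 : y ≠ 0 := by omega
      rw [show n - 1 - y + 1 = n - 1 - (y - 1) by omega] at t
      exact Or.inr (Or.inr (Or.inr (Or.inr ⟨y0, t.2⟩)))
    · tauto
    · tauto
  have n1 : 11 ≤ n := by omega
  have n2 : 11 + (n - 22) ≤ n := by omega
  simp only [e] at s1 s2 s3 s4
  rw [shift (fun x => ∑ y ∈ range 11, wt y * (G x y).toNat) n2] at s1
  rw [shift (fun x => ∑ y ∈ range 11, wt y * (G x (n - 1 - y)).toNat) n2] at s2
  rw [shift (fun x => ∑ y ∈ range 11, wt y * (G y x).toNat) n2] at s3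
  rw [shift (fun x => ∑ y ∈ range 11, wt y * (G (n - 1 - y) x).toNat) n2] at s4
  simp only [wt_ext _ n1, mul_sum] at s1 s3
  have r2 := fun x => wt_refl (fun y => (G x y).toNat) n1
  have r4 := fun x => wt_refl (fun y => (G y x).toNat) n1
  simp only [r2] at s2
  simp only [r4] at s4
  simp only [mul_sum] at s2 s4
  rw [sum_comm] at s3 s4
  have s5 : ∑ _i ∈ range (n - 20), ∑ _j ∈ range (n - 20), 1 ≤
      ∑ i ∈ range (n - 20), ∑ j ∈ range (n - 20), ((G (i + 10) (j + 10)).toNat +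
        (G (i + 9) (j + 10)).toNat + (G (i + 11) (j + 10)).toNat + (G (i + 10) (j + 9)).toNat +
        (G (i + 10) (j + 11)).toNat) := by
    refine sum_le_sum fun i hi => sum_le_sum fun j hj => ?_
    rw [mem_range] at hi hj
    have := h (i + 10) (by omega) (j + 10) (by omega)
    simp only [show i + 10 - 1 = i + 9 by omega, show j + 10 - 1 = j + 9 by omega,
      show i + 10 + 1 = i + 11 by omega, show j + 10 + 1 = j + 11 by omega] at this
    rcases this with t | ⟨-, t⟩ | ⟨-, t⟩ | ⟨-, t⟩ | ⟨-, t⟩ <;> rw [t, Bool.toNat_true] <;> omega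
  simp only [sum_add_distrib, sum_const, card_range, smul_eq_mul, mul_one] at s5
  have a9 : 9 + (n - 20) ≤ n := by omega
  have a10 : 10 + (n - 20) ≤ n := by omega
  have a11 : 11 + (n - 20) ≤ n := by omega
  rw [shift2 (fun x y => (G x y).toNat) a10 a10, shift2 (fun x y => (G x y).toNat) a9 a10,
    shift2 (fun x y => (G x y).toNat) a11 a10, shift2 (fun x y => (G x y).toNat) a10 a9,
    shift2 (fun x y => (G x y).toNat) a10 a11] at s5
  have key := add_le_add (add_le_add (add_le_add s1 s2) (add_le_add s3 s4)) s5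
  have fin : ∀ A B C D E : ℕ, 27 + A + (27 + B) + (27 + C + (27 + D)) + E = 108 + (A + B + C + D + E) :=
    fun A B C D E => by ring
  rw [fin] at key
  simp only [← sum_add_distrib] at key
  have bd := key.trans (Nat.add_le_add_left (sum_le_sum (g := fun x => ∑ y ∈ range n,
      5 * (G x y).toNat) fun x hx => sum_le_sum fun y hy => by
    have z1 := zone hn (mem_range.1 hx)
    have z2 := zone hn (mem_range.1 hy)
    simp only at z1 z2
    cases G x y
    · simp
    · simp only [Bool.toNat_true, mul_one]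
      rcases z1 with ⟨p1, p2, p3, p4, p5⟩ | ⟨p1, p2, p3, p4⟩ | ⟨p1, p2, p3, p4⟩ | ⟨p1, p2, p3, p4⟩ <;>
      rcases z2 with ⟨q1, q2, q3, q4, q5⟩ | ⟨q1, q2, q3, q4⟩ | ⟨q1, q2, q3, q4⟩ | ⟨q1, q2, q3, q4⟩ <;>
      simp only [p1, p4, q1, q4] <;> omega) 108)
  simp only [← mul_sum] at bd
  obtain ⟨m, rfl⟩ : ∃ m, n = m + 24 := ⟨n - 24, by omega⟩
  simp only [Nat.add_sub_cancel, show m + 24 - 20 = m + 4 by omega] at bd
  nlinarith

lemma lower {n : ℕ} (hn : 24 ≤ n) (D : Finset (Fin n × Fin n))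
    (h : ∀ v : Fin n × Fin n, v ∈ D ∨ ∃ u ∈ D,
      (SimpleGraph.boxProd (SimpleGraph.pathGraph n) (SimpleGraph.pathGraph n)).Adj u v) :
    n ^ 2 + 4 * n ≤ 5 * D.card + 764 := by
  let G : ℕ → ℕ → Bool := fun x y => decide (∃ u ∈ D, (u.1 : ℕ) = x ∧ (u.2 : ℕ) = y)
  have := lower_nat G hn fun x hx y hy => by
    simp only [G, decide_eq_true_eq]
    rcases h (⟨x, hx⟩, ⟨y, hy⟩) with t | ⟨u, hu, t⟩
    · exact Or.inl ⟨_, t, rfl, rfl⟩
    · simp only [SimpleGraph.boxProd_adj, SimpleGraph.pathGraph_adj, Fin.ext_iff] at t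
      have a := u.1.2
      have b := u.2.2
      rcases t with ⟨t | t, e⟩ | ⟨t | t, e⟩
      · exact Or.inr (Or.inl ⟨by omega, u, hu, by omega, e⟩)
      · exact Or.inr (Or.inr (Or.inl ⟨by omega, u, hu, by omega, e⟩))
      · exact Or.inr (Or.inr (Or.inr (Or.inr ⟨by omega, u, hu, e, by omega⟩)))
      · exact Or.inr (Or.inr (Or.inr (Or.inl ⟨by omega, u, hu, e, by omega⟩)))
  have c : ∑ x ∈ range n, ∑ y ∈ range n, (G x y).toNat = D.card := by
    rw [← Fin.sum_univ_eq_sum_range fun x => ∑ y ∈ range n, (G x y).toNat]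
    simp only [← Fin.sum_univ_eq_sum_range fun y => (G _ y).toNat]
    rw [← Fintype.sum_prod_type (f := fun v : Fin n × Fin n => (G v.1 v.2).toNat),
      card_eq_sum_ones, ← sum_subset (subset_univ D)]
    · refine sum_congr rfl fun v hv => ?_
      have : G v.1 v.2 = true := by
        simp only [G, decide_eq_true_eq]
        exact ⟨v, hv, rfl, rfl⟩
      rw [this]; rfl
    · intro v _ hv
      have : G v.1 v.2 = false := by
        simp only [G, decide_eq_false_iff_not]
        rintro ⟨u, hu, a, b⟩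
        exact hv (by rwa [show v = u from Prod.ext (Fin.ext a.symm) (Fin.ext b.symm)])
      rw [this]; rfl
  rwa [c] at this

end H20.Ed
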