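import Mathlib

set_option autoImplicit false

namespace H20.Fc

open Finset

theorem core (p0 p1 q0 q1 r0 r1 s0 s1 : ℕ) (X Y : ℕ → ℕ → ℕ → Prop)
    (hp : p0 ≠ p1) (hq : q0 ≠ q1) (hr : r0 ≠ r1) (hs : s0 ≠ s1)
    (hX : ∀ a b c, X a b c → a ≠ b ∧ a ≠ c ∧ b ≠ c)
    (hY : ∀ a b c, Y a b c → a ≠ b ∧ a ≠ c ∧ b ≠ c)
    (gX : ∀ a b c d e f, X a b c → X d e f → (a = d ∨ a = e ∨ a = f) ∧ (b = d ∨ b = e ∨ b = f) ∧ (c = d ∨ c = e ∨ c = f))
    (gY : ∀ a b c d e f, Y a b c → Y d e f → (a = d ∨ a = e ∨ a = f) ∧ (b = d ∨ b = e ∨ b = f) ∧ (c = d ∨ c = e ∨ c = f))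
    (c0 : p0 = q0 ∨ q0 = r0 ∨ r0 = s0 ∨ X p0 q0 s0 ∨ Y p0 r0 s0)
    (c1 : p0 = q0 ∨ q0 = r0 ∨ r0 = s1 ∨ X p0 q0 s1 ∨ Y p0 r0 s1)
    (c2 : p0 = q0 ∨ q0 = r1 ∨ r1 = s0 ∨ X p0 q0 s0 ∨ Y p0 r1 s0)
    (c3 : p0 = q0 ∨ q0 = r1 ∨ r1 = s1 ∨ X p0 q0 s1 ∨ Y p0 r1 s1)
    (c4 : p0 = q1 ∨ q1 = r0 ∨ r0 = s0 ∨ X p0 q1 s0 ∨ Y p0 r0 s0)
    (c5 : p0 = q1 ∨ q1 = r0 ∨ r0 = s1 ∨ X p0 q1 s1 ∨ Y p0 r0 s1)
    (c6 : p0 = q1 ∨ q1 = r1 ∨ r1 = s0 ∨ X p0 q1 s0 ∨ Y p0 r1 s0)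
    (c7 : p0 = q1 ∨ q1 = r1 ∨ r1 = s1 ∨ X p0 q1 s1 ∨ Y p0 r1 s1)
    (c8 : p1 = q0 ∨ q0 = r0 ∨ r0 = s0 ∨ X p1 q0 s0 ∨ Y p1 r0 s0)
    (c9 : p1 = q0 ∨ q0 = r0 ∨ r0 = s1 ∨ X p1 q0 s1 ∨ Y p1 r0 s1)
    (c10 : p1 = q0 ∨ q0 = r1 ∨ r1 = s0 ∨ X p1 q0 s0 ∨ Y p1 r1 s0)
    (c11 : p1 = q0 ∨ q0 = r1 ∨ r1 = s1 ∨ X p1 q0 s1 ∨ Y p1 r1 s1)
    (c12 : p1 = q1 ∨ q1 = r0 ∨ r0 = s0 ∨ X p1 q1 s0 ∨ Y p1 r0 s0)
    (c13 : p1 = q1 ∨ q1 = r0 ∨ r0 = s1 ∨ X p1 q1 s1 ∨ Y p1 r0 s1)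
    (c14 : p1 = q1 ∨ q1 = r1 ∨ r1 = s0 ∨ X p1 q1 s0 ∨ Y p1 r1 s0)
    (c15 : p1 = q1 ∨ q1 = r1 ∨ r1 = s1 ∨ X p1 q1 s1 ∨ Y p1 r1 s1) : False := by
  grind (splits := 500) (ematch := 200) (gen := 1000) (instances := 100000)

lemma sub3 (X : Finset ℕ) (hX : 3 ≤ X.card) (a b c : ℕ) (h : X ⊆ {a, b, c}) :
    a ≠ b ∧ a ≠ c ∧ b ≠ c := by
  have h3 : 3 ≤ ({a, b, c} : Finset ℕ).card := le_trans hX (card_le_card h)
  refine ⟨?_, ?_, ?_⟩ <;> rintro rfl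
  · have : ({a, a, c} : Finset ℕ) = {a, c} := by ext; simp
    rw [this] at h3
    have := card_le_two (a := a) (b := c); omega
  · have : ({a, b, a} : Finset ℕ) = {a, b} := by ext; simp; tauto
    rw [this] at h3
    have := card_le_two (a := a) (b := b); omega
  · have : ({a, b, b} : Finset ℕ) = {a, b} := by ext; simp
    rw [this] at h3
    have := card_le_two (a := a) (b := b); omega

lemma sub3' (X : Finset ℕ) (hX : 3 ≤ X.card) (a b c d e f : ℕ) (h : X ⊆ {a, b, c})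
    (h' : X ⊆ {d, e, f}) :
    (a = d ∨ a = e ∨ a = f) ∧ (b = d ∨ b = e ∨ b = f) ∧ (c = d ∨ c = e ∨ c = f) := by
  have : X = {a, b, c} := eq_of_subset_of_card_le h (le_trans card_le_three hX)
  rw [this] at h'
  refine ⟨?_, ?_, ?_⟩
  · simpa using h' (show a ∈ ({a, b, c} : Finset ℕ) by simp)
  · simpa using h' (show b ∈ ({a, b, c} : Finset ℕ) by simp)
  · simpa using h' (show c ∈ ({a, b, c} : Finset ℕ) by simp)

/-- the prism is choosable from lists of sizes 2,2,2,2,3,3 -/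
theorem gad (P Q R S X Y : Finset ℕ) (hP : 2 ≤ P.card) (hQ : 2 ≤ Q.card) (hR : 2 ≤ R.card)
    (hS : 2 ≤ S.card) (hX : 3 ≤ X.card) (hY : 3 ≤ Y.card) :
    ∃ p ∈ P, ∃ q ∈ Q, ∃ r ∈ R, ∃ s ∈ S, ∃ x ∈ X, ∃ y ∈ Y,
      p ≠ q ∧ p ≠ x ∧ q ≠ x ∧ r ≠ s ∧ r ≠ y ∧ s ≠ y ∧ p ≠ y ∧ s ≠ x ∧ q ≠ r := by
  obtain ⟨p0, hp0, p1, hp1, hp⟩ := one_lt_card.mp hP
  obtain ⟨q0, hq0, q1, hq1, hq⟩ := one_lt_card.mp hQ
  obtain ⟨r0, hr0, r1, hr1, hr⟩ := one_lt_card.mp hR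
  obtain ⟨s0, hs0, s1, hs1, hs⟩ := one_lt_card.mp hS
  by_contra hc
  have key : ∀ p ∈ P, ∀ q ∈ Q, ∀ r ∈ R, ∀ s ∈ S,
      p = q ∨ q = r ∨ r = s ∨ X ⊆ {p, q, s} ∨ Y ⊆ {p, r, s} := by
    intro p hp q hq r hr s hs
    by_contra h
    simp only [not_or] at h
    obtain ⟨h1, h2, h3, h4, h5⟩ := h
    obtain ⟨x, hx, hx'⟩ := not_subset.mp h4
    obtain ⟨y, hy, hy'⟩ := not_subset.mp h5
    simp only [mem_insert, mem_singleton, not_or] at hx' hy'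
    exact hc ⟨p, hp, q, hq, r, hr, s, hs, x, hx, y, hy, h1, Ne.symm hx'.1, Ne.symm hx'.2.1, h3,
      Ne.symm hy'.2.1, Ne.symm hy'.2.2, Ne.symm hy'.1, Ne.symm hx'.2.2, h2⟩
  refine core p0 p1 q0 q1 r0 r1 s0 s1 (fun a b c => X ⊆ {a, b, c}) (fun a b c => Y ⊆ {a, b, c})
    hp hq hr hs (sub3 X hX) (sub3 Y hY) (sub3' X hX) (sub3' Y hY)
    ?_ ?_ ?_ ?_ ?_ ?_ ?_ ?_ ?_ ?_ ?_ ?_ ?_ ?_ ?_ ?_ <;>
  exact key _ (by assumption) _ (by assumption) _ (by assumption) _ (by assumption)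

def pr (i j : Fin 6) : Prop :=
  (i, j) ∈ ([(0, 1), (0, 4), (1, 4), (2, 3), (2, 5), (3, 5), (0, 5), (3, 4), (1, 2)] :
    List (Fin 6 × Fin 6))

def Rl {ι : Type} : Option (ι × Fin 6) → Option (ι × Fin 6) → Prop
  | none, some (_, i) => i.val < 4
  | some (a, i), some (b, j) => a = b ∧ pr i j
  | _, none => False

/-- disjoint prisms plus one apex joined to four vertices of each prism -/
def G (ι : Type) : SimpleGraph (Option (ι × Fin 6)) := SimpleGraph.fromRel Rl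

theorem choos (ι : Type) (L : Option (ι × Fin 6) → Finset ℕ) (hL : ∀ v, (L v).card = 3) :
    ∃ c : Option (ι × Fin 6) → ℕ, (∀ v, c v ∈ L v) ∧ ∀ u v, (G ι).Adj u v → c u ≠ c v := by
  obtain ⟨z, hz⟩ : (L none).Nonempty := card_pos.mp (by rw [hL]; omega)
  have he : ∀ v, 2 ≤ ((L v).erase z).card := fun v => by
    have := pred_card_le_card_erase (s := L v) (a := z)
    rw [hL] at this; omega
  have h := fun a : ι => gad _ _ _ _ (L (some (a, 4))) (L (some (a, 5))) (he (some (a, 0)))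
    (he (some (a, 1))) (he (some (a, 2))) (he (some (a, 3))) (by rw [hL]) (by rw [hL])
  choose p hp q hq r hr s hs x hx y hy h using h
  simp only [mem_erase] at hp hq hr hs
  let c : Option (ι × Fin 6) → ℕ := fun v => match v with
    | none => z
    | some (a, i) => ![p a, q a, r a, s a, x a, y a] i
  have hR : ∀ u v, Rl u v → c u ≠ c v := by
    rintro (_ | ⟨a, i⟩) (_ | ⟨b, j⟩) huv
    · exact huv.elim
    · have : j.val < 4 := huv
      fin_cases j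
      · exact (hp b).1.symm
      · exact (hq b).1.symm
      · exact (hr b).1.symm
      · exact (hs b).1.symm
      · simp at this
      · simp at this
    · exact huv.elim
    · obtain ⟨rfl, h0⟩ := huv
      obtain ⟨h1, h2, h3, h4, h5, h6, h7, h8, h9⟩ := h a
      simp only [pr, List.mem_cons, Prod.mk.injEq, List.not_mem_nil, or_false] at h0
      rcases h0 with ⟨rfl, rfl⟩ | ⟨rfl, rfl⟩ | ⟨rfl, rfl⟩ | ⟨rfl, rfl⟩ | ⟨rfl, rfl⟩ | ⟨rfl, rfl⟩ |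
        ⟨rfl, rfl⟩ | ⟨rfl, rfl⟩ | ⟨rfl, rfl⟩ <;> assumption
  refine ⟨c, ?_, ?_⟩
  · rintro (_ | ⟨a, i⟩)
    · exact hz
    · fin_cases i
      · exact (hp a).2
      · exact (hq a).2
      · exact (hr a).2
      · exact (hs a).2
      · exact hx a
      · exact hy a
  · intro u v huv
    rcases (SimpleGraph.fromRel_adj _ _ _).mp huv with ⟨_, h1 | h1⟩
    · exact hR u v h1
    · exact (hR v u h1).symm

def base : Fin 6 → Finset ℕ :=
  ![Ico 0 16 ∪ Ico 32 37, Ico 0 16 ∪ Ico 42 47, Ico 16 32 ∪ Ico 42 47, Ico 16 32 ∪ Ico 37 42,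
    Ico 0 16 ∪ Ico 32 47, Ico 16 47]

lemma card_sum (A : Finset ℕ) (h : A ⊆ range 47) :
    A.card = ∑ c ∈ range 47, if c ∈ A then 1 else 0 := by
  rw [← card_filter]
  congr 1
  ext c
  simp only [mem_filter]
  exact ⟨fun hc => ⟨h hc, hc⟩, fun hc => hc.2⟩

/-- the prism has no 10-fold colouring from the lists `base` (sizes 21,21,21,21,31,31) -/
theorem nofold (φ : Fin 6 → Finset ℕ) (h1 : ∀ i, φ i ⊆ base i) (h2 : ∀ i, (φ i).card = 10)
    (h3 : ∀ i j, pr i j → Disjoint (φ i) (φ j)) : False := by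
  have hb : ∀ i, φ i ⊆ range 47 := fun i => (h1 i).trans (by revert i; decide)
  have e := fun i => (card_sum _ (hb i)).symm.trans (h2 i)
  have key : ∑ c ∈ range 47, (2 * (if c ∈ φ 0 then 1 else 0) + 2 * (if c ∈ φ 1 then 1 else 0) +
      2 * (if c ∈ φ 2 then 1 else 0) + 2 * (if c ∈ φ 3 then 1 else 0) +
      (if c ∈ φ 4 then 1 else 0) + (if c ∈ φ 5 then 1 else 0)) ≤
      ∑ c ∈ range 47, (if c < 42 then 2 else 3) := by
    refine sum_le_sum fun c _ => ?_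
    have d : ∀ i j, pr i j → c ∈ φ i → c ∈ φ j → False := fun i j h a b =>
      disjoint_left.mp (h3 i j h) a b
    have d1 := d 0 1 (by unfold pr; decide)
    have d2 := d 0 4 (by unfold pr; decide)
    have d3 := d 1 4 (by unfold pr; decide)
    have d4 := d 2 3 (by unfold pr; decide)
    have d5 := d 2 5 (by unfold pr; decide)
    have d6 := d 3 5 (by unfold pr; decide)
    have d7 := d 0 5 (by unfold pr; decide)
    have d8 := d 3 4 (by unfold pr; decide)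
    have d9 := d 1 2 (by unfold pr; decide)
    have m0 : c ∈ φ 0 → c < 16 ∨ (32 ≤ c ∧ c < 37) := fun h => by simpa [base] using h1 0 h
    have m1 : c ∈ φ 1 → c < 16 ∨ (42 ≤ c ∧ c < 47) := fun h => by simpa [base] using h1 1 h
    have m2 : c ∈ φ 2 → (16 ≤ c ∧ c < 32) ∨ (42 ≤ c ∧ c < 47) := fun h => by
      simpa [base] using h1 2 h
    have m3 : c ∈ φ 3 → (16 ≤ c ∧ c < 32) ∨ (37 ≤ c ∧ c < 42) := fun h => by
      simpa [base] using h1 3 h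
    have m4 : c ∈ φ 4 → c < 16 ∨ (32 ≤ c ∧ c < 47) := fun h => by simpa [base] using h1 4 h
    have m5 : c ∈ φ 5 → 16 ≤ c ∧ c < 47 := fun h => by simpa [base] using h1 5 h
    by_cases a0 : c ∈ φ 0 <;> by_cases a1 : c ∈ φ 1 <;> by_cases a2 : c ∈ φ 2 <;>
      by_cases a3 : c ∈ φ 3 <;> by_cases a4 : c ∈ φ 4 <;> by_cases a5 : c ∈ φ 5 <;>
      simp only [a0, a1, a2, a3, a4, a5, if_true, if_false, forall_true_left,
        false_implies] at * <;> split_ifs <;> omega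
  simp only [sum_add_distrib, ← mul_sum, e] at key
  revert key
  decide

abbrev Idx : Type := {ψ : Finset ℕ // ψ ∈ powersetCard 10 (Ico 100 131)}

def Lst : Option (Idx × Fin 6) → Finset ℕ
  | none => Ico 100 131
  | some (a, i) => if i.val < 4 then base i ∪ a.1 else base i

lemma Lst_card (v : Option (Idx × Fin 6)) : (Lst v).card = 31 := by
  rcases v with _ | ⟨a, i⟩
  · simp [Lst]
  · obtain ⟨ha, hc⟩ := mem_powersetCard.mp a.2
    have hd : Disjoint (base i) a.1 := by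
      refine Disjoint.mono_right ha ?_
      revert i; decide
    have hb : (base i).card = if i.val < 4 then 21 else 31 := by clear hd; revert i; decide
    unfold Lst
    by_cases h : i.val < 4
    · simp only [h, if_true] at hb ⊢
      rw [card_union_of_disjoint hd, hb, hc]
    · simp only [h, if_false] at hb ⊢
      exact hb

theorem notfold : ¬ ∃ f : Option (Idx × Fin 6) → Finset ℕ,
    (∀ v, f v ⊆ Lst v ∧ (f v).card = 10) ∧ ∀ u v, (G Idx).Adj u v → Disjoint (f u) (f v) := by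
  rintro ⟨f, h1, h2⟩
  let a : Idx := ⟨f none, mem_powersetCard.mpr (h1 none)⟩
  refine nofold (fun i => f (some (a, i))) (fun i => ?_) (fun i => (h1 _).2) (fun i j h => ?_)
  · have h := (h1 (some (a, i))).1
    unfold Lst at h
    by_cases c : i.val < 4
    · simp only [c, if_true] at h
      have d := h2 none (some (a, i)) ((SimpleGraph.fromRel_adj _ _ _).mpr ⟨by simp, Or.inl c⟩)
      intro x hx
      rcases mem_union.mp (h hx) with h' | h'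
      · exact h'
      · exact absurd hx (disjoint_left.mp d h')
    · simpa only [c, if_false] using h
  · refine h2 _ _ ((SimpleGraph.fromRel_adj _ _ _).mpr ⟨?_, Or.inl ⟨rfl, h⟩⟩)
    intro e
    have : i = j := by simpa using e
    subst this
    clear e; revert h; unfold pr; revert i; decide

end H20.Fc
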