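import Mathlib

namespace H20.Flow

open Finset

variable {ι : Type} [Fintype ι] [DecidableEq ι]

theorem ind (ρ : ι → ℕ) (p : ι → ι → ℝ) (h : ∀ Y Z, p Y Z ≠ 0 → ρ Z = ρ Y + 1) (Q : ι → Prop)
    (hQ : ∀ Y, (∀ Z, p Y Z ≠ 0 → Q Z) → Q Y) (Y : ι) : Q Y := by
  have : ∀ n Y, univ.sup ρ - ρ Y = n → Q Y := by
    intro n
    induction n using Nat.strong_induction_on with
    | _ n ih =>
      intro Y hY
      refine hQ Y fun Z hZ => ih _ ?_ Z rfl
      have := h Y Z hZ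
      have : ρ Z ≤ univ.sup ρ := le_sup (mem_univ Z)
      omega
  exact this _ Y rfl

theorem solve (ρ : ι → ℕ) (p : ι → ι → ℝ) (h : ∀ Y Z, p Y Z ≠ 0 → ρ Z = ρ Y + 1) (u : ι → ℝ) :
    ∃ f : ι → ℝ, ∀ Y, f Y = u Y + ∑ Z, p Y Z * f Z := by
  let A : (ι → ℝ) →ₗ[ℝ] (ι → ℝ) :=
    { toFun := fun f Y => f Y - ∑ Z, p Y Z * f Z
      map_add' := fun f g => by ext Y; simp [mul_add, sum_add_distrib]; ring
      map_smul' := fun c f => by
        ext Y; simp [mul_sub, mul_sum, mul_left_comm] }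
  have inj : Function.Injective A := by
    rw [← LinearMap.ker_eq_bot, LinearMap.ker_eq_bot']
    intro f hf
    ext Y
    refine ind ρ p h (fun Y => f Y = 0) (fun Y hY => ?_) Y
    have h1 : f Y - ∑ Z, p Y Z * f Z = 0 := congrFun hf Y
    have h2 : ∑ Z, p Y Z * f Z = 0 := sum_eq_zero fun Z _ => by
      by_cases e : p Y Z = 0
      · simp [e]
      · simp [hY Z e]
    linarith
  obtain ⟨f, hf⟩ := LinearMap.injective_iff_surjective.1 inj u
  exact ⟨f, fun Y => by have : f Y - ∑ Z, p Y Z * f Z = u Y := congrFun hf Y; linarith⟩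

theorem main (ρ : ι → ℕ) (le : ι → ι → Prop) [DecidableRel le]
    (tr : ∀ a b c, le a b → le b c → le a c) (w : ι → ι → ℝ) (w0 : ∀ Y Z, 0 ≤ w Y Z)
    (hw : ∀ Y Z, w Y Z ≠ 0 → ρ Z = ρ Y + 1 ∧ le Y Z) (B M M' : ℝ) (hM : 0 < M)
    (wB : ∀ Y Z, w Y Z ≤ B)
    (two : ∀ Y X, (univ.filter fun Z => w Y Z ≠ 0 ∧ w Z X ≠ 0).card ≤ 2) (T : ι → ℝ)
    (T1 : ∀ Y, M ≤ T Y) (T2 : ∀ Y, T Y ≤ M') (T3 : ∀ Y, ∑ Z, w Y Z ≤ T Y)
    (T4 : ∀ Z, ∑ Y, w Y Z ≤ T Z) (V : Finset ι) (hV : ∀ a ∈ V, ∀ b ∈ V, ρ b ≠ ρ a + 1) :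
    M * V.card ≤ ∑ Z, (T Z - ∑ Y, w Y Z) + M' * (2 * (B / M) ^ 2) *
      ((V ×ˢ V).filter fun q => le q.1 q.2 ∧ ρ q.1 < ρ q.2).card := by
  have Tp : ∀ Y, 0 < T Y := fun Y => hM.trans_le (T1 Y)
  let p : ι → ι → ℝ := fun Y Z => w Y Z / T Y
  have p0 : ∀ Y Z, 0 ≤ p Y Z := fun Y Z => div_nonneg (w0 _ _) (Tp _).le
  have pw : ∀ Y Z, p Y Z ≠ 0 → w Y Z ≠ 0 := fun Y Z h e => h (by simp [p, e])
  have hp : ∀ Y Z, p Y Z ≠ 0 → ρ Z = ρ Y + 1 := fun Y Z h => (hw _ _ (pw _ _ h)).1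
  have p1 : ∀ Y, ∑ Z, p Y Z ≤ 1 := fun Y => by
    simp only [p]; rw [← sum_div, div_le_one (Tp Y)]; exact T3 Y
  have pB : ∀ Y Z, p Y Z ≤ B / M := fun Y Z =>
    div_le_div₀ ((w0 Y Z).trans (wB Y Z)) (wB _ _) hM (T1 _)
  set κ := 2 * (B / M) ^ 2 with hκ
  have κ0 : 0 ≤ κ := by positivity
  let u : ι → ℝ := fun Y => if Y ∈ V then 1 else 0
  obtain ⟨ψ, hψ⟩ := solve ρ p hp u
  obtain ⟨π, hπ⟩ := solve ρ p hp fun Y => u Y * ∑ Z, p Y Z * ψ Z
  have u0 : ∀ Y, 0 ≤ u Y := fun Y => by simp only [u]; split_ifs <;> norm_num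
  have step : ∀ (f g : ι → ℝ) Y, (∀ Z, p Y Z ≠ 0 → f Z ≤ g Z) →
      ∑ Z, p Y Z * f Z ≤ ∑ Z, p Y Z * g Z := fun f g Y h => sum_le_sum fun Z _ => by
    by_cases e : p Y Z = 0
    · simp [e]
    · exact mul_le_mul_of_nonneg_left (h Z e) (p0 _ _)
  have ψ0 : ∀ Y, 0 ≤ ψ Y := ind ρ p hp _ fun Y h => by
    have := step (fun _ => 0) ψ Y h
    simp only [mul_zero, sum_const_zero] at this
    rw [hψ]; linarith [u0 Y]
  have Pψ0 : ∀ Y, 0 ≤ ∑ Z, p Y Z * ψ Z := fun Y => sum_nonneg fun Z _ => mul_nonneg (p0 _ _) (ψ0 _)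
  have π0 : ∀ Y, 0 ≤ π Y := ind ρ p hp _ fun Y h => by
    have := step (fun _ => 0) π Y h
    simp only [mul_zero, sum_const_zero] at this
    rw [hπ]; linarith [mul_nonneg (u0 Y) (Pψ0 Y)]
  have key : ∀ Y, ψ Y ≤ 1 + π Y := ind ρ p hp _ fun Y h => by
    have h1 := step ψ (fun Z => 1 + π Z) Y h
    simp only [mul_add, mul_one, sum_add_distrib] at h1
    have h2 : 0 ≤ ∑ Z, p Y Z * π Z := sum_nonneg fun Z _ => mul_nonneg (p0 _ _) (π0 _)
    rw [hψ, hπ]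
    simp only [u]
    split_ifs
    · linarith
    · linarith [p1 Y]
  have dual : ∀ f g : ι → ℝ, (∀ Y, f Y = g Y + ∑ Z, p Y Z * f Z) →
      ∑ Z, (T Z - ∑ Y, w Y Z) * f Z = ∑ Y, T Y * g Y := by
    intro f g h
    have e1 : ∀ Y, T Y * g Y = T Y * f Y - ∑ Z, w Y Z * f Z := fun Y => by
      have : T Y * ∑ Z, p Y Z * f Z = ∑ Z, w Y Z * f Z := by
        rw [mul_sum]; refine sum_congr rfl fun Z _ => ?_
        have := (Tp Y).ne'
        simp only [p]; field_simp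
      rw [← this, h Y]
      have := h Y
      ring_nf
    simp only [e1, sub_mul, sum_sub_distrib, sum_mul]
    rw [sum_comm]
  let N : ℕ → ι → ℝ := fun d Y => (V.filter fun X => le Y X ∧ ρ Y + d ≤ ρ X).card
  have bd : ∀ Y, ψ Y ≤ u Y + ∑ Z, p Y Z * u Z + κ * N 2 Y := ind ρ p hp _ fun Y h => by
    have h1 := step ψ (fun Z => u Z + ∑ X, p Z X * u X + κ * N 3 Y) Y fun Z hZ => by
      refine (h Z hZ).trans ?_
      have : N 2 Z ≤ N 3 Y := by
        simp only [N]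
        exact_mod_cast card_le_card fun X hX => by
          simp only [mem_filter] at hX ⊢
          have := hw _ _ (pw _ _ hZ)
          exact ⟨hX.1, tr _ _ _ this.2 hX.2.1, by omega⟩
      linarith [mul_le_mul_of_nonneg_left this κ0]
    simp only [mul_add, sum_add_distrib] at h1
    have h2 : ∑ Z, p Y Z * (κ * N 3 Y) ≤ κ * N 3 Y := by
      rw [← sum_mul]
      exact mul_le_of_le_one_left (mul_nonneg κ0 (Nat.cast_nonneg _)) (p1 Y)
    have h3 : ∑ Z, p Y Z * ∑ X, p Z X * u X ≤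
        κ * (V.filter fun X => le Y X ∧ ρ X = ρ Y + 2).card := by
      simp only [mul_sum]
      rw [sum_comm, card_eq_sum_ones, Nat.cast_sum, mul_sum, sum_filter,
        ← sum_filter_add_sum_filter_not univ (· ∈ V)]
      have z : ∑ X ∈ univ.filter (fun X => ¬ X ∈ V), ∑ Z, p Y Z * (p Z X * u X) = 0 :=
        sum_eq_zero fun X hX => by simp only [mem_filter] at hX; simp [u, hX.2]
      rw [z, add_zero, filter_mem_eq_inter, univ_inter]
      refine sum_le_sum fun X hX => ?_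
      simp only [u, hX, if_true, mul_one, Nat.cast_one]
      split_ifs with hc
      · rw [← sum_filter_ne_zero]
        refine (sum_le_card_nsmul _ _ ((B / M) ^ 2) fun Z _ => ?_).trans ?_
        · rw [sq]; exact mul_le_mul (pB _ _) (pB _ _) (p0 _ _) ((p0 Y Z).trans (pB _ _))
        · rw [nsmul_eq_mul, hκ]
          refine mul_le_mul_of_nonneg_right ?_ (sq_nonneg _)
          exact_mod_cast le_trans (card_le_card fun Z hZ => by
            simp only [mem_filter, mem_univ, true_and, mul_ne_zero_iff] at hZ ⊢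
            exact ⟨pw _ _ hZ.1, pw _ _ hZ.2⟩) (two Y X)
      · refine (sum_eq_zero fun Z _ => ?_).le
        by_contra hn
        have a := hw _ _ (pw _ _ (left_ne_zero_of_mul hn))
        have b := hw _ _ (pw _ _ (right_ne_zero_of_mul hn))
        exact hc ⟨tr _ _ _ a.2 b.2, by omega⟩
    have h4 : ((V.filter fun X => le Y X ∧ ρ X = ρ Y + 2).card : ℝ) + N 3 Y ≤ N 2 Y := by
      simp only [N]
      rw [← Nat.cast_add, ← card_union_of_disjoint (disjoint_filter.2 fun X _ h1 h2 => by omega)]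
      exact_mod_cast card_le_card fun X hX => by
        simp only [mem_union, mem_filter] at hX ⊢
        rcases hX with h | h
        · exact ⟨h.1, h.2.1, by omega⟩
        · exact ⟨h.1, h.2.1, by omega⟩
    rw [hψ]
    nlinarith [mul_le_mul_of_nonneg_left h4 κ0]
  have s0 : ∀ Z, 0 ≤ T Z - ∑ Y, w Y Z := fun Z => sub_nonneg.2 (T4 Z)
  have f1 : M * V.card ≤ ∑ Y, T Y * u Y := by
    simp only [u, mul_ite, mul_one, mul_zero, sum_ite_mem, univ_inter]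
    rw [mul_comm, ← nsmul_eq_mul]
    exact card_nsmul_le_sum _ _ _ fun Y _ => T1 Y
  have f2 : ∑ Z, (T Z - ∑ Y, w Y Z) * ψ Z ≤
      ∑ Z, (T Z - ∑ Y, w Y Z) + ∑ Z, (T Z - ∑ Y, w Y Z) * π Z := by
    rw [← sum_add_distrib]
    exact sum_le_sum fun Z _ => by nlinarith [mul_le_mul_of_nonneg_left (key Z) (s0 Z)]
  rw [dual _ _ hψ, dual _ _ hπ] at f2
  have f3 : ∑ Y, T Y * (u Y * ∑ Z, p Y Z * ψ Z) ≤
      M' * κ * ((V ×ˢ V).filter fun q => le q.1 q.2 ∧ ρ q.1 < ρ q.2).card := by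
    simp only [u, ite_mul, one_mul, zero_mul, mul_ite, mul_zero, sum_ite_mem, univ_inter]
    rw [card_filter, sum_product, Nat.cast_sum, mul_sum]
    refine sum_le_sum fun Y hY => ?_
    rw [← card_filter]
    have a1 := bd Y
    have a2 : ∑ Z, p Y Z * u Z = 0 := sum_eq_zero fun Z _ => by
      simp only [u]; split_ifs with hZ
      · by_contra hn; exact hV Y hY Z hZ (hp _ _ (left_ne_zero_of_mul hn))
      · simp
    have a3 : N 2 Y ≤ (V.filter fun X => le Y X ∧ ρ Y < ρ X).card := by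
      simp only [N]
      exact_mod_cast card_le_card fun X hX => by
        simp only [mem_filter] at hX ⊢
        exact ⟨hX.1, hX.2.1, by omega⟩
    have a4 := hψ Y
    have a5 : ∑ Z, p Y Z * ψ Z ≤ κ * (V.filter fun X => le Y X ∧ ρ Y < ρ X).card := by
      linarith [mul_le_mul_of_nonneg_left a3 κ0]
    rw [mul_assoc]
    exact mul_le_mul (T2 Y) a5 (Pψ0 Y) ((Tp Y).le.trans (T2 Y))
  linarith

end H20.Flow
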