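import Pool.Agent.H20.Flow

namespace H20.Flow

open Finset

theorem main' {α : Type} [DecidableEq α] (P : Finset α) (ρ : α → ℕ) (le : α → α → Prop)
    [DecidableRel le]
    (tr : ∀ a b c, le a b → le b c → le a c) (w : α → α → ℝ) (w0 : ∀ Y Z, 0 ≤ w Y Z)
    (hw : ∀ Y Z, w Y Z ≠ 0 → ρ Z = ρ Y + 1 ∧ le Y Z) (B M M' : ℝ) (hM : 0 < M)
    (wB : ∀ Y Z, w Y Z ≤ B)
    (two : ∀ Y X, (P.filter fun Z => w Y Z ≠ 0 ∧ w Z X ≠ 0).card ≤ 2) (T : α → ℝ)
    (T1 : ∀ Y ∈ P, M ≤ T Y) (T2 : ∀ Y ∈ P, T Y ≤ M') (T3 : ∀ Y ∈ P, ∑ Z ∈ P, w Y Z ≤ T Y)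
    (T4 : ∀ Z ∈ P, ∑ Y ∈ P, w Y Z ≤ T Z) (V : Finset α) (VP : V ⊆ P)
    (hV : ∀ a ∈ V, ∀ b ∈ V, ρ b ≠ ρ a + 1) :
    M * V.card ≤ ∑ Z ∈ P, (T Z - ∑ Y ∈ P, w Y Z) + M' * (2 * (B / M) ^ 2) *
      ((V ×ˢ V).filter fun q => le q.1 q.2 ∧ ρ q.1 < ρ q.2).card := by
  have := main (ι := P) (fun a => ρ a) (fun a b => le a b) (fun a b c => tr a b c)
    (fun a b => w a b) (fun a b => w0 a b) (fun a b => hw a b) B M M' hM (fun a b => wB a b)
    (fun Y X => le_trans (card_le_card_of_injOn Subtype.val (fun Z hZ => by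
        simp only [coe_filter, mem_univ, true_and, Set.mem_ofPred_eq] at hZ ⊢
        exact ⟨Z.2, hZ⟩) Subtype.val_injective.injOn) (two Y X))
    (fun a => T a) (fun a => T1 a a.2) (fun a => T2 a a.2)
    (fun a => by rw [sum_coe_sort P (w a)]; exact T3 a a.2)
    (fun a => by rw [sum_coe_sort P (fun Y => w Y a)]; exact T4 a a.2)
    (V.subtype (· ∈ P)) (fun a ha b hb => hV a (mem_subtype.1 ha) b (mem_subtype.1 hb))
  rw [card_subtype, filter_true_of_mem fun x hx => VP hx] at this
  have e : ∀ Z, ∑ Y : P, w Y Z = ∑ Y ∈ P, w Y Z := fun Z => sum_coe_sort P (fun Y => w Y Z)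
  simp only [e] at this
  rw [sum_coe_sort P (fun Z => T Z - ∑ Y ∈ P, w Y Z)] at this
  convert this using 3
  refine congrArg Nat.cast (card_bij (fun (q : P × P) _ => (q.1.1, q.2.1)) ?_ ?_ ?_).symm
  · intro q hq
    simp only [mem_filter, mem_product, mem_subtype] at hq ⊢
    exact hq
  · intro a _ b _ h
    simp only [Prod.mk.injEq] at h
    exact Prod.ext (Subtype.ext h.1) (Subtype.ext h.2)
  · intro q hq
    simp only [mem_filter, mem_product] at hq
    exact ⟨(⟨q.1, VP hq.1.1⟩, ⟨q.2, VP hq.1.2⟩), by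
      simp only [mem_filter, mem_product, mem_subtype]; exact hq, rfl⟩

theorem var (n k : ℕ) (hk : 2 ≤ k) (c : ℕ → ℝ) (h0 : ∑ a ∈ range n, c a = 0) :
    ∑ S ∈ (range n).powersetCard k, (∑ a ∈ S, c a) ^ 2 ≤
      ((range n).powersetCard k).card * ∑ a ∈ range n, c a ^ 2 := by
  set P := (range n).powersetCard k with hP
  let N : ℕ → ℕ → ℝ := fun a b => (P.filter fun S => ({a, b} : Finset ℕ) ⊆ S).card
  have e1 : ∑ S ∈ P, (∑ a ∈ S, c a) ^ 2 = ∑ a ∈ range n, ∑ b ∈ range n, c a * c b * N a b := by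
    have : ∀ S ∈ P, (∑ a ∈ S, c a) ^ 2 = ∑ a ∈ range n, ∑ b ∈ range n,
        c a * c b * if ({a, b} : Finset ℕ) ⊆ S then 1 else 0 := by
      intro S hS
      have h := (mem_powersetCard.1 hS).1
      have : ∑ a ∈ S, c a = ∑ a ∈ range n, if a ∈ S then c a else 0 := by
        rw [← sum_filter, filter_mem_eq_inter, inter_eq_right.2 h]
      rw [this, sq, sum_mul_sum]
      refine sum_congr rfl fun a _ => sum_congr rfl fun b _ => ?_
      by_cases ha : a ∈ S <;> by_cases hb : b ∈ S <;> simp [insert_subset_iff, ha, hb]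
    rw [sum_congr rfl this, sum_comm]
    refine sum_congr rfl fun a _ => ?_
    rw [sum_comm]
    refine sum_congr rfl fun b _ => ?_
    rw [← mul_sum]
    simp [N]
  set N2 : ℝ := (((n - 2).choose (k - 2) : ℕ) : ℝ) with hN2
  have e2 : ∀ a ∈ range n, ∀ b ∈ range n, c a * c b * N a b =
      N2 * (c a * c b) + if a = b then c a ^ 2 * (N a a - N2) else 0 := by
    intro a ha b hb
    split_ifs with h
    · subst h; ring
    · have := card_filter_powersetCard_subset {a, b} (range n) k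
        (by simp only [insert_subset_iff, singleton_subset_iff]; exact ⟨ha, hb⟩)
        (by rw [card_pair h]; exact hk)
      rw [card_pair h, card_range] at this
      simp only [N, hP, this, hN2]; ring
  rw [e1, sum_congr rfl fun a ha => sum_congr rfl fun b hb => e2 a ha b hb]
  simp only [sum_add_distrib, ← mul_sum, h0, mul_zero, sum_const_zero, zero_add, sum_ite_eq]
  rw [mul_sum]
  refine sum_le_sum fun a ha => ?_
  rw [if_pos ha, mul_comm]
  refine mul_le_mul_of_nonneg_right ?_ (sq_nonneg _)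
  have : N a a ≤ P.card := by simp only [N]; exact_mod_cast card_filter_le _ _
  have : 0 ≤ N2 := Nat.cast_nonneg _
  linarith

theorem prodsum (k : ℕ) (g : ℕ → Bool → Bool → ℝ) :
    ∑ S ∈ (range (2 * k)).powerset, ∏ j ∈ range k, g j (decide (2 * j ∈ S)) (decide (2 * j + 1 ∈ S)) =
      ∏ j ∈ range k, (g j false false + g j true false + g j false true + g j true true) := by
  induction k with
  | zero => simp
  | succ k ih =>
    rw [show 2 * (k + 1) = 2 * k + 1 + 1 by ring, range_add_one, range_add_one (n := 2 * k),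
      sum_powerset_insert (by simp), sum_powerset_insert (by simp), sum_powerset_insert (by simp),
      prod_range_succ, ← ih]
    simp only [← sum_add_distrib, sum_mul]
    refine sum_congr rfl fun S hS => ?_
    have hS' : ∀ x ∈ S, x < 2 * k := fun x hx => mem_range.1 (mem_powerset.1 hS hx)
    have a1 : 2 * k ∉ S := fun h => by have := hS' _ h; omega
    have a2 : 2 * k + 1 ∉ S := fun h => by have := hS' _ h; omega
    have b : ∀ (S' : Finset ℕ), (∀ x, x < 2 * k → (x ∈ S' ↔ x ∈ S)) →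
        ∏ j ∈ range k, g j (decide (2 * j ∈ S')) (decide (2 * j + 1 ∈ S')) =
        ∏ j ∈ range k, g j (decide (2 * j ∈ S)) (decide (2 * j + 1 ∈ S)) := fun S' h =>
      prod_congr rfl fun j hj => by
        have := mem_range.1 hj
        simp only [h (2 * j) (by omega), h (2 * j + 1) (by omega)]
    simp only [← range_add_one, prod_range_succ]
    rw [b (insert (2 * k) S) fun x hx => by simp; omega,
      b (insert (2 * k + 1) S) fun x hx => by simp; omega,
      b (insert (2 * k + 1) (insert (2 * k) S)) fun x hx => by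
        simp [show x ≠ 2 * k + 1 by omega, show x ≠ 2 * k by omega]]
    simp [a1, a2]
    ring

theorem atyp (k t : ℕ) (J : Finset ℕ) (hJ : J ⊆ range k) (hq : J.card = 14 * t) :
    (((range (2 * k)).powerset.filter fun S =>
      (J.filter fun j => 2 * j ∉ S ∧ 2 * j + 1 ∈ S).card < t).card : ℝ) * 3 ^ t ≤ 4 ^ k := by
  let g : ℕ → Bool → Bool → ℝ := fun j x y => if j ∈ J ∧ x = false ∧ y = true then 1 / 2 else 1
  have h := prodsum k g
  have e : ∏ j ∈ range k, (g j false false + g j true false + g j false true + g j true true) =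
      4 ^ k * (7 / 8) ^ (14 * t) := by
    have : ∀ j ∈ range k, (g j false false + g j true false + g j false true + g j true true) =
        4 * if j ∈ J then 7 / 8 else 1 := fun j _ => by
      by_cases hj : j ∈ J <;> simp [g, hj] <;> norm_num
    rw [prod_congr rfl this, prod_mul_distrib, prod_const, card_range, prod_ite_mem,
      inter_eq_right.2 hJ, prod_const, hq]
  have l : (((range (2 * k)).powerset.filter fun S =>
      (J.filter fun j => 2 * j ∉ S ∧ 2 * j + 1 ∈ S).card < t).card : ℝ) * (1 / 2) ^ t ≤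
      ∑ S ∈ (range (2 * k)).powerset,
        ∏ j ∈ range k, g j (decide (2 * j ∈ S)) (decide (2 * j + 1 ∈ S)) := by
    rw [card_filter, Nat.cast_sum, sum_mul]
    refine sum_le_sum fun S _ => ?_
    have : ∏ j ∈ range k, g j (decide (2 * j ∈ S)) (decide (2 * j + 1 ∈ S)) =
        (1 / 2) ^ (J.filter fun j => 2 * j ∉ S ∧ 2 * j + 1 ∈ S).card := by
      simp only [g, decide_eq_false_iff_not, decide_eq_true_eq]
      rw [prod_ite, prod_const_one, mul_one, prod_const]
      congr 2
      ext j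
      simp only [mem_filter]
      exact ⟨fun h => h.2, fun h => ⟨hJ h.1, h⟩⟩
    rw [this]
    split_ifs with hc
    · rw [Nat.cast_one, one_mul]
      exact pow_le_pow_of_le_one (by norm_num) (by norm_num) hc.le
    · simp
  rw [h, e, pow_mul] at l
  have m : ((7 / 8 : ℝ) ^ 14) ^ t * 6 ^ t ≤ 1 := by
    rw [← mul_pow]; exact pow_le_one₀ (by norm_num) (by norm_num)
  have m2 : (3 : ℝ) ^ t = (1 / 2) ^ t * 6 ^ t := by rw [← mul_pow]; norm_num
  rw [m2, ← mul_assoc]
  calc _ ≤ 4 ^ k * ((7 / 8 : ℝ) ^ 14) ^ t * 6 ^ t := by gcongr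
    _ ≤ _ := by rw [mul_assoc]; exact mul_le_of_le_one_right (by positivity) m

end H20.Flow
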