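import Pool.Agent.H20.Flow2

namespace H20.Flow

open Finset

def sw (a : ℕ) (S : Finset ℕ) : Finset ℕ := S.map (Equiv.swap a (a + 1)).toEmbedding

theorem mem_sw {a x : ℕ} {S : Finset ℕ} : x ∈ sw a S ↔ Equiv.swap a (a + 1) x ∈ S := by
  simp [sw, mem_map_equiv]

theorem sw_sw (a : ℕ) (S : Finset ℕ) : sw a (sw a S) = S := by
  ext x; simp [mem_sw]

theorem sw_mem {n k a : ℕ} {S : Finset ℕ} (ha : a + 1 < n) (hS : S ∈ (range n).powersetCard k) :
    sw a S ∈ (range n).powersetCard k := by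
  rw [mem_powersetCard] at hS ⊢
  refine ⟨fun x hx => ?_, by simp [sw, hS.2]⟩
  have := mem_range.1 (hS.1 (mem_sw.1 hx))
  rw [Equiv.swap_apply_def] at this
  rw [mem_range]
  split_ifs at this <;> omega

theorem sum_sw {a : ℕ} {S : Finset ℕ} (h1 : a ∈ S) (h2 : a + 1 ∉ S) (f : ℕ → ℕ) :
    ∑ x ∈ sw a S, f x + f a = ∑ x ∈ S, f x + f (a + 1) := by
  rw [sw, sum_map, ← add_sum_erase _ _ h1, ← add_sum_erase S f h1]
  have : ∑ x ∈ S.erase a, f ((Equiv.swap a (a + 1)).toEmbedding x) = ∑ x ∈ S.erase a, f x :=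
    sum_congr rfl fun x hx => by
      have := mem_erase.1 hx
      simp only [Equiv.coe_toEmbedding]
      rw [Equiv.swap_apply_of_ne_of_ne this.1 fun (e : x = a + 1) => h2 (e ▸ this.2)]
  rw [this]
  simp only [Equiv.coe_toEmbedding, Equiv.swap_apply_left]
  ring

def ht (S : Finset ℕ) (t : ℕ) : ℕ := ∑ x ∈ S, if t ≤ x then 1 else 0

theorem ht_sw {a : ℕ} {S : Finset ℕ} (h1 : a ∈ S) (h2 : a + 1 ∉ S) (t : ℕ) :
    ht (sw a S) t = ht S t + if t = a + 1 then 1 else 0 := by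
  have := sum_sw h1 h2 fun x => if t ≤ x then 1 else 0
  unfold ht
  split_ifs at this ⊢ <;> omega

def r (n a : ℕ) : ℝ := (a + 1) * (n - a - 1)

theorem r0 {n a : ℕ} (h : a ∈ range n) : 0 ≤ r n a := by
  have : (a : ℝ) + 1 ≤ n := by exact_mod_cast mem_range.1 h
  exact mul_nonneg (by positivity) (by linarith)

theorem rB (k a : ℕ) : r (2 * k) a ≤ (k : ℝ) ^ 2 := by
  unfold r; push_cast; nlinarith [sq_nonneg ((k : ℝ) - a - 1)]

def w (n : ℕ) (Y Z : Finset ℕ) : ℝ :=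
  ∑ a ∈ range n, if (a ∈ Y ∧ a + 1 ∉ Y) ∧ Z = sw a Y then r n a else 0

def Up (n : ℕ) (Y : Finset ℕ) : ℝ := ∑ a ∈ range n, if a ∈ Y ∧ a + 1 ∉ Y then r n a else 0

def Dn (n : ℕ) (Y : Finset ℕ) : ℝ := ∑ a ∈ range n, if a + 1 ∈ Y ∧ a ∉ Y then r n a else 0

theorem w_ne {n : ℕ} {Y Z : Finset ℕ} (h : w n Y Z ≠ 0) : ∃ a, a ∈ Y ∧ a + 1 ∉ Y ∧ Z = sw a Y := by
  obtain ⟨a, -, ha⟩ := exists_ne_zero_of_sum_ne_zero h
  split_ifs at ha with hc
  · exact ⟨a, hc.1.1, hc.1.2, hc.2⟩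
  · exact absurd rfl ha

theorem w_nn (n : ℕ) (Y Z : Finset ℕ) : 0 ≤ w n Y Z :=
  sum_nonneg fun a ha => by split_ifs; exacts [r0 ha, le_rfl]

theorem w_le (k : ℕ) (Y Z : Finset ℕ) : w (2 * k) Y Z ≤ (k : ℝ) ^ 2 := by
  unfold w
  rw [← sum_filter]
  refine (sum_le_card_nsmul _ _ _ fun a _ => rB k a).trans ?_
  rw [nsmul_eq_mul]
  refine mul_le_of_le_one_left (sq_nonneg _) ?_
  have : ((range (2 * k)).filter fun a => (a ∈ Y ∧ a + 1 ∉ Y) ∧ Z = sw a Y).card ≤ 1 := by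
    refine card_le_one.2 fun a ha b hb => ?_
    simp only [mem_filter] at ha hb
    have e1 := ht_sw ha.2.1.1 ha.2.1.2 (a + 1)
    have e2 := ht_sw hb.2.1.1 hb.2.1.2 (a + 1)
    rw [← ha.2.2] at e1; rw [← hb.2.2] at e2
    split_ifs at e1 e2 <;> omega
  exact_mod_cast this

theorem w_two (n : ℕ) (P : Finset (Finset ℕ)) (Y X : Finset ℕ) :
    (P.filter fun Z => w n Y Z ≠ 0 ∧ w n Z X ≠ 0).card ≤ 2 := by
  rcases (P.filter fun Z => w n Y Z ≠ 0 ∧ w n Z X ≠ 0).eq_empty_or_nonempty with h | ⟨Z, hZ⟩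
  · simp [h]
  obtain ⟨a, a1, a2, rfl⟩ := w_ne (mem_filter.1 hZ).2.1
  obtain ⟨b, b1, b2, hb⟩ := w_ne (mem_filter.1 hZ).2.2
  refine le_trans (card_le_card (t := {sw a Y, sw b Y}) fun Z' hZ' => ?_) card_le_two
  obtain ⟨c, c1, c2, rfl⟩ := w_ne (mem_filter.1 hZ').2.1
  obtain ⟨d, d1, d2, hd⟩ := w_ne (mem_filter.1 hZ').2.2
  have e1 := ht_sw b1 b2 (c + 1)
  have e2 := ht_sw d1 d2 (c + 1)
  rw [← hb, ht_sw a1 a2] at e1
  rw [← hd, ht_sw c1 c2] at e2
  have : c = a ∨ c = b := by split_ifs at e1 e2 <;> omega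
  rcases this with rfl | rfl <;> simp

theorem row (n : ℕ) (P : Finset (Finset ℕ)) (Y : Finset ℕ) : ∑ Z ∈ P, w n Y Z ≤ Up n Y := by
  unfold w Up
  rw [sum_comm]
  refine sum_le_sum fun a ha => ?_
  by_cases h : a ∈ Y ∧ a + 1 ∉ Y
  · simp only [h, not_false_eq_true, and_self, true_and, sum_ite_eq', if_true]
    split_ifs
    exacts [le_rfl, r0 ha]
  · simp [h]

theorem col {n k : ℕ} {Z : Finset ℕ} (hZ : Z ∈ (range n).powersetCard k) :
    ∑ Y ∈ (range n).powersetCard k, w n Y Z = Dn n Z := by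
  unfold w Dn
  rw [sum_comm]
  refine sum_congr rfl fun a ha => ?_
  by_cases h : a + 1 < n
  · rw [sum_eq_single (sw a Z)]
    · simp [mem_sw, sw_sw]
    · intro Y _ hY
      rw [if_neg]
      rintro ⟨-, rfl⟩
      exact hY (sw_sw _ _).symm
    · exact fun h' => absurd (sw_mem h hZ) h'
  · have : n = a + 1 := by have := mem_range.1 ha; omega
    have : r n a = 0 := by simp [r, this]
    simp [this]

theorem diff {n : ℕ} {S : Finset ℕ} (hS : S ⊆ range n) :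
    Up n S - Dn n S = ∑ a ∈ S, ((n : ℝ) - 1 - 2 * a) := by
  let f : ℕ → ℝ := fun a => if a ∈ S then 1 else 0
  have e1 : Up n S - Dn n S = ∑ a ∈ range n, r n a * f a - ∑ a ∈ range n, r n a * f (a + 1) := by
    unfold Up Dn
    rw [← sum_sub_distrib, ← sum_sub_distrib]
    refine sum_congr rfl fun a _ => ?_
    by_cases h1 : a ∈ S <;> by_cases h2 : a + 1 ∈ S <;> simp [f, h1, h2]
  have e2 : ∑ a ∈ range n, r n a * f (a + 1) = ∑ a ∈ range n, (a * ((n : ℝ) - a)) * f a := by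
    have h1 := sum_range_succ' (fun a : ℕ => (a * ((n : ℝ) - a)) * f a) n
    rw [sum_range_succ] at h1
    simp only [sub_self, mul_zero, zero_mul, add_zero, Nat.cast_zero] at h1
    rw [h1]
    refine sum_congr rfl fun a _ => ?_
    unfold r; push_cast; ring
  rw [e1, e2, ← sum_sub_distrib, ← inter_eq_right.2 hS, ← filter_mem_eq_inter, sum_filter]
  refine sum_congr rfl fun a _ => ?_
  simp only [f, r]
  split_ifs <;> ring

theorem sum_c (n : ℕ) : ∑ a ∈ range n, ((n : ℝ) - 1 - 2 * a) = 0 := by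
  have : ∀ m : ℕ, ∑ a ∈ range m, ((n : ℝ) - 1 - 2 * a) = m * (n - m) := fun m => by
    induction m with
    | zero => simp
    | succ m ih => rw [sum_range_succ, ih]; push_cast; ring
  simp [this]

theorem abs_sum (k : ℕ) (hk : 2 ≤ k) (y : ℝ) (y0 : 0 ≤ y) (hy : y ^ 2 = (k : ℝ) ^ 3) :
    ∑ S ∈ (range (2 * k)).powersetCard k, |Up (2 * k) S - Dn (2 * k) S| ≤
      3 * y * ((range (2 * k)).powersetCard k).card := by
  set P := (range (2 * k)).powersetCard k with hP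
  have h1 := sq_sum_le_card_mul_sum_sq (s := P) (f := fun S => |Up (2 * k) S - Dn (2 * k) S|)
  have h2 := var (2 * k) k hk _ (sum_c (2 * k))
  have h3 : ∑ a ∈ range (2 * k), (((2 * k : ℕ) : ℝ) - 1 - 2 * a) ^ 2 ≤ 8 * (k : ℝ) ^ 3 := by
    refine (sum_le_card_nsmul _ _ (4 * (k : ℝ) ^ 2) fun a ha => ?_).trans ?_
    · have : (a : ℝ) + 1 ≤ 2 * k := by exact_mod_cast mem_range.1 ha
      have a0 : (0 : ℝ) ≤ a := Nat.cast_nonneg _
      push_cast
      nlinarith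
    · rw [card_range, nsmul_eq_mul]; push_cast; ring_nf; rfl
  have h4 : ∑ S ∈ P, |Up (2 * k) S - Dn (2 * k) S| ^ 2 =
      ∑ S ∈ P, (∑ a ∈ S, (((2 * k : ℕ) : ℝ) - 1 - 2 * a)) ^ 2 :=
    sum_congr rfl fun S hS => by rw [sq_abs, diff (mem_powersetCard.1 hS).1]
  have c0 : (0 : ℝ) ≤ P.card := Nat.cast_nonneg _
  refine le_of_sq_le_sq ?_ (by positivity) |> fun h => h
  rw [h4] at h1
  have h5 := mul_le_mul_of_nonneg_left (h2.trans (mul_le_mul_of_nonneg_left h3 c0)) c0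
  have : (0 : ℝ) ≤ P.card ^ 2 * (k : ℝ) ^ 3 := by positivity
  rw [mul_pow, mul_pow, hy]
  nlinarith

theorem UD (k : ℕ) (p : ℕ → Prop) [DecidablePred p] :
    ∑ a ∈ range (2 * k), (if p a then r (2 * k) a else 0) ≤ 2 * (k : ℝ) ^ 3 := by
  refine (sum_le_card_nsmul _ _ ((k : ℝ) ^ 2) fun a _ => ?_).trans ?_
  · split_ifs
    exacts [rB k a, sq_nonneg _]
  · rw [card_range, nsmul_eq_mul]; push_cast; ring_nf; rfl

theorem typ (k t : ℕ) (h1 : 32 * t ≤ k) (h2 : k < 32 * t + 32) (h3 : 4 ≤ t) (S : Finset ℕ)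
    (hS : t ≤ ((Ico (8 * t + 8) (22 * t + 8)).filter fun j => 2 * j ∉ S ∧ 2 * j + 1 ∈ S).card) :
    t * ((k : ℝ) ^ 2 / 4) ≤ Dn (2 * k) S := by
  set F := (Ico (8 * t + 8) (22 * t + 8)).filter fun j => 2 * j ∉ S ∧ 2 * j + 1 ∈ S with hF
  have a1 : t * ((k : ℝ) ^ 2 / 4) ≤ ∑ j ∈ F, r (2 * k) (2 * j) := by
    refine le_trans ?_ (card_nsmul_le_sum F _ ((k : ℝ) ^ 2 / 4) fun j hj => ?_)
    · rw [nsmul_eq_mul]
      exact mul_le_mul_of_nonneg_right (by exact_mod_cast hS) (by positivity)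
    · have := mem_Ico.1 (mem_filter.1 hj).1
      have b1 : (k : ℝ) ≤ 4 * j + 2 := by exact_mod_cast (by omega : k ≤ 4 * j + 2)
      have b2 : 4 * (j : ℝ) + 2 ≤ 3 * k := by exact_mod_cast (by omega : 4 * j + 2 ≤ 3 * k)
      unfold r; push_cast
      nlinarith [mul_nonneg (sub_nonneg.2 b1) (sub_nonneg.2 b2)]
  refine a1.trans ?_
  rw [← sum_image (s := F) (g := fun j => 2 * j) (f := r (2 * k)) fun a _ b _ h => by simpa using h,
    Dn, ← sum_filter]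
  refine sum_le_sum_of_subset_of_nonneg (fun a ha => ?_) fun a ha _ => r0 (mem_filter.1 ha).1
  obtain ⟨j, hj, rfl⟩ := mem_image.1 ha
  simp only [hF, mem_filter, mem_Ico, mem_range] at hj ⊢
  exact ⟨by omega, hj.2.2, hj.2.1⟩

open Classical in
theorem sets (k t : ℕ) (h1 : 32 * t ≤ k) (h2 : k < 32 * t + 32) (h3 : 4 ≤ t) (y : ℝ) (y0 : 0 ≤ y)
    (hy : y ^ 2 = (k : ℝ) ^ 3) (V : Finset (Finset ℕ)) (VP : V ⊆ (range (2 * k)).powersetCard k)
    (hV : ∀ a ∈ V, ∀ b ∈ V, ∑ x ∈ b, x ≠ ∑ x ∈ a, x + 1) (M : ℝ) (hM : M = t * ((k : ℝ) ^ 2 / 4)) :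
    M * V.card ≤ 3 * y * (2 * k).choose k + M * (4 ^ k / 3 ^ t) +
      2 * (k : ℝ) ^ 3 * (2 * ((k : ℝ) ^ 2 / M) ^ 2) * ((V ×ˢ V).filter fun q =>
        (∀ s, ht q.1 s ≤ ht q.2 s) ∧ ∑ x ∈ q.1, x < ∑ x ∈ q.2, x).card := by
  have t0 : (4 : ℝ) ≤ t := by exact_mod_cast h3
  have k0 : 32 * (t : ℝ) ≤ k := by exact_mod_cast h1
  have kp : (0 : ℝ) < k := by linarith
  have M0 : 0 < M := by rw [hM]; positivity
  have := main' ((range (2 * k)).powersetCard k) (fun S => ∑ x ∈ S, x)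
    (fun Y Z => ∀ s, ht Y s ≤ ht Z s) (fun a b c p q s => (p s).trans (q s)) (w (2 * k))
    (w_nn _) (fun Y Z h => by
      obtain ⟨a, a1, a2, rfl⟩ := w_ne h
      refine ⟨?_, fun s => by rw [ht_sw a1 a2]; omega⟩
      have := sum_sw a1 a2 fun x => x
      omega) ((k : ℝ) ^ 2) M (2 * (k : ℝ) ^ 3) M0 (w_le k) (w_two _ _)
    (fun S => max (max (Up (2 * k) S) (Dn (2 * k) S)) M) (fun _ _ => le_max_right _ _)
    (fun S _ => max_le (max_le (UD k _) (UD k _)) (by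
      rw [hM]; nlinarith [mul_le_mul_of_nonneg_right k0 (sq_nonneg (k : ℝ)), pow_pos kp 3]))
    (fun S _ => (row _ _ S).trans (le_max_of_le_left (le_max_left _ _)))
    (fun S hS => (col hS).le.trans (le_max_of_le_left (le_max_right _ _))) V VP hV
  refine this.trans (add_le_add_left ?_ _)
  have a := abs_sum k (by omega) y y0 hy
  have b := atyp k t (Ico (8 * t + 8) (22 * t + 8))
    (fun j hj => by have := mem_Ico.1 hj; rw [mem_range]; omega) (by rw [Nat.card_Ico]; omega)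
  rw [card_powersetCard, card_range] at a
  rw [← le_div_iff₀ (by positivity)] at b
  refine le_trans ?_ (add_le_add a (mul_le_mul_of_nonneg_left b M0.le))
  rw [card_filter, Nat.cast_sum, mul_sum]
  refine le_trans ?_ (add_le_add le_rfl (sum_le_sum_of_subset_of_nonneg
    (s := (range (2 * k)).powersetCard k) (fun S hS => mem_powerset.2 (mem_powersetCard.1 hS).1)
    fun _ _ _ => by positivity))
  rw [← sum_add_distrib]
  refine sum_le_sum fun S hS => ?_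
  rw [col hS]
  have d0 : 0 ≤ Dn (2 * k) S := sum_nonneg fun a ha => by split_ifs; exacts [r0 ha, le_rfl]
  have u1 := le_abs_self (Up (2 * k) S - Dn (2 * k) S)
  have u2 := abs_nonneg (Up (2 * k) S - Dn (2 * k) S)
  rw [sub_le_iff_le_add]
  split_ifs with hc
  · rw [Nat.cast_one]
    exact max_le (max_le (by linarith) (by linarith)) (by linarith)
  · have := typ k t h1 h2 h3 S (not_lt.1 hc)
    rw [Nat.cast_zero]
    exact max_le (max_le (by linarith) (by linarith)) (by linarith)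

end H20.Flow
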