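import Pool.Agent.H20.Flow3

namespace H20.Flow

open Finset

def ph {k : ℕ} (l : Fin k → ℕ) : Finset ℕ := univ.image fun i => l i + i

theorem sm {k : ℕ} {l : Fin k → ℕ} (h : Monotone l) : StrictMono fun i => l i + (i : ℕ) :=
  fun a b hab => by have := h hab.le; have : (a : ℕ) < b := hab; simp only; omega

theorem ph_mem {k : ℕ} {l : Fin k → ℕ} (h : Monotone l) (h2 : ∀ i, l i ≤ k) :
    ph l ∈ (range (2 * k)).powersetCard k := by
  rw [mem_powersetCard]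
  refine ⟨fun x hx => ?_, by rw [ph, card_image_of_injective _ (sm h).injective]; simp⟩
  obtain ⟨i, -, rfl⟩ := mem_image.1 hx
  have := h2 i; have := i.2
  rw [mem_range]; omega

theorem ht_ph {k : ℕ} {l : Fin k → ℕ} (h : Monotone l) (t : ℕ) :
    ht (ph l) t = (univ.filter fun i => t ≤ l i + i).card := by
  rw [ht, ph, sum_image fun a _ b _ e => (sm h).injective e, card_filter]

theorem le_of {k : ℕ} {l m : Fin k → ℕ} (hl : Monotone l) (hm : Monotone m)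
    (h : ∀ s, ht (ph l) s ≤ ht (ph m) s) (i : Fin k) : l i ≤ m i := by
  by_contra hc
  have := h (l i + i)
  rw [ht_ph hl, ht_ph hm] at this
  have a : Ici i ⊆ univ.filter fun j => l i + i ≤ l j + j := fun j hj =>
    mem_filter.2 ⟨mem_univ _, (sm hl).monotone (mem_Ici.1 hj)⟩
  have b : (univ.filter fun j => l i + i ≤ m j + j) ⊆ Ioi i := fun j hj => by
    rw [mem_Ioi]
    by_contra hn
    have h1 := (sm hm).monotone (not_lt.1 hn)
    have h2 := (mem_filter.1 hj).2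
    omega
  have := (card_le_card a).trans (this.trans (card_le_card b))
  rw [Fin.card_Ici, Fin.card_Ioi] at this
  have := i.2
  omega

theorem cube (t : ℕ) : (t : ℝ) ^ 3 ≤ 3 ^ t := by
  have : ∀ t : ℕ, (t + 3) ^ 3 ≤ 3 ^ (t + 3) := fun t => by
    induction t with
    | zero => norm_num
    | succ t ih => rw [show t + 1 + 3 = t + 3 + 1 by ring, pow_succ 3]; nlinarith [Nat.zero_le (t ^ 3), Nat.zero_le (t ^ 2)]
  rcases Nat.lt_or_ge t 3 with h | h
  · interval_cases t <;> norm_num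
  · obtain ⟨s, rfl⟩ := Nat.exists_eq_add_of_le' h
    exact_mod_cast this s

theorem fin (k : ℕ) (hk : 128 ≤ k) (U : Finset (Fin k → ℕ))
    (hU : ∀ l ∈ U, Monotone l ∧ ∀ i, l i ≤ k) (y : ℝ) (y0 : 0 < y) (hy : y ^ 2 = (k : ℝ) ^ 3)
    (hc : 24 * 64 ^ 3 * y⁻¹ * (2 * k).choose k ≤ U.card) :
    1 / (16 * 256 ^ 3) * (k : ℝ) ^ 2 * U.card ≤
      ((U ×ˢ U).filter fun q => q.1 ≠ q.2 ∧ ∀ i, q.1 i ≤ q.2 i).card := by
  classical
  obtain ⟨U', sub, par, hU'⟩ : ∃ U' ⊆ U, (∀ a ∈ U', ∀ b ∈ U', ∑ x ∈ ph b, x ≠ ∑ x ∈ ph a, x + 1) ∧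
      U.card ≤ 2 * U'.card := by
    have := card_filter_add_card_filter_not (s := U) fun l => (∑ x ∈ ph l, x) % 2 = 0
    rcases le_total (U.filter fun l => (∑ x ∈ ph l, x) % 2 = 0).card
      (U.filter fun l => ¬ (∑ x ∈ ph l, x) % 2 = 0).card with h | h
    · refine ⟨_, filter_subset (fun l => ¬ (∑ x ∈ ph l, x) % 2 = 0) _, fun a ha b hb => ?_, by omega⟩
      have := (mem_filter.1 ha).2; have := (mem_filter.1 hb).2; omega
    · refine ⟨_, filter_subset (fun l => (∑ x ∈ ph l, x) % 2 = 0) _, fun a ha b hb => ?_, by omega⟩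
      have := (mem_filter.1 ha).2; have := (mem_filter.1 hb).2; omega
  have inj : Set.InjOn ph (U' : Set (Fin k → ℕ)) := fun a ha b hb e => funext fun i =>
    le_antisymm (le_of (hU a (sub ha)).1 (hU b (sub hb)).1 (fun s => by rw [e]) i)
      (le_of (hU b (sub hb)).1 (hU a (sub ha)).1 (fun s => by rw [e]) i)
  set t := k / 32 with ht'
  have s := sets k t (by omega) (by omega) (by omega) y y0.le hy (U'.image ph) (fun S hS => by
      obtain ⟨l, hl, rfl⟩ := mem_image.1 hS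
      exact ph_mem (hU l (sub hl)).1 (hU l (sub hl)).2) (fun a ha b hb => by
      obtain ⟨l, hl, rfl⟩ := mem_image.1 ha
      obtain ⟨m, hm, rfl⟩ := mem_image.1 hb
      exact par l hl m hm) _ rfl
  rw [card_image_of_injOn inj] at s
  have e : ((U'.image ph ×ˢ U'.image ph).filter fun q =>
        (∀ s, ht q.1 s ≤ ht q.2 s) ∧ ∑ x ∈ q.1, x < ∑ x ∈ q.2, x).card ≤
      ((U ×ˢ U).filter fun q => q.1 ≠ q.2 ∧ ∀ i, q.1 i ≤ q.2 i).card := by
    refine le_trans (card_le_card fun q hq => ?_) (card_image_le (f := Prod.map ph ph))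
    simp only [mem_filter, mem_product, mem_image] at hq ⊢
    obtain ⟨⟨⟨l, hl, e1⟩, m, hm, e2⟩, h1, h2⟩ := hq
    rw [← e1, ← e2] at h1 h2
    refine ⟨(l, m), ⟨⟨sub hl, sub hm⟩, fun e => ?_, le_of (hU l (sub hl)).1 (hU m (sub hm)).1 h1⟩,
      Prod.ext e1 e2⟩
    simp only at e
    rw [e] at h2; exact lt_irrefl _ h2
  set E : ℝ := ((((U ×ˢ U).filter fun q => q.1 ≠ q.2 ∧ ∀ i, q.1 i ≤ q.2 i).card : ℕ) : ℝ) with hE
  set C : ℝ := (((2 * k).choose k : ℕ) : ℝ) with hC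
  set M : ℝ := t * ((k : ℝ) ^ 2 / 4) with hM
  have kp : (128 : ℝ) ≤ k := by exact_mod_cast hk
  have kt : (k : ℝ) ≤ 64 * t := by exact_mod_cast (by omega : k ≤ 64 * t)
  have k0 : (0 : ℝ) < k := by linarith
  have t0 : (0 : ℝ) < t := by linarith
  have M1 : (k : ℝ) ^ 3 / 256 ≤ M := by
    rw [hM]; nlinarith [mul_le_mul_of_nonneg_right kt (sq_nonneg (k : ℝ))]
  have M0 : 0 < M := lt_of_lt_of_le (by positivity) M1
  have C0 : 0 ≤ C := Nat.cast_nonneg _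
  have c4 : (4 : ℝ) ^ k ≤ (2 * k + 1) * C := by
    rw [hC]; exact_mod_cast Nat.four_pow_le_two_mul_add_one_mul_central_binom k
  have u2 : (U.card : ℝ) ≤ 2 * U'.card := by exact_mod_cast hU'
  have yk : y ≤ (k : ℝ) ^ 2 := by
    refine le_of_sq_le_sq ?_ (by positivity)
    rw [hy]; nlinarith [pow_pos k0 3]
  have hc' : 24 * 64 ^ 3 * C ≤ U.card * y := by
    rw [← div_le_iff₀ y0]; refine le_trans (le_of_eq ?_) hc; ring
  have u0 : (0 : ℝ) ≤ U.card := Nat.cast_nonneg _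
  have f1 : 3 * y * C ≤ M * U.card / 8 := by
    have : 3 * y * (24 * 64 ^ 3 * C) ≤ 3 * y * (U.card * y) := by gcongr
    have e2 : 3 * y * (U.card * y) = 3 * U.card * (k : ℝ) ^ 3 := by rw [← hy]; ring
    nlinarith [mul_le_mul_of_nonneg_right M1 u0, mul_nonneg M0.le u0]
  have f2 : (4 : ℝ) ^ k / 3 ^ t ≤ U.card / 8 := by
    rw [div_le_iff₀ (by positivity)]
    refine c4.trans ?_
    have a1 : (k : ℝ) ^ 3 ≤ 64 ^ 3 * 3 ^ t := by
      calc (k : ℝ) ^ 3 ≤ (64 * (t : ℝ)) ^ 3 := by gcongr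
        _ = 64 ^ 3 * (t : ℝ) ^ 3 := by ring
        _ ≤ _ := by gcongr; exact cube t
    have a2 : 24 * 64 ^ 3 * C ≤ U.card * (k : ℝ) ^ 2 := hc'.trans (by gcongr)
    have a3 : (2 * k + 1) * C ≤ 3 * k * C := by gcongr; linarith
    have a4 := mul_le_mul_of_nonneg_left a2 k0.le
    have a5 := mul_le_mul_of_nonneg_left a1 u0
    nlinarith
  have f3 : M * U.card / 4 ≤ 2 * (k : ℝ) ^ 3 * (2 * ((k : ℝ) ^ 2 / M) ^ 2) * E := by
    have e' : ((((U'.image ph ×ˢ U'.image ph).filter fun q =>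
        (∀ s, ht q.1 s ≤ ht q.2 s) ∧ ∑ x ∈ q.1, x < ∑ x ∈ q.2, x).card : ℕ) : ℝ) ≤ E := by
      rw [hE]; exact_mod_cast e
    have := mul_le_mul_of_nonneg_left e'
      (by positivity : 0 ≤ 2 * (k : ℝ) ^ 3 * (2 * ((k : ℝ) ^ 2 / M) ^ 2))
    nlinarith [mul_le_mul_of_nonneg_left f2 M0.le, mul_le_mul_of_nonneg_left u2 M0.le]
  have E0 : 0 ≤ E := Nat.cast_nonneg _
  have f4 : M ^ 3 * U.card ≤ 16 * (k : ℝ) ^ 7 * E := by
    have := mul_le_mul_of_nonneg_left f3 (by positivity : 0 ≤ 4 * M ^ 2)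
    refine le_trans (le_of_eq (by ring)) (this.trans (le_of_eq ?_))
    field_simp; ring
  have f5 : ((k : ℝ) ^ 3 / 256) ^ 3 * U.card ≤ M ^ 3 * U.card := by gcongr
  have k7 : 0 < 16 * (k : ℝ) ^ 7 := by positivity
  refine le_of_mul_le_mul_left (le_trans (le_of_eq ?_) (f5.trans f4)) k7
  ring

end H20.Flow
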