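import Mathlib

set_option autoImplicit false

namespace Pool.Agent.H20.Gamma

/-- five cliques of sizes 4,4,3,3,3 arranged cyclically, consecutive ones sharing a vertex -/
def m0 : Fin 12 → ℕ := ![498, 901, 1546, 3092, 2153, 81, 49, 259, 131, 6, 12, 24]
/-- five cliques of sizes 4,3,3,4,3 arranged cyclically, consecutive ones sharing a vertex -/
def m1 : Fin 12 → ℕ := ![242, 389, 1802, 3604, 2153, 81, 49, 3, 6, 1036, 524, 24]

def G0 : SimpleGraph (Fin 12) where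
  Adj u v := (m0 u).testBit v = true
  symm := ⟨by decide +kernel⟩
  loopless := ⟨by decide +kernel⟩

def G1 : SimpleGraph (Fin 12) where
  Adj u v := (m1 u).testBit v = true
  symm := ⟨by decide +kernel⟩
  loopless := ⟨by decide +kernel⟩

instance : DecidableRel G0.Adj := fun u v => inferInstanceAs (Decidable ((m0 u).testBit v = true))
instance : DecidableRel G1.Adj := fun u v => inferInstanceAs (Decidable ((m1 u).testBit v = true))

def f0 : Fin 12 → Finset (Fin 12) :=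
  ![{0, 1, 3}, {0, 2, 3}, {0, 2, 4}, {1, 2, 4}, {1, 3, 4}, {1, 3, 5}, {1, 3, 6}, {0, 3, 9},
    {0, 2, 11}, {2, 4, 7}, {2, 4, 8}, {1, 4, 10}]

def f1 : Fin 12 → Finset (Fin 12) :=
  ![{1, 3, 4}, {0, 1, 3}, {0, 2, 3}, {0, 2, 4}, {1, 2, 4}, {1, 4, 9}, {1, 4, 10}, {1, 3, 5},
    {1, 3, 6}, {0, 3, 8}, {0, 2, 11}, {2, 4, 7}]

theorem gen (G H : SimpleGraph (Fin 12)) (f : Fin 12 → Finset (Fin 12))
    (h1 : ∀ a, (f a).card = 3 ∧ ∀ v, v ∈ f a ∨ ∃ u ∈ f a, G.Adj u v)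
    (h2 : ∀ x y z : Fin 12, (∀ v, (v = x ∨ v = y ∨ v = z) ∨ (G.Adj x v ∨ G.Adj y v ∨ G.Adj z v)) →
      ∃ a, f a = {x, y, z})
    (h3 : Function.Injective f)
    (h4 : ∀ a b, H.Adj a b ↔
          ∃ u v, u ∈ f a ∧ v ∉ f a ∧ G.Adj u v ∧ f b = insert v ((f a).erase u)) :
    ∃ e : Fin 12 ≃
          {S : Finset (Fin 12) //
            (∀ v, v ∈ S ∨ ∃ u ∈ S, G.Adj u v) ∧
            ∀ T : Finset (Fin 12),
              (∀ v, v ∈ T ∨ ∃ u ∈ T, G.Adj u v) → S.card ≤ T.card},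
        ∀ a b, H.Adj a b ↔
          ∃ u v, u ∈ (e a).1 ∧ v ∉ (e a).1 ∧ G.Adj u v ∧
            (e b).1 = insert v ((e a).1.erase u) := by
  have key : ∀ T : Finset (Fin 12), (∀ v, v ∈ T ∨ ∃ u ∈ T, G.Adj u v) → T.card ≤ 3 →
      ∃ a, f a = T := by
    intro T hT hc
    have hne : T.Nonempty := by
      rcases hT 0 with h | ⟨u, hu, _⟩
      · exact ⟨0, h⟩
      · exact ⟨u, hu⟩
    have : ∃ x y z, T = {x, y, z} := by
      have hp := hne.card_pos
      have : T.card = 1 ∨ T.card = 2 ∨ T.card = 3 := by omega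
      rcases this with h | h | h
      · obtain ⟨x, rfl⟩ := Finset.card_eq_one.1 h
        exact ⟨x, x, x, by simp⟩
      · obtain ⟨x, y, _, rfl⟩ := Finset.card_eq_two.1 h
        exact ⟨x, y, y, by simp⟩
      · obtain ⟨x, y, z, _, _, _, rfl⟩ := Finset.card_eq_three.1 h
        exact ⟨x, y, z, rfl⟩
    obtain ⟨x, y, z, rfl⟩ := this
    apply h2
    intro v
    simpa using hT v
  have hmin : ∀ a, ∀ T : Finset (Fin 12),
      (∀ v, v ∈ T ∨ ∃ u ∈ T, G.Adj u v) → (f a).card ≤ T.card := by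
    intro a T hT
    rw [(h1 a).1]
    by_contra hc
    obtain ⟨b, hb⟩ := key T hT (by omega)
    have := (h1 b).1
    rw [hb] at this
    omega
  refine ⟨Equiv.ofBijective (fun a => ⟨f a, (h1 a).2, hmin a⟩) ⟨?_, ?_⟩, h4⟩
  · intro a b h
    exact h3 (congrArg Subtype.val h)
  · rintro ⟨S, hS1, hS2⟩
    have := hS2 (f 0) (h1 0).2
    rw [(h1 0).1] at this
    obtain ⟨a, ha⟩ := key S hS1 this
    exact ⟨a, Subtype.ext ha⟩

theorem s01 : ∃ e : Fin 12 ≃
          {S : Finset (Fin 12) //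
            (∀ v, v ∈ S ∨ ∃ u ∈ S, G0.Adj u v) ∧
            ∀ T : Finset (Fin 12),
              (∀ v, v ∈ T ∨ ∃ u ∈ T, G0.Adj u v) → S.card ≤ T.card},
        ∀ a b, G1.Adj a b ↔
          ∃ u v, u ∈ (e a).1 ∧ v ∉ (e a).1 ∧ G0.Adj u v ∧
            (e b).1 = insert v ((e a).1.erase u) :=
  gen G0 G1 f0 (by decide +kernel) (by decide +kernel) (by decide +kernel) (by decide +kernel)

theorem s10 : ∃ e : Fin 12 ≃
          {S : Finset (Fin 12) //
            (∀ v, v ∈ S ∨ ∃ u ∈ S, G1.Adj u v) ∧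
            ∀ T : Finset (Fin 12),
              (∀ v, v ∈ T ∨ ∃ u ∈ T, G1.Adj u v) → S.card ≤ T.card},
        ∀ a b, G0.Adj a b ↔
          ∃ u v, u ∈ (e a).1 ∧ v ∉ (e a).1 ∧ G1.Adj u v ∧
            (e b).1 = insert v ((e a).1.erase u) :=
  gen G1 G0 f1 (by decide +kernel) (by decide +kernel) (by decide +kernel) (by decide +kernel)

theorem noniso : IsEmpty (G1 ≃g G0) := by
  refine ⟨fun φ => ?_⟩
  have h1 : ∀ v, G1.degree v ≠ 6 := by decide +kernel
  have h0 : G0.degree 0 = 6 := by decide +kernel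
  have := φ.symm.degree_eq 0
  rw [h0] at this
  exact h1 _ this

end Pool.Agent.H20.Gamma
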