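import Mathlib

namespace H20Gm
open Finset

abbrev Vx (k : ℕ) := {A : Finset (Fin (2 * k)) // A.card = k}

/-- The generalized Johnson graph `J_{E_k}(2k,k)`, `E_k = {s even, 2 ≤ s ≤ k-1}`. -/
def J (k : ℕ) : SimpleGraph (Vx k) where
  Adj A B := A ≠ B ∧ Even (A.1 ∩ B.1).card ∧ 2 ≤ (A.1 ∩ B.1).card ∧ (A.1 ∩ B.1).card ≤ k - 1
  symm := ⟨fun A B h => by rw [inter_comm]; exact ⟨h.1.symm, h.2⟩⟩
  loopless := ⟨fun A h => h.1 rfl⟩

variable {k : ℕ}

def cp (x : Vx k) : Vx k := ⟨x.1ᶜ, by rw [card_compl, x.2]; simp; omega⟩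

theorem vx_eq {x y : Vx k} (h : x.1 ⊆ y.1) : x = y :=
  Subtype.ext (eq_of_subset_of_card_le h (by rw [x.2, y.2]))

theorem adj_iff {x y : Vx k} (h1 : y ≠ x) (h2 : y ≠ cp x) :
    (J k).Adj x y ↔ Even (x.1 ∩ y.1).card := by
  refine ⟨fun h => h.2.1, fun h => ⟨h1.symm, h, ?_, ?_⟩⟩
  · have : (x.1 ∩ y.1).card ≠ 0 := by
      intro h0
      refine h2 (vx_eq fun i hi => ?_)
      simp only [cp, mem_compl]
      intro hx
      have : i ∈ x.1 ∩ y.1 := mem_inter.2 ⟨hx, hi⟩
      rw [card_eq_zero.1 h0] at this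
      simp at this
    obtain ⟨r, hr⟩ := h
    omega
  · by_contra hc
    have : x.1 ∩ y.1 = y.1 := eq_of_subset_of_card_le inter_subset_right (by rw [y.2]; omega)
    exact h1 (vx_eq (this ▸ inter_subset_left))

def io (s : Finset (Fin (2 * k))) (i : Fin (2 * k)) : ZMod 2 := if i ∈ s then 1 else 0

def ip (s t : Finset (Fin (2 * k))) : ZMod 2 := ∑ i, io s i * io t i

theorem ip_eq (s t : Finset (Fin (2 * k))) : ip s t = ((s ∩ t).card : ZMod 2) := by
  have : s ∩ t = univ.filter fun i => i ∈ s ∧ i ∈ t := by ext; simp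
  rw [this, ← sum_boole]
  refine sum_congr rfl fun i _ => ?_
  unfold io
  by_cases h1 : i ∈ s <;> by_cases h2 : i ∈ t <;> simp [h1, h2]

theorem adj_ip {x y : Vx k} (h1 : y ≠ x) (h2 : y ≠ cp x) : (J k).Adj x y ↔ ip x.1 y.1 = 0 := by
  rw [adj_iff h1 h2, ip_eq, ZMod.natCast_eq_zero_iff_even]

theorem io_insert {s : Finset (Fin (2 * k))} {j : Fin (2 * k)} (h : j ∉ s) (i : Fin (2 * k)) :
    io (insert j s) i = io s i + if i = j then 1 else 0 := by
  unfold io
  by_cases h1 : i = j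
  · subst h1; simp [h]
  · simp [h1]

theorem sum_insert_io (φ : Fin (2 * k) → ZMod 2) {s : Finset (Fin (2 * k))} {j : Fin (2 * k)}
    (h : j ∉ s) : ∑ i, φ i * io (insert j s) i = ∑ i, φ i * io s i + φ j := by
  simp [io_insert h, mul_add, sum_add_distrib]

open Classical in
noncomputable def ch {V : Type} (G : SimpleGraph V) (x t : V) : ZMod 2 := if G.Adj x t then 1 else 0

def Good {V : Type} (G : SimpleGraph V) (a b u v : V) : Prop :=
  u ≠ b ∧ v ≠ b ∧ {t | ch G a t + ch G b t + ch G u t + ch G v t ≠ 0}.ncard ≤ 8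

def PP {V : Type} (G : SimpleGraph V) : Prop :=
  ∀ a b, G.Adj a b → ∃ u v u' v', Good G a b u v ∧ Good G a b u' v' ∧ u' ≠ u ∧ u' ≠ v ∧ v' ≠ u ∧
    v' ≠ v

theorem Good.map {V : Type} {G G' : SimpleGraph V} (e : G ≃g G') {a b u v : V}
    (h : Good G a b u v) : Good G' (e a) (e b) (e u) (e v) := by
  refine ⟨e.injective.ne h.1, e.injective.ne h.2.1, ?_⟩
  have hc : ∀ x t, ch G' (e x) (e t) = ch G x t := fun x t => by unfold ch; rw [e.map_adj_iff]
  have : {t | ch G' (e a) t + ch G' (e b) t + ch G' (e u) t + ch G' (e v) t ≠ 0} =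
      e '' {t | ch G a t + ch G b t + ch G u t + ch G v t ≠ 0} := by
    ext t
    obtain ⟨s, rfl⟩ := e.surjective t
    simp only [Set.mem_ofPred_eq, hc, Set.mem_image]
    exact ⟨fun h => ⟨s, h, rfl⟩, fun ⟨s', h, h'⟩ => e.injective h' ▸ h⟩
  rw [this, Set.ncard_image_of_injective _ e.injective]
  exact h.2.2

theorem PP.map {V : Type} {G G' : SimpleGraph V} (e : G ≃g G') (h : PP G) : PP G' := by
  intro a b hab
  obtain ⟨a, rfl⟩ := e.surjective a
  obtain ⟨b, rfl⟩ := e.surjective b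
  obtain ⟨u, v, u', v', h1, h2, h3, h4, h5, h6⟩ := h a b (e.map_adj_iff.1 hab)
  exact ⟨_, _, _, _, h1.map e, h2.map e, e.injective.ne h3, e.injective.ne h4, e.injective.ne h5,
    e.injective.ne h6⟩

theorem ch_J {x t : Vx k} (h1 : t ≠ x) (h2 : t ≠ cp x) : ch (J k) x t = 1 + ip x.1 t.1 := by
  unfold ch
  rw [adj_ip h1 h2]
  generalize ip x.1 t.1 = z
  revert z
  intro z
  have := (by decide : ∀ z : ZMod 2, z = 0 ∨ z = 1) z
  rcases this with rfl | rfl
  · simp
  · simp; decide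

def sw (x : Vx k) (i j : Fin (2 * k)) (hi : i ∈ x.1) (hj : j ∉ x.1) : Vx k :=
  ⟨insert j (x.1.erase i), by
    rw [card_insert_of_notMem (by simp [hj]), card_erase_add_one hi, x.2]⟩

theorem ip_sw (x : Vx k) (i j : Fin (2 * k)) (hi : i ∈ x.1) (hj : j ∉ x.1)
    (t : Finset (Fin (2 * k))) : ip (sw x i j hi hj).1 t + ip x.1 t = io t i + io t j := by
  have h1 := sum_insert_io (io t) (s := x.1.erase i) (j := j) (by simp [hj])
  have h2 := sum_insert_io (io t) (s := x.1.erase i) (j := i) (by simp)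
  rw [insert_erase hi] at h2
  simp only [ip, sw, mul_comm _ (io t _), h1, h2]
  generalize ∑ i_1, io t i_1 * io (x.1.erase i) i_1 = z
  generalize io t i = a
  generalize io t j = b
  revert z a b
  decide

theorem good_sw (a b : Vx k) (i j : Fin (2 * k)) (hi : i ∈ a.1) (hj : j ∉ a.1) (hi' : i ∈ b.1)
    (hj' : j ∉ b.1) : Good (J k) a b (sw a i j hi hj) (sw b i j hi' hj') := by
  have hij : i ≠ j := fun h => hj (h ▸ hi)
  refine ⟨fun h => ?_, fun h => ?_, ?_⟩
  · rw [← h] at hi'; simp [sw, hij] at hi'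
  · have := hi'; rw [← h] at this; simp [sw, hij] at this
  set u := sw a i j hi hj
  set v := sw b i j hi' hj'
  refine le_trans (Set.ncard_le_ncard (t := (({a, b, u, v} ∪ {cp a, cp b, cp u, cp v} :
    Finset (Vx k)) : Set (Vx k))) ?_) ?_
  · intro t ht
    by_contra hn
    simp only [coe_union, coe_insert, coe_singleton, Set.mem_union, Set.mem_insert_iff,
      Set.mem_singleton_iff, not_or] at hn
    apply ht
    rw [ch_J (by tauto) (by tauto), ch_J (by tauto) (by tauto), ch_J (by tauto) (by tauto),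
      ch_J (by tauto) (by tauto)]
    have h1 := ip_sw a i j hi hj t.1
    have h2 := ip_sw b i j hi' hj' t.1
    have h3 : (2 : ZMod 2) = 0 := by decide
    linear_combination h1 + h2 + (2 + io t.1 i + io t.1 j) * h3
  · rw [Set.ncard_coe_finset]
    have := card_union_le ({a, b, u, v} : Finset (Vx k)) {cp a, cp b, cp u, cp v}
    have := card_le_four (a := a) (b := b) (c := u) (d := v)
    have := card_le_four (a := cp a) (b := cp b) (c := cp u) (d := cp v)
    omega

theorem pp_J : PP (J k) := by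
  intro a b hab
  obtain ⟨i, hi, i', hi', hne⟩ := one_lt_card.1 (show 1 < (a.1 ∩ b.1).card from hab.2.2.1)
  obtain ⟨j, hj⟩ : ∃ j, j ∉ a.1 ∪ b.1 := by
    by_contra h
    push Not at h
    have h1 : a.1 ∪ b.1 = univ := eq_univ_iff_forall.2 h
    have h2 := card_union_add_card_inter a.1 b.1
    have := hab.2.2.1
    rw [h1, a.2, b.2, card_univ, Fintype.card_fin] at h2
    omega
  simp only [mem_inter, mem_union, not_or] at hi hi' hj
  have hij : i ≠ j := fun h => hj.1 (h ▸ hi.1)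
  refine ⟨_, _, _, _, good_sw a b i j hi.1 hj.1 hi.2 hj.2, good_sw a b i' j hi'.1 hj.1 hi'.2 hj.2,
    ?_, ?_, ?_, ?_⟩ <;>
  · intro h
    have := congrArg (fun x : Vx k => i ∈ x.1) h
    simp [sw, hij, hne, hi.1, hi.2] at this

theorem many (Z : Finset (Fin (2 * k))) (m : ℕ) (hZ : Z.card = 2 * m) (hm : m + 4 ≤ k)
    (B : Set (Vx k)) (h : ∀ X ⊆ Zᶜ, X.card = k - m → ∃ t ∈ B, t.1 \ Z = X) : 28 ≤ B.ncard := by
  have h1 : ((powersetCard (k - m) Zᶜ : Finset _) : Set (Finset (Fin (2 * k)))) ⊆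
      (fun t : Vx k => t.1 \ Z) '' B := by
    intro X hX
    have := mem_powersetCard.1 (mem_coe.1 hX)
    exact h X this.1 this.2
  have h2 := (Set.ncard_le_ncard h1).trans (Set.ncard_image_le)
  rw [Set.ncard_coe_finset, card_powersetCard, card_compl, hZ, Fintype.card_fin,
    show 2 * k - 2 * m = 2 * (k - m) by omega] at h2
  have h3 := Nat.choose_le_centralBinom 2 (k - m)
  have h4 : Nat.choose 8 2 ≤ Nat.choose (2 * (k - m)) 2 := Nat.choose_le_choose 2 (by omega)
  rw [Nat.centralBinom] at h3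
  have : Nat.choose 8 2 = 28 := by decide
  omega

end H20Gm
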