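import Pool.Agent.H20.Gm1

namespace H20Gm
open Finset

variable {k : ℕ}

def Ic (k a b : ℕ) : Finset (Fin (2 * k)) := univ.filter fun i => a ≤ i.1 ∧ i.1 < b

theorem card_Ic (a b : ℕ) (hb : b ≤ 2 * k) : (Ic k a b).card = b - a := by
  rw [← Nat.card_Ico a b]
  refine card_bij (fun v _ => v.1) (fun v hv => by simpa [Ic] using hv)
    (fun _ _ _ _ h => Fin.ext h) fun x hx => ?_
  have := mem_Ico.1 hx
  exact ⟨⟨x, by omega⟩, by simpa [Ic] using this, rfl⟩

variable (hk : 6 ≤ k)

def ff (p : Bool) : Fin (2 * k) := ⟨if p then 0 else 1, by split_ifs <;> omega⟩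
def gg (p : Bool) : Fin (2 * k) := ⟨if p then 2 else 3, by split_ifs <;> omega⟩
def RR (k : ℕ) (c : Bool) : Finset (Fin (2 * k)) :=
  Ic k (if c then k + 2 else 4) (if c then 2 * k else k + 2)

theorem n1 (c q : Bool) : gg hk q ∉ RR k c := by
  cases c <;> cases q <;> simp [gg, RR, Ic] <;> omega
theorem n2 (c p q : Bool) : ff hk p ∉ insert (gg hk q) (RR k c) := by
  cases c <;> cases q <;> cases p <;> simp [ff, gg, RR, Ic]

def aa (c p q : Bool) : Vx k := ⟨insert (ff hk p) (insert (gg hk q) (RR k c)), by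
  rw [card_insert_of_notMem (n2 hk c p q), card_insert_of_notMem (n1 hk c q), RR,
    card_Ic _ _ (by split_ifs <;> omega)]
  split_ifs <;> omega⟩

theorem mem_aa (c p q : Bool) (i : Fin (2 * k)) : i ∈ (aa hk c p q).1 ↔
    i.1 = (if p then 0 else 1) ∨ i.1 = (if q then 2 else 3) ∨
      ((if c then k + 2 else 4) ≤ i.1 ∧ i.1 < (if c then 2 * k else k + 2)) := by
  simp [aa, ff, gg, RR, Ic, Fin.ext_iff]

theorem cp_aa (c p q : Bool) : cp (aa hk c p q) = aa hk (!c) (!p) (!q) := by
  refine vx_eq fun i hi => ?_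
  simp only [cp, mem_compl, mem_aa] at hi
  rw [mem_aa]
  have := i.2
  cases c <;> cases p <;> cases q <;> simp at hi ⊢ <;> omega

theorem aa_inj {c p q c' p' q' : Bool} : aa hk c p q = aa hk c' p' q' ↔ c = c' ∧ p = p' ∧ q = q' := by
  refine ⟨fun h => ?_, by rintro ⟨rfl, rfl, rfl⟩; rfl⟩
  have h0 := congrArg (fun x : Vx k => (⟨0, by omega⟩ : Fin (2 * k)) ∈ x.1) h
  have h2 := congrArg (fun x : Vx k => (⟨2, by omega⟩ : Fin (2 * k)) ∈ x.1) h
  have h4 := congrArg (fun x : Vx k => (⟨4, by omega⟩ : Fin (2 * k)) ∈ x.1) h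
  simp only [mem_aa] at h0 h2 h4
  cases c <;> cases p <;> cases q <;> cases c' <;> cases p' <;> cases q' <;>
    simp at h0 h2 h4 ⊢ <;> omega

def InC (x : Vx k) : Prop := ∃ c p q, x = aa hk c p q

def QQ (t : Finset (Fin (2 * k))) : ZMod 2 :=
  (io t (ff hk true) + io t (ff hk false)) + (io t (gg hk true) + io t (gg hk false)) +
    (io t (ff hk true) + io t (ff hk false)) * (io t (gg hk true) + io t (gg hk false))

def G2 : SimpleGraph (Vx k) where
  Adj x y := (InC hk x ∧ ¬ InC hk y ∧ ((J k).Adj x y ↔ QQ hk y.1 = 0)) ∨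
    (¬ InC hk x ∧ InC hk y ∧ ((J k).Adj x y ↔ QQ hk x.1 = 0)) ∨
    ((InC hk x ↔ InC hk y) ∧ (J k).Adj x y)
  symm := ⟨fun x y h => by rw [(J k).adj_comm y x]; tauto⟩
  loopless := ⟨fun x h => by have := (J k).irrefl (v := x); tauto⟩

theorem ip_aa (c p q : Bool) (t : Finset (Fin (2 * k))) :
    ip (aa hk c p q).1 t = ip (RR k c) t + io t (gg hk q) + io t (ff hk p) := by
  simp only [ip, aa, mul_comm _ (io t _), sum_insert_io _ (n2 hk c p q),
    sum_insert_io _ (n1 hk c q)]

open Classical in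
theorem ch_G2 {x t : Vx k} (ht : ¬ InC hk t) (h1 : t ≠ x) (h2 : t ≠ cp x) :
    ch (G2 hk) x t = 1 + ip x.1 t.1 + (if InC hk x then 1 else 0) * QQ hk t.1 := by
  by_cases hx : InC hk x
  · have : (G2 hk).Adj x t ↔ (ip x.1 t.1 = 0 ↔ QQ hk t.1 = 0) := by
      rw [← adj_ip h1 h2]; simp only [G2]; tauto
    unfold ch
    rw [this, if_pos hx]
    rcases (by decide : ∀ z : ZMod 2, z = 0 ∨ z = 1) (ip x.1 t.1) with h | h <;>
    rcases (by decide : ∀ z : ZMod 2, z = 0 ∨ z = 1) (QQ hk t.1) with h' | h' <;>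
    simp [h, h'] <;> decide
  · have : (G2 hk).Adj x t ↔ (J k).Adj x t := by simp only [G2]; tauto
    rw [if_neg hx, zero_mul, add_zero, ← ch_J h1 h2]
    unfold ch
    rw [this]

def bb : Vx k := ⟨Ic k 0 4 ∪ Ic k (k + 2) (2 * k - 2), by
  rw [card_union_of_disjoint, card_Ic _ _ (by omega), card_Ic _ _ (by omega)]
  · omega
  · rw [disjoint_left]; intro i; simp [Ic]; omega⟩

theorem mem_bb (i : Fin (2 * k)) : i ∈ (bb hk).1 ↔ i.1 < 4 ∨ (k + 2 ≤ i.1 ∧ i.1 < 2 * k - 2) := by
  simp [bb, Ic]

theorem bb_not : ¬ InC hk (bb hk) := by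
  rintro ⟨c, p, q, h⟩
  have h0 := congrArg (fun x : Vx k => (⟨0, by omega⟩ : Fin (2 * k)) ∈ x.1) h
  have h1 := congrArg (fun x : Vx k => (⟨1, by omega⟩ : Fin (2 * k)) ∈ x.1) h
  simp only [mem_aa, mem_bb] at h0 h1
  cases c <;> cases p <;> cases q <;> simp at h0 h1

theorem adj_ab : (G2 hk).Adj (aa hk false true true) (bb hk) := by
  have hb := bb_not hk
  refine Or.inl ⟨⟨_, _, _, rfl⟩, hb, iff_of_true ?_ ?_⟩
  · rw [adj_iff (fun h => hb ⟨_, _, _, h⟩) (fun h => hb ⟨_, _, _, h.trans (cp_aa hk _ _ _)⟩)]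
    have : (aa hk false true true).1 ∩ (bb hk).1 = {ff hk true, gg hk true} := by
      ext i
      simp only [mem_inter, mem_aa, mem_bb, mem_insert, mem_singleton, ff, gg, Fin.ext_iff]
      simp; omega
    rw [this, card_pair (by simp [ff, gg])]
    decide
  · simp [QQ, io, mem_bb, ff, gg]
    decide

theorem struct {c p q : Bool} {v : Vx k} (hv : v ≠ bb hk) (κ : ZMod 2)
    (h : ∀ i, io (aa hk false true true).1 i + io (bb hk).1 i + io (aa hk c p q).1 i + io v.1 i = κ) :
    v = cp (bb hk) := by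
  have h4 : ∀ i : Fin (2 * k), 4 ≤ i.1 → io (aa hk false true true).1 i + io (aa hk c p q).1 i =
      if c then 1 else 0 := by
    intro i hi
    have := i.2
    unfold io
    simp only [mem_aa]
    by_cases h' : i.1 < k + 2
    · cases c <;> cases p <;> cases q <;> simp <;> (split_ifs <;> first | omega | decide | simp)
    · cases c <;> cases p <;> cases q <;> simp <;> (split_ifs <;> first | omega | decide | simp)
  have key : ∀ i : Fin (2 * k), 4 ≤ i.1 → io (bb hk).1 i + io v.1 i = κ - if c then 1 else 0 := by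
    intro i hi
    rw [← h i, ← h4 i hi]; ring
  rcases (by decide : ∀ z : ZMod 2, z = 0 ∨ z = 1) (κ - if c then 1 else 0) with h' | h'
  · refine absurd (vx_eq fun i hi => ?_) hv
    by_contra hn
    have := key i (by rw [mem_bb] at hn; omega)
    rw [h'] at this
    simp [io, hi, hn] at this
  · refine (vx_eq fun i hi => ?_).symm
    simp only [cp, mem_compl] at hi
    by_contra hn
    have := key i (by rw [mem_bb] at hi; omega)
    rw [h'] at this
    simp [io, hi, hn] at this

include hk in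
theorem lin (s : Fin (2 * k) → ZMod 2)
    (h : {t : Vx k | ∑ i, s i * io t.1 i ≠ 0}.ncard < 28) (i j : Fin (2 * k)) : s i = s j := by
  by_contra hne
  have hij : i ≠ j := by rintro rfl; exact hne rfl
  refine absurd (many {i, j} 1 (card_pair hij) (by omega) _ fun X hX hc => ?_) (not_le.2 h)
  have hi : i ∉ X := fun h => by simpa using hX h
  have hj : j ∉ X := fun h => by simpa using hX h
  by_cases h0 : ∑ x, s x * io X x + s i = 0
  · refine ⟨⟨insert j X, by rw [card_insert_of_notMem hj]; omega⟩, ?_, ?_⟩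
    · simp only [Set.mem_ofPred_eq, sum_insert_io _ hj]
      intro h1
      exact hne (add_left_cancel (h0.trans h1.symm))
    · ext x; simp only [mem_sdiff, mem_insert, mem_singleton]; grind
  · refine ⟨⟨insert i X, by rw [card_insert_of_notMem hi]; omega⟩, ?_, ?_⟩
    · simpa only [Set.mem_ofPred_eq, sum_insert_io _ hi] using h0
    · ext x; simp only [mem_sdiff, mem_insert, mem_singleton]; grind

theorem quad (s : Fin (2 * k) → ZMod 2) :
    28 ≤ {t : Vx k | ∑ i, s i * io t.1 i + QQ hk t.1 ≠ 0}.ncard := by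
  let p4 : Fin (2 * k) := ⟨4, by omega⟩
  let p5 : Fin (2 * k) := ⟨5, by omega⟩
  refine many {ff hk true, p4, gg hk true, p5} 2 ?_ (by omega) _ fun X hX hc => ?_
  · rw [card_insert_of_notMem (by simp [ff, gg, p4, p5]),
      card_insert_of_notMem (by simp [gg, p4, p5]), card_pair (by simp [gg, p5])]
  have hX' : ∀ x ∈ X, x ≠ ff hk true ∧ x ≠ p4 ∧ x ≠ gg hk true ∧ x ≠ p5 := fun x hx => by
    simpa [not_or] using hX hx
  by_contra hne
  push Not at hne
  have key : ∀ x y, (x = ff hk true ∨ x = p4) → (y = gg hk true ∨ y = p5) →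
      ∑ i, s i * io X i + s y + s x + QQ hk (insert x (insert y X)) = 0 := by
    intro x y hx hy
    have hy' : y ∉ X := fun h => by have := hX' y h; tauto
    have hx' : x ∉ insert y X := by
      simp only [mem_insert, not_or]
      refine ⟨?_, fun h => by have := hX' x h; tauto⟩
      rcases hx with rfl | rfl <;> rcases hy with rfl | rfl <;> simp [ff, gg, p4, p5]
    by_contra h
    refine hne ⟨insert x (insert y X), by
      rw [card_insert_of_notMem hx', card_insert_of_notMem hy']; omega⟩ ?_ ?_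
    · simpa only [Set.mem_ofPred_eq, sum_insert_io _ hx', sum_insert_io _ hy'] using h
    · ext z; simp only [mem_sdiff, mem_insert, mem_singleton]; grind
  have k1 := key _ _ (Or.inl rfl) (Or.inl rfl)
  have k2 := key _ _ (Or.inl rfl) (Or.inr rfl)
  have k3 := key _ _ (Or.inr rfl) (Or.inl rfl)
  have k4 := key _ _ (Or.inr rfl) (Or.inr rfl)
  have m0 : ff hk true ∉ X := fun h => (hX' _ h).1 rfl
  have m2 : gg hk true ∉ X := fun h => (hX' _ h).2.2.1 rfl
  have e : ∀ x y z : Fin (2 * k), z ≠ x → z ≠ y → io (insert x (insert y X)) z = io X z := by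
    intro x y z h1 h2; simp [io, h1, h2]
  have e1 : ∀ x y : Fin (2 * k), io (insert x (insert y X)) x = 1 := by intro x y; simp [io]
  have e2 : ∀ x y : Fin (2 * k), io (insert x (insert y X)) y = 1 := by intro x y; simp [io]
  have z0 : io X (ff hk true) = 0 := by simp [io, m0]
  have z2 : io X (gg hk true) = 0 := by simp [io, m2]
  unfold QQ at k1 k2 k3 k4
  rw [e1, e2, e _ _ (ff hk false) (by simp [ff]) (by simp [ff, gg]),
    e _ _ (gg hk false) (by simp [ff, gg]) (by simp [gg])] at k1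
  rw [e1, e _ _ (ff hk false) (by simp [ff]) (by simp [ff, p5]),
    e _ _ (gg hk false) (by simp [ff, gg]) (by simp [gg, p5]),
    e _ _ (gg hk true) (by simp [ff, gg]) (by simp [gg, p5]), z2] at k2
  rw [e2, e _ _ (ff hk false) (by simp [ff, p4]) (by simp [ff, gg]),
    e _ _ (gg hk false) (by simp [p4, gg]) (by simp [gg]),
    e _ _ (ff hk true) (by simp [ff, p4]) (by simp [gg, ff]), z0] at k3
  rw [e _ _ (ff hk false) (by simp [ff, p4]) (by simp [ff, p5]),
    e _ _ (gg hk false) (by simp [p4, gg]) (by simp [gg, p5]),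
    e _ _ (ff hk true) (by simp [ff, p4]) (by simp [p5, ff]),
    e _ _ (gg hk true) (by simp [p4, gg]) (by simp [gg, p5]), z0, z2] at k4
  revert k1 k2 k3 k4
  generalize ∑ i, s i * io X i = L
  generalize s (ff hk true) = a
  generalize s (gg hk true) = b
  generalize s p4 = c
  generalize s p5 = d
  generalize io X (ff hk false) = y
  generalize io X (gg hk false) = z
  revert L a b c d y z
  decide

theorem lemL {u v : Vx k} (h : Good (G2 hk) (aa hk false true true) (bb hk) u v) :
    u = cp (bb hk) ∨ v = cp (bb hk) := by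
  classical
  obtain ⟨hu, hv, hB⟩ := h
  set a := aa hk false true true with ha
  set b := bb hk with hb
  let s : Fin (2 * k) → ZMod 2 := fun i => io a.1 i + io b.1 i + io u.1 i + io v.1 i
  let ε : ZMod 2 := 1 + (if InC hk u then 1 else 0) + (if InC hk v then 1 else 0)
  let C : Finset (Vx k) := univ.image fun x : Bool × Bool × Bool => aa hk x.1 x.2.1 x.2.2
  have hC : C.card ≤ 8 := card_image_le.trans (by simp)
  have hF : {t : Vx k | ∑ i, s i * io t.1 i + ε * QQ hk t.1 ≠ 0}.ncard < 28 := by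
    refine lt_of_le_of_lt (Set.ncard_le_ncard (t := {t | ch (G2 hk) a t + ch (G2 hk) b t +
      ch (G2 hk) u t + ch (G2 hk) v t ≠ 0} ∪ ((C ∪ ({b, u, v} ∪ {cp b, cp u, cp v}) :
        Finset (Vx k)) : Set (Vx k))) ?_) ?_
    · intro t ht
      by_contra hn
      simp only [coe_union, coe_insert, coe_singleton, Set.mem_union, Set.mem_insert_iff,
        Set.mem_singleton_iff, not_or, Set.mem_ofPred_eq, not_not] at hn
      obtain ⟨h0, h1, h2⟩ := hn
      have htC : ¬ InC hk t := by
        rintro ⟨c, p, q, rfl⟩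
        exact h1 (mem_coe.2 (mem_image.2 ⟨(c, p, q), mem_univ _, rfl⟩))
      have hA : InC hk a := ⟨false, true, true, ha⟩
      have hb' : ¬ InC hk b := bb_not hk
      have t1 : t ≠ a := fun h => htC ⟨false, true, true, h⟩
      have t2 : t ≠ cp a := fun h => htC ⟨_, _, _, h.trans (cp_aa hk false true true)⟩
      rw [ch_G2 hk htC t1 t2, ch_G2 hk htC h2.1.1 h2.2.1, ch_G2 hk htC h2.1.2.1 h2.2.2.1,
        ch_G2 hk htC h2.1.2.2 h2.2.2.2, if_pos hA, if_neg hb'] at h0
      apply ht
      have h3 : (2 : ZMod 2) = 0 := by decide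
      simp only [s, ε, add_mul, sum_add_distrib]
      simp only [ip] at h0
      linear_combination h0 - 2 * h3
    · refine lt_of_le_of_lt (Set.ncard_union_le _ _) ?_
      rw [Set.ncard_coe_finset]
      have := card_union_le C (({b, u, v} : Finset (Vx k)) ∪ {cp b, cp u, cp v})
      have := card_union_le ({b, u, v} : Finset (Vx k)) {cp b, cp u, cp v}
      have := card_le_three (a := b) (b := u) (c := v)
      have := card_le_three (a := cp b) (b := cp u) (c := cp v)
      omega
  have hq := quad hk s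
  have h2 : (1 : ZMod 2) + 1 = 0 := by decide
  by_cases h1 : InC hk u <;> by_cases h1' : InC hk v
  · have : ε = 1 := by simp [ε, h1, h1', h2]
    simp only [this, one_mul] at hF
    omega
  · have : ε = 0 := by simp [ε, h1, h1', h2]
    simp only [this, zero_mul, add_zero] at hF
    obtain ⟨c, p, q, rfl⟩ := h1
    exact Or.inr (struct hk hv (s (ff hk true)) fun i => lin hk s hF i _)
  · have : ε = 0 := by simp [ε, h1, h1', h2]
    simp only [this, zero_mul, add_zero] at hF
    obtain ⟨c, p, q, rfl⟩ := h1'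
    refine Or.inl (struct hk (c := c) (p := p) (q := q) hu (s (ff hk true)) fun i => ?_)
    rw [← lin hk s hF i _]
    simp only [s]
    ring
  · have : ε = 1 := by simp [ε, h1, h1']
    simp only [this, one_mul] at hF
    omega

theorem not_iso : IsEmpty (J k ≃g G2 hk) := by
  refine ⟨fun e => ?_⟩
  obtain ⟨u, v, u', v', h1, h2, h3, h4, h5, h6⟩ := (pp_J.map e) _ _ (adj_ab hk)
  have := lemL hk h1
  have := lemL hk h2
  grind

end H20Gm
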