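import Pool.Agent.H20.Gm2

namespace H20Gm
open Finset Matrix

variable {k : ℕ} (hk : 6 ≤ k)

open Classical in
noncomputable def EE (x z : Vx k) : ℝ :=
  if ∃ c p q p' q', x = aa hk c p q ∧ z = aa hk c p' q' then 1 else 0

open Classical in
noncomputable def sg (x : Vx k) : ℝ := if InC hk x then 1 else -1

noncomputable def QM : Matrix (Vx k) (Vx k) ℝ :=
  Matrix.of fun x z => EE hk x z / 2 - if x = z then sg hk x else 0

theorem EE_symm (x z : Vx k) : EE hk x z = EE hk z x := by
  unfold EE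
  congr 1
  exact propext ⟨fun ⟨c, p, q, p', q', h, h'⟩ => ⟨c, p', q', p, q, h', h⟩,
    fun ⟨c, p, q, p', q', h, h'⟩ => ⟨c, p', q', p, q, h', h⟩⟩

theorem EE_D {x : Vx k} (hx : ¬ InC hk x) (z : Vx k) : EE hk x z = 0 :=
  if_neg fun ⟨c, p, q, _, _, h, _⟩ => hx ⟨c, p, q, h⟩

theorem EE_aa (c p q c' p' q' : Bool) :
    EE hk (aa hk c p q) (aa hk c' p' q') = if c = c' then 1 else 0 := by
  unfold EE
  by_cases h : c = c'
  · subst h; rw [if_pos ⟨c, p, q, p', q', rfl, rfl⟩, if_pos rfl]
  · rw [if_neg h, if_neg]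
    rintro ⟨c2, p2, q2, p3, q3, h1, h2⟩
    exact h (((aa_inj hk).1 h1).1.trans ((aa_inj hk).1 h2).1.symm)

theorem sumE (c p q : Bool) (φ : Vx k → ℝ) : ∑ z, EE hk (aa hk c p q) z * φ z =
    φ (aa hk c true true) + φ (aa hk c true false) + φ (aa hk c false true) +
      φ (aa hk c false false) := by
  classical
  have h1 : ∑ z, EE hk (aa hk c p q) z * φ z =
      ∑ z ∈ univ.image (fun x : Bool × Bool => aa hk c x.1 x.2), φ z := by
    rw [← sum_subset (subset_univ (univ.image (fun x : Bool × Bool => aa hk c x.1 x.2)))]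
    · refine sum_congr rfl fun z hz => ?_
      obtain ⟨x, -, rfl⟩ := mem_image.1 hz
      rw [EE_aa, if_pos rfl, one_mul]
    · intro z _ hz
      unfold EE
      rw [if_neg, zero_mul]
      rintro ⟨c2, p2, q2, p3, q3, h1, rfl⟩
      obtain rfl := ((aa_inj hk).1 h1).1
      exact hz (mem_image.2 ⟨(p3, q3), mem_univ _, rfl⟩)
  rw [h1, sum_image fun x _ y _ h => Prod.ext ((aa_inj hk).1 h).2.1 ((aa_inj hk).1 h).2.2,
    Fintype.sum_prod_type]
  simp only [Fintype.sum_bool]
  ring

theorem QM_mul (M : Matrix (Vx k) (Vx k) ℝ) (x y : Vx k) :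
    (QM hk * M) x y = (∑ z, EE hk x z * M z y) / 2 - sg hk x * M x y := by
  simp only [mul_apply, QM, of_apply, sub_mul, sum_sub_distrib, ite_mul, zero_mul, sum_ite_eq,
    mem_univ, if_true, sum_div]
  congr 1
  exact sum_congr rfl fun z _ => by ring

theorem mul_QM (M : Matrix (Vx k) (Vx k) ℝ) (x y : Vx k) :
    (M * QM hk) x y = (∑ z, EE hk y z * M x z) / 2 - sg hk y * M x y := by
  simp only [mul_apply, QM, of_apply, mul_sub, sum_sub_distrib, mul_ite, mul_zero, sum_ite_eq',
    mem_univ, if_true, sum_div]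
  congr 1
  · exact sum_congr rfl fun z _ => by rw [EE_symm]; ring
  · ring

theorem sg_aa (c p q : Bool) : sg hk (aa hk c p q) = 1 := if_pos ⟨c, p, q, rfl⟩
theorem sg_D {x : Vx k} (hx : ¬ InC hk x) : sg hk x = -1 := if_neg hx

theorem QM_sq : QM hk * QM hk = 1 := by
  ext x y
  rw [QM_mul, one_apply]
  by_cases hx : InC hk x
  · obtain ⟨c, p, q, rfl⟩ := hx
    rw [sumE, sg_aa]
    by_cases hy : InC hk y
    · obtain ⟨c', p', q', rfl⟩ := hy
      simp only [QM, of_apply, EE_aa, sg_aa, aa_inj]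
      cases c <;> cases p <;> cases q <;> cases c' <;> cases p' <;> cases q' <;> simp <;> norm_num
    · have : ∀ p q, aa hk c p q ≠ y := fun p q h => hy ⟨c, p, q, h.symm⟩
      simp [QM, EE_symm hk _ y, EE_D hk hy, this]
  · simp only [QM, of_apply, EE_D hk hx, sg_D hk hx]
    split_ifs <;> simp

theorem small : ∀ (r : ZMod 2) (x y : Bool → ZMod 2) (p q : Bool),
    let A : Bool → Bool → ℤ := fun p q => if r + y q + x p = 0 then 1 else 0
    let Q := (x true + x false) + (y true + y false) + (x true + x false) * (y true + y false)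
    let A' : Bool → Bool → ℤ := fun p q => if (r + y q + x p = 0 ↔ Q = 0) then 1 else 0
    A true true + A true false + A false true + A false false - 2 * A p q = 2 * A' p q ∧
    A' true true + A' true false + A' false true + A' false false - 2 * A' p q = 2 * A p q := by
  decide

theorem card_aa (c p q c' p' q' : Bool) : ((aa hk c p q).1 ∩ (aa hk c' p' q').1).card =
    (RR k c ∩ RR k c').card + (if p = p' then 1 else 0) + (if q = q' then 1 else 0) := by
  have e : (aa hk c p q).1 ∩ (aa hk c' p' q').1 = (RR k c ∩ RR k c') ∪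
      ((if p = p' then {ff hk p} else ∅) ∪ (if q = q' then {gg hk q} else ∅)) := by
    ext i
    simp only [mem_inter, mem_aa, mem_union]
    cases c <;> cases p <;> cases q <;> cases c' <;> cases p' <;> cases q' <;>
      simp [RR, Ic, ff, gg, Fin.ext_iff] <;> omega
  rw [e, card_union_of_disjoint, card_union_of_disjoint, add_assoc]
  · congr 1
    split_ifs <;> simp
  · split_ifs <;> cases p <;> cases q <;> simp [ff, gg]
  · rw [disjoint_left]
    intro i hi
    have : 4 ≤ i.1 := by
      have := (mem_inter.1 hi).1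
      cases c <;> simp [RR, Ic] at this <;> omega
    split_ifs <;> cases p <;> cases q <;> simp [ff, gg, Fin.ext_iff] <;> omega

open Classical in
theorem intertwine : QM hk * (J k).adjMatrix ℝ = (G2 hk).adjMatrix ℝ * QM hk := by
  have hD : ∀ c p q t, ¬ InC hk t → ((J k).Adj (aa hk c p q) t ↔
      ip (RR k c) t.1 + io t.1 (gg hk q) + io t.1 (ff hk p) = 0) := by
    intro c p q t ht
    rw [adj_ip (fun h => ht ⟨_, _, _, h⟩) (fun h => ht ⟨_, _, _, h.trans (cp_aa hk c p q)⟩), ip_aa]
  have hD' : ∀ c p q t, ¬ InC hk t → ((G2 hk).Adj (aa hk c p q) t ↔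
      (ip (RR k c) t.1 + io t.1 (gg hk q) + io t.1 (ff hk p) = 0 ↔ QQ hk t.1 = 0)) := by
    intro c p q t ht
    rw [← hD c p q t ht]
    have : InC hk (aa hk c p q) := ⟨c, p, q, rfl⟩
    simp only [G2]; tauto
  have hS : ∀ x y, (InC hk x ↔ InC hk y) → ((G2 hk).Adj x y ↔ (J k).Adj x y) := by
    intro x y h
    simp only [G2]; tauto
  ext x y
  rw [QM_mul, mul_QM]
  simp only [SimpleGraph.adjMatrix_apply]
  by_cases hx : InC hk x <;> by_cases hy : InC hk y
  · obtain ⟨c, p, q, rfl⟩ := hx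
    obtain ⟨c', p', q', rfl⟩ := hy
    have hS' : ∀ p q p' q', (G2 hk).Adj (aa hk c p q) (aa hk c' p' q') ↔
        (J k).Adj (aa hk c p q) (aa hk c' p' q') :=
      fun p q p' q' => hS _ _ (iff_of_true ⟨c, p, q, rfl⟩ ⟨c', p', q', rfl⟩)
    obtain ⟨F, hF⟩ : ∃ F : Bool → Bool → ℝ, ∀ p q p' q',
        (if (J k).Adj (aa hk c p q) (aa hk c' p' q') then (1 : ℝ) else 0) =
          F (p == p') (q == q') := by
      refine ⟨fun s t => if (J k).Adj (aa hk c true true) (aa hk c' s t) then 1 else 0,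
        fun p q p' q' => ?_⟩
      congr 1
      simp only [J, card_aa, Ne, aa_inj]
      cases p <;> cases q <;> cases p' <;> cases q' <;> simp
    rw [sumE, sumE, sg_aa, sg_aa]
    simp only [hS', hF]
    cases p <;> cases q <;> cases p' <;> cases q' <;> simp <;> ring
  · obtain ⟨c, p, q, rfl⟩ := hx
    rw [sumE, sg_aa, sg_D hk hy]
    simp only [EE_D hk hy, hD _ _ _ _ hy, hD' _ _ _ _ hy, zero_mul, sum_const_zero]
    have := congrArg (Int.cast : ℤ → ℝ)
      (small (ip (RR k c) y.1) (fun p => io y.1 (ff hk p)) (fun p => io y.1 (gg hk p)) p q).1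
    push_cast at this
    unfold QQ
    linear_combination this / 2
  · obtain ⟨c, p, q, rfl⟩ := hy
    rw [sumE, sg_aa, sg_D hk hx]
    simp only [EE_D hk hx, (J k).adj_comm x, (G2 hk).adj_comm x, hD _ _ _ _ hx, hD' _ _ _ _ hx,
      zero_mul, sum_const_zero]
    have := congrArg (Int.cast : ℤ → ℝ)
      (small (ip (RR k c) x.1) (fun p => io x.1 (ff hk p)) (fun p => io x.1 (gg hk p)) p q).2
    push_cast at this
    unfold QQ
    linear_combination -this / 2
  · simp only [EE_D hk hx, EE_D hk hy, sg_D hk hx, sg_D hk hy, hS x y (iff_of_false hx hy),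
      zero_mul, sum_const_zero]

open Classical in
theorem cospec : ((G2 hk).adjMatrix ℝ).charpoly = ((J k).adjMatrix ℝ).charpoly := by
  have h : (G2 hk).adjMatrix ℝ = QM hk * (J k).adjMatrix ℝ * QM hk := by
    rw [intertwine, Matrix.mul_assoc, QM_sq, Matrix.mul_one]
  rw [h, charpoly_mul_comm, ← Matrix.mul_assoc, QM_sq, Matrix.one_mul]

end H20Gm
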