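import Mathlib

set_option autoImplicit false

namespace H20.Gp

open Finset

lemma gp {n k : ℕ} (C D : Fin k → Finset (Fin n)) (hd : ∀ i, Disjoint (C i) (D i))
    (a : Fin k → ℝ) (γ : ℝ) (hγ : γ ≠ 0)
    (h : ∀ u v : Fin n, u ≠ v → ∑ i, a i *
      (if (u ∈ C i ∧ v ∈ D i) ∨ (v ∈ C i ∧ u ∈ D i) then 1 else 0) = γ) :
    n - 1 ≤ (univ.filter (fun i => a i ≠ 0)).card := by
  classical
  by_contra hc
  set S := univ.filter (fun i => a i ≠ 0) with hS
  let f : (Fin n → ℝ) →ₗ[ℝ] (Option S → ℝ) :=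
    { toFun := fun x o => match o with
        | none => ∑ u, x u
        | some i => ∑ u ∈ C i.1, x u
      map_add' := by
        intro x y; funext o; cases o <;> simp [sum_add_distrib]
      map_smul' := by
        intro r x; funext o; cases o <;> simp [mul_sum] }
  have hker : LinearMap.ker f ≠ ⊥ := LinearMap.ker_ne_bot_of_finrank_lt (by
    simp only [Module.finrank_fintype_fun_eq_card, Fintype.card_option, Fintype.card_coe,
      Fintype.card_fin]
    omega)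
  obtain ⟨x, hx, hx0⟩ := Submodule.exists_mem_ne_zero_of_ne_bot hker
  have h0 : ∑ u, x u = 0 := congrFun (LinearMap.mem_ker.mp hx) none
  have h1 : ∀ i, a i * ∑ u ∈ C i, x u = 0 := by
    intro i
    by_cases hi : a i = 0
    · rw [hi, zero_mul]
    · have : ∑ u ∈ C i, x u = 0 :=
        congrFun (LinearMap.mem_ker.mp hx) (some ⟨i, mem_filter.mpr ⟨mem_univ _, hi⟩⟩)
      rw [this, mul_zero]
  let p : Finset (Fin n) → Fin n → ℝ := fun A u => if u ∈ A then 1 else 0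
  have hp : ∀ A, ∑ u, p A u * x u = ∑ u ∈ A, x u := by
    intro A; simp [p, sum_ite_mem]
  have h2 : ∀ u v : Fin n, ∑ i, a i * (p (C i) u * p (D i) v + p (C i) v * p (D i) u) =
      γ - if u = v then γ else 0 := by
    intro u v
    have hdj : ∀ i z, z ∈ C i → z ∉ D i := fun i z hz => disjoint_left.mp (hd i) hz
    split_ifs with huv
    · subst huv
      rw [sub_self]
      refine sum_eq_zero fun i _ => ?_
      have := hdj i u
      by_cases b1 : u ∈ C i <;> by_cases b2 : u ∈ D i <;> simp_all [p]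
    · rw [sub_zero, ← h u v huv]
      refine sum_congr rfl fun i _ => ?_
      have := hdj i u
      have := hdj i v
      by_cases b1 : u ∈ C i <;> by_cases b2 : u ∈ D i <;> by_cases b3 : v ∈ C i <;>
        by_cases b4 : v ∈ D i <;> simp_all [p]
  have h3 : ∑ u, ∑ v, x u * x v * (γ - if u = v then γ else 0) = - γ * ∑ u, x u ^ 2 := by
    simp only [mul_sub, sum_sub_distrib, mul_ite, mul_zero, sum_ite_eq, mem_univ, if_true]
    rw [show ∑ u, ∑ v, x u * x v * γ = (∑ u, x u) * (∑ v, x v) * γ by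
      rw [sum_mul_sum, sum_mul]; exact sum_congr rfl fun u _ => by rw [sum_mul]]
    rw [h0, mul_sum]
    simp only [zero_mul, zero_sub, ← sum_neg_distrib]
    exact sum_congr rfl fun u _ => by ring
  have h4 : ∑ u, ∑ v, x u * x v *
      ∑ i, a i * (p (C i) u * p (D i) v + p (C i) v * p (D i) u) = 0 := by
    have : ∀ i, ∑ u, ∑ v, x u * x v * (a i * (p (C i) u * p (D i) v + p (C i) v * p (D i) u)) =
        2 * (a i * ∑ u ∈ C i, x u) * ∑ u ∈ D i, x u := by
      intro i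
      rw [← hp, ← hp]
      have e1 : ∑ u, ∑ v, x u * x v * (a i * (p (C i) u * p (D i) v + p (C i) v * p (D i) u)) =
          a i * (∑ u, ∑ v, (p (C i) u * x u) * (p (D i) v * x v)) +
          a i * (∑ u, ∑ v, (p (D i) u * x u) * (p (C i) v * x v)) := by
        simp only [mul_sum, ← sum_add_distrib]
        exact sum_congr rfl fun u _ => sum_congr rfl fun v _ => by ring
      rw [e1, ← sum_mul_sum, ← sum_mul_sum]
      ring
    rw [sum_congr rfl fun u _ => sum_congr rfl fun v _ => mul_sum _ _ _,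
      sum_congr rfl fun u _ => sum_comm, sum_comm]
    refine sum_eq_zero fun i _ => ?_
    rw [this i, h1 i]; ring
  simp only [h2] at h4
  rw [h3] at h4
  have h5 : ∑ u, x u ^ 2 = 0 := (mul_eq_zero.mp h4).resolve_left (neg_ne_zero.mpr hγ)
  apply hx0
  funext u
  exact pow_eq_zero_iff (two_ne_zero) |>.mp
    ((sum_eq_zero_iff_of_nonneg fun v _ => sq_nonneg (x v)).mp h5 u (mem_univ _))

def e1 : Fin 6 → Fin 4 := ![0, 0, 0, 1, 1, 2]

def e2 : Fin 6 → Fin 4 := ![1, 2, 3, 2, 3, 3]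

def cs : Fin 21 → Fin 6 → ℤ :=
  ![![1, 0, 0, 0, 0, 0],
    ![0, 1, 0, 0, 0, 0],
    ![0, 0, 1, 0, 0, 0],
    ![0, 0, 0, 1, 0, 0],
    ![0, 0, 0, 0, 1, 0],
    ![0, 0, 0, 0, 0, 1],
    ![-1, 1, 0, 1, 0, 0],
    ![1, -1, 0, 1, 0, 0],
    ![1, 1, 0, -1, 0, 0],
    ![-1, 0, 1, 0, 1, 0],
    ![1, 0, -1, 0, 1, 0],
    ![1, 0, 1, 0, -1, 0],
    ![0, -1, 1, 0, 0, 1],
    ![0, 1, -1, 0, 0, 1],
    ![0, 1, 1, 0, 0, -1],
    ![0, 0, 0, -1, 1, 1],
    ![0, 0, 0, 1, -1, 1],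
    ![0, 0, 0, 1, 1, -1],
    ![-1, 1, 1, 1, 1, -1],
    ![1, -1, 1, 1, -1, 1],
    ![1, 1, -1, -1, 1, 1]]

def mu : Fin 21 → ℕ := ![6, 6, 6, 6, 6, 6, 4, 4, 4, 4, 4, 4, 4, 4, 4, 4, 4, 4, 5, 5, 5]

def W (j : Fin 21) (A B : Finset (Fin 4)) : ℤ :=
  ∑ e, cs j e * (if (e1 e ∈ A ∧ e2 e ∈ B) ∨ (e2 e ∈ A ∧ e1 e ∈ B) then 1 else 0)

lemma wle : ∀ A B : Finset (Fin 4), Disjoint A B →
    ∑ j, mu j * (if W j A B ≠ 0 then 1 else 0) ≤ 45 := by decide +kernel

lemma tot : ∀ j, ∑ e, cs j e ≠ 0 := by decide +kernel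

lemma ne12 : ∀ e, e1 e ≠ e2 e := by decide

lemma smu : ∑ j, mu j = 99 := by decide +kernel

theorem bound (n k : ℕ) (A B : Fin k → Finset (Fin 4)) (C D : Fin k → Finset (Fin n))
    (hd : ∀ i : Fin k, Disjoint (A i) (B i) ∧ Disjoint (C i) (D i))
    (h : ∀ x y : Fin 4, ∀ u v : Fin n, x ≠ y → u ≠ v →
      ∃! i : Fin k,
        ((x ∈ A i ∧ y ∈ B i) ∨ (y ∈ A i ∧ x ∈ B i)) ∧
        ((u ∈ C i ∧ v ∈ D i) ∨ (v ∈ C i ∧ u ∈ D i))) :
    11 * (n - 1) ≤ 5 * k := by
  have h1 : ∀ j, n - 1 ≤ ∑ i, if W j (A i) (B i) ≠ 0 then 1 else 0 := by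
    intro j
    have := gp C D (fun i => (hd i).2) (fun i => (W j (A i) (B i) : ℝ)) ((∑ e, cs j e : ℤ) : ℝ)
      (by exact_mod_cast tot j) (by
        intro u v huv
        simp only [W]
        push_cast
        simp only [sum_mul]
        rw [sum_comm]
        refine sum_congr rfl fun e _ => ?_
        obtain ⟨i0, hi0, hu⟩ := h (e1 e) (e2 e) u v (ne12 e) huv
        rw [sum_eq_single i0]
        · rw [if_pos hi0.1, if_pos hi0.2]; ring
        · intro i _ hi
          have h9 := mt (hu i) hi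
          rcases not_and_or.mp h9 with b | b
          · rw [if_neg b]; ring
          · rw [if_neg b]; ring
        · simp)
    rw [card_filter] at this
    simpa using this
  have h2 : ∑ j, mu j * (n - 1) ≤ ∑ j, mu j * ∑ i, if W j (A i) (B i) ≠ 0 then 1 else 0 :=
    sum_le_sum fun j _ => Nat.mul_le_mul_left _ (h1 j)
  rw [← sum_mul, smu] at h2
  simp only [mul_sum] at h2
  rw [sum_comm] at h2
  have h3 := sum_le_card_nsmul univ _ 45 fun i _ => wle (A i) (B i) (hd i).1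
  simp only [card_univ, Fintype.card_fin, smul_eq_mul] at h3
  omega

end H20.Gp
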