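import Mathlib

namespace H20.Joint

/-- A matroid is simple if it has no loops and no parallel pairs: every set of at most two
elements of the ground set is independent. -/
def Simple {α : Type} (M : Matroid α) : Prop :=
  ∀ x ∈ M.E, ∀ y ∈ M.E, M.Indep {x, y}

/-- A line is a flat of rank two. -/
def IsLine {α : Type} (M : Matroid α) (l : Set α) : Prop :=
  M.IsFlat l ∧ M.eRk l = 2

/-- `x` is an `n`-dimensional joint of the set of lines `𝓛`. -/
def IsJoint {α : Type} (M : Matroid α) (𝓛 : Finset (Set α)) (n : ℕ) (x : α) : Prop :=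
  x ∈ M.E ∧ ∃ l : Fin n → Set α, (∀ i, l i ∈ 𝓛 ∧ x ∈ l i) ∧ (n + 1 : ℕ∞) ≤ M.eRk (⋃ i, l i)

/-- `J_n(L)`: the largest number of `n`-dimensional joints of `L` lines of a finite simple matroid. -/
noncomputable def Jn (n L : ℕ) : ℕ :=
  sSup {j | ∃ (α : Type) (M : Matroid α) (𝓛 : Finset (Set α)), M.Finite ∧ Simple M ∧
    (∀ l ∈ 𝓛, IsLine M l) ∧ 𝓛.card = L ∧ j = {x | IsJoint M 𝓛 n x}.ncard}

end H20.Joint
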