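import Mathlib

namespace H20.RankMat

open Finset

variable {E : Type} [Fintype E] [DecidableEq E]

lemma span (ρ : Finset E → ℕ) (mono : ∀ X Y, X ⊆ Y → ρ X ≤ ρ Y)
    (sub : ∀ X Y, ρ (X ∪ Y) + ρ (X ∩ Y) ≤ ρ X + ρ Y) (I S : Finset E)
    (h : ∀ e ∈ S, ρ (insert e I) ≤ ρ I) : ρ (I ∪ S) ≤ ρ I := by
  induction S using Finset.induction_on with
  | empty => simp
  | insert e S he ih =>
    have h1 := ih (fun x hx => h x (mem_insert_of_mem hx))
    have h2 := h e (mem_insert_self _ _)
    have h3 := sub (I ∪ S) (insert e I)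
    have h4 := mono I ((I ∪ S) ∩ insert e I) (subset_inter subset_union_left (subset_insert _ _))
    have e1 : I ∪ S ∪ insert e I = I ∪ insert e S := by
      ext x; simp only [mem_union, mem_insert]; tauto
    rw [e1] at h3
    omega

theorem exists_matroid (ρ : Finset E → ℕ) (h0 : ρ ∅ = 0) (mono : ∀ X Y, X ⊆ Y → ρ X ≤ ρ Y)
    (ins : ∀ e X, ρ (insert e X) ≤ ρ X + 1)
    (sub : ∀ X Y, ρ (X ∪ Y) + ρ (X ∩ Y) ≤ ρ X + ρ Y) :
    ∃ M : Matroid E, M.E = Set.univ ∧ ∀ X : Finset E, M.eRk X = ρ X := by
  have un : ∀ X Y : Finset E, ρ (X ∪ Y) ≤ ρ X + Y.card := by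
    intro X Y
    induction Y using Finset.induction_on with
    | empty => simp
    | insert e Y he ih =>
      rw [union_insert, card_insert_of_notMem he]
      have := ins e (X ∪ Y)
      omega
  have le : ∀ X : Finset E, ρ X ≤ X.card := fun X => by simpa [h0] using un ∅ X
  have hsub : ∀ ⦃I J : Finset E⦄, ρ J = J.card → I ⊆ J → ρ I = I.card := by
    intro I J hJ hIJ
    have h1 := un I (J \ I)
    rw [union_sdiff_of_subset hIJ, card_sdiff_of_subset hIJ] at h1
    have := le I
    have := card_le_card hIJ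
    omega
  have aug : ∀ (I X : Finset E), ρ I = I.card → I.card < ρ X →
      ∃ e ∈ X, e ∉ I ∧ ρ (insert e I) = (insert e I).card := by
    intro I X hI hlt
    by_contra hc
    push Not at hc
    have := span ρ mono sub I X (by
      intro e he
      by_cases heI : e ∈ I
      · rw [insert_eq_of_mem heI]
      · have h1 := hc e he heI
        have h2 := ins e I
        rw [card_insert_of_notMem heI] at h1
        omega)
    have := mono X (I ∪ X) subset_union_right
    omega
  let N := IndepMatroid.ofFinset (Set.univ : Set E) (fun I => ρ I = I.card) (by simp [h0]) hsub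
    (fun I J hI hJ hlt => aug I J hI (by omega)) (by simp)
  have hind : ∀ I : Finset E, N.matroid.Indep I ↔ ρ I = I.card := by
    intro I
    rw [IndepMatroid.matroid_Indep]
    exact IndepMatroid.ofFinset_indep _ _ _ _ _ _
  refine ⟨N.matroid, rfl, fun X => ?_⟩
  obtain ⟨I, hI⟩ := N.matroid.exists_isBasis' (X : Set E)
  lift I to Finset E using Set.toFinite I
  have h1 := (hind I).1 hI.indep
  have hIX : I ⊆ X := by exact_mod_cast hI.subset
  rw [hI.eRk_eq_encard, Set.encard_coe_eq_coe_finsetCard]
  congr 1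
  apply le_antisymm
  · rw [← h1]; exact mono _ _ hIX
  · by_contra hlt
    push Not at hlt
    obtain ⟨e, heX, heI, he⟩ := aug I X h1 hlt
    have h2 := (hind _).2 he
    have := hI.eq_of_subset_indep h2 (by simp) (by
      rw [coe_insert]; exact Set.insert_subset heX hI.subset)
    apply heI
    have h3 : e ∈ ((insert e I : Finset E) : Set E) := by simp
    rw [← this] at h3
    exact_mod_cast h3

end H20.RankMat
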