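import Pool.Agent.H20.JointP
import Pool.Agent.H20.RankMat
import Pool.Agent.H20.JointDefs

namespace H20.JointL

open Classical Finset H20.JointP H20.Joint

variable {J n L : ℕ} (ω : Fin J × Fin n → Fin L) (X : Finset (Fin J))

noncomputable def act (H : Finset (Fin L)) : Finset (Fin J) := X.filter (fun x => ∃ i, ω (x, i) ∈ H)

noncomputable def PH (H : Finset (Fin L)) : Finset (Fin J ⊕ (Fin L × Bool)) :=
  (act ω X H).disjSum (H ×ˢ univ)

noncomputable def dg (H : Finset (Fin L)) : ℕ := ∑ l ∈ H, (act ω X {l}).card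

lemma card_PH (H : Finset (Fin L)) : (PH ω X H).card = (act ω X H).card + 2 * H.card := by
  simp [PH, mul_comm]

lemma PH_union (H G : Finset (Fin L)) : PH ω X (H ∪ G) = PH ω X H ∪ PH ω X G := by
  ext e
  rcases e with x | p
  · simp only [PH, act, inl_mem_disjSum, mem_filter, mem_union, exists_or]; tauto
  · simp [PH]

lemma PH_mono {H G : Finset (Fin L)} (h : H ⊆ G) : PH ω X H ⊆ PH ω X G := by
  rw [← union_eq_right.2 h, PH_union]; exact subset_union_left

lemma dg_mono {H G : Finset (Fin L)} (h : H ⊆ G) : dg ω X H ≤ dg ω X G :=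
  sum_le_sum_of_subset h

noncomputable def sx (H : Finset (Fin L)) (x : Fin J) : ℕ := (univ.filter (fun i => ω (x, i) ∈ H)).card

lemma hit_eq (H : Finset (Fin L)) (T : Finset (Fin J)) : hit ω H T = ∑ x ∈ T, sx ω H x := by
  simp only [hit, sx, card_filter]
  rw [Fintype.sum_prod_type, ← sum_subset (subset_univ T)]
  · exact sum_congr rfl fun x hx => by simp [hx]
  · intro x _ hx; simp [hx]

lemma dg_le (H : Finset (Fin L)) : dg ω X H ≤ ∑ x ∈ act ω X H, sx ω H x := by
  have h1 : dg ω X H = ∑ x ∈ X, (H.filter (fun l => ∃ i, ω (x, i) = l)).card := by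
    simp only [dg, act, card_filter, mem_singleton]
    exact sum_comm
  have h2 : ∀ x, (H.filter (fun l => ∃ i, ω (x, i) = l)).card ≤ sx ω H x := by
    intro x
    refine le_trans (card_le_card ?_) (card_image_le (s := univ.filter (fun i => ω (x, i) ∈ H))
      (f := fun i => ω (x, i)))
    intro l hl
    obtain ⟨h, i, rfl⟩ := mem_filter.1 hl
    exact mem_image.2 ⟨i, by simpa using h, rfl⟩
  rw [h1]
  refine (sum_le_sum fun x _ => h2 x).trans (le_of_eq ?_)
  rw [act, sum_filter]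
  refine sum_congr rfl fun x _ => ?_
  split_ifs with h
  · rfl
  · push Not at h
    simp [sx, h]

def Sp (a K : ℕ) : Prop :=
  ∀ H : Finset (Fin L), H.card ≤ K → ∀ T ⊆ X, T.Nonempty →
    (2 * a + 1) * hit ω H T + 3 * a + 1 ≤ (2 * a + 1) * H.card + (3 * a + 1) * T.card

variable {ω X} {a K : ℕ}

lemma key (h : Sp ω X a K) (H : Finset (Fin L)) (hH : H.card ≤ K) :
    ∃ T f : ℕ, dg ω X H + 2 * H.card ≤ (PH ω X H).card + (T + f) ∧
      (T + f = 0 ∨ (a + 1) * (T + f) + a * f + 3 * a + 1 ≤ (2 * a + 1) * H.card) ∧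
      ∀ x ∈ X, 2 ≤ sx ω H x → 1 ≤ T ∧ sx ω H x ≤ f + 2 := by
  set T := X.filter (fun x => 2 ≤ sx ω H x) with hT
  have hTA : T ⊆ act ω X H := by
    intro x hx
    obtain ⟨h1, h2⟩ := mem_filter.1 hx
    obtain ⟨i, hi⟩ := card_pos.1 (show 0 < sx ω H x by omega)
    exact mem_filter.2 ⟨h1, i, (mem_filter.1 hi).2⟩
  have h1 := dg_le ω X H
  rw [← sum_sdiff hTA] at h1
  have h2 : ∑ x ∈ act ω X H \ T, sx ω H x ≤ (act ω X H \ T).card := by
    rw [card_eq_sum_ones]
    refine sum_le_sum fun x hx => ?_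
    obtain ⟨h3, h4⟩ := mem_sdiff.1 hx
    have : ¬ 2 ≤ sx ω H x := fun h5 => h4 (mem_filter.2 ⟨(mem_filter.1 h3).1, h5⟩)
    omega
  have h3 := card_sdiff_add_card_eq_card hTA
  have h4 : ∑ x ∈ T, sx ω H x = 2 * T.card + ∑ x ∈ T, (sx ω H x - 2) := by
    rw [card_eq_sum_ones, mul_sum, ← sum_add_distrib]
    refine sum_congr rfl fun x hx => ?_
    have := (mem_filter.1 hx).2
    omega
  refine ⟨T.card, ∑ x ∈ T, (sx ω H x - 2), ?_, ?_, ?_⟩
  · rw [card_PH]; omega
  · rcases T.eq_empty_or_nonempty with h0 | h0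
    · left; simp [h0]
    · right
      have := h H hH T (filter_subset _ _) h0
      rw [hit_eq, h4] at this
      nlinarith
  · intro x hx h2
    have hxT : x ∈ T := mem_filter.2 ⟨hx, h2⟩
    have := single_le_sum (f := fun x => sx ω H x - 2) (fun _ _ => Nat.zero_le _) hxT
    have := card_pos.2 ⟨x, hxT⟩
    constructor <;> omega

lemma factA (h : Sp ω X a K) (ha : 1 ≤ a) (H : Finset (Fin L)) (hH : H.card ≤ K) :
    (1 ≤ H.card → dg ω X H + 2 ≤ (PH ω X H).card) ∧ (2 ≤ H.card → dg ω X H + 3 ≤ (PH ω X H).card) := by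
  obtain ⟨T, f, h1, h2, -⟩ := key h H hH
  rcases h2 with h2 | h2
  · constructor <;> omega
  · have : T + f + 3 ≤ 2 * H.card := by
      by_contra hc
      have h3 : (a + 1) * (2 * H.card) ≤ (a + 1) * (T + f + 2) := Nat.mul_le_mul_left _ (by omega)
      have h4 : H.card = 0 := by nlinarith
      rw [h4] at h2; omega
    constructor <;> omega

lemma fact0 (h : Sp ω X a K) (ha : 1 ≤ a) (H : Finset (Fin L)) (hH : H.card ≤ K) :
    dg ω X H ≤ (PH ω X H).card := by
  rcases H.eq_empty_or_nonempty with rfl | h0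
  · simp [dg]
  · have := (factA h ha H hH).1 (card_pos.2 h0); omega

lemma factC (h : Sp ω X a K) (H : Finset (Fin L)) (hH : H.card ≤ K)
    (hk : 2 * n * (a + 1) < H.card) : dg ω X H + 2 * n + 1 ≤ (PH ω X H).card := by
  obtain ⟨T, f, h1, h2, -⟩ := key h H hH
  rcases h2 with h2 | h2
  · have : 2 * n ≤ 2 * n * (a + 1) := Nat.le_mul_of_pos_right _ (by omega)
    omega
  · have : T + f + 2 * n + 1 ≤ 2 * H.card := by
      by_contra hc
      have h3 : (a + 1) * (2 * H.card) ≤ (a + 1) * (T + f + 2 * n) := Nat.mul_le_mul_left _ (by omega)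
      nlinarith
    omega

lemma inj (h : Sp ω X a K) (ha : 1 ≤ a) (hK : 1 ≤ K) (x : Fin J) (hx : x ∈ X) :
    Function.Injective (fun i => ω (x, i)) := by
  intro i j hij
  by_contra hne
  obtain ⟨T, f, -, h2, h3⟩ := key h {ω (x, j)} (by simpa using hK)
  have : 2 ≤ sx ω {ω (x, j)} x := by
    rw [sx, ← card_pair hne]
    apply card_le_card
    intro k hk
    simp only [mem_insert, mem_singleton] at hk
    rcases hk with rfl | rfl
    · simpa using hij
    · simp
  obtain ⟨h4, -⟩ := h3 x hx this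
  rw [card_singleton] at h2
  rcases h2 with h2 | h2
  · omega
  · nlinarith

lemma factB (h : Sp ω X a K) (ha : 1 ≤ a) (hn : 2 ≤ n) (H : Finset (Fin L)) (hH : H.card ≤ K)
    (x : Fin J) (hx : x ∈ X) (hxH : ∀ i, ω (x, i) ∈ H) : dg ω X H + n + 1 ≤ (PH ω X H).card := by
  have hv : n ≤ H.card := by
    have hK : 1 ≤ K := le_trans (card_pos.2 ⟨_, hxH ⟨0, by omega⟩⟩) hH
    have := card_le_card_of_injOn (s := univ) (t := H) (fun i => ω (x, i)) (fun i _ => hxH i)
      (inj h ha hK x hx).injOn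
    simpa using this
  obtain ⟨T, f, h1, h2, h3⟩ := key h H hH
  have hs : sx ω H x = n := by simp [sx, hxH]
  obtain ⟨h4, h5⟩ := h3 x hx (by omega)
  rw [hs] at h5
  rcases h2 with h2 | h2
  · omega
  · have : T + f + n + 1 ≤ 2 * H.card := by
      by_contra hc
      have h3 : (a + 1) * (2 * H.card) ≤ (a + 1) * (T + f + n) := Nat.mul_le_mul_left _ (by omega)
      have h6 : a * n ≤ a * (f + 2) := Nat.mul_le_mul_left _ h5
      nlinarith
    omega

variable (ω X a)

def R (Y : Finset (Fin J ⊕ (Fin L × Bool))) (m : ℕ) : Prop :=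
  n + 1 ≤ m ∨ ∃ H : Finset (Fin L), H.card ≤ 2 * n * (a + 1) ∧ (Y ∪ PH ω X H).card ≤ m + dg ω X H

noncomputable def rk (Y : Finset (Fin J ⊕ (Fin L × Bool))) : ℕ :=
  Nat.find (⟨n + 1, Or.inl le_rfl⟩ : ∃ m, R ω X a Y m)

lemma rk_le {Y : Finset (Fin J ⊕ (Fin L × Bool))} {m : ℕ} (h : R ω X a Y m) : rk ω X a Y ≤ m :=
  Nat.find_min' _ h

lemma rk_spec (Y : Finset (Fin J ⊕ (Fin L × Bool))) : R ω X a Y (rk ω X a Y) := Nat.find_spec _

lemma rk_mono (Y Z : Finset (Fin J ⊕ (Fin L × Bool))) (h : Y ⊆ Z) : rk ω X a Y ≤ rk ω X a Z := by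
  apply rk_le
  rcases rk_spec ω X a Z with h1 | ⟨H, h1, h2⟩
  · exact Or.inl h1
  · exact Or.inr ⟨H, h1, (card_le_card (union_subset_union_left h)).trans h2⟩

lemma rk_ins (e) (Y : Finset (Fin J ⊕ (Fin L × Bool))) : rk ω X a (insert e Y) ≤ rk ω X a Y + 1 := by
  apply rk_le
  rcases rk_spec ω X a Y with h1 | ⟨H, h1, h2⟩
  · exact Or.inl (by omega)
  · refine Or.inr ⟨H, h1, ?_⟩
    rw [insert_union]
    have := card_insert_le e (Y ∪ PH ω X H)
    omega

lemma rk_empty : rk ω X a ∅ = 0 := by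
  apply Nat.eq_zero_of_le_zero
  apply rk_le
  exact Or.inr ⟨∅, by simp, by simp [card_PH, act]⟩

variable {ω X a}

lemma rk_sub (h : Sp ω X a (2 * (2 * n * (a + 1)))) (ha : 1 ≤ a)
    (Y Z : Finset (Fin J ⊕ (Fin L × Bool))) :
    rk ω X a (Y ∪ Z) + rk ω X a (Y ∩ Z) ≤ rk ω X a Y + rk ω X a Z := by
  have top := rk_le ω X a (Y := Y ∪ Z) (Or.inl le_rfl)
  have m1 := rk_mono ω X a (Y ∩ Z) Y inter_subset_left
  have m2 := rk_mono ω X a (Y ∩ Z) Z inter_subset_right
  by_cases c1 : n + 1 ≤ rk ω X a Y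
  · omega
  by_cases c2 : n + 1 ≤ rk ω X a Z
  · omega
  obtain ⟨H, h1, h2⟩ := (rk_spec ω X a Y).resolve_left c1
  obtain ⟨G, g1, g2⟩ := (rk_spec ω X a Z).resolve_left c2
  have e1 : dg ω X (H ∪ G) + dg ω X (H ∩ G) = dg ω X H + dg ω X G := sum_union_inter
  have e2 := card_union_add_card_inter (Y ∪ PH ω X H) (Z ∪ PH ω X G)
  have e3 : Y ∪ PH ω X H ∪ (Z ∪ PH ω X G) = (Y ∪ Z) ∪ PH ω X (H ∪ G) := by
    rw [PH_union]; ext e; simp only [mem_union]; tauto
  rw [e3] at e2
  have e4 : ((Y ∩ Z) ∪ PH ω X (H ∩ G)).card ≤ ((Y ∪ PH ω X H) ∩ (Z ∪ PH ω X G)).card := by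
    apply card_le_card
    apply subset_inter
    · exact union_subset_union inter_subset_left (PH_mono ω X inter_subset_left)
    · exact union_subset_union inter_subset_right (PH_mono ω X inter_subset_right)
  have c3 : (H ∩ G).card ≤ 2 * n * (a + 1) := (card_le_card inter_subset_left).trans h1
  have c4 : (H ∪ G).card ≤ 2 * (2 * n * (a + 1)) := (card_union_le _ _).trans (by omega)
  have f1 := (fact0 h ha (H ∩ G) (by omega)).trans (card_le_card (subset_union_right (s₁ := Y ∩ Z)))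
  have f2 := card_le_card (subset_union_right (s₁ := Y ∪ Z) (s₂ := PH ω X (H ∪ G)))
  have f3 := fact0 h ha (H ∪ G) c4
  have c5 : (H ∪ G).card ≤ 2 * n * (a + 1) := by
    by_contra hc
    have := factC h (H ∪ G) c4 (by omega)
    omega
  have r1 := rk_le ω X a (Y := Y ∪ Z) (m := ((Y ∪ Z) ∪ PH ω X (H ∪ G)).card - dg ω X (H ∪ G))
    (Or.inr ⟨H ∪ G, c5, by omega⟩)
  have r2 := rk_le ω X a (Y := Y ∩ Z) (m := ((Y ∩ Z) ∪ PH ω X (H ∩ G)).card - dg ω X (H ∩ G))
    (Or.inr ⟨H ∩ G, c3, by omega⟩)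
  omega

theorem build (h : Sp ω X a (2 * (2 * n * (a + 1)))) (ha : 1 ≤ a) (hn : 2 ≤ n) :
    ∃ (M : Matroid (Fin J ⊕ (Fin L × Bool))) (𝓛 : Finset (Set (Fin J ⊕ (Fin L × Bool)))),
      M.Finite ∧ Simple M ∧ (∀ l ∈ 𝓛, IsLine M l) ∧ 𝓛.card = L ∧
      X.card ≤ {x | IsJoint M 𝓛 n x}.ncard := by
  obtain ⟨M, hE, hr⟩ := H20.RankMat.exists_matroid (rk ω X a) (rk_empty ω X a) (rk_mono ω X a)
    (rk_ins ω X a) (rk_sub h ha)
  have hk : n ≤ 2 * n * (a + 1) := by nlinarith
  have small : ∀ Y, Y.card ≤ 2 → Y.card ≤ rk ω X a Y := by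
    intro Y hY
    rcases rk_spec ω X a Y with h1 | ⟨H, h1, h2⟩
    · omega
    · rcases H.eq_empty_or_nonempty with rfl | h0
      · have := card_le_card (subset_union_left (s₁ := Y) (s₂ := PH ω X ∅))
        simp only [dg, sum_empty] at h2
        omega
      · have := (factA h ha H (by omega)).1 (card_pos.2 h0)
        have := card_le_card (subset_union_right (s₁ := Y) (s₂ := PH ω X H))
        omega
  have lr : ∀ l, rk ω X a (PH ω X {l}) = 2 := by
    intro l
    apply le_antisymm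
    · apply rk_le
      refine Or.inr ⟨{l}, by simp; omega, ?_⟩
      rw [union_self, card_PH]; simp [dg]; omega
    · have h1 : ({Sum.inr (l, false), Sum.inr (l, true)} : Finset (Fin J ⊕ (Fin L × Bool))).card = 2 :=
        card_pair (by simp)
      have h2 := small _ h1.le
      rw [h1] at h2
      refine h2.trans (rk_mono ω X a _ _ ?_)
      intro e he
      simp only [mem_insert, mem_singleton] at he
      rcases he with rfl | rfl <;> simp [PH]
  have lf : ∀ l z, z ∉ PH ω X {l} → 3 ≤ rk ω X a (insert z (PH ω X {l})) := by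
    intro l z hz
    rcases rk_spec ω X a (insert z (PH ω X {l})) with h1 | ⟨H, h1, h2⟩
    · omega
    · by_cases hH : H ⊆ {l}
      · have h3 := dg_mono ω X hH
        have h4 := (factA h ha {l} (by simp; omega)).1 (by simp)
        have h5 := card_le_card (subset_union_left (s₁ := insert z (PH ω X {l})) (s₂ := PH ω X H))
        rw [card_insert_of_notMem hz] at h5
        omega
      · have h3 : 2 ≤ ({l} ∪ H).card := by
          obtain ⟨b, hb, hbl⟩ := not_subset.1 hH
          rw [mem_singleton] at hbl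
          rw [← card_pair hbl]
          apply card_le_card
          intro c hc
          simp only [mem_insert, mem_singleton, mem_union] at hc ⊢
          rcases hc with rfl | rfl <;> simp [hb]
        have h4 := (factA h ha ({l} ∪ H) ((card_union_le _ _).trans (by simp; omega))).2 h3
        have h5 := dg_mono ω X (subset_union_right (s₁ := {l}) (s₂ := H))
        have h6 : (PH ω X ({l} ∪ H)).card ≤ (insert z (PH ω X {l}) ∪ PH ω X H).card := by
          rw [PH_union]
          exact card_le_card (union_subset_union_left (subset_insert _ _))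
        omega
  let pt : Fin L → Set (Fin J ⊕ (Fin L × Bool)) := fun l => (PH ω X {l} : Set _)
  have hpt : Function.Injective pt := by
    intro l m hlm
    have : Sum.inr (l, false) ∈ pt m := hlm ▸ (by simp [pt, PH])
    simpa [pt, PH] using this
  refine ⟨M, univ.image pt, ⟨Set.toFinite _⟩, ?_, ?_, ?_, ?_⟩
  · intro x _ y _
    rw [Matroid.indep_iff_eRk_eq_encard_of_finite (Set.toFinite _)]
    apply le_antisymm (M.eRk_le_encard _)
    have e : ({x, y} : Set _) = (({x, y} : Finset _) : Set _) := by simp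
    rw [e, hr, Set.encard_coe_eq_coe_finsetCard]
    exact_mod_cast small _ card_le_two
  · intro l hl
    obtain ⟨b, -, rfl⟩ := mem_image.1 hl
    refine ⟨?_, by rw [hr, lr]; rfl⟩
    rw [Matroid.isFlat_iff_closure_eq]
    refine Set.Subset.antisymm ?_ (M.subset_closure _ (by simp [hE]))
    intro z hz
    by_contra hz'
    have h1 := lf b z (by simpa [pt] using hz')
    have h2 : M.eRk (insert z (pt b)) = M.eRk (pt b) := by
      rw [← M.eRk_closure_eq, Matroid.closure_insert_eq_of_mem_closure hz, M.eRk_closure_eq]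
    simp only [pt] at h2
    rw [← coe_insert, hr, hr, lr] at h2
    have : rk ω X a (insert z (PH ω X {b})) = 2 := by exact_mod_cast h2
    omega
  · rw [card_image_of_injective _ hpt]; simp
  · have hsub : ((X.image Sum.inl : Finset (Fin J ⊕ (Fin L × Bool))) : Set _) ⊆
        {x | IsJoint M (univ.image pt) n x} := by
      intro e he
      obtain ⟨x, hx, rfl⟩ := mem_image.1 (mem_coe.1 he)
      refine ⟨by simp [hE], fun i => pt (ω (x, i)), fun i => ⟨mem_image_of_mem _ (mem_univ _), ?_⟩, ?_⟩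
      · simp only [pt, PH, act, mem_coe, inl_mem_disjSum, mem_filter, mem_singleton]
        exact ⟨hx, i, rfl⟩
      · set G := univ.image (fun i => ω (x, i)) with hG
        have e : (⋃ i, pt (ω (x, i))) = (PH ω X G : Set _) := by
          ext z
          rcases z with y | p
          · simp only [pt, PH, act, Set.mem_iUnion, mem_coe, inl_mem_disjSum, mem_filter, mem_singleton,
              hG, mem_image, mem_univ, true_and]
            constructor
            · rintro ⟨i, h1, j, h2⟩; exact ⟨h1, j, i, h2.symm⟩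
            · rintro ⟨h1, j, i, h2⟩; exact ⟨i, h1, j, h2.symm⟩
          · simp only [pt, PH, Set.mem_iUnion, mem_coe, inr_mem_disjSum, mem_product, mem_singleton,
              hG, mem_image, mem_univ, true_and, and_true]
            exact exists_congr fun i => eq_comm
        rw [e, hr]
        have hGc : G.card ≤ n := card_image_le.trans (by simp)
        have : n + 1 ≤ rk ω X a (PH ω X G) := by
          rcases rk_spec ω X a (PH ω X G) with h1 | ⟨H, h1, h2⟩
          · exact h1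
          · have h4 := factB h ha hn (G ∪ H) ((card_union_le _ _).trans (by omega)) x hx
              (fun i => mem_union_left _ (mem_image_of_mem _ (mem_univ _)))
            have h5 := dg_mono ω X (subset_union_right (s₁ := G) (s₂ := H))
            rw [← PH_union] at h2
            omega
        exact_mod_cast this
    have := Set.ncard_le_ncard hsub (Set.toFinite _)
    rwa [Set.ncard_coe_finset, card_image_of_injective _ Sum.inl_injective] at this

theorem lower (n : ℕ) (hn : 2 ≤ n) (ε : ℝ) (hε : 0 < ε) : ∃ L₀ : ℕ, ∀ L : ℕ, L₀ ≤ L →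
    ∃ (α : Type) (M : Matroid α) (𝓛 : Finset (Set α)), M.Finite ∧ Simple M ∧
      (∀ l ∈ 𝓛, IsLine M l) ∧ 𝓛.card = L ∧
      (L : ℝ) ^ ((3 : ℝ) / 2 - ε) ≤ (({x | IsJoint M 𝓛 n x}.ncard : ℕ) : ℝ) := by
  obtain ⟨b, hb⟩ := exists_nat_ge (1 / ε)
  set a := b + 1 with ha
  have ha1 : 1 ≤ a := by omega
  have haε : 3 / 2 ≤ (2 * a + 1 : ℝ) * ε := by
    rw [div_le_iff₀ hε] at hb
    rw [ha]; push_cast; nlinarith
  set K := 2 * (2 * n * (a + 1)) with hK
  set C := Real.exp (1 + ((K : ℝ) + 1) ^ n) with hC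
  have hC0 : 0 < C := Real.exp_pos _
  obtain ⟨L₀, hL₀⟩ := exists_nat_ge ((C + 2) ^ (2 * a + 1))
  refine ⟨L₀, fun L hL => ?_⟩
  have hL1 : (C + 2) ^ (2 * a + 1) ≤ (L : ℝ) := hL₀.trans (by exact_mod_cast hL)
  have hL0 : (0 : ℝ) < L := lt_of_lt_of_le (by positivity) hL1
  set t : ℝ := (L : ℝ) ^ ((1 : ℝ) / (2 * a + 1)) with ht
  have hs0 : (2 * a + 1 : ℝ) ≠ 0 := by positivity
  have htL : (L : ℝ) = t ^ (2 * a + 1) := by
    rw [ht, ← Real.rpow_natCast, ← Real.rpow_mul hL0.le]
    push_cast; rw [one_div, inv_mul_cancel₀ hs0, Real.rpow_one]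
  have ht0 : 0 ≤ t := Real.rpow_nonneg hL0.le _
  have htC : C + 2 ≤ t := le_of_pow_le_pow_left₀ (by omega) ht0 (htL ▸ hL1)
  have ht1 : 1 ≤ t := by linarith
  obtain ⟨ω, X, h1, h2⟩ := sparse n a K L ⌊t ^ (3 * a + 1)⌋₊ t ht1 htL (Nat.floor_le (by positivity))
  obtain ⟨M, 𝓛, f1, f2, f3, f4, f5⟩ := build (ω := ω) (X := X) (a := a) h2 ha1 hn
  refine ⟨_, M, 𝓛, f1, f2, f3, f4, ?_⟩
  have h3 : (L : ℝ) ^ ((3 : ℝ) / 2 - ε) ≤ t ^ (3 * a) := by
    rw [htL, ← Real.rpow_natCast, ← Real.rpow_mul ht0, ← Real.rpow_natCast]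
    apply Real.rpow_le_rpow_of_exponent_le ht1
    push_cast; nlinarith
  have h4 := Nat.lt_floor_add_one (t ^ (3 * a + 1))
  have h5 : (1 : ℝ) ≤ t ^ (3 * a) := one_le_pow₀ ht1
  have h6 : (X.card : ℝ) ≤ (({x | IsJoint M 𝓛 n x}.ncard : ℕ) : ℝ) := by exact_mod_cast f5
  have h7 : (C + 2) * t ^ (3 * a) ≤ t ^ (3 * a + 1) := by
    rw [pow_succ, mul_comm]; exact mul_le_mul_of_nonneg_left htC (by linarith)
  rw [← hC] at h1
  nlinarith

end H20.JointL
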