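import Pool.Agent.H20.JointU
import Pool.Agent.H20.JointL

namespace H20.Joint

theorem final (n r : ℕ) (hr : 1 ≤ r) (hn : 2 * r ≤ n) :
    (∀ L : ℕ, (Jn n L : ℝ) ≤ (n + 2) * (L : ℝ) ^ ((3 * r - 1 : ℝ) / (2 * r - 1))) ∧
    (∀ ε : ℝ, 0 < ε → ∃ L₀ : ℕ, ∀ L : ℕ, L₀ ≤ L → (L : ℝ) ^ ((3 : ℝ) / 2 - ε) ≤ Jn n L) := by
  obtain ⟨s, rfl⟩ : ∃ s, r = s + 1 := ⟨r - 1, by omega⟩
  have e : ((3 * ((s + 1 : ℕ) : ℝ) - 1 : ℝ) / (2 * ((s + 1 : ℕ) : ℝ) - 1)) =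
      (3 * s + 2 : ℝ) / (2 * s + 1) := by push_cast; congr 1 <;> ring
  rw [e]
  have up : ∀ L j : ℕ, j ∈ {j | ∃ (α : Type) (M : Matroid α) (𝓛 : Finset (Set α)), M.Finite ∧
      Simple M ∧ (∀ l ∈ 𝓛, IsLine M l) ∧ 𝓛.card = L ∧ j = {x | IsJoint M 𝓛 n x}.ncard} →
      (j : ℝ) ≤ (n + 2) * (L : ℝ) ^ ((3 * s + 2 : ℝ) / (2 * s + 1)) := by
    rintro L j ⟨α, M, 𝓛, h1, h2, h3, rfl, rfl⟩
    exact upper n s hn M h2 𝓛 h3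
  have bdd : ∀ L : ℕ, BddAbove {j | ∃ (α : Type) (M : Matroid α) (𝓛 : Finset (Set α)), M.Finite ∧
      Simple M ∧ (∀ l ∈ 𝓛, IsLine M l) ∧ 𝓛.card = L ∧ j = {x | IsJoint M 𝓛 n x}.ncard} :=
    fun L => ⟨_, fun j hj => Nat.le_floor (up L j hj)⟩
  refine ⟨fun L => ?_, fun ε hε => ?_⟩
  · rcases Set.eq_empty_or_nonempty {j | ∃ (α : Type) (M : Matroid α) (𝓛 : Finset (Set α)), M.Finite ∧
      Simple M ∧ (∀ l ∈ 𝓛, IsLine M l) ∧ 𝓛.card = L ∧ j = {x | IsJoint M 𝓛 n x}.ncard} with h | h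
    · rw [Jn, h]; simp only [csSup_empty, bot_eq_zero', Nat.cast_zero]; positivity
    · exact up L _ (Nat.sSup_mem h (bdd L))
  · obtain ⟨L₀, h⟩ := H20.JointL.lower n (by omega) ε hε
    refine ⟨L₀, fun L hL => ?_⟩
    obtain ⟨α, M, 𝓛, h1, h2, h3, h4, h5⟩ := h L hL
    refine h5.trans ?_
    exact_mod_cast le_csSup (bdd L) ⟨α, M, 𝓛, h1, h2, h3, h4, rfl⟩

end H20.Joint
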