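import Pool.Agent.H20.JointDefs

namespace H20.Joint

open Classical Set

variable {α : Type} {M : Matroid α}

lemma line_sub (hs : Simple M) {l : Set α} (hl : IsLine M l) {x y : α} (hx : x ∈ l) (hy : y ∈ l)
    (hxy : x ≠ y) {F : Set α} (hF : M.IsFlat F) (hxF : x ∈ F) (hyF : y ∈ F) : l ⊆ F := by
  have hE := hl.1.subset_ground
  have hI := hs x (hE hx) y (hE hy)
  have hb : M.IsBasis {x, y} l := by
    apply hI.isBasis_of_eRk_ge (toFinite _) (by rintro z (rfl | rfl) <;> assumption)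
    rw [hl.2, hI.eRk_eq_encard, encard_pair hxy]
  refine hb.subset_closure.trans ?_
  rw [← hF.closure]
  exact M.closure_subset_closure (by rintro z (rfl | rfl) <;> assumption)

lemma add_line (hs : Simple M) {l S : Set α} (hl : IsLine M l) {x : α} (hx : x ∈ l) (hxS : x ∈ S) :
    M.eRk (S ∪ l) ≤ M.eRk S + 1 := by
  have h := M.eRk_inter_add_eRk_union_le S l
  have hE := hl.1.subset_ground hx
  have hI : M.Indep {x} := by simpa using hs x hE x hE
  have h1 : (1 : ℕ∞) ≤ M.eRk (S ∩ l) := by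
    have := hI.encard_le_eRk_of_subset (X := S ∩ l) (by rintro z rfl; exact ⟨hxS, hx⟩)
    simpa using this
  rw [hl.2] at h
  have h2 : 1 + M.eRk (S ∪ l) ≤ 1 + (M.eRk S + 1) := by
    calc 1 + M.eRk (S ∪ l) ≤ M.eRk (S ∩ l) + M.eRk (S ∪ l) := by gcongr
      _ ≤ M.eRk S + 2 := h
      _ = 1 + (M.eRk S + 1) := by ring
  exact (ENat.add_le_add_iff_left (by simp)).1 h2

lemma add_lines (hs : Simple M) {ι : Type} (l : ι → Set α) {x : α} (S : Set α) (hxS : x ∈ S)
    (T : Finset ι) (hl : ∀ i ∈ T, IsLine M (l i) ∧ x ∈ l i) :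
    M.eRk (S ∪ ⋃ i ∈ T, l i) ≤ M.eRk S + T.card := by
  induction T using Finset.induction_on with
  | empty => simp
  | insert a T ha ih =>
    have h1 := ih (fun i hi => hl i (Finset.mem_insert_of_mem hi))
    have h2 := hl a (Finset.mem_insert_self _ _)
    have e : S ∪ ⋃ i ∈ insert a T, l i = (S ∪ ⋃ i ∈ T, l i) ∪ l a := by
      rw [Finset.set_biUnion_insert]; ext z; simp only [mem_union]; tauto
    rw [e, Finset.card_insert_of_notMem ha]
    refine (add_line hs h2.1 h2.2 (Or.inl hxS)).trans ?_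
    push_cast
    rw [← add_assoc]
    gcongr

lemma not_sub (hs : Simple M) {n : ℕ} (l : Fin n → Set α) {x : α}
    (hl : ∀ i, IsLine M (l i) ∧ x ∈ l i) (hr : (n + 1 : ℕ∞) ≤ M.eRk (⋃ i, l i))
    (T : Finset (Fin n)) (S : Set α) (hxS : x ∈ S) (hT : ∀ i ∈ T, l i ⊆ S)
    (hS : M.eRk S ≤ T.card) : False := by
  have h := add_lines hs l S hxS Tᶜ (fun i _ => hl i)
  have hsub : (⋃ i, l i) ⊆ S ∪ ⋃ i ∈ Tᶜ, l i := by
    intro z hz
    obtain ⟨i, hi⟩ := mem_iUnion.1 hz
    by_cases hiT : i ∈ T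
    · exact Or.inl (hT i hiT hi)
    · exact Or.inr (mem_biUnion (s := ((Tᶜ : Finset (Fin n)) : Set (Fin n))) (by simpa using hiT) hi)
  have h2 := hr.trans ((M.eRk_mono hsub).trans (h.trans (add_le_add_left hS _)))
  have h3 : T.card + Tᶜ.card = n := by simp
  have h4 : ((n + 1 : ℕ) : ℕ∞) ≤ ((T.card + Tᶜ.card : ℕ) : ℕ∞) := by push_cast; exact h2
  have := ENat.natCast_le_natCast.1 h4
  omega

end H20.Joint
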