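import Mathlib

namespace H20.JointP

open Classical Finset

noncomputable def hit {J n L : ℕ} (ω : Fin J × Fin n → Fin L) (H : Finset (Fin L))
    (T : Finset (Fin J)) : ℕ :=
  (univ.filter (fun p : Fin J × Fin n => p.1 ∈ T ∧ ω p ∈ H)).card

lemma sum_pow_card (m : ℕ) (x : ℝ) (hx : 0 ≤ x) :
    ∑ T : Finset (Fin m), x ^ T.card ≤ Real.exp (m * x) := by
  have h := Fin.sum_pow_mul_eq_add_pow (n := m) x 1
  simp only [one_pow, mul_one] at h
  rw [h, Real.exp_nat_mul]
  exact pow_le_pow_left₀ (by positivity) (Real.add_one_le_exp x) m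

lemma moment {J n L K : ℕ} (H : Finset (Fin L)) (hH : H.card ≤ K) (T : Finset (Fin J)) :
    ∑ ω : Fin J × Fin n → Fin L, (L : ℝ) ^ hit ω H T ≤
      (L : ℝ) ^ (J * n) * (((K : ℝ) + 1) ^ n) ^ T.card := by
  have h1 : ∀ ω : Fin J × Fin n → Fin L, (L : ℝ) ^ hit ω H T =
      ∏ p : Fin J × Fin n, (if p.1 ∈ T ∧ ω p ∈ H then (L : ℝ) else 1) := by
    intro ω
    rw [prod_ite, prod_const, prod_const_one, mul_one, hit]
  simp only [h1]
  have h2 := prod_univ_sum (fun _ : Fin J × Fin n => (univ : Finset (Fin L)))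
    (fun p l => if p.1 ∈ T ∧ l ∈ H then (L : ℝ) else 1)
  rw [Fintype.piFinset_univ] at h2
  rw [← h2]
  have hL : (0 : ℝ) ≤ L := Nat.cast_nonneg _
  calc ∏ p : Fin J × Fin n, ∑ l : Fin L, (if p.1 ∈ T ∧ l ∈ H then (L : ℝ) else 1)
      ≤ ∏ p : Fin J × Fin n, ((L : ℝ) * if p.1 ∈ T then (K : ℝ) + 1 else 1) := by
        apply prod_le_prod
        · intro p _
          exact sum_nonneg fun l _ => by split_ifs <;> positivity
        · intro p _
          by_cases hp : p.1 ∈ T
          · simp only [hp, true_and, if_true]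
            calc ∑ l : Fin L, (if l ∈ H then (L : ℝ) else 1)
                ≤ ∑ l : Fin L, ((if l ∈ H then (L : ℝ) else 0) + 1) :=
                  sum_le_sum fun l _ => by split_ifs <;> simp
              _ = H.card * L + L := by
                  rw [sum_add_distrib, ← sum_filter]; simp
              _ ≤ _ := by
                  have : (H.card : ℝ) ≤ K := by exact_mod_cast hH
                  nlinarith
          · simp [hp]
    _ = _ := by
        rw [prod_mul_distrib, prod_const, card_univ, Fintype.card_prod, Fintype.card_fin,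
          Fintype.card_fin, Fintype.prod_prod_type]
        congr 1
        have e : ∀ x : Fin J, ∏ _y : Fin n, (if x ∈ T then (K : ℝ) + 1 else 1) =
            if x ∈ T then ((K : ℝ) + 1) ^ n else 1 := by
          intro x; split_ifs <;> simp
        refine (prod_congr rfl fun x _ => e x).trans ?_
        rw [prod_ite, prod_const, prod_const_one, mul_one]
        simp

theorem sparse (n a K L J : ℕ) (t : ℝ) (ht : 1 ≤ t) (hL : (L : ℝ) = t ^ (2 * a + 1))
    (hJ : (J : ℝ) ≤ t ^ (3 * a + 1)) :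
    ∃ ω : Fin J × Fin n → Fin L, ∃ X : Finset (Fin J),
      (J : ℝ) ≤ X.card + Real.exp (1 + ((K : ℝ) + 1) ^ n) * t ^ (3 * a) ∧
      ∀ H : Finset (Fin L), H.card ≤ K → ∀ T ⊆ X, T.Nonempty →
        (2 * a + 1) * hit ω H T + 3 * a + 1 ≤ (2 * a + 1) * H.card + (3 * a + 1) * T.card := by
  have ht0 : 0 < t := by linarith
  have hL0 : (0 : ℝ) < L := by rw [hL]; positivity
  have hL1 : 0 < L := by exact_mod_cast hL0
  haveI : Nonempty (Fin L) := ⟨⟨0, hL1⟩⟩
  set τ := t ^ (3 * a + 1) with hτ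
  have hτ0 : 0 < τ := by positivity
  set c : ℝ := ((K : ℝ) + 1) ^ n with hc
  have hc0 : 0 ≤ c := by positivity
  let bad : (Fin J × Fin n → Fin L) → Finset (Finset (Fin L) × Finset (Fin J)) := fun ω =>
    univ.filter (fun q => q.1.card ≤ K ∧ q.2.Nonempty ∧
      (2 * a + 1) * q.1.card + (3 * a + 1) * q.2.card ≤ (2 * a + 1) * hit ω q.1 q.2 + 3 * a)
  let S : Finset (Finset (Fin L) × Finset (Fin J)) := univ.filter (fun q => q.1.card ≤ K)
  have h1 : ∀ ω, ((bad ω).card : ℝ) ≤
      ∑ q ∈ S, t ^ (3 * a) * ((L : ℝ)⁻¹ ^ q.1.card * τ⁻¹ ^ q.2.card) * (L : ℝ) ^ hit ω q.1 q.2 := by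
    intro ω
    have hsub : bad ω ⊆ S := by
      intro q hq
      simp only [bad, S, mem_filter, mem_univ, true_and] at hq ⊢
      exact hq.1
    calc ((bad ω).card : ℝ) = ∑ q ∈ bad ω, (1 : ℝ) := by simp
      _ ≤ ∑ q ∈ bad ω, t ^ (3 * a) * ((L : ℝ)⁻¹ ^ q.1.card * τ⁻¹ ^ q.2.card) *
            (L : ℝ) ^ hit ω q.1 q.2 := by
          refine sum_le_sum fun q hq => ?_
          have hq' := (mem_filter.1 hq).2.2.2
          have h2 : (L : ℝ) ^ q.1.card * τ ^ q.2.card ≤ t ^ (3 * a) * (L : ℝ) ^ hit ω q.1 q.2 := by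
            rw [hL, hτ, ← pow_mul, ← pow_mul, ← pow_mul, ← pow_add, ← pow_add]
            exact pow_le_pow_right₀ ht (by omega)
          rw [inv_pow, inv_pow, ← mul_inv, mul_right_comm, ← div_eq_mul_inv, le_div_iff₀ (by positivity),
            one_mul]
          exact h2
      _ ≤ _ := sum_le_sum_of_subset_of_nonneg hsub fun q _ _ => by positivity
  have h2 : ∑ ω, ((bad ω).card : ℝ) ≤
      ∑ _ω : Fin J × Fin n → Fin L, Real.exp (1 + c) * t ^ (3 * a) := by
    calc ∑ ω, ((bad ω).card : ℝ) ≤ ∑ ω : Fin J × Fin n → Fin L, ∑ q ∈ S,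
          t ^ (3 * a) * ((L : ℝ)⁻¹ ^ q.1.card * τ⁻¹ ^ q.2.card) * (L : ℝ) ^ hit ω q.1 q.2 :=
          sum_le_sum fun ω _ => h1 ω
      _ = ∑ q ∈ S, t ^ (3 * a) * ((L : ℝ)⁻¹ ^ q.1.card * τ⁻¹ ^ q.2.card) *
            ∑ ω : Fin J × Fin n → Fin L, (L : ℝ) ^ hit ω q.1 q.2 := by
          rw [sum_comm]; simp only [mul_sum]
      _ ≤ ∑ q ∈ S, t ^ (3 * a) * ((L : ℝ)⁻¹ ^ q.1.card * τ⁻¹ ^ q.2.card) *
            ((L : ℝ) ^ (J * n) * c ^ q.2.card) := by
          refine sum_le_sum fun q hq => ?_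
          exact mul_le_mul_of_nonneg_left (moment q.1 (mem_filter.1 hq).2 q.2) (by positivity)
      _ ≤ ∑ q : Finset (Fin L) × Finset (Fin J), t ^ (3 * a) * ((L : ℝ)⁻¹ ^ q.1.card * τ⁻¹ ^ q.2.card) *
            ((L : ℝ) ^ (J * n) * c ^ q.2.card) :=
          sum_le_sum_of_subset_of_nonneg (subset_univ _) fun q _ _ => by positivity
      _ = t ^ (3 * a) * (L : ℝ) ^ (J * n) * ((∑ H : Finset (Fin L), (L : ℝ)⁻¹ ^ H.card) *
            ∑ T : Finset (Fin J), (τ⁻¹ * c) ^ T.card) := by
          rw [sum_mul_sum, ← Fintype.sum_prod_type', mul_sum]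
          refine sum_congr rfl fun q _ => ?_
          rw [mul_pow]; ring
      _ ≤ t ^ (3 * a) * (L : ℝ) ^ (J * n) * (Real.exp 1 * Real.exp c) := by
          apply mul_le_mul_of_nonneg_left _ (by positivity)
          apply mul_le_mul _ _ (sum_nonneg fun _ _ => by positivity) (by positivity)
          · refine (sum_pow_card L _ (by positivity)).trans ?_
            rw [mul_inv_cancel₀ hL0.ne']
          · refine (sum_pow_card J _ (by positivity)).trans (Real.exp_le_exp.2 ?_)
            have : (J : ℝ) * τ⁻¹ ≤ 1 := by rw [← div_eq_mul_inv, div_le_one hτ0]; exact hJ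
            rw [← mul_assoc]
            exact mul_le_of_le_one_left hc0 this
      _ = _ := by
          rw [← Real.exp_add]
          simp only [sum_const, card_univ, Fintype.card_pi, Fintype.card_fin, prod_const,
            Fintype.card_prod, nsmul_eq_mul]
          push_cast; ring
  obtain ⟨ω, -, hω⟩ := exists_le_of_sum_le univ_nonempty h2
  have hch : ∀ q : bad ω, ∃ x, x ∈ q.1.2 := fun q => (mem_filter.1 q.2).2.2.1
  choose f hf using hch
  refine ⟨ω, (univ.image f)ᶜ, ?_, ?_⟩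
  · have h3 : (univ.image f).card ≤ (bad ω).card := card_image_le.trans (by simp)
    have h4 := card_add_card_compl (univ.image f)
    rw [Fintype.card_fin] at h4
    have h5 : (J : ℝ) = (univ.image f).card + ((univ.image f)ᶜ).card := by exact_mod_cast h4.symm
    have h6 : ((univ.image f).card : ℝ) ≤ (bad ω).card := by exact_mod_cast h3
    linarith
  · intro H hH T hT hne
    by_contra hlt
    have hb : (H, T) ∈ bad ω := by
      simp only [bad, mem_filter, mem_univ, true_and]
      exact ⟨hH, hne, by omega⟩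
    have := hT (hf ⟨_, hb⟩)
    simp at this

end H20.JointP
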