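import Pool.Agent.H20.JointM

namespace H20.Joint

open Classical Finset

variable {α : Type} {M : Matroid α} {Λ : Type} [Fintype Λ] {n : ℕ}

/-- cleaning -/
lemma clean (X : Finset α) (l : α → Fin n → Λ) (D : ℕ) (hD : D * Fintype.card Λ < X.card) :
    ∃ Y ⊆ X, Y.Nonempty ∧ ∀ x ∈ Y, ∀ i, D ≤ (Y.filter (fun y => ∃ j, l y j = l x i)).card := by
  let U : Finset α → Finset Λ := fun Y => univ.filter (fun a => ∃ y ∈ Y, ∃ j, l y j = a)
  obtain ⟨Y, hY, hmax⟩ := exists_max_image X.powerset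
    (fun Y => (Y.card : ℤ) - D * (U Y).card) ⟨∅, by simp⟩
  have hYX := mem_powerset.1 hY
  refine ⟨Y, hYX, ?_, ?_⟩
  · rw [nonempty_iff_ne_empty]
    rintro rfl
    have h1 := hmax X (by simp)
    have h2 : (U X).card ≤ Fintype.card Λ := card_le_univ _
    have h3 : (U ∅).card = 0 := by simp [U]
    rw [h3] at h1
    have h4 : D * (U X).card ≤ D * Fintype.card Λ := Nat.mul_le_mul_left _ h2
    simp only [card_empty] at h1
    have h5 : ((D * (U X).card : ℕ) : ℤ) < X.card := by exact_mod_cast h4.trans_lt hD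
    push_cast at h5 h1
    linarith
  · intro x hx i
    by_contra hlt
    push Not at hlt
    set Z := Y.filter (fun y => ¬ ∃ j, l y j = l x i) with hZ
    have h1 := hmax Z (mem_powerset.2 ((filter_subset _ _).trans hYX))
    have h2 := card_filter_add_card_filter_not (s := Y) (fun y => ∃ j, l y j = l x i)
    have h3 : (U Z).card + 1 ≤ (U Y).card := by
      apply card_lt_card
      refine ⟨?_, fun h => ?_⟩
      · intro a ha
        simp only [U, mem_filter, mem_univ, true_and] at ha ⊢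
        obtain ⟨y, hy, j, rfl⟩ := ha
        exact ⟨y, (mem_filter.1 hy).1, j, rfl⟩
      · have : l x i ∈ U Z := h (by simp only [U, mem_filter, mem_univ, true_and]; exact ⟨x, hx, i, rfl⟩)
        simp only [U, mem_filter, mem_univ, true_and] at this
        obtain ⟨y, hy, j, h⟩ := this
        exact (mem_filter.1 hy).2 ⟨j, h⟩
    have h4 : D * ((U Z).card + 1) ≤ D * (U Y).card := Nat.mul_le_mul_left _ h3
    have h5 : ((D * ((U Z).card + 1) : ℕ) : ℤ) ≤ ((D * (U Y).card : ℕ) : ℤ) := by exact_mod_cast h4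
    push_cast at h5
    rw [← hZ] at h2
    have h6 : ((Y.filter (fun y => ∃ j, l y j = l x i)).card : ℤ) < D := by exact_mod_cast hlt
    have h7 : ((Y.filter (fun y => ∃ j, l y j = l x i)).card : ℤ) + Z.card = Y.card := by
      exact_mod_cast h2
    linarith

variable (hs : Simple M) (hn : 2 ≤ n) (pt : Λ → Set α) (hpt : ∀ a, IsLine M (pt a))
  (hinj : Function.Injective pt) (Y : Finset α) (l : α → Fin n → Λ)
  (hl : ∀ x ∈ Y, (∀ i, x ∈ pt (l x i)) ∧ (n + 1 : ℕ∞) ≤ M.eRk (⋃ i, pt (l x i)))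

include hs hpt hinj in
lemma meet {a b : Λ} {x y : α} (hxa : x ∈ pt a) (hya : y ∈ pt a) (hxb : x ∈ pt b) (hyb : y ∈ pt b)
    (hxy : x ≠ y) : a = b :=
  hinj (Set.Subset.antisymm (line_sub hs (hpt a) hxa hya hxy (hpt b).1 hxb hyb)
    (line_sub hs (hpt b) hxb hyb hxy (hpt a).1 hxa hya))

include hs hn hpt hl in
lemma other (x : α) (hx : x ∈ Y) (a : Λ) : ∃ j, l x j ≠ a := by
  by_contra h
  push Not at h
  refine not_sub hs (fun j => pt (l x j)) (fun j => ⟨hpt _, (hl x hx).1 j⟩) (hl x hx).2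
    univ (pt a) (h ⟨0, by omega⟩ ▸ (hl x hx).1 ⟨0, by omega⟩) (fun j _ => by rw [h j]) ?_
  rw [(hpt a).2, card_univ, Fintype.card_fin]
  exact_mod_cast hn

include hs hpt hl in
lemma exit [Nonempty Λ] (F : Set α) (hF : M.IsFlat F) (hr : M.eRk F ≤ n) :
    ∃ w : α → Λ, (∀ x ∈ Y.filter (· ∈ F), ∃ i, l x i = w x) ∧
      Set.InjOn w (Y.filter (· ∈ F) : Finset α) := by
  have h : ∀ x, ∃ a : Λ, x ∈ Y.filter (· ∈ F) → (∃ i, l x i = a) ∧ ¬ pt a ⊆ F := by
    intro x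
    by_cases hx : x ∈ Y.filter (· ∈ F)
    · obtain ⟨hxY, hxF⟩ := mem_filter.1 hx
      by_contra hc
      push Not at hc
      refine not_sub hs (fun j => pt (l x j)) (fun j => ⟨hpt _, (hl x hxY).1 j⟩) (hl x hxY).2
        univ F hxF (fun j _ => (hc (l x j)).2 ⟨j, rfl⟩) ?_
      rwa [card_univ, Fintype.card_fin]
    · exact ⟨Classical.arbitrary _, fun h => absurd h hx⟩
  choose w hw using h
  refine ⟨w, fun x hx => (hw x hx).1, ?_⟩
  intro x hx y hy hxy
  by_contra hne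
  obtain ⟨⟨i, hi⟩, h1⟩ := hw x hx
  obtain ⟨⟨j, hj⟩, -⟩ := hw y hy
  have hx' := mem_filter.1 (mem_coe.1 hx)
  have hy' := mem_filter.1 (mem_coe.1 hy)
  exact h1 (line_sub hs (hpt _) (hi ▸ (hl x hx'.1).1 i) (hxy ▸ hj ▸ (hl y hy'.1).1 j) hne hF
    hx'.2 hy'.2)

include hs hpt hl in
lemma cap [Nonempty Λ] (F : Set α) (hF : M.IsFlat F) (hr : M.eRk F ≤ n) :
    (Y.filter (· ∈ F)).card ≤ Fintype.card Λ := by
  obtain ⟨w, -, hw⟩ := exit hs pt hpt Y l hl F hF hr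
  rw [← card_image_of_injOn hw]
  exact card_le_univ _

include hs hn hpt hinj hl in
lemma grow [Nonempty Λ] (D : ℕ)
    (hD : ∀ x ∈ Y, ∀ i, D + 1 ≤ (Y.filter (fun y => ∃ j, l y j = l x i)).card)
    (F : Set α) (hF : M.IsFlat F) (hr : M.eRk F ≤ n) :
    ∃ F' : Set α, M.IsFlat F' ∧ M.eRk F' ≤ M.eRk F + 2 ∧
      (Y.filter (· ∈ F)).card * D ^ 2 ≤ n * Fintype.card Λ * (Y.filter (· ∈ F')).card := by
  obtain ⟨w, hw1, hw2⟩ := exit hs pt hpt Y l hl F hF hr
  set A := Y.filter (· ∈ F) with hA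
  have hxw : ∀ x ∈ A, x ∈ pt (w x) := by
    intro x hx
    obtain ⟨i, hi⟩ := hw1 x hx
    exact hi ▸ (hl x (mem_filter.1 hx).1).1 i
  let Q : α → Λ → Prop := fun x u => ∃ y, y ≠ x ∧ y ∈ pt (w x) ∧ y ∈ pt u
  have h1 : ∀ x ∈ A, D ≤ (univ.filter (fun u => Q x u)).card := by
    intro x hx
    obtain ⟨i, hi⟩ := hw1 x hx
    have hd := hD x (mem_filter.1 hx).1 i
    rw [hi] at hd
    have ho : ∀ y, ∃ u : Λ, y ∈ Y → y ∈ pt u ∧ u ≠ w x := by
      intro y
      by_cases hy : y ∈ Y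
      · obtain ⟨j, hj⟩ := other hs hn pt hpt Y l hl y hy (w x)
        exact ⟨l y j, fun _ => ⟨(hl y hy).1 j, hj⟩⟩
      · exact ⟨w x, fun h => absurd h hy⟩
    choose u hu using ho
    have hc : ((Y.filter (fun y => ∃ j, l y j = w x)).erase x).card ≤
        (univ.filter (fun u => Q x u)).card := by
      apply card_le_card_of_injOn u
      · intro y hy
        obtain ⟨hyx, hy⟩ := mem_erase.1 (mem_coe.1 hy)
        obtain ⟨hyY, j, hj⟩ := mem_filter.1 hy
        simp only [coe_filter, mem_univ, true_and, Set.mem_setOf_eq]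
        exact ⟨y, hyx, hj ▸ (hl y hyY).1 j, (hu y hyY).1⟩
      · intro y hy z hz hyz
        obtain ⟨hyY, j, hj⟩ := mem_filter.1 (mem_erase.1 (mem_coe.1 hy)).2
        obtain ⟨hzY, k, hk⟩ := mem_filter.1 (mem_erase.1 (mem_coe.1 hz)).2
        by_contra hne
        exact (hu y hyY).2 (meet hs pt hpt hinj (hu y hyY).1 (hyz ▸ (hu z hzY).1)
          (hj ▸ (hl y hyY).1 j) (hk ▸ (hl z hzY).1 k) hne)
    have := pred_card_le_card_erase (s := Y.filter (fun y => ∃ j, l y j = w x)) (a := x)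
    omega
  have h2 : ∃ u : Λ, A.card * D ≤ Fintype.card Λ * (A.filter (fun x => Q x u)).card := by
    obtain ⟨u, -, hu⟩ := exists_max_image (univ : Finset Λ) (fun u => (A.filter (fun x => Q x u)).card)
      univ_nonempty
    refine ⟨u, ?_⟩
    calc A.card * D = ∑ x ∈ A, D := by simp
      _ ≤ ∑ x ∈ A, (univ.filter (fun u => Q x u)).card := sum_le_sum h1
      _ = ∑ v : Λ, (A.filter (fun x => Q x v)).card := by
          simp only [card_filter]; exact sum_comm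
      _ ≤ ∑ v : Λ, (A.filter (fun x => Q x u)).card := sum_le_sum fun v hv => hu v hv
      _ = _ := by simp
  obtain ⟨u, hu⟩ := h2
  set B := A.filter (fun x => Q x u) with hB
  have hsub : F ∪ pt u ⊆ M.closure (F ∪ pt u) :=
    M.subset_closure _ (Set.union_subset hF.subset_ground (hpt u).1.subset_ground)
  refine ⟨M.closure (F ∪ pt u), M.isFlat_closure _, ?_, ?_⟩
  · rw [M.eRk_closure_eq, ← (hpt u).2]
    exact M.eRk_union_le_eRk_add_eRk _ _
  set C := Y.filter (· ∈ M.closure (F ∪ pt u)) with hC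
  have h3 : ∀ x ∈ B, D ≤ (C.filter (fun y => ∃ j, l y j = w x)).card := by
    intro x hx
    obtain ⟨hxA, y, hyx, hy1, hy2⟩ := mem_filter.1 hx
    have hin : pt (w x) ⊆ M.closure (F ∪ pt u) :=
      line_sub hs (hpt _) hy1 (hxw x hxA) hyx (M.isFlat_closure _) (hsub (Or.inr hy2))
        (hsub (Or.inl (mem_filter.1 hxA).2))
    obtain ⟨i, hi⟩ := hw1 x hxA
    have hd := hD x (mem_filter.1 hxA).1 i
    rw [hi] at hd
    refine (Nat.le_succ _).trans (hd.trans (card_le_card ?_))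
    intro z hz
    obtain ⟨hzY, j, hj⟩ := mem_filter.1 hz
    exact mem_filter.2 ⟨mem_filter.2 ⟨hzY, hin (hj ▸ (hl z hzY).1 j)⟩, j, hj⟩
  have h4 : ∀ y ∈ C, (B.filter (fun x => ∃ j, l y j = w x)).card ≤ n := by
    intro y _
    have hi : Set.InjOn w (B.filter (fun x => ∃ j, l y j = w x) : Finset α) :=
      hw2.mono (fun x hx => (mem_filter.1 (mem_filter.1 (mem_coe.1 hx)).1).1)
    rw [← card_image_of_injOn hi]
    calc _ ≤ (univ.image (l y)).card := by
          apply card_le_card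
          intro a ha
          obtain ⟨x, hx, rfl⟩ := mem_image.1 ha
          obtain ⟨j, hj⟩ := (mem_filter.1 hx).2
          exact mem_image.2 ⟨j, mem_univ _, hj⟩
      _ ≤ n := card_image_le.trans (by simp)
  have h5 : B.card * D ≤ n * C.card := by
    calc B.card * D = ∑ x ∈ B, D := by simp
      _ ≤ ∑ x ∈ B, (C.filter (fun y => ∃ j, l y j = w x)).card := sum_le_sum h3
      _ = ∑ y ∈ C, (B.filter (fun x => ∃ j, l y j = w x)).card := by
          simp only [card_filter]; exact sum_comm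
      _ ≤ ∑ y ∈ C, n := sum_le_sum h4
      _ = _ := by simp [mul_comm]
  calc A.card * D ^ 2 = A.card * D * D := by ring
    _ ≤ Fintype.card Λ * B.card * D := Nat.mul_le_mul_right _ hu
    _ = Fintype.card Λ * (B.card * D) := by ring
    _ ≤ Fintype.card Λ * (n * C.card) := Nat.mul_le_mul_left _ h5
    _ = _ := by ring

include hs hn hpt hinj hl in
lemma chain [Nonempty Λ] (D : ℕ) (hY : Y.Nonempty)
    (hD : ∀ x ∈ Y, ∀ i, D + 1 ≤ (Y.filter (fun y => ∃ j, l y j = l x i)).card) (s : ℕ)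
    (hsn : 2 * (s + 1) ≤ n) :
    ∃ F : Set α, M.IsFlat F ∧ M.eRk F ≤ (2 * (s + 1) : ℕ) ∧
      D ^ (2 * s + 1) ≤ (n * Fintype.card Λ) ^ s * (Y.filter (· ∈ F)).card := by
  induction s with
  | zero =>
    obtain ⟨x, hx⟩ := hY
    refine ⟨pt (l x ⟨0, by omega⟩), (hpt _).1, by rw [(hpt _).2]; rfl, ?_⟩
    simp only [mul_zero, zero_add, pow_one, pow_zero, one_mul]
    refine (Nat.le_succ _).trans ((hD x hx ⟨0, by omega⟩).trans (card_le_card ?_))
    intro z hz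
    obtain ⟨hzY, j, hj⟩ := mem_filter.1 hz
    exact mem_filter.2 ⟨hzY, hj ▸ (hl z hzY).1 j⟩
  | succ s ih =>
    obtain ⟨F, hF, hr, hc⟩ := ih (by omega)
    obtain ⟨F', hF', hr', hc'⟩ := grow hs hn pt hpt hinj Y l hl D hD F hF
      (hr.trans (by exact_mod_cast (by omega)))
    refine ⟨F', hF', hr'.trans ?_, ?_⟩
    · calc M.eRk F + 2 ≤ (2 * (s + 1) : ℕ) + 2 := by gcongr
        _ = _ := by push_cast; ring
    · calc D ^ (2 * (s + 1) + 1) = D ^ (2 * s + 1) * D ^ 2 := by ring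
        _ ≤ (n * Fintype.card Λ) ^ s * (Y.filter (· ∈ F)).card * D ^ 2 := Nat.mul_le_mul_right _ hc
        _ = (n * Fintype.card Λ) ^ s * ((Y.filter (· ∈ F)).card * D ^ 2) := by ring
        _ ≤ (n * Fintype.card Λ) ^ s * (n * Fintype.card Λ * (Y.filter (· ∈ F')).card) :=
            Nat.mul_le_mul_left _ hc'
        _ = _ := by ring

theorem upper (n s : ℕ) (hn : 2 * (s + 1) ≤ n) (M : Matroid α) [M.Finite] (hs : Simple M)
    (𝓛 : Finset (Set α)) (hL : ∀ l ∈ 𝓛, IsLine M l) :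
    (({x | IsJoint M 𝓛 n x}.ncard : ℕ) : ℝ) ≤
      (n + 2) * (𝓛.card : ℝ) ^ ((3 * s + 2 : ℝ) / (2 * s + 1)) := by
  have hfin : {x | IsJoint M 𝓛 n x}.Finite := M.ground_finite.subset (fun x hx => hx.1)
  set X := hfin.toFinset with hX
  rw [Set.ncard_eq_toFinset_card _ hfin, ← hX]
  rcases X.eq_empty_or_nonempty with h0 | ⟨x0, hx0⟩
  · rw [h0]; simp only [card_empty, Nat.cast_zero]; positivity
  have hex : ∀ x : α, ∃ l : Fin n → 𝓛, x ∈ X →
      (∀ i, x ∈ (l i : Set α)) ∧ (n + 1 : ℕ∞) ≤ M.eRk (⋃ i, (l i : Set α)) := by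
    intro x
    by_cases hx : x ∈ X
    · obtain ⟨-, l, h1, h2⟩ := (hfin.mem_toFinset.1 hx : IsJoint M 𝓛 n x)
      exact ⟨fun i => ⟨l i, (h1 i).1⟩, fun _ => ⟨fun i => (h1 i).2, h2⟩⟩
    · obtain ⟨-, l, h1, h2⟩ := (hfin.mem_toFinset.1 hx0 : IsJoint M 𝓛 n x0)
      exact ⟨fun i => ⟨l i, (h1 i).1⟩, fun h => absurd h hx⟩
  choose l hl using hex
  have line : ∀ a : 𝓛, IsLine M (a : Set α) := fun a => hL a a.2
  haveI : Nonempty 𝓛 := ⟨l x0 ⟨0, by omega⟩⟩
  set L := 𝓛.card with hLdef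
  have hcard : Fintype.card 𝓛 = L := by simp [hLdef]
  have hL1 : 1 ≤ L := hcard ▸ Fintype.card_pos
  have hL0 : (0 : ℝ) < L := by exact_mod_cast hL1
  set t : ℝ := (L : ℝ) ^ ((1 : ℝ) / (2 * s + 1)) with ht
  have hs0 : (2 * s + 1 : ℝ) ≠ 0 := by positivity
  have htL : (L : ℝ) = t ^ (2 * s + 1) := by
    rw [ht, ← Real.rpow_natCast, ← Real.rpow_mul hL0.le]
    push_cast; rw [one_div, inv_mul_cancel₀ hs0, Real.rpow_one]
  have ht2 : (L : ℝ) ^ ((3 * s + 2 : ℝ) / (2 * s + 1)) = L * t ^ (s + 1) := by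
    rw [htL, ← pow_add, ← htL, ht, ← Real.rpow_natCast, ← Real.rpow_mul hL0.le]
    congr 1; push_cast; field_simp; ring
  have ht1 : 1 ≤ t := Real.one_le_rpow (by exact_mod_cast hL1) (by positivity)
  have ht3 : 1 ≤ t ^ (s + 1) := one_le_pow₀ ht1
  rw [ht2]
  by_cases hsmall : X.card ≤ 2 * L
  · have : (X.card : ℝ) ≤ 2 * L := by exact_mod_cast hsmall
    have h2 : (0 : ℝ) ≤ n := Nat.cast_nonneg _
    nlinarith [mul_le_mul_of_nonneg_left ht3 hL0.le, mul_nonneg h2 (mul_nonneg hL0.le (by linarith : (0:ℝ) ≤ t ^ (s+1)))]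
  push Not at hsmall
  obtain ⟨E, hE1, hE2⟩ : ∃ E : ℕ, (E + 1) * L < X.card ∧ X.card ≤ (E + 2) * L := by
    refine ⟨(X.card - 1) / L - 1, ?_, ?_⟩
    · have h1 : 2 ≤ (X.card - 1) / L := (Nat.le_div_iff_mul_le hL1).2 (by omega)
      have h2 := Nat.div_mul_le_self (X.card - 1) L
      rw [show (X.card - 1) / L - 1 + 1 = (X.card - 1) / L by omega]; omega
    · have h1 : 2 ≤ (X.card - 1) / L := (Nat.le_div_iff_mul_le hL1).2 (by omega)
      have h2 := Nat.lt_div_mul_add (a := X.card - 1) hL1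
      rw [show (X.card - 1) / L - 1 + 2 = (X.card - 1) / L + 1 by omega, add_mul]; omega
  obtain ⟨Y, hYX, hY, hYD⟩ := clean X l (E + 1) (by rwa [hcard])
  have hlY : ∀ x ∈ Y, (∀ i, x ∈ (l x i : Set α)) ∧ (n + 1 : ℕ∞) ≤ M.eRk (⋃ i, (l x i : Set α)) :=
    fun x hx => hl x (hYX hx)
  obtain ⟨F, hF, hr, hc⟩ := chain hs (by omega) (fun a : 𝓛 => (a : Set α)) line Subtype.val_injective
    Y l hlY E hY hYD s hn
  have hcap := cap hs (fun a : 𝓛 => (a : Set α)) line Y l hlY F hF (hr.trans (by exact_mod_cast hn))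
  rw [hcard] at hc hcap
  have h1 : (E : ℝ) ^ (2 * s + 1) ≤ (n * t ^ (s + 1)) ^ (2 * s + 1) := by
    have h2 : E ^ (2 * s + 1) ≤ (n * L) ^ s * L := hc.trans (Nat.mul_le_mul_left _ hcap)
    have h3 : n ^ s ≤ n ^ (2 * s + 1) := Nat.pow_le_pow_right (by omega) (by omega)
    have h4 : E ^ (2 * s + 1) ≤ n ^ (2 * s + 1) * L ^ (s + 1) := by
      calc _ ≤ (n * L) ^ s * L := h2
        _ = n ^ s * L ^ (s + 1) := by ring
        _ ≤ _ := Nat.mul_le_mul_right _ h3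
    calc (E : ℝ) ^ (2 * s + 1) ≤ (n : ℝ) ^ (2 * s + 1) * (L : ℝ) ^ (s + 1) := by exact_mod_cast h4
      _ = _ := by rw [htL]; ring
  have h5 : (E : ℝ) ≤ n * t ^ (s + 1) := le_of_pow_le_pow_left₀ (by omega)
    (mul_nonneg (Nat.cast_nonneg _) (zero_le_one.trans ht3)) h1
  have h6 : (X.card : ℝ) ≤ (E + 2) * L := by exact_mod_cast hE2
  nlinarith [mul_le_mul_of_nonneg_left ht3 hL0.le, mul_le_mul_of_nonneg_right h5 hL0.le]

end H20.Joint
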