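import Mathlib

namespace Pool.Agent.H20.Lag

open Finset

variable {V : Type} [DecidableEq V]

def pw (F : Finset (Finset V)) (y : V → ℝ) : ℝ := ∑ e ∈ F, ∏ i ∈ e, y i

def lk (F : Finset (Finset V)) (v : V) (y : V → ℝ) : ℝ :=
  ∑ e ∈ F.filter (fun e => v ∈ e), ∏ i ∈ e.erase v, y i

noncomputable def EE (j : ℕ) (s : Finset V) (y : V → ℝ) : ℝ :=
  j.factorial * pw (s.powersetCard j) y

noncomputable def g (j : ℕ) (a : ℝ) : ℝ := ∏ i ∈ range j, (1 - (i : ℝ) * a)

theorem pw_nonneg {F : Finset (Finset V)} {y : V → ℝ} (hy : ∀ i, 0 ≤ y i) : 0 ≤ pw F y :=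
  sum_nonneg fun _ _ => prod_nonneg fun i _ => hy i

theorem lk_nonneg {F : Finset (Finset V)} {y : V → ℝ} (hy : ∀ i, 0 ≤ y i) (v : V) :
    0 ≤ lk F v y :=
  sum_nonneg fun _ _ => prod_nonneg fun i _ => hy i

theorem pw_mono {F G : Finset (Finset V)} {y : V → ℝ} (hy : ∀ i, 0 ≤ y i) (h : F ⊆ G) :
    pw F y ≤ pw G y :=
  sum_le_sum_of_subset_of_nonneg h fun _ _ _ => prod_nonneg fun i _ => hy i

theorem mul_lk (F : Finset (Finset V)) (v : V) (y : V → ℝ) :
    y v * lk F v y = pw (F.filter fun e => v ∈ e) y := by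
  unfold lk pw
  rw [mul_sum]
  refine sum_congr rfl fun e he => ?_
  exact mul_prod_erase e y (mem_filter.1 he).2

theorem sum_lk {F : Finset (Finset V)} {r : ℕ} {s : Finset V} (hF : ∀ e ∈ F, e.card = r)
    (hs : ∀ e ∈ F, e ⊆ s) (y : V → ℝ) : ∑ v ∈ s, y v * lk F v y = r * pw F y := by
  simp only [mul_lk, pw, sum_filter]
  rw [sum_comm, mul_sum]
  refine sum_congr rfl fun e he => ?_
  rw [← sum_filter, sum_const, nsmul_eq_mul]
  congr 2
  rw [← hF e he]
  congr 1
  ext v
  simp only [mem_filter]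
  exact ⟨fun h => h.2, fun h => ⟨hs e he h, h⟩⟩

theorem lk_complete (j : ℕ) {s : Finset V} {v : V} (hv : v ∈ s) (y : V → ℝ) :
    lk (s.powersetCard (j + 1)) v y = pw ((s.erase v).powersetCard j) y := by
  unfold lk pw
  refine sum_nbij' (fun e => e.erase v) (fun e => insert v e) ?_ ?_ ?_ ?_ ?_
  · intro e he
    simp only [mem_filter, mem_powersetCard] at he ⊢
    exact ⟨erase_subset_erase v he.1.1, by rw [card_erase_of_mem he.2, he.1.2]; rfl⟩
  · intro e he
    simp only [mem_filter, mem_powersetCard] at he ⊢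
    have : v ∉ e := fun h => by simpa using he.1 h
    refine ⟨⟨insert_subset hv (he.1.trans (erase_subset _ _)), ?_⟩, mem_insert_self _ _⟩
    rw [card_insert_of_notMem this, he.2]
  · intro e he
    exact insert_erase (mem_filter.1 he).2
  · intro e he
    simp only [mem_powersetCard] at he
    exact erase_insert fun h => by simpa using he.1 h
  · intro e _
    rfl

theorem pw_split (j : ℕ) {s : Finset V} {v : V} (hv : v ∈ s) (y : V → ℝ) :
    pw (s.powersetCard (j + 1)) y =
      pw ((s.erase v).powersetCard (j + 1)) y + y v * pw ((s.erase v).powersetCard j) y := by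
  rw [← lk_complete j hv, mul_lk]
  unfold pw
  rw [← sum_filter_add_sum_filter_not _ (fun e => v ∈ e), add_comm]
  congr 2
  ext e
  simp only [mem_filter, mem_powersetCard, subset_erase]
  tauto

theorem EE_zero (s : Finset V) (y : V → ℝ) : EE 0 s y = 1 := by
  simp [EE, pw]

theorem EE_split (j : ℕ) {s : Finset V} {v : V} (hv : v ∈ s) (y : V → ℝ) :
    EE (j + 1) s y = EE (j + 1) (s.erase v) y + (j + 1) * y v * EE j (s.erase v) y := by
  unfold EE
  rw [pw_split j hv, Nat.factorial_succ]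
  push_cast
  ring

theorem EE_succ (j : ℕ) (s : Finset V) (y : V → ℝ) :
    EE (j + 1) s y = ∑ v ∈ s, y v * EE j (s.erase v) y := by
  have h := sum_lk (F := s.powersetCard (j + 1)) (r := j + 1) (s := s)
    (fun e he => (mem_powersetCard.1 he).2) (fun e he => (mem_powersetCard.1 he).1) y
  unfold EE
  rw [Nat.factorial_succ]
  push_cast at h ⊢
  rw [mul_comm ((j : ℝ) + 1), mul_assoc, ← h, mul_sum]
  refine sum_congr rfl fun v hv => ?_
  rw [lk_complete j hv]
  ring

theorem EE_nonneg {y : V → ℝ} (hy : ∀ i, 0 ≤ y i) (j : ℕ) (s : Finset V) : 0 ≤ EE j s y :=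
  mul_nonneg (Nat.cast_nonneg _) (pw_nonneg hy)

theorem EE_mono {y : V → ℝ} (hy : ∀ i, 0 ≤ y i) (j : ℕ) {s t : Finset V} (h : s ⊆ t) :
    EE j s y ≤ EE j t y :=
  mul_le_mul_of_nonneg_left (pw_mono hy (powersetCard_mono h)) (Nat.cast_nonneg _)

theorem EE_succ_le {y : V → ℝ} (hy : ∀ i, 0 ≤ y i) (j : ℕ) (s : Finset V) :
    EE (j + 1) s y ≤ (∑ v ∈ s, y v) * EE j s y := by
  rw [EE_succ, sum_mul]
  exact sum_le_sum fun v _ => mul_le_mul_of_nonneg_left (EE_mono hy j (erase_subset _ _)) (hy v)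

theorem EE_le {y : V → ℝ} (hy : ∀ i, 0 ≤ y i) (j : ℕ) (s : Finset V) :
    EE j s y ≤ (∑ v ∈ s, y v) ^ j := by
  induction j with
  | zero => simp [EE_zero]
  | succ j ih =>
    rw [pow_succ']
    exact (EE_succ_le hy j s).trans (mul_le_mul_of_nonneg_left ih (sum_nonneg fun v _ => hy v))

theorem g_succ (j : ℕ) (a : ℝ) : g (j + 1) a = g j a * (1 - j * a) := by
  unfold g
  rw [prod_range_succ]

theorem newton (j : ℕ) : ∃ C : ℝ, 0 ≤ C ∧ ∀ (V : Type) [DecidableEq V] (s : Finset V)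
    (y : V → ℝ) (X : ℝ), (∀ i, 0 ≤ y i) → (∀ i ∈ s, y i ≤ X) → ∑ i ∈ s, y i = 1 →
    |EE (j + 1) s y - g (j + 1) (∑ i ∈ s, y i ^ 2)| ≤ C * (X * (X - ∑ i ∈ s, y i ^ 2)) ∧
    ∑ v ∈ s, y v ^ 2 * |EE j (s.erase v) y - g (j + 1) (∑ i ∈ s, y i ^ 2)| ≤
      C * (X * (X - ∑ i ∈ s, y i ^ 2)) := by
  induction j with
  | zero =>
    refine ⟨0, le_rfl, fun V _ s y X hy hX h1 => ?_⟩
    simp [EE_succ, EE_zero, g, h1]
  | succ j ih =>
    obtain ⟨C, hC, ih⟩ := ih
    refine ⟨C + (j + 1) * (C + 2), by positivity, fun V _ s y X hy hX h1 => ?_⟩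
    obtain ⟨a1, a2⟩ := ih V s y X hy hX h1
    set S := ∑ i ∈ s, y i ^ 2 with hS
    have hle1 : ∀ v ∈ s, y v ≤ 1 := fun v hv => h1 ▸ single_le_sum (fun i _ => hy i) hv
    have hSX : S ≤ X := by
      calc S ≤ ∑ i ∈ s, y i * X := sum_le_sum fun i hi => by
              rw [sq]; exact mul_le_mul_of_nonneg_left (hX i hi) (hy i)
        _ = X := by rw [← sum_mul, h1, one_mul]
    have hS0 : 0 ≤ S := sum_nonneg fun i _ => sq_nonneg _
    have hS1 : S ≤ 1 := by
      calc S ≤ ∑ i ∈ s, y i := sum_le_sum fun i hi => by nlinarith [hy i, hle1 i hi]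
        _ = 1 := h1
    have hN : 0 ≤ X * (X - S) := mul_nonneg (by linarith) (by linarith)
    have hD : ∀ v, EE j (s.erase v) y ≤ 1 := fun v =>
      (EE_mono hy j (erase_subset _ _)).trans ((EE_le hy j s).trans (by rw [h1, one_pow]))
    have hj : (0 : ℝ) ≤ j + 1 := by positivity
    constructor
    · have e1 : EE (j + 1 + 1) s y - g (j + 1 + 1) S = (EE (j + 1) s y - g (j + 1) S) -
          (j + 1) * ∑ v ∈ s, y v ^ 2 * (EE j (s.erase v) y - g (j + 1) S) := by
        rw [EE_succ (j + 1), g_succ (j + 1)]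
        have : ∑ v ∈ s, y v * EE (j + 1) (s.erase v) y =
            ∑ v ∈ s, (y v * EE (j + 1) s y - (j + 1) * (y v ^ 2 * EE j (s.erase v) y)) :=
          sum_congr rfl fun v hv => by rw [EE_split j hv]; ring
        rw [this, sum_sub_distrib, ← sum_mul, h1, ← mul_sum]
        simp only [mul_sub, sum_sub_distrib, ← sum_mul, ← hS]
        push_cast
        ring
      have e2 : |∑ v ∈ s, y v ^ 2 * (EE j (s.erase v) y - g (j + 1) S)| ≤
          C * (X * (X - S)) := by
        refine (abs_sum_le_sum_abs _ _).trans (le_trans (le_of_eq ?_) a2)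
        refine sum_congr rfl fun v _ => ?_
        rw [abs_mul, abs_of_nonneg (sq_nonneg _)]
      rw [e1]
      refine (abs_sub _ _).trans ?_
      rw [abs_mul, abs_of_nonneg hj]
      nlinarith [mul_le_mul_of_nonneg_left e2 hj, mul_nonneg hj hN]
    · have e1 : ∀ v ∈ s, y v ^ 2 * |EE (j + 1) (s.erase v) y - g (j + 1 + 1) S| ≤
          y v ^ 2 * (C * (X * (X - S))) + (j + 1) * (X * (y v * (X - y v) + y v * (X - S))) +
          (j + 1) * (y v ^ 2 * |EE j (s.erase v) y - g (j + 1) S|) := by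
        intro v hv
        have e : EE (j + 1) (s.erase v) y - g (j + 1 + 1) S = (EE (j + 1) s y - g (j + 1) S) -
            (j + 1) * ((y v - S) * EE j (s.erase v) y) -
            (j + 1) * (S * (EE j (s.erase v) y - g (j + 1) S)) := by
          rw [EE_split j hv, g_succ (j + 1)]
          push_cast
          ring
        have b1 : |(y v - S) * EE j (s.erase v) y| ≤ (X - y v) + (X - S) := by
          rw [abs_mul, abs_of_nonneg (EE_nonneg hy _ _)]
          have : |y v - S| ≤ (X - y v) + (X - S) := by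
            rw [abs_le]; constructor <;> linarith [hX v hv]
          nlinarith [abs_nonneg (y v - S), hD v, EE_nonneg hy j (s.erase v)]
        have b2 : |S * (EE j (s.erase v) y - g (j + 1) S)| ≤
            |EE j (s.erase v) y - g (j + 1) S| := by
          rw [abs_mul, abs_of_nonneg hS0]
          nlinarith [abs_nonneg (EE j (s.erase v) y - g (j + 1) S)]
        have b3 : |EE (j + 1) (s.erase v) y - g (j + 1 + 1) S| ≤ C * (X * (X - S)) +
            (j + 1) * ((X - y v) + (X - S)) + (j + 1) * |EE j (s.erase v) y - g (j + 1) S| := by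
          rw [e]
          refine (abs_sub _ _).trans (add_le_add ((abs_sub _ _).trans (add_le_add a1 ?_)) ?_)
          · rw [abs_mul, abs_of_nonneg hj]; exact mul_le_mul_of_nonneg_left b1 hj
          · rw [abs_mul, abs_of_nonneg hj]; exact mul_le_mul_of_nonneg_left b2 hj
        have b4 : y v ^ 2 * ((X - y v) + (X - S)) ≤ X * (y v * (X - y v) + y v * (X - S)) := by
          have : 0 ≤ y v * ((X - y v) + (X - S)) :=
            mul_nonneg (hy v) (by linarith [hX v hv])
          nlinarith [hX v hv]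
        nlinarith [mul_le_mul_of_nonneg_left b3 (sq_nonneg (y v)), mul_le_mul_of_nonneg_left b4 hj]
      refine (sum_le_sum e1).trans ?_
      rw [sum_add_distrib, sum_add_distrib, ← sum_mul, ← mul_sum, ← mul_sum, ← mul_sum,
        sum_add_distrib, ← sum_mul, h1, ← hS]
      have e2 : ∑ v ∈ s, y v * (X - y v) = X - S := by
        simp only [mul_sub, sum_sub_distrib, ← sum_mul, h1, hS, sq, one_mul]
      rw [e2]
      nlinarith [mul_le_mul_of_nonneg_left a2 hj, mul_nonneg hC hN, mul_nonneg hj hN]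

noncomputable def cc (j : ℕ) : ℝ := ∑ i ∈ range j, (i : ℝ)

theorem cc_succ (j : ℕ) : cc (j + 1) = cc j + j := by
  unfold cc
  rw [sum_range_succ]

theorem cc_nonneg (j : ℕ) : 0 ≤ cc j := sum_nonneg fun i _ => Nat.cast_nonneg i

theorem g_bounds (j : ℕ) : ∃ K : ℝ, 0 ≤ K ∧ ∀ a b : ℝ, 0 ≤ a → a ≤ b → j * b ≤ 1 →
    0 ≤ g j b ∧ g j b ≤ 1 ∧ (cc j - K * b) * (b - a) ≤ g j a - g j b ∧
      g j a - g j b ≤ cc j * (b - a) := by
  induction j with
  | zero => exact ⟨0, le_rfl, fun a b _ _ _ => by simp [g, cc]⟩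
  | succ j ih =>
    obtain ⟨K, hK, ih⟩ := ih
    have hc := cc_nonneg j
    have hj : (0 : ℝ) ≤ j := Nat.cast_nonneg j
    refine ⟨K + 2 * j * cc j, by positivity, fun a b ha hab hb => ?_⟩
    push_cast at hb
    have hb0 : 0 ≤ b := ha.trans hab
    have hb' : j * b ≤ 1 := by nlinarith
    obtain ⟨h1, h2, h3, h4⟩ := ih a b ha hab hb'
    have h5 := (ih 0 b le_rfl hb0 hb').2.2.2
    have h6 : g j 0 = 1 := by simp [g]
    rw [h6] at h5
    have hjb : 0 ≤ j * b := mul_nonneg hj hb0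
    have hja : 0 ≤ j * a := mul_nonneg hj ha
    have hjab : j * a ≤ j * b := mul_le_mul_of_nonneg_left hab hj
    have e : g (j + 1) a - g (j + 1) b =
        (g j a - g j b) * (1 - j * a) + g j b * (j * (b - a)) := by
      rw [g_succ, g_succ]; ring
    have hd : 0 ≤ j * (b - a) := mul_nonneg hj (by linarith)
    have hba : 0 ≤ b - a := by linarith
    have hmono : 0 ≤ g j a - g j b := by
      have : g j b ≤ g j a := by
        unfold g
        refine prod_le_prod (fun i hi => ?_) fun i _ => ?_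
        · have : (i : ℝ) ≤ j := by exact_mod_cast (mem_range.1 hi).le
          nlinarith
        · nlinarith [Nat.cast_nonneg (α := ℝ) i]
      linarith
    refine ⟨by rw [g_succ]; exact mul_nonneg h1 (by linarith), by rw [g_succ]; nlinarith, ?_, ?_⟩
    · rw [e, cc_succ]
      have t1 : (g j a - g j b) * (j * a) ≤ cc j * (b - a) * (j * b) :=
        mul_le_mul h4 hjab hja (mul_nonneg hc hba)
      have t2 : (1 - cc j * b) * (j * (b - a)) ≤ g j b * (j * (b - a)) :=
        mul_le_mul_of_nonneg_right (by linarith) hd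
      nlinarith
    · rw [e, cc_succ]
      nlinarith [mul_nonneg hmono hja, mul_le_mul_of_nonneg_right h2 hd]

theorem pow_le_lin (n : ℕ) {t : ℝ} (h0 : 0 ≤ t) (h1 : t ≤ 1) :
    (1 + t) ^ n ≤ 1 + (2 ^ n - 1) * t := by
  induction n with
  | zero => simp
  | succ n ih =>
    have h2 : (1 : ℝ) ≤ 2 ^ n := one_le_pow₀ (by norm_num)
    rw [pow_succ, pow_succ]
    have := mul_le_mul_of_nonneg_right ih (show 0 ≤ 1 + t by linarith)
    nlinarith [mul_nonneg (mul_nonneg (sub_nonneg.2 h2) h0) (sub_nonneg.2 h1)]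

end Pool.Agent.H20.Lag
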