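import Pool.Agent.H20.Lag1

namespace Pool.Agent.H20.Lag

open Finset

theorem pow_le_lin' (n : ℕ) {t L D : ℝ} (h0 : 0 ≤ t) (h1 : t ≤ 1) (hL : 0 ≤ L) (hL1 : L ≤ 1 + t)
    (hD : 2 ^ n ≤ D) : L ^ n ≤ 1 + D * t :=
  (pow_le_pow_left₀ hL hL1 n).trans ((pow_le_lin n h0 h1).trans (by nlinarith))

end Pool.Agent.H20.Lag
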