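import Pool.Agent.H20.Lag4

namespace Pool.Agent.H20.Lag

open Finset

theorem ga1 {c D ρ τ ξ ε r1 W SA MA NA S M X : ℝ} {r : ℕ} (hc1 : 1 ≤ c) (hcD : c ≤ D)
    (h2 : 2 ^ r ≤ D) (hρ : 0 < ρ) (hρ1 : ρ ≤ 1) (hτ : 0 < τ) (hξ : 0 < ξ) (hξ1 : ξ ≤ 1 / 100)
    (hε : 0 < ε) (hε1 : 100 * D ^ 3 * ε ≤ ξ) (hτ1 : 100 * D ^ 3 * τ ≤ ξ)
    (hr : r1 = ρ * (1 + 2 * ξ)) (hW : r1 - ε * ρ ≤ W) (hSA : SA ≤ r1 * S + ε * ρ * (ρ * τ))
    (hSA0 : 0 ≤ SA) (hMA : MA ≤ r1 ^ r * (M / r1 + ε * τ)) (hNA : NA ≤ X * W) (hX0 : 0 ≤ X)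
    (hX : X ≤ D * (ρ * τ)) (hM0 : 0 ≤ M) (hM : M ≤ D * (ρ * τ)) (hS : 0 ≤ S)
    (hV : c * S < c * (ρ * τ) - M * (1 - D ^ 2 * (ρ * τ))) :
    MA / W ^ r + D * X * NA / W ^ 3 < (c - D * τ) * (τ - SA / W ^ 2) := by
  have hD : 1 ≤ D := hc1.trans hcD
  have D1 : D ≤ D ^ 3 := le_self_pow₀ hD (by norm_num)
  have D2 : D ^ 2 ≤ D ^ 3 := pow_le_pow_right₀ hD (by norm_num)
  have e1 : D * ε ≤ ξ / 100 := by nlinarith
  have e2 : D ^ 2 * ε ≤ ξ / 100 := by nlinarith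
  have e0 : ε ≤ ξ / 100 := by nlinarith
  have t1 : D * τ ≤ ξ / 100 := by nlinarith
  have t2 : D ^ 2 * τ ≤ ξ / 100 := by nlinarith
  have hr1 : ρ ≤ r1 := by nlinarith
  have hr0 : 0 < r1 := by linarith
  have hW1 : r1 * (1 - ε) ≤ W := by nlinarith
  have hW2 : ρ / 2 ≤ W := by nlinarith
  have hW0 : 0 < W := by linarith
  obtain ⟨L, hL⟩ : ∃ L, L = r1 / W := ⟨_, rfl⟩
  have hL0 : 0 < L := by rw [hL]; positivity
  have hL1 : L ≤ 1 + 2 * ε := by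
    rw [hL, div_le_iff₀ hW0]
    nlinarith [mul_le_mul_of_nonneg_left hW1 (show 0 ≤ 1 + 2 * ε by linarith),
      mul_pos hr0 hε, mul_nonneg (mul_pos hr0 hε).le (show 0 ≤ 1 - 2 * ε by linarith)]
  obtain ⟨m, hm⟩ : ∃ m, m = M / r1 := ⟨_, rfl⟩
  obtain ⟨s, hs⟩ : ∃ s, s = S / r1 := ⟨_, rfl⟩
  have hm0 : 0 ≤ m := by rw [hm]; positivity
  have hm1 : m ≤ D * τ := by
    rw [hm, div_le_iff₀ hr0]
    nlinarith [mul_le_mul_of_nonneg_left hr1 (show 0 ≤ D * τ by positivity)]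
  have hs0 : 0 ≤ s := by rw [hs]; positivity
  have hV' : c * s < c * (τ * (1 - ξ)) - m + D ^ 3 * τ ^ 2 := by
    have a1 : c * s < c * (ρ * τ) / r1 - m * (1 - D ^ 2 * (ρ * τ)) := by
      have := div_lt_div_of_pos_right hV hr0
      rw [hs, hm]
      rw [sub_div] at this
      calc c * (S / r1) = c * S / r1 := by ring
        _ < _ := this
        _ = _ := by ring
    have a2 : c * (ρ * τ) / r1 ≤ c * (τ * (1 - ξ)) := by
      rw [div_le_iff₀ hr0, hr]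
      have : 0 ≤ c * (ρ * τ) * (ξ * (1 - 2 * ξ)) :=
        mul_nonneg (by positivity) (mul_nonneg hξ.le (by linarith))
      nlinarith
    have a3 : m * (D ^ 2 * (ρ * τ)) ≤ D * τ * (D ^ 2 * (1 * τ)) := by gcongr
    nlinarith
  have hs1 : s ≤ τ := by
    by_contra h
    have : c * τ < c * s := mul_lt_mul_of_pos_left (not_le.1 h) (by linarith)
    nlinarith [mul_pos hτ hξ, mul_le_mul_of_nonneg_right hc1 (mul_pos hτ hξ).le]
  have b1 : SA / W ^ 2 ≤ s + 10 * (ε * τ) := by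
    have a1 : SA / W ^ 2 = SA / r1 ^ 2 * L ^ 2 := by rw [hL]; field_simp
    have a2 : SA / r1 ^ 2 ≤ s + ε * τ := by
      rw [div_le_iff₀ (pow_pos hr0 2), hs]
      have : ε * τ * ρ ^ 2 ≤ ε * τ * r1 ^ 2 := by gcongr
      have e : (S / r1 + ε * τ) * r1 ^ 2 = r1 * S + ε * τ * r1 ^ 2 := by field_simp
      rw [e]
      nlinarith
    have a3 : L ^ 2 ≤ 1 + 6 * ε := by nlinarith
    rw [a1]
    have a4 : SA / r1 ^ 2 * L ^ 2 ≤ (s + ε * τ) * (1 + 6 * ε) := by gcongr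
    nlinarith [mul_le_mul_of_nonneg_left hs1 hε.le, mul_pos hε hτ,
      mul_le_mul_of_nonneg_left (show 6 * ε ≤ 1 by linarith) (mul_pos hε hτ).le]
  have b2 : MA / W ^ r ≤ m + (2 * (D ^ 2 * ε) * τ + 2 * (ε * τ)) := by
    have a1 : MA / W ^ r ≤ (m + ε * τ) * L ^ r := by
      rw [hL, div_pow, ← mul_div_assoc, hm]
      exact div_le_div_of_nonneg_right (by linarith) (pow_pos hW0 r).le
    have a2 : L ^ r ≤ 1 + D * (2 * ε) := pow_le_lin' r (by linarith) (by linarith) hL0.le hL1 h2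
    have a3 : (m + ε * τ) * L ^ r ≤ (m + ε * τ) * (1 + D * (2 * ε)) := by gcongr
    have a4 : m * (D * (2 * ε)) ≤ D * τ * (D * (2 * ε)) := by gcongr
    nlinarith [mul_le_mul_of_nonneg_left (show D * (2 * ε) ≤ 1 by linarith) (mul_pos hε hτ).le]
  have b3 : D * X * NA / W ^ 3 ≤ 4 * (D ^ 3 * τ ^ 2) := by
    rw [div_le_iff₀ (pow_pos hW0 3)]
    have a1 : X ≤ 2 * (D * τ) * W := by
      nlinarith [mul_le_mul_of_nonneg_left hW2 (show 0 ≤ D * τ by positivity)]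
    calc D * X * NA ≤ D * X * (X * W) := by gcongr
      _ ≤ D * (2 * (D * τ) * W) * (2 * (D * τ) * W * W) := by gcongr
      _ = _ := by ring
  have b4 : 0 ≤ SA / W ^ 2 := by positivity
  have b5 : c * (SA / W ^ 2) ≤ c * s + 10 * (D * ε) * τ := by
    nlinarith [mul_le_mul_of_nonneg_left b1 (show 0 ≤ c by linarith),
      mul_le_mul_of_nonneg_right hcD (mul_pos hε hτ).le]
  have b6 : ξ * τ ≤ c * (ξ * τ) := by nlinarith [mul_pos hξ hτ]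
  have b7 : 0 ≤ D * τ * (SA / W ^ 2) := by positivity
  nlinarith [mul_le_mul_of_nonneg_right e1 hτ.le, mul_le_mul_of_nonneg_right e2 hτ.le,
    mul_le_mul_of_nonneg_right e0 hτ.le, mul_le_mul_of_nonneg_right t1 hτ.le,
    mul_le_mul_of_nonneg_right hτ1 hτ.le, mul_pos hξ hτ]

end Pool.Agent.H20.Lag
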