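import Pool.Agent.H20.Lag4

namespace Pool.Agent.H20.Lag

open Finset

theorem gb0 {c D ρ τ ι ξ ε r0 W SB MB NB S M X : ℝ} {r : ℕ} (hc1 : 1 ≤ c) (hcD : c ≤ D)
    (h2 : 2 ^ r ≤ D) (hρ : 0 < ρ) (hρ1 : ρ ≤ 1 / 2) (hτ : 0 < τ) (hι : ι * (1 - ρ) = ρ * τ)
    (hξ : 0 < ξ) (hξ1 : ξ ≤ 1 / 100)
    (hε : 0 < ε) (hε1 : 100 * D ^ 3 * ε ≤ ξ) (hτ1 : 100 * D ^ 3 * τ ≤ ξ)
    (hr : r0 = ρ * (1 - 2 * ξ)) (hW : 1 - r0 - ε * ρ ≤ W)
    (hSB : SB ≤ (1 - r0) * S + ε * ρ * (ρ * τ))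
    (hSB0 : 0 ≤ SB) (hMB : MB ≤ (1 - r0) ^ r * M + ε * ρ * (ρ * τ)) (hNB : NB ≤ M) (hX0 : 0 ≤ X)
    (hX : X ≤ D * (ρ * τ)) (hM0 : 0 ≤ M) (hM : M ≤ D * (ρ * τ)) (hS : 0 ≤ S)
    (hV : c * S < c * (ρ * τ) - M * (1 - D ^ 2 * (ρ * τ))) :
    MB / W ^ r + D * X * NB / W ^ 3 < (c - D * ι) * (ι - SB / W ^ 2) := by
  have hD : 1 ≤ D := hc1.trans hcD
  have D1 : D ≤ D ^ 3 := le_self_pow₀ hD (by norm_num)
  have D2 : D ^ 2 ≤ D ^ 3 := pow_le_pow_right₀ hD (by norm_num)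
  have e1 : D * ε ≤ ξ / 100 := by nlinarith
  have e2 : D ^ 2 * ε ≤ ξ / 100 := by nlinarith
  have e0 : ε ≤ ξ / 100 := by nlinarith
  have t1 : D * τ ≤ ξ / 100 := by nlinarith
  have t2 : D ^ 2 * τ ≤ ξ / 100 := by nlinarith
  obtain ⟨u, hu⟩ : ∃ u, u = ρ * τ := ⟨_, rfl⟩
  obtain ⟨v, hv⟩ : ∃ v, v = 1 - r0 := ⟨_, rfl⟩
  obtain ⟨y, hy⟩ : ∃ y, y = ε * ρ := ⟨_, rfl⟩
  rw [← hy] at hSB hMB hW
  rw [← hv] at hSB hMB hW
  rw [← hu] at hι hSB hMB hX hM hV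
  have hu0 : 0 < u := by rw [hu]; positivity
  have hy0 : 0 < y := by rw [hy]; positivity
  have hy1 : y ≤ ε := by rw [hy]; nlinarith
  have hv1 : 1 / 2 ≤ v := by rw [hv, hr]; nlinarith [mul_pos hρ hξ]
  have hv2 : v ≤ 1 := by rw [hv, hr]; nlinarith [mul_pos hρ hξ]
  have hv0 : 0 < v := by linarith
  have hW2 : 1 / 4 ≤ W := by linarith
  have hW0 : 0 < W := by linarith
  have hι0 : 0 < ι := by
    by_contra h
    nlinarith [mul_nonneg (neg_nonneg.2 (not_lt.1 h)) (show 0 ≤ 1 - ρ by linarith)]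
  have hι1 : ι ≤ 2 * u := by nlinarith
  have hι2 : u ≤ ι := by nlinarith
  obtain ⟨L, hL⟩ : ∃ L, L = v / W := ⟨_, rfl⟩
  have hL0 : 0 < L := by rw [hL]; positivity
  have hL1 : L ≤ 1 + 4 * y := by
    rw [hL, div_le_iff₀ hW0]
    nlinarith
  obtain ⟨s, hs⟩ : ∃ s, s = S / v := ⟨_, rfl⟩
  have hs0 : 0 ≤ s := by rw [hs]; positivity
  have hDu : D ^ 2 * u ≤ 1 / 100 := by rw [hu]; nlinarith [mul_pos (pow_pos (show 0 < D by linarith) 2) hτ]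
  have hs1 : s ≤ 2 * u := by
    rw [hs, div_le_iff₀ hv0]
    have : c * S < c * u := by nlinarith
    have := lt_of_mul_lt_mul_left this (by linarith)
    nlinarith
  have hV' : c * s < c * (ι - 2 * ξ * ρ * u) - M + D ^ 3 * u ^ 2 := by
    have a0 : 0 ≤ M * (1 - D ^ 2 * u) := mul_nonneg hM0 (by linarith)
    have a1 : c * s < c * (u / v) - M * (1 - D ^ 2 * u) := by
      have h1 := div_lt_div_of_pos_right hV hv0
      have h2 : M * (1 - D ^ 2 * u) ≤ M * (1 - D ^ 2 * u) / v := by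
        rw [le_div_iff₀ hv0]; nlinarith
      rw [sub_div] at h1
      rw [hs, ← mul_div_assoc, ← mul_div_assoc]
      linarith
    have a2 : u / v ≤ ι - 2 * ξ * ρ * u := by
      rw [div_le_iff₀ hv0]
      have : ι * v = u + 2 * ξ * ρ * ι := by rw [hv, hr, ← hι]; ring
      nlinarith [mul_le_mul_of_nonneg_left hι2 (mul_pos hξ hρ).le,
        mul_le_mul_of_nonneg_left hv2 (mul_pos (mul_pos hξ hρ) hu0).le]
    have a3 : M * (D ^ 2 * u) ≤ D * u * (D ^ 2 * u) := by gcongr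
    nlinarith [mul_le_mul_of_nonneg_left a2 (show 0 ≤ c by linarith)]
  have b1 : SB / W ^ 2 ≤ s + 40 * (y * u) := by
    have a1 : SB / W ^ 2 = SB / v ^ 2 * L ^ 2 := by rw [hL]; field_simp
    have a2 : SB / v ^ 2 ≤ s + 4 * (y * u) := by
      rw [div_le_iff₀ (pow_pos hv0 2), hs]
      have e : (S / v + 4 * (y * u)) * v ^ 2 = v * S + 4 * (y * u) * v ^ 2 := by field_simp
      rw [e]
      nlinarith [mul_le_mul_of_nonneg_left (show 1 / 4 ≤ v ^ 2 by nlinarith) (mul_pos hy0 hu0).le]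
    have a3 : L ^ 2 ≤ 1 + 12 * y := by nlinarith
    rw [a1]
    have a4 : SB / v ^ 2 * L ^ 2 ≤ (s + 4 * (y * u)) * (1 + 12 * y) := by gcongr
    nlinarith [mul_le_mul_of_nonneg_left hs1 hy0.le, mul_pos hy0 hu0,
      mul_le_mul_of_nonneg_left (show 12 * y ≤ 1 by linarith) (mul_pos hy0 hu0).le]
  have b2 : MB / W ^ r ≤ M + (4 * D ^ 2 * (y * u) + 2 * D * (y * u)) := by
    have a0 : 1 ≤ D * v ^ r := by
      calc (1 : ℝ) ≤ (2 * v) ^ r := one_le_pow₀ (by linarith)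
        _ = 2 ^ r * v ^ r := mul_pow _ _ _
        _ ≤ _ := by gcongr
    have a1 : MB / W ^ r ≤ (M + D * (y * u)) * L ^ r := by
      rw [hL, div_pow, ← mul_div_assoc]
      refine div_le_div_of_nonneg_right ?_ (pow_pos hW0 r).le
      nlinarith [mul_le_mul_of_nonneg_left a0 (mul_pos hy0 hu0).le]
    have a2 : L ^ r ≤ 1 + D * (4 * y) := pow_le_lin' r (by linarith) (by linarith) hL0.le hL1 h2
    have a3 : (M + D * (y * u)) * L ^ r ≤ (M + D * (y * u)) * (1 + D * (4 * y)) := by gcongr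
    have a4 : M * (D * (4 * y)) ≤ D * u * (D * (4 * y)) := by gcongr
    have a5 : D * (4 * y) ≤ 1 := by nlinarith
    nlinarith [mul_le_mul_of_nonneg_left a5 (show 0 ≤ D * (y * u) by positivity)]
  have b3 : D * X * NB / W ^ 3 ≤ 64 * (D ^ 3 * u ^ 2) := by
    rw [div_le_iff₀ (pow_pos hW0 3)]
    calc D * X * NB ≤ D * X * (D * u) := by gcongr; linarith
      _ ≤ D * (D * u) * (D * u) := by gcongr
      _ = 64 * (D ^ 3 * u ^ 2) * (1 / 4) ^ 3 := by ring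
      _ ≤ _ := by gcongr
  have b4 : 0 ≤ SB / W ^ 2 := by positivity
  have b5 : c * (SB / W ^ 2) ≤ c * s + 40 * D * (y * u) := by
    nlinarith [mul_le_mul_of_nonneg_left b1 (show 0 ≤ c by linarith),
      mul_le_mul_of_nonneg_right hcD (mul_pos hy0 hu0).le]
  have hρu := mul_pos hρ hu0
  have b6 : ξ * (ρ * u) ≤ c * (ξ * (ρ * u)) := by nlinarith [mul_pos hξ hρu]
  have b7 : 0 ≤ D * ι * (SB / W ^ 2) := by positivity
  have b8 : D * ι * ι ≤ D ^ 3 * (2 * u) * (2 * u) := by gcongr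
  have b9 : D ^ 3 * u ^ 2 ≤ ξ / 100 * (ρ * u) := by
    have : D ^ 3 * u ^ 2 = D ^ 3 * τ * (ρ * u) := by rw [sq, hu]; ring
    rw [this]
    exact mul_le_mul_of_nonneg_right (by linarith) hρu.le
  have c1 : D * (y * u) ≤ ξ / 100 * (ρ * u) := by
    rw [hy]; nlinarith [mul_le_mul_of_nonneg_right e1 hρu.le]
  have c2 : D ^ 2 * (y * u) ≤ ξ / 100 * (ρ * u) := by
    rw [hy]; nlinarith [mul_le_mul_of_nonneg_right e2 hρu.le]
  nlinarith [mul_pos hξ hρu]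

end Pool.Agent.H20.Lag
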