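import Pool.Agent.H20.Lag3
import Pool.Agent.H20.Lag4

namespace Pool.Agent.H20.Lag

open Finset

theorem ng_use {c D t W S Z N X W0 m n : ℝ} {k : ℕ} (hc : 1 ≤ c) (h0 : 0 ≤ D * t)
    (h1 : D * t ≤ 1 / 2) (hW0 : 0 < W0) (hW : W0 ≤ W) (hZ0 : 0 ≤ Z) (hZ : Z ≤ m) (hN0 : 0 ≤ N)
    (hN : N ≤ n) (hDX : 0 ≤ D * X)
    (h : (c - D * t) * (t - S / W ^ 2) ≤ Z / W ^ (k + 2) + D * X * N / W ^ 3) :
    c * (t * W ^ 2 - S) ≤ (1 + 2 * (D * t)) * (m / W0 ^ k + D * X * n / W0) := by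
  have hW1 : 0 < W := by linarith
  obtain ⟨R, hR⟩ : ∃ R, R = Z / W ^ (k + 2) + D * X * N / W ^ 3 := ⟨_, rfl⟩
  have hR0 : 0 ≤ R := by rw [hR]; positivity
  rw [← hR] at h
  obtain ⟨y, hy⟩ : ∃ y, y = D * t := ⟨_, rfl⟩
  obtain ⟨z, hz⟩ : ∃ z, z = t - S / W ^ 2 := ⟨_, rfl⟩
  rw [← hz] at h
  rw [← hy] at h h0 h1 ⊢
  have a1 : c * z ≤ (1 + 2 * y) * R := by
    rcases le_total z 0 with hz0 | hz0
    · nlinarith
    · have : c ≤ (1 + 2 * y) * (c - y) := by nlinarith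
      calc c * z ≤ (1 + 2 * y) * (c - y) * z := by gcongr
        _ = (1 + 2 * y) * ((c - y) * z) := by ring
        _ ≤ _ := by gcongr
  have a2 : t * W ^ 2 - S = z * W ^ 2 := by rw [hz]; field_simp
  have a3 : R * W ^ 2 = Z / W ^ k + D * X * N / W := by rw [hR]; field_simp; ring
  have a4 : Z / W ^ k + D * X * N / W ≤ m / W0 ^ k + D * X * n / W0 := by
    have : 0 ≤ m := by linarith
    have : 0 ≤ n := by linarith
    gcongr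
  calc c * (t * W ^ 2 - S) = c * z * W ^ 2 := by rw [a2]; ring
    _ ≤ (1 + 2 * y) * R * W ^ 2 := by gcongr
    _ = (1 + 2 * y) * (R * W ^ 2) := by ring
    _ ≤ _ := by rw [a3]; gcongr

theorem brk {D ρ τ ι ξ ζ X r0 r1 w0 w1 : ℝ} {k : ℕ} (h3 : 3 ^ (k + 2) ≤ D) (hρ : 0 < ρ)
    (hρ1 : ρ ≤ 1 / 2) (hτ : 0 < τ) (hι0 : 0 ≤ ι) (hι : ι ≤ 2 * (ρ * τ)) (hξ : 0 < ξ)
    (hξ1 : D * ξ ≤ 1 / 100) (hζ : 0 ≤ ζ) (hζ1 : D ^ 2 * ζ ≤ 1 / 100) (hτ1 : D ^ 2 * τ ≤ 1 / 100)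
    (hX0 : 0 ≤ X) (hX : X ≤ D * (ρ * τ)) (e0 : r0 = ρ * (1 - 2 * ξ)) (e1 : r1 = ρ * (1 + 2 * ξ))
    (f0 : w0 = ρ * (1 - 3 * ξ)) (f1 : w1 = ρ * (1 + 3 * ξ)) :
    (1 + 2 * (D * τ)) * (r1 ^ (k + 2) / w0 ^ k + D * X * r1 / w0) +
      (1 + 2 * (D * ι)) * ((1 - r0) ^ (k + 2) / (1 - w1) ^ k + D * X / (1 - w1)) +
      (1 + 2 * (D * ι)) / (1 - w1) ^ k * (r0 * ζ * (k + 2 : ℕ)) ≤ 1 - D ^ 2 * (ρ * τ) := by
  have p3 : (1 : ℝ) ≤ 3 ^ k := one_le_pow₀ (by norm_num)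
  have p4 : (3 : ℝ) ^ k ≤ D := by rw [pow_add] at h3; linarith
  have hD : 1 ≤ D := p3.trans p4
  have p2 : (2 : ℝ) ^ k ≤ D := (pow_le_pow_left₀ (by norm_num) (by norm_num) k).trans p4
  have pk : ((k + 2 : ℕ) : ℝ) ≤ D := by
    refine le_trans ?_ h3
    exact_mod_cast (Nat.lt_pow_self (by norm_num : 1 < 3)).le
  have hξ2 : ξ ≤ 1 / 100 := by nlinarith
  have hDτ0 : 0 < D * τ := by positivity
  have hDτ : D * τ ≤ 1 / 100 := by nlinarith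
  have hρξ := mul_pos hρ hξ
  have hw0 : 0 < w0 := by rw [f0]; exact mul_pos hρ (by linarith)
  have hw1 : 12 / 25 ≤ 1 - w1 := by rw [f1]; nlinarith
  have hr0 : 0 ≤ r0 := by rw [e0]; exact mul_nonneg hρ.le (by linarith)
  have hr0' : r0 ≤ ρ := by rw [e0]; nlinarith
  have hr1 : 0 ≤ r1 := by rw [e1]; positivity
  have hDX : D * X ≤ ρ / 100 := by
    calc D * X ≤ D * (D * (ρ * τ)) := by gcongr
      _ = ρ * (D ^ 2 * τ) := by ring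
      _ ≤ ρ * (1 / 100) := by gcongr
      _ = _ := by ring
  have hDι : D * ι ≤ ρ / 50 := by
    calc D * ι ≤ D * (2 * (ρ * τ)) := by gcongr
      _ = 2 * ρ * (D * τ) := by ring
      _ ≤ 2 * ρ * (1 / 100) := by gcongr
      _ = _ := by ring
  have hDι0 : 0 ≤ D * ι := by positivity
  have q1 : r1 / w0 ≤ 1 + 6 * ξ := by
    rw [div_le_iff₀ hw0, e1, f0]
    nlinarith [mul_le_mul_of_nonneg_left hξ2 hρξ.le]
  have q2 : (r1 / w0) ^ k ≤ 1 + D * (6 * ξ) :=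
    pow_le_lin' k (by linarith) (by linarith) (by positivity) q1 p2
  have q3 : r1 ^ 2 ≤ 53 / 100 * ρ := by
    have : r1 ≤ 102 / 100 * ρ := by rw [e1]; nlinarith
    nlinarith
  have t1 : r1 ^ (k + 2) / w0 ^ k ≤ 57 / 100 * ρ := by
    calc r1 ^ (k + 2) / w0 ^ k = (r1 / w0) ^ k * r1 ^ 2 := by rw [div_pow]; ring
      _ ≤ (106 / 100) * (53 / 100 * ρ) := by gcongr; linarith
      _ ≤ _ := by linarith
  have t2 : D * X * r1 / w0 ≤ 2 / 100 * ρ := by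
    calc D * X * r1 / w0 = D * X * (r1 / w0) := by ring
      _ ≤ ρ / 100 * 2 := by gcongr; linarith
      _ = _ := by ring
  have q4 : (1 - r0) / (1 - w1) ≤ 1 + 11 * (ρ * ξ) := by
    rw [div_le_iff₀ (by linarith)]
    have : 1 - r0 = 1 - w1 + 5 * (ρ * ξ) := by rw [e0, f1]; ring
    nlinarith
  have q5 : ((1 - r0) / (1 - w1)) ^ k ≤ 1 + D * (11 * (ρ * ξ)) :=
    pow_le_lin' k (by linarith) (by nlinarith) (div_nonneg (by linarith) (by linarith)) q4 p2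
  have q6 : D * (11 * (ρ * ξ)) ≤ 11 / 100 * ρ := by nlinarith
  have q7 : (1 - r0) ^ 2 ≤ 1 - 146 / 100 * ρ := by
    have : 98 / 100 * ρ ≤ r0 := by rw [e0]; nlinarith
    nlinarith
  have t3 : (1 - r0) ^ (k + 2) / (1 - w1) ^ k ≤ 1 - 135 / 100 * ρ := by
    calc _ = ((1 - r0) / (1 - w1)) ^ k * (1 - r0) ^ 2 := by rw [div_pow]; ring
      _ ≤ (1 + 11 / 100 * ρ) * (1 - 146 / 100 * ρ) := by gcongr; linarith
      _ ≤ _ := by nlinarith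
  have t4 : D * X / (1 - w1) ≤ 3 / 100 * ρ := by
    rw [div_le_iff₀ (by linarith)]
    nlinarith
  have t5 : (1 + 2 * (D * ι)) / (1 - w1) ^ k ≤ 2 * D := by
    rw [div_le_iff₀ (pow_pos (by linarith) k)]
    have : 1 ≤ D * (1 - w1) ^ k := by
      calc (1 : ℝ) ≤ (3 * (1 - w1)) ^ k := one_le_pow₀ (by linarith)
        _ = 3 ^ k * (1 - w1) ^ k := mul_pow _ _ _
        _ ≤ _ := by gcongr
    nlinarith
  have t6 : (1 + 2 * (D * ι)) / (1 - w1) ^ k * (r0 * ζ * (k + 2 : ℕ)) ≤ 2 / 100 * ρ := by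
    calc _ ≤ 2 * D * (ρ * ζ * D) := by gcongr
      _ = 2 * ρ * (D ^ 2 * ζ) := by ring
      _ ≤ 2 * ρ * (1 / 100) := by gcongr
      _ = _ := by ring
  have t7 : D ^ 2 * (ρ * τ) ≤ 1 / 100 * ρ := by nlinarith
  have s1 : (1 + 2 * (D * τ)) * (r1 ^ (k + 2) / w0 ^ k + D * X * r1 / w0) ≤
      (102 / 100) * (59 / 100 * ρ) := by
    have : 0 ≤ r1 ^ (k + 2) / w0 ^ k + D * X * r1 / w0 := by positivity
    gcongr <;> linarith
  have s2 : (1 + 2 * (D * ι)) * ((1 - r0) ^ (k + 2) / (1 - w1) ^ k + D * X / (1 - w1)) ≤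
      (1 + 4 / 100 * ρ) * (1 - 132 / 100 * ρ) := by
    calc _ ≤ (1 + 2 * (D * ι)) * (1 - 132 / 100 * ρ) := by gcongr; linarith
      _ ≤ _ := mul_le_mul_of_nonneg_right (by linarith) (by linarith)
  nlinarith

variable {V : Type} [Fintype V] [DecidableEq V]

def NG (x : V → ℝ) (Ms : Finset (Finset V)) (w : Finset V → ℝ) (r : ℕ) (c D X t : ℝ)
    (A : Finset V) : Prop :=
  (c - D * t) * (t - (∑ v ∈ A, x v ^ 2) / (∑ v ∈ A, x v) ^ 2) ≤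
    Zf Ms id w A / (∑ v ∈ A, x v) ^ r + D * X * (∑ v ∈ A, x v * (X - x v)) / (∑ v ∈ A, x v) ^ 3

theorem Zf_mono {Ms : Finset (Finset V)} {w : Finset V → ℝ} (hw : ∀ e ∈ Ms, 0 ≤ w e)
    {A B : Finset V} (h : A ⊆ B) : Zf Ms id w A ≤ Zf Ms id w B :=
  sum_le_sum fun e he => mul_le_mul_of_nonneg_left (by
    by_cases h1 : id e ⊆ A
    · rw [ind_pos h1, ind_pos (h1.trans h)]
    · rw [ind_neg h1]; exact ind_nonneg _) (hw e he)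

theorem det {x : V → ℝ} {Ms : Finset (Finset V)} {w : Finset V → ℝ} {k : ℕ}
    {c D X τ ι t1 w0 w1 M E : ℝ} (hx : ∀ v, 0 ≤ x v) (hx1 : ∑ v, x v = 1) (hX : ∀ v, x v ≤ X)
    (hw : ∀ e ∈ Ms, 0 ≤ w e) (hN : ∑ v, x v * (X - x v) ≤ M) (hc : 1 ≤ c)
    (h0 : 0 ≤ D * τ) (h1 : D * τ ≤ 1 / 2) (h2 : 0 ≤ D * ι) (h3 : D * ι ≤ 1 / 2) (hDX : 0 ≤ D * X)
    (hCS : ∀ a b : ℝ, t1 ≤ τ * a ^ 2 + b ^ 2 + ι * (1 - a - b) ^ 2)
    (hV : c * ∑ v, x v ^ 2 < c * t1 - E) {GA GB : Finset V → Prop}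
    (hA : ∀ A, 0 < ∑ v ∈ A, x v → ¬ GA A → NG x Ms w (k + 2) c D X τ A)
    (hB : ∀ A, 0 < ∑ v ∈ A, x v → ¬ GB A → NG x Ms w (k + 2) c D X ι A)
    (hno : ∀ A, GA A → ¬ GB Aᶜ) {A0 A1 : Finset V} (h01 : A0 ⊆ A1) (hw0 : 0 < w0) (hw1 : w1 < 1)
    (hA0 : w0 ≤ ∑ v ∈ A0, x v) (hA1 : ∑ v ∈ A1, x v ≤ w1) (g1 : GA A1) (g0 : GB A0ᶜ) :
    E < (1 + 2 * (D * τ)) * (Zf Ms id w A1 / w0 ^ k + D * X * (∑ v ∈ A1, x v * (X - x v)) / w0) +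
      (1 + 2 * (D * ι)) * (Zf Ms id w A0ᶜ / (1 - w1) ^ k + D * X * M / (1 - w1)) := by
  classical
  obtain ⟨A', hA', hmax⟩ := exists_max_image
    (univ.filter fun A : Finset V => A0 ⊆ A ∧ A ⊆ A1 ∧ ¬ GA A) card
    ⟨A0, mem_filter.2 ⟨mem_univ _, Subset.rfl, h01, fun h => hno A0 h g0⟩⟩
  obtain ⟨s0, s1, ng⟩ := (mem_filter.1 hA').2
  obtain ⟨v, hv1, hv⟩ : ∃ v ∈ A1, v ∉ A' := by
    by_contra h
    push Not at h
    exact ng (Subset.antisymm s1 h ▸ g1)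
  have s2 : insert v A' ⊆ A1 := insert_subset hv1 s1
  have gA : GA (insert v A') := by
    by_contra h
    have := hmax _ (mem_filter.2 ⟨mem_univ _, s0.trans (subset_insert _ _), s2, h⟩)
    rw [card_insert_of_notMem hv] at this
    omega
  have hn : ∀ v, 0 ≤ x v * (X - x v) := fun v => mul_nonneg (hx v) (sub_nonneg.2 (hX v))
  have wA : w0 ≤ ∑ v ∈ A', x v := hA0.trans (sum_le_sum_of_subset_of_nonneg s0 fun v _ _ => hx v)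
  have eB := sum_add_sum_compl (insert v A') x
  have eS := sum_add_sum_compl (insert v A') fun v => x v ^ 2
  have wA1 : ∑ v ∈ insert v A', x v ≤ w1 :=
    (sum_le_sum_of_subset_of_nonneg s2 fun v _ _ => hx v).trans hA1
  have wB : 1 - w1 ≤ ∑ v ∈ (insert v A')ᶜ, x v := by linarith
  have u1 := ng_use hc h0 h1 hw0 wA (Zf_nonneg hw _) (Zf_mono hw s1)
    (sum_nonneg fun v _ => hn v) (sum_le_sum_of_subset_of_nonneg s1 fun v _ _ => hn v) hDX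
    (hA A' (by linarith) ng)
  have u2 := ng_use hc h2 h3 (sub_pos.2 hw1) wB (Zf_nonneg hw _)
    (Zf_mono hw (compl_subset_compl.2 (s0.trans (subset_insert v A'))))
    (sum_nonneg fun v _ => hn v)
    ((sum_le_sum_of_subset_of_nonneg (subset_univ _) fun v _ _ => hn v).trans hN) hDX
    (hB _ (by linarith) (hno _ gA))
  rw [sum_insert hv] at eB eS
  have u3 := hCS (∑ v ∈ A', x v) (x v)
  have e : 1 - ∑ v ∈ A', x v - x v = ∑ v ∈ (insert v A')ᶜ, x v := by linarith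
  rw [e] at u3
  have u4 := mul_le_mul_of_nonneg_left u3 (show 0 ≤ c by linarith)
  rw [← eS] at hV
  linarith

end Pool.Agent.H20.Lag
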