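import Pool.Agent.H20.Lag5
import Pool.Agent.H20.Lag4a
import Pool.Agent.H20.Lag4b

namespace Pool.Agent.H20.Lag

open Finset

variable {V : Type} [Fintype V] [DecidableEq V]

theorem sum_wv {Ms : Finset (Finset V)} (w : Finset V → ℝ) {r : ℕ} (hc : ∀ e ∈ Ms, e.card = r) :
    ∑ v, wv Ms w v = r * ∑ e ∈ Ms, w e := by
  simp only [wv, sum_filter]
  rw [sum_comm, mul_sum]
  refine sum_congr rfl fun e he => ?_
  rw [← sum_filter, filter_mem_eq_inter, univ_inter, sum_const, nsmul_eq_mul, hc e he]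

theorem touch {Ms : Finset (Finset V)} {w : Finset V → ℝ} (hw : ∀ e ∈ Ms, 0 ≤ w e)
    (ω : V → Fin 3) :
    ∑ e ∈ Ms, w e - Zf Ms id w (cs {1, 2} ω) ≤ ∑ v, wv Ms w v * ind (ω v = 0) := by
  simp only [wv, sum_filter, sum_mul, Zf]
  rw [sum_comm, ← sum_sub_distrib]
  refine sum_le_sum fun e he => ?_
  have hn : ∀ v ∈ univ, 0 ≤ (if v ∈ e then w e else 0) * ind (ω v = 0) := fun v _ =>
    mul_nonneg (by split_ifs; exacts [hw e he, le_rfl]) (ind_nonneg _)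
  by_cases h : id e ⊆ cs {1, 2} ω
  · rw [ind_pos h, mul_one, sub_self]
    exact sum_nonneg hn
  · rw [ind_neg h, mul_zero, sub_zero]
    obtain ⟨v, h1, h2⟩ := not_subset.1 h
    have h3 : ω v = 0 := by
      have : ω v ∉ ({1, 2} : Finset (Fin 3)) := fun h => h2 (mem_filter.2 ⟨mem_univ _, h⟩)
      revert this
      generalize ω v = i
      revert i
      decide
    refine le_trans ?_ (single_le_sum hn (mem_univ v))
    rw [if_pos (show v ∈ e from h1), ind_pos h3, mul_one]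

theorem mu_empty (b : Fin 3 → ℝ) (t : Finset (Fin 3)) {ι : Type} (I : Finset ι)
    (e : ι → Finset V) (w : ι → ℝ) {r : ℕ} (hc : ∀ i ∈ I, (e i).card = r) :
    mu (PD b ∅) t I e w = (∑ i ∈ t, b i) ^ r * ∑ i ∈ I, w i := by
  unfold mu
  rw [mul_sum]
  refine sum_congr rfl fun i hi => ?_
  simp only [pr_PD, notMem_empty, if_false, prod_const, hc i hi]
  ring

theorem split_aux {x : V → ℝ} {Ms : Finset (Finset V)} {w : Finset V → ℝ} {k : ℕ}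
    {c D X ρ τ ι t1 ξ ε θ : ℝ} (hc1 : 1 ≤ c) (hcD : c ≤ D) (h3 : 3 ^ (k + 2) ≤ D)
    (hρ : 0 < ρ) (hρ1 : ρ ≤ 1 / 2) (hτ : 0 < τ) (hι : ι * (1 - ρ) = ρ * τ)
    (hξ : 0 < ξ) (hξ1 : D * ξ ≤ 1 / 100) (hε : 0 < ε) (hε1 : 100 * D ^ 3 * ε ≤ ξ)
    (hτ1 : 100 * D ^ 3 * τ ≤ ξ) (hθ : 0 < θ) (hθ1 : D ^ 2 * (12 * θ) ≤ 1 / 100)
    (H : 12 * D ^ 6 * τ ≤ ε ^ 2 * θ ^ (2 * (k + 1 + 1) + 1))
    (hx : ∀ v, 0 ≤ x v) (hx1 : ∑ v, x v = 1) (hxX : ∀ v, x v ≤ X) (hX : X ≤ D * (ρ * τ))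
    (hc : ∀ e ∈ Ms, e.card = k + 2) (hw : ∀ e ∈ Ms, 0 ≤ w e)
    (hN : ∑ v, x v * (X - x v) ≤ ∑ e ∈ Ms, w e) (hM : ∑ e ∈ Ms, w e ≤ D * (ρ * τ))
    (hwv : ∀ v, wv Ms w v ≤ D ^ 3 * (ρ * τ) ^ 2) (ht1 : t1 ≤ ρ * τ)
    (hCS : ∀ a b : ℝ, t1 ≤ τ * a ^ 2 + b ^ 2 + ι * (1 - a - b) ^ 2)
    (hV : c * ∑ v, x v ^ 2 < c * t1 - (∑ e ∈ Ms, w e) * (1 - D ^ 2 * (ρ * τ)))
    {GA GB : Finset V → Prop}
    (hA : ∀ A, 0 < ∑ v ∈ A, x v → ¬ GA A → NG x Ms w (k + 2) c D X τ A)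
    (hB : ∀ A, 0 < ∑ v ∈ A, x v → ¬ GB A → NG x Ms w (k + 2) c D X ι A) :
    ∃ A, GA A ∧ GB Aᶜ := by
  by_contra hno
  push Not at hno
  obtain ⟨M, hMe⟩ : ∃ M, M = ∑ e ∈ Ms, w e := ⟨_, rfl⟩
  obtain ⟨r0, e0⟩ : ∃ r0, r0 = ρ * (1 - 2 * ξ) := ⟨_, rfl⟩
  obtain ⟨r1, e1⟩ : ∃ r1, r1 = ρ * (1 + 2 * ξ) := ⟨_, rfl⟩
  obtain ⟨w0, f0⟩ : ∃ w0, w0 = ρ * (1 - 3 * ξ) := ⟨_, rfl⟩
  obtain ⟨w1, f1⟩ : ∃ w1, w1 = ρ * (1 + 3 * ξ) := ⟨_, rfl⟩
  have hD : 1 ≤ D := hc1.trans hcD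
  have h2 : 2 ^ (k + 2) ≤ D := (pow_le_pow_left₀ (by norm_num) (by norm_num) _).trans h3
  have pk : ((k + 2 : ℕ) : ℝ) ≤ D := by
    refine le_trans ?_ h3
    exact_mod_cast (Nat.lt_pow_self (by norm_num : 1 < 3)).le
  have D0 : 1 ≤ D ^ 3 := one_le_pow₀ hD
  have D1 : D ≤ D ^ 3 := le_self_pow₀ hD (by norm_num)
  have D2 : D ^ 2 ≤ D ^ 3 := pow_le_pow_right₀ hD (by norm_num)
  have D3 : 1 ≤ D ^ 2 := one_le_pow₀ hD
  have hξ2 : ξ ≤ 1 / 100 := le_trans (le_mul_of_one_le_left hξ.le hD) hξ1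
  have hε2 : ε ≤ ξ := by nlinarith
  have hDτ : D * τ ≤ 1 / 100 := by nlinarith
  have hDτ2 : D ^ 2 * τ ≤ 1 / 100 := by nlinarith
  have hθ2 : 12 * θ ≤ 1 / 100 := le_trans (le_mul_of_one_le_left (by linarith) D3) hθ1
  have hu := mul_pos hρ hτ
  have hρξ := mul_pos hρ hξ
  have hρξ1 : ρ * ξ ≤ ρ / 100 := by nlinarith
  have hερ : ε * ρ ≤ ρ * ξ := by nlinarith
  have hι0 : 0 < ι := by
    by_contra h
    nlinarith [mul_nonneg (neg_nonneg.2 (not_lt.1 h)) (show 0 ≤ 1 - ρ by linarith)]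
  have hι1 : ι ≤ 2 * (ρ * τ) := by nlinarith
  have hDι : D * ι ≤ 1 / 2 := by nlinarith [mul_le_mul_of_nonneg_left hι1 (show 0 ≤ D by linarith)]
  have hM0 : 0 ≤ M := hMe ▸ sum_nonneg hw
  have hS0 : 0 ≤ ∑ v, x v ^ 2 := sum_nonneg fun v _ => sq_nonneg _
  rw [← hMe] at hV hN hM
  have hV' : c * ∑ v, x v ^ 2 < c * (ρ * τ) - M * (1 - D ^ 2 * (ρ * τ)) :=
    hV.trans_le (by gcongr)
  have hS : ∑ v, x v ^ 2 ≤ ρ * τ := by
    have : 0 ≤ M * (1 - D ^ 2 * (ρ * τ)) := mul_nonneg hM0 (by nlinarith)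
    exact (lt_of_mul_lt_mul_left (a := c) (by linarith) (by linarith)).le
  have hn : ∀ v, 0 ≤ x v * (X - x v) := fun v => mul_nonneg (hx v) (sub_nonneg.2 (hxX v))
  obtain ⟨v0, -⟩ : (univ : Finset V).Nonempty := nonempty_of_sum_ne_zero (hx1 ▸ one_ne_zero)
  have hX0 : 0 ≤ X := (hx v0).trans (hxX v0)
  have a0 : 0 ≤ r0 := by linarith
  have a1 : r0 ≤ ρ := by linarith
  have a2 : ρ ≤ r1 := by linarith
  have hw0 : 0 < w0 := by linarith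
  have hw1 : w1 < 1 := by linarith
  have swv := sum_wv w hc
  rw [← hMe] at swv
  have bad : ∀ {F : Finset V} {v0 : V}, F ⊆ {v0} → _ := fun hF =>
    bad_le (k := k + 1) hx hx1 hc hw hρ (by linarith) hτ hε (by linarith) hθ (by linarith) hD
      a0 a1 a2 (by linarith) (by linarith) (fun v => (hxX v).trans hX) hS hwv
      (by rw [swv, sq, mul_assoc]; gcongr) H hF
  obtain ⟨b0, b1, b2, b3, b4⟩ := bb_ok a0 (a1.trans a2) (show r1 ≤ 1 by linarith)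
  have hP := PD_isP b0 b1 (∅ : Finset V)
  obtain ⟨G, hG⟩ : ∃ G, G = GE x Ms w (k + 1 + 1) r0 r1 (ε * ρ) (ε * ρ * (ρ * τ)) (ε * τ) :=
    ⟨_, rfl⟩
  rw [← hG] at bad
  have hcs : ∀ ω : V → Fin 3, (cs {0} ω)ᶜ = cs {1, 2} ω := fun ω => by
    rw [← cs_compl]; rfl
  obtain ⟨β, hβ⟩ : ∃ β, β = (1 + 2 * (D * ι)) / (1 - w1) ^ k := ⟨_, rfl⟩
  have hβ1 : 1 ≤ β := by
    rw [hβ, le_div_iff₀ (pow_pos (by linarith) k)]
    have : (1 - w1) ^ k ≤ 1 := pow_le_one₀ (by linarith) (by linarith)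
    have : 0 ≤ D * ι := by positivity
    linarith
  obtain ⟨α, hα⟩ : ∃ α, α = (1 + 2 * (D * τ)) / w0 ^ k := ⟨_, rfl⟩
  obtain ⟨α', hα'⟩ : ∃ α', α' = (1 + 2 * (D * τ)) * (D * X) / w0 := ⟨_, rfl⟩
  obtain ⟨γ, hγ⟩ : ∃ γ, γ = (1 + 2 * (D * ι)) * (D * X) / (1 - w1) + D ^ 2 * (ρ * τ) := ⟨_, rfl⟩
  have hα0 : 0 ≤ α := by rw [hα]; positivity
  have hα0' : 0 ≤ α' := by rw [hα']; positivity
  have hγ0 : 0 ≤ γ := by
    have : 0 < 1 - w1 := by linarith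
    rw [hγ]; positivity
  obtain ⟨Y, hY⟩ : ∃ Y : (V → Fin 3) → ℝ, Y = fun ω => α * Zf Ms id w (cs {0, 1} ω) +
      α' * Zf univ (fun v => ({v} : Finset V)) (fun v => x v * (X - x v)) (cs {0, 1} ω) +
      β * Zf Ms id w (cs {1, 2} ω) + (γ - 1) * M +
      β * ∑ v, wv Ms w v * (ind (ω v = 0) * ind (¬ G ω)) := ⟨_, rfl⟩
  have hwv0 : ∀ v, 0 ≤ wv Ms w v := fun v => sum_nonneg fun e he => hw e (mem_filter.1 he).1
  have Ypos : ∀ ω, G ω → 0 < Y ω := by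
    intro ω hω
    have hz : ind (¬ G ω) = 0 := ind_neg (not_not.2 hω)
    rw [hG] at hω
    obtain ⟨g1, g2, g3, g4, g5, g6⟩ := hω
    rw [abs_le] at g1 g2 g3 g4
    rw [← hMe] at g5 g6
    have c1 := sum_add_sum_compl (cs {0} ω) x
    have c2 := sum_add_sum_compl (cs {0} ω) fun v => x v ^ 2
    have gA : GA (cs {0, 1} ω) := by
      by_contra h
      refine absurd (hA _ (by linarith) h) (not_le.2 ?_)
      refine ga1 hc1 hcD h2 hρ (by linarith) hτ hξ hξ2 hε hε1 hτ1 e1 (by linarith)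
        (by linarith) (sum_nonneg fun v _ => sq_nonneg _) g6 ?_ hX0 hX hM0 hM hS0 hV'
      rw [mul_sum]
      exact sum_le_sum fun v _ => by nlinarith [sq_nonneg (x v)]
    have gB : GB (cs {0} ω)ᶜ := by
      by_contra h
      refine absurd (hB _ (by linarith) h) (not_le.2 ?_)
      refine gb0 hc1 hcD h2 hρ hρ1 hτ hι hξ hξ2 hε hε1 hτ1 e0 (by linarith)
        (by linarith) (sum_nonneg fun v _ => sq_nonneg _) (hcs ω ▸ g5)
        ((sum_le_sum_of_subset_of_nonneg (subset_univ _) fun v _ _ => hn v).trans hN)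
        hX0 hX hM0 hM hS0 hV'
    have := det (w0 := w0) (w1 := w1) hx hx1 hxX hw hN hc1 (by positivity) (by linarith)
      (by positivity) hDι (by positivity) hCS hV hA hB hno
      (show cs {0} ω ⊆ cs {0, 1} ω from fun v hv => mem_filter.2 ⟨mem_univ _, by
        rw [mem_singleton.1 (mem_filter.1 hv).2]; decide⟩)
      hw0 hw1 (by linarith) (by linarith) gA gB
    rw [hcs] at this
    simp only [hY, hz, mul_zero, sum_const_zero, add_zero, Zf_single]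
    rw [hα, hα', hβ, hγ]
    refine (sub_pos.2 this).trans_le (le_of_eq ?_)
    ring
  have Ynn : ∀ ω, 0 ≤ Y ω := by
    intro ω
    by_cases hω : G ω
    · exact (Ypos ω hω).le
    · have t := touch hw ω
      rw [← hMe] at t
      simp only [hY, ind_pos hω, mul_one, Zf_single]
      have z1 := mul_nonneg hα0 (Zf_nonneg hw (cs {0, 1} ω))
      have z2 := mul_nonneg hα0' (sum_nonneg fun v (_ : v ∈ cs {0, 1} ω) => hn v)
      have z3 := mul_le_mul_of_nonneg_left t (show 0 ≤ β by linarith)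
      have z4 := mul_nonneg hγ0 hM0
      have z5 := mul_le_mul_of_nonneg_right hβ1 hM0
      linarith
  have EY : Ex (PD (bb r0 r1) ∅) Y ≤ 0 := by
    rw [hY, Ex_add, Ex_add, Ex_add, Ex_add, Ex_mul, Ex_mul, Ex_mul, Ex_mul, Ex_mul, Ex_const hP,
      Ex_Zf hP, Ex_Zf hP, Ex_Zf hP, mu_empty _ _ Ms id _ hc, mu_empty _ _ Ms id _ hc,
      mu_empty (r := 1) _ _ _ _ _ (fun v _ => card_singleton v), b3, b4, ← hMe, Ex_sum]
    simp only [Ex_mul, Ex_force]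
    have z1 : ∑ v, wv Ms w v * (bb r0 r1 0 * Ex (PD (bb r0 r1) {v}) fun ω => ind (¬ G ω)) ≤
        ∑ v, wv Ms w v * (r0 * (12 * θ)) :=
      sum_le_sum fun v _ => mul_le_mul_of_nonneg_left
        (mul_le_mul_of_nonneg_left (bad Subset.rfl) a0) (hwv0 v)
    rw [← sum_mul, swv] at z1
    have z2 := mul_le_mul_of_nonneg_left z1 (show 0 ≤ β by linarith)
    have z3 := mul_le_mul_of_nonneg_left (mul_le_mul_of_nonneg_left hN
      (show 0 ≤ r1 ^ 1 by rw [pow_one]; linarith)) hα0'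
    have z4 := mul_le_mul_of_nonneg_right (brk h3 hρ hρ1 hτ hι0.le hι1 hξ hξ1
      (show 0 ≤ 12 * θ by linarith) hθ1 hDτ2 hX0 hX e0 e1 f0 f1) hM0
    refine le_trans (add_le_add (add_le_add_left (add_le_add_left
      (add_le_add_right z3 _) _) _) z2) ?_
    rw [hα, hα', hβ, hγ]
    refine le_trans (le_of_eq ?_) (sub_nonpos.2 z4)
    ring
  have hz := (sum_eq_zero_iff_of_nonneg fun ω _ => mul_nonneg (wt_nonneg hP ω) (Ynn ω)).1
    (le_antisymm EY (sum_nonneg fun ω _ => mul_nonneg (wt_nonneg hP ω) (Ynn ω)))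
  have h1 : Ex (PD (bb r0 r1) ∅) (fun ω => ind (¬ G ω)) = 1 := by
    rw [← Ex_const hP 1]
    refine sum_congr rfl fun ω _ => ?_
    by_cases hω : G ω
    · rw [(mul_eq_zero.1 (hz ω (mem_univ _))).resolve_right (Ypos ω hω).ne', zero_mul, zero_mul]
    · simp only [ind_pos hω]
  have := bad (empty_subset {v0})
  linarith

end Pool.Agent.H20.Lag
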