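import Pool.Agent.H20.Lag6
import Pool.Agent.H20.Lag7

namespace Pool.Agent.H20.Lag

open Finset

def Cs (k : ℕ) (D : ℝ) : Prop :=
  1 ≤ cc (k + 2) ∧ cc (k + 2) ≤ D ∧ 3 ^ (k + 2) ≤ D ∧ (k + 3 : ℝ) ≤ D ∧
  (∀ (V : Type) [DecidableEq V] (s : Finset V) (y : V → ℝ) (X : ℝ), (∀ i, 0 ≤ y i) →
    (∀ i ∈ s, y i ≤ X) → ∑ i ∈ s, y i = 1 →
    |EE (k + 2) s y - g (k + 2) (∑ i ∈ s, y i ^ 2)| ≤ D * (X * (X - ∑ i ∈ s, y i ^ 2))) ∧
  ∀ a b : ℝ, 0 ≤ a → a ≤ b → D * b ≤ 1 → 0 ≤ g (k + 2) b ∧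
    (cc (k + 2) - D * b) * (b - a) ≤ g (k + 2) a - g (k + 2) b ∧
    g (k + 2) a - g (k + 2) b ≤ cc (k + 2) * (b - a)

theorem consts (k : ℕ) : ∃ D : ℝ, Cs k D := by
  obtain ⟨C, hC, hN⟩ := newton (k + 1)
  obtain ⟨K, hK, hg⟩ := g_bounds (k + 2)
  have h1 : 1 ≤ cc (k + 2) := by
    rw [cc_succ]
    push_cast
    linarith [cc_nonneg (k + 1), (Nat.cast_nonneg k : (0 : ℝ) ≤ k)]
  have h2 : (k + 3 : ℝ) ≤ 3 ^ (k + 2) := by
    exact_mod_cast (Nat.lt_pow_self (by norm_num : 1 < 3) : k + 2 < 3 ^ (k + 2))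
  have h3 : (0 : ℝ) ≤ k := Nat.cast_nonneg k
  refine ⟨cc (k + 2) + K + C + 3 ^ (k + 2), h1, by linarith, by linarith, by linarith,
    fun V _ s y X hy hX h => (hN V s y X hy hX h).1.trans ?_, fun a b ha hab hb => ?_⟩
  · have e1 : ∑ i ∈ s, y i ^ 2 ≤ X := by
      calc ∑ i ∈ s, y i ^ 2 ≤ ∑ i ∈ s, y i * X :=
            sum_le_sum fun i hi => by nlinarith [hy i, hX i hi]
        _ = X := by rw [← sum_mul, h, one_mul]
    have e2 : 0 ≤ ∑ i ∈ s, y i ^ 2 := sum_nonneg fun i _ => sq_nonneg _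
    exact mul_le_mul_of_nonneg_right (by linarith) (mul_nonneg (by linarith) (by linarith))
  · have hb0 : 0 ≤ b := ha.trans hab
    obtain ⟨g1, -, g2, g3⟩ := hg a b ha hab (le_trans (mul_le_mul_of_nonneg_right (by
      push_cast; linarith) hb0) hb)
    refine ⟨g1, le_trans (mul_le_mul_of_nonneg_right ?_ (by linarith)) g2, g3⟩
    have : K * b ≤ (cc (k + 2) + K + C + 3 ^ (k + 2)) * b :=
      mul_le_mul_of_nonneg_right (by linarith) hb0
    linarith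

variable {V : Type} [Fintype V] [DecidableEq V]

theorem vol {k : ℕ} {D : ℝ} (hD : Cs k D) (hk : 1 ≤ k) {Γ : Finset (Finset V)}
    (hc : ∀ e ∈ Γ, e.card = k + 2) {y : V → ℝ} (hy : ∀ v, 0 ≤ y v) (hy1 : ∑ v, y v = 1) {t u : ℝ}
    (ht : 0 ≤ t) (htu : t ≤ u) (hu : D ^ 2 * u ≤ 1)
    (hΛ : g (k + 2) t < (k + 2).factorial * pw Γ y) :
    ∃ (x : V → ℝ) (X : ℝ), (∀ v, 0 ≤ x v) ∧ ∑ v, x v = 1 ∧ (∀ v, x v ≤ X) ∧
      X ≤ D * u ∧ ∑ v, x v * (X - x v) ≤ ∑ e ∈ univ.powersetCard (k + 2) \ Γ, ww (k + 2) x e ∧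
      ∑ e ∈ univ.powersetCard (k + 2) \ Γ, ww (k + 2) x e ≤ D * u ∧
      (∀ v, wv (univ.powersetCard (k + 2) \ Γ) (ww (k + 2) x) v ≤ D ^ 3 * u ^ 2) ∧
      cc (k + 2) * ∑ v, x v ^ 2 < cc (k + 2) * t -
        (∑ e ∈ univ.powersetCard (k + 2) \ Γ, ww (k + 2) x e) * (1 - D ^ 2 * u) := by
  obtain ⟨c1, c2, -, c3, hN, hg⟩ := hD
  have hD1 : 1 ≤ D := c1.trans c2
  have hu0 : 0 ≤ u := ht.trans htu
  have hDu : D * u ≤ D ^ 2 * u := mul_le_mul_of_nonneg_right (by nlinarith) hu0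
  have hDt : D * t ≤ D * u := by gcongr
  have g0 : g (k + 2) 0 = 1 := by simp [g]
  have a1 := (hg 0 t le_rfl ht (by linarith)).2.2
  have a2 : cc (k + 2) * t ≤ D * t := by gcongr
  obtain ⟨x, X, hx, hx1, hle, hxX, hX, h1, h2, h3⟩ := kkt hk hc hy hy1 (δ := D * u)
    (by nlinarith [mul_le_mul_of_nonneg_right c3 (show 0 ≤ D * u by positivity)]) (by linarith)
  refine ⟨x, X, hx, hx1, hxX, hX, h1, h2, fun v => (h3 v).trans ?_, ?_⟩
  · calc (k + 2 : ℝ) * (D * u) ^ 2 ≤ D * (D * u) ^ 2 := by gcongr; linarith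
      _ = _ := by ring
  have e1 : EE (k + 2) univ x = (k + 2).factorial * pw Γ x +
      ∑ e ∈ univ.powersetCard (k + 2) \ Γ, ww (k + 2) x e := by
    rw [sum_ww, ← mul_add]
    unfold EE pw
    rw [add_comm (∑ e ∈ Γ, _), sum_sdiff fun e he => mem_powersetCard.2 ⟨subset_univ _, hc e he⟩]
  have hM0 : 0 ≤ ∑ e ∈ univ.powersetCard (k + 2) \ Γ, ww (k + 2) x e := by
    rw [sum_ww]; exact mul_nonneg (Nat.cast_nonneg _) (pw_nonneg hx)
  generalize ∑ e ∈ univ.powersetCard (k + 2) \ Γ, ww (k + 2) x e = M at *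
  have e2 : ∑ v, x v * (X - x v) = X - ∑ v, x v ^ 2 := by
    simp only [mul_sub, sum_sub_distrib, ← sq]
    rw [← sum_mul, hx1, one_mul]
  have e3 := (abs_le.1 (hN V univ x X hx (fun v _ => hxX v) hx1)).2
  have e4 := mul_le_mul_of_nonneg_left hle (Nat.cast_nonneg (k + 2).factorial : (0 : ℝ) ≤ _)
  have hS0 : 0 ≤ ∑ v, x v ^ 2 := sum_nonneg fun v _ => sq_nonneg _
  have hSX : 0 ≤ ∑ v, x v * (X - x v) :=
    sum_nonneg fun v _ => mul_nonneg (hx v) (sub_nonneg.2 (hxX v))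
  rw [e2] at h1 hSX
  generalize ∑ v, x v ^ 2 = S at *
  have e5 : D * (X * (X - S)) ≤ D * (D * u * M) := by gcongr
  rcases le_total S t with h | h
  · have := (hg S t hS0 h (by linarith)).2.2
    nlinarith
  · have b1 : D * S ≤ D * (D * u) := by gcongr; linarith
    have b2 := (hg t S ht h (by nlinarith)).2.1
    have b3 : 0 ≤ (cc (k + 2) - D * S) * (S - t) := mul_nonneg (by nlinarith) (by linarith)
    have b4 : 0 ≤ M * (1 - D ^ 2 * u) := mul_nonneg hM0 (by linarith)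
    nlinarith

theorem upK {k : ℕ} {D : ℝ} (hD : Cs k D) (hk : 1 ≤ k) {n : ℕ} (hn : D ^ 2 * (1 / n) ≤ 1)
    {y : Fin n → ℝ} (hy : ∀ v, 0 ≤ y v) (hy1 : ∑ v, y v = 1) :
    (k + 2).factorial * pw (univ.powersetCard (k + 2)) y ≤ g (k + 2) (1 / n) := by
  by_contra h
  obtain ⟨x, X, hx, hx1, -, -, -, -, -, h⟩ := vol hD hk (fun e he => (mem_powersetCard.1 he).2)
    hy hy1 (by positivity) le_rfl hn (not_le.1 h)
  rw [sdiff_self, bot_eq_empty, sum_empty, zero_mul, sub_zero] at h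
  have h1 := lt_of_mul_lt_mul_left h (cc_nonneg _)
  have h2 := sq_sum_le_card_mul_sum_sq (s := univ) (f := x)
  rw [hx1, card_fin] at h2
  rcases Nat.eq_zero_or_pos n with h0 | h0
  · subst h0; simp at hx1
  · have : (0 : ℝ) < n := by exact_mod_cast h0
    rw [lt_div_iff₀ this] at h1
    linarith

theorem lowK {k : ℕ} {D : ℝ} (hD : Cs k D) {n : ℕ} (hn : 0 < n) :
    ∑ _v : Fin n, (1 / n : ℝ) = 1 ∧
    (k + 2).factorial * pw (univ.powersetCard (k + 2)) (fun _ : Fin n => (1 / n : ℝ)) =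
      g (k + 2) (1 / n) := by
  have : (0 : ℝ) < n := by exact_mod_cast hn
  have e1 : ∑ _v : Fin n, (1 / n : ℝ) = 1 := by
    rw [sum_const, card_fin, nsmul_eq_mul]; field_simp
  have e2 : ∑ _v : Fin n, (1 / n : ℝ) ^ 2 = 1 / n := by
    rw [sum_const, card_fin, nsmul_eq_mul]; field_simp
  have h := hD.2.2.2.2.1 (Fin n) univ (fun _ => 1 / n) (1 / n) (fun _ => by positivity)
    (fun _ _ => le_rfl) e1
  rw [e2, sub_self, mul_zero, mul_zero, abs_nonpos_iff, sub_eq_zero] at h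
  exact ⟨e1, h⟩

theorem ng_of {k : ℕ} {D : ℝ} (hD : Cs k D) {Γ : Finset (Finset V)} {x : V → ℝ} {X t : ℝ}
    (hx : ∀ v, 0 ≤ x v) (hxX : ∀ v, x v ≤ X) (ht : D * t ≤ 1) {A : Finset V}
    (hW : 0 < ∑ v ∈ A, x v)
    (h : (k + 2).factorial * pw (Γ.filter (· ⊆ A)) (fun v => x v / ∑ v ∈ A, x v) ≤ g (k + 2) t) :
    NG x (univ.powersetCard (k + 2) \ Γ) (ww (k + 2) x) (k + 2) (cc (k + 2)) D X t A := by
  obtain ⟨c1, c2, -, c3, hN, hg⟩ := hD
  unfold NG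
  obtain ⟨W, hWe⟩ : ∃ W, W = ∑ v ∈ A, x v := ⟨_, rfl⟩
  rw [← hWe] at hW h ⊢
  have hy : ∀ v, 0 ≤ x v / W := fun v => div_nonneg (hx v) hW.le
  have h1 := (abs_le.1 (hN V A (fun v => x v / W) (X / W) hy
    (fun v _ => div_le_div_of_nonneg_right (hxX v) hW.le)
    (by rw [← sum_div, ← hWe, div_self hW.ne']))).1
  have e1 : ∑ v ∈ A, (x v / W) ^ 2 = (∑ v ∈ A, x v ^ 2) / W ^ 2 := by
    simp only [div_pow, sum_div]
  have e2 : ∑ v ∈ A, x v * (X - x v) = X * W - ∑ v ∈ A, x v ^ 2 := by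
    simp only [mul_sub, sum_sub_distrib, ← sq]
    rw [← sum_mul, ← hWe, mul_comm]
  have e3 : EE (k + 2) A (fun v => x v / W) ≤
      (k + 2).factorial * pw (Γ.filter (· ⊆ A)) (fun v => x v / W) +
      Zf (univ.powersetCard (k + 2) \ Γ) id (ww (k + 2) x) A / W ^ (k + 2) := by
    have : Zf (univ.powersetCard (k + 2) \ Γ) id (ww (k + 2) x) A / W ^ (k + 2) =
        (k + 2).factorial * pw ((univ.powersetCard (k + 2) \ Γ).filter (· ⊆ A))
          (fun v => x v / W) := by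
      unfold Zf pw ww
      rw [sum_filter, mul_sum, sum_div]
      refine sum_congr rfl fun e he => ?_
      split_ifs with h
      · rw [ind_pos (show id e ⊆ A from h), prod_div_distrib, prod_const,
          (mem_powersetCard.1 (mem_sdiff.1 he).1).2]
        ring
      · rw [ind_neg (show ¬ id e ⊆ A from h)]
        ring
    rw [this, ← mul_add]
    refine mul_le_mul_of_nonneg_left ?_ (Nat.cast_nonneg _)
    refine le_trans (pw_mono hy (G := Γ.filter (· ⊆ A) ∪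
      (univ.powersetCard (k + 2) \ Γ).filter (· ⊆ A)) fun e he => ?_) (le_of_eq ?_)
    · rw [mem_powersetCard] at he
      by_cases h : e ∈ Γ <;> simp [h, he.1, he.2]
    · exact sum_union (disjoint_filter_filter disjoint_sdiff)
  have hZ : 0 ≤ Zf (univ.powersetCard (k + 2) \ Γ) id (ww (k + 2) x) A / W ^ (k + 2) :=
    div_nonneg (Zf_nonneg (fun e _ => mul_nonneg (Nat.cast_nonneg _)
      (prod_nonneg fun i _ => hx i)) A) (pow_pos hW _).le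
  have hn : 0 ≤ ∑ v ∈ A, x v * (X - x v) :=
    sum_nonneg fun v _ => mul_nonneg (hx v) (sub_nonneg.2 (hxX v))
  have hS0 : 0 ≤ ∑ v ∈ A, x v ^ 2 := sum_nonneg fun v _ => sq_nonneg _
  have hX0 : 0 ≤ X := by
    obtain ⟨v, -⟩ := nonempty_of_sum_ne_zero (hWe ▸ hW.ne')
    exact (hx v).trans (hxX v)
  have hD0 : 0 ≤ D := by linarith
  have e4 : D * (X / W * (X / W - (∑ v ∈ A, x v ^ 2) / W ^ 2)) =
      D * X * (∑ v ∈ A, x v * (X - x v)) / W ^ 3 := by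
    rw [e2]; field_simp
  rw [e1, e4] at h1
  have e5 : 0 ≤ D * X * (∑ v ∈ A, x v * (X - x v)) / W ^ 3 := by positivity
  rcases le_total ((∑ v ∈ A, x v ^ 2) / W ^ 2) t with h2 | h2
  · have := (hg _ t (by positivity) h2 ht).2.1
    linarith
  · have := mul_nonneg (show 0 ≤ cc (k + 2) - D * t by linarith) (sub_nonneg.2 h2)
    linarith

end Pool.Agent.H20.Lag
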