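import Pool.Agent.H20.Lag8

namespace Pool.Agent.H20.Lag

open Finset

def Bd {V : Type} [DecidableEq V] (r : ℕ) (Γ : Finset (Finset V)) (GA : Finset V → Prop) (B : ℝ) :
    Prop :=
  ∀ (A : Finset V) (y : V → ℝ), (∀ v, 0 ≤ y v) → ∑ v ∈ A, y v = 1 → ¬ GA A →
    r.factorial * pw (Γ.filter (· ⊆ A)) y ≤ B

theorem split2 {k : ℕ} {D : ℝ} (hD : Cs k D) (hk : 1 ≤ k) : ∃ n0 : ℕ, 0 < n0 ∧ D ^ 2 ≤ n0 ∧
    ∀ p q : ℕ, n0 ≤ p → p ≤ q → ∀ (V : Type) [Fintype V] [DecidableEq V] (Γ : Finset (Finset V))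
      (GA GB : Finset V → Prop), (∀ e ∈ Γ, e.card = k + 2) →
      Bd (k + 2) Γ GA (g (k + 2) (1 / p)) → Bd (k + 2) Γ GB (g (k + 2) (1 / q)) →
      ∀ y : V → ℝ, (∀ v, 0 ≤ y v) → ∑ v, y v = 1 →
      g (k + 2) (1 / (p + q + 1)) < (k + 2).factorial * pw Γ y → ∃ A, GA A ∧ GB Aᶜ := by
  have hD1 : 1 ≤ D := hD.1.trans hD.2.1
  have hD0 : 0 < D := by linarith
  obtain ⟨ξ, hξ⟩ : ∃ ξ, ξ = 1 / (100 * D) := ⟨_, rfl⟩
  obtain ⟨ε, hε⟩ : ∃ ε, ε = ξ / (100 * D ^ 3) := ⟨_, rfl⟩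
  obtain ⟨θ, hθ⟩ : ∃ θ, θ = 1 / (1200 * D ^ 2) := ⟨_, rfl⟩
  have hξ0 : 0 < ξ := by rw [hξ]; positivity
  have hε0 : 0 < ε := by rw [hε]; positivity
  have hθ0 : 0 < θ := by rw [hθ]; positivity
  obtain ⟨n0, hn0⟩ := exists_nat_ge (D ^ 2 + 100 * D ^ 3 / ξ +
    12 * D ^ 6 / (ε ^ 2 * θ ^ (2 * (k + 1 + 1) + 1)))
  have i1 : 0 < D ^ 2 := by positivity
  have i2 : 0 < 100 * D ^ 3 / ξ := by positivity
  have i3 : 0 < 12 * D ^ 6 / (ε ^ 2 * θ ^ (2 * (k + 1 + 1) + 1)) := by positivity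
  refine ⟨n0, by exact_mod_cast (show (0 : ℝ) < n0 by linarith), by linarith,
    fun p q hp hpq V _ _ Γ GA GB hc hA hB y hy hy1 hΛ => ?_⟩
  have hp' : (n0 : ℝ) ≤ p := by exact_mod_cast hp
  have hq' : (p : ℝ) ≤ q := by exact_mod_cast hpq
  generalize (p : ℝ) = P at *
  generalize (q : ℝ) = Q at *
  have hP : 0 < P := by linarith
  have hQ : 0 < Q := by linarith
  have eu : P / (P + Q) * (1 / P) = 1 / (P + Q) := by field_simp
  have ht1 : 1 / (P + Q + 1) ≤ P / (P + Q) * (1 / P) := by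
    rw [eu]; exact one_div_le_one_div_of_le (by linarith) (by linarith)
  have hDD : D ≤ D ^ 2 := by nlinarith
  obtain ⟨x, X, hx, hx1, hxX, hX, h1, h2, h3, h4⟩ := vol hD hk hc hy hy1 (by positivity) ht1
    (by rw [eu, mul_one_div, div_le_one (by linarith)]; linarith) hΛ
  refine split_aux (ι := 1 / Q) (ξ := ξ) (ε := ε) (θ := θ) hD.1 hD.2.1 hD.2.2.1 (by positivity)
    (by rw [div_le_iff₀ (by linarith)]; linarith) (by positivity) (by field_simp; ring) hξ0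
    (le_of_eq (by rw [hξ]; field_simp)) hε0 (le_of_eq (by rw [hε]; field_simp)) ?_ hθ0
    (le_of_eq (by rw [hθ]; field_simp; norm_num)) ?_ hx hx1 hxX hX
    (fun e he => (mem_powersetCard.1 (mem_sdiff.1 he).1).2)
    (fun e _ => mul_nonneg (Nat.cast_nonneg _) (prod_nonneg fun i _ => hx i)) h1 h2 h3 ht1
    (fun a b => ?_) h4 (fun A hW hn => ?_) (fun A hW hn => ?_)
  · rw [mul_one_div, div_le_iff₀ hP, mul_comm ξ, ← div_le_iff₀ hξ0]
    linarith
  · rw [mul_one_div, div_le_iff₀ hP, mul_comm _ P, ← div_le_iff₀ (by positivity)]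
    linarith
  · obtain ⟨t, ht⟩ : ∃ t, t = 1 / (P + Q + 1) := ⟨_, rfl⟩
    have e0 : t * (P + Q + 1) = 1 := by rw [ht]; field_simp
    have e1 : 1 / P * a ^ 2 = 1 / P * (a - P * t) ^ 2 + 2 * t * a - P * t ^ 2 := by
      field_simp; ring
    have e2 : 1 / Q * (1 - a - b) ^ 2 =
        1 / Q * (1 - a - b - Q * t) ^ 2 + 2 * t * (1 - a - b) - Q * t ^ 2 := by
      field_simp; ring
    have e3 : 0 ≤ 1 / P * (a - P * t) ^ 2 := by positivity
    have e4 : 0 ≤ 1 / Q * (1 - a - b - Q * t) ^ 2 := by positivity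
    have e5 : t * (t * (P + Q + 1)) = t := by rw [e0, mul_one]
    rw [← ht, e1, e2]
    nlinarith [sq_nonneg (b - t)]
  · exact ng_of hD hx hxX (by rw [mul_one_div, div_le_one hP]; linarith) hW
      (hA A _ (fun v => div_nonneg (hx v) hW.le) (by rw [← sum_div, div_self hW.ne']) hn)
  · exact ng_of hD hx hxX (by rw [mul_one_div, div_le_one hQ]; linarith) hW
      (hB A _ (fun v => div_nonneg (hx v) hW.le) (by rw [← sum_div, div_self hW.ne']) hn)

def Has {V : Type} [DecidableEq V] {a : ℕ} (G : Finset (Finset (Fin a))) (Γ : Finset (Finset V))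
    (A : Finset V) : Prop :=
  ∃ f : Fin a → V, Function.Injective f ∧ (∀ i, f i ∈ A) ∧ ∀ e ∈ G, e.image f ∈ Γ

theorem transfer {V : Type} [DecidableEq V] {a r : ℕ} {G : Finset (Finset (Fin a))} {B : ℝ}
    (h : ∀ (m : ℕ) (Γ : Finset (Finset (Fin m))), (∀ e ∈ Γ, e.card = r) →
      (¬ ∃ f : Fin a → Fin m, Function.Injective f ∧ ∀ e ∈ G, e.image f ∈ Γ) →
      ∀ y : Fin m → ℝ, (∀ v, 0 ≤ y v) → ∑ v, y v = 1 → r.factorial * pw Γ y ≤ B)
    {Γ : Finset (Finset V)} (hc : ∀ e ∈ Γ, e.card = r) : Bd r Γ (Has G Γ) B := by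
  intro A y hy hy1 hn
  obtain ⟨φ, hφ⟩ : ∃ φ : Fin A.card → V, φ = fun i => (A.equivFin.symm i : V) := ⟨_, rfl⟩
  have inj : Function.Injective φ := by
    rw [hφ]; exact Subtype.val_injective.comp A.equivFin.symm.injective
  have mem : ∀ i, φ i ∈ A := fun i => by rw [hφ]; exact (A.equivFin.symm i).2
  have sur : ∀ v ∈ A, ∃ i, φ i = v := fun v hv => ⟨A.equivFin ⟨v, hv⟩, by simp [hφ]⟩
  have := h A.card (univ.filter fun e => e.image φ ∈ Γ)
    (fun e he => by rw [← card_image_of_injective e inj]; exact hc _ (mem_filter.1 he).2)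
    (fun ⟨f, hf, hG⟩ => hn ⟨φ ∘ f, inj.comp hf, fun i => mem _, fun e he => by
      rw [← image_image]; exact (mem_filter.1 (hG e he)).2⟩)
    (fun i => y (φ i)) (fun i => hy _) (by
      rw [← hy1]
      exact sum_bij (fun i _ => φ i) (fun i _ => mem i) (fun i _ j _ h => inj h)
        (fun v hv => (sur v hv).imp fun i hi => ⟨mem_univ i, hi⟩) fun _ _ => rfl)
  refine le_trans (le_of_eq ?_) this
  congr 1
  symm
  refine sum_bij (fun e _ => e.image φ) (fun e he => mem_filter.2 ⟨(mem_filter.1 he).2,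
    fun v hv => ?_⟩) (fun e _ e' _ h => image_injective inj h) (fun e he => ?_) fun e _ => ?_
  · obtain ⟨i, -, rfl⟩ := mem_image.1 hv
    exact mem i
  · have : (univ.filter fun i => φ i ∈ e).image φ = e := by
      ext v
      simp only [mem_image, mem_filter, mem_univ, true_and]
      constructor
      · rintro ⟨i, hi, rfl⟩
        exact hi
      · intro hv
        obtain ⟨i, rfl⟩ := sur v ((mem_filter.1 he).2 hv)
        exact ⟨i, hv, rfl⟩
    exact ⟨_, mem_filter.2 ⟨mem_univ _, by rw [this]; exact (mem_filter.1 he).1⟩, this⟩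
  · rw [prod_image fun i _ j _ h => inj h]

theorem combine {V : Type} [Fintype V] [DecidableEq V] {a b : ℕ} {G : Finset (Finset (Fin a))}
    {H : Finset (Finset (Fin b))} {Γ : Finset (Finset V)} {A : Finset V} (h1 : Has G Γ A)
    (h2 : Has H Γ Aᶜ) : ∃ f : Fin (a + b) → V, Function.Injective f ∧
      ∀ e ∈ G.image (fun e => e.image (Fin.castAdd b)) ∪ H.image (fun e => e.image (Fin.natAdd a)),
        e.image f ∈ Γ := by
  obtain ⟨f1, i1, m1, g1⟩ := h1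
  obtain ⟨f2, i2, m2, g2⟩ := h2
  refine ⟨Fin.append f1 f2, Fin.append_injective_iff.2 ⟨i1, i2, fun i j h => ?_⟩, fun e he => ?_⟩
  · exact mem_compl.1 (m2 j) (h ▸ m1 i)
  · rcases mem_union.1 he with h | h
    · obtain ⟨e, h', rfl⟩ := mem_image.1 h
      rw [image_image]
      simpa [Function.comp_def] using g1 e h'
    · obtain ⟨e, h', rfl⟩ := mem_image.1 h
      rw [image_image]
      simpa [Function.comp_def] using g2 e h'

theorem pw_le_one {V : Type} [Fintype V] [DecidableEq V] {r : ℕ} {Γ : Finset (Finset V)}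
    (hc : ∀ e ∈ Γ, e.card = r) {y : V → ℝ} (hy : ∀ v, 0 ≤ y v) (hy1 : ∑ v, y v = 1) :
    r.factorial * pw Γ y ≤ 1 := by
  have := EE_le hy r univ
  rw [hy1, one_pow] at this
  exact le_trans (mul_le_mul_of_nonneg_left (pw_mono hy fun e he =>
    mem_powersetCard.2 ⟨subset_univ _, hc e he⟩) (Nat.cast_nonneg _)) this

end Pool.Agent.H20.Lag
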