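import Pool.Agent.H20.MMSDefs

namespace H20.MMS

open Finset Classical

noncomputable def N (t : Finset ℕ) (x : ℕ → ℝ) : ℕ :=
  ((t.powersetCard 2).filter (fun S => 0 ≤ ∑ i ∈ S, x i)).card

lemma step (x : ℕ → ℝ) (t : Finset ℕ) (ht : 0 ≤ ∑ i ∈ t, x i) (j a : ℕ) (hj : 1 ≤ j)
    (hc : 2 * j ≤ t.card)
    (ih : ∀ u : Finset ℕ, u.card + 2 = t.card → 0 ≤ ∑ i ∈ u, x i → a ≤ N u x) :
    t.card - 1 ≤ N t x ∨ a + j ≤ N t x := by
  obtain ⟨M, hM, hmax⟩ := exists_max_image t x (card_pos.1 (by omega))
  have hce := card_erase_of_mem hM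
  obtain ⟨m, hm, hmin⟩ := exists_min_image (t.erase M) x (card_pos.1 (by omega))
  set G := (t.erase M).filter (fun i => 0 ≤ x M + x i) with hG
  set P := G.image (fun i => ({M, i} : Finset ℕ)) with hP
  have hPc : P.card = G.card := by
    apply card_image_of_injOn
    intro a ha b hb h
    have h' : ({M, a} : Finset ℕ) = {M, b} := h
    have : a ∈ ({M, b} : Finset ℕ) := h' ▸ (by simp)
    simp only [mem_insert, mem_singleton] at this
    exact this.resolve_left (mem_erase.1 (mem_filter.1 (mem_coe.1 ha)).1).1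
  have hPs : P ⊆ (t.powersetCard 2).filter (fun S => 0 ≤ ∑ i ∈ S, x i) := by
    intro S hS
    obtain ⟨i, hi, rfl⟩ := mem_image.1 hS
    obtain ⟨h1, h2⟩ := mem_filter.1 hi
    obtain ⟨h3, h4⟩ := mem_erase.1 h1
    refine mem_filter.2 ⟨mem_powersetCard.2 ⟨?_, card_pair h3.symm⟩, by rwa [sum_pair h3.symm]⟩
    intro y hy
    simp only [mem_insert, mem_singleton] at hy
    rcases hy with rfl | rfl <;> assumption
  by_cases h0 : 0 ≤ x M + x m
  · left
    have : G = t.erase M := filter_true_of_mem fun i hi => by have := hmin i hi; linarith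
    have h2 := card_le_card hPs
    rw [hPc, this, hce] at h2
    exact h2
  right
  push Not at h0
  set u := (t.erase M).erase m with hu
  have hs1 := add_sum_erase t x hM
  have hs2 := add_sum_erase (t.erase M) x hm
  have hua := ih u (by rw [hu, card_erase_of_mem hm]; omega) (by linarith)
  have hM0 : 0 ≤ x M := by
    by_contra hneg
    have : ∑ i ∈ t, x i < ∑ i ∈ t, (0 : ℝ) :=
      sum_lt_sum_of_nonempty ⟨M, hM⟩ fun i hi => by have := hmax i hi; linarith
    simp at this; linarith
  have hGj : j ≤ G.card := by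
    by_contra hlt
    set B := (t.erase M).filter (fun i => ¬ 0 ≤ x M + x i) with hB
    have h1 := card_filter_add_card_filter_not (s := t.erase M) (fun i => 0 ≤ x M + x i)
    have h2 := sum_filter_add_sum_filter_not (t.erase M) (fun i => 0 ≤ x M + x i) x
    rw [← hG, ← hB] at h1 h2
    have h3 : ∑ i ∈ G, x i ≤ G.card * x M := by
      rw [← nsmul_eq_mul]
      exact sum_le_card_nsmul _ _ _ fun i hi => hmax i (mem_erase.1 (mem_filter.1 hi).1).2
    have h4 : ∑ i ∈ B, x i < ∑ i ∈ B, (- x M) :=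
      sum_lt_sum_of_nonempty (card_pos.1 (by omega)) fun i hi => by
        have := (mem_filter.1 hi).2; linarith
    rw [sum_const, nsmul_eq_mul] at h4
    have h5 : (G.card : ℝ) + 1 ≤ B.card := by exact_mod_cast (by omega)
    nlinarith
  have hdis : Disjoint ((u.powersetCard 2).filter (fun S => 0 ≤ ∑ i ∈ S, x i)) P := by
    rw [disjoint_left]
    intro S h1 h2
    obtain ⟨i, -, rfl⟩ := mem_image.1 h2
    have := (mem_powersetCard.1 (mem_filter.1 h1).1).1 (mem_insert_self _ _)
    simp [hu] at this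
  have hsub : (u.powersetCard 2).filter (fun S => 0 ≤ ∑ i ∈ S, x i) ∪ P ⊆
      (t.powersetCard 2).filter (fun S => 0 ≤ ∑ i ∈ S, x i) :=
    union_subset (filter_subset_filter _ (powersetCard_mono
      ((erase_subset _ _).trans (erase_subset _ _)))) hPs
  have := card_le_card hsub
  rw [card_union_of_disjoint hdis] at this
  unfold N at *
  omega

lemma even (x : ℕ → ℝ) (k : ℕ) : ∀ t : Finset ℕ, t.card = 2 * (k + 1) → 0 ≤ ∑ i ∈ t, x i →
    2 * k + 1 ≤ N t x := by
  induction k with
  | zero =>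
    intro t hc ht
    rcases step x t ht 1 0 le_rfl (by omega) (fun _ _ _ => Nat.zero_le _) with h | h <;> omega
  | succ k ih =>
    intro t hc ht
    rcases step x t ht 2 (2 * k + 1) (by omega) (by omega) (fun u hu => ih u (by omega)) with h | h <;>
      omega

lemma odd (x : ℕ → ℝ) (k : ℕ) : ∀ t : Finset ℕ, t.card = 2 * k + 7 → 0 ≤ ∑ i ∈ t, x i →
    2 * k + 6 ≤ N t x := by
  induction k with
  | zero =>
    have h3 : ∀ t : Finset ℕ, t.card = 3 → 0 ≤ ∑ i ∈ t, x i → 1 ≤ N t x := by
      intro t hc ht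
      rcases step x t ht 1 0 le_rfl (by omega) (fun _ _ _ => Nat.zero_le _) with h | h <;> omega
    have h5 : ∀ t : Finset ℕ, t.card = 5 → 0 ≤ ∑ i ∈ t, x i → 3 ≤ N t x := by
      intro t hc ht
      rcases step x t ht 2 1 (by omega) (by omega) (fun u hu => h3 u (by omega)) with h | h <;> omega
    intro t hc ht
    rcases step x t ht 3 3 (by omega) (by omega) (fun u hu => h5 u (by omega)) with h | h <;> omega
  | succ k ih =>
    intro t hc ht
    rcases step x t ht 2 (2 * k + 6) (by omega) (by omega) (fun u hu => ih u (by omega)) with h | h <;>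
      omega

lemma f_two : f 2 ≤ 7 := by
  apply Nat.sInf_le
  intro n hn x hx
  change _ ≤ N (Icc 1 n) x
  simp only [show 2 - 1 = 1 from rfl, Nat.choose_one_right]
  rcases Nat.even_or_odd' n with ⟨k, rfl | rfl⟩
  · have := even x (k - 1) (Icc 1 (2 * k)) (by simp; omega) hx
    omega
  · have := odd x (k - 3) (Icc 1 (2 * k + 1)) (by simp; omega) hx
    omega

def y (i : ℕ) : ℤ := if i ≤ 4 then 3 else -4

lemma s_y : s 2 7 (fun i => (y i : ℝ)) = 6 := by
  have : s 2 7 (fun i => (y i : ℝ)) =
      (((Icc 1 7).powersetCard 2).filter (fun S => 0 ≤ ∑ i ∈ S, y i)).card := by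
    unfold s
    congr 1
    apply filter_congr
    intro S _
    rw [← Int.cast_sum]
    exact_mod_cast Iff.rfl
  rw [this]
  decide +kernel

lemma y_mem : InF 7 (fun i => (y i : ℝ)) := by
  constructor
  · rw [← Int.cast_sum]
    have : 0 ≤ ∑ i ∈ Icc 1 7, y i := by decide +kernel
    exact_mod_cast this
  · intro i j _ hij _
    have : y j ≤ y i := by unfold y; split_ifs <;> omega
    show (y j : ℝ) ≤ y i
    exact_mod_cast this

end H20.MMS
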