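import Mathlib

namespace H20.MMS

open Finset Classical

/-- `s_k(x)` for the vector `(x 1, …, x n)`: the number of `k`-subsets of `[n]` with nonnegative sum. -/
noncomputable def s (k n : ℕ) (x : ℕ → ℝ) : ℕ :=
  (((Icc 1 n).powersetCard k).filter (fun S => 0 ≤ ∑ i ∈ S, x i)).card

/-- `f(k)`: the least `N` such that for all `n ≥ N` every vector with nonnegative sum has at least
`C(n-1,k-1)` nonnegative `k`-sums. -/
noncomputable def f (k : ℕ) : ℕ :=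
  sInf {N | ∀ n, N ≤ n → ∀ x : ℕ → ℝ, 0 ≤ ∑ i ∈ Icc 1 n, x i → (n - 1).choose (k - 1) ≤ s k n x}

/-- `(x 1, …, x n) ∈ F_n`: nonnegative sum and non-increasing coordinates. -/
def InF (n : ℕ) (x : ℕ → ℝ) : Prop :=
  0 ≤ ∑ i ∈ Icc 1 n, x i ∧ ∀ i j, 1 ≤ i → i ≤ j → j ≤ n → x j ≤ x i

end H20.MMS
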