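import Pool.Agent.H20.MajDefs

namespace Pool.Agent.H20.Maj
open Pool.Agent.H20 Finset

def mask : Fin 26 → ℕ := ![7826, 57989, 65562, 131140, 1835301, 6291856, 904, 58720355, 624, 323, 1, 1, 1, 2, 2, 2, 4, 8, 16, 16, 16, 32, 32, 128, 128, 128]

def adjB (u v : Fin 26) : Bool := (mask u).testBit v

def G : SimpleGraph (Fin 26) where
  Adj u v := adjB u v = true
  symm := ⟨by decide +kernel⟩
  loopless := ⟨by decide +kernel⟩

def delB (a b u v : Fin 26) : Bool := adjB u v && !((u == a && v == b) || (u == b && v == a))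

theorem del_adj (a b u v : Fin 26) : (G.deleteEdges {s(a, b)}).Adj u v ↔ delB a b u v = true := by
  simp [delB, G, SimpleGraph.deleteEdges_adj]
  tauto

theorem bdd (H : SimpleGraph (Fin 26)) : BddAbove {k | ∃ c, IsMajorityCol H k c} := by
  refine ⟨26, ?_⟩
  rintro k ⟨c, hc, _⟩
  simpa using Fintype.card_le_of_surjective c hc

def dig (k x : ℕ) (v : Fin 26) : Fin (k + 1) := Fin.ofNat (k + 1) (x / 5 ^ v.val % 5)

def Chk (A : Fin 26 → Fin 26 → Bool) (k x : ℕ) : Prop :=
  (∀ i, ∃ v, dig k x v = i) ∧ ∀ v, (univ.filter fun w => A v w = true).card ≤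
    2 * (univ.filter fun w => A v w = true ∧ dig k x w = dig k x v).card

instance (A : Fin 26 → Fin 26 → Bool) (k x : ℕ) : Decidable (Chk A k x) := by
  unfold Chk; infer_instance

theorem nb (H : SimpleGraph (Fin 26)) (A : Fin 26 → Fin 26 → Bool)
    (h : ∀ u v, H.Adj u v ↔ A u v = true) (v : Fin 26) :
    (H.neighborSet v).ncard = (univ.filter fun w => A v w = true).card := by
  rw [← Set.ncard_coe_finset]
  congr 1
  ext w
  simp [h]

theorem lower (H : SimpleGraph (Fin 26)) (A : Fin 26 → Fin 26 → Bool)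
    (h : ∀ u v, H.Adj u v ↔ A u v = true) (k x : ℕ) (hc : Chk A k x) : k + 1 ≤ majNum H := by
  refine le_csSup (bdd H) ⟨dig k x, hc.1, fun v => ?_⟩
  rw [nb H A h]
  refine (hc.2 v).trans (le_of_eq ?_)
  rw [← Set.ncard_coe_finset]
  congr 2
  ext w
  simp [h]

def up (i : Fin 10) : Fin 26 := Fin.castLE (by norm_num) i

def Good (A : Fin 26 → Fin 26 → Bool) (T : Finset (Fin 10)) : Prop :=
  T.Nonempty ∧ ∀ v ∈ T, (univ.filter fun w => A (up v) w = true).card ≤
    2 * ((T.filter fun w => A (up v) (up w) = true).card +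
      (univ.filter fun w : Fin 26 => A (up v) w = true ∧ 10 ≤ w.val).card)

instance (A : Fin 26 → Fin 26 → Bool) (T : Finset (Fin 10)) : Decidable (Good A T) := by
  unfold Good; infer_instance

theorem upper (H : SimpleGraph (Fin 26)) (A : Fin 26 → Fin 26 → Bool)
    (h : ∀ u v, H.Adj u v ↔ A u v = true) (w : Fin 10 → ℕ)
    (h1 : ∀ v : Fin 26, 10 ≤ v.val → (∃ x, A v x = true) ∧ ∀ x, A v x = true → x.val < 10)
    (h2 : ∀ T, Good A T → 2 ≤ ∑ v ∈ T, w v) : 2 * majNum H ≤ ∑ v, w v := by
  have : majNum H ≤ (∑ v, w v) / 2 := by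
    apply csSup_le'
    rintro k ⟨c, hs, hc⟩
    have key : ∀ i : Fin k, Good A (univ.filter fun v : Fin 10 => c (up v) = i) := by
      intro i
      constructor
      · obtain ⟨v, rfl⟩ := hs i
        by_cases hv : v.val < 10
        · exact ⟨⟨v.val, hv⟩, by simp [up]⟩
        · obtain ⟨⟨x, hx⟩, a2⟩ := h1 v (by omega)
          have a3 := hc v
          have a4 : 0 < (H.neighborSet v).ncard :=
            (Set.ncard_pos (Set.toFinite _)).mpr ⟨x, (h v x).mpr hx⟩
          obtain ⟨y, y1, y2⟩ := Set.nonempty_of_ncard_ne_zero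
            (s := {w | H.Adj v w ∧ c w = c v}) (by omega)
          exact ⟨⟨y.val, a2 y ((h v y).mp y1)⟩, by simp [up, y2]⟩
      · intro v hv
        have e := (mem_filter.mp hv).2
        have a3 := hc (up v)
        rw [nb H A h] at a3
        refine a3.trans (Nat.mul_le_mul_left _ ?_)
        have : {w | H.Adj (up v) w ∧ c w = c (up v)} ⊆
            ((((univ.filter fun v : Fin 10 => c (up v) = i).filter
              fun w => A (up v) (up w) = true).image up ∪
            (univ.filter fun w : Fin 26 => A (up v) w = true ∧ 10 ≤ w.val) : Finset (Fin 26)) :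
              Set (Fin 26)) := by
          rintro x ⟨x1, x2⟩
          rw [h] at x1
          simp only [coe_union, coe_image, coe_filter, mem_filter, mem_univ, true_and,
            Set.mem_union, Set.mem_image, Set.mem_ofPred_eq]
          by_cases hx : x.val < 10
          · exact Or.inl ⟨⟨x.val, hx⟩, ⟨x2.trans e, x1⟩, rfl⟩
          · exact Or.inr ⟨x1, by omega⟩
        refine (Set.ncard_le_ncard this).trans ?_
        rw [Set.ncard_coe_finset]
        exact (Finset.card_union_le _ _).trans (Nat.add_le_add_right Finset.card_image_le _)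
    have a1 : ∑ _i : Fin k, 2 ≤ ∑ i : Fin k, ∑ v ∈ univ.filter fun v : Fin 10 => c (up v) = i, w v :=
      Finset.sum_le_sum fun i _ => h2 _ (key i)
    rw [Finset.sum_fiberwise] at a1
    simp only [sum_const, card_univ, Fintype.card_fin, smul_eq_mul] at a1
    omega
  omega

def wit (u v : Fin 26) : ℕ :=
  match u.val * 26 + v.val with
  | 1 => 1487134895029292805
  | 4 => 1489995765385905280
  | 7 => 1487134742436683405
  | 9 => 378488502206792805
  | 10 => 1114605865524898275
  | 11 => 1114605865681148275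
  | 12 => 1114605866462398275
  | 28 => 1117231330576087805
  | 33 => 1484154663093335775
  | 35 => 1117231330576087805
  | 39 => 1114605870368648275
  | 40 => 1114605889899898275
  | 41 => 1114605987556148275
  | 55 => 1117349395761635275
  | 56 => 1117466888437417025
  | 68 => 744939270026772650
  | 84 => 1117349395761635275
  | 95 => 1114608154304195150
  | 109 => 1487015686044917025
  | 112 => 1117466888437417025
  | 122 => 1114613494880367025
  | 123 => 1114644012458492025
  | 124 => 1114796600349117025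
  | 137 => 1484154663093335775
  | 138 => 378133735361087805
  | 151 => 1115559539802242025
  | 152 => 1119374237067867025
  | 163 => 1484154663093335775
  | 205 => 1126526794440913900
  | 206 => 1174210510261226400
  | 207 => 1412629089362788900
  | _ => 0

theorem mG : majNum G = 4 := by
  have a1 := lower G adjB (fun _ _ => Iff.rfl) 3 1114605865485835775 (by decide +kernel)
  have a2 := upper G adjB (fun _ _ => Iff.rfl) ![1, 1, 2, 0, 1, 1, 1, 1, 1, 0]
    (by decide +kernel) (by decide +kernel)
  have : ∑ v, (![1, 1, 2, 0, 1, 1, 1, 1, 1, 0] : Fin 10 → ℕ) v = 9 := by decide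
  have := a2.trans_eq this
  omega

theorem sum7 : ∑ v, (![1, 1, 1, 1, 1, 1, 0, 1, 0, 0] : Fin 10 → ℕ) v = 7 := by decide

theorem lo68 : majNum (G.deleteEdges {s(6, 8)}) < 4 := by
  have a2 := upper _ _ (del_adj 6 8) ![1, 1, 1, 1, 1, 1, 0, 1, 0, 0]
    (by decide +kernel) (by decide +kernel)
  have := a2.trans_eq sum7
  omega

theorem lo69 : majNum (G.deleteEdges {s(6, 9)}) < 4 := by
  have a2 := upper _ _ (del_adj 6 9) ![1, 1, 1, 1, 1, 1, 0, 1, 0, 0]
    (by decide +kernel) (by decide +kernel)
  have := a2.trans_eq sum7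
  omega

theorem lo89 : majNum (G.deleteEdges {s(8, 9)}) < 4 := by
  have a2 := upper _ _ (del_adj 8 9) ![1, 1, 1, 1, 1, 1, 0, 1, 0, 0]
    (by decide +kernel) (by decide +kernel)
  have := a2.trans_eq sum7
  omega

theorem hi : ∀ u v : Fin 26, u < v → adjB u v = true →
    (u = 6 ∧ v = 8) ∨ (u = 6 ∧ v = 9) ∨ (u = 8 ∧ v = 9) ∨ Chk (delB u v) 4 (wit u v) := by
  decide +kernel

theorem crit (e : Sym2 (Fin 26)) (he : e ∈ G.edgeSet) : majNum (G.deleteEdges {e}) ≠ majNum G := by
  have key : ∀ u v : Fin 26, u < v → G.Adj u v → majNum (G.deleteEdges {s(u, v)}) ≠ 4 := by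
    intro u v h1 h2
    rcases hi u v h1 h2 with ⟨rfl, rfl⟩ | ⟨rfl, rfl⟩ | ⟨rfl, rfl⟩ | h
    · exact lo68.ne
    · exact lo69.ne
    · exact lo89.ne
    · have := lower _ _ (del_adj u v) 4 _ h
      omega
  rw [mG]
  induction e using Sym2.ind with
  | _ u v =>
    have h : G.Adj u v := he
    rcases lt_or_gt_of_ne h.ne with h1 | h1
    · exact key u v h1 h
    · rw [Sym2.eq_swap]; exact key v u h1 h.symm

theorem hi01 : majNum G < majNum (G.deleteEdges {s(0, 1)}) := by
  have := lower _ _ (del_adj 0 1) 4 (wit 0 1) (by decide +kernel)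
  rw [mG]; omega

end Pool.Agent.H20.Maj
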