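import Mathlib

namespace Pool.Agent.H20

/-- A majority C-colouring with `k` nonempty classes: every vertex has at least half of its
neighbours in its own class. -/
def IsMajorityCol {V : Type} (G : SimpleGraph V) (k : ℕ) (c : V → Fin k) : Prop :=
  Function.Surjective c ∧
  ∀ v, (G.neighborSet v).ncard ≤ 2 * {w | G.Adj v w ∧ c w = c v}.ncard

/-- The majority C-chromatic number: the largest number of classes. -/
noncomputable def majNum {V : Type} (G : SimpleGraph V) : ℕ :=
  sSup {k | ∃ c, IsMajorityCol G k c}

end Pool.Agent.H20
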