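import Mathlib

namespace H20.Mix

open Finset

variable {α : Type} [DecidableEq α]

def Bd (C : α → α → Prop) (f : ℕ) (A : Finset α) : Prop :=
  ∀ T ⊆ A, (T : Set α).Pairwise C → T.card ≤ f

def Sp (C N : α → α → Prop) (X : Finset α) (f : ℕ) : Prop := ∃ A, Bd C f (X ∩ A) ∧ Bd N f (X \ A)

def Col (G : α → α → Prop) (X : Finset α) (n : ℕ) : Prop :=
  ∃ c : α → ℕ, (∀ x ∈ X, c x < n) ∧ ∀ x ∈ X, ∀ y ∈ X, G x y → c x ≠ c y

theorem Bd.mono {C : α → α → Prop} {f g : ℕ} {A B : Finset α} (h : Bd C f A) (hB : B ⊆ A)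
    (hg : f ≤ g) : Bd C g B := fun T hT p => (h T (hT.trans hB) p).trans hg

theorem Bd.union {C : α → α → Prop} {f g : ℕ} {A B : Finset α} (h : Bd C f A) (h' : Bd C g B) :
    Bd C (f + g) (A ∪ B) := fun T hT p => by
  have h1 := h (T ∩ A) inter_subset_right (p.mono (by simp))
  have h2 := h' (T \ A) (fun x hx => by
    have := hT (mem_sdiff.1 hx).1
    simp only [mem_sdiff, mem_union] at hx this; tauto) (p.mono (by simp))
  have := card_inter_add_card_sdiff T A
  omega

theorem Sp.mono {C N : α → α → Prop} {f g : ℕ} {X Y : Finset α} (h : Sp C N X f) (hY : Y ⊆ X)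
    (hg : f ≤ g) : Sp C N Y g := by
  obtain ⟨A, h1, h2⟩ := h
  exact ⟨A, h1.mono (inter_subset_inter_right hY) hg, h2.mono (sdiff_subset_sdiff hY le_rfl) hg⟩

theorem Sp.union {C N : α → α → Prop} {f g : ℕ} {X Y : Finset α} (h : Sp C N X f)
    (h' : Sp C N Y g) : Sp C N (X ∪ Y) (f + g) := by
  obtain ⟨A, h1, h2⟩ := h
  obtain ⟨B, h3, h4⟩ := h'
  refine ⟨(X ∩ A) ∪ ((Y \ X) ∩ B), (h1.union h3).mono (fun x => ?_) le_rfl,
    (h2.union h4).mono (fun x => ?_) le_rfl⟩ <;>
  simp only [mem_inter, mem_union, mem_sdiff] <;> tauto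

theorem Sp.empty (C N : α → α → Prop) (f : ℕ) : Sp C N ∅ f :=
  ⟨∅, fun T hT _ => by simp at hT; simp [hT], fun T hT _ => by simp at hT; simp [hT]⟩

theorem Bd.sp {C N : α → α → Prop} {f : ℕ} {X : Finset α} (h : Bd C f X) : Sp C N X f :=
  ⟨X, h.mono inter_subset_left le_rfl, fun T hT _ => by simp at hT; simp [hT]⟩

theorem Col.mono {G : α → α → Prop} {f g : ℕ} {X Y : Finset α} (h : Col G X f) (hY : Y ⊆ X)
    (hg : f ≤ g) : Col G Y g := by
  obtain ⟨c, h1, h2⟩ := h
  exact ⟨c, fun x hx => (h1 x (hY hx)).trans_le hg, fun x hx y hy => h2 x (hY hx) y (hY hy)⟩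

theorem Col.union {G : α → α → Prop} {f g : ℕ} {X Y : Finset α} (h : Col G X f)
    (h' : Col G Y g) : Col G (X ∪ Y) (f + g) := by
  obtain ⟨c, h1, h2⟩ := h
  obtain ⟨d, h3, h4⟩ := h'
  refine ⟨fun x => if x ∈ X then c x else f + d x, fun x hx => ?_, fun x hx y hy e => ?_⟩
  · simp only [mem_union] at hx ⊢
    split_ifs with a
    · have := h1 x a; omega
    · have := h3 x (hx.resolve_left a); omega
  · simp only [mem_union] at hx hy
    simp only
    split_ifs with a b b
    · exact h2 x a y b e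
    · have := h1 x a; omega
    · have := h1 y b; omega
    · have := h4 x (hx.resolve_left a) y (hy.resolve_left b) e; omega

theorem fib (P : Finset α → ℕ → Prop) (h0 : P ∅ 0)
    (hU : ∀ X Y a b, P X a → P Y b → P (X ∪ Y) (a + b)) (κ : α → ℕ) (f m : ℕ) (X : Finset α)
    (hm : ∀ x ∈ X, κ x < m) (h : ∀ i, P (X.filter fun x => κ x = i) f) : P X (m * f) := by
  have : ∀ n, P (X.filter fun x => κ x < n) (n * f) := fun n => by
    induction n with
    | zero => simpa using h0
    | succ n ih =>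
      have := hU _ _ _ _ ih (h n)
      rw [← filter_or, ← add_one_mul] at this
      simpa only [Nat.lt_succ_iff_lt_or_eq] using this
  simpa [filter_true_of_mem hm] using this m

theorem Sp.fib {C N : α → α → Prop} (κ : α → ℕ) {f : ℕ} (m : ℕ) {X : Finset α}
    (hm : ∀ x ∈ X, κ x < m) (h : ∀ i, Sp C N (X.filter fun x => κ x = i) f) : Sp C N X (m * f) :=
  H20.Mix.fib (Sp C N) (Sp.empty _ _ _) (fun _ _ _ _ => Sp.union) κ f m X hm h

theorem Col.fib {G : α → α → Prop} (κ : α → ℕ) {f : ℕ} (m : ℕ) {X : Finset α}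
    (hm : ∀ x ∈ X, κ x < m) (h : ∀ i, Col G (X.filter fun x => κ x = i) f) : Col G X (m * f) :=
  H20.Mix.fib (Col G) ⟨fun _ => 0, by simp, by simp⟩ (fun _ _ _ _ => Col.union) κ f m X hm h

theorem Col.side {β : Type} [DecidableEq β] {G : α → α → Prop} (κ : α → β) {f : ℕ} {X : Finset α}
    (hs : ∀ x ∈ X, ∀ y ∈ X, G x y → κ x = κ y) (h : ∀ i, Col G (X.filter fun x => κ x = i) f) :
    Col G X f := by
  choose c h1 h2 using h
  refine ⟨fun x => c (κ x) x, fun x hx => h1 _ x (by simp [hx]), fun x hx y hy e => ?_⟩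
  have := hs x hx y hy e
  simp only [← this]
  exact h2 _ x (by simp [hx]) y (by simp [hy, this]) e

theorem Bd.side {β : Type} [DecidableEq β] {C : α → α → Prop} (κ : α → β) {f : ℕ} {X : Finset α}
    (hs : ∀ x ∈ X, ∀ y ∈ X, C x y → κ x = κ y) (h : ∀ i, Bd C f (X.filter fun x => κ x = i)) :
    Bd C f X := fun T hT p => by
  rcases T.eq_empty_or_nonempty with rfl | ⟨x, hx⟩
  · simp
  refine h (κ x) T (fun y hy => mem_filter.2 ⟨hT hy, ?_⟩) p
  by_cases e : y = x
  · rw [e]
  · exact hs y (hT hy) x (hT hx) (p hy hx e)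

theorem Sp.side {β : Type} [DecidableEq β] {C N : α → α → Prop} (κ : α → β) {f : ℕ} {X : Finset α}
    (hs : ∀ x ∈ X, ∀ y ∈ X, C x y ∨ N x y → κ x = κ y)
    (h : ∀ i, Sp C N (X.filter fun x => κ x = i) f) : Sp C N X f := by
  choose A h1 h2 using h
  refine ⟨X.filter fun x => x ∈ A (κ x), Bd.side κ (fun x hx y hy e => hs x (mem_inter.1 hx).1 y
    (mem_inter.1 hy).1 (.inl e)) fun i => (h1 i).mono (fun x => ?_) le_rfl,
    Bd.side κ (fun x hx y hy e => hs x (mem_sdiff.1 hx).1 y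
    (mem_sdiff.1 hy).1 (.inr e)) fun i => (h2 i).mono (fun x => ?_) le_rfl⟩ <;>
  simp only [mem_inter, mem_filter, mem_sdiff] <;> rintro ⟨h, rfl⟩ <;> tauto

theorem Bd.lift {C C' : α → α → Prop} (irr : ∀ x, ¬ C' x x) (ρ : α → α) {f : ℕ} {X Y : Finset α}
    (h : Bd C' f Y) (hρ : ∀ x ∈ X, ρ x ∈ Y) (hC : ∀ x ∈ X, ∀ y ∈ X, C x y → C' (ρ x) (ρ y)) :
    Bd C f X := fun T hT p => by
  have inj : Set.InjOn ρ T := fun x hx y hy e => by
    by_contra n
    have := hC x (hT hx) y (hT hy) (p hx hy n)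
    rw [e] at this; exact irr _ this
  rw [← card_image_of_injOn inj]
  refine h _ (fun y hy => ?_) fun a ha b hb n => ?_
  · obtain ⟨x, hx, rfl⟩ := mem_image.1 hy; exact hρ x (hT hx)
  · obtain ⟨x, hx, rfl⟩ := mem_image.1 ha
    obtain ⟨y, hy, rfl⟩ := mem_image.1 hb
    exact hC x (hT hx) y (hT hy) (p hx hy fun e => n (by rw [e]))

theorem Sp.lift {C N : α → α → Prop} (iC : ∀ x, ¬ C x x) (iN : ∀ x, ¬ N x x) (ρ : α → α) {f : ℕ}
    {X Y : Finset α} (h : Sp C N Y f) (hρ : ∀ x ∈ X, ρ x ∈ Y)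
    (hC : ∀ x ∈ X, ∀ y ∈ X, C x y → C (ρ x) (ρ y)) (hN : ∀ x ∈ X, ∀ y ∈ X, N x y → N (ρ x) (ρ y)) :
    Sp C N X f := by
  obtain ⟨A, h1, h2⟩ := h
  refine ⟨X.filter fun x => ρ x ∈ A, h1.lift iC ρ (fun x hx => ?_) fun x hx y hy =>
    hC x (mem_inter.1 hx).1 y (mem_inter.1 hy).1, h2.lift iN ρ (fun x hx => ?_) fun x hx y hy =>
    hN x (mem_sdiff.1 hx).1 y (mem_sdiff.1 hy).1⟩ <;>
  simp only [mem_inter, mem_filter, mem_sdiff] at hx ⊢ <;> have := hρ x hx.1 <;> tauto

theorem mirsky (r : α → α → Prop) (X : Finset α) (irr : ∀ x, ¬ r x x)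
    (tr : ∀ x ∈ X, ∀ y ∈ X, ∀ z ∈ X, r x y → r y z → r x z) (f : ℕ)
    (h : Bd (fun a b => r a b ∨ r b a) f X) :
    ∃ c : α → ℕ, (∀ x ∈ X, c x < f) ∧ ∀ x ∈ X, ∀ y ∈ X, r x y → c x < c y := by
  classical
  let F : α → Finset (Finset α) := fun x => X.powerset.filter fun T =>
    (T : Set α).Pairwise (fun a b => r a b ∨ r b a) ∧ ∀ a ∈ T, r a x
  have ex : ∀ x, ∃ T ∈ F x, (F x).sup card = T.card := fun x =>
    exists_mem_eq_sup _ ⟨∅, by simp [F]⟩ _
  have ins : ∀ x ∈ X, ∀ T ∈ F x, insert x T ⊆ X ∧ (insert x T).card = T.card + 1 ∧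
      ((insert x T : Finset α) : Set α).Pairwise (fun a b => r a b ∨ r b a) := by
    intro x hx T hT
    simp only [F, mem_filter, mem_powerset] at hT
    refine ⟨insert_subset hx hT.1, card_insert_of_notMem fun h => irr _ (hT.2.2 x h), ?_⟩
    rw [coe_insert]
    exact hT.2.1.insert fun b hb _ => ⟨.inr (hT.2.2 b hb), .inl (hT.2.2 b hb)⟩
  refine ⟨fun x => (F x).sup card, fun x hx => ?_, fun x hx y hy e => ?_⟩
  · obtain ⟨T, hT, e⟩ := ex x
    obtain ⟨a, b, c⟩ := ins x hx T hT
    have := h _ a c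
    simp only; omega
  · obtain ⟨T, hT, e'⟩ := ex x
    obtain ⟨a, b, c⟩ := ins x hx T hT
    have : insert x T ∈ F y := by
      simp only [F, mem_filter, mem_powerset] at hT ⊢
      refine ⟨a, c, fun z hz => ?_⟩
      rcases mem_insert.1 hz with rfl | hz
      exacts [e, tr z (hT.1 hz) x hx y hy (hT.2.2 z hz) e]
    have := le_sup (f := card) this
    simp only; omega

theorem degen (G : α → α → Prop) (sy : ∀ a b, G a b → G b a) (irr : ∀ x, ¬ G x x) (n : ℕ)
    (X : Finset α) (h : ∀ Z ⊆ X, Z.Nonempty → ∃ v ∈ Z, ∃ D : Finset α, D.card < n ∧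
      ∀ w ∈ Z, G v w → w ∈ D) : Col G X n := by
  induction X using Finset.strongInduction with
  | _ X ih =>
    rcases X.eq_empty_or_nonempty with rfl | hX
    · exact ⟨fun _ => 0, by simp, by simp⟩
    obtain ⟨v, hv, D, hD, hG⟩ := h X le_rfl hX
    obtain ⟨c, h1, h2⟩ := ih (X.erase v) (erase_ssubset hv) fun Z hZ => h Z (hZ.trans (erase_subset _ _))
    obtain ⟨i, hi, hi'⟩ := exists_mem_notMem_of_card_lt_card (s := D.image c) (t := range n)
      (by rw [card_range]; exact card_image_le.trans_lt hD)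
    refine ⟨fun x => if x = v then i else c x, fun x hx => ?_, fun x hx y hy e => ?_⟩
    · simp only; split_ifs with a
      exacts [mem_range.1 hi, h1 x (mem_erase.2 ⟨a, hx⟩)]
    · simp only; split_ifs with a b b
      · subst a b; exact absurd e (irr _)
      · subst a; exact fun e' => hi' (e' ▸ mem_image_of_mem c (hG y hy e))
      · subst b; exact fun e' => hi' (e' ▸ mem_image_of_mem c (hG x hx (sy _ _ e)))
      · exact h2 x (mem_erase.2 ⟨a, hx⟩) y (mem_erase.2 ⟨b, hy⟩) e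

theorem blocks (Φ : Set ℕ → Prop) (h0 : ¬ Φ ∅) :
    ∃ b : ℕ → ℕ, Monotone b ∧ (∀ n, ¬ Φ {m | b m = b n ∧ m < n}) ∧
      ∀ i n, i < b n → Φ {m | b m = i} := by
  classical
  let p : ℕ → ℕ × ℕ := fun n => Nat.rec (0, 0)
    (fun n q => if Φ {m | q.2 ≤ m ∧ m ≤ n} then (q.1 + 1, n + 1) else q) n
  have ps : ∀ n, p (n + 1) = if Φ {m | (p n).2 ≤ m ∧ m ≤ n} then ((p n).1 + 1, n + 1) else p n :=
    fun n => rfl
  have mono : Monotone fun n => (p n).1 := monotone_nat_of_le_succ fun n => by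
    rw [ps]; split_ifs <;> simp
  have inv : ∀ n, (p n).2 ≤ n ∧ ∀ m ≤ n, ((p m).1 = (p n).1 ↔ (p n).2 ≤ m) := fun n => by
    induction n with
    | zero => simp [p]
    | succ n ih =>
      have hs := ps n
      split_ifs at hs
      · refine ⟨by rw [hs], fun m hm => ?_⟩
        rcases hm.lt_or_eq with hm | rfl
        · have := mono (Nat.lt_succ_iff.1 hm)
          rw [hs]; simp only at this ⊢; omega
        · simp [hs]
      · refine ⟨by rw [hs]; omega, fun m hm => ?_⟩
        rcases hm.lt_or_eq with hm | rfl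
        · rw [hs]; exact ih.2 m (Nat.lt_succ_iff.1 hm)
        · simp only [true_iff]; rw [hs]; omega
  refine ⟨fun n => (p n).1, mono, fun n => ?_, fun i n => ?_⟩
  · cases n with
    | zero => simpa using h0
    | succ n =>
      have hs := ps n
      split_ifs at hs with hc
      · convert h0
        ext m
        have := (inv (n + 1)).2 m
        rw [hs] at this
        simp only [hs, Set.mem_ofPred_eq, Set.mem_empty_iff_false, iff_false] at this ⊢
        omega
      · convert hc using 2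
        ext m
        have := (inv n).2 m
        simp only [hs, Set.mem_ofPred_eq]
        omega
  · induction n with
    | zero => simp [p]
    | succ n ih =>
      intro hi
      have hs := ps n
      split_ifs at hs with hc
      · rcases Nat.lt_or_ge i (p n).1 with h | h
        · exact ih h
        · convert hc using 2
          ext m
          have h1 := (inv n).2 m
          have h2 := @mono (n + 1) m
          simp only [hs, Set.mem_ofPred_eq] at hi h2 ⊢
          omega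
      · exact ih (by simpa only [hs] using hi)

theorem ramsey (C N : α → α → Prop) (sC : ∀ a b, C a b → C b a) (sN : ∀ a b, N a b → N b a) :
    ∀ n a b (Y : Finset α), a + b = n → (∀ x ∈ Y, ∀ y ∈ Y, x ≠ y → C x y ∨ N x y) →
      Bd C a Y → Bd N b Y → Y.card < 2 ^ n := by
  classical
  have st : ∀ (C : α → α → Prop), (∀ a b, C a b → C b a) → ∀ a (Y : Finset α) v, v ∈ Y →
      Bd C (a + 1) Y → Bd C a ((Y.erase v).filter (C v)) := by
    intro C sC a Y v hv h T hT p
    have nv : v ∉ T := fun h => by simpa using hT h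
    have := h (insert v T) (insert_subset hv fun x hx =>
      (mem_erase.1 (mem_filter.1 (hT hx)).1).2) (by
        rw [coe_insert]
        exact p.insert fun b hb _ => ⟨(mem_filter.1 (hT hb)).2, sC _ _ (mem_filter.1 (hT hb)).2⟩)
    rw [card_insert_of_notMem nv] at this; omega
  intro n
  induction n with
  | zero =>
    intro a b Y e _ h _
    rcases Y.eq_empty_or_nonempty with rfl | ⟨v, hv⟩
    · simp
    · have := h {v} (by simpa using hv) (by simp); simp at this; omega
  | succ n ih =>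
    intro a b Y e hY h1 h2
    rcases Y.eq_empty_or_nonempty with rfl | ⟨v, hv⟩
    · simp
    have a1 := h1 {v} (by simpa using hv) (by simp)
    have b1 := h2 {v} (by simpa using hv) (by simp)
    rw [card_singleton] at a1 b1
    obtain ⟨a, rfl⟩ := Nat.exists_eq_add_of_le' a1
    obtain ⟨b, rfl⟩ := Nat.exists_eq_add_of_le' b1
    have s : ∀ R : α → Prop, (Y.erase v).filter R ⊆ Y := fun R =>
      (filter_subset _ _).trans (erase_subset _ _)
    have i1 := ih a (b + 1) _ (by omega) (fun x hx y hy => hY x (s _ hx) y (s _ hy))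
      (st C sC a Y v hv h1) (h2.mono (s _) le_rfl)
    have i2 := ih (a + 1) b _ (by omega) (fun x hx y hy => hY x (s _ hx) y (s _ hy))
      (h1.mono (s _) le_rfl) (st N sN b Y v hv h2)
    have : (Y.erase v).card ≤ _ := (card_le_card (t := (Y.erase v).filter (C v) ∪ (Y.erase v).filter (N v))
      fun x hx => by
        have := hY v hv x (mem_erase.1 hx).2 (mem_erase.1 hx).1.symm
        simp only [mem_union, mem_filter]; tauto).trans (card_union_le _ _)
    rw [card_erase_of_mem hv] at this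
    rw [pow_succ]; omega

theorem Bd.wit {C : α → α → Prop} {f : ℕ} {A : Finset α} (h : ¬ Bd C f A) :
    ∃ T ⊆ A, (T : Set α).Pairwise C ∧ T.card = f + 1 := by
  simp only [Bd, not_forall, not_le] at h
  obtain ⟨T, h1, h2, h3⟩ := h
  obtain ⟨T', a, b⟩ := exists_subset_card_eq (Nat.succ_le_of_lt h3)
  exact ⟨T', a.trans h1, h2.mono (by simpa using a), b⟩

theorem tree (k n : ℕ) : ∃ s, ∀ (C N : α → α → Prop) (X A : Finset α), ¬ Sp C N X k →
    ∃ H ⊆ X, H.card ≤ s ∧ ∀ A', Bd C k (H ∩ A') → Bd N k (H \ A') →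
      n ≤ (H.filter fun x => ¬ (x ∈ A ↔ x ∈ A')).card := by
  induction n with
  | zero => exact ⟨0, fun C N X A _ => ⟨∅, by simp, by simp, by simp⟩⟩
  | succ n ih =>
    obtain ⟨s, ih⟩ := ih
    refine ⟨k + 1 + (k + 1) * s, fun C N X A hX => ?_⟩
    choose H h1 h2 h3 using fun v => ih C N X (symmDiff A {v}) hX
    obtain ⟨T, t1, t2, t3⟩ : ∃ T ⊆ X, T.card = k + 1 ∧ ∀ A', Bd C k (T ∩ A') → Bd N k (T \ A') →
        ∃ v ∈ T, ¬ (v ∈ A ↔ v ∈ A') := by
      by_cases hc : Bd C k (X ∩ A)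
      · obtain ⟨T, a, b, c⟩ := Bd.wit fun hn => hX ⟨A, hc, hn⟩
        refine ⟨T, a.trans sdiff_subset, c, fun A' _ q => ?_⟩
        by_contra hn
        push Not at hn
        have := q T (fun x hx => mem_sdiff.2 ⟨hx, fun e => (mem_sdiff.1 (a hx)).2 ((hn x hx).2 e)⟩) b
        omega
      · obtain ⟨T, a, b, c⟩ := Bd.wit hc
        refine ⟨T, a.trans inter_subset_left, c, fun A' q _ => ?_⟩
        by_contra hn
        push Not at hn
        have := q T (fun x hx => mem_inter.2 ⟨hx, (hn x hx).1 (mem_inter.1 (a hx)).2⟩) b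
        omega
    refine ⟨T ∪ T.biUnion H, union_subset t1 (biUnion_subset.2 fun v _ => h1 v), ?_, fun A' p q => ?_⟩
    · refine (card_union_le _ _).trans ?_
      have := card_biUnion_le_card_mul T H s fun v _ => h2 v
      rw [t2] at this ⊢; omega
    · obtain ⟨v, hv, hv'⟩ := t3 A' (p.mono (inter_subset_inter_right subset_union_left) le_rfl)
        (q.mono (sdiff_subset_sdiff subset_union_left le_rfl) le_rfl)
      have sub : H v ⊆ T ∪ T.biUnion H := (subset_biUnion_of_mem H hv).trans subset_union_right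
      have := h3 v A' (p.mono (inter_subset_inter_right sub) le_rfl)
        (q.mono (sdiff_subset_sdiff sub le_rfl) le_rfl)
      have nv : v ∉ (H v).filter fun x => ¬ (x ∈ symmDiff A {v} ↔ x ∈ A') := by
        simp only [mem_filter, mem_symmDiff, mem_singleton]; tauto
      refine le_trans (by rw [card_insert_of_notMem nv]; omega) (card_le_card (s := insert v
        ((H v).filter fun x => ¬ (x ∈ symmDiff A {v} ↔ x ∈ A'))) fun x hx => ?_)
      rcases mem_insert.1 hx with rfl | hx'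
      · exact mem_filter.2 ⟨subset_union_left hv, hv'⟩
      · have ne : x ≠ v := fun e => nv (e ▸ hx')
        simp only [mem_filter, mem_symmDiff, mem_singleton] at hx' ⊢
        exact ⟨sub hx'.1, by tauto⟩

theorem gsplit (k d : ℕ) : ∃ g, ∀ (C N : α → α → Prop) (X : Finset α),
    (∀ Y ⊆ X, Bd C k Y → Bd N k Y → Y.card ≤ d) → (∀ Y ⊆ X, Y.card ≤ g → Sp C N Y k) →
      Sp C N X k := by
  obtain ⟨s, hs⟩ := tree (α := α) k (2 * d + 2)
  refine ⟨s, fun C N X => ?_⟩
  induction X using Finset.induction_on with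
  | empty => exact fun _ _ => Sp.empty _ _ _
  | insert v X hv ih =>
    intro h1 h2
    obtain ⟨A, a1, a2⟩ := ih (fun Y hY => h1 Y (hY.trans (subset_insert _ _)))
      fun Y hY => h2 Y (hY.trans (subset_insert _ _))
    by_contra hn
    obtain ⟨H, b1, b2, b3⟩ := hs C N _ A hn
    obtain ⟨A', c1, c2⟩ := h2 H b1 b2
    have e1 := h1 ((X ∩ A) ∩ (H \ A')) (fun x hx => b1 (mem_sdiff.1 (mem_inter.1 hx).2).1)
      (a1.mono inter_subset_left le_rfl) (c2.mono inter_subset_right le_rfl)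
    have e2 := h1 ((X \ A) ∩ (H ∩ A')) (fun x hx => b1 (mem_inter.1 (mem_inter.1 hx).2).1)
      (c1.mono inter_subset_right le_rfl) (a2.mono inter_subset_left le_rfl)
    have := (b3 A' c1 c2).trans ((card_le_card (t := insert v ((X ∩ A) ∩ (H \ A') ∪ (X \ A) ∩ (H ∩ A')))
      fun x hx => by
        have := b1 (mem_filter.1 hx).1
        simp only [mem_filter, mem_insert, mem_union, mem_inter, mem_sdiff] at hx this ⊢
        tauto).trans (card_insert_le _ _))
    have := card_union_le ((X ∩ A) ∩ (H \ A')) ((X \ A) ∩ (H ∩ A'))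
    omega

end H20.Mix
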