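import Pool.Agent.H20.Mix1

namespace H20.Mix

open Finset

variable {α : Type} [DecidableEq α]

def Has (l t : α → ℕ) (s : ℕ) : ℕ → Finset α → Prop
  | 0, _ => True
  | j + 1, Y => ∃ a, ∃ O ⊆ Y, O.card = s + 1 ∧ (∀ e ∈ O, l e = a) ∧ ∀ e ∈ O, ∀ e' ∈ O, t e < t e' →
      Has l t s j (Y.filter fun z => t e < t z ∧ t z < t e' ∧ l z ≠ a)

theorem Has.mono {l t : α → ℕ} {s : ℕ} : ∀ {j : ℕ} {Y Z : Finset α}, Has l t s j Y → Y ⊆ Z →
    Has l t s j Z
  | 0, _, _, _, _ => trivial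
  | _ + 1, _, _, ⟨a, O, h1, h2, h3, h4⟩, h => ⟨a, O, h1.trans h, h2, h3, fun e he e' he' q =>
      (h4 e he e' he' q).mono (filter_subset_filter _ h)⟩

theorem Has.small (s j : ℕ) : ∃ σ, ∀ (l t : α → ℕ) (Y : Finset α), Has l t s j Y →
    ∃ W ⊆ Y, W.card ≤ σ ∧ Has l t s j W := by
  induction j with
  | zero => exact ⟨0, fun _ _ _ _ => ⟨∅, by simp, by simp, trivial⟩⟩
  | succ j ih =>
    obtain ⟨σ, ih⟩ := ih
    refine ⟨s + 1 + (s + 1) * (s + 1) * σ, fun l t Y ⟨a, O, h1, h2, h3, h4⟩ => ?_⟩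
    have : ∀ q : α × α, ∃ W ⊆ Y.filter fun z => t q.1 < t z ∧ t z < t q.2 ∧ l z ≠ a, W.card ≤ σ ∧
        (q.1 ∈ O → q.2 ∈ O → t q.1 < t q.2 → Has l t s j W) := fun q => by
      by_cases h : q.1 ∈ O ∧ q.2 ∈ O ∧ t q.1 < t q.2
      · obtain ⟨W, a, b, c⟩ := ih l t _ (h4 _ h.1 _ h.2.1 h.2.2)
        exact ⟨W, a, b, fun _ _ _ => c⟩
      · exact ⟨∅, by simp, by simp, fun a b c => absurd ⟨a, b, c⟩ h⟩
    choose W w1 w2 w3 using this
    refine ⟨O ∪ (O ×ˢ O).biUnion W, union_subset h1 (biUnion_subset.2 fun q _ =>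
      (w1 q).trans (filter_subset _ _)), (card_union_le _ _).trans ?_, a, O, subset_union_left, h2, h3,
      fun e he e' he' q => (w3 (e, e') he he' q).mono fun z hz => mem_filter.2 ⟨mem_union_right _
        (mem_biUnion.2 ⟨(e, e'), mem_product.2 ⟨he, he'⟩, hz⟩), (mem_filter.1 (w1 _ hz)).2⟩⟩
    have := card_biUnion_le_card_mul (O ×ˢ O) W σ fun q _ => w2 q
    rw [card_product, h2] at this; omega

def Part (l t : α → ℕ) (X : Finset α) (F : ℕ) : Prop := ∃ κ : α → ℕ, (∀ e ∈ X, κ e < F) ∧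
  ∀ a ∈ X, ∀ b ∈ X, ∀ c ∈ X, κ a = κ b → κ b = κ c → t a < t b → t b < t c → l a = l c → l b = l a

theorem Part.union {l t : α → ℕ} {f g : ℕ} {X Y : Finset α} (h : Part l t X f)
    (h' : Part l t Y g) : Part l t (X ∪ Y) (f + g) := by
  obtain ⟨c, h1, h2⟩ := h
  obtain ⟨d, h3, h4⟩ := h'
  refine ⟨fun x => if x ∈ X then c x else f + d x, fun x hx => ?_, fun x hx y hy z hz e e' => ?_⟩
  · simp only [mem_union] at hx ⊢
    split_ifs with a
    · have := h1 x a; omega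
    · have := h3 x (hx.resolve_left a); omega
  · simp only [mem_union] at hx hy hz e e'
    have a1 := h1 x; have a2 := h1 y; have a3 := h1 z
    by_cases a : x ∈ X <;> by_cases b : y ∈ X <;> by_cases b' : z ∈ X <;>
      simp only [a, b, b', if_true, if_false, true_implies, false_or] at e e' a1 a2 a3 hx hy hz <;>
      first | exact h2 x a y b z b' e e' | exact h4 x hx y hy z hz (by omega) (by omega) | omega

theorem Part.mono {l t : α → ℕ} {f : ℕ} {X Y : Finset α} (h : Part l t X f) (hY : Y ⊆ X) :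
    Part l t Y f := by
  obtain ⟨c, h1, h2⟩ := h
  exact ⟨c, fun x hx => h1 x (hY hx), fun x hx y hy z hz => h2 x (hY hx) y (hY hy) z (hY hz)⟩

theorem same {l : α → ℕ} {r : α → α → Prop} (hr : ∀ a b, r a b → l a = l b) {T : Finset α}
    (p : (T : Set α).Pairwise fun a b => r a b ∨ r b a) : ∃ a, ∀ e ∈ T, l e = a := by
  rcases T.eq_empty_or_nonempty with rfl | ⟨x, hx⟩
  · simp
  refine ⟨l x, fun e he => ?_⟩
  by_cases q : e = x
  · rw [q]
  · exact (p he hx q).elim (hr _ _) fun h => (hr _ _ h).symm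

theorem cut (s j : ℕ) : ∃ F, ∀ (l t : α → ℕ) (X : Finset α), Set.InjOn t X →
    ¬ Has l t s (j + 1) X → Part l t X F := by
  classical
  induction j with
  | zero =>
    refine ⟨s, fun l t X _ h => ?_⟩
    obtain ⟨c, h1, h2⟩ := mirsky (fun e e' => l e = l e' ∧ t e < t e') X (by simp)
      (fun x _ y _ z _ a b => ⟨a.1.trans b.1, a.2.trans b.2⟩) s (by
        by_contra hn
        obtain ⟨T, a, b, c⟩ := Bd.wit hn
        obtain ⟨x, hx⟩ := same (l := l) (fun _ _ h => h.1) b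
        exact h ⟨x, T, a, c, hx, fun _ _ _ _ _ => trivial⟩)
    refine ⟨c, h1, fun x hx y _ z hz e e' p q u => ?_⟩
    have := h2 x hx z hz ⟨u, p.trans q⟩
    omega
  | succ j ih =>
    obtain ⟨F, ih⟩ := ih
    obtain ⟨σ, hσ⟩ := Has.small (α := α) s (j + 1)
    refine ⟨s * (F + 1 + (F + 1) + (σ + 1)), fun l t X inj h => ?_⟩
    obtain ⟨b, bm, b1, b2⟩ := blocks (fun S => Has l t s (j + 1) (X.filter fun e => t e ∈ S)) (by
      rintro ⟨a, O, h1, h2, -⟩
      simp at h1; simp [h1] at h2)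
    have bl : ∀ {m n}, b m < b n → m < n := fun h => bm.reflect_lt h
    let r : α → α → Prop := fun e e' => l e = l e' ∧ ∃ i, b (t e) < i ∧ i < b (t e') ∧
      Has l t s (j + 1) (X.filter fun z => b (t z) = i ∧ l z ≠ l e)
    obtain ⟨μ, m1, m2⟩ := mirsky r X (fun x ⟨_, i, p, q, _⟩ => by omega)
      (fun x _ y _ z _ ⟨p, i, p1, p2, p3⟩ ⟨q, i', q1, q2, _⟩ => ⟨p.trans q, i, p1, by omega, p3⟩) s (by
        by_contra hn
        obtain ⟨T, a, p, c⟩ := Bd.wit hn
        obtain ⟨x, hx⟩ := same (l := l) (fun _ _ h => h.1) p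
        refine h ⟨x, T, a, c, hx, fun e he e' he' q => ?_⟩
        rcases p he he' (fun u => by rw [u] at q; omega) with ⟨-, i, p1, p2, p3⟩ | ⟨-, i, p1, p2, -⟩
        · refine p3.mono fun z hz => ?_
          simp only [mem_filter] at hz ⊢
          exact ⟨hz.1, bl (by omega), bl (by omega), hx e he ▸ hz.2.2⟩
        · have := bm q.le; omega)
    refine fib (Part l t) ⟨fun _ => 0, by simp, by simp⟩ (fun _ _ _ _ => Part.union) μ _ s X m1
      fun i₀ => ?_
    set Y := X.filter fun x => μ x = i₀ with hY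
    have YX : Y ⊆ X := filter_subset _ _
    have nr : ∀ e ∈ Y, ∀ e' ∈ Y, ¬ r e e' := fun e he e' he' q => by
      have := m2 e (YX he) e' (YX he') q
      have := (mem_filter.1 he).2; have := (mem_filter.1 he').2; omega
    have one : ∀ Z ⊆ X, (∀ e ∈ Z, ∀ e' ∈ Z, l e = l e' → b (t e) = b (t e')) → Part l t Z (F + 1) := by
      intro Z ZX hZ
      have : ∀ i, Part l t (Z.filter fun e => b (t e) = i) (F + 1) := fun i => by
        rcases (Z.filter fun e => b (t e) = i).eq_empty_or_nonempty with q | q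
        · rw [q]; exact ⟨fun _ => 0, by simp, by simp⟩
        obtain ⟨e, he, hm⟩ := exists_max_image _ t q
        refine ((ih l t _ (inj.mono fun z hz => by simp only [coe_filter] at hz; exact hz.1) (b1 (t e))).union (Y := {e})
          ⟨fun _ => 0, by simp, by simp⟩).mono fun z hz => ?_
        have := hm z hz
        simp only [mem_filter, mem_union, mem_singleton, Set.mem_ofPred_eq] at hz he ⊢
        rcases this.lt_or_eq with u | u
        · exact .inl ⟨ZX hz.1, by omega, u⟩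
        · exact .inr (inj (ZX hz.1) (ZX he.1) u)
      choose κ k1 k2 using this
      refine ⟨fun e => κ (b (t e)) e, fun e he => k1 _ e (by simp [he]),
        fun x hx y hy z hz e e' p q u => ?_⟩
      have a1 := hZ x hx z hz u
      have a2 := bm p.le; have a3 := bm q.le
      have a4 : b (t y) = b (t x) := by omega
      simp only [a4, ← a1] at e e'
      exact k2 _ x (by simp [hx]) y (by simp [hy, a4]) z (by simp [hz, a1]) e e' p q u
    set M := Y.filter fun e => (∃ u ∈ Y, l u = l e ∧ b (t u) < b (t e)) ∧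
      ∃ u ∈ Y, l u = l e ∧ b (t e) < b (t u) with hM
    let In : ℕ → ℕ → Prop := fun a i => ∃ e ∈ M, ∃ e' ∈ M, l e = a ∧ l e' = a ∧ b (t e) ≤ i ∧ i ≤ b (t e')
    have dep : ∀ e ∈ M, ∃ D : Finset ℕ, D.card < σ + 1 ∧ ∀ a, In a (b (t e)) → a ∈ D := by
      intro e he
      obtain ⟨-, -, u, -, -, hu⟩ := mem_filter.1 he
      obtain ⟨W, w1, w2, w3⟩ := hσ l t _ (b2 _ _ hu)
      refine ⟨W.image l, card_image_le.trans_lt (by omega), fun a ⟨x, hx, y, hy, p1, p2, p3, p4⟩ => ?_⟩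
      obtain ⟨-, ⟨v, hv, v1, v2⟩, -⟩ := mem_filter.1 hx
      obtain ⟨-, -, w, hw, u1, u2⟩ := mem_filter.1 hy
      by_contra hn
      refine nr v hv w hw ⟨by omega, b (t e), by omega, by omega, w3.mono fun z hz => ?_⟩
      have := w1 hz
      simp only [mem_filter, Set.mem_ofPred_eq] at this ⊢
      exact ⟨this.1, this.2, fun q => hn (mem_image.2 ⟨z, hz, by omega⟩)⟩
    obtain ⟨c, c1, c2⟩ := degen (fun a a' => a ≠ a' ∧ ∃ i, In a i ∧ In a' i)
      (fun a a' ⟨p, i, q1, q2⟩ => ⟨p.symm, i, q2, q1⟩) (fun a p => p.1 rfl) (σ + 1) (M.image l) (by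
        intro Z hZ ⟨a, ha⟩
        have fst : ∀ a ∈ Z, ∃ e ∈ M.filter fun e => l e ∈ Z ∧ ∀ e' ∈ M, l e' = l e → b (t e) ≤ b (t e'),
            l e = a := fun a ha => by
          obtain ⟨x, hx, rfl⟩ := mem_image.1 (hZ ha)
          obtain ⟨e, he, hm⟩ := exists_min_image (M.filter fun e => l e = l x) (fun e => b (t e))
            ⟨x, mem_filter.2 ⟨hx, rfl⟩⟩
          obtain ⟨e1, e2⟩ := mem_filter.1 he
          exact ⟨e, mem_filter.2 ⟨e1, e2 ▸ ha, fun e' he' q => hm e' (mem_filter.2 ⟨he', q.trans e2⟩)⟩, e2⟩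
        obtain ⟨x, hx, -⟩ := fst a ha
        obtain ⟨e, he, hm⟩ := exists_max_image _ (fun e => b (t e)) ⟨x, hx⟩
        obtain ⟨e1, e2, e3⟩ := mem_filter.1 he
        obtain ⟨D, d1, d2⟩ := dep e e1
        refine ⟨l e, e2, D, d1, fun w hw ⟨_, i, ⟨x1, p1, _, _, p2, _, p3, _⟩, _, _, y2, q1, _, q2, _, q3⟩ => ?_⟩
        obtain ⟨z, hz, hz'⟩ := fst w hw
        have := e3 x1 p1 p2
        exact d2 w ⟨z, (mem_filter.1 hz).1, y2, q1, hz', q2, hm z hz, by omega⟩)
    have pm : Part l t M (σ + 1) := by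
      refine ⟨fun e => c (l e), fun e he => c1 _ (mem_image_of_mem l he),
        fun x hx y hy z hz e _ p q u => ?_⟩
      by_contra hn
      exact c2 _ (mem_image_of_mem l hx) _ (mem_image_of_mem l hy) ⟨fun q => hn q.symm, b (t y),
        ⟨x, hx, z, hz, rfl, u.symm, bm p.le, bm q.le⟩, y, hy, y, hy, rfl, rfl, le_rfl, le_rfl⟩ e
    refine (((one (Y.filter fun e => ∀ u ∈ Y, l u = l e → b (t e) ≤ b (t u))
      ((filter_subset _ _).trans YX) fun e he e' he' q => ?_).union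
      (one (Y.filter fun e => ∀ u ∈ Y, l u = l e → b (t u) ≤ b (t e))
      ((filter_subset _ _).trans YX) fun e he e' he' q => ?_)).union pm).mono fun e he => ?_
    · exact le_antisymm ((mem_filter.1 he).2 e' (mem_filter.1 he').1 q.symm)
        ((mem_filter.1 he').2 e (mem_filter.1 he).1 q)
    · exact le_antisymm ((mem_filter.1 he').2 e (mem_filter.1 he).1 q)
        ((mem_filter.1 he).2 e' (mem_filter.1 he').1 q.symm)
    · by_cases q1 : ∀ u ∈ Y, l u = l e → b (t e) ≤ b (t u)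
      · exact mem_union_left _ (mem_union_left _ (mem_filter.2 ⟨he, q1⟩))
      by_cases q2 : ∀ u ∈ Y, l u = l e → b (t u) ≤ b (t e)
      · exact mem_union_left _ (mem_union_right _ (mem_filter.2 ⟨he, q2⟩))
      push Not at q1 q2
      exact mem_union_right _ (mem_filter.2 ⟨he, q1, q2⟩)

def Lay (C N : α → α → Prop) (Y : Finset α) (k : ℕ) : Prop := ∃ c : α → ℕ, (∀ e ∈ Y, c e < k) ∧
  ∀ i, (∀ e ∈ Y, ∀ e' ∈ Y, c e = i → c e' = i → ¬ C e e') ∨
    ∀ e ∈ Y, ∀ e' ∈ Y, c e = i → c e' = i → ¬ N e e'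

theorem Lay.sp {C N : α → α → Prop} {Y : Finset α} {k : ℕ} (h : Lay C N Y k) : Sp C N Y k := by
  classical
  obtain ⟨c, h1, h2⟩ := h
  have key : ∀ (R : α → α → Prop) (Z : Finset α), Z ⊆ Y →
      (∀ e ∈ Z, ∀ e' ∈ Z, c e = c e' → ¬ R e e') → Bd R k Z := fun R Z hZ h T hT p => by
    rw [← card_range k]
    refine card_le_card_of_injOn c (fun x hx => by simpa using h1 x (hZ (hT hx))) fun x hx y hy e => ?_
    by_contra n
    exact h x (hT hx) y (hT hy) e (p hx hy n)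
  refine ⟨Y.filter fun x => ∀ e ∈ Y, ∀ e' ∈ Y, c e = c x → c e' = c x → ¬ C e e',
    key _ _ inter_subset_left fun e he e' he' q => ?_, key _ _ sdiff_subset fun e he e' he' q => ?_⟩
  · exact (mem_filter.1 (mem_inter.1 he).2).2 e (mem_inter.1 he).1 e' (mem_inter.1 he').1 rfl q.symm
  · obtain ⟨a, b⟩ := mem_sdiff.1 he
    exact (h2 (c e)).resolve_left (fun u => b (mem_filter.2 ⟨a, u⟩)) e a e' (mem_sdiff.1 he').1 rfl q.symm

def Inc (x y : α → ℕ) (e e' : α) : Prop := (x e < x e' ∧ y e < y e') ∨ (x e' < x e ∧ y e' < y e)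

def Dec (x y : α → ℕ) (e e' : α) : Prop := (x e < x e' ∧ y e' < y e) ∨ (x e' < x e ∧ y e < y e')

theorem has_lay {x y t : α → ℕ} {k : ℕ} (c : α → ℕ) : ∀ (j : ℕ) (W : Finset α),
    (∀ e ∈ W, ∀ e' ∈ W, x e = x e' → y e = y e' → e = e') →
    (∀ e ∈ W, ∀ e' ∈ W, t e < t e' → x e ≤ x e') → Set.InjOn t W →
    (∀ i, (∀ e ∈ W, ∀ e' ∈ W, c e = i → c e' = i → ¬ Inc x y e e') ∨
      ∀ e ∈ W, ∀ e' ∈ W, c e = i → c e' = i → ¬ Dec x y e e') →
    (W.image c).card ≤ k → Has y t (3 * k) j W → j ≤ (W.image c).card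
  | 0, _, _, _, _, _, _, _ => Nat.zero_le _
  | j + 1, W, h1, h2, h3, h4, h5, ⟨a, O, o1, o2, o3, o4⟩ => by
    obtain ⟨i, hi, hc⟩ := exists_lt_card_fiber_of_mul_lt_card_of_maps_to (s := O) (t := W.image c)
      (f := c) (n := 3) (fun e he => mem_image_of_mem c (o1 he)) (by omega)
    set F := O.filter fun e => c e = i with hF
    obtain ⟨p, hp, pm⟩ := exists_min_image F t (card_pos.1 (by omega))
    obtain ⟨q, hq, qm⟩ := exists_max_image F t (card_pos.1 (by omega))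
    obtain ⟨u, hu, v, hv, uv⟩ : ∃ u ∈ (F.erase p).erase q, ∃ v ∈ (F.erase p).erase q, t u < t v := by
      obtain ⟨u, hu, v, hv, n⟩ := one_lt_card.1 (show 1 < ((F.erase p).erase q).card by
        have := pred_card_le_card_erase (s := F) (a := p)
        have := pred_card_le_card_erase (s := F.erase p) (a := q)
        omega)
      have s : (F.erase p).erase q ⊆ W :=
        (erase_subset _ _).trans ((erase_subset _ _).trans ((filter_subset _ _).trans o1))
      rcases lt_or_gt_of_ne fun e => n (h3 (s hu) (s hv) e) with h | h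
      exacts [⟨u, hu, v, hv, h⟩, ⟨v, hv, u, hu, h⟩]
    simp only [mem_erase] at hu hv
    have s : ∀ {e}, e ∈ F → e ∈ O := fun h => (mem_filter.1 h).1
    have lt : ∀ e ∈ F, ∀ e' ∈ F, t e ≤ t e' → e ≠ e' → x e < x e' := fun e he e' he' p n =>
      lt_of_le_of_ne (h2 e (o1 (s he)) e' (o1 (s he'))
        (lt_of_le_of_ne p fun u => n (h3 (o1 (s he)) (o1 (s he')) u))) fun u =>
        n (h1 e (o1 (s he)) e' (o1 (s he')) u ((o3 e (s he)).trans (o3 e' (s he')).symm))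
    have a1 := lt p hp u hu.2.2 (pm u hu.2.2) hu.2.1.symm
    have a2 := lt v hv.2.2 q hq (qm v hv.2.2) hv.1
    set W' := W.filter fun z => t u < t z ∧ t z < t v ∧ y z ≠ a with hW'
    have sub : W' ⊆ W := filter_subset _ _
    have ih := has_lay c j W' (fun e he e' he' => h1 e (sub he) e' (sub he'))
      (fun e he e' he' => h2 e (sub he) e' (sub he')) (h3.mono (coe_subset.2 sub))
      (fun i => (h4 i).imp (fun h e he e' he' => h e (sub he) e' (sub he'))
        fun h e he e' he' => h e (sub he) e' (sub he'))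
      ((card_le_card (image_subset_image sub)).trans h5) (o4 u (s hu.2.2) v (s hv.2.2) uv)
    refine Nat.succ_le_of_lt (ih.trans_lt (card_lt_card ⟨image_subset_image sub, fun hn => ?_⟩))
    obtain ⟨z, hz, hz'⟩ := mem_image.1 (hn hi)
    obtain ⟨z1, z2, z3, z4⟩ := mem_filter.1 hz
    have b1 := h2 u (o1 (s hu.2.2)) z z1 z2
    have b2 := h2 z z1 v (o1 (s hv.2.2)) z3
    have b3 := o3 p (s hp)
    have b4 := o3 q (s hq)
    rcases h4 i with h | h <;>
    · have c1 := h p (o1 (s hp)) z z1 (mem_filter.1 hp).2 hz'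
      have c2 := h z z1 q (o1 (s hq)) hz' (mem_filter.1 hq).2
      simp only [Inc, Dec] at c1 c2
      omega

theorem step (k : ℕ) : ∃ g F, ∀ (x y : α → ℕ) (X : Finset α) (f : ℕ),
    (∀ e ∈ X, ∀ e' ∈ X, x e = x e' → y e = y e' → e = e') →
    (∀ Y ⊆ X, Y.card ≤ g → Lay (Inc x y) (Dec x y) Y k) →
    (∀ Y ⊆ X, Set.InjOn y Y → Sp (Inc x y) (Dec x y) Y f) → Sp (Inc x y) (Dec x y) X (F * (f + f)) := by
  classical
  obtain ⟨σ, hσ⟩ := Has.small (α := α) (3 * k) (k + 1)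
  obtain ⟨F, hF⟩ := cut (α := α) (3 * k) k
  refine ⟨σ, F, fun x y X f h1 h2 h3 => ?_⟩
  obtain ⟨t, t1, t2⟩ : ∃ t : α → ℕ, Set.InjOn t X ∧ ∀ e ∈ X, ∀ e' ∈ X, t e < t e' → x e ≤ x e' := by
    have hM : ∀ e ∈ X, y e < X.sup y + 1 := fun e he => Nat.lt_succ_of_le (le_sup he)
    have : ∀ e ∈ X, ∀ e' ∈ X, x e * (X.sup y + 1) + y e ≤ x e' * (X.sup y + 1) + y e' → x e ≤ x e' :=
      fun e he e' he' h => by
        by_contra hn
        have := hM e' he'
        have := Nat.mul_le_mul_right (X.sup y + 1) (Nat.succ_le_of_lt (not_le.1 hn))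
        rw [Nat.succ_mul] at this; omega
    refine ⟨fun e => x e * (X.sup y + 1) + y e, fun e he e' he' h => ?_, fun e he e' he' h =>
      this e he e' he' h.le⟩
    have q := le_antisymm (this e he e' he' h.le) (this e' he' e he h.ge)
    simp only [q] at h
    exact h1 e he e' he' q (by omega)
  obtain ⟨κ, k1, k2⟩ := hF y t X t1 fun hn => by
    obtain ⟨W, w1, w2, w3⟩ := hσ y t X hn
    obtain ⟨c, c1, c2⟩ := h2 W w1 w2
    have a : (W.image c).card ≤ k := by
      rw [← card_range k]; exact card_le_card fun i hi => by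
        obtain ⟨e, he, rfl⟩ := mem_image.1 hi; exact mem_range.2 (c1 e he)
    have := has_lay c _ W (fun e he e' he' => h1 e (w1 he) e' (w1 he'))
      (fun e he e' he' => t2 e (w1 he) e' (w1 he')) (t1.mono (coe_subset.2 w1)) c2 a w3
    omega
  refine Sp.fib κ F k1 fun i => ?_
  set Y := X.filter fun e => κ e = i with hY
  have YX : Y ⊆ X := filter_subset _ _
  have k3 : ∀ a ∈ Y, ∀ b ∈ Y, ∀ c ∈ Y, t a < t b → t b < t c → y a = y c → y b = y a :=
    fun a ha b hb c hc => k2 a (YX ha) b (YX hb) c (YX hc)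
      ((mem_filter.1 ha).2.trans (mem_filter.1 hb).2.symm)
      ((mem_filter.1 hb).2.trans (mem_filter.1 hc).2.symm)
  set M := Y.filter fun e => ∃ u ∈ Y, y u = y e ∧ t e < t u with hM
  have MY : M ⊆ Y := filter_subset _ _
  have key : ∀ a ∈ M, ∀ b ∈ M, ∀ a' ∈ M, ∀ b' ∈ M, y a = y a' → y b = y b' → y a ≠ y b →
      x a < x b → x a' < x b' := by
    intro a ha b hb a' ha' b' hb' e1 e2 n p
    obtain ⟨-, u, hu, u1, u2⟩ := mem_filter.1 ha'
    have tl : t a < t b := by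
      by_contra hn
      rcases (not_lt.1 hn).lt_or_eq with q | q
      · have := t2 b (YX (MY hb)) a (YX (MY ha)) q; omega
      · exact n (by rw [t1 (YX (MY hb)) (YX (MY ha)) q])
    have a1 : x a' < x u := lt_of_le_of_ne (t2 _ (YX (MY ha')) _ (YX hu) u2) fun q => by
      rw [h1 _ (YX (MY ha')) _ (YX hu) q u1.symm] at u2; omega
    refine a1.trans_le (t2 _ (YX hu) _ (YX (MY hb')) ?_)
    by_contra hn
    have n1 : t b' ≠ t u := fun q => by
      have := t1 (YX (MY hb')) (YX hu) q; subst this; omega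
    have n2 : t b' ≠ t a := fun q => by
      have := t1 (YX (MY hb')) (YX (MY ha)) q; subst this; omega
    have := k3 a (MY ha) b' (MY hb') u hu
    have := k3 b' (MY hb') a (MY ha) b (MY hb)
    omega
  have ex : ∀ e, ∃ e', e ∈ M → e' ∈ M ∧ y e' = y e ∧ ∀ u ∈ M, y u = y e → t e' ≤ t u := fun e => by
    by_cases he : e ∈ M
    · obtain ⟨u, hu, hm⟩ := exists_min_image (M.filter fun u => y u = y e) t ⟨e, mem_filter.2 ⟨he, rfl⟩⟩
      exact ⟨u, fun _ => ⟨(mem_filter.1 hu).1, (mem_filter.1 hu).2, fun v hv q =>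
        hm v (mem_filter.2 ⟨hv, q⟩)⟩⟩
    · exact ⟨e, fun h => absurd h he⟩
  choose ρ hρ using ex
  have s1 := h3 (M.image ρ) (fun e he => by
      obtain ⟨u, hu, rfl⟩ := mem_image.1 he; exact YX (MY (hρ u hu).1)) fun a ha b hb q => by
    obtain ⟨u, hu, rfl⟩ := mem_image.1 ha
    obtain ⟨v, hv, rfl⟩ := mem_image.1 hb
    obtain ⟨u1, u2, u3⟩ := hρ u hu
    obtain ⟨v1, v2, v3⟩ := hρ v hv
    exact t1 (YX (MY u1)) (YX (MY v1)) (le_antisymm (u3 _ v1 (by omega)) (v3 _ u1 (by omega)))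
  have s2 := h3 (Y \ M) (sdiff_subset.trans YX) fun a ha b hb q => by
    obtain ⟨a1, a2⟩ := mem_sdiff.1 ha
    obtain ⟨b1, b2⟩ := mem_sdiff.1 hb
    refine t1 (YX a1) (YX b1) (le_antisymm ?_ ?_) <;> by_contra hn
    · exact b2 (mem_filter.2 ⟨b1, a, a1, q, not_le.1 hn⟩)
    · exact a2 (mem_filter.2 ⟨a1, b, b1, q.symm, not_le.1 hn⟩)
  refine ((s1.lift (X := M) (by simp [Inc]) (by simp [Dec]) ρ (fun e he => mem_image_of_mem ρ he)
    (fun a ha b hb p => ?_) fun a ha b hb p => ?_).union s2).mono (fun e he => by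
      simp only [mem_union, mem_sdiff]; tauto) le_rfl <;>
  · obtain ⟨u1, u2, -⟩ := hρ a ha
    obtain ⟨v1, v2, -⟩ := hρ b hb
    have := key a ha b hb _ u1 _ v1 u2.symm v2.symm
    have := key b hb a ha _ v1 _ u1 v2.symm u2.symm
    simp only [Inc, Dec] at p ⊢
    omega

theorem grid (k : ℕ) : ∃ g f, ∀ (x y : α → ℕ) (X : Finset α),
    (∀ e ∈ X, ∀ e' ∈ X, x e = x e' → y e = y e' → e = e') →
    (∀ Y ⊆ X, Y.card ≤ g → Lay (Inc x y) (Dec x y) Y k) → Sp (Inc x y) (Dec x y) X f := by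
  obtain ⟨g, F, h⟩ := step (α := α) k
  have sw1 : ∀ x y : α → ℕ, Inc x y = Inc y x := fun x y => by
    ext a b; simp only [Inc]; tauto
  have sw2 : ∀ x y : α → ℕ, Dec x y = Dec y x := fun x y => by
    ext a b; simp only [Dec]; tauto
  obtain ⟨g', h'⟩ := gsplit (α := α) k (2 ^ (k + k))
  refine ⟨max g g', F * (F * (k + k) + F * (k + k)), fun x y X h1 h2 => h x y X _ h1
    (fun Y hY q => h2 Y hY (q.trans (le_max_left _ _))) fun Y hY iy => ?_⟩
  rw [sw1, sw2]
  refine h y x Y _ (fun e he e' he' p _ => iy he he' p) (fun Z hZ q => ?_) fun Z hZ ix => ?_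
  · rw [sw1, sw2]; exact h2 Z (hZ.trans hY) (q.trans (le_max_left _ _))
  refine h' _ _ Z (fun W hW p q => (ramsey _ _ (fun a b => Or.symm) (fun a b => Or.symm) _ k k W rfl
    (fun a ha b hb n => ?_) p q).le) fun W hW q => ?_
  · have a1 : x a ≠ x b := fun e => n (ix (hW ha) (hW hb) e)
    have a2 : y a ≠ y b := fun e => n (iy (hZ (hW ha)) (hZ (hW hb)) e)
    omega
  · rw [sw1, sw2]; exact (h2 W (hW.trans (hZ.trans hY)) (q.trans (le_max_right _ _))).sp

end H20.Mix
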