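import Pool.Agent.H20.Mix2

namespace H20.Mix

open Finset

variable {α : Type} [DecidableEq α]

theorem level {β : Type} [LinearOrder β] (X : Finset α) (G : α → α → Prop)
    (sy : ∀ a b, G a b → G b a) (key : α → β) : ∃ (root : α → α) (d : α → ℕ),
    (∀ x ∈ X, ∀ y ∈ X, G x y → root x = root y ∧ d y ≤ d x + 1) ∧
    (∀ x ∈ X, key (root x) ≤ key x ∧ root x ∈ X) ∧ (∀ x ∈ X, d x = 0 → x = root x) ∧
    ∀ x ∈ X, ∀ m, d x = m + 1 → ∃ y ∈ X, G y x ∧ d y = m := by
  classical
  let H : α → α → Prop := fun a b => a ∈ X ∧ b ∈ X ∧ G a b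
  let R : ℕ → α → α → Prop := fun n a => Nat.rec (fun b => a = b) (fun _ P b => ∃ c, P c ∧ H c b) n
  have hR : ∀ a b, Relation.ReflTransGen H a b → ∃ n, R n a b := fun a b h => by
    induction h with
    | refl => exact ⟨0, rfl⟩
    | tail _ h ih => obtain ⟨n, ih⟩ := ih; exact ⟨n + 1, _, ih, h⟩
  have sH : ∀ a b, Relation.ReflTransGen H a b → Relation.ReflTransGen H b a := fun a b h => by
    induction h with
    | refl => exact .refl
    | tail _ h ih => exact .head ⟨h.2.1, h.1, sy _ _ h.2.2⟩ ih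
  have ex : ∀ (S : Finset α), ∃ o : Option α, S.Nonempty → ∃ v ∈ S, o = some v ∧ ∀ w ∈ S, key v ≤ key w :=
    fun S => by
      by_cases h : S.Nonempty
      · obtain ⟨v, a, b⟩ := exists_min_image S key h
        exact ⟨some v, fun _ => ⟨v, a, rfl, b⟩⟩
      · exact ⟨none, fun q => absurd q h⟩
  choose o ho using ex
  let K : α → Finset α := fun x => X.filter fun y => Relation.ReflTransGen H y x
  let root : α → α := fun x => (o (K x)).getD x
  have hr : ∀ x ∈ X, root x ∈ K x ∧ ∀ w ∈ K x, key (root x) ≤ key w := fun x hx => by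
    obtain ⟨v, a, b, c⟩ := ho (K x) ⟨x, mem_filter.2 ⟨hx, .refl⟩⟩
    simp only [root, b, Option.getD_some]; exact ⟨a, c⟩
  have eq : ∀ x y, H x y → root x = root y := fun x y h => by
    have : K x = K y := filter_congr fun z _ => ⟨fun q => q.tail h, fun q => q.tail ⟨h.2.1, h.1, sy _ _ h.2.2⟩⟩
    obtain ⟨v, a, b, c⟩ := ho (K y) ⟨y, mem_filter.2 ⟨h.2.1, .refl⟩⟩
    simp only [root, this, b, Option.getD_some]
  let d : α → ℕ := fun x => sInf {n | R n (root x) x}
  have hd : ∀ x ∈ X, R (d x) (root x) x := fun x hx =>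
    Nat.sInf_mem (s := {n | R n (root x) x}) (hR _ _ (mem_filter.1 (hr x hx).1).2)
  have le : ∀ x y, H x y → d y ≤ d x + 1 := fun x y h =>
    Nat.sInf_le ⟨x, eq x y h ▸ hd x h.1, h⟩
  refine ⟨root, d, fun x hx y hy h => ⟨eq x y ⟨hx, hy, h⟩, le x y ⟨hx, hy, h⟩⟩, fun x hx =>
    ⟨(hr x hx).2 x (mem_filter.2 ⟨hx, .refl⟩), (mem_filter.1 (hr x hx).1).1⟩, fun x hx h => ?_,
    fun x hx m h => ?_⟩
  · have := hd x hx; rw [h] at this; exact this.symm
  · have := hd x hx
    rw [h] at this
    obtain ⟨c, h1, h2⟩ := this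
    have a : d c ≤ m := Nat.sInf_le (by rw [← eq c x h2] at h1; exact h1)
    have := le c x h2
    exact ⟨c, h2.1, h2.2.2, by omega⟩

theorem outer (s e : α → ℕ) (Y : Finset α) (h1 : ∀ x ∈ Y, s x < e x)
    (h2 : ∀ x ∈ Y, ∀ y ∈ Y, ¬ (s x < s y ∧ s y < e x ∧ e x < e y)) :
    Col (fun x y => e x = s y ∨ e y = s x) Y 3 := by
  classical
  obtain ⟨c, c1, c2⟩ := degen (fun p q => ∃ x ∈ Y, (s x = p ∧ e x = q) ∨ (s x = q ∧ e x = p))
    (fun p q ⟨x, a, b⟩ => ⟨x, a, b.symm⟩) (fun p ⟨x, a, b⟩ => by have := h1 x a; omega) 3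
    (Y.image s ∪ Y.image e) (by
      intro Z _ ⟨v₀, hv₀⟩
      obtain ⟨v, hv, h⟩ : ∃ v ∈ Z, ∀ y ∈ Y, s y ∈ Z → e y ∈ Z → s y = v ∨ e y = v →
          ∀ u ∈ Z, ¬ (s y < u ∧ u < e y) := by
        rcases (Y.filter fun x => s x ∈ Z ∧ e x ∈ Z ∧ ∃ u ∈ Z, s x < u ∧ u < e x).eq_empty_or_nonempty
          with q | q
        · exact ⟨v₀, hv₀, fun y hy a b _ u hu p => by
            have : y ∈ (∅ : Finset α) := q ▸ mem_filter.2 ⟨hy, a, b, u, hu, p⟩
            simp at this⟩
        · obtain ⟨x, hx, hm⟩ := exists_min_image _ (fun x => e x - s x) q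
          obtain ⟨x1, -, -, v, hv, x2⟩ := mem_filter.1 hx
          refine ⟨v, hv, fun y hy a b p u hu p' => ?_⟩
          have := hm y (mem_filter.2 ⟨hy, a, b, u, hu, p'⟩)
          have := h2 x x1 y hy
          have := h2 y hy x x1
          omega
      refine ⟨v, hv, Z.filter fun w => w ≠ v ∧ ∀ u ∈ Z, ¬ (v < u ∧ u < w) ∧ ¬ (w < u ∧ u < v), ?_,
        fun w hw ⟨y, hy, p⟩ => ?_⟩
      · refine (card_le_card_of_injOn (t := (univ : Finset Bool)) (fun w => decide (w < v))
          (fun _ _ => mem_coe.2 (mem_univ _)) fun a ha b hb q => ?_).trans_lt (by simp)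
        obtain ⟨a1, a2, a3⟩ := mem_filter.1 ha
        obtain ⟨b1, b2, b3⟩ := mem_filter.1 hb
        have := a3 b b1; have := b3 a a1
        simp only [decide_eq_decide] at q
        omega
      · have := h1 y hy
        have q := h y hy (by rcases p with p | p <;> simp [p.1, hv, hw])
          (by rcases p with p | p <;> simp [p.2, hv, hw]) (by omega)
        exact mem_filter.2 ⟨hw, by omega, fun u hu => by have := q u hu; omega⟩)
  refine ⟨fun x => c (s x), fun x hx => c1 _ (mem_union_left _ (mem_image_of_mem s hx)),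
    fun x hx y hy p => c2 _ (mem_union_left _ (mem_image_of_mem s hx)) _
      (mem_union_left _ (mem_image_of_mem s hy)) ?_⟩
  rcases p with p | p
  exacts [⟨x, hx, .inl ⟨rfl, p⟩⟩, ⟨y, hy, .inr ⟨rfl, p⟩⟩]

def Cr (l r : α → ℕ) (e e' : α) : Prop :=
  (l e < l e' ∧ l e' < r e ∧ r e < r e') ∨ (l e' < l e ∧ l e < r e' ∧ r e' < r e)

theorem Col.imp {G G' : α → α → Prop} {X : Finset α} {n : ℕ} (h : Col G X n)
    (h' : ∀ x ∈ X, ∀ y ∈ X, G' x y → G x y) : Col G' X n := by
  obtain ⟨c, a, b⟩ := h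
  exact ⟨c, a, fun x hx y hy p => b x hx y hy (h' x hx y hy p)⟩

theorem sepc {l r : α → ℕ} {k : ℕ} {Y : Finset α} (h : ∀ x ∈ Y, ∀ y ∈ Y, l x < r y)
    (hb : Bd (Cr l r) k Y) : Col (Cr l r) Y k := by
  obtain ⟨c, c1, c2⟩ := mirsky (fun x y => l x < l y ∧ r x < r y) Y (by simp)
    (fun x _ y _ z _ a b => by omega) k fun T hT p => hb T hT fun a ha b hb n => by
      have := p ha hb n; have := h a (hT ha) b (hT hb); have := h b (hT hb) a (hT ha)
      unfold Cr; omega
  refine ⟨c, c1, fun x hx y hy p => ?_⟩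
  have := c2 x hx y hy; have := c2 y hy x hx
  unfold Cr at p; omega

theorem lexlt {M p q a b : ℕ} (ha : a < M) (hb : b < M) :
    p * M + a < q * M + b ↔ p < q ∨ p = q ∧ a < b := by
  rcases lt_trichotomy p q with h | rfl | h
  · have := Nat.mul_le_mul_right M (Nat.succ_le_of_lt h)
    rw [Nat.succ_mul] at this; omega
  · omega
  · have := Nat.mul_le_mul_right M (Nat.succ_le_of_lt h)
    rw [Nat.succ_mul] at this; omega

theorem gyarfas (k : ℕ) : ∃ F, ∀ (l r : α → ℕ) (X : Finset α), (∀ x ∈ X, l x < r x) →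
    (∀ x ∈ X, ∀ y ∈ X, l x = l y → r x = r y → x = y) → Bd (Cr l r) k X → Col (Cr l r) X F := by
  classical
  induction k with
  | zero =>
    refine ⟨0, fun l r X _ _ h => ⟨fun _ => 0, fun x hx => ?_, fun x hx => ?_⟩⟩ <;>
    simpa using h {x} (by simpa using hx) (by simp)
  | succ k ih =>
    obtain ⟨F, ih⟩ := ih
    refine ⟨2 * (1 + 2 * (k + 1) + F * (2 * (2 * 3))), fun l r X h1 h2 h3 => ?_⟩
    obtain ⟨ρ, d, d1, d2, d3, d4⟩ := level X (Cr l r) (fun _ _ => Or.symm)
      fun x => toLex (l x, OrderDual.toDual (r x))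
    refine Col.fib (fun x => d x % 2) 2 (fun x _ => Nat.mod_lt _ two_pos) fun par =>
      Col.side (fun x => (ρ x, d x)) (fun x hx y hy p => ?_) fun ⟨v, i⟩ => ?_
    · obtain ⟨x1, x2⟩ := mem_filter.1 hx
      obtain ⟨y1, y2⟩ := mem_filter.1 hy
      have a := d1 x x1 y y1 p
      have := d1 y y1 x x1 p.symm
      exact Prod.ext a.1 (by simp only; omega)
    set L := (X.filter fun x => d x % 2 = par).filter fun x => (ρ x, d x) = (v, i) with hL
    have mL : ∀ x ∈ L, x ∈ X ∧ ρ x = v ∧ d x = i := fun x hx => by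
      simp only [hL, mem_filter, Prod.mk.injEq] at hx; tauto
    have LX : L ⊆ X := fun x hx => (mL x hx).1
    rcases i with _ | i
    · refine ⟨fun _ => 0, fun _ _ => by simp only; omega, fun x hx y hy p => ?_⟩
      obtain ⟨x1, x2, x3⟩ := mL x hx
      obtain ⟨y1, y2, y3⟩ := mL y hy
      have : x = y := by rw [d3 x x1 x3, d3 y y1 y3, x2, y2]
      subst this; unfold Cr at p; omega
    have out : ∀ x ∈ L, ∀ m, m ≤ i → ∀ w ∈ X, ρ w = v → d w = m → ¬ (l x ≤ l w ∧ r w ≤ r x) := by
      intro x hx m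
      obtain ⟨x1, x2, x3⟩ := mL x hx
      induction m with
      | zero =>
        intro _ w hw a b p
        have e := d3 w hw b
        have q := (d2 x x1).1
        rw [x2, ← a, ← e, Prod.Lex.toLex_le_toLex] at q
        simp only [OrderDual.toDual_le_toDual] at q
        have := h2 x x1 w hw (by omega) (by omega)
        subst this; omega
      | succ m ih =>
        intro hm w hw a b p
        obtain ⟨y, y1, y2, y3⟩ := d4 w hw m b
        have := ih (by omega) y y1 ((d1 y y1 w hw y2).1.trans a) y3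
        have := (d1 y y1 x x1 (by unfold Cr at y2 ⊢; omega)).2
        omega
    have sup : ∀ z ∈ L, ∃ y ∈ X, ∀ x ∈ L, l x ≤ l z → r z ≤ r x → Cr l r y x := fun z hz => by
      obtain ⟨z1, z2, z3⟩ := mL z hz
      obtain ⟨y, y1, y2, y3⟩ := d4 z z1 i z3
      refine ⟨y, y1, fun x hx a b => ?_⟩
      have := out x hx i le_rfl y y1 ((d1 y y1 z z1 y2).1.trans z2) y3
      unfold Cr at y2 ⊢; omega
    obtain ⟨b, bm, b1, b2⟩ := blocks (fun S => ∃ z ∈ L, l z ∈ S ∧ r z ∈ S) (by simp)
    have bl : ∀ {m n}, b m < b n → m < n := fun h => bm.reflect_lt h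
    have c0 : Col (Cr l r) (L.filter fun x => b (r x) = b (l x)) 1 := by
      have : ∀ x ∈ L.filter fun x => b (r x) = b (l x), ∀ y ∈ L.filter fun x => b (r x) = b (l x),
          ¬ (l x < l y ∧ l y < r x ∧ r x < r y) := fun x hx y hy p => by
        obtain ⟨x1, x2⟩ := mem_filter.1 hx
        obtain ⟨y1, y2⟩ := mem_filter.1 hy
        have := bm p.1.le; have := bm p.2.1.le
        exact b1 (r y) ⟨x, x1, ⟨by omega, by omega⟩, by omega, p.2.2⟩
      exact ⟨fun _ => 0, fun _ _ => one_pos, fun x hx y hy p =>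
        (p.elim (this x hx y hy) (this y hy x hx)).elim⟩
    have c1 : Col (Cr l r) (L.filter fun x => b (r x) = b (l x) + 1) (2 * (k + 1)) := by
      refine Col.fib (fun x => b (l x) % 2) 2 (fun x _ => Nat.mod_lt _ two_pos) fun q =>
        Col.side (fun x => b (l x)) (fun x hx y hy p => ?_) fun j => sepc (fun x hx y hy => ?_)
          (h3.mono ((filter_subset _ _).trans ((filter_subset _ _).trans
            ((filter_subset _ _).trans LX))) le_rfl)
      · simp only [mem_filter] at hx hy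
        rcases p with p | p <;> have := bm p.1.le <;> have := bm p.2.1.le <;> omega
      · simp only [mem_filter] at hx hy
        exact bl (by omega)
    set Z := L.filter fun x => b (l x) + 2 ≤ b (r x) with hZ
    have ZL : Z ⊆ L := filter_subset _ _
    set M := X.sup r + 1 with hM
    have rM : ∀ x ∈ Z, r x < M := fun x hx => Nat.lt_succ_of_le (le_sup (LX (ZL hx)))
    have lM : ∀ x ∈ Z, l x < M := fun x hx => (h1 x (LX (ZL hx))).trans (rM x hx)
    let l' : α → ℕ := fun x => (2 * b (l x) + 3) * M + l x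
    let r' : α → ℕ := fun x => (2 * b (r x)) * M + r x
    have ll : ∀ x ∈ Z, ∀ y ∈ Z, (l' x < l' y ↔ l x < l y) ∧ (r' x < r' y ↔ r x < r y) ∧
        (l' x < r' y ↔ b (l x) + 2 ≤ b (r y)) := fun x hx y hy => by
      simp only [l', r', lexlt (lM x hx) (lM y hy), lexlt (rM x hx) (rM y hy), lexlt (lM x hx) (rM y hy)]
      have := @bm (l x) (l y); have := @bm (r x) (r y)
      have := @bl (l x) (l y); have := @bl (r x) (r y)
      omega
    have cr : ∀ x ∈ Z, ∀ y ∈ Z, Cr l' r' x y ↔ (l x < l y ∧ b (l y) + 2 ≤ b (r x) ∧ r x < r y) ∨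
        (l y < l x ∧ b (l x) + 2 ≤ b (r y) ∧ r y < r x) := fun x hx y hy => by
      unfold Cr
      rw [(ll x hx y hy).1, (ll x hx y hy).2.1, (ll x hx y hy).2.2, (ll y hy x hx).1, (ll y hy x hx).2.1,
        (ll y hy x hx).2.2]
    obtain ⟨c, k1, k2⟩ := ih l' r' Z (fun x hx => (ll x hx x hx).2.2.2 (mem_filter.1 hx).2)
      (fun x hx y hy p q => by
        have := ll x hx y hy; have := ll y hy x hx
        exact h2 x (LX (ZL hx)) y (LX (ZL hy)) (by omega) (by omega)) fun T hT p => by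
        rcases T.eq_empty_or_nonempty with rfl | hn
        · simp
        obtain ⟨u, hu, hm⟩ := exists_max_image T l hn
        have a : ∀ x ∈ T, b (l x) ≤ b (l u) ∧ b (l u) + 2 ≤ b (r x) := fun x hx => by
          refine ⟨bm (hm x hx), ?_⟩
          by_cases e : x = u
          · subst e; exact (mem_filter.1 (hT hx)).2
          · have := (cr x (hT hx) u (hT hu)).1 (p hx hu e); have := hm x hx; omega
        obtain ⟨z, hz, z1, z2⟩ := b2 (b (l u) + 1) (r u) (a u hu).2
        obtain ⟨y, y1, y2⟩ := sup z hz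
        simp only [Set.mem_ofPred_eq] at z1 z2
        have y3 : ∀ x ∈ T, Cr l r y x := fun x hx => by
          have := a x hx
          exact y2 x (ZL (hT hx)) (bl (by omega)).le (bl (by omega)).le
        have ny : y ∉ T := fun h => by have := y3 y h; unfold Cr at this; omega
        have := h3 (insert y T) (insert_subset y1 (hT.trans (ZL.trans LX))) (by
          rw [coe_insert]
          refine Set.Pairwise.insert (fun x hx w hw n => ?_) fun x hx _ => ⟨y3 x hx, (y3 x hx).symm⟩
          have := (cr x (hT hx) w (hT hw)).1 (p hx hw n)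
          have := @bl (l w) (r x); have := @bl (l x) (r w)
          unfold Cr; omega)
        rw [card_insert_of_notMem ny] at this; omega
    have c2 : Col (Cr l r) Z (F * (2 * (2 * 3))) := by
      refine Col.fib c F k1 fun j => Col.fib (fun x => b (l x) % 2) 2 (fun x _ => Nat.mod_lt _ two_pos)
        fun p => Col.fib (fun x => b (r x) % 2) 2 (fun x _ => Nat.mod_lt _ two_pos) fun q => ?_
      refine (outer (fun x => b (l x)) (fun x => b (r x) - (p + q) % 2) _ (fun x hx => ?_)
        fun x hx y hy a => ?_).imp fun x hx y hy a => ?_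
      · simp only [mem_filter, hZ] at hx; omega
      all_goals
        obtain ⟨hx, x3⟩ := mem_filter.1 hx
        obtain ⟨hx, x2⟩ := mem_filter.1 hx
        obtain ⟨hx, x1⟩ := mem_filter.1 hx
        obtain ⟨hy, y3⟩ := mem_filter.1 hy
        obtain ⟨hy, y2⟩ := mem_filter.1 hy
        obtain ⟨hy, y1⟩ := mem_filter.1 hy
        have n := mt (k2 x hx y hy) (by omega)
        rw [cr x hx y hy] at n
        have := (mem_filter.1 hx).2; have := (mem_filter.1 hy).2
      · have := @bl (l x) (l y); have := @bl (r x) (r y)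
        omega
      · have := @bm (l y) (r x); have := @bm (l x) (r y)
        unfold Cr at a; omega
    refine ((c0.union c1).union c2).mono (fun x hx => ?_) le_rfl
    have := bm (h1 x (LX hx)).le
    rcases (by omega : b (r x) = b (l x) ∨ b (r x) = b (l x) + 1 ∨ b (l x) + 2 ≤ b (r x)) with q | q | q
    · exact mem_union_left _ (mem_union_left _ (mem_filter.2 ⟨hx, q⟩))
    · exact mem_union_left _ (mem_union_right _ (mem_filter.2 ⟨hx, q⟩))
    · exact mem_union_right _ (mem_filter.2 ⟨hx, q⟩)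

end H20.Mix
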