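import Pool.Agent.H20.Mix3

namespace H20.Mix

open Finset

variable {α : Type} [DecidableEq α]

def Q (l r : α → ℕ) (k : ℕ) : ℕ → Finset α → Prop
  | 0, _ => True
  | j + 1, Y => ∃ T ⊆ Y, T.card = k + 1 ∧ (T : Set α).Pairwise (Cr l r) ∧
      Q l r k j (Y.filter fun e => ∀ u ∈ T, l u < l e ∧ r e < r u)

theorem Q.mono {l r : α → ℕ} {k : ℕ} : ∀ {j : ℕ} {Y Z : Finset α}, Q l r k j Y → Y ⊆ Z → Q l r k j Z
  | 0, _, _, _, _ => trivial
  | _ + 1, _, _, ⟨T, h1, h2, h3, h4⟩, h => ⟨T, h1.trans h, h2, h3, h4.mono (filter_subset_filter _ h)⟩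

theorem Q.small {l r : α → ℕ} {k : ℕ} : ∀ {j : ℕ} {Y : Finset α}, Q l r k j Y →
    ∃ W ⊆ Y, W.card ≤ j * (k + 1) ∧ Q l r k j W
  | 0, _, _ => ⟨∅, by simp, by simp, trivial⟩
  | j + 1, _, ⟨T, h1, h2, h3, h4⟩ => by
    obtain ⟨W, w1, w2, w3⟩ := h4.small
    refine ⟨T ∪ W, union_subset h1 (w1.trans (filter_subset _ _)), (card_union_le _ _).trans ?_,
      T, subset_union_left, h2, h3, w3.mono fun z hz =>
        mem_filter.2 ⟨mem_union_right _ hz, (mem_filter.1 (w1 hz)).2⟩⟩
    rw [add_one_mul]; omega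

theorem Q.rain {l r : α → ℕ} {k : ℕ} (A : Finset α) : ∀ {j : ℕ} {W : Finset α}, Q l r k j W →
    Bd (Cr l r) k (W ∩ A) → ∃ R ⊆ W \ A, R.card = j ∧ (R : Set α).Pairwise (Dec l r)
  | 0, _, _, _ => ⟨∅, by simp, by simp, by simp⟩
  | j + 1, W, ⟨T, h1, h2, h3, h4⟩, hb => by
    obtain ⟨R, r1, r2, r3⟩ := h4.rain A (hb.mono (inter_subset_inter_right (filter_subset _ _)) le_rfl)
    obtain ⟨u, hu, hA⟩ : ∃ u ∈ T, u ∉ A := by
      by_contra hn
      push Not at hn
      have := hb T (subset_inter h1 hn) h3; omega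
    have : ∀ e ∈ R, l u < l e ∧ r e < r u := fun e he => (mem_filter.1 (mem_sdiff.1 (r1 he)).1).2 u hu
    refine ⟨insert u R, insert_subset (mem_sdiff.2 ⟨h1 hu, hA⟩)
      (r1.trans (sdiff_subset_sdiff (filter_subset _ _) le_rfl)), ?_, ?_⟩
    · rw [card_insert_of_notMem fun h => by have := this u h; omega, r2]
    · rw [coe_insert]
      exact r3.insert fun e he _ => ⟨.inl (this e he), .inr (this e he)⟩

theorem top (k : ℕ) : ∃ g f, ∀ (l r : α → ℕ) (X : Finset α), (∀ x ∈ X, l x < r x) →
    (∀ x ∈ X, ∀ y ∈ X, l x = l y → r x = r y → x = y) →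
    (∀ Y ⊆ X, Y.card ≤ g → Lay (Cr l r) (Dec l r) Y k) → Sp (Cr l r) (Dec l r) X f := by
  classical
  obtain ⟨g, f, hg⟩ := grid (α := α) k
  have main : ∀ j, ∃ F, ∀ (l r : α → ℕ) (X : Finset α), (∀ x ∈ X, l x < r x) →
      (∀ x ∈ X, ∀ y ∈ X, l x = l y → r x = r y → x = y) →
      (∀ Y ⊆ X, Y.card ≤ g → Lay (Cr l r) (Dec l r) Y k) → ¬ Q l r k (j + 1) X →
      Sp (Cr l r) (Dec l r) X F := by
    intro j
    induction j with
    | zero =>
      refine ⟨k, fun l r X _ _ _ h => Bd.sp ?_⟩
      by_contra hn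
      obtain ⟨T, a, b, c⟩ := Bd.wit hn
      exact h ⟨T, a, c, b, trivial⟩
    | succ j ih =>
      obtain ⟨F, ih⟩ := ih
      refine ⟨F + 1 + 3 * f + (k + k), fun l r X h1 h2 h3 h4 => ?_⟩
      obtain ⟨b, bm, b1, b2⟩ := blocks (fun S => Q l r k (j + 1) (X.filter fun e => l e ∈ S ∧ r e ∈ S)) (by
        rintro ⟨O, h1, h2, -⟩
        simp at h1; simp [h1] at h2)
      have bl : ∀ {m n}, b m < b n → m < n := fun h => bm.reflect_lt h
      have c0 : Sp (Cr l r) (Dec l r) (X.filter fun x => b (r x) = b (l x)) (F + 1) := by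
        refine Sp.side (fun x => b (l x)) (fun x hx y hy p => ?_) fun i => ?_
        · simp only [mem_filter] at hx hy
          have := h1 x hx.1; have := h1 y hy.1
          have := @bm (l x) (l y); have := @bm (l y) (l x); have := @bm (l x) (r y)
          have := @bm (l y) (r x)
          unfold Cr Dec at p; omega
        rcases ((X.filter fun x => b (r x) = b (l x)).filter fun x => b (l x) = i).eq_empty_or_nonempty
          with q | q
        · rw [q]; exact Sp.empty _ _ _
        obtain ⟨e, he, hm⟩ := exists_max_image _ r q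
        refine ((ih l r _ (fun x hx => h1 x (by simp only [mem_filter] at hx; exact hx.1))
          (fun x hx y hy => h2 x (by simp only [mem_filter] at hx; exact hx.1) y
            (by simp only [mem_filter] at hy; exact hy.1))
          (fun Y hY => h3 Y fun z hz => by have := hY hz; simp only [mem_filter] at this; exact this.1)
          (b1 (r e))).union (Y := X.filter fun x => r x = r e) (Bd.sp fun T hT p => card_le_one.2
            fun x hx y hy => ?_)).mono (fun z hz => ?_) le_rfl
        · by_contra n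
          have := p hx hy n
          have := (mem_filter.1 (hT hx)).2; have := (mem_filter.1 (hT hy)).2
          unfold Cr at *; omega
        · have := hm z hz
          simp only [mem_filter, mem_union, Set.mem_ofPred_eq] at hz he ⊢
          have := h1 z hz.1.1
          simp only [hz.1.1, true_and]; omega
      have c1 : Sp (Cr l r) (Dec l r) (X.filter fun x => b (l x) < b (r x) ∧ b (r x) ≤ b (l x) + 2)
          (3 * f) := by
        refine Sp.fib (fun x => b (l x) % 3) 3 (fun x _ => Nat.mod_lt _ (by omega)) fun q =>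
          Sp.side (fun x => b (l x)) (fun x hx y hy p => ?_) fun i => ?_
        · simp only [mem_filter] at hx hy
          have := h1 x hx.1.1; have := h1 y hy.1.1
          have := @bm (l x) (r y); have := @bm (l y) (r x)
          unfold Cr Dec at p; omega
        set Y := ((X.filter fun x => b (l x) < b (r x) ∧ b (r x) ≤ b (l x) + 2).filter
          fun x => b (l x) % 3 = q).filter fun x => b (l x) = i with hY
        have YX : Y ⊆ X := (filter_subset _ _).trans ((filter_subset _ _).trans (filter_subset _ _))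
        have sep : ∀ x ∈ Y, ∀ y ∈ Y, l x < r y := fun x hx y hy => by
          simp only [hY, mem_filter] at hx hy; exact bl (by omega)
        obtain ⟨A, a1, a2⟩ := hg l r Y (fun x hx y hy => h2 x (YX hx) y (YX hy)) fun W hW p => by
          obtain ⟨c, c1, c2⟩ := h3 W (hW.trans YX) p
          refine ⟨c, c1, fun i => (c2 i).imp_left fun h e he e' he' p q u => h e he e' he' p q ?_⟩
          have := sep e (hW he) e' (hW he'); have := sep e' (hW he') e (hW he)
          unfold Inc at u; unfold Cr; omega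
        exact ⟨A, fun T hT p => a1 T hT fun x hx y hy n => by
          have := p hx hy n; unfold Cr at this; unfold Inc; omega, a2⟩
      have c2 : Bd (Cr l r) (k + k) (X.filter fun x => b (l x) + 3 ≤ b (r x)) := fun T hT p => by
        rcases T.eq_empty_or_nonempty with rfl | hn
        · simp
        obtain ⟨u, hu, hm⟩ := exists_max_image T l hn
        have a : ∀ x ∈ T, b (l x) ≤ b (l u) ∧ b (l u) ≤ b (r x) := fun x hx => by
          refine ⟨bm (hm x hx), bm ?_⟩
          by_cases e : x = u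
          · subst e; exact (h1 x (mem_filter.1 (hT hx)).1).le
          · have := p hx hu e; have := hm x hx; unfold Cr at *; omega
        have key : ∀ i, Bd (Cr l r) k (T.filter fun x => b (l x) < i ∧ i < b (r x)) := fun i => by
          by_contra hn
          obtain ⟨S, s1, s2, s3⟩ := Bd.wit hn
          obtain ⟨w, hw⟩ := card_pos.1 (by omega : 0 < S.card)
          refine h4 ⟨S, fun x hx => (mem_filter.1 (hT (mem_filter.1 (s1 hx)).1)).1, s3, s2,
            (b2 i _ (mem_filter.1 (s1 hw)).2.2).mono fun z hz => ?_⟩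
          simp only [mem_filter, Set.mem_ofPred_eq] at hz ⊢
          refine ⟨hz.1, fun v hv => ?_⟩
          have := (mem_filter.1 (s1 hv)).2
          exact ⟨bl (by omega), bl (by omega)⟩
        refine (key (b (l u) - 1)).union (key (b (l u) + 1)) T (fun x hx => ?_) p
        have := a x hx
        have := (mem_filter.1 (hT hx)).2
        simp only [mem_union, mem_filter, hx, true_and]; omega
      refine ((c0.union c1).union c2.sp).mono (fun x hx => ?_) le_rfl
      have := bm (h1 x hx).le
      simp only [mem_union, mem_filter, hx, true_and]; omega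
  obtain ⟨F, hF⟩ := main k
  refine ⟨max g ((k + 1) * (k + 1)), F, fun l r X h1 h2 h3 => hF l r X h1 h2
    (fun Y hY q => h3 Y hY (q.trans (le_max_left _ _))) fun h => ?_⟩
  obtain ⟨W, w1, w2, w3⟩ := h.small
  obtain ⟨A, a1, a2⟩ := (h3 W w1 (w2.trans (le_max_right _ _))).sp
  obtain ⟨R, r1, r2, r3⟩ := w3.rain A a1
  have := a2 R r1 r3
  omega

theorem final (k : ℕ) : ∃ g f, ∀ (l r : α → ℕ) (X : Finset α), (∀ x ∈ X, l x < r x) →
    (∀ x ∈ X, ∀ y ∈ X, l x = l y → r x = r y → x = y) →
    (∀ Y ⊆ X, Y.card ≤ g → Lay (Cr l r) (Dec l r) Y k) → Lay (Cr l r) (Dec l r) X f := by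
  obtain ⟨g, f, h⟩ := top (α := α) k
  obtain ⟨F, hF⟩ := gyarfas (α := α) f
  refine ⟨g, F + f, fun l r X h1 h2 h3 => ?_⟩
  obtain ⟨A, a1, a2⟩ := h l r X h1 h2 h3
  obtain ⟨c, c1, c2⟩ := hF l r _ (fun x hx => h1 x (mem_inter.1 hx).1)
    (fun x hx y hy => h2 x (mem_inter.1 hx).1 y (mem_inter.1 hy).1) a1
  obtain ⟨d, d1, d2⟩ := mirsky (fun x y => l x < l y ∧ r y < r x) _ (by simp)
    (fun x _ y _ z _ a b => by omega) f a2
  refine ⟨fun x => if x ∈ A then c x else F + d x, fun x hx => ?_, fun i => ?_⟩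
  · simp only; split_ifs with a
    · have := c1 x (mem_inter.2 ⟨hx, a⟩); omega
    · have := d1 x (mem_sdiff.2 ⟨hx, a⟩); omega
  · rcases lt_or_ge i F with q | q
    · refine .inl fun x hx y hy p p' u => ?_
      simp only at p p'
      split_ifs at p p' with a b <;> try omega
      exact c2 x (mem_inter.2 ⟨hx, a⟩) y (mem_inter.2 ⟨hy, b⟩) u (p.trans p'.symm)
    · refine .inr fun x hx y hy p p' u => ?_
      have u1 := fun a => c1 x (mem_inter.2 ⟨hx, a⟩)
      have u2 := fun a => c1 y (mem_inter.2 ⟨hy, a⟩)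
      simp only at p p'
      split_ifs at p p' with a b b
      · have := u1 a; omega
      · have := u1 a; omega
      · have := u2 b; omega
      have := d2 x (mem_sdiff.2 ⟨hx, a⟩) y (mem_sdiff.2 ⟨hy, b⟩)
      have := d2 y (mem_sdiff.2 ⟨hy, b⟩) x (mem_sdiff.2 ⟨hx, a⟩)
      unfold Dec at u; omega

end H20.Mix
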