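import Mathlib

namespace H20.Mix

variable {V : Type} [LinearOrder V]

/-- The edges `uv` of an ordered graph, each written as the pair `(u, v)` with `u < v`. -/
def edges (G : SimpleGraph V) : Set (V × V) := {e | e.1 < e.2 ∧ G.Adj e.1 e.2}

/-- A stack: no two edges `uv`, `xy` with `u < x < v < y`. -/
def IsStack (S : Set (V × V)) : Prop :=
  ∀ e ∈ S, ∀ f ∈ S, ¬ (e.1 < f.1 ∧ f.1 < e.2 ∧ e.2 < f.2)

/-- A queue: no two edges `uv`, `xy` with `u < x < y < v`. -/
def IsQueue (S : Set (V × V)) : Prop :=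
  ∀ e ∈ S, ∀ f ∈ S, ¬ (e.1 < f.1 ∧ f.1 < f.2 ∧ f.2 < e.2)

/-- The mixed page number: the least `k` such that the edges split into parts numbered
`0, ..., k - 1` (some possibly empty), each a stack or a queue. -/
noncomputable def mn (G : SimpleGraph V) : ℕ :=
  sInf {k | ∃ c : V × V → ℕ, (∀ e ∈ edges G, c e < k) ∧
    ∀ i, IsStack {e ∈ edges G | c e = i} ∨ IsQueue {e ∈ edges G | c e = i}}

/-- `G` contains the ordered graph `H` on `0 < 1 < ... < m - 1` as an ordered subgraph. -/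
def Contains (G : SimpleGraph V) {m : ℕ} (H : SimpleGraph (Fin m)) : Prop :=
  ∃ φ : Fin m → V, StrictMono φ ∧ ∀ a b, H.Adj a b → G.Adj (φ a) (φ b)

end H20.Mix
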