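import Pool.Agent.H20.Mix4
import Pool.Agent.H20.MixDefs

namespace H20.Mix

open Finset

variable {V : Type} [LinearOrder V]

def LS (G : SimpleGraph V) : Set ℕ := {k | ∃ c : V × V → ℕ, (∀ e ∈ edges G, c e < k) ∧
    ∀ i, IsStack {e ∈ edges G | c e = i} ∨ IsQueue {e ∈ edges G | c e = i}}

theorem mn_mem [Fintype V] (G : SimpleGraph V) : mn G ∈ LS G := by
  refine Nat.sInf_mem (s := LS G) ⟨Fintype.card (V × V), fun e => Fintype.equivFin _ e,
    fun e _ => Fin.is_lt _, fun i => .inl fun e he f hf p => ?_⟩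
  have : e = f := (Fintype.equivFin _).injective (Fin.ext (he.2.trans hf.2.symm))
  subst this; exact lt_irrefl _ p.1

theorem mn_mono [Fintype V] {G : SimpleGraph V} {m : ℕ} {H : SimpleGraph (Fin m)}
    (h : Contains G H) : mn H ≤ mn G := by
  obtain ⟨φ, h1, h2⟩ := h
  obtain ⟨c, c1, c2⟩ := mn_mem G
  have : ∀ e ∈ edges H, Prod.map φ φ e ∈ edges G := fun e he => ⟨h1 he.1, h2 _ _ he.2⟩
  exact Nat.sInf_le ⟨fun e => c (Prod.map φ φ e), fun e he => c1 _ (this e he), fun i => (c2 i).imp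
    (fun h e he f hf p => h _ ⟨this e he.1, he.2⟩ _ ⟨this f hf.1, hf.2⟩ ⟨h1 p.1, h1 p.2.1, h1 p.2.2⟩)
    fun h e he f hf p => h _ ⟨this e he.1, he.2⟩ _ ⟨this f hf.1, hf.2⟩ ⟨h1 p.1, h1 p.2.1, h1 p.2.2⟩⟩

theorem bound (k : ℕ) : ∃ g f, ∀ (V : Type) [Fintype V] [LinearOrder V] (G : SimpleGraph V),
    (∀ m ≤ g, ∀ H : SimpleGraph (Fin m), Contains G H → mn H < k) → mn G < f := by
  classical
  obtain ⟨g, f, h⟩ := final (α := ℕ × ℕ) k
  refine ⟨g + g, f + 1, fun V _ _ G hG => ?_⟩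
  let ι : V → ℕ := fun v => ((monoEquivOfFin V rfl).symm v : ℕ)
  have hι : StrictMono ι := fun a b p => (monoEquivOfFin V rfl).symm.strictMono p
  let X : Finset (ℕ × ℕ) := (univ.filter (· ∈ edges G)).image (Prod.map ι ι)
  have mX : ∀ x ∈ X, ∃ e ∈ edges G, Prod.map ι ι e = x := fun x hx => by simpa [X] using hx
  obtain ⟨c, c1, c2⟩ := h Prod.fst Prod.snd X (fun x hx => by
      obtain ⟨e, he, rfl⟩ := mX x hx; exact hι he.1) (fun x _ y _ => Prod.ext) fun Y hY hc => by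
    let S := Y.image Prod.fst ∪ Y.image Prod.snd
    let ψ := S.orderEmbOfFin rfl
    have sur : ∀ s ∈ S, ∃ a, ψ a = s := fun s hs => by
      have : s ∈ Set.range ψ := by rw [range_orderEmbOfFin]; exact hs
      exact this
    have pre : ∀ a, ∃ v, ι v = ψ a := fun a => by
      rcases mem_union.1 (S.orderEmbOfFin_mem rfl a) with q | q <;>
      · obtain ⟨x, hx, e⟩ := mem_image.1 q
        obtain ⟨z, -, rfl⟩ := mX x (hY hx)
        exact ⟨_, e⟩
    choose φ hφ using pre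
    have sφ : StrictMono φ := fun a b p => hι.lt_iff_lt.1 (by rw [hφ, hφ]; exact ψ.strictMono p)
    have lt := hG S.card ((card_union_le _ _).trans (add_le_add (card_image_le.trans hc)
      (card_image_le.trans hc))) (G.comap φ) ⟨φ, sφ, fun _ _ p => p⟩
    obtain ⟨d, d1, d2⟩ := mn_mem (G.comap φ)
    have : ∀ x, ∃ o : Option (Fin S.card × Fin S.card), x ∈ Y → ∃ e ∈ edges (G.comap φ),
        o = some e ∧ Prod.map ψ ψ e = x := fun x => by
      by_cases hx : x ∈ Y
      · obtain ⟨a, ha⟩ := sur x.1 (mem_union_left _ (mem_image_of_mem _ hx))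
        obtain ⟨b, hb⟩ := sur x.2 (mem_union_right _ (mem_image_of_mem _ hx))
        obtain ⟨z, hz, rfl⟩ := mX x (hY hx)
        have a1 : φ a = z.1 := hι.injective ((hφ a).trans ha)
        have b1 : φ b = z.2 := hι.injective ((hφ b).trans hb)
        refine ⟨some (a, b), fun _ => ⟨(a, b), ⟨sφ.lt_iff_lt.1 ?_, ?_⟩, rfl, Prod.ext ha hb⟩⟩
        · simp only [a1, b1]; exact hz.1
        · simp only [SimpleGraph.comap_adj, a1, b1]; exact hz.2
      · exact ⟨none, fun q => absurd q hx⟩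
    choose o ho using this
    refine ⟨fun x => ((o x).map d).getD 0, fun x hx => ?_, fun i => (d2 i).imp (fun q x hx y hy p p' u => ?_)
      fun q x hx y hy p p' u => ?_⟩
    · obtain ⟨e, he, e1, -⟩ := ho x hx
      simpa [e1] using (d1 e he).trans lt
    all_goals
      obtain ⟨e, he, e1, rfl⟩ := ho x hx
      obtain ⟨e', he', e2, rfl⟩ := ho y hy
      simp only [e1, e2, Option.map_some, Option.getD_some] at p p'
      have q1 := q e ⟨he, p⟩ e' ⟨he', p'⟩
      have q2 := q e' ⟨he', p'⟩ e ⟨he, p⟩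
      have := he.1; have := he'.1
      simp only [Cr, Dec, Prod.map_fst, Prod.map_snd, OrderEmbedding.lt_iff_lt] at u
      tauto
  have : ∀ e ∈ edges G, Prod.map ι ι e ∈ X := fun e he => mem_image_of_mem _ (by simpa using he)
  refine Nat.lt_succ_of_le (Nat.sInf_le ⟨fun e => c (Prod.map ι ι e), fun e he => c1 _ (this e he),
    fun i => (c2 i).imp (fun q e he e' he' p => q _ (this e he.1) _ (this e' he'.1) he.2 he'.2
      (.inl ⟨hι p.1, hι p.2.1, hι p.2.2⟩)) fun q e he e' he' p =>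
      q _ (this e he.1) _ (this e' he'.1) he.2 he'.2 (.inl ⟨hι p.1, hι p.2.2⟩)⟩)

end H20.Mix
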