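import Mathlib

namespace Pool.Agent.H20

/-- The set of colours seen on the neighbours of `v`. -/
def nbrColours {V : Type} {k : ℕ} (G : SimpleGraph V) (c : V → Fin k) (v : V) : Set (Fin k) :=
  {i | ∃ w, G.Adj v w ∧ c w = i}

/-- `c` is a neighbour-locating colouring of `G` with `k` nonempty independent colour classes. -/
def IsNL {V : Type} (G : SimpleGraph V) (k : ℕ) (c : V → Fin k) : Prop :=
  Function.Surjective c ∧ (∀ u v, G.Adj u v → c u ≠ c v) ∧
  ∀ u v, u ≠ v → c u = c v → nbrColours G c u ≠ nbrColours G c v

/-- The neighbour-locating chromatic number. -/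
noncomputable def chiNL {V : Type} (G : SimpleGraph V) : ℕ := sInf {k | ∃ c, IsNL G k c}

end Pool.Agent.H20
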