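import Pool.Agent.H20.NLDefs

namespace Pool.Agent.H20.NLExt
open Finset Pool.Agent.H20

def Ty (k D : ℕ) : Finset (Fin k × Finset (Fin k)) :=
  univ.filter fun p => p.1 ∉ p.2 ∧ 1 ≤ p.2.card ∧ p.2.card ≤ D

theorem card_Ty (k D : ℕ) : (Ty k D).card = ∑ j ∈ Icc 1 D, k * (k - 1).choose j := by
  rw [Finset.card_eq_sum_card_fiberwise (f := fun p => p.2.card) (t := Icc 1 D)
    (fun p hp => by
      have := (mem_filter.mp hp).2
      simp [this.2.1, this.2.2])]
  refine Finset.sum_congr rfl fun j hj => ?_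
  rw [Finset.card_eq_sum_card_fiberwise (f := fun p => p.1) (t := univ) (fun _ _ => mem_univ _)]
  have : ∀ i : Fin k, (((Ty k D).filter fun p => p.2.card = j).filter fun p => p.1 = i).card
      = (k - 1).choose j := by
    intro i
    have h1 : (powersetCard j (univ.erase i)).card = (k - 1).choose j := by simp
    rw [← h1]
    rw [mem_Icc] at hj
    refine Finset.card_nbij' (fun p => p.2) (fun S => (i, S)) ?_ ?_ ?_ ?_
    · rintro ⟨a, S⟩ hp
      simp only [Ty, coe_filter, mem_filter, mem_univ, true_and, Set.mem_ofPred_eq] at hp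
      obtain ⟨⟨⟨g1, _⟩, g2⟩, rfl⟩ := hp
      simp only [mem_coe, mem_powersetCard]
      exact ⟨fun x hx => mem_erase.mpr ⟨fun h => g1 (h ▸ hx), mem_univ _⟩, g2⟩
    · intro S hS
      simp only [mem_coe, mem_powersetCard] at hS
      simp only [Ty, coe_filter, mem_filter, mem_univ, true_and, Set.mem_ofPred_eq, and_true]
      refine ⟨⟨fun h => by simpa using hS.1 h, by omega, by omega⟩, hS.2⟩
    · rintro ⟨a, S⟩ hp
      simp only [coe_filter, Set.mem_ofPred_eq] at hp
      simp [hp.2]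
    · intro S _
      rfl
  simp [this]

theorem upper {V : Type} [Fintype V] (G : SimpleGraph V) [DecidableRel G.Adj] (D k : ℕ)
    (c : V → Fin k) (hc : IsNL G k c) (h1 : ∀ v, ∃ w, G.Adj v w) (h2 : ∀ v, G.degree v ≤ D) :
    Fintype.card V ≤ (Ty k D).card := by
  rw [← Finset.card_univ]
  refine Finset.card_le_card_of_injOn (fun v => (c v, (G.neighborFinset v).image c)) ?_ ?_
  · intro v _
    simp only [Ty, coe_filter, mem_univ, true_and, Set.mem_ofPred_eq]
    refine ⟨?_, ?_, ?_⟩
    · intro h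
      obtain ⟨w, hw, e⟩ := mem_image.mp h
      exact hc.2.1 v w (by simpa using hw) e.symm
    · obtain ⟨w, hw⟩ := h1 v
      exact Finset.card_pos.mpr ⟨c w, mem_image.mpr ⟨w, by simpa using hw, rfl⟩⟩
    · exact Finset.card_image_le.trans (h2 v)
  · intro u _ v _ h
    simp only [Prod.mk.injEq] at h
    by_contra hne
    apply hc.2.2 u v hne h.1
    have : ∀ x, nbrColours G c x = ((G.neighborFinset x).image c : Finset (Fin k)) := by
      intro x
      ext i
      simp [nbrColours]
    rw [this, this, h.2]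

theorem B_lt (D k k' : ℕ) (hD : 1 ≤ D) (hk : 2 ≤ k) (h : k' < k) :
    (Ty k' D).card < (Ty k D).card := by
  rw [card_Ty, card_Ty]
  refine Finset.sum_lt_sum (fun j _ => Nat.mul_le_mul h.le (Nat.choose_le_choose _ (by omega)))
    ⟨1, by simp [hD], ?_⟩
  simp only [Nat.choose_one_right]
  calc k' * (k' - 1) ≤ k' * (k - 1) := Nat.mul_le_mul_left _ (by omega)
    _ < k * (k - 1) := Nat.mul_lt_mul_of_pos_right h (by omega)

variable (m D : ℕ)

abbrev W := {p : Fin (m + 3) × Finset (Fin (m + 3)) // p.1 ∈ p.2 ∧ 2 ≤ p.2.card ∧ p.2.card ≤ D + 1}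

theorem card_W : Fintype.card (W m D) = (Ty (m + 3) D).card := by
  rw [Fintype.card_subtype]
  refine Finset.card_nbij' (fun p => (p.1, p.2.erase p.1)) (fun p => (p.1, insert p.1 p.2))
    ?_ ?_ ?_ ?_
  · rintro ⟨a, S⟩ hp
    simp only [coe_filter, mem_univ, true_and, Set.mem_ofPred_eq] at hp
    simp only [Ty, coe_filter, mem_univ, true_and, Set.mem_ofPred_eq, card_erase_of_mem hp.1]
    exact ⟨notMem_erase _ _, by omega, by omega⟩
  · rintro ⟨a, S⟩ hp
    simp only [Ty, coe_filter, mem_univ, true_and, Set.mem_ofPred_eq] at hp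
    simp only [coe_filter, mem_univ, true_and, Set.mem_ofPred_eq, card_insert_of_notMem hp.1]
    exact ⟨mem_insert_self _ _, by omega, by omega⟩
  · rintro ⟨a, S⟩ hp
    simp only [coe_filter, mem_univ, true_and, Set.mem_ofPred_eq] at hp
    simp [insert_erase hp.1]
  · rintro ⟨a, S⟩ hp
    simp only [Ty, coe_filter, mem_univ, true_and, Set.mem_ofPred_eq] at hp
    simp [erase_insert hp.1]

def Tw (i j : Fin (m + 3)) : Finset (Finset (Fin (m + 3))) :=
  univ.filter fun T => (i ∈ T ∧ j ∈ T ∧ 2 ≤ T.card ∧ T.card ≤ D + 1) ∧ (T = {i, j} ∨ ∃ x ∈ T, x < i)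

noncomputable def pi (i j : Fin (m + 3)) : Equiv.Perm (Finset (Fin (m + 3))) :=
  (Tw m D i j).exists_cycleOn.choose

theorem pi_cyc (i j : Fin (m + 3)) : (pi m D i j).IsCycleOn (Tw m D i j) :=
  (Tw m D i j).exists_cycleOn.choose_spec.1

theorem pi_fix (i j : Fin (m + 3)) (T : Finset (Fin (m + 3))) (h : T ∉ Tw m D i j) :
    pi m D i j T = T := by
  by_contra hne
  exact h ((Tw m D i j).exists_cycleOn.choose_spec.2 (Equiv.Perm.mem_support.mpr hne))

theorem pi_mem (i j : Fin (m + 3)) (T : Finset (Fin (m + 3))) :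
    pi m D i j T ∈ Tw m D i j ↔ T ∈ Tw m D i j := (pi_cyc m D i j).apply_mem_iff

theorem pi_ok (i j : Fin (m + 3)) (T : Finset (Fin (m + 3))) :
    (i ∈ pi m D i j T ∧ j ∈ pi m D i j T ∧ 2 ≤ (pi m D i j T).card ∧ (pi m D i j T).card ≤ D + 1) ↔
    (i ∈ T ∧ j ∈ T ∧ 2 ≤ T.card ∧ T.card ≤ D + 1) := by
  by_cases h : T ∈ Tw m D i j
  · have h' := (pi_mem m D i j T).mpr h
    exact iff_of_true (mem_filter.mp h').2.1 (mem_filter.mp h).2.1
  · rw [pi_fix m D i j T h]

theorem v1 : ((1 : Fin (m + 3)) : ℕ) = 1 := rfl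

theorem v2 : ((2 : Fin (m + 3)) : ℕ) = 2 := rfl

def ell (j : Fin (m + 3)) : Fin (m + 3) := if j = 1 then 2 else 1

theorem ell_ne (j : Fin (m + 3)) : ell m j ≠ 0 ∧ ell m j ≠ j := by
  unfold ell
  split_ifs with h
  · subst h
    constructor
    · intro h
      have := congrArg Fin.val h
      rw [v2] at this
      simp at this
    · intro h
      have := congrArg Fin.val h
      rw [v2, v1] at this
      omega
  · exact ⟨by simp, fun h' => h h'.symm⟩

def R1 (u v : W m D) : Prop := u.1.1 < v.1.1 ∧ v.1.1 ∈ u.1.2 ∧ v.1.2 = pi m D u.1.1 v.1.1 u.1.2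

def R2 (u v : W m D) : Prop :=
  u.1.1 = 0 ∧ v.1.1 ≠ 0 ∧ u.1.2 = {0, v.1.1} ∧ v.1.2 = {0, v.1.1, ell m v.1.1}

def G : SimpleGraph (W m D) where
  Adj u v := R1 m D u v ∨ R1 m D v u ∨ R2 m D u v ∨ R2 m D v u
  symm := ⟨fun u v h => by tauto⟩
  loopless := ⟨fun u h => by
    rcases h with h | h | h | h
    · exact lt_irrefl _ h.1
    · exact lt_irrefl _ h.1
    · exact h.2.1 h.1
    · exact h.2.1 h.1⟩

theorem adj_col {u v : W m D} (h : (G m D).Adj u v) : u.1.1 ≠ v.1.1 ∧ v.1.1 ∈ u.1.2 := by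
  rcases h with h | h | h | h
  · exact ⟨h.1.ne, h.2.1⟩
  · refine ⟨h.1.ne', ?_⟩
    rw [h.2.2]
    exact ((pi_ok m D _ _ _).mpr ⟨v.2.1, h.2.1, v.2.2⟩).1
  · exact ⟨fun e => h.2.1 (e ▸ h.1), by rw [h.2.2.1]; simp⟩
  · exact ⟨fun e => h.2.1 (e ▸ h.1), by rw [h.2.2.2, h.1]; simp⟩

theorem up (u : W m D) (j : Fin (m + 3)) (hj : j ∈ u.1.2) (h : u.1.1 < j) :
    ∃ v : W m D, v.1 = (j, pi m D u.1.1 j u.1.2) ∧ (G m D).Adj u v := by
  have := (pi_ok m D u.1.1 j u.1.2).mpr ⟨u.2.1, hj, u.2.2⟩
  exact ⟨⟨(j, pi m D u.1.1 j u.1.2), this.2.1, this.2.2⟩, rfl, Or.inl ⟨h, hj, rfl⟩⟩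

theorem down (u : W m D) (j : Fin (m + 3)) (hj : j ∈ u.1.2) (h : j < u.1.1) :
    ∃ v : W m D, v.1 = (j, (pi m D j u.1.1).symm u.1.2) ∧ (G m D).Adj u v := by
  have := (pi_ok m D j u.1.1 ((pi m D j u.1.1).symm u.1.2)).mp
    (by rw [Equiv.apply_symm_apply]; exact ⟨hj, u.2.1, u.2.2⟩)
  exact ⟨⟨(j, (pi m D j u.1.1).symm u.1.2), this.1, this.2.2⟩, rfl,
    Or.inr (Or.inl ⟨h, this.2.1, by simp⟩)⟩

theorem exists_col (u : W m D) (j : Fin (m + 3)) (hj : j ∈ u.1.2) (h : j ≠ u.1.1) :
    ∃ v : W m D, (G m D).Adj u v ∧ v.1.1 = j := by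
  rcases lt_or_gt_of_ne h with h | h
  · obtain ⟨v, h1, h2⟩ := down m D u j hj h
    exact ⟨v, h2, by rw [h1]⟩
  · obtain ⟨v, h1, h2⟩ := up m D u j hj h
    exact ⟨v, h2, by rw [h1]⟩

theorem nbr (u : W m D) :
    nbrColours (G m D) (fun v => v.1.1) u = (u.1.2.erase u.1.1 : Finset (Fin (m + 3))) := by
  ext j
  simp only [nbrColours, Set.mem_ofPred_eq, coe_erase, Set.mem_sdiff, mem_coe,
    Set.mem_singleton_iff]
  constructor
  · rintro ⟨w, hw, rfl⟩
    exact ⟨(adj_col m D hw).2, (adj_col m D hw).1.symm⟩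
  · rintro ⟨h1, h2⟩
    exact exists_col m D u j h1 h2

def pairV (hD : 1 ≤ D) (i j : Fin (m + 3)) (h : i ≠ j) : W m D :=
  ⟨(i, {i, j}), by simp, by simp [card_pair h], by simp [card_pair h]; omega⟩

theorem isNL (hD : 1 ≤ D) : IsNL (G m D) (m + 3) (fun v => v.1.1) := by
  refine ⟨fun i => ⟨pairV m D hD i (ell m i) (ell_ne m i).2.symm, rfl⟩,
    fun u v h => (adj_col m D h).1, ?_⟩
  intro u v hne hc h
  rw [nbr, nbr] at h
  have h' : u.1.2.erase u.1.1 = v.1.2.erase v.1.1 := by exact_mod_cast h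
  apply hne
  apply Subtype.ext
  have hc' : u.1.1 = v.1.1 := hc
  apply Prod.ext hc'
  rw [← insert_erase u.2.1, h', hc', insert_erase v.2.1]

theorem deg_le (hD : 3 ≤ D) [DecidableRel (G m D).Adj] (u : W m D) : (G m D).degree u ≤ D := by
  classical
  have hsub : (G m D).neighborFinset u ⊆ (univ.filter fun v => R1 m D u v ∨ R1 m D v u) ∪
      (univ.filter fun v => R2 m D u v ∨ R2 m D v u) := by
    intro v hv
    have : (G m D).Adj u v := by simpa using hv
    simp only [mem_union, mem_filter, mem_univ, true_and]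
    rcases this with h | h | h | h <;> tauto
  have h1 : (univ.filter fun v => R1 m D u v ∨ R1 m D v u).card ≤ (u.1.2.erase u.1.1).card := by
    refine Finset.card_le_card_of_injOn (fun v => v.1.1) ?_ ?_
    · intro v hv
      have h : (G m D).Adj u v := by
        rcases (mem_filter.mp hv).2 with h | h
        · exact Or.inl h
        · exact Or.inr (Or.inl h)
      exact mem_coe.mpr (mem_erase.mpr ⟨(adj_col m D h).1.symm, (adj_col m D h).2⟩)
    · intro v hv w hw e
      simp only at e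
      apply Subtype.ext
      apply Prod.ext e
      rcases (mem_filter.mp hv).2 with h | h <;> rcases (mem_filter.mp hw).2 with h' | h'
      · rw [h.2.2, h'.2.2, e]
      · exact absurd (e ▸ h.1) (lt_asymm h'.1)
      · exact absurd (e ▸ h.1) (lt_asymm h'.1)
      · apply (pi m D v.1.1 u.1.1).injective
        rw [← h.2.2, e, ← h'.2.2]
  have h2 : (univ.filter fun v => R2 m D u v ∨ R2 m D v u).card ≤ 1 := by
    rw [Finset.card_le_one]
    intro v hv w hw
    rcases (mem_filter.mp hv).2 with h | h <;> rcases (mem_filter.mp hw).2 with h' | h'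
    · have e : v.1.1 = w.1.1 := by
        have : v.1.1 ∈ u.1.2 := by rw [h.2.2.1]; simp
        rw [h'.2.2.1] at this
        simpa [h.2.1] using this
      apply Subtype.ext
      apply Prod.ext e
      rw [h.2.2.2, h'.2.2.2, e]
    · exact absurd h.1 h'.2.1
    · exact absurd h'.1 h.2.1
    · apply Subtype.ext
      apply Prod.ext (h.1.trans h'.1.symm)
      rw [h.2.2.1, h'.2.2.1]
  have h3 := (Finset.card_le_card hsub).trans (Finset.card_union_le _ _)
  rw [card_erase_of_mem u.2.1] at h1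
  rw [SimpleGraph.card_neighborFinset_eq_degree] at h3
  have h4 := u.2.2.2
  by_cases h5 : u.1.2.card ≤ 3
  · omega
  · have : (univ.filter fun v => R2 m D u v ∨ R2 m D v u).card = 0 := by
      rw [Finset.card_eq_zero, Finset.filter_eq_empty_iff]
      rintro v _ (h | h)
      · apply h5
        rw [h.2.2.1]
        exact Finset.card_le_two.trans (by norm_num)
      · apply h5
        rw [h.2.2.2]
        exact Finset.card_le_three
    omega

theorem deg_ge (hD : 1 ≤ D) (hm : D ≤ m + 1) [DecidableRel (G m D).Adj] :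
    ∃ u : W m D, D ≤ (G m D).degree u := by
  obtain ⟨T, _, hT⟩ := Finset.exists_subset_card_eq (s := (univ : Finset (Fin (m + 3))))
    (n := D + 1) (by simp; omega)
  obtain ⟨i, hi⟩ : T.Nonempty := Finset.card_pos.mp (by omega)
  let u : W m D := ⟨(i, T), hi, by simp only [hT]; omega, by simp only [hT]; omega⟩
  refine ⟨u, ?_⟩
  have h1 : T.erase i ⊆ ((G m D).neighborFinset u).image (fun v => v.1.1) := by
    intro j hj
    obtain ⟨v, hv, e⟩ := exists_col m D u j (mem_erase.mp hj).2 (mem_erase.mp hj).1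
    exact mem_image.mpr ⟨v, by simpa using hv, e⟩
  have h2 := (Finset.card_le_card h1).trans Finset.card_image_le
  rw [card_erase_of_mem hi, hT, SimpleGraph.card_neighborFinset_eq_degree] at h2
  omega

theorem inner (u v : W m D) (e : u.1.2 = v.1.2) (h3 : 3 ≤ u.1.2.card) :
    (G m D).Reachable u v := by
  have hne : u.1.2.Nonempty := ⟨_, u.2.1⟩
  let a : W m D := ⟨(u.1.2.min' hne, u.1.2), Finset.min'_mem _ hne, u.2.2⟩
  have key : ∀ w : W m D, w.1.2 = u.1.2 → (G m D).Reachable a w := by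
    intro w hw
    have h1 : w.1.1 ∈ u.1.2 := hw ▸ w.2.1
    rcases (Finset.min'_le _ _ h1).eq_or_lt with h | h
    · have : a = w := Subtype.ext (Prod.ext h hw.symm)
      rw [this]
    · obtain ⟨x, hx, hadj⟩ := up m D a w.1.1 h1 h
      have hfix : pi m D a.1.1 w.1.1 a.1.2 = u.1.2 := by
        apply pi_fix
        intro hT
        rcases (mem_filter.mp hT).2.2 with h2 | ⟨y, hy, hlt⟩
        · have h4 : u.1.2.card ≤ 2 := by
            have h5 : u.1.2 = {a.1.1, w.1.1} := h2
            rw [h5]; exact Finset.card_le_two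
          omega
        · exact absurd (Finset.min'_le _ _ hy) (not_le.mpr hlt)
      have : x = w := Subtype.ext (by rw [hx, hfix, ← hw])
      exact this ▸ hadj.reachable
  exact (key u rfl).symm.trans (key v e.symm)

theorem group (hD : 1 ≤ D) (i j : Fin (m + 3)) (h : i < j) (u : W m D)
    (hu : u.1.2 ∈ Tw m D i j) : (G m D).Reachable (pairV m D hD i j h.ne) u := by
  have h0 : ({i, j} : Finset (Fin (m + 3))) ∈ Tw m D i j := by
    simp only [Tw, mem_filter, mem_univ, true_and, true_or, and_true]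
    refine ⟨by simp, by simp, by simp [card_pair h.ne], by simp [card_pair h.ne]; omega⟩
  have big : ∀ T ∈ Tw m D i j, T ≠ {i, j} → 3 ≤ T.card := by
    intro T hT hne
    have h1 := (mem_filter.mp hT).2.1
    by_contra hlt
    apply hne
    symm
    apply Finset.eq_of_subset_of_card_le
    · intro x hx
      rcases mem_insert.mp hx with rfl | hx
      · exact h1.1
      · rw [mem_singleton.mp hx]; exact h1.2.1
    · rw [card_pair h.ne]; omega
  have key : ∀ n : ℕ, ∀ w : W m D, w.1 = (i, ((pi m D i j) ^ n) {i, j}) →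
      (G m D).Reachable (pairV m D hD i j h.ne) w := by
    intro n
    induction n with
    | zero =>
      intro w hw
      have : pairV m D hD i j h.ne = w := Subtype.ext (by rw [hw]; rfl)
      rw [this]
    | succ n ih =>
      intro w hw
      by_cases hb : ((pi m D i j) ^ (n + 1)) {i, j} = {i, j}
      · have : pairV m D hD i j h.ne = w := Subtype.ext (by rw [hw, hb]; rfl)
        rw [this]
      · have hn : ∀ n : ℕ, ((pi m D i j) ^ n) {i, j} ∈ Tw m D i j := by
          intro n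
          induction n with
          | zero => exact h0
          | succ n ih => rw [pow_succ', Equiv.Perm.mul_apply, pi_mem]; exact ih
        have h1 := (mem_filter.mp (hn n)).2.1
        let a : W m D := ⟨(i, ((pi m D i j) ^ n) {i, j}), h1.1, h1.2.2⟩
        obtain ⟨x, hx, hadj⟩ := up m D a j h1.2.1 h
        have e : x.1.2 = ((pi m D i j) ^ (n + 1)) {i, j} := by
          rw [hx, pow_succ', Equiv.Perm.mul_apply]
        exact (ih a rfl).trans (hadj.reachable.trans (inner m D x w (by rw [e, hw])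
          (by rw [e]; exact big _ (hn _) hb)))
  have key2 : ∀ w : W m D, w.1.1 = i → w.1.2 ∈ Tw m D i j →
      (G m D).Reachable (pairV m D hD i j h.ne) w := by
    intro w hw hT
    obtain ⟨n, _, hn⟩ := (pi_cyc m D i j).exists_pow_eq h0 hT
    exact key n w (Prod.ext hw hn.symm)
  by_cases hb : u.1.2 = {i, j}
  · have h1 := u.2.1
    rw [hb, mem_insert, mem_singleton] at h1
    rcases h1 with h1 | h1
    · exact key2 u h1 hu
    · obtain ⟨x, hx, hadj⟩ := down m D u i (by rw [hb]; simp) (h1 ▸ h)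
      refine (key2 x (by rw [hx]) ?_).trans hadj.reachable.symm
      rw [hx, h1, ← pi_mem]
      simpa using hu
  · have h1 := (mem_filter.mp hu).2.1
    let a : W m D := ⟨(i, u.1.2), h1.1, h1.2.2⟩
    exact (key2 a rfl hu).trans (inner m D a u rfl (big _ hu hb))

theorem mem_Tw (u : W m D) (x i j : Fin (m + 3)) (hx : x ∈ u.1.2) (hi : i ∈ u.1.2)
    (hj : j ∈ u.1.2) (h : x < i) : u.1.2 ∈ Tw m D i j :=
  mem_filter.mpr ⟨mem_univ _, ⟨hi, hj, u.2.2⟩, Or.inr ⟨x, hx, h⟩⟩

theorem tri (hD : 3 ≤ D) (i j l : Fin (m + 3)) (h0 : 0 < i) (h1 : i < j) (h2 : j < l) :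
    (G m D).Reachable (pairV m D (by omega) i j h1.ne) (pairV m D (by omega) i l (h1.trans h2).ne) ∧
    (G m D).Reachable (pairV m D (by omega) i l (h1.trans h2).ne)
      (pairV m D (by omega) j l h2.ne) := by
  let u : W m D := ⟨(0, {0, i, j, l}), by simp,
    Finset.one_lt_card.mpr ⟨0, by simp, i, by simp, h0.ne⟩,
    Finset.card_le_four.trans (by omega)⟩
  have a1 := group m D (by omega) i j h1 u (mem_Tw m D u 0 i j (by simp [u]) (by simp [u])
    (by simp [u]) h0)
  have a2 := group m D (by omega) i l (h1.trans h2) u (mem_Tw m D u 0 i l (by simp [u])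
    (by simp [u]) (by simp [u]) h0)
  have a3 := group m D (by omega) j l h2 u (mem_Tw m D u 0 j l (by simp [u]) (by simp [u])
    (by simp [u]) (h0.trans h1))
  exact ⟨a1.trans a2.symm, a2.trans a3.symm⟩

theorem lt12 : (1 : Fin (m + 3)) < 2 := by rw [Fin.lt_def, v1, v2]; omega

theorem base (hD : 3 ≤ D) (i j : Fin (m + 3)) (h0 : 0 < i) (h : i < j) :
    (G m D).Reachable (pairV m D (by omega) 1 2 (lt12 m).ne) (pairV m D (by omega) i j h.ne) := by
  have h01 : (0 : Fin (m + 3)) < 1 := by simp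
  have k1 : ∀ (j : Fin (m + 3)) (h : 1 < j), (G m D).Reachable
      (pairV m D (by omega) 1 2 (lt12 m).ne) (pairV m D (by omega) 1 j h.ne) := by
    intro j h
    have : 2 ≤ j := by
      rw [Fin.lt_def, v1] at h
      rw [Fin.le_def, v2]
      omega
    rcases this.eq_or_lt with e | e
    · subst e; rfl
    · exact (tri m D hD 1 2 j h01 (lt12 m) e).1
  have : 1 ≤ i := by
    rw [Fin.lt_def, Fin.val_zero] at h0
    rw [Fin.le_def, v1]
    omega
  rcases this.eq_or_lt with e | e
  · subst e; exact k1 j h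
  · exact (k1 j (e.trans h)).trans (tri m D hD 1 i j h01 e h).2

theorem big_reach (hD : 3 ≤ D) (u : W m D) (h3 : 3 ≤ u.1.2.card) :
    (G m D).Reachable (pairV m D (by omega) 1 2 (lt12 m).ne) u := by
  have hne : u.1.2.Nonempty := ⟨_, u.2.1⟩
  have h1 : 1 < (u.1.2.erase (u.1.2.min' hne)).card := by
    rw [card_erase_of_mem (Finset.min'_mem _ _)]; omega
  obtain ⟨a, ha, b, hb, hab⟩ := Finset.one_lt_card.mp h1
  have key : ∀ a b, a ∈ u.1.2.erase (u.1.2.min' hne) → b ∈ u.1.2.erase (u.1.2.min' hne) → a < b →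
      (G m D).Reachable (pairV m D (by omega) 1 2 (lt12 m).ne) u := by
    intro a b ha hb h
    rw [mem_erase] at ha hb
    have hlt : u.1.2.min' hne < a := lt_of_le_of_ne (Finset.min'_le _ _ ha.2) ha.1.symm
    exact (base m D hD a b (lt_of_le_of_lt (Fin.zero_le _) hlt) h).trans
      (group m D (by omega) a b h u (mem_Tw m D u _ a b (Finset.min'_mem _ _) ha.2 hb.2 hlt))
  rcases lt_or_gt_of_ne hab with h | h
  · exact key a b ha hb h
  · exact key b a hb ha h

theorem conn (hD : 3 ≤ D) : (G m D).Connected := by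
  have all : ∀ u : W m D, (G m D).Reachable (pairV m D (by omega) 1 2 (lt12 m).ne) u := by
    intro u
    by_cases h3 : 3 ≤ u.1.2.card
    · exact big_reach m D hD u h3
    · have h2 : u.1.2.card = 2 := by have := u.2.2.1; omega
      obtain ⟨a, b, hab, e⟩ := Finset.card_eq_two.mp h2
      have key : ∀ a b, a < b → u.1.2 = {a, b} →
          (G m D).Reachable (pairV m D (by omega) 1 2 (lt12 m).ne) u := by
        intro a b h e
        have hT : u.1.2 ∈ Tw m D a b :=
          mem_filter.mpr ⟨mem_univ _, ⟨by simp [e], by simp [e], u.2.2⟩, Or.inl e⟩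
        refine SimpleGraph.Reachable.trans ?_ (group m D (by omega) a b h u hT)
        rcases (Fin.zero_le a).eq_or_lt with h0 | h0
        · subst h0
          have hc : ({0, b, ell m b} : Finset (Fin (m + 3))).card = 3 :=
            Finset.card_eq_three.mpr ⟨0, b, ell m b, h.ne, (ell_ne m b).1.symm,
              (ell_ne m b).2.symm, rfl⟩
          let v : W m D := ⟨(b, {0, b, ell m b}), by simp, by simp only [hc]; omega,
            by simp only [hc]; omega⟩
          have hadj : (G m D).Adj (pairV m D (by omega) 0 b h.ne) v :=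
            Or.inr (Or.inr (Or.inl ⟨rfl, h.ne', rfl, rfl⟩))
          exact (big_reach m D hD v (by simp only [v, hc]; omega)).trans hadj.reachable.symm
        · exact base m D hD a b h0 h
      rcases lt_or_gt_of_ne hab with h | h
      · exact key a b h e
      · exact key b a h (by rw [e, pair_comm])
  have : Nonempty (W m D) := ⟨pairV m D (by omega) 1 2 (lt12 m).ne⟩
  exact ⟨fun u v => (all u).symm.trans (all v)⟩

theorem chi (hD : 3 ≤ D) : chiNL (G m D) = m + 3 := by
  classical
  apply le_antisymm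
  · exact Nat.sInf_le ⟨_, isNL m D (by omega)⟩
  · refine le_csInf ⟨_, _, isNL m D (by omega)⟩ ?_
    rintro k' ⟨c, hc⟩
    by_contra hlt
    have h1 := upper (G m D) D k' c hc (fun v => by
      obtain ⟨j, hj, hne⟩ := Finset.exists_mem_ne (by have := v.2.2.1; omega : 1 < v.1.2.card) v.1.1
      obtain ⟨w, hw, _⟩ := exists_col m D v j hj hne
      exact ⟨w, hw⟩) (deg_le m D hD)
    have h2 := B_lt D (m + 3) k' (by omega) (by omega) (by omega)
    rw [card_W] at h1
    omega

end Pool.Agent.H20.NLExt
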