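import Pool.Agent.H20.Rooted
import Pool.Agent.H20.NLDefs

namespace Pool.Agent.H20.NLTree
open Finset Pool.Agent.H20

variable {V : Type} [Fintype V] {T : SimpleGraph V} {k : ℕ} {c : V → Fin k}

open Classical in
theorem pool_card (hc : IsNL T k c) (c0 : Fin k) (F : Fin k → Set (Fin k)) :
    (univ.filter fun z => c z ≠ c0 ∧ ∃ j, j ≠ c z ∧ nbrColours T c z = F j).card ≤ (k - 1) ^ 2 := by
  have h1 : ((univ.erase c0).sigma fun i : Fin k => univ.erase i).card = (k - 1) ^ 2 := by
    rw [Finset.card_sigma]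
    simp [sq]
  rw [← h1]
  have : ∀ z : V, ∃ j, (c z ≠ c0 ∧ ∃ j, j ≠ c z ∧ nbrColours T c z = F j) →
      j ≠ c z ∧ nbrColours T c z = F j := by
    intro z
    by_cases h : ∃ j, j ≠ c z ∧ nbrColours T c z = F j
    · obtain ⟨j, hj⟩ := h
      exact ⟨j, fun _ => hj⟩
    · exact ⟨c0, fun h' => absurd h'.2 h⟩
  choose J hJ using this
  refine Finset.card_le_card_of_injOn (fun z => ⟨c z, J z⟩) ?_ ?_
  · intro z hz
    have hz' := (mem_filter.mp hz).2
    simp [hz'.1, (hJ z hz').1]
  · intro z hz w hw h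
    have hz' := (mem_filter.mp hz).2
    have hw' := (mem_filter.mp hw).2
    simp only [Sigma.mk.injEq, heq_eq_eq] at h
    by_contra hne
    apply hc.2.2 z w hne h.1
    rw [(hJ z hz').2, (hJ w hw').2, h.2]

theorem deg_le (hT : T.IsTree) (hc : IsNL T k c) (r : V) [Fintype (T.neighborSet r)] :
    T.degree r ≤ (k - 1) ^ 2 := by
  classical
  obtain ⟨par, hp1, hp2⟩ := rooted T hT r
  let A : V → Prop := fun z => c z ≠ c r ∧ ∃ j, j ≠ c z ∧ nbrColours T c z = {c r, j}
  let B : V → Prop := fun z => c z ≠ c r ∧ ∃ j, j ≠ c z ∧ nbrColours T c z = {j}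
  let D : V → V → Prop := fun z t => ∃ m, par^[m] t = z ∧ T.dist r t = T.dist r z + m
  have Dup : ∀ z t w, D z t → w ≠ r → t = par w → D z w := by
    rintro z t w ⟨m, h1, h2⟩ hw rfl
    refine ⟨m + 1, h1, ?_⟩
    have := (hp1 w hw).2
    omega
  have Ddown : ∀ u w t, w ≠ r → u = par w → D w t → D u t := by
    rintro u w t hw rfl ⟨m, h1, h2⟩
    refine ⟨m + 1, by rw [Function.iterate_succ_apply', h1], ?_⟩
    have := (hp1 w hw).2
    omega
  have Duniq : ∀ z z' t, D z t → D z' t → T.dist r z = T.dist r z' → z = z' := by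
    rintro z z' t ⟨m, h1, h2⟩ ⟨m', h3, h4⟩ h
    have : m = m' := by omega
    subst this
    rw [← h1, ← h3]
  have L1 : ∀ z, c z ≠ c r → ∃ t, D z t ∧ (A t ∨ B t) := by
    intro z hz
    obtain ⟨t, ht, hmax⟩ := Finset.exists_max_image (univ.filter fun t => c t ≠ c r ∧ D z t)
      (T.dist r) ⟨z, by simp only [mem_filter, mem_univ, true_and]; exact ⟨hz, 0, rfl, rfl⟩⟩
    simp only [mem_filter, mem_univ, true_and] at ht hmax
    have htr : t ≠ r := fun h => ht.1 (h ▸ rfl)
    have hadj := (hp1 t htr).1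
    have hch : ∀ w, T.Adj t w → w = par t ∨ c w = c r := by
      intro w hw
      rcases hp2 t w hw with h | h
      · exact Or.inl h.2
      · right
        by_contra hne
        have := hmax w ⟨hne, Dup z t w ht.2 h.1 h.2⟩
        have h3 := (hp1 w h.1).2
        rw [← h.2] at h3
        omega
    refine ⟨t, ht.2, ?_⟩
    by_cases h0 : ∃ w, T.Adj t w ∧ c w = c r
    · left
      refine ⟨ht.1, c (par t), (hc.2.1 _ _ hadj).symm, ?_⟩
      ext i
      simp only [nbrColours, Set.mem_ofPred_eq, Set.mem_insert_iff, Set.mem_singleton_iff]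
      constructor
      · rintro ⟨w, hw, rfl⟩
        rcases hch w hw with h | h
        · right; rw [h]
        · left; exact h
      · rintro (rfl | rfl)
        · exact h0
        · exact ⟨_, hadj, rfl⟩
    · right
      refine ⟨ht.1, c (par t), (hc.2.1 _ _ hadj).symm, ?_⟩
      ext i
      simp only [nbrColours, Set.mem_ofPred_eq, Set.mem_singleton_iff]
      constructor
      · rintro ⟨w, hw, rfl⟩
        rcases hch w hw with h | h
        · rw [h]
        · exact absurd ⟨w, hw, h⟩ h0
      · rintro rfl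
        exact ⟨_, hadj, rfl⟩
  let S : V × Bool → Prop := fun x => (x.2 = true ∧ A x.1) ∨ (x.2 = false ∧ B x.1)
  have toS : ∀ t, A t ∨ B t → ∃ b, S (t, b) := by
    rintro t (h | h)
    · exact ⟨true, Or.inl ⟨rfl, h⟩⟩
    · exact ⟨false, Or.inr ⟨rfl, h⟩⟩
  have L2 : ∀ u, T.Adj r u → 2 ≤ (univ.filter fun x : V × Bool => S x ∧ D u x.1).card := by
    intro u hu
    have hcu : c u ≠ c r := (hc.2.1 _ _ hu).symm
    have hdu : T.dist r u = 1 := SimpleGraph.dist_eq_one_iff_adj.mpr hu
    have hpu : par u = r := by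
      rcases hp2 r u hu with h | h
      · exact absurd rfl h.1
      · exact h.2.symm
    have hch : ∀ w, T.Adj u w → c w ≠ c r → w ≠ r ∧ u = par w ∧ T.dist r w = 2 := by
      intro w hw hcw
      rcases hp2 u w hw with h | h
      · rw [hpu] at h
        exact absurd (h.2 ▸ rfl) hcw
      · have h3 := (hp1 w h.1).2
        rw [← h.2, hdu] at h3
        exact ⟨h.1, h.2, h3⟩
    have D0 : D u u := ⟨0, rfl, rfl⟩
    apply Finset.one_lt_card.mpr
    simp only [mem_filter, mem_univ, true_and]
    by_cases h1 : ∃ w, T.Adj u w ∧ c w ≠ c r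
    · obtain ⟨w, hw, hcw⟩ := h1
      obtain ⟨w1, w2, w3⟩ := hch w hw hcw
      obtain ⟨t, ht, hAB⟩ := L1 w hcw
      obtain ⟨b, hb⟩ := toS t hAB
      by_cases h2 : ∃ w', T.Adj u w' ∧ c w' ≠ c r ∧ c w' ≠ c w
      · obtain ⟨w', hw', hcw', hne⟩ := h2
        obtain ⟨v1, v2, v3⟩ := hch w' hw' hcw'
        obtain ⟨t', ht', hAB'⟩ := L1 w' hcw'
        obtain ⟨b', hb'⟩ := toS t' hAB'
        refine ⟨(t, b), ⟨hb, Ddown u w t w1 w2 ht⟩, (t', b'), ⟨hb', Ddown u w' t' v1 v2 ht'⟩, ?_⟩
        intro h
        have : t = t' := congrArg Prod.fst h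
        subst this
        exact hne (by rw [Duniq w w' t ht ht' (by omega)])
      · have hA : A u := by
          refine ⟨hcu, c w, (hc.2.1 _ _ hw).symm, ?_⟩
          ext i
          simp only [nbrColours, Set.mem_ofPred_eq, Set.mem_insert_iff, Set.mem_singleton_iff]
          constructor
          · rintro ⟨x, hx, rfl⟩
            by_contra hcon
            push Not at hcon
            exact h2 ⟨x, hx, hcon.1, hcon.2⟩
          · rintro (rfl | rfl)
            · exact ⟨r, hu.symm, rfl⟩
            · exact ⟨w, hw, rfl⟩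
        refine ⟨(t, b), ⟨hb, Ddown u w t w1 w2 ht⟩, (u, true), ⟨Or.inl ⟨rfl, hA⟩, D0⟩, ?_⟩
        intro h
        have : t = u := congrArg Prod.fst h
        subst this
        obtain ⟨m, _, hm⟩ := ht
        omega
    · have hN : nbrColours T c u = {c r} := by
        ext i
        simp only [nbrColours, Set.mem_ofPred_eq, Set.mem_singleton_iff]
        constructor
        · rintro ⟨x, hx, rfl⟩
          by_contra hcon
          exact h1 ⟨x, hx, hcon⟩
        · rintro rfl
          exact ⟨r, hu.symm, rfl⟩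
      refine ⟨(u, true), ⟨Or.inl ⟨rfl, hcu, c r, hcu.symm, by rw [hN]; simp⟩, D0⟩,
        (u, false), ⟨Or.inr ⟨rfl, hcu, c r, hcu.symm, hN⟩, D0⟩, by simp⟩
  have hA := pool_card hc (c r) (fun j => {c r, j})
  have hB := pool_card hc (c r) (fun j => {j})
  have hS : (univ.filter S).card ≤ 2 * (k - 1) ^ 2 := by
    have : univ.filter S ⊆ (univ.filter A).image (fun t => (t, true)) ∪
        (univ.filter B).image (fun t => (t, false)) := by
      rintro ⟨t, b⟩ hx
      rcases (mem_filter.mp hx).2 with ⟨h1, h2⟩ | ⟨h1, h2⟩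
      · simp only at h1 h2
        subst h1
        exact mem_union_left _ (mem_image.mpr ⟨t, mem_filter.mpr ⟨mem_univ _, h2⟩, rfl⟩)
      · simp only at h1 h2
        subst h1
        exact mem_union_right _ (mem_image.mpr ⟨t, mem_filter.mpr ⟨mem_univ _, h2⟩, rfl⟩)
    have h1 := (Finset.card_le_card this).trans (Finset.card_union_le _ _)
    have h2 := Finset.card_image_le (s := univ.filter A) (f := fun t => (t, true))
    have h3 := Finset.card_image_le (s := univ.filter B) (f := fun t => (t, false))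
    have h4 : (univ.filter A).card ≤ (k - 1) ^ 2 := by convert hA
    have h5 : (univ.filter B).card ≤ (k - 1) ^ 2 := by convert hB
    omega
  have hdisj : ((T.neighborFinset r).biUnion
      fun u => univ.filter fun x : V × Bool => S x ∧ D u x.1).card
      = ∑ u ∈ T.neighborFinset r, (univ.filter fun x : V × Bool => S x ∧ D u x.1).card := by
    apply Finset.card_biUnion
    intro u hu u' hu' hne
    rw [Function.onFun, Finset.disjoint_left]
    intro x hx hx'
    simp only [SimpleGraph.coe_neighborFinset, SimpleGraph.mem_neighborSet] at hu hu'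
    exact hne (Duniq u u' x.1 (mem_filter.mp hx).2.2 (mem_filter.mp hx').2.2
      (by rw [SimpleGraph.dist_eq_one_iff_adj.mpr hu, SimpleGraph.dist_eq_one_iff_adj.mpr hu']))
  have hsub : ((T.neighborFinset r).biUnion
      fun u => univ.filter fun x : V × Bool => S x ∧ D u x.1) ⊆ univ.filter S := by
    intro x hx
    obtain ⟨u, _, hu⟩ := mem_biUnion.mp hx
    exact mem_filter.mpr ⟨mem_univ _, (mem_filter.mp hu).2.1⟩
  have h6 := Finset.card_le_card hsub
  rw [hdisj] at h6
  have h7 := Finset.card_nsmul_le_sum (T.neighborFinset r)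
    (fun u => (univ.filter fun x : V × Bool => S x ∧ D u x.1).card) 2
    (fun u hu => L2 u (by simpa using hu))
  rw [smul_eq_mul, SimpleGraph.card_neighborFinset_eq_degree] at h7
  omega

end Pool.Agent.H20.NLTree
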