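import Mathlib

set_option autoImplicit false

namespace Pool.Agent.H20.NerdDefs

open Classical

variable {V : Type} [Fintype V]

/-- No induced (chordless) cycle of length at least four. -/
def IsChordal (G : SimpleGraph V) : Prop :=
  ∀ (v : V) (c : G.Walk v v), c.IsCycle → 4 ≤ c.length → ¬ c.IsChordless

/-- The sum of `f` over the closed neighbourhood of `v`. -/
noncomputable def closedSum (G : SimpleGraph V) (f : V → ℝ) (v : V) : ℝ :=
  ∑ u, if u = v ∨ G.Adj v u then f u else 0

/-- The real domination number, in the extended reals. -/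
noncomputable def realDomNum (G : SimpleGraph V) : EReal :=
  sInf {x : EReal | ∃ f : V → ℝ, (∀ v, 1 ≤ closedSum G f v) ∧ x = ((∑ v, f v : ℝ) : EReal)}

/-- Nonnegative efficient real dominating function. -/
def IsNERD (G : SimpleGraph V) (f : V → ℝ) : Prop :=
  (∀ v, 0 ≤ f v) ∧ ∀ v, closedSum G f v = 1

/-- The domination number. -/
noncomputable def domNum (G : SimpleGraph V) : ℕ :=
  sInf {n : ℕ | ∃ D : Finset V, (∀ v, v ∈ D ∨ ∃ u ∈ D, G.Adj v u) ∧ D.card = n}

end Pool.Agent.H20.NerdDefs
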