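import Mathlib
import Pool.Agent.H20.Chordal
import Pool.Agent.H20.NerdDefs

set_option autoImplicit false

namespace Pool.Agent.H20.Nerd

open Finset Classical Pool.Agent.H20.NerdDefs Pool.Agent.H20.Chordal

variable {V : Type} [Fintype V] (G : SimpleGraph V)

theorem swap (f g : V → ℝ) : ∑ v, f v * closedSum G g v = ∑ v, g v * closedSum G f v := by
  unfold closedSum
  simp only [mul_sum]
  rw [sum_comm]
  refine sum_congr rfl fun u _ => sum_congr rfl fun v _ => ?_
  by_cases h : u = v ∨ G.Adj v u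
  · have h' : v = u ∨ G.Adj u v := h.imp Eq.symm SimpleGraph.Adj.symm
    rw [if_pos h, if_pos h', mul_comm]
  · have h' : ¬ (v = u ∨ G.Adj u v) := fun h' => h (h'.imp Eq.symm SimpleGraph.Adj.symm)
    rw [if_neg h, if_neg h']; simp

theorem incl {f : V → ℝ} (hf : IsNERD G f) (a b : V)
    (h : ∀ u, 0 < f u → (u = a ∨ G.Adj a u) → (u = b ∨ G.Adj b u)) :
    ∀ u, 0 < f u → (u = b ∨ G.Adj b u) → (u = a ∨ G.Adj a u) := by
  intro u hu hb
  by_contra ha
  have : closedSum G f a < closedSum G f b := by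
    refine sum_lt_sum (fun x _ => ?_) ⟨u, mem_univ _, by rw [if_neg ha, if_pos hb]; exact hu⟩
    by_cases h1 : x = a ∨ G.Adj a x
    · rw [if_pos h1]
      rcases (hf.1 x).lt_or_eq with h2 | h2
      · rw [if_pos (h x h2 h1)]
      · split_ifs
        · exact le_rfl
        · exact h2.ge
    · rw [if_neg h1]
      split_ifs
      · exact hf.1 x
      · exact le_rfl
  rw [hf.2, hf.2] at this
  exact lt_irrefl _ this

theorem cluster (hG : IsChordal G) {f : V → ℝ} (hf : IsNERD G f) :
    ∀ x y, 0 < f x → 0 < f y → G.Adj x y → ∀ u, 0 < f u →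
      ((u = x ∨ G.Adj x u) ↔ (u = y ∨ G.Adj y u)) := by
  by_contra hc
  let Bad : Finset V := univ.filter (fun x => 0 < f x ∧ ∃ y, 0 < f y ∧ G.Adj x y ∧
    ¬ ∀ u, 0 < f u → ((u = x ∨ G.Adj x u) ↔ (u = y ∨ G.Adj y u)))
  have hB : Bad.Nonempty := by
    by_contra hn
    apply hc
    intro x y hx hy hxy
    by_contra h
    exact hn ⟨x, mem_filter.2 ⟨mem_univ _, hx, y, hy, hxy, h⟩⟩
  obtain ⟨x, hx, hs⟩ := simplicial G hG Bad hB
  obtain ⟨-, hx0, z, hz0, hxz, hz⟩ := mem_filter.1 hx
  have nb : ∀ y, 0 < f y → G.Adj x y → y ∈ Bad := by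
    intro y hy hxy
    refine mem_filter.2 ⟨mem_univ _, hy, ?_⟩
    by_cases h : ∀ u, 0 < f u → ((u = x ∨ G.Adj x u) ↔ (u = y ∨ G.Adj y u))
    · have hne : z ≠ y := by
        rintro rfl
        exact hz h
      refine ⟨z, hz0, ((h z hz0).1 (Or.inr hxz)).resolve_left hne, fun h2 => hz fun u hu => ?_⟩
      exact (h u hu).trans (h2 u hu)
    · exact ⟨x, hx0, hxy.symm, fun h2 => h fun u hu => (h2 u hu).symm⟩
  have i1 : ∀ u, 0 < f u → (u = x ∨ G.Adj x u) → (u = z ∨ G.Adj z u) := by
    rintro u hu (rfl | h)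
    · exact Or.inr hxz.symm
    · by_cases e : u = z
      · exact Or.inl e
      · exact Or.inr (hs z (nb z hz0 hxz) u (nb u hu h) hxz h (Ne.symm e))
  exact hz fun u hu => ⟨i1 u hu, incl G hf x z i1 u hu⟩

theorem exists_dom (hG : IsChordal G) {f : V → ℝ} (hf : IsNERD G f) :
    ∃ D : Finset V, (∀ v, v ∈ D ∨ ∃ u ∈ D, G.Adj v u) ∧ (D.card : ℝ) ≤ ∑ v, f v := by
  obtain ⟨ρ, r1, r2⟩ := peo G hG univ
  have cl := cluster G hG hf
  let D : Finset V := univ.filter (fun d => 0 < f d ∧ ∀ y, 0 < f y → G.Adj d y → ρ y < ρ d)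
  have top : ∀ x, 0 < f x → ∃ d ∈ D, d = x ∨ (G.Adj x d ∧ ρ x < ρ d) := by
    intro x hx
    obtain ⟨d, hd, hmax⟩ := exists_max_image (univ.filter (fun u => 0 < f u ∧ (u = x ∨ G.Adj x u)))
      ρ ⟨x, by simp [hx]⟩
    simp only [mem_filter, mem_univ, true_and] at hd hmax
    have lt : ∀ y, 0 < f y → (y = x ∨ G.Adj x y) → y ≠ d → ρ y < ρ d := fun y h1 h2 h3 =>
      lt_of_le_of_ne (hmax y ⟨h1, h2⟩) fun e => h3 (r1 y (mem_univ _) d (mem_univ _) e)
    refine ⟨d, mem_filter.2 ⟨mem_univ _, hd.1, fun y hy hdy => lt y hy ?_ hdy.ne'⟩, ?_⟩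
    · rcases hd.2 with rfl | h
      · exact Or.inr hdy
      · exact (cl x d hx hd.1 h y hy).2 (Or.inr hdy)
    · rcases hd.2 with h | h
      · exact Or.inl h
      · exact Or.inr ⟨h, lt x hx (Or.inl rfl) h.ne⟩
  refine ⟨D, fun v => ?_, ?_⟩
  · by_cases hv : 0 < f v
    · obtain ⟨d, hd, rfl | h⟩ := top v hv
      · exact Or.inl hd
      · exact Or.inr ⟨d, hd, h.1⟩
    right
    by_cases h1 : ∃ x, 0 < f x ∧ G.Adj v x ∧ ρ x < ρ v
    · obtain ⟨x, hx, hvx, hlt⟩ := h1
      obtain ⟨d, hd, rfl | h⟩ := top x hx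
      · exact ⟨d, hd, hvx⟩
      · refine ⟨d, hd, r2 x (mem_univ _) v (mem_univ _) d (mem_univ _) hvx.symm h.1 hlt h.2 ?_⟩
        rintro rfl
        exact hv (mem_filter.1 hd).2.1
    · have later : ∀ x, 0 < f x → G.Adj v x → ρ v < ρ x := by
        intro x hx hvx
        by_contra hc
        rcases (not_lt.1 hc).lt_or_eq with h | h
        · exact h1 ⟨x, hx, hvx, h⟩
        · exact hvx.ne' (r1 x (mem_univ _) v (mem_univ _) h)
      obtain ⟨x, hx, hvx⟩ : ∃ x, 0 < f x ∧ G.Adj v x := by
        by_contra hc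
        have : closedSum G f v ≤ 0 := by
          refine sum_nonpos fun u _ => ?_
          split_ifs with h
          · by_contra h2
            rcases h with rfl | h
            · exact hv (not_le.1 h2)
            · exact hc ⟨u, not_le.1 h2, h⟩
          · exact le_rfl
        rw [hf.2] at this
        norm_num at this
      have i1 : ∀ u, 0 < f u → (u = v ∨ G.Adj v u) → (u = x ∨ G.Adj x u) := by
        rintro u hu (rfl | h)
        · exact absurd hu hv
        · by_cases e : u = x
          · exact Or.inl e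
          · exact Or.inr (r2 v (mem_univ _) x (mem_univ _) u (mem_univ _) hvx h (later x hx hvx)
              (later u hu h) (Ne.symm e))
      obtain ⟨d, hd, h⟩ := top x hx
      have hd0 := (mem_filter.1 hd).2.1
      rcases incl G hf v x i1 d hd0 (h.imp id And.left) with rfl | h2
      · exact absurd hd0 hv
      · exact ⟨d, hd, h2⟩
  · have e1 : (D.card : ℝ) = ∑ d ∈ D, closedSum G f d := by simp [hf.2]
    rw [e1]
    unfold closedSum
    rw [sum_comm]
    refine sum_le_sum fun u _ => ?_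
    rw [← sum_filter, sum_const, nsmul_eq_mul]
    rcases (hf.1 u).lt_or_eq with hu | hu
    · have : (D.filter (fun d => u = d ∨ G.Adj d u)).card ≤ 1 := by
        rw [card_le_one]
        intro a ha b hb
        obtain ⟨a1, a2⟩ := mem_filter.1 ha
        obtain ⟨b1, b2⟩ := mem_filter.1 hb
        obtain ⟨-, a3, a4⟩ := mem_filter.1 a1
        obtain ⟨-, b3, b4⟩ := mem_filter.1 b1
        by_contra hne
        have hab : G.Adj a b := by
          rcases a2 with rfl | a2
          · exact (b2.resolve_left hne).symm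
          · rcases b2 with rfl | b2
            · exact a2
            · exact ((cl a u a3 hu a2 b b3).2 (Or.inr b2.symm)).resolve_left (Ne.symm hne)
        have := a4 b b3 hab
        have := b4 a a3 hab.symm
        omega
      have h2 : ((D.filter (fun d => u = d ∨ G.Adj d u)).card : ℝ) ≤ 1 := by exact_mod_cast this
      nlinarith
    · rw [← hu]; simp

theorem real_le_dom : realDomNum G ≤ ((domNum G : ℝ) : EReal) := by
  have hne : {n : ℕ | ∃ D : Finset V, (∀ v, v ∈ D ∨ ∃ u ∈ D, G.Adj v u) ∧ D.card = n}.Nonempty :=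
    ⟨_, univ, fun v => Or.inl (mem_univ v), rfl⟩
  obtain ⟨D, h1, h2⟩ := Nat.sInf_mem hne
  refine sInf_le ⟨fun v => if v ∈ D then 1 else 0, fun v => ?_, ?_⟩
  · have key : ∀ u ∈ D, (u = v ∨ G.Adj v u) → 1 ≤ closedSum G (fun v => if v ∈ D then 1 else 0) v := by
      intro u hu h
      have := single_le_sum (f := fun x => if x = v ∨ G.Adj v x then (if x ∈ D then (1:ℝ) else 0) else 0)
        (fun x _ => by split_ifs <;> norm_num) (mem_univ u)
      rw [if_pos h, if_pos hu] at this
      exact this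
    rcases h1 v with h | ⟨u, hu, h⟩
    · exact key v h (Or.inl rfl)
    · exact key u hu (Or.inr h)
  · unfold domNum
    rw [← h2]
    simp

theorem of_nerd (hG : IsChordal G) {f : V → ℝ} (hf : IsNERD G f) :
    realDomNum G = ((domNum G : ℝ) : EReal) := by
  refine le_antisymm (real_le_dom G) (le_sInf ?_)
  rintro _ ⟨g, hg, rfl⟩
  obtain ⟨D, h1, h2⟩ := exists_dom G hG hf
  have h3 : domNum G ≤ D.card := Nat.sInf_le ⟨D, h1, rfl⟩
  have h4 : (domNum G : ℝ) ≤ D.card := by exact_mod_cast h3
  have h5 : ∑ v, f v ≤ ∑ v, g v := by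
    calc ∑ v, f v ≤ ∑ v, f v * closedSum G g v :=
          sum_le_sum fun v _ => le_mul_of_one_le_right (hf.1 v) (hg v)
      _ = ∑ v, g v * closedSum G f v := swap G f g
      _ = ∑ v, g v := by simp [hf.2]
  exact_mod_cast h4.trans (h2.trans h5)

theorem neg_of_no (h : ¬ ∃ f, IsNERD G f) :
    ∃ g : V → ℝ, (∀ v, 1 ≤ closedSum G g v) ∧ ∑ v, g v < 0 := by
  let n : ℝ := Fintype.card V
  have n0 : 0 ≤ n := Nat.cast_nonneg _
  let L : (V → ℝ) →ₗ[ℝ] (V → ℝ) :=
    { toFun := fun f v => closedSum G f v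
      map_add' := by
        intro a b; funext v
        simp only [closedSum, Pi.add_apply, ← sum_add_distrib]
        refine sum_congr rfl fun u _ => ?_
        split_ifs <;> simp
      map_smul' := by
        intro r a; funext v
        simp only [closedSum, Pi.smul_apply, smul_eq_mul, RingHom.id_apply, mul_sum]
        refine sum_congr rfl fun u _ => ?_
        split_ifs <;> simp }
  let K : Set (V → ℝ) := Set.Icc 0 (fun _ => n + 1)
  have hc : IsCompact (L '' K) := isCompact_Icc.image L.continuous_of_finiteDimensional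
  have hv : Convex ℝ (L '' K) := (convex_Icc _ _).linear_image L
  have hn : (fun _ => (1 : ℝ)) ∉ L '' K := by
    rintro ⟨f, hf, e⟩
    exact h ⟨f, hf.1, fun v => congrFun e v⟩
  obtain ⟨φ, c, h1, h2⟩ := geometric_hahn_banach_point_closed hv hc.isClosed hn
  let g : V → ℝ := fun v => φ (Pi.single v 1)
  have hφ : ∀ x : V → ℝ, φ x = ∑ v, x v * g v := by
    intro x
    conv_lhs => rw [pi_eq_sum_univ' x]
    simp [g]
  have c0 : c < 0 := by
    have := h2 _ ⟨0, ⟨le_rfl, fun _ => by simp only [Pi.zero_apply]; linarith⟩, rfl⟩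
    simpa using this
  have c1 : ∑ v, g v < c := by
    rw [hφ] at h1; simpa using h1
  have c2 : ∀ v, c < (n + 1) * closedSum G g v := by
    intro v
    have := h2 _ ⟨Pi.single v (n + 1), ⟨fun u => by
      by_cases e : u = v
      · subst e; simp; linarith
      · simp [e], fun u => by
      by_cases e : u = v
      · subst e; simp
      · simp [e]; linarith⟩, rfl⟩
    rw [hφ] at this
    have e : ∑ u, L (Pi.single v (n + 1)) u * g u =
        ∑ u, (Pi.single v (n + 1) : V → ℝ) u * closedSum G g u := by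
      rw [← swap]
      exact sum_congr rfl fun u _ => mul_comm _ _
    rw [e, sum_eq_single v (fun u _ hu => by simp [hu]) (by simp)] at this
    simpa using this
  let t : ℝ := (n + 1) * (n + 1) / (-c)
  have tc : t * c = -((n + 1) * (n + 1)) := by
    have : c ≠ 0 := c0.ne
    simp only [t]; field_simp
  have t0 : 0 < t := div_pos (by positivity) (by linarith)
  refine ⟨fun u => t * g u + (n + 2), fun v => ?_, ?_⟩
  · have e1 : t * closedSum G g v + (n + 2) ≤ closedSum G (fun u => t * g u + (n + 2)) v := by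
      have e2 : closedSum G (fun u => t * g u + (n + 2)) v =
          t * closedSum G g v + ∑ u, if u = v ∨ G.Adj v u then (n + 2) else 0 := by
        simp only [closedSum, mul_sum, ← sum_add_distrib]
        refine sum_congr rfl fun u _ => ?_
        split_ifs <;> simp
      have := single_le_sum (f := fun u => if u = v ∨ G.Adj v u then (n + 2) else 0)
        (fun x _ => by split_ifs <;> linarith) (mem_univ v)
      rw [if_pos (Or.inl rfl)] at this
      linarith
    have e3 := mul_lt_mul_of_pos_left (c2 v) t0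
    have e4 : -(n + 1) < t * closedSum G g v := by nlinarith
    linarith
  · rw [sum_add_distrib, ← mul_sum]
    simp only [sum_const, card_univ, nsmul_eq_mul]
    have e3 := mul_lt_mul_of_pos_left c1 t0
    change t * ∑ v, g v + n * (n + 2) < 0
    nlinarith

theorem main (hG : IsChordal G) : realDomNum G = ((domNum G : ℝ) : EReal) ↔ ∃ f, IsNERD G f := by
  refine ⟨fun h => ?_, fun ⟨f, hf⟩ => of_nerd G hG hf⟩
  by_contra hc
  obtain ⟨g, h1, h2⟩ := neg_of_no G hc
  have h3 : realDomNum G ≤ ((∑ v, g v : ℝ) : EReal) := sInf_le ⟨g, h1, rfl⟩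
  rw [h, EReal.coe_le_coe_iff] at h3
  have : (0 : ℝ) ≤ domNum G := Nat.cast_nonneg _
  linarith

end Pool.Agent.H20.Nerd
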