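import Mathlib

set_option autoImplicit false

namespace H20.Oc

open Finset Classical

/-- `e` is an edge of the complete bipartite graph between `A` and `B` -/
def InE {n : ℕ} (A B : Finset (Fin n)) (e : Sym2 (Fin n)) : Prop := ∃ x ∈ A, ∃ y ∈ B, e = s(x, y)

/-- the products `E(A i, B i) × E(C i, D i)`, `i < m`, form an odd cover of `E(K_n) × E(K_n)` -/
def IsOddCover (n m : ℕ) (A B C D : Fin m → Finset (Fin n)) : Prop :=
  (∀ i, (A i).Nonempty ∧ (B i).Nonempty ∧ Disjoint (A i) (B i) ∧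
    (C i).Nonempty ∧ (D i).Nonempty ∧ Disjoint (C i) (D i)) ∧
  ∀ e f : Sym2 (Fin n), ¬ e.IsDiag → ¬ f.IsDiag →
    Odd (Set.ncard {i : Fin m | InE (A i) (B i) e ∧ InE (C i) (D i) f})

/-- least size of an odd cover -/
noncomputable def g (n : ℕ) : ℕ :=
  sInf {m | ∃ A B C D : Fin m → Finset (Fin n), IsOddCover n m A B C D}

noncomputable def ind {n : ℕ} (A : Finset (Fin n)) (x : Fin n) : ZMod 2 := if x ∈ A then 1 else 0

noncomputable def adj {n : ℕ} (A B : Finset (Fin n)) (x y : Fin n) : ZMod 2 :=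
  ind A x * ind B y + ind B x * ind A y

lemma inE_iff {n : ℕ} (A B : Finset (Fin n)) (x y : Fin n) :
    InE A B s(x, y) ↔ (x ∈ A ∧ y ∈ B) ∨ (x ∈ B ∧ y ∈ A) := by
  constructor
  · rintro ⟨u, hu, v, hv, h⟩
    rcases Sym2.eq_iff.mp h with ⟨rfl, rfl⟩ | ⟨rfl, rfl⟩
    · exact Or.inl ⟨hu, hv⟩
    · exact Or.inr ⟨hv, hu⟩
  · rintro (⟨h1, h2⟩ | ⟨h1, h2⟩)
    · exact ⟨x, h1, y, h2, rfl⟩
    · exact ⟨y, h2, x, h1, Sym2.eq_swap⟩

lemma adj_eq {n : ℕ} (A B : Finset (Fin n)) (h : Disjoint A B) (x y : Fin n) :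
    adj A B x y = if InE A B s(x, y) then 1 else 0 := by
  rw [inE_iff]
  have h1 : ∀ z, z ∈ A → z ∉ B := fun z hz => disjoint_left.mp h hz
  unfold adj ind
  by_cases a : x ∈ A <;> by_cases b : x ∈ B <;> by_cases c : y ∈ A <;> by_cases d : y ∈ B <;>
    simp [a, b, c, d] <;> first | exact absurd b (h1 _ a) | exact absurd d (h1 _ c)

lemma adj_self {n : ℕ} (A B : Finset (Fin n)) (x : Fin n) : adj A B x x = 0 := by
  unfold adj
  rw [mul_comm (ind B x)]
  exact CharTwo.add_self_eq_zero _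

lemma odd_iff {m : ℕ} (p : Fin m → Prop) :
    Odd (Set.ncard {i : Fin m | p i}) ↔ ∑ i, (if p i then (1 : ZMod 2) else 0) = 1 := by
  have : {i : Fin m | p i} = ((univ.filter p : Finset (Fin m)) : Set (Fin m)) := by
    ext i; simp
  rw [this, Set.ncard_coe_finset, sum_boole, ZMod.natCast_eq_one_iff_odd]

/-- algebraic form of the covering condition -/
lemma cover_iff {n m : ℕ} (A B C D : Fin m → Finset (Fin n))
    (h1 : ∀ i, Disjoint (A i) (B i)) (h2 : ∀ i, Disjoint (C i) (D i)) :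
    (∀ e f : Sym2 (Fin n), ¬ e.IsDiag → ¬ f.IsDiag →
      Odd (Set.ncard {i : Fin m | InE (A i) (B i) e ∧ InE (C i) (D i) f})) ↔
    ∀ x y u v : Fin n, x ≠ y → u ≠ v → ∑ i, adj (A i) (B i) x y * adj (C i) (D i) u v = 1 := by
  have key : ∀ x y u v : Fin n, ∑ i, adj (A i) (B i) x y * adj (C i) (D i) u v =
      ∑ i, (if InE (A i) (B i) s(x, y) ∧ InE (C i) (D i) s(u, v) then (1 : ZMod 2) else 0) := by
    intro x y u v
    refine sum_congr rfl fun i _ => ?_
    rw [adj_eq _ _ (h1 i), adj_eq _ _ (h2 i)]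
    by_cases a : InE (A i) (B i) s(x, y) <;> by_cases b : InE (C i) (D i) s(u, v) <;> simp [a, b]
  constructor
  · intro h x y u v hxy huv
    rw [key]
    have := (odd_iff _).mp (h s(x, y) s(u, v) (by simpa using hxy) (by simpa using huv))
    convert this
  · intro h e f
    induction e using Sym2.ind with
    | _ x y =>
    induction f using Sym2.ind with
    | _ u v =>
    intro he hf
    rw [odd_iff]
    have := h x y u v (by simpa using he) (by simpa using hf)
    rw [key] at this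
    convert this

def om (N : ℕ) : Matrix (Fin N) (Fin N) (ZMod 2) := fun x y => if x = y then 0 else 1

lemma om_sq (k : ℕ) : om (2 * k) * om (2 * k) = 1 := by
  ext x z
  have e : ∀ a b : Fin (2 * k), om (2 * k) a b = 1 + (if a = b then 1 else 0) := by
    intro a b; unfold om; split_ifs <;> decide
  rw [Matrix.mul_apply]
  simp only [e, add_mul, mul_add, sum_add_distrib, one_mul, mul_one]
  have h0 : ((2 * k : ℕ) : ZMod 2) = 0 := by
    rw [Nat.cast_mul]; exact mul_eq_zero_of_left (by decide) _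
  simp only [sum_const, card_univ, Fintype.card_fin, nsmul_eq_mul, mul_one, h0, sum_ite_eq,
    sum_ite_eq', mem_univ, if_true, ite_mul, one_mul, zero_mul, Matrix.one_apply]
  split_ifs <;> decide

open Kronecker in
theorem lower (n m : ℕ) (A B C D : Fin m → Finset (Fin n)) (h : IsOddCover n m A B C D) :
    (n / 2) ^ 2 ≤ m := by
  obtain ⟨h0, h1⟩ := h
  rw [cover_iff A B C D (fun i => (h0 i).2.2.1) (fun i => (h0 i).2.2.2.2.2)] at h1
  obtain ⟨k, hk⟩ : ∃ k, k = n / 2 := ⟨_, rfl⟩
  have hle : 2 * k ≤ n := by omega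
  let c : Fin (2 * k) → Fin n := Fin.castLE hle
  let U : Matrix (Fin (2 * k) × Fin (2 * k)) (Fin m × Bool × Bool) (ZMod 2) := fun p q =>
    ind (if q.2.1 then A q.1 else B q.1) (c p.1) * ind (if q.2.2 then C q.1 else D q.1) (c p.2)
  let V : Matrix (Fin m × Bool × Bool) (Fin (2 * k) × Fin (2 * k)) (ZMod 2) := fun q p =>
    ind (if q.2.1 then B q.1 else A q.1) (c p.1) * ind (if q.2.2 then D q.1 else C q.1) (c p.2)
  have hUV : U * V = om (2 * k) ⊗ₖ om (2 * k) := by
    ext ⟨x, u⟩ ⟨y, v⟩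
    rw [Matrix.mul_apply, Fintype.sum_prod_type]
    have e : ∀ i : Fin m, ∑ st : Bool × Bool, U (x, u) (i, st) * V (i, st) (y, v) =
        adj (A i) (B i) (c x) (c y) * adj (C i) (D i) (c u) (c v) := by
      intro i
      rw [Fintype.sum_prod_type]
      simp only [Fintype.sum_bool, U, V, adj, if_true, Bool.false_eq_true, if_false]
      ring
    rw [sum_congr rfl fun i _ => e i]
    simp only [Matrix.kroneckerMap_apply, om]
    by_cases a : x = y
    · subst a; simp [adj_self]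
    · by_cases b : u = v
      · subst b; simp [adj_self]
      · rw [h1 _ _ _ _ (fun e => a (Fin.castLE_injective _ e))
          (fun e => b (Fin.castLE_injective _ e))]
        simp [a, b]
  have h2 : U * (V * (om (2 * k) ⊗ₖ om (2 * k))) = 1 := by
    rw [← Matrix.mul_assoc, hUV, ← Matrix.mul_kronecker_mul, om_sq, Matrix.one_kronecker_one]
  have h3 := Matrix.rank_mul_le_left U (V * (om (2 * k) ⊗ₖ om (2 * k)))
  rw [h2, Matrix.rank_one] at h3
  have h4 := le_trans h3 (Matrix.rank_le_card_width U)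
  simp only [Fintype.card_prod, Fintype.card_fin, Fintype.card_bool] at h4
  rw [← hk]
  nlinarith

end H20.Oc
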