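import Pool.Agent.H20.Oc1

set_option autoImplicit false

namespace H20.Oc

open Finset Classical

lemma adj_empty {n : ℕ} (A B : Finset (Fin n)) (h : ¬ (A.Nonempty ∧ B.Nonempty)) (x y : Fin n) :
    adj A B x y = 0 := by
  by_cases a : A.Nonempty
  · have b : B = ∅ := not_nonempty_iff_eq_empty.mp fun b => h ⟨a, b⟩
    simp [adj, ind, b]
  · have b : A = ∅ := not_nonempty_iff_eq_empty.mp a
    simp [adj, ind, b]

lemma g_le {n : ℕ} {ι : Type} [Fintype ι] (A B : ι → Finset (Fin n))
    (hd : ∀ i, Disjoint (A i) (B i))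
    (h : ∀ x y, x ≠ y → ∑ i, adj (A i) (B i) x y = 1) :
    ∃ m ≤ Fintype.card ι ^ 2, ∃ A B C D : Fin m → Finset (Fin n), IsOddCover n m A B C D := by
  let J := {i : ι // (A i).Nonempty ∧ (B i).Nonempty}
  have h' : ∀ x y, x ≠ y → ∑ i : J, adj (A i.1) (B i.1) x y = 1 := by
    intro x y hxy
    rw [← h x y hxy, ← sum_subtype (univ.filter fun i => (A i).Nonempty ∧ (B i).Nonempty)
      (by simp) (fun i => adj (A i) (B i) x y), sum_filter]
    refine sum_congr rfl fun i _ => ?_
    split_ifs with c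
    · rfl
    · exact (adj_empty _ _ c x y).symm
  let e := (Fintype.equivFin (J × J)).symm
  refine ⟨Fintype.card (J × J), ?_, fun i => A (e i).1.1, fun i => B (e i).1.1,
    fun i => A (e i).2.1, fun i => B (e i).2.1, fun i => ⟨(e i).1.2.1, (e i).1.2.2, hd _,
      (e i).2.2.1, (e i).2.2.2, hd _⟩, ?_⟩
  · rw [Fintype.card_prod, sq]
    have : Fintype.card J ≤ Fintype.card ι := Fintype.card_subtype_le _
    exact Nat.mul_le_mul this this
  · rw [cover_iff _ _ _ _ (fun i => hd _) (fun i => hd _)]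
    intro x y u v hxy huv
    rw [Equiv.sum_comp e (fun p : J × J => adj (A p.1.1) (B p.1.1) x y * adj (A p.2.1) (B p.2.1) u v),
      Fintype.sum_prod_type]
    dsimp only
    rw [← sum_mul_sum, h' x y hxy, h' u v huv, mul_one]

def r4 (p q : Fin 4) : ZMod 2 :=
  if (p ≠ 0 ∧ q = 0) ∨ (p = 1 ∧ q = 2) ∨ (p = 2 ∧ q = 3) ∨ (p = 3 ∧ q = 1) then 1 else 0

def rr {t : ℕ} (i j : Fin t × Fin 4) : ZMod 2 :=
  if i.1 = j.1 then r4 i.2 j.2 else if j.1 < i.1 then 1 else 0

lemma rr_self {t : ℕ} (i : Fin t × Fin 4) : rr i i = 0 := by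
  have : ∀ p, r4 p p = 0 := by decide
  simp [rr, this]

lemma rr_add {t : ℕ} (i j : Fin t × Fin 4) (h : i ≠ j) : rr i j + rr j i = 1 := by
  obtain ⟨a, p⟩ := i
  obtain ⟨b, q⟩ := j
  have h4 : ∀ p q, p ≠ q → r4 p q + r4 q p = 1 := by decide
  unfold rr
  by_cases c : a = b
  · subst c
    simp only [if_true]
    exact h4 p q fun e => h (by rw [e])
  · have c' : ¬ b = a := fun e => c e.symm
    simp only [c, c', if_false]
    rcases lt_or_gt_of_ne c with d | d
    · simp [d, not_lt.mpr d.le]
    · simp [d, not_lt.mpr d.le]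

lemma four (c : ZMod 2) : ∑ _q : Fin 4, c = 0 := by revert c; decide

lemma rr_sum {t : ℕ} (i : Fin t × Fin 4) : ∑ j, rr i j = 0 := by
  rw [Fintype.sum_prod_type]
  refine sum_eq_zero fun b _ => ?_
  have h4 : ∀ p, ∑ q, r4 p q = 0 := by decide
  unfold rr
  by_cases c : i.1 = b
  · simp only [c, if_true]; exact h4 _
  · simp only [c, if_false]; exact four _

lemma const_sum {t : ℕ} (c : ZMod 2) : ∑ _j : Fin t × Fin 4, c = 0 := by
  rw [Fintype.sum_prod_type]
  exact sum_eq_zero fun b _ => four c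

lemma base {t : ℕ} (i l : Fin t × Fin 4) (s s' : ZMod 2) (h : (i, s) ≠ (l, s')) :
    ∑ j, (if i = j then 0 else 1) * (if l = j then 0 else 1) * (rr i j + s + (rr l j + s')) = 1 := by
  have hF : ∑ j, (rr i j + s + (rr l j + s')) = 0 := by
    simp only [sum_add_distrib, rr_sum, const_sum, add_zero]
  by_cases c : i = l
  · subst c
    have hs : s + s' = 1 := by
      have h2 : ∀ a b : ZMod 2, a ≠ b → a + b = 1 := by decide
      exact h2 s s' fun e => h (by rw [e])
    have e : ∀ j, (if i = j then (0 : ZMod 2) else 1) * (if i = j then 0 else 1) *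
        (rr i j + s + (rr i j + s')) = 1 + (if i = j then 1 else 0) := by
      intro j
      have : rr i j + s + (rr i j + s') = 1 := by
        rw [← hs]
        have := CharTwo.add_self_eq_zero (rr i j)
        linear_combination this
      rw [this]
      split_ifs <;> decide
    simp only [e, sum_add_distrib, const_sum, sum_ite_eq, mem_univ, if_true, zero_add]
  · have e : ∀ j, (if i = j then (0 : ZMod 2) else 1) * (if l = j then 0 else 1) *
        (rr i j + s + (rr l j + s')) = (rr i j + s + (rr l j + s')) +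
          (if i = j then rr i j + s + (rr l j + s') else 0) +
          (if l = j then rr i j + s + (rr l j + s') else 0) := by
      intro j
      have := CharTwo.add_self_eq_zero (rr i j + s + (rr l j + s'))
      by_cases a : i = j
      · have b : ¬ l = j := fun b => c (a.trans b.symm)
        rw [if_pos a, if_neg b, if_pos a, if_neg b]
        linear_combination -this
      · by_cases b : l = j
        · rw [if_neg a, if_pos b, if_neg a, if_pos b]
          linear_combination -this
        · rw [if_neg a, if_neg b, if_neg a, if_neg b]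
          ring
    rw [sum_congr rfl fun j _ => e j, sum_add_distrib, sum_add_distrib, hF, sum_ite_eq, sum_ite_eq]
    simp only [mem_univ, if_true, rr_self]
    have h1 := rr_add i l c
    have h2 := CharTwo.add_self_eq_zero s
    have h3 := CharTwo.add_self_eq_zero s'
    linear_combination h1 + h2 + h3

theorem upper (n t : ℕ) (h : n ≤ 8 * t) :
    ∃ m ≤ (4 * t) ^ 2, ∃ A B C D : Fin m → Finset (Fin n), IsOddCover n m A B C D := by
  obtain ⟨e⟩ : Nonempty (Fin n ↪ (Fin t × Fin 4) × ZMod 2) :=
    Function.Embedding.nonempty_of_card_le (by simp [ZMod.card]; omega)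
  have := g_le (n := n) (ι := Fin t × Fin 4)
    (fun j => univ.filter fun x => (e x).1 ≠ j ∧ rr (e x).1 j + (e x).2 = 0)
    (fun j => univ.filter fun x => (e x).1 ≠ j ∧ rr (e x).1 j + (e x).2 = 1)
    (fun j => disjoint_left.mpr fun x h1 h2 => by
      have a := (mem_filter.mp h1).2.2
      have b := (mem_filter.mp h2).2.2
      rw [a] at b
      exact absurd b (by decide))
    (fun x y hxy => by
      refine Eq.trans (sum_congr rfl fun j _ => ?_)
        (base (e x).1 (e y).1 (e x).2 (e y).2 (fun c => hxy (e.injective c)))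
      simp only [adj, ind, mem_filter, mem_univ, true_and]
      generalize rr (e x).1 j + (e x).2 = α
      generalize rr (e y).1 j + (e y).2 = β
      by_cases a : (e x).1 = j <;> by_cases b : (e y).1 = j <;> simp only [a, b, ne_eq, not_true,
        not_false_iff, false_and, true_and, if_true, if_false, mul_zero, zero_mul, add_zero] 
      revert α β; decide)
  simpa [mul_comm] using this

theorem g_lower (n : ℕ) : (n / 2) ^ 2 ≤ g n := by
  obtain ⟨m, _, hm⟩ := upper n n (by omega)
  obtain ⟨A, B, C, D, h⟩ := Nat.sInf_mem (s := {m | ∃ A B C D : Fin m → Finset (Fin n),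
    IsOddCover n m A B C D}) ⟨m, hm⟩
  exact lower n _ A B C D h

theorem g_upper (n t : ℕ) (h : n ≤ 8 * t) : g n ≤ (4 * t) ^ 2 := by
  obtain ⟨m, h1, hm⟩ := upper n t h
  exact le_trans (Nat.sInf_le hm) h1

theorem g_lim : Filter.Tendsto (fun n : ℕ => (g n : ℝ) / (n : ℝ) ^ 2) Filter.atTop (nhds (1 / 4)) := by
  have l0 : Filter.Tendsto (fun n : ℕ => (1 : ℝ) / n) Filter.atTop (nhds 0) :=
    tendsto_one_div_atTop_nhds_zero_nat
  have l1 : Filter.Tendsto (fun n : ℕ => (1 / 2 - (1 : ℝ) / n) ^ 2) Filter.atTop (nhds (1 / 4)) := by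
    have := ((tendsto_const_nhds (x := (1 / 2 : ℝ))).sub l0).pow 2
    convert this using 2; norm_num
  have l2 : Filter.Tendsto (fun n : ℕ => (1 / 2 + 4 * ((1 : ℝ) / n)) ^ 2) Filter.atTop
      (nhds (1 / 4)) := by
    have := ((tendsto_const_nhds (x := (1 / 2 : ℝ))).add (l0.const_mul 4)).pow 2
    convert this using 2; norm_num
  refine tendsto_of_tendsto_of_tendsto_of_le_of_le' l1 l2 ?_ ?_
  · filter_upwards [Filter.eventually_ge_atTop 2] with n hn
    have h0 : (2 : ℝ) ≤ n := by exact_mod_cast hn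
    have h1 : (((n / 2) ^ 2 : ℕ) : ℝ) ≤ g n := by exact_mod_cast g_lower n
    have h2 : (n : ℝ) ≤ 2 * ((n / 2 : ℕ) : ℝ) + 2 := by
      have : n ≤ 2 * (n / 2) + 2 := by omega
      exact_mod_cast this
    rw [le_div_iff₀ (by positivity), ← mul_pow]
    push_cast at h1
    refine le_trans ?_ h1
    have e : (1 / 2 - 1 / (n : ℝ)) * n = n / 2 - 1 := by field_simp
    rw [e]
    apply pow_le_pow_left₀ <;> linarith
  · filter_upwards [Filter.eventually_ge_atTop 2] with n hn
    have h0 : (2 : ℝ) ≤ n := by exact_mod_cast hn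
    have h1 : (g n : ℝ) ≤ ((4 * ((n + 7) / 8) : ℕ) : ℝ) ^ 2 := by
      exact_mod_cast g_upper n ((n + 7) / 8) (by omega)
    have h2 : 2 * ((4 * ((n + 7) / 8) : ℕ) : ℝ) ≤ n + 8 := by
      have : 2 * (4 * ((n + 7) / 8)) ≤ n + 8 := by omega
      exact_mod_cast this
    rw [div_le_iff₀ (by positivity), ← mul_pow]
    refine le_trans h1 ?_
    have e : (1 / 2 + 4 * (1 / (n : ℝ))) * n = n / 2 + 4 := by field_simp
    rw [e]
    apply pow_le_pow_left₀ (by positivity)
    linarith

end H20.Oc
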