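import Mathlib

set_option autoImplicit false

namespace H20.Oh

open Finset

lemma avg {κ : Type} (B : Finset κ) (F : Finset ℕ) (hF : F.Nonempty) (f : κ → ℕ → ℝ) (g : κ → ℝ)
    (h : ∀ W ∈ B, ∑ c ∈ F, f W c ≤ F.card * g W) :
    ∃ c ∈ F, ∑ W ∈ B, f W c ≤ ∑ W ∈ B, g W := by
  apply exists_le_of_sum_le hF
  rw [sum_comm, sum_const, nsmul_eq_mul, mul_sum]
  exact sum_le_sum h

lemma seq {ι κ : Type} [DecidableEq ι] (L : ι → Finset ℕ) (B : Finset κ)
    (Φ : κ → Finset ι → Finset ℕ → ℝ) (N : ℕ) (I : Finset ι) :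
    ∀ X0 : Finset ℕ, X0.card + I.card = N →
    (∀ J ⊆ I, ∀ i ∈ I, i ∉ J → ∀ X, X0 ⊆ X → X.card + J.card + 1 = N →
      (L i \ X).Nonempty ∧ ∀ W ∈ B, ∑ c ∈ L i \ X, Φ W J (insert c X) ≤
        (L i \ X).card * Φ W (insert i J) X) →
    ∃ φ : ι → ℕ, Set.InjOn φ I ∧ (∀ i ∈ I, φ i ∈ L i ∧ φ i ∉ X0) ∧
      ∑ W ∈ B, Φ W ∅ (X0 ∪ I.image φ) ≤ ∑ W ∈ B, Φ W I X0 := by
  induction I using Finset.induction_on with
  | empty => intro X0 _ _; exact ⟨fun _ => 0, by simp, by simp, by simp⟩
  | insert i I hi ih =>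
    intro X0 hN h
    rw [card_insert_of_notMem hi] at hN
    obtain ⟨h1, h2⟩ := h I (subset_insert _ _) i (mem_insert_self _ _) hi X0 Subset.rfl (by omega)
    obtain ⟨c, hc, h3⟩ := avg B _ h1 (fun W c => Φ W I (insert c X0)) _ h2
    rw [mem_sdiff] at hc
    obtain ⟨φ, h4, h5, h6⟩ := ih (insert c X0) (by rw [card_insert_of_notMem hc.2]; omega)
      (fun J hJ j hj hj' X hX hX' => h J (hJ.trans (subset_insert _ _)) j (mem_insert_of_mem hj) hj' X
        ((subset_insert _ _).trans hX) hX')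
    have hu : ∀ j ∈ I, Function.update φ i c j = φ j := fun j hj =>
      Function.update_of_ne (by rintro rfl; exact hi hj) _ _
    refine ⟨Function.update φ i c, ?_, ?_, ?_⟩
    · intro x hx y hy hxy
      simp only [coe_insert, Set.mem_insert_iff, mem_coe] at hx hy
      rcases hx with rfl | hx <;> rcases hy with rfl | hy
      · rfl
      · rw [hu y hy, Function.update_self] at hxy
        exact absurd (hxy ▸ mem_insert_self c X0) (h5 y hy).2
      · rw [hu x hx, Function.update_self] at hxy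
        exact absurd (hxy ▸ mem_insert_self c X0) (h5 x hx).2
      · rw [hu x hx, hu y hy] at hxy
        exact h4 hx hy hxy
    · intro j hj
      rcases mem_insert.mp hj with rfl | hj
      · rw [Function.update_self]; exact hc
      · rw [hu j hj]
        exact ⟨(h5 j hj).1, fun e => (h5 j hj).2 (mem_insert_of_mem e)⟩
    · have : X0 ∪ (insert i I).image (Function.update φ i c) = insert c X0 ∪ I.image φ := by
        rw [image_insert, Function.update_self, image_congr (g := φ) (fun j hj => hu j hj)]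
        ext x; simp
      rw [this]
      exact h6.trans h3

lemma sum_two (F : Finset ℕ) (W : Finset ℕ) (f : ℕ → ℝ) (x y : ℝ)
    (h1 : ∀ c ∈ F, c ∈ W → f c ≤ x) (h2 : ∀ c ∈ F, c ∉ W → f c ≤ y) :
    ∑ c ∈ F, f c ≤ (F ∩ W).card * x + (F \ W).card * y := by
  rw [← sum_inter_add_sum_sdiff F W f]
  refine add_le_add ?_ ?_
  · rw [← nsmul_eq_mul]
    exact sum_le_card_nsmul _ _ _ fun c hc => h1 c (mem_inter.mp hc).1 (mem_inter.mp hc).2
  · rw [← nsmul_eq_mul]
    exact sum_le_card_nsmul _ _ _ fun c hc => h2 c (mem_sdiff.mp hc).1 (mem_sdiff.mp hc).2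

lemma arith (k σ r p q : ℕ) (hσ : 0 < σ) (hk : k + 1 + σ ≤ p + q) (hp : p ≤ r) :
    (k + 1 + σ) * (p * (k + 1 + σ - r).choose σ + q * (k + σ - r).choose σ) ≤
      (p + q) * ((k + 1) * (k + 1 + σ - r).choose σ) := by
  by_cases hrk : r ≤ k + 1
  · have e2 : r * (k + 1 + σ - r).choose σ + (k + 1 + σ - r) * (k + σ - r).choose σ ≤
        (k + 1) * (k + 1 + σ - r).choose σ := by
      have := Nat.choose_mul_succ_eq (k + σ - r) σ
      rw [show k + σ - r + 1 - σ = k + 1 - r by omega,
        show k + σ - r + 1 = k + 1 + σ - r by omega] at this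
      rw [mul_comm (k + 1 + σ - r), this, mul_comm _ (k + 1 - r), ← add_mul]
      exact Nat.mul_le_mul_right _ (by omega)
    have e3 : (k + σ - r).choose σ ≤ (k + 1 + σ - r).choose σ :=
      Nat.choose_le_choose _ (by omega)
    generalize (k + 1 + σ - r).choose σ = x at *
    generalize (k + σ - r).choose σ = y at *
    obtain ⟨d, rfl⟩ := Nat.exists_eq_add_of_le e3
    obtain ⟨n', hn'⟩ := Nat.exists_eq_add_of_le (show r ≤ k + 1 + σ by omega)
    rw [show k + 1 + σ - r = n' by omega] at e2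
    refine le_trans ?_ (Nat.mul_le_mul_left _ e2)
    have : (k + 1 + σ) * p ≤ (p + q) * r := Nat.mul_le_mul hk hp
    rw [hn'] at this ⊢
    nlinarith [Nat.mul_le_mul_right d this]
  · rw [Nat.choose_eq_zero_of_lt (show k + 1 + σ - r < σ by omega),
      Nat.choose_eq_zero_of_lt (show k + σ - r < σ by omega)]
    simp

/-- last stage: hypergeometric potential -/
lemma ph2 {ι κ : Type} [DecidableEq ι] (L : ι → Finset ℕ) (B : Finset κ) (Wl : κ → Finset ℕ)
    (σ a : ℕ) (hσ : 0 < σ) (I : Finset ι) (X0 : Finset ℕ)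
    (hL : ∀ i ∈ I, ∀ X, X0 ⊆ X → X0.card + I.card + σ ≤ (L i \ X).card + X.card)
    (hW : ∀ W ∈ B, I.card + σ ≤ (Wl W \ X0).card + a) :
    ∃ φ : ι → ℕ, Set.InjOn φ I ∧ (∀ i ∈ I, φ i ∈ L i ∧ φ i ∉ X0) ∧
      ((B.filter (fun W => Wl W ⊆ X0 ∪ I.image φ)).card : ℝ) * ((I.card + σ).choose σ) ≤
        B.card * (a.choose σ) := by
  classical
  obtain ⟨φ, h1, h2, h3⟩ := seq L B (fun W J X =>
    ((J.card + σ - (Wl W \ X).card).choose σ : ℝ) / ((J.card + σ).choose σ)) _ I X0 rfl (by
      intro J _ i hi hiJ X hX hN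
      have hq := hL i hi X hX
      refine ⟨card_pos.mp (by omega), fun W _ => ?_⟩
      rw [card_insert_of_notMem hiJ]
      set k := J.card
      set r := (Wl W \ X).card with hr
      set F := L i \ X
      have hk : k + 1 + σ ≤ F.card := by omega
      have hp : (F ∩ Wl W).card ≤ r := card_le_card (fun c hc => by
        simp only [F, mem_inter, mem_sdiff] at hc ⊢; exact ⟨hc.2, hc.1.2⟩)
      have hFs : (F ∩ Wl W).card + (F \ Wl W).card = F.card := card_inter_add_card_sdiff _ _
      have p0 : (0 : ℝ) < ((k + σ).choose σ : ℕ) := by exact_mod_cast Nat.choose_pos (by omega)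
      have p1 : (0 : ℝ) < ((k + 1 + σ).choose σ : ℕ) := by exact_mod_cast Nat.choose_pos (by omega)
      refine (sum_two F (Wl W) _ (((k + 1 + σ - r).choose σ : ℝ) / ((k + σ).choose σ))
        (((k + σ - r).choose σ : ℝ) / ((k + σ).choose σ)) ?_ ?_).trans ?_
      · intro c hc hc'
        have : (Wl W \ insert c X).card + 1 = r := by
          rw [sdiff_insert, card_erase_add_one]
          exact mem_sdiff.mpr ⟨hc', (mem_sdiff.mp hc).2⟩
        rw [show k + σ - (Wl W \ insert c X).card = k + 1 + σ - r by omega]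
      · intro c hc hc'
        rw [sdiff_insert, erase_eq_of_notMem (fun e => hc' (mem_sdiff.mp e).1)]
      · have e1 : ((k + σ).choose σ : ℝ) * (k + σ + 1) = ((k + 1 + σ).choose σ : ℕ) * (k + 1) := by
          have := Nat.choose_mul_succ_eq (k + σ) σ
          rw [show k + σ + 1 - σ = k + 1 by omega, show k + σ + 1 = k + 1 + σ by omega] at this
          have h' : (((k + σ).choose σ * (k + 1 + σ) : ℕ) : ℝ) =
            (((k + 1 + σ).choose σ * (k + 1) : ℕ) : ℝ) := by rw [this]
          push_cast at h' ⊢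
          linarith
        have e4 := arith k σ r _ _ hσ (hFs ▸ hk) hp
        rw [hFs] at e4
        set x := (k + 1 + σ - r).choose σ with hx
        set y := (k + σ - r).choose σ with hy
        set p := (F ∩ Wl W).card
        set q := (F \ Wl W).card
        have e5 : ((k : ℝ) + 1 + σ) * (p * x + q * y) ≤ F.card * ((k + 1) * x) := by
          exact_mod_cast e4
        have e6 : (p : ℝ) * (x / ((k + σ).choose σ : ℕ)) + q * (y / ((k + σ).choose σ : ℕ)) =
            (p * x + q * y) / ((k + σ).choose σ : ℕ) := by ring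
        rw [e6, ← mul_div_assoc, div_le_div_iff₀ p0 p1]
        have hk1 : (0 : ℝ) < (k : ℝ) + 1 := by positivity
        refine le_of_mul_le_mul_right ?_ hk1
        rw [mul_assoc, ← e1]
        nlinarith [mul_le_mul_of_nonneg_right e5 p0.le])
  refine ⟨φ, h1, h2, ?_⟩
  have p0 : (0 : ℝ) < ((I.card + σ).choose σ : ℕ) := by exact_mod_cast Nat.choose_pos (by omega)
  rw [← le_div_iff₀ p0]
  calc ((B.filter (fun W => Wl W ⊆ X0 ∪ I.image φ)).card : ℝ)
      = ∑ W ∈ B, if Wl W ⊆ X0 ∪ I.image φ then (1 : ℝ) else 0 := by simp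
    _ ≤ _ := sum_le_sum fun W _ => ?_
    _ ≤ _ := h3
    _ ≤ ∑ W ∈ B, (a.choose σ : ℝ) / ((I.card + σ).choose σ) := sum_le_sum fun W hW' => ?_
    _ = _ := by rw [sum_const, nsmul_eq_mul, mul_div_assoc]
  · split_ifs with h
    · rw [sdiff_eq_empty_iff_subset.mpr h]; simp
    · positivity
  · have := hW W hW'
    have : (I.card + σ - (Wl W \ X0).card).choose σ ≤ a.choose σ := Nat.choose_le_choose _ (by omega)
    exact div_le_div_of_nonneg_right (by exact_mod_cast this) p0.le

end H20.Oh
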