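import Pool.Agent.H20.Oh1

set_option autoImplicit false

namespace H20.Oh

open Finset

/-- middle stage: exponential potential -/
lemma ph1 {ι κ : Type} [DecidableEq ι] (L : ι → Finset ℕ) (B : Finset κ) (Wl : κ → Finset ℕ)
    (m a : ℕ) (hm : 0 < m) (I : Finset ι) (X0 : Finset ℕ) (hL : ∀ i ∈ I, (L i).card = m)
    (hN : X0.card + I.card ≤ m) :
    ∃ φ : ι → ℕ, Set.InjOn φ I ∧ (∀ i ∈ I, φ i ∈ L i ∧ φ i ∉ X0) ∧
      ((B.filter (fun W => ((X0 ∪ I.image φ) \ Wl W).card ≤ a)).card : ℝ) * (1 / 2) ^ a ≤
        ∑ W ∈ B, Real.exp (-(∑ i ∈ I, (((L i \ Wl W).card : ℝ) - a) / m) / 2) := by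
  classical
  have hm' : (0 : ℝ) < m := by exact_mod_cast hm
  obtain ⟨φ, h1, h2, h3⟩ := seq L B (fun W J X =>
    if (X \ Wl W).card ≤ a then (1 / 2 : ℝ) ^ (X \ Wl W).card *
      Real.exp (-(∑ i ∈ J, (((L i \ Wl W).card : ℝ) - a) / m) / 2) else 0) _ I X0 rfl (by
      intro J _ i hi hiJ X hX hN'
      have hq : m ≤ (L i \ X).card + X.card := by
        rw [← hL i hi]; exact card_le_card_sdiff_add_card
      refine ⟨card_pos.mp (by omega), fun W _ => ?_⟩
      rw [sum_insert hiJ]
      set F := L i \ X with hF
      set h := (X \ Wl W).card with hh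
      set e := Real.exp (-(∑ i ∈ J, (((L i \ Wl W).card : ℝ) - a) / m) / 2) with he
      have he0 : 0 < e := Real.exp_pos _
      have c1 : ∀ c ∈ F, c ∈ Wl W → (insert c X \ Wl W).card = h := fun c _ hc => by
        rw [insert_sdiff_of_mem _ hc]
      have c2 : ∀ c ∈ F, c ∉ Wl W → (insert c X \ Wl W).card = h + 1 := fun c hc hc' => by
        rw [insert_sdiff_of_notMem _ hc', card_insert_of_notMem
          (fun e => (mem_sdiff.mp hc).2 (mem_sdiff.mp e).1)]
      by_cases hha : h ≤ a
      · rw [if_pos hha]
        refine (sum_two F (Wl W) _ ((1 / 2) ^ h * e) ((1 / 2) ^ h * e / 2) ?_ ?_).trans ?_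
        · intro c hc hc'
          rw [c1 c hc hc', if_pos hha]
        · intro c hc hc'
          rw [c2 c hc hc']
          split_ifs
          · rw [pow_succ]; linarith
          · positivity
        · have hFs : (F ∩ Wl W).card + (F \ Wl W).card = F.card := card_inter_add_card_sdiff _ _
          have hFm : F.card ≤ m := by rw [← hL i hi]; exact card_le_card sdiff_subset
          have hd : (L i \ Wl W).card ≤ (F \ Wl W).card + h := by
            refine le_trans (card_le_card ?_) (card_union_le _ _)
            intro c hc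
            simp only [hF, mem_union, mem_sdiff] at hc ⊢
            tauto
          set β : ℝ := (((L i \ Wl W).card : ℝ) - a) / m with hβ
          have hβ' : β * m = ((L i \ Wl W).card : ℝ) - a := by rw [hβ]; field_simp
          have x1 : Real.exp (-(β + ∑ i ∈ J, (((L i \ Wl W).card : ℝ) - a) / m) / 2) =
              Real.exp (-β / 2) * e := by
            rw [he, ← Real.exp_add]; congr 1; ring
          rw [x1]
          have x2 := Real.add_one_le_exp (-β / 2)
          have y1 : ((F ∩ Wl W).card : ℝ) + (F \ Wl W).card = F.card := by exact_mod_cast hFs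
          have y2 : (F.card : ℝ) ≤ m := by exact_mod_cast hFm
          have y3 : ((L i \ Wl W).card : ℝ) ≤ (F \ Wl W).card + a := by
            exact_mod_cast hd.trans (Nat.add_le_add_left hha _)
          have y4 : (0 : ℝ) ≤ F.card := by positivity
          have y5 : (0 : ℝ) ≤ (F \ Wl W).card := by positivity
          have y6 : (F.card : ℝ) * β ≤ (F \ Wl W).card := by
            rcases le_total β 0 with hb | hb
            · nlinarith
            · nlinarith
          have y7 : ((F ∩ Wl W).card : ℝ) + (F \ Wl W).card / 2 ≤ F.card * Real.exp (-β / 2) := by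
            nlinarith
          have y8 : (0 : ℝ) < (1 / 2) ^ h * e := by positivity
          nlinarith [mul_le_mul_of_nonneg_right y7 y8.le]
      · rw [if_neg hha, mul_zero]
        refine le_of_eq (sum_eq_zero fun c hc => ?_)
        by_cases hc' : c ∈ Wl W
        · rw [c1 c hc hc', if_neg hha]
        · rw [c2 c hc hc', if_neg (by omega)])
  refine ⟨φ, h1, h2, ?_⟩
  calc ((B.filter (fun W => ((X0 ∪ I.image φ) \ Wl W).card ≤ a)).card : ℝ) * (1 / 2) ^ a
      = ∑ W ∈ B, if ((X0 ∪ I.image φ) \ Wl W).card ≤ a then (1 / 2 : ℝ) ^ a else 0 := by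
        rw [← sum_filter, sum_const, nsmul_eq_mul]
    _ ≤ _ := sum_le_sum fun W _ => ?_
    _ ≤ _ := h3
    _ ≤ _ := sum_le_sum fun W _ => ?_
  · split_ifs with h
    · simp only [sum_empty, neg_zero, zero_div, Real.exp_zero, mul_one]
      exact pow_le_pow_of_le_one (by norm_num) (by norm_num) h
    · exact le_rfl
  · split_ifs
    · exact mul_le_of_le_one_left (Real.exp_pos _).le (pow_le_one₀ (by norm_num) (by norm_num))
    · exact (Real.exp_pos _).le

/-- first stage: colours for the small side -/
lemma tph {ι κ α : Type} [DecidableEq ι] [DecidableEq α] (K : Finset ι) (L : ι → Finset ℕ)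
    (M : α → Finset ℕ) (m E σ : ℕ) (hM : ∀ j, (M j).card = m) (hm : 0 < m) (hE : 2 ≤ E)
    (B : Finset κ) (Z : κ → Finset ℕ) (w : κ → ℝ) (hw : ∀ W, 0 ≤ w W) (A : Finset α) :
    ∃ G ⊆ K, ∃ T : Finset ℕ, K.card ≤ E ^ A.card * G.card ∧ T.card ≤ A.card ∧
      (∀ i ∈ G, ∀ c ∈ T, c ∉ L i) ∧
      (∀ j ∈ A, (∃ c ∈ T, c ∈ M j) ∨ ∀ i ∈ G, E * (M j \ L i).card ≤ 4 * m) ∧
      ∑ W ∈ B, w W * ((E : ℝ) * (Z W).card / m) ^ (σ - (T ∩ Z W).card) ≤
        2 ^ A.card * ∑ W ∈ B, w W * ((E : ℝ) * (Z W).card / m) ^ σ := by
  have hm' : (0 : ℝ) < m := by exact_mod_cast hm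
  induction A using Finset.induction_on with
  | empty => exact ⟨K, Subset.rfl, ∅, by simp, by simp, by simp, by simp, by simp⟩
  | insert j A hj ih =>
    obtain ⟨G, hG, T, h1, h2, h3, h4, h5⟩ := ih
    rw [card_insert_of_notMem hj]
    set F := (M j).filter (fun c => G.card ≤ E * (G.filter (fun i => c ∉ L i)).card) with hF
    by_cases hc : m ≤ E * F.card
    · have hFn : F.Nonempty := card_pos.mp (Nat.pos_of_mul_pos_left (lt_of_lt_of_le hm hc))
      obtain ⟨c, hcF, h6⟩ := avg B F hFn
        (fun W c => w W * ((E : ℝ) * (Z W).card / m) ^ (σ - (insert c T ∩ Z W).card))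
        (fun W => 2 * (w W * ((E : ℝ) * (Z W).card / m) ^ (σ - (T ∩ Z W).card))) (by
          intro W _
          set u : ℝ := (E : ℝ) * (Z W).card / m with hu
          have hu0 : 0 ≤ u := by positivity
          set h := (T ∩ Z W).card with hh
          refine (sum_two F (Z W \ T) _ (w W * u ^ (σ - (h + 1))) (w W * u ^ (σ - h)) ?_ ?_).trans ?_
          · intro c _ hc'
            rw [mem_sdiff] at hc'
            rw [insert_inter_of_mem hc'.1, card_insert_of_notMem
              (fun e => hc'.2 (mem_inter.mp e).1)]
          · intro c _ hc'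
            by_cases hz : c ∈ Z W
            · have : c ∈ T := by
                by_contra e
                exact hc' (mem_sdiff.mpr ⟨hz, e⟩)
              rw [insert_eq_of_mem this]
            · rw [insert_inter_of_notMem hz]
          · have y1 : ((F ∩ (Z W \ T)).card : ℝ) ≤ F.card := by
              exact_mod_cast card_le_card inter_subset_left
            have y2 : ((F \ (Z W \ T)).card : ℝ) ≤ F.card := by
              exact_mod_cast card_le_card sdiff_subset
            have y3 : ((F ∩ (Z W \ T)).card : ℝ) ≤ (Z W).card := by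
              exact_mod_cast card_le_card (inter_subset_right.trans sdiff_subset)
            have y4 : (m : ℝ) ≤ E * F.card := by exact_mod_cast hc
            have y5 : ((Z W).card : ℝ) ≤ u * F.card := by
              rw [hu, div_mul_eq_mul_div, le_div_iff₀ hm']
              nlinarith [mul_le_mul_of_nonneg_left y4 (show (0 : ℝ) ≤ (Z W).card by positivity)]
            have y6 := hw W
            rcases Nat.eq_zero_or_pos (σ - h) with e | e
            · rw [e, show σ - (h + 1) = 0 by omega]
              simp only [pow_zero, mul_one]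
              nlinarith
            · rw [show σ - h = σ - (h + 1) + 1 by omega, pow_succ]
              have y7 : 0 ≤ w W * u ^ (σ - (h + 1)) := by positivity
              have y8 := mul_le_mul_of_nonneg_right (y3.trans y5) y7
              have y9 := mul_le_mul_of_nonneg_right y2 (mul_nonneg y7 hu0)
              nlinarith)
      rw [hF, mem_filter] at hcF
      refine ⟨G.filter (fun i => c ∉ L i), (filter_subset _ _).trans hG, insert c T, ?_, ?_, ?_,
        ?_, ?_⟩
      · rw [pow_succ, mul_assoc]
        exact h1.trans (Nat.mul_le_mul_left _ hcF.2)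
      · exact (card_insert_le _ _).trans (by omega)
      · intro i hi x hx
        rw [mem_filter] at hi
        rcases mem_insert.mp hx with rfl | hx
        · exact hi.2
        · exact h3 i hi.1 x hx
      · intro k hk
        rcases mem_insert.mp hk with rfl | hk
        · exact Or.inl ⟨c, mem_insert_self _ _, hcF.1⟩
        · rcases h4 k hk with ⟨x, hx, hx'⟩ | h7
          · exact Or.inl ⟨x, mem_insert_of_mem hx, hx'⟩
          · exact Or.inr fun i hi => h7 i (mem_filter.mp hi).1
      · rw [← mul_sum] at h6
        rw [pow_succ]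
        linarith
    · set G' := G.filter (fun i => E * (M j \ L i).card ≤ 4 * m) with hG'
      have d1 : ∑ i ∈ G, (M j \ L i).card = ∑ c ∈ M j, (G.filter (fun i => c ∉ L i)).card := by
        simp only [sdiff_eq_filter, card_filter]
        exact sum_comm
      have d2 : E * ∑ c ∈ M j, (G.filter (fun i => c ∉ L i)).card ≤
          F.card * (E * G.card) + m * G.card := by
        rw [mul_sum, ← sum_filter_add_sum_filter_not (M j)
          (fun c => G.card ≤ E * (G.filter (fun i => c ∉ L i)).card)]
        refine add_le_add ?_ ?_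
        · rw [← smul_eq_mul F.card]
          exact sum_le_card_nsmul _ _ _ fun c _ => Nat.mul_le_mul_left _ (card_filter_le _ _)
        · refine le_trans (sum_le_card_nsmul _ _ G.card fun c hc => ?_) ?_
          · exact le_of_lt (not_le.mp (mem_filter.mp hc).2)
          · rw [smul_eq_mul, ← hM j]
            exact Nat.mul_le_mul_right _ (card_filter_le _ _)
      have d3 : (G.filter (fun i => ¬ E * (M j \ L i).card ≤ 4 * m)).card * (4 * m) ≤
          E * ∑ i ∈ G, (M j \ L i).card := by
        rw [mul_sum, ← smul_eq_mul]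
        refine le_trans (card_nsmul_le_sum _ (fun i => E * (M j \ L i).card) _ fun i hi => ?_)
          (sum_le_sum_of_subset (filter_subset _ _))
        exact le_of_lt (not_le.mp (mem_filter.mp hi).2)
      have d4 := card_filter_add_card_filter_not (s := G)
        (fun i => E * (M j \ L i).card ≤ 4 * m)
      rw [← hG'] at d4
      have d5 : G.card ≤ 2 * G'.card := by
        rw [d1] at d3
        have d6 : F.card * (E * G.card) ≤ m * G.card := by
          rw [← mul_assoc]
          exact Nat.mul_le_mul_right _ (by rw [mul_comm]; omega)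
        have d7 : m * (4 * (G.filter (fun i => ¬ E * (M j \ L i).card ≤ 4 * m)).card) ≤
            m * (2 * G.card) := by nlinarith
        have := Nat.le_of_mul_le_mul_left d7 hm
        omega
      refine ⟨G', (filter_subset _ _).trans hG, T, ?_, by omega,
        fun i hi => h3 i (mem_filter.mp hi).1, ?_, ?_⟩
      · rw [pow_succ, mul_assoc]
        exact h1.trans (Nat.mul_le_mul_left _ (d5.trans (Nat.mul_le_mul_right _ hE)))
      · intro k hk
        rcases mem_insert.mp hk with rfl | hk
        · exact Or.inr fun i hi => (mem_filter.mp hi).2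
        · rcases h4 k hk with h7 | h7
          · exact Or.inl h7
          · exact Or.inr fun i hi => h7 i (mem_filter.mp hi).1
      · have : 0 ≤ ∑ W ∈ B, w W * ((E : ℝ) * (Z W).card / m) ^ σ :=
          sum_nonneg fun W _ => mul_nonneg (hw W) (by positivity)
        have h2' : (0 : ℝ) < 2 ^ A.card := by positivity
        rw [pow_succ]
        nlinarith

end H20.Oh
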