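import Pool.Agent.H20.Oh2

set_option autoImplicit false

namespace H20.Oh

open Finset

lemma wbound (z : ℕ) (σ : ℕ) (D E m a : ℝ) (hD : 0 < D) (hE : 0 ≤ E) (hm : 0 < m) :
    Real.exp (a / 2 - z / (8 * D)) * (E * z / m) ^ σ ≤
      Real.exp (a / 2) * E ^ σ * σ.factorial * (8 * D) ^ σ / m ^ σ := by
  have h1 := Real.pow_div_factorial_le_exp ((z : ℝ) / (8 * D)) (by positivity) σ
  have h2 : (0 : ℝ) < σ.factorial := by exact_mod_cast σ.factorial_pos
  have h3 : (0 : ℝ) < (8 * D) ^ σ := by positivity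
  rw [div_pow, div_div, div_le_iff₀ (by positivity)] at h1
  rw [Real.exp_sub, div_pow, mul_pow, ← mul_div_assoc]
  refine div_le_div_of_nonneg_right ?_ (by positivity)
  rw [div_mul_eq_mul_div, div_le_iff₀ (Real.exp_pos _)]
  have h4 : 0 ≤ Real.exp (a / 2) * E ^ σ := by positivity
  nlinarith [mul_le_mul_of_nonneg_left h1 h4]

theorem main (a σ : ℕ) (hσ : 0 < σ) : ∃ C : ℕ, ∀ t b : ℕ, 1 ≤ b → C * b < t ^ (2 * σ) →
    ∀ (L : Fin t → Finset ℕ) (M : Fin a → Finset ℕ) (Wl : Fin b → Finset ℕ),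
      (∀ i, (L i).card = t + σ + 1) → (∀ j, (M j).card = t + σ + 1) →
      (∀ k, (Wl k).card = t + σ + 1) →
      ∃ (φ : Fin t → ℕ) (X0 : Finset ℕ), Function.Injective φ ∧ (∀ i, φ i ∈ L i ∧ φ i ∉ X0) ∧
        (∀ j, ∃ c ∈ M j, c ∈ X0) ∧ ∀ k, ∃ c ∈ Wl k, c ∉ X0 ∧ ∀ i, c ≠ φ i := by
  set E := 4 * a + 4 with hE
  set D := E ^ a with hD
  have hD0 : 0 < D := by positivity
  have hD' : (0 : ℝ) < D := by exact_mod_cast hD0
  set C1 : ℝ := Real.exp (a / 2) * (E : ℝ) ^ σ * σ.factorial * (8 * D) ^ σ with hC1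
  have hC10 : 0 ≤ C1 := by positivity
  set K0 : ℝ := 2 ^ a * 2 ^ a * C1 * a.choose σ * σ.factorial * (2 * D) ^ σ with hK0
  refine ⟨⌈K0⌉₊ + (2 * D * (a + 1) + σ + 1) ^ (2 * σ), fun t b hb hC L M Wl hL hM hW => ?_⟩
  have ht0 : 2 * D * (a + 1) + σ + 1 < t := by
    refine lt_of_pow_lt_pow_left₀ (2 * σ) (Nat.zero_le _) (lt_of_le_of_lt ?_ hC)
    exact le_trans (Nat.le_add_left _ _) (Nat.le_mul_of_pos_right _ hb)
  have hK : K0 * b < (t : ℝ) ^ (2 * σ) := by
    have h1 : ⌈K0⌉₊ * b < t ^ (2 * σ) :=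
      lt_of_le_of_lt (Nat.mul_le_mul_right _ (Nat.le_add_right _ _)) hC
    have h2 : (⌈K0⌉₊ : ℝ) * b < (t : ℝ) ^ (2 * σ) := by exact_mod_cast h1
    exact lt_of_le_of_lt (mul_le_mul_of_nonneg_right (Nat.le_ceil _) (by positivity)) h2
  set m := t + σ + 1 with hm
  have hm0 : 0 < m := by omega
  have hm' : (0 : ℝ) < m := by exact_mod_cast hm0
  set g := t / (2 * D) with hg
  have hg1 : 2 * D * g ≤ t := Nat.mul_div_le _ _
  have hg2 : t < 2 * D * (g + 1) := Nat.lt_mul_div_succ _ (by omega)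
  have hg3 : a < g := by
    have : 2 * D * (a + 1) < 2 * D * (g + 1) := by omega
    have := Nat.lt_of_mul_lt_mul_left this
    omega
  set Z : Fin b → Finset ℕ := fun k =>
    (Wl k).filter (fun c => t ≤ D * (univ.filter (fun i => c ∉ L i)).card) with hZ
  set w : Fin b → ℝ := fun k => Real.exp (a / 2 - (Z k).card / (8 * D)) with hw
  obtain ⟨G, -, T, h1, h2, h3, h4, h5⟩ := tph univ L M m E σ hM hm0 (by omega) univ Z w
    (fun k => (Real.exp_pos _).le) univ
  simp only [card_univ, Fintype.card_fin] at h1 h2 h5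
  rw [← hD] at h1
  have hgG : g ≤ G.card := by
    have : D * g ≤ D * G.card := by nlinarith
    exact Nat.le_of_mul_le_mul_left this hD0
  obtain ⟨G2, hG2, hG2c⟩ := exists_subset_card_eq hgG
  obtain ⟨i0, hi0⟩ : G.Nonempty := card_pos.mp (by omega)
  obtain ⟨c0, hc0⟩ : ∃ c0, ∀ j, (∃ c ∈ T, c ∈ M j) ∨ c0 ∈ M j := by
    set Nn := univ.filter (fun j => ¬ ∃ c ∈ T, c ∈ M j) with hNn
    have e1 : E * (Nn.biUnion (fun j => L i0 \ M j)).card ≤ a * (4 * m) := by
      refine le_trans (Nat.mul_le_mul_left _ card_biUnion_le) ?_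
      rw [mul_sum]
      refine le_trans (sum_le_card_nsmul _ _ (4 * m) fun j hj => ?_) ?_
      · rw [card_sdiff_comm ((hL i0).trans (hM j).symm)]
        exact ((h4 j (mem_univ _)).resolve_left (mem_filter.mp hj).2) i0 hi0
      · rw [smul_eq_mul]
        refine Nat.mul_le_mul_right _ (le_trans (card_le_univ _) (by simp))
    have e2 : (Nn.biUnion (fun j => L i0 \ M j)).card < (L i0).card := by
      rw [hL i0]
      refine Nat.lt_of_mul_lt_mul_left (a := E) (lt_of_le_of_lt e1 ?_)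
      rw [hE]; nlinarith
    obtain ⟨c0, e3, e4⟩ := exists_mem_notMem_of_card_lt_card e2
    refine ⟨c0, fun j => ?_⟩
    by_contra e5
    rw [not_or] at e5
    exact e4 (mem_biUnion.mpr ⟨j, mem_filter.mpr ⟨mem_univ _, e5.1⟩, mem_sdiff.mpr ⟨e3, e5.2⟩⟩)
  set X0 := insert c0 T with hX0
  have hX0c : X0.card ≤ T.card + 1 := card_insert_le _ _
  set K1 : Finset (Fin t) := univ \ G2 with hK1
  have hK1c : K1.card + g = t := by
    rw [hK1, card_sdiff_of_subset (subset_univ _), hG2c, card_univ, Fintype.card_fin]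
    have := card_le_univ G
    rw [Fintype.card_fin] at this
    omega
  set B0 := univ.filter (fun k => σ ≤ (T ∩ Z k).card) with hB0
  obtain ⟨φ1, p1, p2, p3⟩ := ph1 L B0 Wl m a hm0 K1 X0 (fun i _ => hL i) (by omega)
  set X1 := X0 ∪ K1.image φ1 with hX1
  have hX1c : X1.card ≤ T.card + 1 + K1.card :=
    (card_union_le _ _).trans (add_le_add hX0c card_image_le)
  set B1 := B0.filter (fun k => (X1 \ Wl k).card ≤ a) with hB1
  obtain ⟨φ2, q1, q2, q3⟩ := ph2 L B1 Wl σ a hσ G2 X1 (by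
      intro i hi X hX
      have e1 : (L i ∪ T).card = m + T.card := by
        rw [card_union_of_disjoint (disjoint_right.mpr fun c hc => h3 i (hG2 hi) c hc), hL i]
      have e2 : (L i ∪ T).card ≤ (L i ∪ X).card := card_le_card (union_subset_union Subset.rfl
        (((subset_insert _ _).trans subset_union_left).trans hX))
      have e3 := card_sdiff_add_card (L i) X
      omega) (by
      intro k _
      have e1 : (Wl k).card ≤ (Wl k \ X1).card + X1.card := card_le_card_sdiff_add_card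
      have := hW k
      omega)
  rw [hG2c] at q3
  have s1 : ∑ k ∈ B0, w k ≤ 2 ^ a * (b * (C1 / (m : ℝ) ^ σ)) := by
    calc ∑ k ∈ B0, w k = ∑ k ∈ B0, w k * ((E : ℝ) * (Z k).card / m) ^ (σ - (T ∩ Z k).card) := by
          refine sum_congr rfl fun k hk => ?_
          rw [Nat.sub_eq_zero_of_le (mem_filter.mp hk).2, pow_zero, mul_one]
      _ ≤ _ := sum_le_sum_of_subset_of_nonneg (subset_univ _) fun k _ _ => by positivity
      _ ≤ _ := h5
      _ ≤ _ := by
          refine mul_le_mul_of_nonneg_left ?_ (by positivity)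
          refine le_trans (sum_le_card_nsmul _ _ (C1 / (m : ℝ) ^ σ) fun k _ => ?_) (by simp)
          exact wbound _ σ D E m a hD' (by positivity) hm'
  have s2 : ∀ k, Real.exp (-(∑ i ∈ K1, (((L i \ Wl k).card : ℝ) - a) / m) / 2) ≤ w k := by
    intro k
    refine Real.exp_le_exp.mpr ?_
    have d1 : ∑ i ∈ K1, (L i \ Wl k).card = ∑ c ∈ Wl k, (K1.filter (fun i => c ∉ L i)).card := by
      rw [sum_congr rfl fun i _ => card_sdiff_comm ((hL i).trans (hW k).symm)]
      simp only [sdiff_eq_filter, card_filter]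
      exact sum_comm
    have d2 : (Z k).card * t ≤ 2 * D * ∑ i ∈ K1, (L i \ Wl k).card := by
      rw [d1, mul_sum, ← smul_eq_mul]
      refine le_trans (card_nsmul_le_sum _
        (fun c => 2 * D * (K1.filter (fun i => c ∉ L i)).card) _ fun c hc => ?_)
        (sum_le_sum_of_subset (filter_subset _ _))
      have e1 := (mem_filter.mp hc).2
      have e2 : (univ.filter (fun i => c ∉ L i)).card ≤
          (K1.filter (fun i => c ∉ L i)).card + g := by
        rw [← hG2c]
        refine le_trans (card_le_card fun i hi => ?_) (card_union_le _ _)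
        simp only [hK1, mem_filter, mem_union, mem_sdiff, mem_univ, true_and] at hi ⊢
        tauto
      have e3 := Nat.mul_le_mul_left D e2
      nlinarith
    have d3 : ((Z k).card : ℝ) * t ≤ 2 * D * ∑ i ∈ K1, ((L i \ Wl k).card : ℝ) := by
      exact_mod_cast d2
    have d4 : (K1.card : ℝ) ≤ m := by exact_mod_cast (show K1.card ≤ m by omega)
    have d5 : (m : ℝ) ≤ 2 * t := by exact_mod_cast (show m ≤ 2 * t by omega)
    rw [← sum_div, sum_sub_distrib, sum_const, nsmul_eq_mul]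
    set S := ∑ i ∈ K1, ((L i \ Wl k).card : ℝ)
    have d6 : ((Z k).card : ℝ) / (4 * D) - a ≤ (S - K1.card * a) / m := by
      rw [le_div_iff₀ hm', sub_mul, div_mul_eq_mul_div]
      have : ((Z k).card : ℝ) * m / (4 * D) ≤ S := by
        rw [div_le_iff₀ (by positivity)]
        nlinarith [mul_le_mul_of_nonneg_left d5 (show (0 : ℝ) ≤ (Z k).card by positivity)]
      nlinarith [mul_le_mul_of_nonneg_right d4 (show (0 : ℝ) ≤ a by positivity)]
    have d7 : ((Z k).card : ℝ) / (8 * D) = (Z k).card / (4 * D) / 2 := by field_simp; ring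
    rw [d7]
    linarith
  have s3 : (B1.card : ℝ) ≤ 2 ^ a * (2 ^ a * (b * (C1 / (m : ℝ) ^ σ))) := by
    have e1 := p3.trans ((sum_le_sum fun k _ => s2 k).trans s1)
    rw [one_div, inv_pow, ← div_eq_mul_inv, div_le_iff₀ (by positivity)] at e1
    linarith
  have s4 : (t : ℝ) ^ σ ≤ (2 * D) ^ σ * (σ.factorial * (g + σ).choose σ) := by
    have e1 := Nat.pow_succ_le_ascFactorial (g + 1) σ
    rw [Nat.ascFactorial_eq_factorial_mul_choose] at e1
    have e2 : t ^ σ ≤ (2 * D) ^ σ * (σ.factorial * (g + σ).choose σ) :=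
      le_trans (Nat.pow_le_pow_left hg2.le σ) (by rw [mul_pow (2 * D)]; exact Nat.mul_le_mul_left _ e1)
    exact_mod_cast e2
  have s5 : (B1.filter (fun k => Wl k ⊆ X1 ∪ G2.image φ2)).card = 0 := by
    by_contra e0
    have e1 : (1 : ℝ) ≤ (B1.filter (fun k => Wl k ⊆ X1 ∪ G2.image φ2)).card := by
      exact_mod_cast Nat.pos_of_ne_zero e0
    have e2 : (((g + σ).choose σ : ℕ) : ℝ) ≤ B1.card * a.choose σ :=
      le_trans (le_mul_of_one_le_left (by positivity) e1) q3
    have e3 := e2.trans (mul_le_mul_of_nonneg_right s3 (by positivity))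
    have e4 := s4.trans (mul_le_mul_of_nonneg_left (mul_le_mul_of_nonneg_left e3 (by positivity))
      (by positivity))
    have e5 : (2 * D : ℝ) ^ σ * (σ.factorial * (2 ^ a * (2 ^ a * (b * (C1 / (m : ℝ) ^ σ))) *
        a.choose σ)) = K0 * b / (m : ℝ) ^ σ := by rw [hK0]; ring
    rw [e5, le_div_iff₀ (by positivity)] at e4
    have e6 : (t : ℝ) ^ σ ≤ (m : ℝ) ^ σ :=
      pow_le_pow_left₀ (by positivity) (by exact_mod_cast (show t ≤ m by omega)) σ
    rw [two_mul, pow_add] at hK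
    nlinarith [mul_le_mul_of_nonneg_left e6 (show (0 : ℝ) ≤ (t : ℝ) ^ σ by positivity)]
  have hk1 : ∀ i, i ∉ G2 → i ∈ K1 := fun i hi => mem_sdiff.mpr ⟨mem_univ _, hi⟩
  refine ⟨fun i => if i ∈ G2 then φ2 i else φ1 i, X0, ?_, ?_, ?_, ?_⟩
  · intro x y hxy
    by_cases hx : x ∈ G2 <;> by_cases hy : y ∈ G2 <;> simp only [hx, hy, if_true, if_false] at hxy
    · exact q1 hx hy hxy
    · exact absurd (hxy ▸ mem_union_right _ (mem_image_of_mem φ1 (hk1 y hy))) (q2 x hx).2
    · exact absurd (hxy ▸ mem_union_right _ (mem_image_of_mem φ1 (hk1 x hx))) (q2 y hy).2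
    · exact p1 (hk1 x hx) (hk1 y hy) hxy
  · intro i
    by_cases hi : i ∈ G2 <;> simp only [hi, if_true, if_false]
    · exact ⟨(q2 i hi).1, fun e => (q2 i hi).2 (mem_union_left _ e)⟩
    · exact p2 i (hk1 i hi)
  · intro j
    rcases hc0 j with ⟨c, e1, e2⟩ | e1
    · exact ⟨c, e2, mem_insert_of_mem e1⟩
    · exact ⟨c0, e1, mem_insert_self _ _⟩
  · intro k
    have hns : ¬ Wl k ⊆ X1 ∪ G2.image φ2 := by
      intro hs
      have c2 : (G2.image φ2).card ≤ g := hG2c ▸ card_image_le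
      have c1 : (K1.image φ1).card ≤ K1.card := card_image_le
      have hWk := hW k
      have m0 : k ∈ B0 := by
        refine mem_filter.mpr ⟨mem_univ _, ?_⟩
        have e1 : Wl k ⊆ (T ∩ Z k) ∪ insert c0 (K1.image φ1 ∪ G2.image φ2) := by
          intro c hc
          have e2 := hs hc
          by_cases hT : c ∈ T
          · refine mem_union_left _ (mem_inter.mpr ⟨hT, mem_filter.mpr ⟨hc, h1.trans ?_⟩⟩)
            exact Nat.mul_le_mul_left _ (card_le_card fun i hi =>
              mem_filter.mpr ⟨mem_univ _, h3 i hi c hT⟩)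
          · refine mem_union_right _ ?_
            simp only [hX1, hX0, mem_union, mem_insert] at e2 ⊢
            tauto
        have e2 := (card_le_card e1).trans (card_union_le _ _)
        have e3 := card_insert_le c0 (K1.image φ1 ∪ G2.image φ2)
        have e4 := card_union_le (K1.image φ1) (G2.image φ2)
        omega
      have m1 : k ∈ B1 := by
        refine mem_filter.mpr ⟨m0, ?_⟩
        have e1 : (X1 \ Wl k).card ≤ ((X1 ∪ G2.image φ2) \ Wl k).card :=
          card_le_card (sdiff_subset_sdiff subset_union_left Subset.rfl)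
        rw [card_sdiff_of_subset hs] at e1
        have e4 := card_union_le X1 (G2.image φ2)
        omega
      have := card_pos.mpr ⟨k, (mem_filter.mpr ⟨m1, hs⟩ :
        k ∈ B1.filter (fun k => Wl k ⊆ X1 ∪ G2.image φ2))⟩
      omega
    obtain ⟨c, e1, e2⟩ := not_subset.mp hns
    refine ⟨c, e1, fun e => e2 (mem_union_left _ (mem_union_left _ e)), fun i e => e2 ?_⟩
    by_cases hi : i ∈ G2 <;> simp only [hi, if_true, if_false] at e
    · exact mem_union_right _ (e ▸ mem_image_of_mem φ2 hi)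
    · exact mem_union_left _ (mem_union_right _ (e ▸ mem_image_of_mem φ1 (hk1 i hi)))

end H20.Oh
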