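import Mathlib

set_option autoImplicit false

namespace H20.Oh

/-- `K_t ∨ K_{a,b}`: distinct vertices are adjacent unless both lie in the part of size `a`
or both lie in the part of size `b`. -/
def JG (t a b : ℕ) : SimpleGraph (Fin t ⊕ Fin a ⊕ Fin b) :=
  SimpleGraph.fromRel fun u v =>
    match u, v with
    | Sum.inl _, _ => True
    | Sum.inr (Sum.inl _), Sum.inr (Sum.inr _) => True
    | _, _ => False

/-- every assignment of lists of size `k` admits a proper colouring from the lists -/
def Choosable {V : Type} (G : SimpleGraph V) (k : ℕ) : Prop :=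
  ∀ L : V → Finset ℕ, (∀ v, (L v).card = k) →
    ∃ c : V → ℕ, (∀ v, c v ∈ L v) ∧ ∀ u v, G.Adj u v → c u ≠ c v

/-- list chromatic number -/
noncomputable def chl {V : Type} (G : SimpleGraph V) : ℕ := sInf {k | Choosable G k}

/-- generalized Ohba number -/
noncomputable def tau (s a b : ℕ) : ℕ :=
  sInf {t | (chl (JG t a b) : ℕ∞) ≤ (JG t a b).chromaticNumber + s}

end H20.Oh
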