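import Pool.Agent.H20.Oh3
import Pool.Agent.H20.OhDefs

set_option autoImplicit false

namespace H20.Oh

open Finset

lemma adj_iff (t a b : ℕ) (u v : Fin t ⊕ Fin a ⊕ Fin b) : (JG t a b).Adj u v ↔ u ≠ v ∧
    ¬ ((∃ i j, u = Sum.inr (Sum.inl i) ∧ v = Sum.inr (Sum.inl j)) ∨
      (∃ i j, u = Sum.inr (Sum.inr i) ∧ v = Sum.inr (Sum.inr j))) := by
  rw [JG, SimpleGraph.fromRel_adj]
  rcases u with u | u | u <;> rcases v with v | v | v <;> simp

lemma chrom (t a b : ℕ) (ha : 0 < a) (hb : 0 < b) :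
    (JG t a b).chromaticNumber = (t + 2 : ℕ) := by
  apply le_antisymm
  · refine SimpleGraph.Colorable.chromaticNumber_le ⟨SimpleGraph.Coloring.mk
      (Sum.elim (fun i => ⟨i.val, by omega⟩)
        (Sum.elim (fun _ => ⟨t, by omega⟩) (fun _ => ⟨t + 1, by omega⟩))) ?_⟩
    intro u v h
    rw [adj_iff] at h
    rcases u with u | u | u <;> rcases v with v | v | v <;>
      simp [Fin.ext_iff] at h ⊢ <;> omega
  · let f : Fin t ⊕ Fin 1 ⊕ Fin 1 → Fin t ⊕ Fin a ⊕ Fin b :=
      Sum.map id (Sum.map (fun _ => ⟨0, ha⟩) (fun _ => ⟨0, hb⟩))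
    have hf : Function.Injective f := by
      rintro (u | u | u) (v | v | v) h <;> simp [f] at h ⊢ <;> first | exact h | exact Subsingleton.elim _ _
    have hc : (JG t a b).IsClique (univ.image f : Finset _) := by
      intro x hx y hy hxy
      simp only [coe_image, coe_univ, Set.image_univ, Set.mem_range] at hx hy
      obtain ⟨u, rfl⟩ := hx
      obtain ⟨v, rfl⟩ := hy
      rw [adj_iff]
      refine ⟨hxy, ?_⟩
      rcases u with u | u | u <;> rcases v with v | v | v <;> simp [f] at hxy ⊢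
    have := hc.card_le_chromaticNumber
    rw [card_image_of_injective _ hf] at this
    simpa [add_assoc] using this

lemma choos_mono {V : Type} (G : SimpleGraph V) (k l : ℕ) (h : Choosable G k) (hk : k ≤ l) :
    Choosable G l := by
  intro L hL
  choose L' h1 h2 using fun v => exists_subset_card_eq (s := L v) (n := k) (by rw [hL]; exact hk)
  obtain ⟨c, h3, h4⟩ := h L' h2
  exact ⟨c, fun v => h1 v (h3 v), h4⟩

lemma choos_card {V : Type} [Fintype V] [DecidableEq V] (G : SimpleGraph V) :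
    Choosable G (Fintype.card V + 1) := by
  intro L hL
  obtain ⟨φ, h1, h2, -⟩ := ph1 L (∅ : Finset ℕ) (fun _ => ∅) (Fintype.card V + 1) 0 (by omega)
    univ ∅ (fun i _ => hL i) (by simp)
  exact ⟨φ, fun v => (h2 v (mem_univ _)).1, fun u v h e => h.ne (h1 (by simp) (by simp) e)⟩

lemma chl_le {V : Type} [Fintype V] [DecidableEq V] (G : SimpleGraph V) (k : ℕ) :
    chl G ≤ k ↔ Choosable G k :=
  ⟨fun h => choos_mono G _ _ (Nat.sInf_mem (s := {k | Choosable G k}) ⟨_, choos_card G⟩) h,
    fun h => Nat.sInf_le h⟩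

lemma tau_eq (s a b : ℕ) (ha : 0 < a) (hb : 0 < b) :
    tau s a b = sInf {t | Choosable (JG t a b) (t + (s + 1) + 1)} := by
  unfold tau
  congr 1
  ext t
  simp only [Set.mem_setOf_eq]
  rw [chrom t a b ha hb, ← chl_le, ← Nat.cast_add, Nat.cast_le]
  omega

lemma upper (a σ : ℕ) (hσ : 0 < σ) : ∃ C : ℕ, ∀ t b : ℕ, 1 ≤ b → C * b < t ^ (2 * σ) →
    Choosable (JG t a b) (t + σ + 1) := by
  obtain ⟨C, hC⟩ := main a σ hσ
  refine ⟨C, fun t b hb h L hL => ?_⟩
  obtain ⟨φ, X0, h1, h2, h3, h4⟩ := hC t b hb h (fun i => L (Sum.inl i))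
    (fun j => L (Sum.inr (Sum.inl j))) (fun k => L (Sum.inr (Sum.inr k)))
    (fun _ => hL _) (fun _ => hL _) (fun _ => hL _)
  choose ψ h5 h6 using h3
  choose χ h7 h8 h9 using h4
  refine ⟨Sum.elim φ (Sum.elim ψ χ), ?_, ?_⟩
  · rintro (u | u | u)
    · exact (h2 u).1
    · exact h5 u
    · exact h7 u
  · intro u v huv
    rw [adj_iff] at huv
    rcases u with u | u | u <;> rcases v with v | v | v <;>
      simp only [Sum.elim_inl, Sum.elim_inr]
    · exact fun e => huv.1 (by rw [h1 e])
    · exact fun e => (h2 u).2 (e ▸ h6 v)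
    · exact (h9 v u).symm
    · exact fun e => (h2 v).2 (e ▸ h6 u)
    · exact absurd (Or.inl ⟨u, v, rfl, rfl⟩) huv.2
    · exact fun e => h8 v (e ▸ h6 u)
    · exact h9 u v
    · exact fun e => h8 u (e ▸ h6 v)
    · exact absurd (Or.inr ⟨u, v, rfl, rfl⟩) huv.2

lemma lower (a σ t b : ℕ) (ha : σ < a) (hb : (t + σ + 1) ^ (2 * σ) ≤ b) :
    ¬ Choosable (JG t a b) (t + σ + 1) := by
  intro h
  set m := t + σ + 1 with hm
  let f : (Fin σ → Fin m) × (Fin σ → Fin m) → Finset ℕ := fun p =>
    (range m \ univ.image (fun k => (p.1 k).val)) ∪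
      univ.image (fun k : Fin σ => (k.val + 1) * m + (p.2 k).val)
  have hcard : Fintype.card ((Fin σ → Fin m) × (Fin σ → Fin m)) ≤ Fintype.card (Fin b) := by
    simpa [two_mul, pow_add] using hb
  obtain ⟨e⟩ := Function.Embedding.nonempty_of_card_le hcard
  classical
  let Wl : Fin b → Finset ℕ := fun k =>
    if h : ∃ p, e p = k ∧ (f p).card = m then f h.choose else range m
  let L : Fin t ⊕ Fin a ⊕ Fin b → Finset ℕ := Sum.elim (fun _ => range m)
    (Sum.elim (fun j => Ico (j.val * m) (j.val * m + m)) Wl)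
  obtain ⟨c, h1, h2⟩ := h L (by
    rintro (u | u | u)
    · simp [L]
    · simp [L]
    · simp only [L, Wl, Sum.elim_inr]
      split_ifs with h
      · exact h.choose_spec.2
      · simp)
  have hK : ∀ i, c (Sum.inl i) < m := fun i => by simpa [L] using h1 (Sum.inl i)
  have hA : ∀ j : Fin a, j.val * m ≤ c (Sum.inr (Sum.inl j)) ∧
      c (Sum.inr (Sum.inl j)) < j.val * m + m := fun j => by
    simpa [L] using h1 (Sum.inr (Sum.inl j))
  let z : Fin a := ⟨0, by omega⟩
  let S : Finset ℕ := insert (c (Sum.inr (Sum.inl z))) (univ.image fun i => c (Sum.inl i))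
  have hS : S ⊆ range m := by
    intro x hx
    rcases mem_insert.mp hx with rfl | hx
    · simpa [z] using (hA z).2
    · obtain ⟨i, _, rfl⟩ := mem_image.mp hx
      exact mem_range.mpr (hK i)
  have hSc : S.card = t + 1 := by
    rw [card_insert_of_notMem, card_image_of_injective]
    · simp
    · intro i j hij
      by_contra hne
      exact h2 (Sum.inl i) (Sum.inl j) (by rw [adj_iff]; simpa using hne) hij
    · intro hx
      obtain ⟨i, _, hi⟩ := mem_image.mp hx
      exact h2 (Sum.inl i) (Sum.inr (Sum.inl z)) (by rw [adj_iff]; simp) hi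
  have hY : (range m \ S).card = σ := by
    rw [card_sdiff_of_subset hS, card_range, hSc]; omega
  let Y : Fin σ → Fin m := fun k => ⟨(range m \ S).orderEmbOfFin hY k,
    mem_range.mp (mem_sdiff.mp (orderEmbOfFin_mem _ hY k)).1⟩
  have hYi : univ.image (fun k => (Y k).val) = range m \ S := image_orderEmbOfFin_univ _ hY
  let g : Fin σ → Fin a := fun k => ⟨k.val + 1, by omega⟩
  let y : Fin σ → Fin m := fun k => ⟨c (Sum.inr (Sum.inl (g k))) - (k.val + 1) * m, by
    have := hA (g k); simp only [g] at this ⊢; omega⟩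
  have hy : ∀ k : Fin σ, (k.val + 1) * m + (y k).val = c (Sum.inr (Sum.inl (g k))) := fun k => by
    have := hA (g k); simp only [g, y] at this ⊢; omega
  have hf : f (Y, y) = S ∪ univ.image (fun k : Fin σ => (k.val + 1) * m + (y k).val) := by
    simp only [f]
    rw [hYi, Finset.sdiff_sdiff_eq_self hS]
  have hfc : (f (Y, y)).card = m := by
    rw [hf, card_union_of_disjoint, hSc, card_image_of_injective]
    · simp only [card_univ, Fintype.card_fin]; omega
    · intro k l hkl
      have a1 := (y k).2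
      have a2 := (y l).2
      simp only at hkl
      apply Fin.ext
      rcases lt_trichotomy k.val l.val with e | e | e
      · nlinarith
      · exact e
      · nlinarith
    · rw [disjoint_left]
      intro x hx hx'
      obtain ⟨k, _, rfl⟩ := mem_image.mp hx'
      have := mem_range.mp (hS hx)
      nlinarith
  have hex : ∃ p, e p = e (Y, y) ∧ (f p).card = m := ⟨_, rfl, hfc⟩
  have hW : Wl (e (Y, y)) = f (Y, y) := by
    simp only [Wl]
    rw [dif_pos hex, e.injective hex.choose_spec.1]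
  have h3 := h1 (Sum.inr (Sum.inr (e (Y, y))))
  simp only [L, Sum.elim_inr] at h3
  rw [hW, hf] at h3
  rcases mem_union.mp h3 with h4 | h4
  · rcases mem_insert.mp h4 with h5 | h5
    · exact h2 _ _ (by rw [adj_iff]; simp) h5
    · obtain ⟨i, _, h6⟩ := mem_image.mp h5
      exact h2 _ _ (by rw [adj_iff]; simp) h6
  · obtain ⟨k, _, h6⟩ := mem_image.mp h4
    rw [hy] at h6
    exact h2 _ _ (by rw [adj_iff]; simp) h6

end H20.Oh
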