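import Pool.Agent.H20.Oh4

set_option autoImplicit false

namespace H20.Oh

open Finset

lemma lower2 (a b p t : ℕ) (hp : 1 ≤ p) (h1 : t + 2 ≤ p * (a - 1)) (h2 : p * (t + 2) + 1 ≤ b) :
    ¬ Choosable (JG t a b) (t + 2) := by
  intro h
  set m := t + 2 with hm
  have ha : 0 < a := by
    rcases a with _ | a
    · omega
    · omega
  let f : ℕ → ℕ → ℕ := fun j x => if x / p + 1 = j then m + x % p else x
  let g : ℕ → ℕ → ℕ := fun k x => if k ≠ 0 ∧ x = (k - 1) / p then m + (k - 1) % p else x
  let L : Fin t ⊕ Fin a ⊕ Fin b → Finset ℕ := Sum.elim (fun _ => range m)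
    (Sum.elim (fun j => (range m).image (f j.val)) (fun k => (range m).image (g k.val)))
  obtain ⟨c, c1, c2⟩ := h L (by
    rintro (u | u | u)
    · simp [L]
    · simp only [L, Sum.elim_inr, Sum.elim_inl]
      rw [card_image_of_injOn, card_range]
      intro x hx y hy hxy
      simp only [coe_range, Set.mem_Iio] at hx hy
      simp only [f] at hxy
      split_ifs at hxy with b1 b2 b2
      · rw [← Nat.div_add_mod x p, ← Nat.div_add_mod y p, show x / p = y / p by omega,
          show x % p = y % p by omega]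
      all_goals omega
    · simp only [L, Sum.elim_inr]
      rw [card_image_of_injOn, card_range]
      intro x hx y hy hxy
      simp only [coe_range, Set.mem_Iio] at hx hy
      simp only [g] at hxy
      split_ifs at hxy <;> omega)
  have hKA : ∀ i j, c (Sum.inl i) ≠ c (Sum.inr (Sum.inl j)) := fun i j =>
    c2 _ _ (by rw [adj_iff]; simp)
  have hKB : ∀ i j, c (Sum.inl i) ≠ c (Sum.inr (Sum.inr j)) := fun i j =>
    c2 _ _ (by rw [adj_iff]; simp)
  have hAB : ∀ i j, c (Sum.inr (Sum.inl i)) ≠ c (Sum.inr (Sum.inr j)) := fun i j =>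
    c2 _ _ (by rw [adj_iff]; simp)
  set x := c (Sum.inr (Sum.inl ⟨0, ha⟩)) with hx
  set y := c (Sum.inr (Sum.inr ⟨0, by omega⟩)) with hy
  have hxm : x < m := by simpa [L, f] using c1 (Sum.inr (Sum.inl ⟨0, ha⟩))
  have hym : y < m := by simpa [L, g] using c1 (Sum.inr (Sum.inr ⟨0, by omega⟩))
  have hS : insert x (insert y (univ.image fun i => c (Sum.inl i))) = range m := by
    apply eq_of_subset_of_card_le
    · intro w hw
      simp only [mem_insert, mem_image, mem_univ, true_and] at hw
      rcases hw with rfl | rfl | ⟨i, rfl⟩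
      · exact mem_range.mpr hxm
      · exact mem_range.mpr hym
      · simpa [L] using c1 (Sum.inl i)
    · rw [card_insert_of_notMem, card_insert_of_notMem, card_image_of_injective]
      · simp [hm]
      · intro i j hij
        by_contra hne
        exact c2 (Sum.inl i) (Sum.inl j) (by rw [adj_iff]; simpa using hne) hij
      · simp only [mem_image, mem_univ, true_and, not_exists]
        exact fun i => hKB i _
      · simp only [mem_insert, mem_image, mem_univ, true_and, not_or, not_exists]
        exact ⟨hAB _ _, fun i => hKA i _⟩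
  have hw : ∀ w < m, w = x ∨ w = y ∨ ∃ i, c (Sum.inl i) = w := fun w hw => by
    have := mem_range.mpr hw
    rw [← hS] at this
    simpa using this
  have hj : x / p + 1 < a := by
    have : x / p < a - 1 := Nat.div_lt_of_lt_mul (by omega)
    omega
  obtain ⟨w, w1, w2⟩ := mem_image.mp (c1 (Sum.inr (Sum.inl ⟨x / p + 1, hj⟩)))
  simp only [f] at w2
  split_ifs at w2 with b1
  · have hz : w % p < p := Nat.mod_lt _ hp
    have hk : w % p + p * y + 1 < b := by nlinarith
    obtain ⟨v, v1, v2⟩ := mem_image.mp (c1 (Sum.inr (Sum.inr ⟨w % p + p * y + 1, hk⟩)))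
    simp only [g, Nat.add_sub_cancel, Nat.add_mul_div_left _ _ hp, Nat.add_mul_mod_self_left,
      Nat.div_eq_of_lt hz, Nat.mod_mod, zero_add] at v2
    split_ifs at v2 with b2
    · exact hAB _ _ (w2.symm.trans v2)
    · rcases hw v (mem_range.mp v1) with e | e | ⟨i, e⟩
      · exact hAB _ _ (e.symm.trans v2)
      · exact b2 ⟨by omega, e⟩
      · exact hKB _ _ (e.trans v2)
  · rcases hw w (mem_range.mp w1) with e | e | ⟨i, e⟩
    · exact b1 (by rw [e])
    · exact hAB _ _ (w2.symm.trans e)
    · exact hKA _ _ (e.trans w2)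

end H20.Oh
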