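import Mathlib

set_option autoImplicit false

namespace H20.Pa

open Finset

variable {V : Type}

def Cl (G : SimpleGraph V) (W : (V → ℕ) → (V → ℕ) → Prop) : Prop :=
  ∀ t n : V → ℕ, (∀ v, n v ≤ t v) →
    (∀ M : Set V, M.Nonempty → (∀ v ∈ M, 0 < n v) →
      ∃ I ⊆ M, G.IsIndepSet I ∧
        W (t - M.indicator (fun _ => (1 : ℕ))) (n - I.indicator (fun _ => (1 : ℕ)))) →
    W t n

/-- Painter wins with `t` tokens and `n` colours still needed -/
def Pt (G : SimpleGraph V) (t n : V → ℕ) : Prop := ∀ W, Cl G W → W t n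

def Dn (M : Set V) (t t' : V → ℕ) : Prop :=
  (∀ v, v ∈ M → t' v = t v - 1) ∧ (∀ v, v ∉ M → t' v = t v)

lemma dn_ind (M : Set V) (t : V → ℕ) : Dn M t (t - M.indicator (fun _ => (1 : ℕ))) :=
  ⟨fun v hv => by simp [Set.indicator_of_mem hv], fun v hv => by simp [Set.indicator_of_notMem hv]⟩

lemma indep_iff (G : SimpleGraph V) (I : Set V) :
    G.IsIndepSet I ↔ ∀ u ∈ I, ∀ v ∈ I, ¬ G.Adj u v := by
  constructor
  · intro h u hu v hv huv
    exact h hu hv huv.ne huv
  · intro h u hu v hv _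
    exact h u hu v hv

lemma cl_pt (G : SimpleGraph V) : Cl G (Pt G) := by
  intro t n h1 h2 W hW
  refine hW t n h1 fun M hM hn => ?_
  obtain ⟨I, hI, hi, h⟩ := h2 M hM hn
  exact ⟨I, hI, hi, h W hW⟩

lemma inv0 {G : SimpleGraph V} {t n : V → ℕ} (h : Pt G t n) : (∀ v, n v ≤ t v) ∧
    (∀ M : Set V, M.Nonempty → (∀ v ∈ M, 0 < n v) →
      ∃ I ⊆ M, G.IsIndepSet I ∧
        Pt G (t - M.indicator (fun _ => (1 : ℕ))) (n - I.indicator (fun _ => (1 : ℕ)))) := by
  refine h (fun t n => (∀ v, n v ≤ t v) ∧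
    (∀ M : Set V, M.Nonempty → (∀ v ∈ M, 0 < n v) →
      ∃ I ⊆ M, G.IsIndepSet I ∧
        Pt G (t - M.indicator (fun _ => (1 : ℕ))) (n - I.indicator (fun _ => (1 : ℕ))))) ?_
  intro t n h1 h2
  refine ⟨h1, fun M hM hn => ?_⟩
  obtain ⟨I, hI, hi, h3, h4⟩ := h2 M hM hn
  exact ⟨I, hI, hi, cl_pt G _ _ h3 h4⟩

lemma inv {G : SimpleGraph V} {t n : V → ℕ} (h : Pt G t n) (M : Set V) (hn : ∀ v ∈ M, 0 < n v) :
    ∃ I : Set V, (∀ v ∈ I, v ∈ M) ∧ (∀ u ∈ I, ∀ v ∈ I, ¬ G.Adj u v) ∧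
      ∃ t' n', Pt G t' n' ∧ Dn M t t' ∧ Dn I n n' := by
  rcases M.eq_empty_or_nonempty with rfl | hM
  · exact ⟨∅, by simp, by simp, t, n, h, ⟨by simp, by simp⟩, ⟨by simp, by simp⟩⟩
  · obtain ⟨I, hI, hi, h3⟩ := (inv0 h).2 M hM hn
    exact ⟨I, fun v hv => hI hv, (indep_iff G I).mp hi, _, _, h3, dn_ind _ _, dn_ind _ _⟩

lemma build [Fintype V] (G : SimpleGraph V) (Q : (V → ℕ) → (V → ℕ) → Prop)
    (hle : ∀ t n, Q t n → ∀ v, n v ≤ t v)
    (hst : ∀ t n, Q t n → ∀ M : Set V, M.Nonempty → (∀ v ∈ M, 0 < n v) →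
      ∃ I : Set V, (∀ v ∈ I, v ∈ M) ∧ (∀ u ∈ I, ∀ v ∈ I, ¬ G.Adj u v) ∧
        ∀ t' n', Dn M t t' → Dn I n n' → Q t' n') :
    ∀ t n, Q t n → Pt G t n := by
  have key : ∀ s : ℕ, ∀ t n, ∑ v, t v < s → Q t n → Pt G t n := by
    intro s
    induction s with
    | zero => intro t n h; omega
    | succ s ih =>
      intro t n hs hq
      refine cl_pt G t n (hle t n hq) fun M hM hn => ?_
      obtain ⟨I, hI, hi, h⟩ := hst t n hq M hM hn
      refine ⟨I, fun v hv => hI v hv, (indep_iff G I).mpr hi, ih _ _ ?_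
        (h _ _ (dn_ind _ _) (dn_ind _ _))⟩
      have hd := dn_ind M t
      have : ∑ v, (t - M.indicator (fun _ => (1 : ℕ))) v < ∑ v, t v := by
        obtain ⟨x, hx⟩ := hM
        refine sum_lt_sum (fun v _ => ?_) ⟨x, mem_univ _, ?_⟩
        · by_cases hv : v ∈ M
          · rw [hd.1 v hv]; omega
          · rw [hd.2 v hv]
        · rw [hd.1 x hx]
          have := hn x hx
          have := hle t n hq x
          omega
      omega
  intro t n hq
  exact key _ t n (Nat.lt_succ_self _) hq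

def Rl {ι : Type} (H : SimpleGraph V) (D : Set V) : Option (ι × V) → Option (ι × V) → Prop
  | none, some (_, v) => v ∈ D
  | some (a, u), some (b, v) => a = b ∧ H.Adj u v
  | _, none => False

/-- disjoint copies of `H` and one apex joined to `D` in each copy -/
def Ap (ι : Type) (H : SimpleGraph V) (D : Set V) : SimpleGraph (Option (ι × V)) :=
  SimpleGraph.fromRel (Rl H D)

lemma adj_ns {ι : Type} (H : SimpleGraph V) (D : Set V) (i : ι) (v : V) :
    (Ap ι H D).Adj none (some (i, v)) ↔ v ∈ D := by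
  simp [Ap, SimpleGraph.fromRel_adj, Rl]

lemma adj_ss {ι : Type} (H : SimpleGraph V) (D : Set V) (a b : ι) (u v : V) :
    (Ap ι H D).Adj (some (a, u)) (some (b, v)) ↔ a = b ∧ H.Adj u v := by
  simp only [Ap, SimpleGraph.fromRel_adj, Rl]
  constructor
  · rintro ⟨_, ⟨h1, h2⟩ | ⟨h1, h2⟩⟩
    · exact ⟨h1, h2⟩
    · exact ⟨h1.symm, h2.symm⟩
  · rintro ⟨h1, h2⟩
    refine ⟨?_, Or.inl ⟨h1, h2⟩⟩
    intro h
    simp only [Option.some.injEq, Prod.mk.injEq] at h
    exact h2.ne h.2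

lemma restrict [Fintype V] {ι : Type} (H : SimpleGraph V) (D : Set V) (i : ι)
    (t n : Option (ι × V) → ℕ) (h : Pt (Ap ι H D) t n) (F N : V → ℕ)
    (hF : ∀ v, t (some (i, v)) ≤ F v ∧ N v ≤ n (some (i, v))) : Pt H F N := by
  refine build H (fun F N => ∃ t n, Pt (Ap ι H D) t n ∧
    ∀ v, t (some (i, v)) ≤ F v ∧ N v ≤ n (some (i, v))) ?_ ?_ F N ⟨t, n, h, hF⟩
  · rintro F N ⟨t, n, h, hF⟩ v
    have := (inv0 h).1 (some (i, v))
    have := hF v
    omega
  · rintro F N ⟨t, n, h, hF⟩ M _ hn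
    obtain ⟨I, hI, hi, t', n', h', ht, hn'⟩ := inv h {x | ∃ v ∈ M, x = some (i, v)} (by
      rintro _ ⟨v, hv, rfl⟩
      have := hF v
      have := hn v hv
      omega)
    have hm : ∀ v, some (i, v) ∈ {x | ∃ v ∈ M, x = some (i, v)} ↔ v ∈ M := by
      intro v; simp
    refine ⟨{v | some (i, v) ∈ I}, fun v hv => (hm v).mp (hI _ hv), ?_, ?_⟩
    · intro u hu v hv huv
      exact hi _ hu _ hv ((adj_ss H D i i u v).mpr ⟨rfl, huv⟩)
    · intro F' N' hF' hN'
      refine ⟨t', n', h', fun v => ⟨?_, ?_⟩⟩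
      · have := hF v
        by_cases hv : v ∈ M
        · rw [ht.1 _ ((hm v).mpr hv), hF'.1 v hv]; omega
        · rw [ht.2 _ (fun hc => hv ((hm v).mp hc)), hF'.2 v hv]; omega
      · have := hF v
        by_cases hv : some (i, v) ∈ I
        · rw [hn'.1 _ hv, hN'.1 v hv]; omega
        · rw [hn'.2 _ hv, hN'.2 v hv]; omega

lemma padP [Fintype V] {ι : Type} [Fintype ι] (H : SimpleGraph V) (D : Set V)
    (t n : Option (ι × V) → ℕ) (h1 : n none ≤ 1) (h2 : n none ≤ t none)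
    (h3 : ∀ i, ∃ f, Pt H f (fun v => n (some (i, v))) ∧
      ∀ v, f v ≤ t (some (i, v)) ∧ (v ∈ D → f v + n none ≤ t (some (i, v)))) :
    Pt (Ap ι H D) t n := by
  refine build (Ap ι H D) (fun t n => n none ≤ 1 ∧ n none ≤ t none ∧
    ∀ i, ∃ f, Pt H f (fun v => n (some (i, v))) ∧
      ∀ v, f v ≤ t (some (i, v)) ∧ (v ∈ D → f v + n none ≤ t (some (i, v)))) ?_ ?_ t n ⟨h1, h2, h3⟩
  · rintro t n ⟨_, h2, h3⟩ (_ | ⟨i, v⟩)
    · exact h2
    · obtain ⟨f, hf, h⟩ := h3 i
      have := (inv0 hf).1 v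
      have := (h v).1
      omega
  · rintro t n ⟨h1, h2, h3⟩ M _ hn
    choose f hf h using h3
    have := fun i => inv (hf i) {v | some (i, v) ∈ M ∧ ¬ (none ∈ M ∧ v ∈ D)}
      (fun v hv => hn _ hv.1)
    choose I hI hi f' m' hp hd1 hd2 using this
    refine ⟨{x | match x with | none => none ∈ M | some (i, v) => v ∈ I i}, ?_, ?_, ?_⟩
    · rintro (_ | ⟨i, v⟩) hx
      · exact hx
      · exact (hI i v hx).1
    · rintro (_ | ⟨i, u⟩) hx (_ | ⟨j, v⟩) hy hxy
      · exact hxy.ne rfl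
      · exact (hI j v hy).2 ⟨hx, (adj_ns H D j v).mp hxy⟩
      · exact (hI i u hx).2 ⟨hy, (adj_ns H D i u).mp hxy.symm⟩
      · obtain ⟨rfl, h0⟩ := (adj_ss H D i j u v).mp hxy
        exact hi i u hx v hy h0
    · intro t' n' ht hn'
      have hz : (none ∈ M ∧ n none = 1 ∧ n' none = 0) ∨
          (none ∉ M ∧ n' none = n none ∧ t' none = t none) := by
        by_cases hz : none ∈ M
        · have := hn _ hz
          have := hn'.1 none hz
          exact Or.inl ⟨hz, by omega, by omega⟩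
        · exact Or.inr ⟨hz, hn'.2 none hz, ht.2 none hz⟩
      refine ⟨by omega, by omega, fun i => ⟨f' i, ?_, fun v => ?_⟩⟩
      · have : (fun v => n' (some (i, v))) = m' i := by
          funext v
          by_cases hv : v ∈ I i
          · rw [(hd2 i).1 v hv, hn'.1 (some (i, v)) hv]
          · rw [(hd2 i).2 v hv, hn'.2 (some (i, v)) hv]
        rw [this]; exact hp i
      · have a1 := (h i v).1
        have a2 := (h i v).2
        have a3 := (inv0 (hf i)).1 v
        have a4 := (hd1 i).1 v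
        have a5 := (hd1 i).2 v
        have a6 := ht.1 (some (i, v))
        have a7 := ht.2 (some (i, v))
        have a8 := hn (some (i, v))
        simp only [Set.mem_setOf_eq] at a4 a5
        by_cases b1 : some (i, v) ∈ M <;> by_cases b2 : none ∈ M <;> by_cases b3 : v ∈ D <;>
          simp only [b1, b2, b3, not_true, not_false_iff, and_true, true_and, and_false,
            false_and, forall_const, false_or, or_false, IsEmpty.forall_iff, and_self] at * <;>
          omega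

lemma padL0 {ι : Type} [DecidableEq ι] (H : SimpleGraph V) (D : Set V) (F : V → ℕ) (m : ℕ)
    (hm : 0 < m) :
    ∀ (p q : ℕ) (A : Finset ι) (t n : Option (ι × V) → ℕ), 2 ^ p ≤ A.card → Pt (Ap ι H D) t n →
      t none ≤ p → q ≤ n none →
      (∀ i ∈ A, ∀ v, (v ∉ D → t (some (i, v)) ≤ F v) ∧ t (some (i, v)) ≤ F v + q ∧
        m ≤ n (some (i, v))) →
      ∃ i t' n', Pt (Ap ι H D) t' n' ∧ ∀ v, t' (some (i, v)) ≤ F v ∧ m ≤ n' (some (i, v)) := by
  intro p
  induction p with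
  | zero =>
    intro q A t n hA h ht hq hc
    obtain ⟨i, hi⟩ : A.Nonempty := card_pos.mp (by omega)
    have := (inv0 h).1 none
    refine ⟨i, t, n, h, fun v => ?_⟩
    have := hc i hi v
    omega
  | succ p ih =>
    intro q A t n hA h ht hq hc
    rcases q with _ | q
    · obtain ⟨i, hi⟩ : A.Nonempty := card_pos.mp (lt_of_lt_of_le (by positivity) hA)
      refine ⟨i, t, n, h, fun v => ?_⟩
      have := hc i hi v
      omega
    obtain ⟨B, hB, hBc⟩ := exists_subset_card_eq (s := A) (n := 2 ^ p) (by omega)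
    obtain ⟨I, hI, hi, t', n', h', hd1, hd2⟩ := inv h
      {x | match x with | none => True | some (i, v) => i ∈ B ∧ v ∈ D} (by
        rintro (_ | ⟨i, v⟩) hx
        · omega
        · have := hc i (hB hx.1) v
          omega)
    have hz := hd1.1 none trivial
    by_cases hI0 : none ∈ I
    · have := hd2.1 none hI0
      refine ih q B t' n' (by omega) h' (by omega) (by omega) fun i hi' v => ?_
      have a0 := hc i (hB hi') v
      have a1 : some (i, v) ∉ I := fun hc' =>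
        hi _ hI0 _ hc' ((adj_ns H D i v).mpr (hI _ hc').2)
      have a2 := hd2.2 _ a1
      by_cases hv : v ∈ D
      · have a3 := hd1.1 (some (i, v)) ⟨hi', hv⟩
        exact ⟨fun hc' => absurd hv hc', by omega, by omega⟩
      · have a3 := hd1.2 (some (i, v)) (fun hc' => hv hc'.2)
        have := a0.1 hv
        exact ⟨fun _ => by omega, by omega, by omega⟩
    · have := hd2.2 none hI0
      refine ih (q + 1) (A \ B) t' n' (by rw [card_sdiff_of_subset hB]; omega) h' (by omega)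
        (by omega) fun i hi' v => ?_
      rw [mem_sdiff] at hi'
      have a0 := hc i hi'.1 v
      have a1 : some (i, v) ∉ I := fun hc' => hi'.2 (hI _ hc').1
      have a2 := hd2.2 _ a1
      have a3 := hd1.2 (some (i, v)) (fun hc' => hi'.2 hc'.1)
      rw [a2, a3]
      exact a0

lemma padL [Fintype V] (H : SimpleGraph V) (D : Set V) (F : V → ℕ) (m p : ℕ) (hm : 0 < m)
    (t : Option (Fin (2 ^ p) × V) → ℕ) (h : Pt (Ap (Fin (2 ^ p)) H D) t (fun _ => m))
    (h1 : t none ≤ p)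
    (h2 : ∀ i v, (v ∉ D → t (some (i, v)) ≤ F v) ∧ t (some (i, v)) ≤ F v + m) :
    Pt H F (fun _ => m) := by
  obtain ⟨i, t', n', h', h3⟩ := padL0 H D F m hm p m univ t _ (by simp) h h1 le_rfl
    (fun i _ v => ⟨(h2 i v).1, (h2 i v).2, le_rfl⟩)
  exact restrict H D i t' n' h' F _ h3

end H20.Pa
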