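import Pool.Agent.H20.Pa1
import Pool.Agent.H20.Pa2

set_option autoImplicit false

namespace H20.Pa

open Finset

def rr (u v : Fin 8) : Prop := AB.testBit (8 * u.val + v.val) = true

instance : DecidableRel rr := fun u v => by unfold rr; infer_instance

/-- a triangle 3,4,5, a vertex 7 joined to it by the paths 7-2-3, 7-1-4, 7-0-5,
and a universal vertex 6 -/
def H : SimpleGraph (Fin 8) := SimpleGraph.fromRel rr

lemma adj_iff (u v : Fin 8) : H.Adj u v ↔ rr u v := by
  rw [H, SimpleGraph.fromRel_adj]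
  revert u v
  decide +kernel

lemma mask (M : Set (Fin 8)) : ∃ m < 256, ∀ v : Fin 8, m.testBit v.val = true ↔ v ∈ M := by
  classical
  refine ⟨Nat.ofBits (fun v : Fin 8 => decide (v ∈ M)), Nat.ofBits_lt_two_pow _, fun v => ?_⟩
  rw [Nat.testBit_ofBits_lt _ _ v.2]
  simp

lemma jind : ∀ k < 8, ∀ u v : Fin 8, JB.testBit (8 * k + u.val) = true →
    JB.testBit (8 * k + v.val) = true → ¬ rr u v := by decide +kernel

def f0 : Fin 8 → ℕ := ![2, 2, 2, 4, 4, 4, 4, 4]

lemma root : ∀ v : Fin 8, st (cd 0) v.val = f0 v ∧ 0 < f0 v := by decide +kernel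

theorem paint : Pt H f0 (fun _ => 1) := by
  refine build H (fun t n => ∃ h < NN, ∀ v : Fin 8, n v ≤ 1 ∧
    (0 < n v → 0 < st (cd h) v.val ∧ st (cd h) v.val ≤ t v)) ?_ ?_ _ _ ⟨0, by decide, ?_⟩
  · rintro t n ⟨h, _, hv⟩ v
    have := hv v
    omega
  · rintro t n ⟨h, hh, hv⟩ M hM hn
    obtain ⟨m, hm, hb⟩ := mask M
    have h0 : m ≠ 0 := by
      rintro rfl
      obtain ⟨x, hx⟩ := hM
      simpa using (hb x).mpr hx
    obtain ⟨k, hk, d, hd, hg⟩ := ok_all h hh m hm h0 (fun v hv' hb' =>
      ((hv ⟨v, hv'⟩).2 (hn _ ((hb ⟨v, hv'⟩).mp hb'))).1)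
    refine ⟨{v | v ∈ M ∧ JB.testBit (8 * k + v.val) = true}, fun v hv => hv.1, ?_, ?_⟩
    · intro u hu v hv huv
      exact jind k hk u v hu.2 hv.2 ((adj_iff u v).mp huv)
    · intro t' n' ht hn'
      refine ⟨d, hd, fun v => ?_⟩
      have a0 := hv v
      have a1 := hn'.1 v
      have a2 := hn'.2 v
      have a3 := ht.1 v
      have a4 := ht.2 v
      have a5 := hb v
      simp only [good, List.all_eq_true] at hg
      have a6 := hg v.val (List.mem_range.mpr v.2)
      simp only [Bool.or_eq_true, Bool.and_eq_true, decide_eq_true_eq] at a6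
      simp only [Set.mem_setOf_eq] at a1 a2
      by_cases b1 : v ∈ M
      · have c1 := a5.mpr b1
        have c2 := a3 b1
        rw [c1] at a6
        by_cases b2 : JB.testBit (8 * k + v.val) = true
        · have := a1 ⟨b1, b2⟩
          omega
        · have := a2 (fun hc => b2 hc.2)
          simp only [b2, if_true] at a6
          simp only [Bool.false_eq_true, and_false, or_false] at a6
          omega
      · have c1 : m.testBit v.val = false := by
          rw [← Bool.not_eq_true]; exact fun hc => b1 (a5.mp hc)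
        have c2 := a4 b1
        have := a2 (fun hc => b1 hc.1)
        rw [c1] at a6
        simp only [Bool.false_eq_true, false_and, or_false, if_false] at a6
        omega
  · intro v
    have := root v
    omega

def w : Fin 8 → ℕ := ![1, 1, 1, 1, 1, 1, 2, 1]

def Bd (p : ℕ × ℕ) : Prop := ∀ m < 256,
  (∀ u v : Fin 8, m.testBit u.val = true → m.testBit v.val = true → ¬ rr u v) →
  (∀ v : Fin 8, m.testBit v.val = true → p.1.testBit v.val = true) →
  ∑ v : Fin 8, w v * (if m.testBit v.val = true then 1 else 0) ≤ p.2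

instance : DecidablePred Bd := fun p => by unfold Bd; infer_instance

lemma hall (L : List (ℕ × ℕ)) (hL : ∀ p ∈ L, Bd p) : ∀ t n, Pt H t n →
    (∀ v : Fin 8, 0 < n v → t v ≤ (L.map (fun p => if p.1.testBit v.val = true then 1 else 0)).sum) →
    ∑ v, w v * n v ≤ (L.map (fun p => p.2)).sum := by
  induction L with
  | nil =>
    intro t n h ht
    have : ∀ v, n v = 0 := fun v => by
      have h1 := (inv0 h).1 v
      have h2 := ht v
      simp only [List.map_nil, List.sum_nil] at h2
      omega
    simp [this]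
  | cons p L ih =>
    intro t n h ht
    obtain ⟨I, hI, hi, t', n', h', hd1, hd2⟩ :=
      inv h {v | p.1.testBit v.val = true ∧ 0 < n v} (fun v hv => hv.2)
    obtain ⟨m, hm, hb⟩ := mask I
    have h1 := hL p (by simp) m hm
      (fun u v hu hv huv => hi u ((hb u).mp hu) v ((hb v).mp hv) ((adj_iff u v).mpr huv))
      (fun v hv => (hI v ((hb v).mp hv)).1)
    have hn : ∀ v : Fin 8, n v = n' v + (if m.testBit v.val = true then 1 else 0) := by
      intro v
      by_cases hv : v ∈ I
      · have := (hI v hv).2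
        rw [if_pos ((hb v).mpr hv), hd2.1 v hv]; omega
      · rw [if_neg (fun hc => hv ((hb v).mp hc)), hd2.2 v hv]; omega
    have h2 := ih (fun q hq => hL q (by simp [hq])) t' n' h' (by
      intro v hv
      have a0 := hn v
      have a1 := ht v (by omega)
      simp only [List.map_cons, List.sum_cons] at a1
      by_cases b : p.1.testBit v.val = true
      · rw [hd1.1 v ⟨b, by omega⟩]
        rw [if_pos b] at a1
        omega
      · rw [hd1.2 v (fun hc => b hc.1)]
        rw [if_neg b] at a1
        omega)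
    have h3 : ∑ v, w v * n v = ∑ v, w v * n' v +
        ∑ v : Fin 8, w v * (if m.testBit v.val = true then 1 else 0) := by
      rw [← sum_add_distrib]
      exact sum_congr rfl fun v _ => by rw [hn v, mul_add]
    simp only [List.map_cons, List.sum_cons]
    omega

def LL : List (ℕ × ℕ) :=
  List.replicate 8 (222, 2) ++ List.replicate 8 (237, 2) ++ List.replicate 8 (243, 2) ++
  List.replicate 8 (249, 2) ++ List.replicate 8 (250, 2) ++ List.replicate 8 (252, 2) ++
  List.replicate 8 (56, 1) ++ [(255, 3)]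

def F0 : Fin 8 → ℕ := ![25, 25, 25, 49, 49, 49, 49, 49]

theorem nopaint : ¬ Pt H F0 (fun _ => 12) := by
  intro h
  have hb : ∀ p ∈ [(222, 2), (237, 2), (243, 2), (249, 2), (250, 2), (252, 2), (56, 1), (255, 3)],
      Bd p := by decide +kernel
  have hL : ∀ p ∈ LL, p ∈
      [(222, 2), (237, 2), (243, 2), (249, 2), (250, 2), (252, 2), (56, 1), (255, 3)] := by
    decide +kernel
  have hc : ∀ v : Fin 8,
      F0 v ≤ (LL.map (fun p => if p.1.testBit v.val = true then 1 else 0)).sum := by
    decide +kernel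
  have := hall LL (fun p hp => hb p (hL p hp)) _ _ h (fun v _ => hc v)
  revert this
  decide +kernel

def D0 : Set (Fin 8) := {v | v.val < 3}

def D1 (ι : Type) : Set (Option (ι × Fin 8)) :=
  {x | match x with | none => False | some (_, v) => v ∈ D0}

def G1 (ι : Type) : SimpleGraph (Option (ι × Fin 8)) := Ap ι H D0

def G2 (ι : Type) : SimpleGraph (Option (ι × Option (ι × Fin 8))) := Ap ι (G1 ι) (D1 ι)

def f1 (ι : Type) : Option (ι × Fin 8) → ℕ
  | none => 4
  | some (_, v) => if v.val < 3 then 3 else 4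

def F1 (ι : Type) : Option (ι × Fin 8) → ℕ
  | none => 49
  | some (_, v) => if v.val < 3 then 37 else 49

theorem paint2 (ι : Type) [Fintype ι] : Pt (G2 ι) (fun _ => 4) (fun _ => 1) := by
  have h1 : Pt (G1 ι) (f1 ι) (fun _ => 1) := by
    refine padP H D0 _ _ le_rfl (by simp [f1]) fun i => ⟨f0, paint, fun v => ?_⟩
    simp only [f1, D0, Set.mem_setOf_eq]
    revert v
    decide
  refine padP (G1 ι) (D1 ι) _ _ le_rfl (by simp) fun i => ⟨f1 ι, h1, ?_⟩
  rintro (_ | ⟨j, v⟩)
  · simp [f1, D1]
  · simp only [f1, D1, D0, Set.mem_setOf_eq]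
    split_ifs <;> omega

theorem nopaint2 : ¬ Pt (G2 (Fin (2 ^ 49))) (fun _ => 49) (fun _ => 12) := by
  intro h
  have h1 : Pt (G1 (Fin (2 ^ 49))) (F1 _) (fun _ => 12) := by
    refine padL (G1 _) (D1 _) (F1 _) 12 49 (by norm_num) _ h le_rfl ?_
    rintro i (_ | ⟨j, v⟩)
    · simp [F1]
    · simp only [F1, D1, D0, Set.mem_setOf_eq]
      split_ifs <;> omega
  refine nopaint (padL H D0 F0 12 49 (by norm_num) _ h1 le_rfl ?_)
  intro i v
  simp only [F1, D0, Set.mem_setOf_eq]
  revert v
  decide

end H20.Pa
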