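import Pool.Agent.H20.Cyc1

namespace Pool.Agent.H20.Pk

open Finset Equiv Pool.Agent.H20.Lag

theorem lll2 {α : Type} [Fintype α] [DecidableEq α] (DG DH SS : Finset (α × α)) (a b : ℕ)
    (g1 : ∀ p, (DG.filter (·.1 = p)).card ≤ a) (g2 : ∀ p, (DG.filter (·.2 = p)).card ≤ a)
    (h1 : ∀ p, (DH.filter (·.1 = p)).card ≤ a) (h2 : ∀ p, (DH.filter (·.2 = p)).card ≤ a)
    (s1 : ∀ p, (SS.filter (·.1 = p)).card ≤ a) (s2 : ∀ p, (SS.filter (·.2 = p)).card ≤ a)
    (gb : DG.card ≤ b) (hb : DH.card ≤ b) (irr : ∀ z ∈ DH, z.1 ≠ z.2)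
    (hm : 32 * (a * (b + Fintype.card α)) + 3 ≤ (Fintype.card α - 2) * (Fintype.card α - 3)) :
    ∃ σ : Perm α, (∀ z ∈ DG, (σ z.1, σ z.2) ∉ DH) ∧ ∀ p, (p, σ p) ∉ SS := by
  obtain ⟨M, hM⟩ : ∃ M, M = Fintype.card α := ⟨_, rfl⟩
  have hM3 : 3 < M := by
    by_contra h
    rw [← hM, show M - 3 = 0 by omega] at hm
    omega
  haveI : NeZero M := ⟨by omega⟩
  haveI : Fact (1 < M) := ⟨by omega⟩
  obtain ⟨e⟩ : Nonempty (α ≃ ZMod M) := ⟨Fintype.equivOfCardEq (by rw [ZMod.card, hM])⟩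
  obtain ⟨ν, hν⟩ : ∃ ν : Perm α, ∀ p, ν p ≠ p :=
    ⟨e.trans ((Equiv.addRight 1).trans e.symm), fun p h => by
      have := congrArg e h
      simp at this⟩
  have sb : SS.card ≤ M * a := by
    rw [card_eq_sum_card_fiberwise (f := fun z : α × α => z.1) (t := univ) (by simp), hM]
    exact (sum_le_card_nsmul _ _ _ fun p _ => s1 p).trans (by simp)
  obtain ⟨F, hF⟩ : ∃ F : (α × α) × α → (α × α) × α × α,
      F = fun z => ((z.1.1, ν z.1.1), z.1.2, z.2) := ⟨_, rfl⟩
  obtain ⟨E, hE⟩ : ∃ E : Finset ((α × α) × α × α),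
      E = (DG ×ˢ DH ∪ (SS ×ˢ univ).image F).filter fun s => s.2.1 ≠ s.2.2 := ⟨_, rfl⟩
  have cnt : ∀ (P : (α × α) × α × α → Prop) [DecidablePred P],
      ((DG ×ˢ DH).filter P).card ≤ a * b → ((SS ×ˢ univ).filter fun z => P (F z)).card ≤ a * M →
      (E.filter P).card ≤ a * (b + M) := by
    intro P _ k1 k2
    have : E.filter P ⊆ (DG ×ˢ DH).filter P ∪ ((SS ×ˢ univ).filter fun z => P (F z)).image F := by
      rw [← filter_image, ← filter_union, hE]
      exact filter_subset_filter _ (filter_subset _ _)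
    have h := (card_le_card this).trans ((card_union_le _ _).trans
      (Nat.add_le_add k1 (card_image_le.trans k2)))
    rwa [← mul_add] at h
  have c1 : ∀ p, (E.filter fun s => s.1.1 = p).card ≤ a * (b + M) := fun p => cnt _
    (by rw [filter_product_left (fun z : α × α => z.1 = p), card_product]
        exact Nat.mul_le_mul (g1 p) hb)
    (by simp only [hF]
        rw [filter_product_left (fun z : α × α => z.1 = p), card_product, card_univ, ← hM]
        exact Nat.mul_le_mul_right _ (s1 p))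
  have c2 : ∀ p, (E.filter fun s => s.1.2 = p).card ≤ a * (b + M) := fun p => cnt _
    (by rw [filter_product_left (fun z : α × α => z.2 = p), card_product]
        exact Nat.mul_le_mul (g2 p) hb)
    (by simp only [hF, ← ν.eq_symm_apply]
        rw [filter_product_left (fun z : α × α => z.1 = ν.symm p), card_product, card_univ, ← hM]
        exact Nat.mul_le_mul_right _ (s1 _))
  have c3 : ∀ p, (E.filter fun s => s.2.1 = p).card ≤ a * (b + M) := fun p => cnt _
    (by rw [filter_product_right (fun z : α × α => z.1 = p), card_product, mul_comm]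
        exact Nat.mul_le_mul (h1 p) gb)
    (by simp only [hF]
        rw [filter_product_left (fun z : α × α => z.2 = p), card_product, card_univ, ← hM]
        exact Nat.mul_le_mul_right _ (s2 p))
  have c4 : ∀ p, (E.filter fun s => s.2.2 = p).card ≤ a * (b + M) := fun p => cnt _
    (by rw [filter_product_right (fun z : α × α => z.2 = p), card_product, mul_comm]
        exact Nat.mul_le_mul (h2 p) gb)
    (by simp only [hF]
        rw [filter_product_right (fun z : α => z = p), card_product, filter_eq', if_pos (mem_univ _),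
          card_singleton, mul_one, mul_comm]
        exact sb)
  obtain ⟨σ, hσ⟩ := perm_lll E (fun s => s.1.1) (fun s => s.1.2) (fun s => s.2.1) (fun s => s.2.2)
    (fun e s => s.1.1 = e.1.1 ∨ s.1.1 = e.1.2 ∨ s.1.2 = e.1.1 ∨ s.1.2 = e.1.2 ∨
      s.2.1 = e.2.1 ∨ s.2.1 = e.2.2 ∨ s.2.2 = e.2.1 ∨ s.2.2 = e.2.2) (8 * (a * (b + M)))
    (fun e he => by rw [hE] at he; exact (mem_filter.1 he).2)
    (fun e _ s _ h => by
      simp only [not_or] at h
      exact ⟨⟨h.1, h.2.1, h.2.2.1, h.2.2.2.1⟩, h.2.2.2.2⟩)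
    (fun e _ => by
      simp only [filter_or]
      have u := fun A B : Finset ((α × α) × α × α) => card_union_le A B
      have := c1 e.1.1
      have := c1 e.1.2
      have := c2 e.1.1
      have := c2 e.1.2
      have := c3 e.2.1
      have := c3 e.2.2
      have := c4 e.2.1
      have := c4 e.2.2
      refine (u _ _).trans ((Nat.add_le_add_left ((u _ _).trans (Nat.add_le_add_left
        ((u _ _).trans (Nat.add_le_add_left ((u _ _).trans (Nat.add_le_add_left ((u _ _).trans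
        (Nat.add_le_add_left ((u _ _).trans (Nat.add_le_add_left (u _ _) _)) _)) _)) _)) _)) _).trans
        ?_)
      omega)
    (by rw [hM]; omega)
  refine ⟨σ, fun z hz h => hσ (z, σ z.1, σ z.2) ?_ ⟨rfl, rfl⟩,
    fun p h => hσ ((p, ν p), σ p, σ (ν p)) ?_ ⟨rfl, rfl⟩⟩
  · rw [hE]
    exact mem_filter.2 ⟨mem_union_left _ (mem_product.2 ⟨hz, h⟩), irr _ h⟩
  · rw [hE]
    exact mem_filter.2 ⟨mem_union_right _ (mem_image.2 ⟨((p, σ p), σ (ν p)),
      mem_product.2 ⟨h, mem_univ _⟩, by rw [hF]⟩), fun h => hν p (σ.injective h).symm⟩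

variable {V : Type} [Fintype V] [DecidableEq V]

open Classical in
noncomputable def nb (G : SimpleGraph V) (v : V) : Finset V := univ.filter (G.Adj v)

omit [DecidableEq V] in
theorem mem_nb {G : SimpleGraph V} {v u : V} : u ∈ nb G v ↔ G.Adj v u := by simp [nb]

theorem sub_card {p : V → Prop} (A : Finset (Subtype p × Subtype p)) (B : Finset V)
    (f : V → V) (hf : Function.Injective f) (x : Subtype p)
    (h : ∀ z ∈ A, z.1 = x → f z.2 ∈ B) : (A.filter (·.1 = x)).card ≤ B.card :=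
  card_le_card_of_injOn (fun z => f z.2)
    (fun z hz => h z (mem_filter.1 (mem_coe.1 hz)).1 (mem_filter.1 (mem_coe.1 hz)).2)
    fun z hz z' hz' e => Prod.ext ((mem_filter.1 (mem_coe.1 hz)).2.trans
      (mem_filter.1 (mem_coe.1 hz')).2.symm) (Subtype.ext (hf e))

theorem sub_card' {p : V → Prop} (A : Finset (Subtype p × Subtype p)) (B : Finset V)
    (f : V → V) (hf : Function.Injective f) (x : Subtype p)
    (h : ∀ z ∈ A, z.2 = x → f z.1 ∈ B) : (A.filter (·.2 = x)).card ≤ B.card :=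
  card_le_card_of_injOn (fun z => f z.1)
    (fun z hz => h z (mem_filter.1 (mem_coe.1 hz)).1 (mem_filter.1 (mem_coe.1 hz)).2)
    fun z hz z' hz' e => Prod.ext (Subtype.ext (hf e)) ((mem_filter.1 (mem_coe.1 hz)).2.trans
      (mem_filter.1 (mem_coe.1 hz')).2.symm)

omit [DecidableEq V] in
theorem nb_comap (G : SimpleGraph V) (φ : Perm V) (v : V) :
    (nb (G.comap φ) v).card = (nb G (φ v)).card :=
  card_equiv φ fun u => by simp [mem_nb]

theorem two {G H : SimpleGraph V} {O Os : Finset V} {a b : ℕ}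
    (h2 : ∀ o ∈ O, o ∉ Os → ∀ u ∉ O, ∀ v ∉ O, ¬ (G.Adj o u ∧ H.Adj o v))
    (g3 : ∑ o ∈ Os, (nb G o).card ≤ a) (h3 : ∑ o ∈ Os, (nb H o).card ≤ a)
    (g4 : ∀ v ∉ O, (nb G v).card ≤ a) (h4 : ∀ v ∉ O, (nb H v).card ≤ a)
    (g5 : ∑ v, (nb G v).card ≤ b) (h5 : ∑ v, (nb H v).card ≤ b)
    (h6 : 32 * (a * (b + Fintype.card V)) + 3 ≤
      (Fintype.card V - O.card - 2) * (Fintype.card V - O.card - 3)) :
    ∃ σ : Perm V, (∀ o ∈ O, σ o = o) ∧ ∀ u v, ¬ (u ∈ O ∧ v ∈ O) →
      ¬ (G.Adj u v ∧ H.Adj (σ u) (σ v)) := by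
  classical
  have hc : Fintype.card {v // v ∉ O} = Fintype.card V - O.card := by
    rw [Fintype.card_subtype_compl, Fintype.card_coe]
  have tot : ∀ K : SimpleGraph V, (univ.filter fun z : {v // v ∉ O} × {v // v ∉ O} =>
      K.Adj z.1 z.2).card ≤ ∑ v, (nb K v).card := fun K => by
    rw [← card_sigma]
    exact card_le_card_of_injOn (fun z => ⟨z.1, z.2⟩) (fun z hz => by
      simpa [mem_nb] using hz) fun z _ z' _ h => by
      simp only [Sigma.mk.injEq, heq_eq_eq] at h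
      exact Prod.ext (Subtype.ext h.1) (Subtype.ext h.2)
  obtain ⟨τ, t1, t2⟩ := lll2 (α := {v // v ∉ O}) (univ.filter fun z => G.Adj z.1 z.2)
    (univ.filter fun z => H.Adj z.1 z.2)
    (univ.filter fun z => ∃ o ∈ O, G.Adj o z.1 ∧ H.Adj o z.2) a b
    (fun p => (sub_card _ (nb G p) id Function.injective_id p fun z hz e =>
      mem_nb.2 (e ▸ (mem_filter.1 hz).2)).trans (g4 p p.2))
    (fun p => (sub_card' _ (nb G p) id Function.injective_id p fun z hz e =>
      mem_nb.2 (e ▸ (mem_filter.1 hz).2.symm)).trans (g4 p p.2))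
    (fun p => (sub_card _ (nb H p) id Function.injective_id p fun z hz e =>
      mem_nb.2 (e ▸ (mem_filter.1 hz).2)).trans (h4 p p.2))
    (fun p => (sub_card' _ (nb H p) id Function.injective_id p fun z hz e =>
      mem_nb.2 (e ▸ (mem_filter.1 hz).2.symm)).trans (h4 p p.2))
    (fun p => (sub_card _ (Os.biUnion (nb H)) id Function.injective_id p fun z hz _ => by
      obtain ⟨o, ho, k⟩ := (mem_filter.1 hz).2
      exact mem_biUnion.2 ⟨o, by_contra fun h => h2 o ho h _ z.1.2 _ z.2.2 k, mem_nb.2 k.2⟩).trans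
      (card_biUnion_le.trans h3))
    (fun p => (sub_card' _ (Os.biUnion (nb G)) id Function.injective_id p fun z hz _ => by
      obtain ⟨o, ho, k⟩ := (mem_filter.1 hz).2
      exact mem_biUnion.2 ⟨o, by_contra fun h => h2 o ho h _ z.1.2 _ z.2.2 k, mem_nb.2 k.1⟩).trans
      (card_biUnion_le.trans g3))
    ((tot G).trans g5) ((tot H).trans h5)
    (fun z hz e => (mem_filter.1 hz).2.ne (congrArg Subtype.val e))
    (by rw [hc]
        exact le_trans (Nat.add_le_add_right (Nat.mul_le_mul_left _ (Nat.mul_le_mul_left _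
          (Nat.add_le_add_left (Nat.sub_le _ _) _))) _) h6)
  have fix : ∀ o ∈ O, Perm.ofSubtype τ o = o := fun o ho =>
    Perm.ofSubtype_apply_of_not_mem τ (not_not.2 ho)
  have key : ∀ u ∈ O, ∀ v ∉ O, ¬ (G.Adj u v ∧ H.Adj (Perm.ofSubtype τ u) (Perm.ofSubtype τ v)) := by
    intro u hu v hv h
    rw [fix u hu, Perm.ofSubtype_apply_of_mem τ hv] at h
    exact t2 ⟨v, hv⟩ (mem_filter.2 ⟨mem_univ _, u, hu, h⟩)
  refine ⟨Perm.ofSubtype τ, fix, fun u v huv h => ?_⟩
  by_cases hu : u ∈ O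
  · exact key u hu v (fun hv => huv ⟨hu, hv⟩) h
  by_cases hv : v ∈ O
  · exact key v hv u hu ⟨h.1.symm, h.2.symm⟩
  rw [Perm.ofSubtype_apply_of_mem τ hu, Perm.ofSubtype_apply_of_mem τ hv] at h
  exact t1 (⟨u, hu⟩, ⟨v, hv⟩) (mem_filter.2 ⟨mem_univ _, h.1⟩) (mem_filter.2 ⟨mem_univ _, h.2⟩)

theorem final {k : ℕ} (G : Fin k → SimpleGraph V) {O Os : Finset V} {a b : ℕ} (hO : Os ⊆ O)
    (h1 : ∀ i j, i ≠ j → ∀ u ∈ O, ∀ v ∈ O, ¬ ((G i).Adj u v ∧ (G j).Adj u v))
    (h2 : ∀ i j, i ≠ j → ∀ o ∈ O, o ∉ Os → ∀ u ∉ O, ∀ v ∉ O, ¬ ((G i).Adj o u ∧ (G j).Adj o v))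
    (h3 : ∀ i, ∑ o ∈ Os, (nb (G i) o).card ≤ a) (h4 : ∀ i, ∀ v ∉ O, (nb (G i) v).card ≤ a)
    (h5 : ∀ i, ∑ v, (nb (G i) v).card ≤ b)
    (h6 : 32 * (k * a * (k * b + Fintype.card V)) + 3 ≤
      (Fintype.card V - O.card - 2) * (Fintype.card V - O.card - 3)) :
    ∃ σ : Fin k → Perm V, ∀ i j, i ≠ j → ∀ u v,
      ¬ ((G i).Adj (σ i u) (σ i v) ∧ (G j).Adj (σ j u) (σ j v)) := by
  classical
  have main : ∀ S : Finset (Fin k), ∃ σ : Fin k → Perm V, (∀ i, ∀ o ∈ O, σ i o = o) ∧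
      ∀ i ∈ S, ∀ j ∈ S, i ≠ j → ∀ u v,
        ¬ ((G i).Adj (σ i u) (σ i v) ∧ (G j).Adj (σ j u) (σ j v)) := by
    intro S
    induction S using Finset.induction_on with
    | empty => exact ⟨fun _ => 1, fun _ _ _ => rfl, fun i hi => absurd hi (notMem_empty i)⟩
    | insert m S hm ih =>
      obtain ⟨σ, s1, s2⟩ := ih
      have out : ∀ i, ∀ v ∉ O, σ i v ∉ O := fun i v hv h =>
        hv ((σ i).injective (s1 i _ h) ▸ h)
      obtain ⟨K, hK⟩ : ∃ K : SimpleGraph V, ∀ u v, K.Adj u v ↔ ∃ j ∈ S, (G j).Adj (σ j u) (σ j v) :=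
        ⟨⨆ j ∈ S, (G j).comap (σ j), by simp⟩
      have dK : ∀ v, (nb K v).card ≤ ∑ j ∈ S, (nb (G j) (σ j v)).card := fun v => by
        simp only [← nb_comap]
        refine le_trans (card_le_card fun u hu => ?_) card_biUnion_le
        obtain ⟨j, hj, h⟩ := (hK _ _).1 (mem_nb.1 hu)
        exact mem_biUnion.2 ⟨j, hj, mem_nb.2 h⟩
      have hS : S.card ≤ k := (card_le_univ S).trans (by simp)
      have hk : 0 < k := m.pos
      have bd : ∀ (f : Fin k → ℕ) (c : ℕ), (∀ j, f j ≤ c) → ∑ j ∈ S, f j ≤ k * c := fun f c h =>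
        (sum_le_card_nsmul _ _ _ fun j _ => h j).trans (Nat.mul_le_mul_right _ hS)
      obtain ⟨τ, t1, t2⟩ := two (G := K) (H := G m) (O := O) (Os := Os) (a := k * a) (b := k * b)
        (fun o ho hs u hu v hv h => by
          obtain ⟨j, hj, h'⟩ := (hK _ _).1 h.1
          rw [s1 j o ho] at h'
          exact h2 j m (fun e => hm (e ▸ hj)) o ho hs _ (out j u hu) v hv ⟨h', h.2⟩)
        ((sum_le_sum fun o _ => dK o).trans (by
          rw [sum_comm]
          exact bd _ _ fun j => le_trans (le_of_eq (sum_congr rfl fun o ho => by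
            rw [s1 j o (hO ho)])) (h3 j)))
        ((h3 m).trans (Nat.le_mul_of_pos_left _ hk))
        (fun v hv => (dK v).trans (bd _ _ fun j => h4 j _ (out j v hv)))
        (fun v hv => (h4 m v hv).trans (Nat.le_mul_of_pos_left _ hk))
        ((sum_le_sum fun o _ => dK o).trans (by
          rw [sum_comm]
          exact bd _ _ fun j => le_trans (le_of_eq (Equiv.sum_comp (σ j) fun v => (nb (G j) v).card))
            (h5 j)))
        ((h5 m).trans (Nat.le_mul_of_pos_left _ hk)) h6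
      have key : ∀ j ∈ S, ∀ u v, ¬ ((G j).Adj (σ j u) (σ j v) ∧ (G m).Adj (τ u) (τ v)) := by
        intro j hj u v h
        by_cases huv : u ∈ O ∧ v ∈ O
        · rw [s1 j u huv.1, s1 j v huv.2, t1 u huv.1, t1 v huv.2] at h
          exact h1 j m (fun e => hm (e ▸ hj)) u huv.1 v huv.2 h
        · exact t2 u v huv ⟨(hK _ _).2 ⟨j, hj, h.1⟩, h.2⟩
      have up : ∀ j ∈ S, Function.update σ m τ j = σ j := fun j hj =>
        Function.update_of_ne (fun e : j = m => hm (e ▸ hj)) _ _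
      refine ⟨Function.update σ m τ, fun i o ho => ?_, fun i hi j hj hij u v => ?_⟩
      · by_cases h : i = m
        · rw [h, Function.update_self]; exact t1 o ho
        · rw [Function.update_of_ne h]; exact s1 i o ho
      · rcases mem_insert.1 hi with rfl | hi' <;> rcases mem_insert.1 hj with rfl | hj'
        · exact absurd rfl hij
        · rw [Function.update_self, up j hj']; exact fun h => key j hj' u v h.symm
        · rw [Function.update_self, up i hi']; exact key i hi' u v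
        · rw [up i hi', up j hj']; exact s2 i hi' j hj' hij u v
  obtain ⟨σ, -, h⟩ := main univ
  exact ⟨σ, fun i j => h i (mem_univ i) j (mem_univ j)⟩

end Pool.Agent.H20.Pk
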