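import Pool.Agent.H20.Pk1

namespace Pool.Agent.H20.Pk

open Finset

variable {V : Type} [Fintype V] [DecidableEq V]

omit [Fintype V] in
theorem maxfam (A : Finset V) (c : V → V → Prop) (hc : ∀ u v, c u v → c v u) :
    ∃ I ⊆ A, (∀ u ∈ I, ∀ v ∈ I, u ≠ v → ¬ c u v) ∧ ∀ v ∈ A, v ∈ I ∨ ∃ u ∈ I, c u v := by
  classical
  obtain ⟨S, hS⟩ : ∃ S : Finset (Finset V), ∀ I, I ∈ S ↔
      I ⊆ A ∧ ∀ u ∈ I, ∀ v ∈ I, u ≠ v → ¬ c u v :=
    ⟨A.powerset.filter fun I => ∀ u ∈ I, ∀ v ∈ I, u ≠ v → ¬ c u v, by simp⟩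
  obtain ⟨I, hI, hmax⟩ := exists_max_image S card ⟨∅, (hS _).2 (by simp)⟩
  obtain ⟨h1, h2⟩ := (hS I).1 hI
  refine ⟨I, h1, h2, fun v hv => by_contra fun h => ?_⟩
  push Not at h
  have := hmax (insert v I) ((hS _).2 ⟨insert_subset hv h1,
    fun a ha b hb hab => by
      rcases mem_insert.1 ha with rfl | ha' <;> rcases mem_insert.1 hb with rfl | hb'
      · exact absurd rfl hab
      · exact fun k => h.2 b hb' (hc _ _ k)
      · exact h.2 a ha'
      · exact h2 a ha' b hb' hab⟩)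
  rw [card_insert_of_notMem h.1] at this
  omega

noncomputable def cn (G : SimpleGraph V) (v : V) : Finset V := insert v (nb G v)

theorem mem_cn {G : SimpleGraph V} {v x : V} : x ∈ cn G v ↔ x = v ∨ G.Adj v x := by
  simp [cn, mem_nb]

theorem cn_symm {G : SimpleGraph V} {v x : V} (h : x ∈ cn G v) : v ∈ cn G x :=
  mem_cn.2 ((mem_cn.1 h).imp Eq.symm G.adj_symm)

theorem cn_card (G : SimpleGraph V) (v : V) : (cn G v).card ≤ (nb G v).card + 1 :=
  card_insert_le _ _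

theorem scarce (G : SimpleGraph V) {k : ℕ}
    (hG : ∑ v, (nb G v).card + 2 * k ≤ 2 * Fintype.card V) (m : V) :
    ∃ Z : Finset V, Z.card = k - 1 ∧ (∀ z ∈ Z, (nb G z).card ≤ 1 ∧ z ≠ m ∧ ¬ G.Adj m z) ∧
      ∀ z ∈ Z, ∀ z' ∈ Z, z ≠ z' → ∀ x ∈ cn G z, x ∉ cn G z' := by
  classical
  obtain ⟨F, hF, h1, h2⟩ := maxfam (univ.filter fun z => (nb G z).card ≤ 1 ∧ z ≠ m ∧ ¬ G.Adj m z)
    (fun u v => ∃ x ∈ cn G u, x ∈ cn G v) fun u v ⟨x, a, b⟩ => ⟨x, b, a⟩
  have hF' := fun z (hz : z ∈ F) => (mem_filter.1 (hF hz)).2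
  suffices h : k - 1 ≤ F.card by
    obtain ⟨Z, hZ, hc⟩ := exists_subset_card_eq h
    exact ⟨Z, hc, fun z hz => hF' z (hZ hz), fun z hz z' hz' ne x a b =>
      h1 z (hZ hz) z' (hZ hz') ne ⟨x, a, b⟩⟩
  obtain ⟨F', hF1⟩ : ∃ F', F' = insert m F := ⟨_, rfl⟩
  obtain ⟨A1, hA1⟩ : ∃ A1 : Finset V, ∀ v, v ∈ A1 ↔ v ∉ F' ∧ ∃ f ∈ F', G.Adj f v :=
    ⟨univ.filter fun v => v ∉ F' ∧ ∃ f ∈ F', G.Adj f v, by simp⟩
  obtain ⟨A2, hA2⟩ : ∃ A2 : Finset V, ∀ v, v ∈ A2 ↔ v ∉ F' ∧ v ∉ A1 ∧ (nb G v).card ≤ 1 :=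
    ⟨univ.filter fun v => v ∉ F' ∧ v ∉ A1 ∧ (nb G v).card ≤ 1, by simp⟩
  have par : ∀ v ∈ A2, ∃ x ∈ A1, G.Adj x v := by
    intro v hv
    obtain ⟨v1, v2, v3⟩ := (hA2 v).1 hv
    have nadj : ∀ f ∈ F', ¬ G.Adj f v := fun f hf h => v2 ((hA1 v).2 ⟨v1, f, hf, h⟩)
    have sub : ∀ f ∈ F, f ∈ F' := fun f hf => hF1 ▸ mem_insert_of_mem hf
    have hm : m ∈ F' := hF1 ▸ mem_insert_self _ _
    rcases h2 v (mem_filter.2 ⟨mem_univ _, v3, fun e => v1 (e ▸ hm), nadj m hm⟩) with h | ⟨f, hf, x, a, b⟩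
    · exact absurd (sub v h) v1
    rcases mem_cn.1 b with rfl | b
    · rcases mem_cn.1 a with rfl | a
      · exact absurd (sub _ hf) v1
      · exact absurd a (nadj f (sub f hf))
    rcases mem_cn.1 a with rfl | a
    · exact absurd b.symm (nadj _ (sub _ hf))
    exact ⟨x, (hA1 x).2 ⟨fun h => nadj x h b.symm, f, sub f hf, a⟩, b.symm⟩
  have s1 : A1.card ≤ ∑ v ∈ F', (nb G v).card :=
    le_trans (card_le_card fun v hv => by
      obtain ⟨-, f, hf, h⟩ := (hA1 v).1 hv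
      exact mem_biUnion.2 ⟨f, hf, mem_nb.2 h⟩) card_biUnion_le
  have s2 : A2.card ≤ ∑ v ∈ A1, (nb G v ∩ A2).card :=
    le_trans (card_le_card fun v hv => by
      obtain ⟨x, hx, h⟩ := par v hv
      exact mem_biUnion.2 ⟨x, hx, mem_inter.2 ⟨mem_nb.2 h, hv⟩⟩) card_biUnion_le
  have s3 : ∑ v ∈ A1, ((nb G v ∩ A2).card + 1) ≤ ∑ v ∈ A1, (nb G v).card :=
    sum_le_sum fun v hv => by
      obtain ⟨-, f, hf, h⟩ := (hA1 v).1 hv
      exact card_lt_card ⟨inter_subset_left, fun k =>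
        ((hA2 f).1 (mem_inter.1 (k (mem_nb.2 h.symm))).2).1 hf⟩
  have s4 : ∑ _v ∈ A2, 1 ≤ ∑ v ∈ A2, (nb G v).card := sum_le_sum fun v hv => by
    obtain ⟨x, -, h⟩ := par v hv
    exact card_pos.2 ⟨x, mem_nb.2 h.symm⟩
  have s5 : ∑ _v ∈ (F' ∪ A1 ∪ A2)ᶜ, 2 ≤ ∑ v ∈ (F' ∪ A1 ∪ A2)ᶜ, (nb G v).card :=
    sum_le_sum fun v hv => by
      simp only [mem_compl, mem_union, not_or, hA2 v, not_and, not_le] at hv
      exact hv.2 hv.1.1 hv.1.2
  have d1 : Disjoint F' A1 := disjoint_right.2 fun v hv => ((hA1 v).1 hv).1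
  have d2 : Disjoint (F' ∪ A1) A2 := disjoint_right.2 fun v hv h =>
    (mem_union.1 h).elim ((hA2 v).1 hv).1 ((hA2 v).1 hv).2.1
  have e1 := sum_add_sum_compl (F' ∪ A1 ∪ A2) fun v => (nb G v).card
  have e2 := card_add_card_compl (F' ∪ A1 ∪ A2)
  rw [sum_union d2, sum_union d1] at e1
  rw [card_union_of_disjoint d2, card_union_of_disjoint d1] at e2
  have e3 : F'.card ≤ F.card + 1 := hF1 ▸ card_insert_le _ _
  simp only [sum_add_distrib, sum_const, smul_eq_mul, mul_one] at s3 s4 s5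
  omega

def Fam (G : SimpleGraph V) (k E L C : ℕ) (m : V) (tB : Prop) (B Z I : Finset V) : Prop :=
  (∀ v, Fintype.card V ≤ E * (nb G v).card → v ∈ B) ∧ m ∈ B ∧ B.card ≤ 2 * E + 1 ∧
  Z.card = k - 1 ∧ C ≤ I.card ∧ Disjoint Z I ∧
  (∀ f ∈ Z ∪ I, f ∉ B ∧ (nb G f).card ≤ 2) ∧
  (∀ f ∈ Z ∪ I, ∀ f' ∈ Z ∪ I, f ≠ f' → ∀ x ∈ cn G f, x ∈ cn G f' → x ∈ B) ∧
  (∀ z ∈ Z, (nb G z).card ≤ 1 ∧ ¬ G.Adj m z) ∧
  (∀ g ∈ I, ∀ x, G.Adj g x → x = m ∨ (x ∉ B ∧ E * L * (nb G x).card ≤ Fintype.card V)) ∧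
  (tB → ∀ g ∈ I, ∀ x, G.Adj g x → x ∈ B) ∧ (¬ tB → ∀ g ∈ I, ∀ x, G.Adj g x → x ∉ B)

theorem fam (G : SimpleGraph V) {n k E L C : ℕ} (hn : Fintype.card V = n) (hE : 0 < E) (hL : 0 < L)
    (hG : ∑ v, (nb G v).card + 2 * k ≤ 2 * n)
    (hband : 100 * ∑ v ∈ univ.filter (fun v => ¬ n ≤ E * (nb G v).card ∧
      ¬ E * L * (nb G v).card ≤ n), (nb G v).card ≤ n)
    (h1 : 10 * (n / 100 + 3 + k * (2 * (n / E + 1)) + C * (3 * (n / (E * L) + 3))) < n)
    (h2 : 20 * (E * C) + 60 * E < n) : ∃ m tB B Z I, Fam G k E L C m tB B Z I := by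
  classical
  unfold Fam
  rw [hn]
  obtain ⟨B, hB⟩ : ∃ B : Finset V, ∀ v, v ∈ B ↔ n ≤ E * (nb G v).card :=
    ⟨univ.filter fun v => n ≤ E * (nb G v).card, by simp⟩
  have Bc : B.card ≤ 2 * E := by
    have a1 := card_nsmul_le_sum B (fun v => E * (nb G v).card) n fun v hv => (hB v).1 hv
    have a2 : ∑ v ∈ B, (nb G v).card ≤ ∑ v, (nb G v).card := sum_le_sum_of_subset (subset_univ _)
    rw [← mul_sum, smul_eq_mul] at a1
    have a3 := Nat.mul_le_mul_left E (show ∑ v ∈ B, (nb G v).card ≤ 2 * n by omega)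
    exact Nat.le_of_mul_le_mul_right (c := n) (by nlinarith) (by omega)
  have low : ∀ v, (nb G v).card ≤ 2 → v ∉ B := fun v hv h => by
    have := (hB v).1 h
    have := Nat.mul_le_mul_left E hv
    omega
  obtain ⟨A0, hA0⟩ : ∃ A0 : Finset V, ∀ v, v ∈ A0 ↔ (nb G v).card ≤ 2 ∧ ∀ x, G.Adj v x → x ∉ B :=
    ⟨univ.filter fun v => (nb G v).card ≤ 2 ∧ ∀ x, G.Adj v x → x ∉ B, by simp⟩
  by_cases hA : n ≤ 10 * A0.card
  · obtain ⟨m, hm⟩ : A0.Nonempty := card_pos.1 (by omega)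
    obtain ⟨Z, z1, z2, z3⟩ := scarce G (k := k) (hn ▸ hG) m
    obtain ⟨X, hX⟩ : ∃ X, X = (univ.filter (fun v => ¬ n ≤ E * (nb G v).card ∧
      ¬ E * L * (nb G v).card ≤ n)).biUnion (nb G) ∪ cn G m ∪
      Z.biUnion fun z => (cn G z \ B).biUnion (cn G) := ⟨_, rfl⟩
    have Xc : X.card ≤ n / 100 + 3 + k * (2 * (n / E + 1)) := by
      rw [hX]
      refine (card_union_le _ _).trans (Nat.add_le_add ((card_union_le _ _).trans (Nat.add_le_add
        (card_biUnion_le.trans (by omega)) ((cn_card G m).trans ?_))) ?_)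
      · have := ((hA0 m).1 hm).1
        omega
      refine (card_biUnion_le_card_mul _ _ _ fun z hz => ?_).trans
        (Nat.mul_le_mul_right _ (by omega))
      refine (card_biUnion_le_card_mul _ _ (n / E + 1) fun x hx => (cn_card G x).trans ?_).trans
        (Nat.mul_le_mul_right _ ((card_le_card sdiff_subset).trans ((cn_card G z).trans ?_)))
      · have := mt (hB x).2 (mem_sdiff.1 hx).2
        exact Nat.add_le_add_right ((Nat.le_div_iff_mul_le hE).2 (by rw [mul_comm]; omega)) 1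
      · have := (z2 z hz).1
        omega
    obtain ⟨I, hI, i1, i2⟩ := maxfam (A0 \ X) (fun u v => ∃ x ∈ cn G u, x ∈ cn G v)
      fun u v ⟨x, a, b⟩ => ⟨x, b, a⟩
    have IA : ∀ g ∈ I, g ∈ A0 := fun g hg => (mem_sdiff.1 (hI hg)).1
    have IX : ∀ g ∈ I, g ∉ X := fun g hg => (mem_sdiff.1 (hI hg)).2
    have Im : ∀ g ∈ I, g ∉ cn G m := fun g hg h =>
      IX g hg (hX ▸ mem_union_left _ (mem_union_right _ h))
    have Is : ∀ g ∈ I, ∀ x, G.Adj g x → x ∉ insert m B ∧ E * L * (nb G x).card ≤ n := by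
      intro g hg x hx
      have a1 := ((hA0 g).1 (IA g hg)).2 x hx
      refine ⟨fun h => (mem_insert.1 h).elim (fun e => Im g hg (mem_cn.2 (Or.inr (e ▸ hx.symm)))) a1,
        by_contra fun h => IX g hg (hX ▸ mem_union_left _ (mem_union_left _ (mem_biUnion.2
          ⟨x, mem_filter.2 ⟨mem_univ _, mt (hB x).2 a1, h⟩, mem_nb.2 hx.symm⟩)))⟩
    have Iz : ∀ z ∈ Z, ∀ g ∈ I, ∀ x ∈ cn G z, x ∈ cn G g → x ∈ B := fun z hz g hg x a b =>
      by_contra fun h => IX g hg (hX ▸ mem_union_right _ (mem_biUnion.2 ⟨z, hz,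
        mem_biUnion.2 ⟨x, mem_sdiff.2 ⟨a, h⟩, cn_symm b⟩⟩))
    have Ic : C ≤ I.card := by
      have a1 : A0 \ X ⊆ I.biUnion fun u => (cn G u).biUnion (cn G) := fun v hv => by
        rcases i2 v hv with h | ⟨u, hu, x, a, b⟩
        · exact mem_biUnion.2 ⟨v, h, mem_biUnion.2 ⟨v, mem_cn.2 (Or.inl rfl), mem_cn.2 (Or.inl rfl)⟩⟩
        · exact mem_biUnion.2 ⟨u, hu, mem_biUnion.2 ⟨x, a, cn_symm b⟩⟩
      have a2 := (card_le_card a1).trans (card_biUnion_le_card_mul _ _ (3 * (n / (E * L) + 3))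
        fun u hu => by
          have b1 := ((hA0 u).1 (IA u hu)).1
          refine (card_biUnion_le_card_mul _ _ (n / (E * L) + 3) fun x hx =>
            (cn_card G x).trans ?_).trans (Nat.mul_le_mul_right _ ((cn_card G u).trans (by omega)))
          rcases mem_cn.1 hx with rfl | h
          · exact le_trans (by omega : _ ≤ 3) (Nat.le_add_left _ _)
          · have : (nb G x).card ≤ n / (E * L) := (Nat.le_div_iff_mul_le (Nat.mul_pos hE hL)).2
              (by rw [mul_comm]; exact (Is u hu x h).2)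
            omega)
      have a3 := le_card_sdiff X A0
      by_contra h
      have := Nat.mul_le_mul_right (3 * (n / (E * L) + 3)) (not_le.1 h).le
      omega
    have zB : ∀ z ∈ Z, z ∉ insert m B := fun z hz h =>
      (mem_insert.1 h).elim (z2 z hz).2.1 (low z (by have := (z2 z hz).1; omega))
    refine ⟨m, False, insert m B, Z, I, fun v hv => mem_insert_of_mem ((hB v).2 hv),
      mem_insert_self _ _, (card_insert_le _ _).trans (by omega), z1, Ic,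
      disjoint_left.2 fun z hz hg => zB z hz (mem_insert_of_mem
        (Iz z hz z hg z (mem_cn.2 (Or.inl rfl)) (mem_cn.2 (Or.inl rfl)))),
      fun f hf => ?_, fun f hf f' hf' ne x a b => ?_, fun z hz => ⟨(z2 z hz).1, (z2 z hz).2.2⟩,
      fun g hg x hx => Or.inr (Is g hg x hx), False.elim, fun _ g hg x hx => (Is g hg x hx).1⟩
    · rcases mem_union.1 hf with h | h
      · exact ⟨zB f h, by have := (z2 f h).1; omega⟩
      · exact ⟨fun k => (mem_insert.1 k).elim (fun e => Im f h (mem_cn.2 (Or.inl e)))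
          (low f ((hA0 f).1 (IA f h)).1), ((hA0 f).1 (IA f h)).1⟩
    · rcases mem_union.1 hf with h | h <;> rcases mem_union.1 hf' with h' | h'
      · exact absurd b (z3 f h f' h' ne x a)
      · exact mem_insert_of_mem (Iz f h f' h' x a b)
      · exact mem_insert_of_mem (Iz f' h' f h x b a)
      · exact absurd ⟨x, a, b⟩ (i1 f h f' h' ne)
  obtain ⟨Lf, hLf⟩ : ∃ Lf : Finset V, ∀ v, v ∈ Lf ↔ (nb G v).card ≤ 1 ∧ ∃ x ∈ B, G.Adj x v :=
    ⟨univ.filter fun v => (nb G v).card ≤ 1 ∧ ∃ x ∈ B, G.Adj x v, by simp⟩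
  have c1 : ∑ v ∈ Bᶜ, (B.filter fun x => G.Adj x v).card ≤ ∑ x ∈ B, (nb G x).card := by
    simp only [card_filter]
    rw [sum_comm]
    refine sum_le_sum fun x _ => ?_
    rw [← card_filter]
    exact card_le_card fun v hv => mem_nb.2 (mem_filter.1 hv).2
  have c2 : ∑ _v ∈ Bᶜ, 3 ≤ ∑ v ∈ Bᶜ, ((nb G v).card + (B.filter fun x => G.Adj x v).card +
      3 * (if v ∈ A0 then 1 else 0) + if v ∈ Lf then 1 else 0) := sum_le_sum fun v _ => by
    by_cases a : v ∈ A0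
    · rw [if_pos a]; omega
    by_cases b : (nb G v).card ≤ 2
    · obtain ⟨x, x1, x2⟩ : ∃ x, G.Adj v x ∧ x ∈ B := by
        by_contra h
        push Not at h
        exact a ((hA0 v).2 ⟨b, h⟩)
      have p1 : 0 < (nb G v).card := card_pos.2 ⟨x, mem_nb.2 x1⟩
      have p2 : 0 < (B.filter fun x => G.Adj x v).card :=
        card_pos.2 ⟨x, mem_filter.2 ⟨x2, x1.symm⟩⟩
      by_cases c : (nb G v).card ≤ 1
      · rw [if_pos ((hLf v).2 ⟨c, x, x2, x1.symm⟩)]; omega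
      · omega
    · omega
  have c3 : ∀ S : Finset V, ∑ v ∈ Bᶜ, (if v ∈ S then 1 else 0) ≤ S.card := fun S => by
    rw [← card_filter]
    exact card_le_card fun v hv => (mem_filter.1 hv).2
  have c4 := sum_add_sum_compl B fun v => (nb G v).card
  have c5 := card_add_card_compl B
  have c6 := c3 A0
  have c7 := c3 Lf
  simp only [sum_add_distrib, ← mul_sum, sum_const, smul_eq_mul] at c2
  obtain ⟨m, hm, hC⟩ : ∃ m ∈ B, C ≤ (Lf.filter (G.Adj m)).card := by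
    by_contra h
    push Not at h
    have a1 : Lf ⊆ B.biUnion fun m => Lf.filter (G.Adj m) := fun v hv => by
      obtain ⟨-, x, x1, x2⟩ := (hLf v).1 hv
      exact mem_biUnion.2 ⟨x, x1, mem_filter.2 ⟨hv, x2⟩⟩
    have a2 := (card_le_card a1).trans ((card_biUnion_le_card_mul _ _ C fun x hx =>
      (h x hx).le).trans (Nat.mul_le_mul_right _ Bc))
    rw [mul_assoc] at a2
    omega
  obtain ⟨Z, z1, z2, z3⟩ := scarce G (k := k) (hn ▸ hG) m
  have Id : ∀ g ∈ Lf.filter (G.Adj m), (nb G g).card ≤ 1 := fun g hg =>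
    ((hLf g).1 (mem_filter.1 hg).1).1
  have Im : ∀ g ∈ Lf.filter (G.Adj m), ∀ x, G.Adj g x → x = m := fun g hg x hx =>
    card_le_one.1 (Id g hg) x (mem_nb.2 hx) m (mem_nb.2 (mem_filter.1 hg).2.symm)
  have Iz : ∀ z ∈ Z, ∀ g ∈ Lf.filter (G.Adj m), ∀ x ∈ cn G z, x ∈ cn G g → x ∈ B := by
    intro z hz g hg x a b
    rcases mem_cn.1 b with rfl | b
    · rcases mem_cn.1 a with rfl | a
      · exact absurd (mem_filter.1 hg).2 (z2 _ hz).2.2
      · exact absurd (Im _ hg z a.symm) (z2 z hz).2.1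
    · exact Im g hg x b ▸ hm
  refine ⟨m, True, B, Z, Lf.filter (G.Adj m), fun v hv => (hB v).2 hv, hm, by omega, z1, hC,
    disjoint_left.2 fun z hz hg => (z2 z hz).2.2 (mem_filter.1 hg).2,
    fun f hf => ?_, fun f hf f' hf' ne x a b => ?_, fun z hz => ⟨(z2 z hz).1, (z2 z hz).2.2⟩,
    fun g hg x hx => Or.inl (Im g hg x hx), fun _ g hg x hx => Im g hg x hx ▸ hm,
    fun h => absurd trivial h⟩
  · have : (nb G f).card ≤ 2 := by
      rcases mem_union.1 hf with h | h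
      · have := (z2 f h).1; omega
      · have := Id f h; omega
    exact ⟨low f this, this⟩
  · rcases mem_union.1 hf with h | h <;> rcases mem_union.1 hf' with h' | h'
    · exact absurd b (z3 f h f' h' ne x a)
    · exact Iz f h f' h' x a b
    · exact Iz f' h' f h x b a
    · rcases mem_cn.1 a with rfl | a
      · rcases mem_cn.1 b with e | b
        · exact absurd e ne
        · exact Im f' h' _ b ▸ hm
      · exact Im f h x a ▸ hm

end Pool.Agent.H20.Pk
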