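import Pool.Agent.H20.Pk2

namespace Pool.Agent.H20.Pk

open Finset Equiv

theorem inj_on {α β : Type} [DecidableEq α] (s : Finset α) (t : Finset β) (d : β)
    (h : s.card ≤ t.card) : ∃ f : α → β, (∀ a ∈ s, f a ∈ t) ∧ ∀ a ∈ s, ∀ b ∈ s, f a = f b → a = b := by
  obtain ⟨f⟩ := Function.Embedding.nonempty_of_card_le (α := s) (β := t)
    (by rwa [Fintype.card_coe, Fintype.card_coe])
  refine ⟨fun a => if h : a ∈ s then f ⟨a, h⟩ else d, fun a ha => ?_, fun a ha b hb e => ?_⟩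
  · simp only [dif_pos ha]; exact (f ⟨a, ha⟩).2
  · simp only [dif_pos ha, dif_pos hb] at e
    exact congrArg Subtype.val (f.injective (Subtype.ext e))

variable {V : Type} [Fintype V] [DecidableEq V]

theorem assemble {k E L c1 c2 : ℕ} (hE : 0 < E) (hL : 0 < L) (e1 : c1 = k * (2 * E + 1))
    (e2 : c2 = k * (2 * (k + c1))) (G : Fin k → SimpleGraph V) (i0 : Fin k)
    (hG : ∀ i, ∑ v, (nb (G i) v).card ≤ 2 * Fintype.card V)
    (hF : ∀ i, ∃ m tB B Z I, Fam (G i) k E L (c1 + c2) m tB B Z I)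
    (hn : ∀ o ≤ c1 + c2, 32 * (k * (c2 * (Fintype.card V / (E * L) + 2) +
      (k + 1) * (Fintype.card V / E)) * (k * (2 * Fintype.card V) + Fintype.card V)) + 3 ≤
      (Fintype.card V - o - 2) * (Fintype.card V - o - 3)) :
    ∃ σ : Fin k → Perm V, ∀ i j, i ≠ j → ∀ u v,
      ¬ ((G i).Adj (σ i u) (σ i v) ∧ (G j).Adj (σ j u) (σ j v)) := by
  classical
  choose m tB B Z I hF using hF
  unfold Fam at hF
  have f1 := fun i => (hF i).1
  have f2 := fun i => (hF i).2.1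
  have f3 := fun i => (hF i).2.2.1
  have f4 := fun i => (hF i).2.2.2.1
  have f5 := fun i => (hF i).2.2.2.2.1
  have f6 := fun i => (hF i).2.2.2.2.2.1
  have f7 := fun i => (hF i).2.2.2.2.2.2.1
  have f8 := fun i => (hF i).2.2.2.2.2.2.2.1
  have f9 := fun i => (hF i).2.2.2.2.2.2.2.2.1
  have f10 := fun i => (hF i).2.2.2.2.2.2.2.2.2.1
  have f11 := fun i => (hF i).2.2.2.2.2.2.2.2.2.2.1
  have f12 := fun i => (hF i).2.2.2.2.2.2.2.2.2.2.2
  clear hF
  obtain ⟨r, r1, r2, r3⟩ : ∃ r : Fin k → Fin k → Prop, (∀ i j, i ≠ j → r i j ∨ r j i) ∧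
      (∀ i j, r i j → ¬ r j i) ∧ ∀ i j, r i j → tB i ∨ ¬ tB j :=
    ⟨fun i j => (tB i ∧ ¬ tB j) ∨ ((tB i ↔ tB j) ∧ i < j), fun i j h => by
      rcases lt_or_gt_of_ne h with h | h <;> tauto, fun i j h h' => by
      have := @lt_asymm _ _ i j
      tauto, fun i j h => by tauto⟩
  choose z z1 z2 using fun i => inj_on (univ.erase i) (Z i) (m i)
    (by rw [card_erase_of_mem (mem_univ i), card_fin, f4])
  have zZ : ∀ i j, j ≠ i → z i j ∈ Z i := fun i j h => z1 i j (mem_erase.2 ⟨h, mem_univ j⟩)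
  choose I1 i1 i2 using fun i => exists_subset_card_eq ((Nat.le_add_right c1 c2).trans (f5 i))
  obtain ⟨X, hX⟩ : ∃ X : Fin k → Finset V,
      ∀ i, X i = (Z i ∪ I1 i).biUnion (nb (G i)) \ B i := ⟨_, fun _ => rfl⟩
  have sub : ∀ i, Z i ∪ I1 i ⊆ Z i ∪ I i := fun i => union_subset_union_right (i1 i)
  have mX : ∀ i x, x ∈ X i ↔ (∃ f ∈ Z i ∪ I1 i, (G i).Adj f x) ∧ x ∉ B i := fun i x => by
    simp only [hX, mem_sdiff, mem_biUnion, mem_nb]
  have tot : ∀ (S : Fin k → Finset V) (c : ℕ), (∀ i, (S i).card ≤ c) →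
      (univ.filter fun o : Fin k × V => o.2 ∈ S o.1).card ≤ k * c := fun S c h => by
    have : (univ.filter fun o : Fin k × V => o.2 ∈ S o.1) ⊆
        univ.biUnion fun i => (S i).image (Prod.mk i) := fun o ho =>
      mem_biUnion.2 ⟨o.1, mem_univ _, mem_image.2 ⟨o.2, (mem_filter.1 ho).2, rfl⟩⟩
    exact (card_le_card this).trans ((card_biUnion_le_card_mul _ _ c fun i _ =>
      card_image_le.trans (h i)).trans (by simp))
  obtain ⟨P, hP, Pc⟩ : ∃ P : Finset (Fin k × V), (∀ o, o ∈ P ↔ o.2 ∈ B o.1) ∧ P.card ≤ c1 :=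
    ⟨univ.filter fun o => o.2 ∈ B o.1, by simp, e1 ▸ tot B _ f3⟩
  obtain ⟨Q, hQ, Qc⟩ : ∃ Q : Finset (Fin k × V), (∀ o, o ∈ Q ↔ o.2 ∈ X o.1) ∧ Q.card ≤ c2 :=
    ⟨univ.filter fun o => o.2 ∈ X o.1, by simp, e2 ▸ tot X _ fun i => by
      rw [hX]
      refine (card_le_card sdiff_subset).trans ((card_biUnion_le_card_mul _ _ 2 fun f hf =>
        (f7 i f (sub i hf)).2).trans ?_)
      have := card_union_le (Z i) (I1 i)
      rw [f4, i2] at this
      omega⟩
  choose g1 a1 a2 using fun i => inj_on P (I1 i) (m i) (Pc.trans (i2 i).ge)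
  choose g2 b1 b2 using fun i => inj_on Q (I i \ I1 i) (m i) (Qc.trans (by
    have := le_card_sdiff (I1 i) (I i)
    have := f5 i
    rw [i2] at *
    omega))
  obtain ⟨sp, hsp⟩ : ∃ sp : Fin k → Fin k × V → Prop, ∀ i o, sp i o ↔
      (r o.1 i ∧ o.2 = m o.1) ∨ (r i o.1 ∧ (G o.1).Adj (z o.1 i) o.2) := ⟨_, fun _ _ => Iff.rfl⟩
  obtain ⟨F, F0, F1, F2, F3⟩ : ∃ F : Fin k → Fin k × V → V, (∀ i v, F i (i, v) = v) ∧
      (∀ i o, o.1 ≠ i → sp i o → F i o = z i o.1) ∧
      (∀ i o, o.1 ≠ i → ¬ sp i o → o ∈ P → F i o = g1 i o) ∧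
      ∀ i o, o.1 ≠ i → ¬ sp i o → o ∉ P → F i o = g2 i o :=
    ⟨fun i o => if o.1 = i then o.2 else if sp i o then z i o.1 else if o ∈ P then g1 i o else g2 i o,
      fun i v => by simp, fun i o h1 h2 => by simp [h1, h2], fun i o h1 h2 h3 => by simp [h1, h2, h3],
      fun i o h1 h2 h3 => by simp [h1, h2, h3]⟩
  have inQ : ∀ o ∈ P ∪ Q, o ∉ P → o ∈ Q := fun o h h' => (mem_union.1 h).resolve_left h'
  have gI : ∀ i, ∀ o ∈ P ∪ Q, o.1 ≠ i → ¬ sp i o → F i o ∈ I i := fun i o ho h1 h2 => by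
    by_cases h3 : o ∈ P
    · rw [F2 i o h1 h2 h3]; exact i1 i (a1 i o h3)
    · rw [F3 i o h1 h2 h3]; exact (mem_sdiff.1 (b1 i o (inQ o ho h3))).1
  have fI : ∀ i, ∀ o ∈ P ∪ Q, o.1 ≠ i → F i o ∈ Z i ∪ I i := fun i o ho h1 => by
    by_cases h2 : sp i o
    · rw [F1 i o h1 h2]; exact mem_union_left _ (zZ i _ h1)
    · exact mem_union_right _ (gI i o ho h1 h2)
  have self : ∀ i v, v ∈ cn (G i) v := fun i v => mem_cn.2 (Or.inl rfl)
  have nadj : ∀ i, ∀ f ∈ Z i ∪ I i, ∀ f' ∈ Z i ∪ I i, ¬ (G i).Adj f f' := fun i f hf f' hf' h =>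
    (f7 i f' hf').1 (f8 i f hf f' hf' h.ne f' (mem_cn.2 (Or.inr h)) (self i f'))
  have own : ∀ i v, (i, v) ∈ P ∪ Q → v ∉ Z i ∪ I i := fun i v h hv => by
    rcases mem_union.1 h with h | h
    · exact (f7 i v hv).1 ((hP _).1 h)
    · obtain ⟨⟨f, hf, h⟩, -⟩ := (mX _ _).1 ((hQ _).1 h)
      exact nadj i f (sub i hf) v hv h
  have inj : ∀ i, ∀ o ∈ P ∪ Q, ∀ o' ∈ P ∪ Q, F i o = F i o' → o = o' := by
    rintro i ⟨j, v⟩ ho ⟨j', v'⟩ ho' e
    by_cases h : j = i <;> by_cases h' : j' = i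
    · subst h h'; rw [F0, F0] at e; rw [e]
    · subst h; rw [F0] at e; exact absurd (e ▸ fI _ _ ho' h') (own _ _ ho)
    · subst h'; rw [F0] at e; exact absurd (e ▸ fI _ _ ho h) (own _ _ ho')
    by_cases s : sp i (j, v) <;> by_cases s' : sp i (j', v')
    · rw [F1 i _ h s, F1 i _ h' s'] at e
      obtain rfl : j = j' := z2 i j (mem_erase.2 ⟨h, mem_univ _⟩) j' (mem_erase.2 ⟨h', mem_univ _⟩) e
      rcases (hsp _ _).1 s with s | s <;> rcases (hsp _ _).1 s' with s' | s'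
      · exact Prod.ext rfl (s.2.trans s'.2.symm)
      · exact absurd s'.1 (r2 _ _ s.1)
      · exact absurd s.1 (r2 _ _ s'.1)
      · exact Prod.ext rfl (card_le_one.1 (f9 j _ (zZ j i (Ne.symm h))).1 v (mem_nb.2 s.2) v'
          (mem_nb.2 s'.2))
    · exact absurd (e ▸ gI i _ ho' h' s') (disjoint_left.1 (f6 i) (F1 i _ h s ▸ zZ i j h))
    · exact absurd (gI i _ ho h s) (disjoint_left.1 (f6 i)
        (by rw [e, F1 i _ h' s']; exact zZ i j' h'))
    by_cases p : (j, v) ∈ P <;> by_cases p' : (j', v') ∈ P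
    · exact a2 i _ p _ p' (F2 i _ h s p ▸ F2 i _ h' s' p' ▸ e)
    · rw [F2 i _ h s p, F3 i _ h' s' p'] at e
      exact absurd (e ▸ a1 i _ p) (mem_sdiff.1 (b1 i _ (inQ _ ho' p'))).2
    · rw [F3 i _ h s p, F2 i _ h' s' p'] at e
      exact absurd (e ▸ a1 i _ p') (mem_sdiff.1 (b1 i _ (inQ _ ho p))).2
    · exact b2 i _ (inQ _ ho p) _ (inQ _ ho' p') (F3 i _ h s p ▸ F3 i _ h' s' p' ▸ e)
  have core : ∀ i l a b, i ≠ l → r i l → (i, a) ∈ P ∪ Q → (l, b) ∈ P ∪ Q →
      (G i).Adj a (F i (l, b)) → ¬ (G l).Adj (F l (i, a)) b := by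
    intro i l a b ne hr ha hb h1 h2
    by_cases s : sp l (i, a)
    · rcases (hsp _ _).1 s with s' | s'
      · rw [F1 l _ ne s] at h2
        rw [F1 i _ ne.symm ((hsp _ _).2 (Or.inr ⟨hr, h2⟩)), show a = m i from s'.2] at h1
        exact (f9 i _ (zZ i l ne.symm)).2 h1
      · exact r2 _ _ hr s'.1
    have am : a ≠ m i := fun e => s ((hsp _ _).2 (Or.inl ⟨hr, e⟩))
    have g := gI l _ ha ne s
    by_cases s' : sp i (l, b)
    · rcases (hsp _ _).1 s' with s' | s'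
      · exact r2 _ _ hr s'.1
      · have hB := f8 l _ (mem_union_left _ (zZ l i ne)) _ (mem_union_right _ g)
          (fun e => disjoint_left.1 (f6 l) (zZ l i ne) (e ▸ g)) b (mem_cn.2 (Or.inr s'.2))
          (mem_cn.2 (Or.inr h2))
        rcases f10 l _ g b h2 with e | e
        · exact (f9 l _ (zZ l i ne)).2 (e ▸ s'.2.symm)
        · exact e.1 hB
    have g' := gI i _ hb ne.symm s'
    have aB : a ∉ B i := ((f10 i _ g' a h1.symm).resolve_left am).1
    have bB : b ∉ B l := f12 l ((r3 _ _ hr).resolve_left fun t => aB (f11 i t _ g' a h1.symm)) _ g b h2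
    obtain ⟨⟨f, hf, h⟩, -⟩ := (mX _ _).1 ((hQ _).1 (inQ _ hb (mt (hP _).1 bB)))
    have np : (i, a) ∉ P := mt (hP _).1 aB
    refine bB (f8 l f (sub l hf) _ (mem_union_right _ g) (fun e => ?_) b (mem_cn.2 (Or.inr h))
      (mem_cn.2 (Or.inr h2)))
    rcases mem_union.1 hf with hf | hf
    · exact disjoint_left.1 (f6 l) hf (e ▸ g)
    · rw [F3 l _ ne s np] at e
      exact (mem_sdiff.1 (b1 l _ (inQ _ ha np))).2 (e ▸ hf)
  have conf : ∀ i l, i ≠ l → r i l → ∀ o ∈ P ∪ Q, ∀ o' ∈ P ∪ Q,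
      ¬ ((G i).Adj (F i o) (F i o') ∧ (G l).Adj (F l o) (F l o')) := by
    rintro i l ne hr ⟨j, v⟩ ho ⟨j', v'⟩ ho' ⟨h1, h2⟩
    by_cases h : j = i
    · subst h
      obtain rfl : j' = l := by_contra fun h' => nadj l _ (fI l _ ho ne) _ (fI l _ ho' h') h2
      rw [F0] at h1 h2
      exact core _ _ _ _ ne hr ho ho' h1 h2
    · obtain rfl : j' = i := by_contra fun h' => nadj i _ (fI i _ ho h) _ (fI i _ ho' h') h1
      obtain rfl : j = l := by_contra fun h' => nadj l _ (fI l _ ho h') _ (fI l _ ho' ne) h2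
      rw [F0] at h1 h2
      exact core _ _ _ _ ne hr ho' ho h1.symm h2.symm
  have injs : ∀ i, Function.Injective fun o : (P ∪ Q : Finset _) => F i o :=
    fun i o o' e => Subtype.ext (inj i _ o.2 _ o'.2 e)
  choose φ hφ using fun i => Perm.exists_extending_pair _ _ (injs i0) (injs i)
  have hφ' : ∀ i, ∀ o ∈ P ∪ Q, φ i (F i0 o) = F i o := fun i o ho => hφ i ⟨o, ho⟩
  have back : ∀ i u, u ∉ (P ∪ Q).image (F i0) → (i, φ i u) ∉ P ∪ Q := fun i u hu h =>
    hu (mem_image.2 ⟨_, h, (φ i).injective (by rw [hφ' i _ h, F0])⟩)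
  have nbig : ∀ i v, v ∉ B i → (nb (G i) v).card ≤ Fintype.card V / E := fun i v h =>
    (Nat.le_div_iff_mul_le hE).2 (by have := mt (f1 i v) h; rw [mul_comm]; omega)
  obtain ⟨σ, hσ⟩ := final (fun i => (G i).comap (φ i)) (O := (P ∪ Q).image (F i0))
    (Os := Q.image (F i0)) (a := c2 * (Fintype.card V / (E * L) + 2) +
      (k + 1) * (Fintype.card V / E)) (b := 2 * Fintype.card V)
    (image_subset_image subset_union_right)
    (fun i j ne u hu v hv => by
      obtain ⟨o, ho, rfl⟩ := mem_image.1 hu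
      obtain ⟨o', ho', rfl⟩ := mem_image.1 hv
      simp only [SimpleGraph.comap_adj, hφ' _ _ ho, hφ' _ _ ho']
      rcases r1 i j ne with h | h
      · exact conf i j ne h o ho o' ho'
      · exact fun k => conf j i ne.symm h o ho o' ho' k.symm)
    (fun i j ne w hw hs u hu v hv => by
      obtain ⟨o, ho, rfl⟩ := mem_image.1 hw
      have hp : o ∈ P := (mem_union.1 ho).resolve_right fun h => hs (mem_image_of_mem _ h)
      have key : ∀ i, o.1 ≠ i → ∀ u ∉ (P ∪ Q).image (F i0), ¬ (G i).Adj (F i o) (φ i u) := by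
        intro i ne u hu h
        refine back i u hu ?_
        by_cases hb : φ i u ∈ B i
        · exact mem_union_left _ ((hP _).2 hb)
        refine mem_union_right _ ((hQ _).2 ((mX _ _).2 ⟨⟨_, ?_, h⟩, hb⟩))
        by_cases s : sp i o
        · rw [F1 i o ne s]; exact mem_union_left _ (zZ i _ ne)
        · rw [F2 i o ne s hp]; exact mem_union_right _ (a1 i o hp)
      simp only [SimpleGraph.comap_adj, hφ' _ _ ho]
      by_cases h : o.1 = i
      · exact fun k => key j (h ▸ ne) v hv k.2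
      · exact fun k => key i h u hu k.1)
    (fun i => by
      have hq : ∀ o ∈ Q, o ∈ P ∪ Q := fun o ho => mem_union_right _ ho
      rw [sum_image fun o ho o' ho' => inj i0 o (hq o ho) o' (hq o' ho')]
      obtain ⟨Y, hY⟩ : ∃ Y, Y = ((Z i).biUnion (nb (G i))).image (Prod.mk i) := ⟨_, rfl⟩
      have t1 : ∀ o ∈ Q, (nb ((G i).comap (φ i)) (F i0 o)).card ≤ Fintype.card V / (E * L) + 2 +
          if o ∈ Y then Fintype.card V / E else 0 := by
        rintro ⟨j, v⟩ ho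
        rw [nb_comap, hφ' i _ (hq _ ho)]
        by_cases h : j = i
        · subst h
          rw [F0]
          obtain ⟨⟨f, hf, h⟩, hb⟩ := (mX _ _).1 ((hQ _).1 ho)
          rcases mem_union.1 hf with hf | hf
          · rw [if_pos (hY ▸ mem_image_of_mem _ (mem_biUnion.2 ⟨f, hf, mem_nb.2 h⟩))]
            exact (nbig j v hb).trans (Nat.le_add_left _ _)
          · have := ((f10 j f (i1 j hf) v h).resolve_left fun e => hb (e ▸ f2 j)).2
            exact le_add_right (le_add_right ((Nat.le_div_iff_mul_le (Nat.mul_pos hE hL)).2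
              (by rwa [mul_comm])))
        · exact le_add_right (le_add_left (f7 i _ (fI i _ (hq _ ho) h)).2)
      refine (sum_le_sum t1).trans ?_
      rw [sum_add_distrib, sum_const, smul_eq_mul, ← sum_filter, sum_const, smul_eq_mul]
      refine Nat.add_le_add (Nat.mul_le_mul_right _ Qc) (Nat.mul_le_mul_right _ ?_)
      refine (card_le_card fun o ho => (mem_filter.1 ho).2).trans (hY ▸ card_image_le.trans
        ((card_biUnion_le_card_mul _ _ 1 fun f hf => (f9 i f hf).1).trans ?_))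
      rw [f4]
      omega)
    (fun i v hv => by
      rw [nb_comap]
      exact le_add_left ((nbig i _ fun h => back i v hv (mem_union_left _ ((hP _).2 h))).trans
        (Nat.le_mul_of_pos_left _ (Nat.succ_pos k))))
    (fun i => by
      simp only [nb_comap]
      exact (Equiv.sum_comp (φ i) fun v => (nb (G i) v).card).le.trans (hG i))
    (hn _ (card_image_le.trans ((card_union_le _ _).trans (Nat.add_le_add Pc Qc))))
  exact ⟨fun i => (σ i).trans (φ i), hσ⟩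

end Pool.Agent.H20.Pk
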