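import Pool.Agent.H20.Pk3

namespace Pool.Agent.H20.Pk

open Finset Equiv

theorem nums {k D E n W u s c1 c2 : ℕ} (hD : D = k + 1) (hW : W = 100000 * D ^ 4) (hE : W ≤ E)
    (hu : E * u ≤ n) (hs : E * W * s ≤ n) (e1 : c1 = k * (2 * E + 1))
    (e2 : c2 = k * (2 * (k + c1))) (hn : W * E ^ 2 ≤ n) :
    10 * (n / 100 + 3 + k * (2 * (u + 1)) + (c1 + c2) * (3 * (s + 3))) < n ∧
    20 * (E * (c1 + c2)) + 60 * E < n ∧ ∀ o ≤ c1 + c2,
      32 * (k * (c2 * (s + 2) + (k + 1) * u) * (k * (2 * n) + n)) + 3 ≤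
        (n - o - 2) * (n - o - 3) := by
  have D1 : 1 ≤ D := by omega
  have kD : k ≤ D := by omega
  obtain ⟨A, hA⟩ : ∃ A, A = D ^ 4 := ⟨_, rfl⟩
  rw [← hA] at hW
  have A1 : D ≤ A := hA ▸ Nat.le_self_pow (by norm_num) D
  have A2 : D * D ≤ A := by rw [hA, ← sq]; exact Nat.pow_le_pow_right D1 (by norm_num)
  have A3 : D * D * D ≤ A := by
    rw [hA, ← sq, ← pow_succ]; exact Nat.pow_le_pow_right D1 (by norm_num)
  have A4 : D * D * (D * D) = A := by rw [hA]; ring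
  have E1 : 100000 ≤ E := by omega
  have p1 : 100000 * (A * u) ≤ n := by
    rw [← mul_assoc, ← hW]; exact (Nat.mul_le_mul_right u hE).trans hu
  have p2 : 100000 * (A * (E * s)) ≤ n := by
    rw [← mul_assoc, ← hW, ← mul_assoc, mul_comm W]; exact hs
  have p3 : 100000 * (A * (E * E)) ≤ n := by rw [← mul_assoc, ← hW, ← sq]; exact hn
  have p4 : 100000 * (A * E) ≤ A * (E * E) := by
    rw [mul_left_comm]; exact Nat.mul_le_mul_left _ (Nat.mul_le_mul_right _ E1)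
  have p5 : 100000 * A ≤ A * E := by rw [mul_comm]; exact Nat.mul_le_mul_left _ E1
  have p6 : E ≤ A * E := Nat.le_mul_of_pos_left _ (by omega)
  have q1 : c1 ≤ 3 * (D * E) := by
    calc c1 ≤ D * (3 * E) := e1 ▸ Nat.mul_le_mul kD (by omega)
      _ = _ := by ring
  have q0 : D ≤ D * E := Nat.le_mul_of_pos_right _ (by omega)
  have q2 : c2 ≤ 8 * (D * D * E) := by
    calc c2 ≤ D * (8 * (D * E)) := e2 ▸ Nat.mul_le_mul kD (by omega)
      _ = _ := by ring
  have q3 : D * E ≤ A * E := Nat.mul_le_mul_right _ A1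
  have q4 : D * D * E ≤ A * E := Nat.mul_le_mul_right _ A2
  have q5 : c1 + c2 ≤ 11 * (A * E) := by omega
  refine ⟨?_, ?_, fun o ho => ?_⟩
  · have r1 : k * (2 * (u + 1)) ≤ 2 * (A * u) + 2 * A := by
      calc _ ≤ A * (2 * (u + 1)) := Nat.mul_le_mul_right _ (by omega)
        _ = _ := by ring
    have r2 : (c1 + c2) * (3 * (s + 3)) ≤ 33 * (A * (E * s)) + 99 * (A * E) := by
      calc _ ≤ 11 * (A * E) * (3 * (s + 3)) := Nat.mul_le_mul_right _ q5
        _ = _ := by ring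
    omega
  · have r1 : E * (c1 + c2) ≤ 11 * (A * (E * E)) := by
      calc _ ≤ E * (11 * (A * E)) := Nat.mul_le_mul_left _ q5
        _ = _ := by ring
    omega
  · have r1 : 32 * (k * (c2 * (s + 2) + (k + 1) * u) * (k * (2 * n) + n)) ≤
        64 * (8 * (A * (E * s)) + 16 * (A * E) + A * u) * n := by
      calc _ = 32 * (k * (c2 * (s + 2) + D * u) * ((2 * k + 1) * n)) := by rw [hD]; ring
        _ ≤ 32 * (D * (8 * (D * D * E) * (s + 2) + D * u) * ((2 * D) * n)) := by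
          gcongr; omega
        _ = 64 * (8 * (D * D * (D * D) * (E * s)) + 16 * (D * D * (D * D) * E) + D * D * D * u) *
            n := by ring
        _ ≤ _ := by rw [A4]; gcongr
    have r2 : 16 * (64 * (8 * (A * (E * s)) + 16 * (A * E) + A * u)) ≤ n := by omega
    have r3 := Nat.mul_le_mul_right n r2
    obtain ⟨M, hM⟩ : ∃ M, M = n - o - 3 := ⟨_, rfl⟩
    rw [show n - o - 2 = M + 1 by omega, ← hM]
    have r4 : n ≤ 2 * M := by omega
    have r5 := Nat.mul_le_mul r4 r4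
    have r6 : 3 ≤ M := by omega
    nlinarith

theorem pack (k : ℕ) : ∃ N : ℕ, ∀ (V : Type) [Fintype V] [DecidableEq V], N ≤ Fintype.card V →
    ∀ G : Fin k → SimpleGraph V, (∀ i, ∑ v, (nb (G i) v).card + 2 * k ≤ 2 * Fintype.card V) →
    ∃ σ : Fin k → Perm V, ∀ i j, i ≠ j → ∀ u v,
      ¬ ((G i).Adj (σ i u) (σ i v) ∧ (G j).Adj (σ j u) (σ j v)) := by
  rcases Nat.eq_zero_or_pos k with rfl | hk
  · exact ⟨0, fun V _ _ _ G _ => ⟨fun _ => 1, fun i => i.elim0⟩⟩
  obtain ⟨W, hW⟩ : ∃ W, W = 100000 * (k + 1) ^ 4 := ⟨_, rfl⟩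
  have W1 : 0 < W := by rw [hW]; positivity
  refine ⟨W * (W ^ (200 * k)) ^ 2, fun V _ _ hn G hG => ?_⟩
  obtain ⟨n, hc⟩ : ∃ n, Fintype.card V = n := ⟨_, rfl⟩
  obtain ⟨bd, hbd⟩ : ∃ bd : ℕ → Fin k → ℕ, ∀ t i, bd t i = ∑ v ∈ univ.filter (fun v =>
      ¬ n ≤ W ^ (t + 1) * (nb (G i) v).card ∧ ¬ W ^ (t + 1) * W * (nb (G i) v).card ≤ n),
      (nb (G i) v).card := ⟨_, fun _ _ => rfl⟩
  have h1 : ∀ i, ∑ t ∈ range (200 * k), bd t i ≤ 2 * n := fun i => by
    simp only [hbd, sum_filter]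
    rw [sum_comm]
    refine le_trans (sum_le_sum fun v _ => ?_) (show ∑ v, (nb (G i) v).card ≤ 2 * n by
      have := hG i; omega)
    rw [← sum_filter, sum_const, smul_eq_mul]
    refine (Nat.mul_le_mul_right _ (card_le_one.2 fun s hs t ht => ?_)).trans (one_mul _).le
    have key : ∀ s t : ℕ, ¬ W ^ (s + 1) * W * (nb (G i) v).card ≤ n →
        ¬ n ≤ W ^ (t + 1) * (nb (G i) v).card → ¬ s < t := fun s t a b c => by
      have := Nat.mul_le_mul_right (nb (G i) v).card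
        (Nat.pow_le_pow_right W1 (show s + 1 + 1 ≤ t + 1 by omega))
      rw [pow_succ] at this
      omega
    have a := key s t (mem_filter.1 hs).2.2 (mem_filter.1 ht).2.1
    have b := key t s (mem_filter.1 ht).2.2 (mem_filter.1 hs).2.1
    omega
  obtain ⟨t, ht, hb⟩ := exists_le_of_sum_le (s := range (200 * k)) (f := fun t => 100 * ∑ i, bd t i)
    (g := fun _ => n) (nonempty_range_iff.2 (by omega)) (by
      rw [← mul_sum, sum_comm, sum_const, card_range, smul_eq_mul]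
      have := sum_le_card_nsmul univ _ _ fun i _ => h1 i
      rw [card_fin, smul_eq_mul] at this
      nlinarith)
  have hE : W ≤ W ^ (t + 1) := Nat.le_self_pow (by omega) W
  obtain ⟨n1, n2, n3⟩ := nums (u := n / W ^ (t + 1)) (s := n / (W ^ (t + 1) * W)) rfl hW hE
    (Nat.mul_div_le _ _) (Nat.mul_div_le _ _) rfl rfl (le_trans (Nat.mul_le_mul_left W
      (Nat.pow_le_pow_left (Nat.pow_le_pow_right W1 (mem_range.1 ht)) 2)) (hc ▸ hn))
  refine assemble (by positivity) W1 rfl rfl G ⟨0, hk⟩ (fun i => by have := hG i; omega)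
    (fun i => fam (G i) hc (by positivity) W1 (hc ▸ hG i) ?_ n1 n2) (hc ▸ n3)
  rw [← hbd]
  exact le_trans (Nat.mul_le_mul_left _ (single_le_sum (f := bd t) (fun _ _ => Nat.zero_le _)
    (mem_univ i))) hb

end Pool.Agent.H20.Pk
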