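import Pool.Agent.H20.PlaneDefs

namespace Pool.Agent.H20.Plane

def sep (a b w : ℤ) : Bool :=
  ((a != 0 || b != 0) && (decide (w ≤ min 0 a + min 0 b) || decide (max 0 a + max 0 b ≤ w)))
    || (a == 0 && b == 0 && w != 0)

theorem sep_sound (a b w : ℤ) (h : sep a b w = true) (s t : ℝ) (s0 : 0 < s) (s1 : s < 1)
    (t0 : 0 < t) (t1 : t < 1) : s * a + t * b ≠ w := by
  intro e
  simp only [sep, Bool.or_eq_true, Bool.and_eq_true, bne_iff_ne, ne_eq, decide_eq_true_eq,
    beq_iff_eq] at h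
  have key : ∀ (c : ℤ) (r : ℝ), 0 < r → r < 1 →
      (((min 0 c : ℤ) : ℝ) ≤ r * c ∧ r * c ≤ ((max 0 c : ℤ) : ℝ)) ∧
      (c ≠ 0 → ((min 0 c : ℤ) : ℝ) < r * c ∧ r * c < ((max 0 c : ℤ) : ℝ)) := by
    intro c r r0 r1
    rcases lt_trichotomy c 0 with hc | hc | hc
    · have h1 : min 0 c = c := min_eq_right hc.le
      have h2 : max 0 c = 0 := max_eq_left hc.le
      have hc' : (c : ℝ) < 0 := by exact_mod_cast hc
      rw [h1, h2]
      push_cast
      refine ⟨⟨by nlinarith, by nlinarith⟩, fun _ => ⟨by nlinarith, by nlinarith⟩⟩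
    · subst hc
      simp
    · have h1 : min 0 c = 0 := min_eq_left hc.le
      have h2 : max 0 c = c := max_eq_right hc.le
      have hc' : (0 : ℝ) < c := by exact_mod_cast hc
      rw [h1, h2]
      push_cast
      refine ⟨⟨by nlinarith, by nlinarith⟩, fun _ => ⟨by nlinarith, by nlinarith⟩⟩
  obtain ⟨⟨a1, a2⟩, a3⟩ := key a s s0 s1
  obtain ⟨⟨b1, b2⟩, b3⟩ := key b t t0 t1
  rcases h with ⟨h0, h1⟩ | ⟨⟨ha, hb⟩, hw⟩
  · have hlt : ((min 0 a : ℤ) : ℝ) + ((min 0 b : ℤ) : ℝ) < s * a + t * b ∧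
        s * a + t * b < ((max 0 a : ℤ) : ℝ) + ((max 0 b : ℤ) : ℝ) := by
      rcases h0 with h0 | h0
      · obtain ⟨c1, c2⟩ := a3 h0
        constructor <;> linarith
      · obtain ⟨c1, c2⟩ := b3 h0
        constructor <;> linarith
    rcases h1 with h1 | h1
    · have : (w : ℝ) ≤ ((min 0 a : ℤ) : ℝ) + ((min 0 b : ℤ) : ℝ) := by exact_mod_cast h1
      linarith [hlt.1]
    · have : ((max 0 a : ℤ) : ℝ) + ((max 0 b : ℤ) : ℝ) ≤ (w : ℝ) := by exact_mod_cast h1
      linarith [hlt.2]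
  · subst ha; subst hb
    apply hw
    have : (w : ℝ) = 0 := by rw [← e]; simp
    exact_mod_cast this

/-- no solution of s D + t E = W with s, t in the open unit interval. -/
def nosol (d1 d2 e1 e2 w1 w2 : ℤ) : Bool :=
  sep d1 e1 w1 || sep d2 e2 w2 ||
  sep 0 (d1 * e2 - d2 * e1) (d1 * w2 - d2 * w1) ||
  sep (e1 * d2 - e2 * d1) 0 (e1 * w2 - e2 * w1)

theorem nosol_sound (d1 d2 e1 e2 w1 w2 : ℤ) (h : nosol d1 d2 e1 e2 w1 w2 = true)
    (s t : ℝ) (s0 : 0 < s) (s1 : s < 1) (t0 : 0 < t) (t1 : t < 1)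
    (h1 : s * d1 + t * e1 = w1) (h2 : s * d2 + t * e2 = w2) : False := by
  simp only [nosol, Bool.or_eq_true] at h
  rcases h with ((h | h) | h) | h
  · exact sep_sound _ _ _ h s t s0 s1 t0 t1 h1
  · exact sep_sound _ _ _ h s t s0 s1 t0 t1 h2
  · apply sep_sound _ _ _ h s t s0 s1 t0 t1
    push_cast
    rw [← h1, ← h2]; ring
  · apply sep_sound _ _ _ h s t s0 s1 t0 t1
    push_cast
    rw [← h1, ← h2]; ring


noncomputable def seg (a d : ℝ) : C(unitInterval, ℝ) where
  toFun t := a + (t : ℝ) * d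
  continuous_toFun := by fun_prop

/-- Straight-line drawings with integer coordinates. -/
theorem planar_of_coords {W : Type} (H : SimpleGraph W) (X Y : W → ℤ)
    (hinj : ∀ u v, X u = X v → Y u = Y v → u = v)
    (h1 : ∀ u v w, H.Adj u v → nosol (X v - X u) (Y v - Y u) 0 0 (X w - X u) (Y w - Y u) = true)
    (h2 : ∀ u v, H.Adj u v → ∀ u' v', H.Adj u' v' →
      ¬ ((u = u' ∧ v = v') ∨ (u = v' ∧ v = u')) →
      nosol (X v - X u) (Y v - Y u) (X u' - X v') (Y u' - Y v') (X u' - X u) (Y u' - Y u) = true) :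
    IsPlanar H := by
  refine ⟨fun v => ((X v : ℝ), (Y v : ℝ)),
    fun u v => (seg (X u) (X v - X u)).prodMk (seg (Y u) (Y v - Y u)), ?_, ?_, ?_, ?_⟩
  · intro u v h
    simp only [Prod.mk.injEq] at h
    exact hinj u v (by exact_mod_cast h.1) (by exact_mod_cast h.2)
  · intro u v h
    refine ⟨?_, ?_, ?_⟩
    · simp [seg]
    · simp [seg]
    · intro s t hst
      have e1 : (X u : ℝ) + (s : ℝ) * (X v - X u) = X u + (t : ℝ) * (X v - X u) :=
        congrArg Prod.fst hst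
      have e2 : (Y u : ℝ) + (s : ℝ) * (Y v - Y u) = Y u + (t : ℝ) * (Y v - Y u) :=
        congrArg Prod.snd hst
      by_contra hne
      have hne' : (s : ℝ) - t ≠ 0 := fun h0 => hne (Subtype.ext (by linarith))
      have a1 : ((s : ℝ) - t) * (X v - X u) = 0 := by linarith
      have a2 : ((s : ℝ) - t) * (Y v - Y u) = 0 := by linarith
      have b1 := (mul_eq_zero.mp a1).resolve_left hne'
      have b2 := (mul_eq_zero.mp a2).resolve_left hne'
      have c1 : X u = X v := by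
        have : (X u : ℝ) = X v := by linarith
        exact_mod_cast this
      have c2 : Y u = Y v := by
        have : (Y u : ℝ) = Y v := by linarith
        exact_mod_cast this
      exact h.ne (hinj u v c1 c2)
  · intro u v w t h t0 t1 e
    have e1 : (X u : ℝ) + (t : ℝ) * (X v - X u) = X w := congrArg Prod.fst e
    have e2 : (Y u : ℝ) + (t : ℝ) * (Y v - Y u) = Y w := congrArg Prod.snd e
    refine nosol_sound _ _ _ _ _ _ (h1 u v w h) t t t0 t1 t0 t1 ?_ ?_
    · push_cast; linarith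
    · push_cast; linarith
  · intro u v u' v' s t h h' hne s0 s1 t0 t1 e
    have e1 : (X u : ℝ) + (s : ℝ) * (X v - X u) = X u' + (t : ℝ) * (X v' - X u') :=
      congrArg Prod.fst e
    have e2 : (Y u : ℝ) + (s : ℝ) * (Y v - Y u) = Y u' + (t : ℝ) * (Y v' - Y u') :=
      congrArg Prod.snd e
    refine nosol_sound _ _ _ _ _ _ (h2 u v h u' v' h' hne) s t s0 s1 t0 t1 ?_ ?_
    · push_cast; linarith
    · push_cast; linarith

end Pool.Agent.H20.Plane
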