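import Pool.Agent.H20.QKDefs

namespace Pool.Agent.H20.QK
open Pool.Agent.H20 Finset

abbrev T1 (g : ℕ) := Fin g × Fin 3
abbrev T2 (g : ℕ) := {P : Finset (T1 g) // P.card = 2}
abbrev T3 (g m : ℕ) := {R : Finset (T2 g) // R.card = m}
abbrev W (g m t s k : ℕ) := (T1 g × Fin t) ⊕ (T2 g × Fin s) ⊕ (T3 g m × Fin k)

def prv {g : ℕ} (a : T1 g) : T1 g := (a.1, a.2 - 1)

theorem prv_ne {g : ℕ} (a : T1 g) : prv a ≠ a := by
  intro h
  have := congrArg Prod.snd h
  revert this
  simp only [prv]
  generalize a.2 = x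
  revert x
  decide

variable {g m t s k : ℕ}

def A : W g m t s k → W g m t s k → Prop
  | .inl x, .inl y => (x.1 = y.1 ∧ x.2 ≠ y.2) ∨ x.1 = prv y.1
  | .inl x, .inr (.inl y) => x.1 ∈ y.1.1
  | .inr (.inl x), .inr (.inr y) => x.1 ∈ y.1.1
  | _, _ => False

def D (g m t s k : ℕ) : Digraph (W g m t s k) := ⟨A⟩

theorem irr (v : W g m t s k) : ¬ (D g m t s k).Adj v v := by
  rcases v with x | x | x
  · rintro (h | h)
    · exact h.2 rfl
    · exact prv_ne _ h.symm
  · exact id
  · exact id

theorem deg1 (y : T1 g × Fin t) : inDeg (D g m t s k) (.inl y) + 1 = 2 * t := by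
  have : {u | (D g m t s k).Adj u (.inl y)} =
      Sum.inl '' ((({y.1} ×ˢ (univ.erase y.2) ∪ {prv y.1} ×ˢ univ : Finset _)) : Set _) := by
    ext u
    rcases u with x | x | x
    · rw [Sum.inl_injective.mem_set_image, mem_coe]
      simp only [D, A, Set.mem_ofPred_eq, mem_union, mem_product, mem_singleton, mem_erase,
        mem_univ, and_true]
    · simp [D, A]
    · simp [D, A]
  rw [inDeg, this, Set.ncard_image_of_injective _ Sum.inl_injective, Set.ncard_coe_finset,
    card_union_of_disjoint]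
  · have := y.2.pos
    simp
    omega
  · rw [disjoint_left]
    intro x h1 h2
    simp only [mem_product, mem_singleton] at h1 h2
    exact prv_ne _ (h2.1.symm.trans h1.1)

theorem deg2 (y : T2 g × Fin s) : inDeg (D g m t s k) (.inr (.inl y)) = 2 * t := by
  have : {u | (D g m t s k).Adj u (.inr (.inl y))} =
      Sum.inl '' (SetLike.coe ((y.1.1 : Finset (T1 g)) ×ˢ (univ : Finset (Fin t)))) := by
    ext u
    rcases u with x | x | x
    · rw [Sum.inl_injective.mem_set_image, mem_coe]
      simp only [D, A, Set.mem_ofPred_eq, mem_product, mem_univ, and_true]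
    · simp [D, A]
    · simp [D, A]
  rw [inDeg, this, Set.ncard_image_of_injective _ Sum.inl_injective, Set.ncard_coe_finset,
    card_product, y.1.2, card_univ, Fintype.card_fin]

theorem deg3 (y : T3 g m × Fin k) : inDeg (D g m t s k) (.inr (.inr y)) = m * s := by
  have : {u | (D g m t s k).Adj u (.inr (.inr y))} =
      (Sum.inr ∘ Sum.inl) '' (SetLike.coe ((y.1.1 : Finset (T2 g)) ×ˢ (univ : Finset (Fin s)))) := by
    ext u
    rcases u with x | x | x
    · simp [D, A]
    · refine Iff.trans ?_ ((Sum.inr_injective.comp Sum.inl_injective).mem_set_image (a := x)).symm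
      rw [mem_coe]
      simp only [D, A, Set.mem_ofPred_eq, mem_product, mem_univ, and_true]
    · simp [D, A]
  rw [inDeg, this, Set.ncard_image_of_injective _ (Sum.inr_injective.comp Sum.inl_injective),
    Set.ncard_coe_finset, card_product, y.1.2, card_univ, Fintype.card_fin]

theorem free1 (S : Finset (T1 g)) :
    2 * g ≤ (univ.filter fun a => a ∉ S ∧ prv a ∉ S).card + S.card := by
  have h1 : (univ.filter fun a => a ∉ S ∧ prv a ∈ S).card ≤ (univ : Finset (Fin g)).card := by
    refine card_le_card_of_injOn Prod.fst (fun _ _ => by simp) ?_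
    rintro ⟨x, a⟩ ha ⟨y, b⟩ hb e
    simp only [coe_filter, mem_univ, true_and, Set.mem_ofPred_eq, prv] at ha hb e
    subst e
    have : ∀ a b : Fin 3, a = b ∨ a - 1 = b ∨ b - 1 = a := by decide
    rcases this a b with h | h | h
    · rw [h]
    · rw [h] at ha; exact absurd ha.2 hb.1
    · rw [h] at hb; exact absurd hb.2 ha.1
  have h2 : (univ : Finset (T1 g)) ⊆ (univ.filter fun a => a ∉ S ∧ prv a ∉ S) ∪ S ∪
      (univ.filter fun a => a ∉ S ∧ prv a ∈ S) := by
    intro a _
    simp only [mem_union, mem_filter, mem_univ, true_and]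
    tauto
  have h3 := (card_le_card h2).trans ((card_union_le _ _).trans
    (Nat.add_le_add (card_union_le _ _) h1))
  simp only [card_univ, Fintype.card_prod, Fintype.card_fin] at h3
  omega

theorem big (Q : Finset (W g m t s k)) (hQ : IsQKernel (D g m t s k) 3 Q) (hk : Q.card < k)
    (hm : m + Q.card ≤ (2 * g - Q.card).choose 2) : False := by
  classical
  let S : Finset (T1 g) := (Q.preimage Sum.inl Sum.inl_injective.injOn).image Prod.fst
  have hS : S.card ≤ Q.card := card_image_le.trans (card_le_card_of_injOn Sum.inl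
    (fun x hx => by simpa using hx) Sum.inl_injective.injOn)
  let U := univ.filter fun a => a ∉ S ∧ prv a ∉ S
  have hU : 2 * g - Q.card ≤ U.card := by
    have := free1 S
    simp only [U]
    omega
  have inj2 : Function.Injective fun x : T2 g × Fin s => (Sum.inr (Sum.inl x) : W g m t s k) :=
    fun a b h => by simpa using h
  let S2 : Finset (T2 g) := (Q.preimage _ inj2.injOn).image Prod.fst
  have hS2 : S2.card ≤ Q.card := card_image_le.trans (card_le_card_of_injOn _
    (fun x hx => by simpa using hx) inj2.injOn)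
  let U2 : Finset (T2 g) := univ.filter fun P => P.1 ⊆ U
  have hU2 : U.card.choose 2 ≤ U2.card := by
    rw [← card_powersetCard]
    refine card_le_card_of_surjOn Subtype.val fun P hP => ?_
    have hP := mem_powersetCard.1 hP
    exact ⟨⟨P, hP.2⟩, by simpa [U2] using hP.1, rfl⟩
  have h1 : m ≤ (U2 \ S2).card := by
    have := le_card_sdiff S2 U2
    have := Nat.choose_le_choose 2 hU
    omega
  obtain ⟨R, hR, hc⟩ := exists_subset_card_eq h1
  have : ∃ i : Fin k, (Sum.inr (Sum.inr (⟨R, hc⟩, i)) : W g m t s k) ∉ Q := by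
    by_contra hn
    push Not at hn
    have := card_le_card_of_injOn (s := univ) (t := Q)
      (fun i : Fin k => (Sum.inr (Sum.inr (⟨R, hc⟩, i)) : W g m t s k)) (fun i _ => hn i)
      (fun a _ b _ h => by simpa using h)
    simp at this
    omega
  obtain ⟨i, hi⟩ := this
  have in1 : ∀ x : T1 g × Fin t, Sum.inl x ∈ Q → x.1 ∈ S := fun x hx =>
    mem_image.2 ⟨x, by simpa using hx, rfl⟩
  have s3 : ∀ w, A w (Sum.inr (Sum.inr (⟨R, hc⟩, i)) : W g m t s k) →
      w ∉ Q ∧ ∀ w2, A w2 w → w2 ∉ Q ∧ ∀ w3, A w3 w2 → w3 ∉ Q := by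
    rintro (x | x | x) h
    · exact h.elim
    · have hx := mem_sdiff.1 (hR h)
      refine ⟨fun hq => hx.2 (mem_image.2 ⟨x, by simpa using hq, rfl⟩), ?_⟩
      rintro (y | y | y) h2
      · have hy := (mem_filter.1 ((mem_filter.1 hx.1).2 h2)).2
        refine ⟨fun hq => hy.1 (in1 _ hq), ?_⟩
        rintro (z | z | z) h3 hq
        · rcases h3 with h3 | h3
          · exact hy.1 (h3.1 ▸ in1 _ hq)
          · exact hy.2 (h3 ▸ in1 _ hq)
        · exact h3
        · exact h3
      · exact h2.elim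
      · exact h2.elim
    · exact h.elim
  obtain ⟨l, hl, p, -, h0, hv, hp⟩ := hQ.2 (Sum.inr (Sum.inr (⟨R, hc⟩, i)))
  interval_cases l
  · exact hi (hv ▸ h0)
  · exact (s3 _ (hv ▸ hp 0)).1 h0
  · exact ((s3 _ (hv ▸ hp 1)).2 _ (hp 0)).1 h0
  · exact ((s3 _ (hv ▸ hp 2)).2 _ (hp 1)).2 _ (hp 0) h0

theorem arith (q K s n : ℕ) (hs : s = K * 2000 + 1)
    (hn : n = 1000 * 3 * (25000 * s) + (4498500 * s + K * 2000))
    (h : 2 * (25000 * s) * q ≤ n) : q < 2000 ∧ 50000 + q ≤ (2 * 1000 - q).choose 2 := by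
  have h1 : s * (50000 * q) ≤ s * 79498501 := by nlinarith
  have h2 := Nat.le_of_mul_le_mul_left h1 (by omega)
  refine ⟨by omega, ?_⟩
  have h3 : (411 : ℕ).choose 2 ≤ (2 * 1000 - q).choose 2 := Nat.choose_le_choose 2 (by omega)
  have h4 : (411 : ℕ).choose 2 = 84255 := by rw [Nat.choose_two_right]
  omega

theorem main (K s : ℕ) (hK : Fintype.card (T3 1000 50000) = K) (hs : s = K * 2000 + 1)
    (Q : Finset (W 1000 50000 (25000 * s) s 2000))
    (hQ : IsQKernel (D 1000 50000 (25000 * s) s 2000) 3 Q) :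
    Fintype.card (W 1000 50000 (25000 * s) s 2000) < 2 * (25000 * s) * Q.card := by
  by_contra hn
  have h2 : Fintype.card (T2 1000) = 4498500 := by
    rw [Fintype.card_finset_len, Fintype.card_prod, Fintype.card_fin, Fintype.card_fin,
      Nat.choose_two_right]
  have := arith Q.card K s _ hs (by
    simp only [Fintype.card_sum, Fintype.card_prod, Fintype.card_fin, hK, h2]) (not_lt.1 hn)
  exact big Q hQ this.1 this.2

end Pool.Agent.H20.QK
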