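import Mathlib

namespace Pool.Agent.H20

/-- The in-degree of `v`. -/
noncomputable def inDeg {V : Type} (D : Digraph V) (v : V) : ℕ := {u | D.Adj u v}.ncard

/-- `Q` is independent and every vertex ends a directed path of length at most `q` from `Q`. -/
def IsQKernel {V : Type} (D : Digraph V) (q : ℕ) (Q : Finset V) : Prop :=
  (∀ u ∈ Q, ∀ v ∈ Q, ¬ D.Adj u v) ∧
    ∀ v, ∃ l ≤ q, ∃ p : Fin (l + 1) → V, Function.Injective p ∧ p 0 ∈ Q ∧ p (Fin.last l) = v ∧
      ∀ i : Fin l, D.Adj (p i.castSucc) (p i.succ)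

end Pool.Agent.H20
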