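import Pool.Agent.H20.UDec

namespace Pool.Agent.H20.UDec
open Finset

variable {V : Type} [Fintype V] [DecidableEq V]

def cnt (a b : Sym2 V) : ℕ := (univ.filter fun σ : Equiv.Perm V => Sym2.map σ a = b).card

theorem trans_pair (b b' : Sym2 V) (hb : ¬ b.IsDiag) (hb' : ¬ b'.IsDiag) :
    ∃ τ : Equiv.Perm V, Sym2.map τ b = b' := by
  have h : Iso ({b} : Finset (Sym2 V)) {b'} :=
    mat_iso (by intro e he; rw [mem_singleton.mp he]; exact hb)
      (by intro e he; rw [mem_singleton.mp he]; exact hb')
      (by intro e he f hf _ _ _; rw [mem_singleton.mp he, mem_singleton.mp hf])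
      (by intro e he f hf _ _ _; rw [mem_singleton.mp he, mem_singleton.mp hf]) (by simp)
  obtain ⟨τ, hτ⟩ := h
  exact ⟨τ, by simpa using hτ⟩

theorem cnt_le (a b b' : Sym2 V) (ha : ¬ a.IsDiag) (hb : ¬ b.IsDiag) : cnt a b' ≤ cnt a b := by
  by_cases hb' : b'.IsDiag
  · have : cnt a b' = 0 := by
      unfold cnt
      rw [Finset.card_eq_zero, Finset.filter_eq_empty_iff]
      intro σ _ h
      apply ha
      have := hb'.map (f := σ.symm)
      rw [← h, Sym2.map_map] at this
      simpa using this
    omega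
  · obtain ⟨τ, hτ⟩ := trans_pair b' b hb' hb
    unfold cnt
    refine Finset.card_le_card_of_injOn (fun σ => σ.trans τ) ?_ ?_
    · intro σ hσ
      simp only [coe_filter, mem_univ, true_and, Set.mem_ofPred_eq] at hσ ⊢
      rw [← hτ, ← hσ, Sym2.map_map]
      rfl
    · intro σ _ σ' _ h
      ext x
      have := congrArg (fun ρ : Equiv.Perm V => ρ x) h
      simpa using this

theorem card_sym2_le : Fintype.card (Sym2 V) ≤ Fintype.card V ^ 2 := by
  have : Fintype.card (Sym2 V) ≤ Fintype.card (V × V) :=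
    Fintype.card_le_of_surjective (fun p : V × V => s(p.1, p.2)) (by
      intro e
      exact ⟨e.out, out_eq e⟩)
  rw [Fintype.card_prod] at this
  rw [sq]; exact this

theorem cnt_ge (a b : Sym2 V) (ha : ¬ a.IsDiag) (hb : ¬ b.IsDiag) :
    Fintype.card (Equiv.Perm V) ≤ Fintype.card V ^ 2 * cnt a b := by
  have h1 : Fintype.card (Equiv.Perm V) = ∑ b' : Sym2 V, cnt a b' := by
    unfold cnt
    rw [← Finset.card_univ]
    exact Finset.card_eq_sum_card_fiberwise (f := fun σ : Equiv.Perm V => Sym2.map σ a)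
      (fun _ _ => mem_univ _)
  rw [h1]
  calc ∑ b' : Sym2 V, cnt a b' ≤ ∑ _b' : Sym2 V, cnt a b :=
        Finset.sum_le_sum fun b' _ => cnt_le a b b' ha hb
    _ = Fintype.card (Sym2 V) * cnt a b := by simp
    _ ≤ _ := Nat.mul_le_mul_right _ card_sym2_le

theorem averaging {A B : Finset (Sym2 V)} (nA : ND A) (nB : ND B) :
    ∃ σ : Equiv.Perm V, A.card * B.card ≤
      Fintype.card V ^ 2 * (A.filter fun a => Sym2.map σ a ∈ B).card := by
  have h1 : ∑ σ : Equiv.Perm V, (A.filter fun a => Sym2.map σ a ∈ B).card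
      = ∑ a ∈ A, ∑ b ∈ B, cnt a b := by
    have : ∀ a : Sym2 V, ∑ b ∈ B, cnt a b
        = (univ.filter fun σ : Equiv.Perm V => Sym2.map σ a ∈ B).card := by
      intro a
      rw [Finset.card_eq_sum_card_fiberwise (f := fun σ : Equiv.Perm V => Sym2.map σ a) (t := B)
        (fun σ hσ => by simpa using hσ)]
      refine Finset.sum_congr rfl fun b hb => ?_
      unfold cnt
      congr 1
      ext σ
      simp only [mem_filter, mem_univ, true_and]
      constructor
      · intro h; exact ⟨h ▸ hb, h⟩
      · intro h; exact h.2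
    simp only [this, Finset.card_filter]
    exact Finset.sum_comm
  by_contra hcon
  push Not at hcon
  have h2 : ∑ σ : Equiv.Perm V, Fintype.card V ^ 2 * (A.filter fun a => Sym2.map σ a ∈ B).card
      < ∑ _σ : Equiv.Perm V, A.card * B.card :=
    Finset.sum_lt_sum_of_nonempty univ_nonempty fun σ _ => hcon σ
  rw [← Finset.mul_sum, h1] at h2
  have h3 : ∑ _a ∈ A, ∑ _b ∈ B, Fintype.card (Equiv.Perm V)
      ≤ Fintype.card V ^ 2 * ∑ a ∈ A, ∑ b ∈ B, cnt a b := by
    rw [Finset.mul_sum]
    refine Finset.sum_le_sum fun a ha => ?_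
    rw [Finset.mul_sum]
    exact Finset.sum_le_sum fun b hb => cnt_ge a b (nA a ha) (nB b hb)
  simp only [sum_const, smul_eq_mul, card_univ] at h2 h3
  nlinarith

theorem common {A B : Finset (Sym2 V)} (nA : ND A) (nB : ND B) :
    ∃ P ⊆ A, ∃ Q ⊆ B, Iso P Q ∧ A.card * B.card ≤ Fintype.card V ^ 2 * P.card := by
  obtain ⟨σ, hσ⟩ := averaging nA nB
  refine ⟨_, Finset.filter_subset _ _, _, ?_, ⟨σ, rfl⟩, hσ⟩
  intro e he
  obtain ⟨a, ha, rfl⟩ := Finset.mem_image.mp he
  exact (mem_filter.mp ha).2

theorem peel (d q : ℕ) (hd : 0 < d) (hn : Fintype.card V ≤ q * d) : ∀ (j : ℕ)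
    (A B : Finset (Sym2 V)), ND A → ND B → A.card = B.card → A.card * q ^ 2 ≤ j * d ^ 2 →
    ∃ R ⊆ A, ∃ R' ⊆ B, R.card = R'.card ∧ R.card ≤ d * d ∧ Dec j (A \ R) (B \ R') := by
  intro j
  induction j with
  | zero =>
    intro A B nA nB hc hj
    by_cases h : A.card ≤ d * d
    · exact ⟨A, Subset.refl _, B, Subset.refl _, hc, h, by simpa using Dec.zero⟩
    · exfalso
      have hq : q ^ 2 = 0 := by
        rcases Nat.eq_zero_or_pos (q ^ 2) with h0 | h0
        · exact h0
        · have : 0 < A.card := by omega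
          have := Nat.mul_pos this h0
          omega
      have hq0 : q = 0 := by simpa using hq
      subst hq0
      have h1 : A.card ≤ Fintype.card (Sym2 V) := Finset.card_le_univ _
      have h2 := card_sym2_le (V := V)
      have h3 : Fintype.card V = 0 := by omega
      rw [h3] at h2
      omega
  | succ j ih =>
    intro A B nA nB hc hj
    by_cases h : A.card ≤ d * d
    · exact ⟨A, Subset.refl _, B, Subset.refl _, hc, h, by simpa using Dec.empty _⟩
    · obtain ⟨P, hP, Q, hQ, hi, hcard⟩ := common nA nB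
      have h1 : d ^ 2 ≤ P.card * q ^ 2 := by
        have a1 : (d * d) * (d * d) ≤ A.card * B.card :=
          Nat.mul_le_mul (by omega) (by omega)
        have a2 : Fintype.card V ^ 2 ≤ (q * d) ^ 2 := Nat.pow_le_pow_left hn 2
        have a3 : (d * d) * (d * d) ≤ (q * d) ^ 2 * P.card :=
          a1.trans (hcard.trans (Nat.mul_le_mul_right _ a2))
        have a4 : (d * d) * d ^ 2 ≤ (d * d) * (P.card * q ^ 2) := by
          calc (d * d) * d ^ 2 = (d * d) * (d * d) := by ring
            _ ≤ (q * d) ^ 2 * P.card := a3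
            _ = (d * d) * (P.card * q ^ 2) := by ring
        exact Nat.le_of_mul_le_mul_left a4 (Nat.mul_pos hd hd)
      have hPA := Finset.card_le_card hP
      obtain ⟨R, hR, R', hR', e1, e2, e3⟩ := ih (A \ P) (B \ Q) (nA.mono sdiff_subset)
        (nB.mono sdiff_subset)
        (by rw [card_sdiff_of_subset hP, card_sdiff_of_subset hQ, hc, hi.card])
        (by
          rw [card_sdiff_of_subset hP, Nat.sub_mul]
          have : (j + 1) * d ^ 2 = j * d ^ 2 + d ^ 2 := by ring
          omega)
      refine ⟨R, hR.trans sdiff_subset, R', hR'.trans sdiff_subset, e1, e2, ?_⟩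
      refine Dec.piece (P := P) (Q := Q) ?_ ?_ hi ?_
      · intro e he
        exact mem_sdiff.mpr ⟨hP he, fun h => (mem_sdiff.mp (hR h)).2 he⟩
      · intro e he
        exact mem_sdiff.mpr ⟨hQ he, fun h => (mem_sdiff.mp (hR' h)).2 he⟩
      · rw [sdiff_sdiff_comm, sdiff_sdiff_comm (a := B)]
        exact e3

theorem star_deg {T : Finset (Sym2 V)} (c v : V) (hT : ∀ e ∈ T, c ∈ e) (hv : v ≠ c) :
    deg T v ≤ 1 := by
  unfold deg
  rw [Finset.card_le_one]
  intro a ha b hb
  rw [mem_filter] at ha hb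
  exact Sym2.eq_of_ne_mem hv ha.2 (hT a ha.1) hb.2 (hT b hb.1)

theorem move (d : ℕ) (C : Finset V) : ∀ (H R : Finset (Sym2 V)), ND H → ND R →
    (∀ c ∈ C, d + C.card ≤ deg H c) → R.card ≤ C.card * d →
    ∃ L ⊆ R, ∃ Q ⊆ H, Dec C.card (R \ L) Q ∧ (∀ v, deg L v ≤ d) ∧
      ∀ v, deg Q v ≤ C.card + if v ∈ C then d else 0 := by
  induction C using Finset.induction_on with
  | empty =>
    intro H R _ _ _ hR
    have : R = ∅ := Finset.card_eq_zero.mp (by simpa using hR)
    subst this
    exact ⟨∅, Subset.refl _, ∅, empty_subset _, by simpa using Dec.zero, by simp [deg],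
      by simp [deg]⟩
  | @insert c C hc ih =>
    intro H R nH nR hH hR
    rw [card_insert_of_notMem hc] at hH hR ⊢
    by_cases hlow : ∀ v, deg R v ≤ d
    · exact ⟨R, Subset.refl _, ∅, empty_subset _, by simpa using Dec.empty _, hlow, by simp [deg]⟩
    · push Not at hlow
      obtain ⟨v, hv⟩ := hlow
      obtain ⟨S, hS, hSc⟩ := Finset.exists_subset_card_eq (s := R.filter fun e => v ∈ e) hv.le
      have hc1 := hH c (mem_insert_self _ _)
      obtain ⟨T, hT, hTc⟩ := Finset.exists_subset_card_eq (s := H.filter fun e => c ∈ e)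
        (n := d) (le_trans (by omega) hc1)
      have hSR : S ⊆ R := hS.trans (filter_subset _ _)
      have hTH : T ⊆ H := hT.trans (filter_subset _ _)
      have hTc' : ∀ e ∈ T, c ∈ e := fun e he => (mem_filter.mp (hT he)).2
      have hi : Iso S T := star_iso (nR.mono hSR) (nH.mono hTH) v c
        (fun e he => (mem_filter.mp (hS he)).2) hTc' (hSc.trans hTc.symm)
      obtain ⟨L, hL, Q, hQ, e1, e2, e3⟩ := ih (H \ T) (R \ S) (nH.mono sdiff_subset)
        (nR.mono sdiff_subset)
        (by
          intro c' hc'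
          have a1 := hH c' (mem_insert_of_mem hc')
          have a2 := deg_sdiff H T c'
          have a3 := star_deg c c' hTc' (fun h => hc (h ▸ hc'))
          omega)
        (by
          rw [card_sdiff_of_subset hSR, hSc]
          have : (C.card + 1) * d = C.card * d + d := by ring
          omega)
      refine ⟨L, hL.trans sdiff_subset, T ∪ Q, union_subset hTH (hQ.trans sdiff_subset), ?_, e2, ?_⟩
      · have hd : Disjoint T Q := Finset.disjoint_left.mpr fun e he h => (mem_sdiff.mp (hQ h)).2 he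
        refine Dec.piece (P := S) (Q := T) ?_ subset_union_left hi ?_
        · intro e he
          exact mem_sdiff.mpr ⟨hSR he, fun h => (mem_sdiff.mp (hL h)).2 he⟩
        · rw [sdiff_sdiff_comm, Finset.union_sdiff_cancel_left hd]
          exact e1
      · intro x
        have a1 := deg_union T Q x
        have a2 := e3 x
        by_cases hx : x = c
        · subst hx
          have a3 : deg T x ≤ d := hTc ▸ Finset.card_le_card (filter_subset _ _)
          simp only [if_neg hc, mem_insert_self, if_true] at a2 ⊢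
          omega
        · have a3 := star_deg c x hTc' hx
          by_cases hxC : x ∈ C
          · simp only [if_pos hxC, if_pos (mem_insert_of_mem hxC)] at a2 ⊢
            omega
          · simp only [if_neg hxC] at a2
            omega

theorem deg_le_card {H : Finset (Sym2 V)} (v : V) : deg H v ≤ Fintype.card V := by
  unfold deg
  rw [← Finset.card_univ]
  refine le_trans (Finset.card_le_card ?_) (Finset.card_image_le (f := fun x => s(v, x)))
  intro e he
  have hv := (mem_filter.mp he).2
  exact Finset.mem_image.mpr ⟨Sym2.Mem.other hv, mem_univ _, Sym2.other_spec hv⟩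

theorem card_le_sum_deg (H : Finset (Sym2 V)) : H.card ≤ ∑ v, deg H v := by
  have : H ⊆ univ.biUnion fun v => H.filter fun e => v ∈ e := by
    intro e he
    exact mem_biUnion.mpr ⟨e.out.1, mem_univ _, mem_filter.mpr ⟨he, Sym2.out_fst_mem e⟩⟩
  exact (Finset.card_le_card this).trans Finset.card_biUnion_le

theorem many_high (H : Finset (Sym2 V)) (d : ℕ) (h0 : 0 < Fintype.card V) (h : 5 * d * Fintype.card V ≤ H.card) :
    ∃ C : Finset V, C.card = d ∧ ∀ c ∈ C, 4 * d ≤ deg H c := by
  let C0 := univ.filter fun v => 4 * d ≤ deg H v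
  have h1 : d ≤ C0.card := by
    by_contra hlt
    push Not at hlt
    have a1 := card_le_sum_deg H
    rw [← Finset.sum_filter_add_sum_filter_not univ (fun v => 4 * d ≤ deg H v)] at a1
    have a2 : ∑ v ∈ C0, deg H v ≤ C0.card * Fintype.card V := by
      have := Finset.sum_le_card_nsmul C0 (deg H) (Fintype.card V) fun v _ => deg_le_card v
      simpa using this
    have a3 : ∑ v ∈ univ.filter (fun v => ¬ 4 * d ≤ deg H v), deg H v
        ≤ Fintype.card V * (4 * d) := by
      have := Finset.sum_le_card_nsmul (univ.filter (fun v => ¬ 4 * d ≤ deg H v)) (deg H) (4 * d)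
        fun v hv => by
          have := (mem_filter.mp hv).2
          omega
      rw [smul_eq_mul] at this
      exact this.trans (Nat.mul_le_mul_right _ (Finset.card_le_univ _))
    have a4 : (C0.card + 1) * Fintype.card V ≤ d * Fintype.card V :=
      Nat.mul_le_mul_right _ hlt
    have a5 : H.card ≤ C0.card * Fintype.card V + Fintype.card V * (4 * d) :=
      a1.trans (Nat.add_le_add a2 a3)
    nlinarith
  obtain ⟨C, hC, hc⟩ := Finset.exists_subset_card_eq h1
  exact ⟨C, hc, fun c h => (mem_filter.mp (hC h)).2⟩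

theorem with_reserve (d q : ℕ) (hd : 0 < d) (h0 : 0 < Fintype.card V)
    (hn : Fintype.card V ≤ q * d) {A B H : Finset (Sym2 V)} (nA : ND A) (nB : ND B)
    (hc : A.card = B.card) (hA : H ⊆ A) (hB : H ⊆ B) (hH : 5 * d * Fintype.card V ≤ H.card) :
    Dec (q ^ 4 + 14 * d + 3) A B := by
  obtain ⟨R, hR, R', hR', e1, e2, D1⟩ := peel d q hd hn (q ^ 4) (A \ H) (B \ H)
    (nA.mono sdiff_subset) (nB.mono sdiff_subset)
    (by rw [card_sdiff_of_subset hA, card_sdiff_of_subset hB, hc])
    (by
      have h1 : (A \ H).card ≤ Fintype.card (Sym2 V) := Finset.card_le_univ _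
      have h2 := card_sym2_le (V := V)
      have h3 : Fintype.card V ^ 2 ≤ (q * d) ^ 2 := Nat.pow_le_pow_left hn 2
      calc (A \ H).card * q ^ 2 ≤ (q * d) ^ 2 * q ^ 2 :=
            Nat.mul_le_mul_right _ (h1.trans (h2.trans h3))
        _ = q ^ 4 * d ^ 2 := by ring)
  obtain ⟨C, hC, hCd⟩ := many_high H d h0 hH
  have nH : ND H := nA.mono hA
  have nR : ND R := nA.mono (hR.trans sdiff_subset)
  have nR' : ND R' := nB.mono (hR'.trans sdiff_subset)
  obtain ⟨L, hL, Q, hQ, D2, dL, dQ⟩ := move d C H R nH nR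
    (fun c hc => by have := hCd c hc; omega) (by rw [hC]; exact e2)
  have dQ1 : ∀ v, deg Q v ≤ 2 * d := fun v => by
    have := dQ v
    split_ifs at this <;> omega
  obtain ⟨L', hL', Q', hQ', D3, dL', dQ'⟩ := move d C (H \ Q) R' (nH.mono sdiff_subset) nR'
    (fun c hc => by
      have := hCd c hc
      have := deg_sdiff H Q c
      have := dQ1 c
      omega) (by rw [hC, ← e1]; exact e2)
  have dQ2 : ∀ v, deg Q' v ≤ 2 * d := fun v => by
    have := dQ' v
    split_ifs at this <;> omega
  rw [hC] at D2 D3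
  have m1 : ∀ e, e ∈ R → e ∈ A ∧ e ∉ H := fun e he => mem_sdiff.mp (hR he)
  have m2 : ∀ e, e ∈ R' → e ∈ B ∧ e ∉ H := fun e he => mem_sdiff.mp (hR' he)
  have m3 : ∀ e, e ∈ L → e ∈ R := fun e he => hL he
  have m4 : ∀ e, e ∈ L' → e ∈ R' := fun e he => hL' he
  have m5 : ∀ e, e ∈ Q → e ∈ H := fun e he => hQ he
  have m6 : ∀ e, e ∈ Q' → e ∈ H ∧ e ∉ Q := fun e he => mem_sdiff.mp (hQ' he)
  have m7 : ∀ e, e ∈ H → e ∈ A := fun e he => hA he
  have m8 : ∀ e, e ∈ H → e ∈ B := fun e he => hB he
  have dLQ : Disjoint L Q := Finset.disjoint_left.mpr fun e h1 h2 => (m1 e (m3 e h1)).2 (m5 e h2)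
  have dLQ' : Disjoint L' Q' :=
    Finset.disjoint_left.mpr fun e h1 h2 => (m2 e (m4 e h1)).2 (m6 e h2).1
  have D4 : Dec (4 * (3 * d) + 2) (L ∪ Q) (L' ∪ Q') := by
    refine low_dec (3 * d) ?_ ?_ ?_ ?_ ?_
    · exact nA.mono (union_subset (hL.trans (hR.trans sdiff_subset)) (hQ.trans hA))
    · exact nB.mono (union_subset (hL'.trans (hR'.trans sdiff_subset))
        ((hQ'.trans sdiff_subset).trans hB))
    · intro v
      have := deg_union L Q v
      have := dL v
      have := dQ1 v
      omega
    · intro v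
      have := deg_union L' Q' v
      have := dL' v
      have := dQ2 v
      omega
    · rw [card_union_of_disjoint dLQ, card_union_of_disjoint dLQ', ← D2.card, ← D3.card,
        card_sdiff_of_subset hL, card_sdiff_of_subset hL']
      have := card_le_card hL
      have := card_le_card hL'
      omega
  have D5 := (Dec.one (Iso.refl ((H \ Q) \ Q'))).add D4
    (by rw [Finset.disjoint_left]; intro e; simp only [mem_sdiff, mem_union]; grind)
    (by rw [Finset.disjoint_left]; intro e; simp only [mem_sdiff, mem_union]; grind)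
  have D6 := D3.symm.add D5
    (by rw [Finset.disjoint_left]; intro e; simp only [mem_sdiff, mem_union]; grind)
    (by rw [Finset.disjoint_left]; intro e; simp only [mem_sdiff, mem_union]; grind)
  have D7 := D2.add D6
    (by rw [Finset.disjoint_left]; intro e; simp only [mem_sdiff, mem_union]; grind)
    (by rw [Finset.disjoint_left]; intro e; simp only [mem_sdiff, mem_union]; grind)
  have D8 := D1.add D7
    (by rw [Finset.disjoint_left]; intro e; simp only [mem_sdiff, mem_union]; grind)
    (by rw [Finset.disjoint_left]; intro e; simp only [mem_sdiff, mem_union]; grind)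
  have E1 : ((A \ H) \ R) ∪ (R \ L ∪ (Q' ∪ ((H \ Q) \ Q' ∪ (L ∪ Q)))) = A := by
    ext e; simp only [mem_sdiff, mem_union]; grind
  have E2 : ((B \ H) \ R') ∪ (Q ∪ (R' \ L' ∪ ((H \ Q) \ Q' ∪ (L' ∪ Q')))) = B := by
    ext e; simp only [mem_sdiff, mem_union]; grind
  rw [E1, E2] at D8
  exact D8.mono (by omega)

theorem main_dec (d q : ℕ) (hd : 0 < d) (h0 : 0 < Fintype.card V)
    (hn : Fintype.card V ≤ q * d) {A B : Finset (Sym2 V)} (nA : ND A) (nB : ND B)
    (hc : A.card = B.card) (hH : Fintype.card V ^ 2 * (5 * d * Fintype.card V) ≤ A.card * B.card) :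
    Dec (q ^ 4 + 14 * d + 3) A B := by
  obtain ⟨P, hP, Q, hQ, ⟨σ, hσ⟩, hcard⟩ := common nA nB
  have h1 : 5 * d * Fintype.card V ≤ P.card :=
    Nat.le_of_mul_le_mul_left (hH.trans hcard) (pow_pos h0 2)
  have D := with_reserve d q hd h0 hn (nA.image σ) nB (H := Q)
    (by rw [card_image_perm, hc]) (hσ ▸ Finset.image_subset_image hP) hQ
    (by rw [← hσ, card_image_perm]; exact h1)
  have := D.image σ.symm
  rwa [image_inv] at this

end Pool.Agent.H20.UDec
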