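import Pool.Agent.H20.ReDefs
import Pool.Agent.H20.UDec2

namespace Pool.Agent.H20.Re
open Finset Pool.Agent.H20 Pool.Agent.H20.UDec

variable {V : Type} [Fintype V] [DecidableEq V]

def Dc (m : ℕ) (A : Finset (Sym2 V)) : Prop :=
  ∃ E : Fin m → Set (Sym2 V), (∀ i, TwoRegOrEdge (E i)) ∧
    (∀ i j, i ≠ j → Disjoint (E i) (E j)) ∧ ⋃ i, E i = (A : Set (Sym2 V))

theorem Dc.zero : Dc 0 (∅ : Finset (Sym2 V)) := ⟨Fin.elim0, fun i => i.elim0, fun i => i.elim0, by simp⟩

theorem Dc.cons {m : ℕ} {A P : Finset (Sym2 V)} (h : Dc m A) (hP : TwoRegOrEdge (P : Set (Sym2 V)))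
    (hd : Disjoint P A) : Dc (m + 1) (P ∪ A) := by
  obtain ⟨E, h1, h2, h3⟩ := h
  have hs : ∀ i, Disjoint (P : Set (Sym2 V)) (E i) := by
    intro i
    refine Set.disjoint_of_subset_right ?_ (Finset.disjoint_coe.mpr hd)
    rw [← h3]
    exact Set.subset_iUnion E i
  refine ⟨Fin.cons (P : Set (Sym2 V)) E, ?_, ?_, ?_⟩
  · intro i
    refine Fin.cases ?_ (fun i => ?_) i
    · exact hP
    · exact h1 i
  · intro i j
    refine Fin.cases ?_ (fun i => ?_) i <;> refine Fin.cases ?_ (fun j => ?_) j
    · intro h; exact absurd rfl h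
    · intro _; exact hs j
    · intro _; exact (hs i).symm
    · intro h; exact h2 i j fun e => h (by rw [e])
  · ext e
    simp only [Set.mem_iUnion, Fin.exists_fin_succ, Fin.cons_zero, Fin.cons_succ, coe_union,
      Set.mem_union, ← h3]

theorem Dc.edges {m : ℕ} {A : Finset (Sym2 V)} (h : Dc m A) (J : Finset (Sym2 V))
    (hd : Disjoint J A) : Dc (m + J.card) (J ∪ A) := by
  induction J using Finset.induction_on with
  | empty => simpa using h
  | @insert e J he ih =>
    rw [Finset.disjoint_insert_left] at hd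
    rw [card_insert_of_notMem he, Finset.insert_union, Finset.insert_eq]
    exact (ih hd.2).cons (Or.inl ⟨e, by simp⟩) (by simp [he, hd.1])

theorem handshake {S : Finset (Sym2 V)} (h : ND S) : ∑ v, deg S v = 2 * S.card := by
  unfold deg
  simp only [Finset.card_filter]
  rw [Finset.sum_comm, mul_comm, ← smul_eq_mul, ← Finset.sum_const]
  refine Finset.sum_congr rfl fun e he => ?_
  rw [← Finset.card_filter, ← Sym2.card_toFinset_of_not_isDiag e (h e he)]
  congr 1
  ext v
  simp

def outd (A : Finset (V × V)) (v : V) : ℕ := (A.filter fun p => p.1 = v).card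
def ind (A : Finset (V × V)) (v : V) : ℕ := (A.filter fun p => p.2 = v).card
def Anti (A : Finset (V × V)) : Prop := ∀ u v, (u, v) ∈ A → (v, u) ∉ A
def edg (A : Finset (V × V)) : Finset (Sym2 V) := A.image fun p => s(p.1, p.2)

theorem Anti.inj {A : Finset (V × V)} (h : Anti A) {p q : V × V} (hp : p ∈ A) (hq : q ∈ A)
    (e : s(p.1, p.2) = s(q.1, q.2)) : p = q := by
  obtain ⟨a, b⟩ := p
  obtain ⟨c, d⟩ := q
  rcases Sym2.eq_iff.mp e with ⟨h1, h2⟩ | ⟨h1, h2⟩
  · exact Prod.ext h1 h2
  · simp only at h1 h2
    subst h1; subst h2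
    exact absurd hq (h _ _ hp)

theorem Anti.deg {A : Finset (V × V)} (h : Anti A) (v : V) :
    deg (edg A) v = outd A v + ind A v := by
  unfold UDec.deg outd ind edg
  rw [← Finset.card_union_of_disjoint]
  · symm
    refine Finset.card_bij (fun p _ => s(p.1, p.2)) ?_ ?_ ?_
    · intro p hp
      simp only [mem_union, mem_filter] at hp
      refine mem_filter.mpr ⟨mem_image.mpr ⟨p, by tauto, rfl⟩, ?_⟩
      rcases hp with hp | hp <;> simp [← hp.2]
    · intro p hp q hq e
      simp only [mem_union, mem_filter] at hp hq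
      exact h.inj (by tauto) (by tauto) e
    · intro e he
      obtain ⟨h1, h2⟩ := mem_filter.mp he
      obtain ⟨p, hp, rfl⟩ := mem_image.mp h1
      refine ⟨p, ?_, rfl⟩
      simp only [mem_union, mem_filter]
      rcases Sym2.mem_iff.mp h2 with h3 | h3
      · exact Or.inl ⟨hp, h3.symm⟩
      · exact Or.inr ⟨hp, h3.symm⟩
  · rw [Finset.disjoint_left]
    rintro ⟨a, b⟩ h1 h2
    rw [mem_filter] at h1 h2
    have e1 : a = v := h1.2
    have e2 : b = v := h2.2
    subst e1; subst e2
    exact h _ _ h1.1 h1.1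

theorem outd_eq (A : Finset (V × V)) (u : V) : outd A u = ∑ w, if (u, w) ∈ A then 1 else 0 := by
  unfold outd
  rw [← Finset.card_filter]
  refine Finset.card_bij (fun p _ => p.2) ?_ ?_ ?_
  · rintro ⟨a, b⟩ hp
    obtain ⟨h1, rfl⟩ := mem_filter.mp hp
    simpa using h1
  · rintro ⟨a, b⟩ hp ⟨c, d⟩ hq e
    exact Prod.ext ((mem_filter.mp hp).2.trans (mem_filter.mp hq).2.symm) e
  · intro w hw
    exact ⟨(u, w), mem_filter.mpr ⟨(mem_filter.mp hw).2, rfl⟩, rfl⟩

theorem ind_eq (A : Finset (V × V)) (w : V) : ind A w = ∑ u, if (u, w) ∈ A then 1 else 0 := by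
  unfold ind
  rw [← Finset.card_filter]
  refine Finset.card_bij (fun p _ => p.1) ?_ ?_ ?_
  · rintro ⟨a, b⟩ hp
    obtain ⟨h1, rfl⟩ := mem_filter.mp hp
    simpa using h1
  · rintro ⟨a, b⟩ hp ⟨c, d⟩ hq e
    exact Prod.ext e ((mem_filter.mp hp).2.trans (mem_filter.mp hq).2.symm)
  · intro u hu
    exact ⟨(u, w), mem_filter.mpr ⟨(mem_filter.mp hu).2, rfl⟩, rfl⟩

theorem perm_of_matrix (M : V → V → ℕ) (d : ℕ) (hd : 0 < d) (hr : ∀ u, ∑ w, M u w = d)
    (hc : ∀ w, ∑ u, M u w = d) : ∃ σ : Equiv.Perm V, ∀ v, M v (σ v) ≠ 0 := by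
  obtain ⟨f, hf, hm⟩ := (Finset.all_card_le_biUnion_card_iff_exists_injective
    (fun u => univ.filter fun w => M u w ≠ 0)).mp (by
      intro S
      set N := S.biUnion fun u => univ.filter fun w => M u w ≠ 0 with hN
      have h1 : S.card * d = ∑ u ∈ S, ∑ w ∈ N, M u w := by
        rw [← smul_eq_mul, ← Finset.sum_const]
        refine Finset.sum_congr rfl fun u hu => ?_
        rw [← hr u]
        symm
        refine Finset.sum_subset (subset_univ _) fun w _ hw => ?_
        by_contra hne
        exact hw (mem_biUnion.mpr ⟨u, hu, mem_filter.mpr ⟨mem_univ _, hne⟩⟩)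
      have h2 : ∑ u ∈ S, ∑ w ∈ N, M u w ≤ N.card * d := by
        rw [Finset.sum_comm, ← smul_eq_mul]
        refine Finset.sum_le_card_nsmul _ _ _ fun w _ => ?_
        rw [← hc w]
        exact Finset.sum_le_sum_of_subset (subset_univ _)
      exact Nat.le_of_mul_le_mul_right (h1 ▸ h2) hd)
  exact ⟨Equiv.ofBijective f (Finite.injective_iff_bijective.mp hf),
    fun v => (mem_filter.mp (hm v)).2⟩

theorem dec_arcs : ∀ (k : ℕ) (A : Finset (V × V)), Anti A → (∀ v, outd A v = ind A v) →
    (∀ v, outd A v ≤ k) → ∃ m ≤ k, Dc m (edg A) := by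
  intro k
  induction k with
  | zero =>
    intro A _ _ h
    have : A = ∅ := by
      apply Finset.eq_empty_of_forall_notMem
      intro p hp
      have h1 := h p.1
      have : 0 < outd A p.1 := Finset.card_pos.mpr ⟨p, mem_filter.mpr ⟨hp, rfl⟩⟩
      omega
    subst this
    exact ⟨0, le_rfl, Dc.zero⟩
  | succ k ih =>
    intro A hA hb hk
    obtain ⟨σ, hσ⟩ := perm_of_matrix
      (fun u w => (if (u, w) ∈ A then 1 else 0) + if u = w then k + 1 - outd A u else 0) (k + 1)
      (by omega)
      (fun u => by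
        rw [Finset.sum_add_distrib, ← outd_eq, Finset.sum_ite_eq]
        have := hk u
        simp only [mem_univ, if_true]; omega)
      (fun w => by
        rw [Finset.sum_add_distrib, ← ind_eq, Finset.sum_ite_eq', ← hb]
        have := hk w
        simp only [mem_univ, if_true]; omega)
    have h1 : ∀ v, (v, σ v) ∈ A ∨ (σ v = v ∧ outd A v ≤ k) := by
      intro v
      have := hσ v
      by_cases h : (v, σ v) ∈ A
      · exact Or.inl h
      · right
        by_cases h' : v = σ v
        · simp only [if_neg h, if_pos h'] at this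
          exact ⟨h'.symm, by omega⟩
        · simp [h, h'] at this
    have h2 : ∀ v, (v, σ v) ∈ A ↔ σ v ≠ v := by
      intro v
      constructor
      · intro h e
        rw [e] at h
        exact hA _ _ h h
      · intro h
        exact (h1 v).resolve_right fun h' => h h'.1
    let B := A.filter fun p => p.2 = σ p.1
    have hBA : B ⊆ A := filter_subset _ _
    have aB : Anti B := fun u v h h' => hA u v (hBA h) (hBA h')
    have aC : Anti (A \ B) := fun u v h h' => hA u v (sdiff_subset h) (sdiff_subset h')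
    have oB : ∀ v, outd B v = if σ v = v then 0 else 1 := by
      intro v
      rw [outd_eq]
      have : ∀ w, (v, w) ∈ B ↔ (w = σ v ∧ σ v ≠ v) := by
        intro w
        simp only [B, mem_filter]
        constructor
        · rintro ⟨h, rfl⟩; exact ⟨rfl, (h2 v).mp h⟩
        · rintro ⟨rfl, h⟩; exact ⟨(h2 v).mpr h, rfl⟩
      simp only [this]
      by_cases h : σ v = v <;> simp [h]
    have iB : ∀ v, ind B v = if σ v = v then 0 else 1 := by
      intro v
      rw [ind_eq]
      have : ∀ u, (u, v) ∈ B ↔ (u = σ.symm v ∧ σ v ≠ v) := by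
        intro u
        simp only [B, mem_filter]
        constructor
        · rintro ⟨h, rfl⟩
          exact ⟨by simp, fun e => (h2 u).mp h (σ.injective e)⟩
        · rintro ⟨rfl, h⟩
          refine ⟨?_, by simp⟩
          have := (h2 (σ.symm v)).mpr (by
            rw [Equiv.apply_symm_apply]
            intro e
            apply h
            conv_lhs => rw [e]
            simp)
          simpa using this
      simp only [this]
      by_cases h : σ v = v <;> simp [h]
    have oC : ∀ v, outd (A \ B) v + outd B v = outd A v := by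
      intro v
      unfold outd
      rw [← Finset.card_union_of_disjoint (Finset.disjoint_filter_filter sdiff_disjoint),
        ← Finset.filter_union, Finset.sdiff_union_of_subset hBA]
    have iC : ∀ v, ind (A \ B) v + ind B v = ind A v := by
      intro v
      unfold ind
      rw [← Finset.card_union_of_disjoint (Finset.disjoint_filter_filter sdiff_disjoint),
        ← Finset.filter_union, Finset.sdiff_union_of_subset hBA]
    obtain ⟨m, hm, hD⟩ := ih (A \ B) aC
      (fun v => by have := oC v; have := iC v; have := hb v; rw [oB] at *; rw [iB] at *; omega)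
      (fun v => by
        have a1 := oC v
        have a2 := hk v
        rw [oB] at a1
        by_cases h : σ v = v
        · rcases h1 v with h3 | h3
          · exact absurd h ((h2 v).mp h3)
          · omega
        · rw [if_neg h] at a1; omega)
    have hU : edg B ∪ edg (A \ B) = edg A := by
      unfold edg
      rw [← Finset.image_union, Finset.union_sdiff_of_subset hBA]
    rcases (edg B).eq_empty_or_nonempty with h0 | h0
    · rw [h0, Finset.empty_union] at hU
      exact ⟨m, by omega, hU ▸ hD⟩
    · refine ⟨m + 1, by omega, hU ▸ hD.cons (Or.inr ⟨h0, ?_⟩) ?_⟩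
      · rintro v ⟨e, he, hv⟩
        have a1 : {e | e ∈ (edg B : Set (Sym2 V)) ∧ v ∈ e}
            = ((edg B).filter (fun e => v ∈ e) : Finset (Sym2 V)) := by
          ext e; simp
        rw [a1, Set.ncard_coe_finset]
        have a2 := aB.deg v
        have a3 : 0 < deg (edg B) v := Finset.card_pos.mpr ⟨e, mem_filter.mpr ⟨he, hv⟩⟩
        rw [oB, iB] at a2
        change deg (edg B) v = 2
        split_ifs at a2 <;> omega
      · rw [Finset.disjoint_left]
        intro e h3 h4
        obtain ⟨p, hp, rfl⟩ := mem_image.mp h3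
        obtain ⟨q, hq, e⟩ := mem_image.mp h4
        have := hA.inj (sdiff_subset hq) (hBA hp) e
        subst this
        exact (mem_sdiff.mp hq).2 hp

theorem orient (H : Finset (Sym2 V)) (nH : ND H) (hev : ∀ v, Even (deg H v)) :
    ∃ A : Finset (V × V), Anti A ∧ edg A = H ∧ ∀ v, outd A v = ind A v := by
  let slots : V → Finset (V × ℕ) := fun v => (range (deg H v / 2)).image fun i => (v, i)
  have hs : ∀ v, (slots v).card = deg H v / 2 := fun v => by
    rw [Finset.card_image_of_injective _ (fun a b h => (Prod.ext_iff.mp h).2), card_range]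
  obtain ⟨f, hf, hm⟩ := (Finset.all_card_le_biUnion_card_iff_exists_injective
    (fun e : H => (univ.filter fun v => v ∈ e.1).biUnion slots)).mp (by
      intro S
      let S' := S.image Subtype.val
      have hS' : S' ⊆ H := by
        intro e he
        obtain ⟨x, _, rfl⟩ := mem_image.mp he
        exact x.2
      let U := univ.filter fun v => ∃ e ∈ S', v ∈ e
      have e1 : (S.biUnion fun e : H => (univ.filter fun v => v ∈ e.1).biUnion slots)
          = U.biUnion slots := by
        ext x
        simp only [mem_biUnion, mem_filter, mem_univ, true_and, U, S', mem_image]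
        constructor
        · rintro ⟨e, he, v, hv, hx⟩
          exact ⟨v, ⟨e.1, ⟨e, he, rfl⟩, hv⟩, hx⟩
        · rintro ⟨v, ⟨_, ⟨e, he, rfl⟩, hv⟩, hx⟩
          exact ⟨e, he, v, hv, hx⟩
      rw [e1, Finset.card_biUnion]
      · have a1 := handshake (nH.mono hS')
        have a2 : S'.card = S.card := Finset.card_image_of_injective _ Subtype.val_injective
        have a3 : ∑ v, deg S' v = ∑ v ∈ U, deg S' v := by
          symm
          refine Finset.sum_subset (subset_univ _) fun v _ hv => ?_
          unfold deg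
          rw [Finset.card_eq_zero, Finset.filter_eq_empty_iff]
          intro e he h
          exact hv (mem_filter.mpr ⟨mem_univ _, e, he, h⟩)
        have a4 : ∑ v ∈ U, deg S' v ≤ ∑ v ∈ U, 2 * (slots v).card := by
          refine Finset.sum_le_sum fun v _ => ?_
          have := deg_mono hS' v
          obtain ⟨r, hr⟩ := hev v
          rw [hs]; omega
        rw [← Finset.mul_sum] at a4
        omega
      · intro u _ v _ hne
        rw [Function.onFun, Finset.disjoint_left]
        intro x hx hx'
        obtain ⟨i, _, rfl⟩ := mem_image.mp hx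
        obtain ⟨j, _, e⟩ := mem_image.mp hx'
        exact hne (Prod.ext_iff.mp e).1.symm)
  have hf1 : ∀ e : H, (f e).1 ∈ e.1 ∧ (f e).2 < deg H (f e).1 / 2 := by
    intro e
    obtain ⟨v, hv, hx⟩ := mem_biUnion.mp (hm e)
    obtain ⟨i, hi, e⟩ := mem_image.mp hx
    rw [← e]
    exact ⟨(mem_filter.mp hv).2, mem_range.mp hi⟩
  let A : Finset (V × V) := univ.filter fun p => ∃ h : s(p.1, p.2) ∈ H, (f ⟨_, h⟩).1 = p.1
  have hA : Anti A := by
    intro u v h h'
    obtain ⟨g, e⟩ := (mem_filter.mp h).2
    obtain ⟨g', e'⟩ := (mem_filter.mp h').2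
    have : (⟨s(u, v), g⟩ : H) = ⟨s(v, u), g'⟩ := Subtype.ext Sym2.eq_swap
    simp only at e e'
    rw [this, e'] at e
    exact nH _ g (Sym2.mk_isDiag_iff.mpr e.symm)
  have hE : edg A = H := by
    ext e
    simp only [edg, mem_image]
    constructor
    · rintro ⟨p, hp, rfl⟩
      exact (mem_filter.mp hp).2.1
    · intro he
      have h1 := (hf1 ⟨e, he⟩).1
      have h2 := Sym2.other_spec h1
      refine ⟨((f ⟨e, he⟩).1, Sym2.Mem.other h1), mem_filter.mpr ⟨mem_univ _, by
        simp only [h2]; exact he, ?_⟩, h2⟩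
      congr 2
      exact Subtype.ext h2
  have ho : ∀ v, outd A v ≤ deg H v / 2 := by
    intro v
    unfold outd
    rw [← hs]
    let g : V × V → V × ℕ := fun p => if h : s(p.1, p.2) ∈ H then f ⟨_, h⟩ else (p.1, 0)
    refine Finset.card_le_card_of_injOn g ?_ ?_
    · intro p hp
      obtain ⟨h1, h2⟩ := mem_filter.mp hp
      obtain ⟨h3, e⟩ := (mem_filter.mp h1).2
      simp only [g, dif_pos h3, slots, coe_image, coe_range, Set.mem_image, Set.mem_Iio]
      refine ⟨(f ⟨_, h3⟩).2, ?_, ?_⟩
      · have := (hf1 ⟨_, h3⟩).2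
        rwa [e.trans h2] at this
      · exact Prod.ext (e.trans h2).symm rfl
    · intro p hp q hq e
      have hp1 := (mem_filter.mp hp).1
      have hq1 := (mem_filter.mp hq).1
      obtain ⟨h3, _⟩ := (mem_filter.mp hp1).2
      obtain ⟨h4, _⟩ := (mem_filter.mp hq1).2
      simp only [g, dif_pos h3, dif_pos h4] at e
      exact hA.inj hp1 hq1 (congrArg Subtype.val (hf e))
  refine ⟨A, hA, hE, ?_⟩
  have hle : ∀ v, outd A v ≤ ind A v := by
    intro v
    have := hA.deg v
    have := ho v
    rw [hE] at *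
    omega
  have hsum : ∑ v, outd A v = ∑ v, ind A v := by
    simp only [outd_eq, ind_eq]
    exact Finset.sum_comm
  intro v
  exact (Finset.sum_eq_sum_iff_of_le fun v _ => hle v).mp hsum v (mem_univ _)

theorem dec_even (k : ℕ) (H : Finset (Sym2 V)) (nH : ND H) (hev : ∀ v, Even (deg H v))
    (hk : ∀ v, deg H v ≤ 2 * k) : ∃ m ≤ k, Dc m H := by
  obtain ⟨A, hA, rfl, hb⟩ := orient H nH hev
  refine dec_arcs k A hA hb fun v => ?_
  have := hA.deg v
  have := hb v
  have := hk v
  omega

end Pool.Agent.H20.Re
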