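import Pool.Agent.H20.Re

namespace Pool.Agent.H20.Re
open Finset Pool.Agent.H20 Pool.Agent.H20.UDec

variable {V : Type} [Fintype V] [DecidableEq V]

def Ev (D : Finset (Sym2 V)) : Prop := ∀ v, Even (deg D v)

theorem deg_symmDiff (A B : Finset (Sym2 V)) (v : V) :
    deg (symmDiff A B) v + 2 * deg (A ∩ B) v = deg A v + deg B v := by
  unfold deg
  simp only [Finset.card_filter]
  have key : ∀ S : Finset (Sym2 V), ∑ e ∈ S, (if v ∈ e then 1 else 0)
      = ∑ e, if e ∈ S then (if v ∈ e then 1 else 0) else 0 := by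
    intro S
    rw [← Finset.sum_filter]
    simp
  rw [key, key (A ∩ B), key A, key B, Finset.mul_sum, ← Finset.sum_add_distrib,
    ← Finset.sum_add_distrib]
  refine Finset.sum_congr rfl fun e _ => ?_
  simp only [mem_symmDiff, mem_inter]
  by_cases h1 : e ∈ A <;> by_cases h2 : e ∈ B <;> by_cases h3 : v ∈ e <;> simp [h1, h2, h3]

theorem dep (F : Finset (Sym2 V)) (nF : ND F) (v0 : V) (h : Fintype.card V ≤ F.card) :
    ∃ D ⊆ F, D.Nonempty ∧ Ev D := by
  let φ : Finset (Sym2 V) → Finset V := fun D => (univ.erase v0).filter fun v => Odd (deg D v)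
  have hlt : (powerset (univ.erase v0)).card < (powerset F).card := by
    rw [card_powerset, card_powerset, card_erase_of_mem (mem_univ _), card_univ]
    have : 0 < Fintype.card V := Fintype.card_pos_iff.mpr ⟨v0⟩
    exact Nat.pow_lt_pow_right (by norm_num) (by omega)
  obtain ⟨A, hA, B, hB, hne, e⟩ := Finset.exists_ne_map_eq_of_card_lt_of_maps_to hlt
    (f := φ) (fun D _ => mem_powerset.mpr (filter_subset _ _))
  have hsub : symmDiff A B ⊆ F := by
    intro x hx
    rcases mem_symmDiff.mp hx with h | h
    · exact mem_powerset.mp hA h.1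
    · exact mem_powerset.mp hB h.1
  have h1 : ∀ v, v ≠ v0 → Even (deg (symmDiff A B) v) := by
    intro v hv
    have h2 : Odd (deg A v) ↔ Odd (deg B v) := by
      have := Finset.ext_iff.mp e v
      simpa [φ, hv] using this
    have h3 := deg_symmDiff A B v
    rw [Nat.odd_iff, Nat.odd_iff] at h2
    rw [Nat.even_iff]
    omega
  refine ⟨symmDiff A B, hsub, Finset.nonempty_iff_ne_empty.mpr (by simpa using hne), fun v => ?_⟩
  by_cases hv : v = v0
  · subst hv
    have h2 := handshake (nF.mono hsub)
    rw [← Finset.add_sum_erase _ _ (mem_univ v)] at h2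
    have h3 : Even (∑ x ∈ univ.erase v, deg (symmDiff A B) x) :=
      Finset.even_sum _ fun x hx => h1 x (mem_erase.mp hx).1
    rw [Nat.even_iff] at *
    omega
  · exact h1 v hv

theorem deg_insert {A : Finset (Sym2 V)} {e : Sym2 V} (h : e ∉ A) (v : V) :
    deg (insert e A) v = deg A v + if v ∈ e then 1 else 0 := by
  unfold deg
  rw [Finset.filter_insert]
  split_ifs with hv
  · rw [card_insert_of_notMem (fun h' => h (mem_filter.mp h').1)]
  · rfl

def pth (q : ℕ → V) (i : ℕ) : Finset (Sym2 V) := (range i).image fun l => s(q l, q (l + 1))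

theorem pth_prop (q : ℕ → V) (j : ℕ) (hq : ∀ a ≤ j, ∀ b ≤ j, q a = q b → a = b) : ∀ i ≤ j,
    (pth q i).card = i ∧
    (∀ v, Even (deg (pth q i) v + (if v = q 0 then 1 else 0) + if v = q i then 1 else 0)) ∧
    ∀ D ⊆ pth q i, Ev D → D = ∅ := by
  intro i
  induction i with
  | zero =>
    intro _
    refine ⟨by simp [pth], fun v => ?_, by simp [pth]⟩
    simp only [pth, range_zero, image_empty, deg, filter_empty, card_empty]
    split_ifs <;> decide
  | succ i ih =>
    intro hi
    obtain ⟨h1, h2, h3⟩ := ih (by omega)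
    have e : pth q (i + 1) = insert s(q i, q (i + 1)) (pth q i) := by
      simp [pth, Finset.range_add_one]
    have hn : ∀ x ∈ pth q i, q (i + 1) ∉ x := by
      intro x hx hm
      obtain ⟨l, hl, rfl⟩ := mem_image.mp hx
      rw [mem_range] at hl
      rcases Sym2.mem_iff.mp hm with h | h
      · have := hq _ hi _ (by omega) h; omega
      · have := hq _ hi _ (by omega) h; omega
    have hn' : s(q i, q (i + 1)) ∉ pth q i := fun h => hn _ h (by simp)
    have hne : q i ≠ q (i + 1) := fun h => by have := hq _ (by omega) _ hi h; omega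
    refine ⟨by rw [e, card_insert_of_notMem hn', h1], fun v => ?_, ?_⟩
    · rw [e, deg_insert hn']
      have := h2 v
      simp only [Sym2.mem_iff]
      rw [Nat.even_iff] at *
      by_cases a1 : v = q i
      · have a2 : v ≠ q (i + 1) := a1 ▸ hne
        rw [if_pos a1] at this
        rw [if_pos (Or.inl a1), if_neg a2]
        omega
      · rw [if_neg a1] at this
        by_cases a2 : v = q (i + 1)
        · rw [if_pos (Or.inr a2), if_pos a2]; omega
        · rw [if_neg (by tauto), if_neg a2]; omega
    · intro D hD hE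
      rw [e] at hD
      by_cases hm : s(q i, q (i + 1)) ∈ D
      · exfalso
        have : deg D (q (i + 1)) = 1 := by
          unfold deg
          rw [Finset.card_eq_one]
          refine ⟨s(q i, q (i + 1)), ?_⟩
          ext x
          simp only [mem_filter, mem_singleton]
          constructor
          · rintro ⟨a1, a2⟩
            rcases mem_insert.mp (hD a1) with a3 | a3
            · exact a3
            · exact absurd a2 (hn x a3)
          · rintro rfl
            exact ⟨hm, by simp⟩
        have h4 := hE (q (i + 1))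
        rw [this] at h4
        exact absurd h4 (by decide)
      · exact h3 D ((Finset.subset_insert_iff_of_notMem hm).mp hD) hE

theorem long_cycle (G : SimpleGraph V) [DecidableRel G.Adj] [Nonempty V] (d : ℕ) (hd : 2 ≤ d)
    (h : ∀ v, d ≤ G.degree v) : ∃ P : Finset (Sym2 V), ∃ e0, e0 ∉ P ∧
      insert e0 P ⊆ G.edgeFinset ∧ d ≤ P.card ∧ Ev (insert e0 P) ∧ ∀ D ⊆ P, Ev D → D = ∅ := by
  obtain ⟨u, v, p, hp, hmax⟩ := SimpleGraph.Walk.exists_isPath_forall_isPath_length_le_length G
  have hin : ∀ w, G.Adj u w → ∃ i, 1 ≤ i ∧ i ≤ p.length ∧ p.getVert i = w := by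
    intro w hw
    have : w ∈ p.support := by
      by_contra hn
      have := hmax w v (SimpleGraph.Walk.cons hw.symm p) (hp.cons hn)
      simp at this
    obtain ⟨i, h1, h2⟩ := SimpleGraph.Walk.mem_support_iff_exists_getVert.mp this
    refine ⟨i, ?_, h2, h1⟩
    rcases Nat.eq_zero_or_pos i with h0 | h0
    · subst h0
      rw [SimpleGraph.Walk.getVert_zero] at h1
      exact absurd h1 hw.ne
    · exact h0
  let I := (Icc 1 p.length).filter fun i => G.Adj u (p.getVert i)
  have hI : d ≤ I.card := by
    refine (h u).trans ?_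
    rw [← SimpleGraph.card_neighborFinset_eq_degree]
    refine le_trans (Finset.card_le_card ?_) (Finset.card_image_le (f := p.getVert))
    intro w hw
    obtain ⟨i, h1, h2, h3⟩ := hin w (by simpa using hw)
    exact mem_image.mpr ⟨i, mem_filter.mpr ⟨mem_Icc.mpr ⟨h1, h2⟩, by rw [h3]; simpa using hw⟩, h3⟩
  have hne : I.Nonempty := Finset.card_pos.mp (by omega)
  set j := I.max' hne with hj
  have hjI : j ∈ I := Finset.max'_mem _ _
  have hdj : d ≤ j := by
    have : I ⊆ Icc 1 j := fun i hi =>
      mem_Icc.mpr ⟨(mem_Icc.mp (mem_filter.mp hi).1).1, Finset.le_max' _ _ hi⟩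
    have := Finset.card_le_card this
    simp at this
    omega
  obtain ⟨hj1, hj2⟩ := mem_filter.mp hjI
  rw [mem_Icc] at hj1
  have hq : ∀ a ≤ j, ∀ b ≤ j, p.getVert a = p.getVert b → a = b := fun a ha b hb e =>
    hp.getVert_injOn (by simp; omega) (by simp; omega) e
  obtain ⟨h1, h2, h3⟩ := pth_prop p.getVert j hq j le_rfl
  have hn : s(p.getVert 0, p.getVert j) ∉ pth p.getVert j := by
    intro hm
    obtain ⟨l, hl, e⟩ := mem_image.mp hm
    rw [mem_range] at hl
    rcases Sym2.eq_iff.mp e with ⟨a1, a2⟩ | ⟨a1, a2⟩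
    · have := hq _ (by omega) _ (by omega) a1
      have := hq _ (by omega) _ (by omega) a2
      omega
    · have := hq _ (by omega) _ (by omega) a1
      omega
  refine ⟨pth p.getVert j, s(p.getVert 0, p.getVert j), hn, ?_, by omega, fun x => ?_, h3⟩
  · intro e he
    rw [SimpleGraph.mem_edgeFinset]
    rcases mem_insert.mp he with rfl | he
    · rw [SimpleGraph.Walk.getVert_zero]; exact hj2
    · obtain ⟨l, hl, rfl⟩ := mem_image.mp he
      exact p.adj_getVert_succ (by rw [mem_range] at hl; omega)
  · rw [deg_insert hn]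
    have := h2 x
    have hne : p.getVert 0 ≠ p.getVert j := fun e => by have := hq _ (by omega) _ le_rfl e; omega
    simp only [Sym2.mem_iff]
    rw [Nat.even_iff] at *
    by_cases a1 : x = p.getVert 0
    · have a2 : x ≠ p.getVert j := a1 ▸ hne
      rw [if_pos a1, if_neg a2] at this
      rw [if_pos (Or.inl a1)]
      omega
    · rw [if_neg a1] at this
      by_cases a2 : x = p.getVert j
      · rw [if_pos a2] at this; rw [if_pos (Or.inr a2)]; omega
      · rw [if_neg a2] at this; rw [if_neg (by tauto)]; omega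

theorem small_join (E P : Finset (Sym2 V)) (e0 : Sym2 V) (nE : ND E) (hodd : ∀ v, Odd (deg E v))
    (v0 : V) (h0 : e0 ∉ P) (hC : insert e0 P ⊆ E) (hEv : Ev (insert e0 P))
    (hac : ∀ D ⊆ P, Ev D → D = ∅) :
    ∃ J ⊆ E, (∀ v, Odd (deg J v)) ∧ 2 * J.card + P.card + 1 ≤ 2 * Fintype.card V := by
  set C := insert e0 P with hCdef
  have flip : ∀ J D : Finset (Sym2 V), J ⊆ E → D ⊆ E → (∀ v, Odd (deg J v)) → Ev D →
      symmDiff J D ⊆ E ∧ ∀ v, Odd (deg (symmDiff J D) v) := by
    intro J D hJ hD h1 h2
    refine ⟨fun x hx => ?_, fun v => ?_⟩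
    · rcases mem_symmDiff.mp hx with h | h
      · exact hJ h.1
      · exact hD h.1
    · have a1 := deg_symmDiff J D v
      have a2 := h1 v
      have a3 := h2 v
      rw [Nat.odd_iff] at *
      rw [Nat.even_iff] at a3
      omega
  obtain ⟨J, hJ, hmin⟩ := Finset.exists_min_image
    ((powerset E).filter fun J => ∀ v, Odd (deg J v)) (fun J => (J \ C).card)
    ⟨E, mem_filter.mpr ⟨mem_powerset_self _, hodd⟩⟩
  simp only [mem_filter, mem_powerset] at hJ hmin
  have hb : (J \ C).card + P.card < Fintype.card V := by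
    by_contra hge
    have hd : Disjoint (J \ C) P :=
      Finset.disjoint_left.mpr fun x hx hp => (mem_sdiff.mp hx).2 (mem_insert_of_mem hp)
    have hF : (J \ C) ∪ P ⊆ E :=
      union_subset (sdiff_subset.trans hJ.1) ((subset_insert _ _).trans hC)
    obtain ⟨D, hD, hne, hE⟩ := dep ((J \ C) ∪ P) (nE.mono hF) v0
      (by rw [card_union_of_disjoint hd]; omega)
    have a1 := hmin _ (flip J D hJ.1 (hD.trans hF) hJ.2 hE)
    have a2 : ¬ D ⊆ P := fun h => hne.ne_empty (hac D h hE)
    obtain ⟨x, hx, hxP⟩ := Finset.not_subset.mp a2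
    have hxJ : x ∈ J \ C := (mem_union.mp (hD hx)).resolve_right hxP
    have a3 : symmDiff J D \ C ⊂ J \ C := by
      refine Finset.ssubset_iff_subset_ne.mpr ⟨?_, ?_⟩
      · intro y hy
        obtain ⟨b1, b2⟩ := mem_sdiff.mp hy
        rcases mem_symmDiff.mp b1 with b | b
        · exact mem_sdiff.mpr ⟨b.1, b2⟩
        · rcases mem_union.mp (hD b.1) with b3 | b3
          · exact b3
          · exact absurd (mem_insert_of_mem b3) b2
      · intro e
        rw [← e] at hxJ
        have := (mem_sdiff.mp hxJ).1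
        rw [← e] at a1
        rcases mem_symmDiff.mp this with b | b
        · exact b.2 hx
        · apply b.2
          rw [e] at hxJ
          exact (mem_sdiff.mp hxJ).1
    have := Finset.card_lt_card a3
    omega
  have c1 : J.card = (J \ C).card + (J ∩ C).card := (Finset.card_sdiff_add_card_inter J C).symm
  have c2 : (symmDiff J C).card = (J \ C).card + (C \ J).card := by
    rw [symmDiff_def, Finset.sup_eq_union, card_union_of_disjoint disjoint_sdiff_sdiff]
  have c3 : C.card = (C \ J).card + (J ∩ C).card := by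
    rw [inter_comm]; exact (Finset.card_sdiff_add_card_inter C J).symm
  have c4 : C.card = P.card + 1 := card_insert_of_notMem h0
  rcases le_total (J ∩ C).card (C \ J).card with h | h
  · exact ⟨J, hJ.1, hJ.2, by omega⟩
  · obtain ⟨a1, a2⟩ := flip J C hJ.1 hC hJ.2 hEv
    exact ⟨_, a1, a2, by omega⟩

theorem main (G : SimpleGraph V) [DecidableRel G.Adj] [Nonempty V] (k : ℕ)
    (h : G.IsRegularOfDegree (2 * k + 1)) : reNum G + 1 ≤ Fintype.card V := by
  have nE : ND G.edgeFinset := fun e he =>
    G.not_isDiag_of_mem_edgeSet (SimpleGraph.mem_edgeFinset.mp he)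
  have hdeg : ∀ v, deg G.edgeFinset v = 2 * k + 1 := by
    intro v
    rw [← h.degree_eq v, ← SimpleGraph.card_incidenceFinset_eq_degree,
      SimpleGraph.incidenceFinset_eq_filter]
    rfl
  have fin : ∀ m, Dc m G.edgeFinset → reNum G ≤ m := by
    intro m hm
    apply Nat.sInf_le
    rw [← SimpleGraph.coe_edgeFinset]
    exact hm
  rcases Nat.eq_zero_or_pos k with rfl | hk
  · have a1 := handshake nE
    simp only [hdeg, sum_const, card_univ, smul_eq_mul] at a1
    have a2 := fin _ (by simpa using Dc.zero.edges G.edgeFinset (by simp))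
    have a3 : 0 < Fintype.card V := Fintype.card_pos
    omega
  · obtain ⟨P, e0, h1, h2, h3, h4, h5⟩ := long_cycle G (2 * k + 1) (by omega)
      fun v => (h.degree_eq v).ge
    obtain ⟨J, hJ, hodd, hc⟩ := small_join G.edgeFinset P e0 nE
      (fun v => by rw [hdeg]; exact ⟨k, rfl⟩) (Classical.arbitrary V) h1 h2 h4 h5
    have hd : ∀ v, deg (G.edgeFinset \ J) v + deg J v = 2 * k + 1 := by
      intro v
      rw [← hdeg v]
      unfold deg
      rw [← Finset.card_union_of_disjoint (Finset.disjoint_filter_filter sdiff_disjoint),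
        ← Finset.filter_union, Finset.sdiff_union_of_subset hJ]
    obtain ⟨m, hm, hD⟩ := dec_even k (G.edgeFinset \ J) (nE.mono sdiff_subset)
      (fun v => by
        have a1 := hd v
        have a2 := hodd v
        rw [Nat.odd_iff] at a2
        rw [Nat.even_iff]
        omega)
      (fun v => by
        have a1 := hd v
        have a2 := hodd v
        rw [Nat.odd_iff] at a2
        omega)
    have a1 := hD.edges J disjoint_sdiff
    rw [Finset.union_sdiff_of_subset hJ] at a1
    have := fin _ a1
    omega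

end Pool.Agent.H20.Re
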