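import Mathlib

namespace Pool.Agent.H20

/-- The edge set `F` is a single edge, or spans a 2-regular graph: it is nonempty and every vertex
incident to an edge of `F` lies on exactly two edges of `F`. -/
def TwoRegOrEdge {V : Type} (F : Set (Sym2 V)) : Prop :=
  (∃ e, F = {e}) ∨ (F.Nonempty ∧ ∀ v, (∃ e ∈ F, v ∈ e) → {e | e ∈ F ∧ v ∈ e}.ncard = 2)

/-- The least number of parts in a partition of the edge set of `G` into 2-regular graphs and
single edges. -/
noncomputable def reNum {V : Type} (G : SimpleGraph V) : ℕ :=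
  sInf {m | ∃ E : Fin m → Set (Sym2 V), (∀ i, TwoRegOrEdge (E i)) ∧
    (∀ i j, i ≠ j → Disjoint (E i) (E j)) ∧ ⋃ i, E i = G.edgeSet}

end Pool.Agent.H20
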