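import Mathlib

namespace Pool.Agent.H20

theorem rooted {V : Type} (T : SimpleGraph V) (hT : T.IsTree) (r : V) :
    ∃ par : V → V, (∀ z, z ≠ r → T.Adj z (par z) ∧ T.dist r z = T.dist r (par z) + 1) ∧
      ∀ z w, T.Adj z w → (z ≠ r ∧ w = par z) ∨ (w ≠ r ∧ z = par w) := by
  choose P hP hl using fun z => hT.connected.exists_path_of_dist r z
  have key : ∀ z w, T.Adj z w → T.dist r z = T.dist r w + 1 → z ≠ r ∧ w = (P z).penultimate := by
    intro z w h hd
    refine ⟨?_, ?_⟩
    · rintro rfl
      simp at hd
    · have h1 : z ∉ (P w).support := by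
        intro hz
        have := hT.isAcyclic.path_concat (hP z) (hP w) h hz
        have h2 := congrArg SimpleGraph.Walk.length this
        rw [SimpleGraph.Walk.length_concat, hl, hl] at h2
        omega
      exact hT.isAcyclic.eq_penultimate_of_adj_end (hP z) h
        (hT.isAcyclic.mem_support_of_ne_mem_support_of_adj_of_isPath (hP z) (hP w) h h1)
  refine ⟨fun z => (P z).penultimate, ?_, ?_⟩
  · intro z hz
    have hn : ¬ (P z).Nil := SimpleGraph.Walk.not_nil_of_ne (Ne.symm hz)
    have ha : T.Adj (P z).penultimate z := SimpleGraph.Walk.adj_penultimate hn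
    refine ⟨ha.symm, ?_⟩
    have := hT.isAcyclic.path_concat (hP (P z).penultimate) (hP z) ha
      (SimpleGraph.Walk.getVert_mem_support _ _)
    have h2 := congrArg SimpleGraph.Walk.length this
    rwa [SimpleGraph.Walk.length_concat, hl, hl] at h2
  · intro z w h
    rcases hT.dist_eq_dist_add_one_of_adj r h with h1 | h1
    · exact Or.inl (key z w h h1)
    · exact Or.inr (key w z h.symm h1)

end Pool.Agent.H20
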