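import Pool.Agent.H20.SJDefs

namespace Pool.Agent.H20.SJ
open Pool.Agent.H20 Finset

section core
variable {X : Type} [Fintype X] [DecidableEq X] {N : ℕ} (f : X × Bool → X × Bool → Fin N)

def ng (p : X × Bool) : X × Bool := (p.1, !p.2)

@[simp] theorem ng_ng (p : X × Bool) : ng (ng p) = p := by simp [ng]
@[simp] theorem ng_fst (p : X × Bool) : (ng p).1 = p.1 := rfl

def C (p : X × Bool) : Finset (Fin N) := (univ.filter fun q => q.1 ≠ p.1).image (f p)
def T (p : X × Bool) : Finset (Fin N) := C f p \ C f (ng p)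
def U (p : X × Bool) : Finset (Fin N) :=
  (univ.filter fun q => q.1 ≠ p.1 ∧ (f p q ∉ C f (ng p) ∨ Disjoint (T f p) (T f q))).image (f p)

theorem mem_C {p : X × Bool} {c : Fin N} : c ∈ C f p ↔ ∃ q : X × Bool, q.1 ≠ p.1 ∧ f p q = c := by
  simp only [C, mem_image, mem_filter, mem_univ, true_and]

theorem mem_U {p : X × Bool} {c : Fin N} : c ∈ U f p ↔ ∃ q : X × Bool, (q.1 ≠ p.1 ∧
    (f p q ∉ C f (ng p) ∨ Disjoint (T f p) (T f q))) ∧ f p q = c := by
  simp only [U, mem_image, mem_filter, mem_univ, true_and]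

theorem T_U (p : X × Bool) : T f p ⊆ U f p := by
  intro c hc
  rw [T, mem_sdiff, mem_C] at hc
  obtain ⟨⟨q, hq, rfl⟩, h⟩ := hc
  exact (mem_U f).2 ⟨q, ⟨hq, Or.inl h⟩, rfl⟩

theorem U_C (p : X × Bool) : U f p ⊆ C f p := by
  intro c hc
  obtain ⟨q, ⟨hq, _⟩, rfl⟩ := (mem_U f).1 hc
  exact (mem_C f).2 ⟨q, hq, rfl⟩

theorem T_ng (p : X × Bool) : Disjoint (T f p) (T f (ng p)) := by
  rw [disjoint_left]
  intro c h1 h2
  rw [T, mem_sdiff] at h1 h2
  exact h1.2 h2.1

def Good (x : X) : Prop := ∀ a, N < 3 * (T f (x, a)).card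

variable (hs : ∀ p q : X × Bool, p.1 ≠ q.1 → f p q = f q p)
  (hH : ∀ p q r : X × Bool, q.1 ≠ p.1 → r.1 ≠ p.1 → f p q = f (ng p) r → q = r)
include hs hH

theorem anti {p r : X × Bool} (hp : Good f p.1) (hr : Good f r.1) (hne : p ≠ r) :
    ¬ U f p ⊆ U f r := by
  intro hsub
  have gp : N < 3 * (T f p).card := hp p.2
  have gr : N < 3 * (T f r).card := hr r.2
  have gr' : N < 3 * (T f (ng r)).card := hr (!r.2)
  by_cases hd : Disjoint (T f p) (T f (ng r))
  · by_cases e : p.1 = r.1
    · have : p = ng r := by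
        obtain ⟨x, a⟩ := p
        obtain ⟨y, b⟩ := r
        simp only at e
        subst e
        cases a <;> cases b <;> simp_all [ng]
      rw [← this, disjoint_self, bot_eq_empty] at hd
      rw [hd] at gp
      simp at gp
    · have h1 : f p (ng r) ∈ U f p := (mem_U f).2 ⟨ng r, ⟨fun h => e h.symm, Or.inr hd⟩, rfl⟩
      obtain ⟨q, ⟨hq, h2⟩, h3⟩ := (mem_U f).1 (hsub h1)
      have h4 : f r q = f (ng r) p := h3.trans (hs _ _ e)
      have h5 : q = p := hH r q p hq e h4
      subst h5
      rcases h2 with h2 | h2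
      · exact h2 ((mem_C f).2 ⟨q, e, h4.symm⟩)
      · have c1 := card_union_of_disjoint (T_ng f r)
        have c2 : Disjoint (T f q) (T f r ∪ T f (ng r)) := disjoint_union_right.2 ⟨h2.symm, hd⟩
        have c3 := card_union_of_disjoint c2
        have c4 := card_le_univ (T f q ∪ (T f r ∪ T f (ng r)))
        rw [Fintype.card_fin] at c4
        omega
  · rw [not_disjoint_iff] at hd
    obtain ⟨c, h1, h2⟩ := hd
    rw [T, mem_sdiff, ng_ng] at h2
    exact h2.2 (U_C f r (hsub (T_U f p h1)))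

open Classical in
theorem good_le : 2 * (univ.filter (Good f)).card ≤ N.choose (N / 2) := by
  have h1 : ((univ.filter (Good f)) ×ˢ (univ : Finset Bool)).card = 2 * (univ.filter (Good f)).card := by
    simp [mul_comm]
  have inj : Set.InjOn (U f) ((univ.filter (Good f)) ×ˢ (univ : Finset Bool) : Finset _) := by
    intro p hp r hr e
    by_contra hne
    simp only [coe_product, coe_filter, mem_univ, true_and, Set.mem_prod, Set.mem_setOf_eq] at hp hr
    exact anti f hs hH hp.1 hr.1 hne e.subset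
  have h2 : IsAntichain (· ⊆ ·)
      (SetLike.coe (((univ.filter (Good f)) ×ˢ (univ : Finset Bool)).image (U f))) := by
    intro A hA B hB hne
    simp only [coe_image, Set.mem_image, mem_coe, mem_product, mem_filter, mem_univ, true_and,
      and_true] at hA hB
    obtain ⟨p, hp, rfl⟩ := hA
    obtain ⟨r, hr, rfl⟩ := hB
    exact anti f hs hH hp hr fun e => hne (by rw [e])
  have h3 := h2.sperner
  rw [card_image_of_injOn inj, h1, Fintype.card_fin] at h3
  exact h3

theorem fibre (s : Finset X) (a : X → Bool) (T0 : Finset (Fin N))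
    (h : ∀ x ∈ s, T f (x, a x) = T0) : s.card ≤ 2 * N + 1 := by
  have key : ∀ x ∈ s, ∀ y ∈ s, x ≠ y → f (x, a x) (ng (y, a y)) ≠ f (ng (x, a x)) (ng (y, a y)) →
      f (y, a y) (x, a x) = f (ng (y, a y)) (x, a x) := by
    intro x hx y hy hne h1
    have d := T_ng f (y, a y)
    rw [h y hy, ← h x hx, disjoint_left] at d
    have m1 : f (x, a x) (ng (y, a y)) ∈ C f (x, a x) := (mem_C f).2 ⟨_, hne.symm, rfl⟩
    have e : f (x, a x) (ng (y, a y)) = f (ng (y, a y)) (x, a x) := hs _ _ hne
    have m2 : f (x, a x) (ng (y, a y)) ∈ C f (ng (y, a y)) := (mem_C f).2 ⟨(x, a x), hne, e.symm⟩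
    by_cases h2 : f (x, a x) (ng (y, a y)) ∈ C f (ng (x, a x))
    · obtain ⟨q, hq, h3⟩ := (mem_C f).1 h2
      have := hH (x, a x) (ng (y, a y)) q hne.symm hq h3.symm
      rw [← this] at h3
      exact absurd h3.symm h1
    · have h3 := d (mem_sdiff.2 ⟨m1, h2⟩)
      rw [T, mem_sdiff, ng_ng, not_and, not_not] at h3
      obtain ⟨q, hq, h4⟩ := (mem_C f).1 (h3 m2)
      have := hH (y, a y) q (x, a x) hq hne (h4.trans e)
      rw [this] at h4
      exact h4.trans e
  have hc : s.offDiag.card ≤ (s ×ˢ ((univ : Finset (Fin N)) ×ˢ (univ : Finset Bool))).card := by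
    refine card_le_card_of_injOn (fun z => if f (z.1, a z.1) (ng (z.2, a z.2)) =
      f (ng (z.1, a z.1)) (ng (z.2, a z.2)) then (z.1, f (z.1, a z.1) (ng (z.2, a z.2)), true)
      else (z.2, f (z.2, a z.2) (z.1, a z.1), false)) ?_ ?_
    · intro z hz
      have hz := mem_offDiag.1 hz
      by_cases e : f (z.1, a z.1) (ng (z.2, a z.2)) = f (ng (z.1, a z.1)) (ng (z.2, a z.2))
      · simp [e, hz.1]
      · simp [e, hz.2.1]
    · rintro ⟨x, y⟩ hz ⟨x', y'⟩ hw e
      have hz := mem_offDiag.1 hz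
      have hw := mem_offDiag.1 hw
      simp only at hz hw e
      split_ifs at e with e1 e2 e2
      · simp only [Prod.mk.injEq, and_true] at e
        obtain ⟨rfl, e⟩ := e
        have := hH (x, a x) _ _ hz.2.2.symm hw.2.2.symm (e.trans e2)
        have := congrArg Prod.fst this
        simp only [ng_fst] at this
        rw [this]
      · simp at e
      · simp at e
      · simp only [Prod.mk.injEq, and_true] at e
        obtain ⟨rfl, e⟩ := e
        have := hH (y, a y) _ _ hz.2.2 hw.2.2 (e.trans (key _ hw.1 _ hw.2.1 hw.2.2 e2))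
        have := congrArg Prod.fst this
        simp only at this
        rw [this]
  simp only [offDiag_card, card_product, card_univ, Fintype.card_fin, Fintype.card_bool] at hc
  by_contra hlt
  have h1 : 2 * N + 2 ≤ s.card := by omega
  have h2 : s.card * (2 * N + 2) ≤ s.card * s.card := Nat.mul_le_mul_left _ h1
  have h3 : s.card * (2 * N + 2) = s.card * (N * 2) + 2 * s.card := by ring
  omega

open Classical in
theorem bad_le : (univ.filter fun x => ¬ Good f x).card ≤
    (2 * N + 1) * (univ.filter fun A : Finset (Fin N) => 3 * A.card ≤ N).card := by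
  have : ∀ x, ∃ a, ¬ Good f x → 3 * (T f (x, a)).card ≤ N := by
    intro x
    by_cases h : Good f x
    · exact ⟨true, fun h' => absurd h h'⟩
    · simp only [Good, not_forall, not_lt] at h
      obtain ⟨a, ha⟩ := h
      exact ⟨a, fun _ => ha⟩
  choose a ha using this
  refine card_le_mul_card_image_of_maps_to (f := fun x => T f (x, a x)) ?_ _ ?_
  · intro x hx
    simp only [mem_filter, mem_univ, true_and] at hx ⊢
    exact ha x hx
  · intro B _
    exact fibre f hs hH _ a B fun x hx => (mem_filter.1 hx).2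

end core

theorem small (k : ℕ) :
    (univ.filter fun A : Finset (Fin (3 * k)) => 3 * A.card ≤ 3 * k).card * 4 ^ k ≤ 27 ^ k := by
  have h := Finset.sum_pow_mul_eq_add_pow (1 : ℕ) 2 (univ : Finset (Fin (3 * k)))
  simp only [one_pow, one_mul, card_univ, Fintype.card_fin, powerset_univ] at h
  have e : (1 + 2) ^ (3 * k) = 27 ^ k := by rw [pow_mul]; norm_num
  rw [← e, ← h, ← smul_eq_mul, ← sum_const]
  refine le_trans (sum_le_sum fun A hA => ?_) (sum_le_sum_of_subset (filter_subset _ _))
  have hA := (mem_filter.1 hA).2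
  have : (4 : ℕ) ^ k = 2 ^ (2 * k) := by rw [pow_mul]; norm_num
  rw [this]
  exact Nat.pow_le_pow_right (by norm_num) (by omega)

theorem num (j : ℕ) (hj : 60 ≤ j) :
    (3 * j + 1) * (6 * j + 4) * (12 * j + 7) * 27 * 729 ^ j ≤ 16 * 1024 ^ j := by
  induction j, hj using Nat.le_induction with
  | base => norm_num
  | succ j hj ih =>
    have h : (3 * (j + 1) + 1) * (6 * (j + 1) + 4) * (12 * (j + 1) + 7) * 729 ≤
        (3 * j + 1) * (6 * j + 4) * (12 * j + 7) * 1024 := by
      obtain ⟨i, rfl⟩ := Nat.exists_eq_add_of_le hj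
      ring_nf
      omega
    calc _ = ((3 * (j + 1) + 1) * (6 * (j + 1) + 4) * (12 * (j + 1) + 7) * 729) * (27 * 729 ^ j) := by
          ring
      _ ≤ ((3 * j + 1) * (6 * j + 4) * (12 * j + 7) * 1024) * (27 * 729 ^ j) :=
          Nat.mul_le_mul_right _ h
      _ = ((3 * j + 1) * (6 * j + 4) * (12 * j + 7) * 27 * 729 ^ j) * 1024 := by ring
      _ ≤ (16 * 1024 ^ j) * 1024 := Nat.mul_le_mul_right _ ih
      _ = _ := by ring

end Pool.Agent.H20.SJ
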