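import Pool.Agent.H20.SJ

namespace Pool.Agent.H20.SJ
open Pool.Agent.H20 Finset

variable {n : ℕ}

theorem sdot_two (u w : SVec n 2) {i j : Fin n} (hij : i ≠ j)
    (h : ∀ x, x ≠ i → x ≠ j → u.1 x = 0) : sdot u w = u.1 i * w.1 i + u.1 j * w.1 j := by
  rw [sdot, ← sum_pair (f := fun x => u.1 x * w.1 x) hij]
  refine (sum_subset (subset_univ _) fun x _ hx => ?_).symm
  simp only [mem_insert, mem_singleton, not_or] at hx
  rw [h x hx.1 hx.2, zero_mul]

theorem supp (u : SVec n 2) : ∃ i j : Fin n, i ≠ j ∧ u.1 i ≠ 0 ∧ u.1 j ≠ 0 ∧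
    ∀ x, x ≠ i → x ≠ j → u.1 x = 0 := by
  obtain ⟨i, j, hij, h⟩ := card_eq_two.1 u.2.2
  have key : ∀ x, u.1 x ≠ 0 ↔ x = i ∨ x = j := fun x => by
    have := congrArg (fun s => x ∈ s) h
    simpa using this
  refine ⟨i, j, hij, (key i).2 (Or.inl rfl), (key j).2 (Or.inr rfl), fun x h1 h2 => ?_⟩
  by_contra h3
  exact ((key x).1 h3).elim h1 h2

def sg (b : Bool) : ℤ := if b then 1 else -1

def vec (p q : Fin n × Bool) (h : p.1 ≠ q.1) : SVec n 2 :=
  ⟨fun i => if i = p.1 then sg p.2 else if i = q.1 then sg q.2 else 0, fun i => by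
    by_cases h1 : i = p.1
    · cases h3 : p.2 <;> simp [h1, sg]
    · by_cases h2 : i = q.1
      · simp only [if_neg h1, if_pos h2]
        cases q.2 <;> simp [sg]
      · simp [h1, h2], by
    rw [card_eq_two]
    refine ⟨p.1, q.1, h, ?_⟩
    ext i
    have s1 : ∀ b, sg b ≠ 0 := fun b => by cases b <;> simp [sg]
    by_cases h1 : i = p.1
    · simp [h1, s1]
    · by_cases h2 : i = q.1
      · simp only [mem_filter, mem_univ, true_and, if_neg h1, if_pos h2, mem_insert, mem_singleton]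
        simp [h2, s1]
      · simp [h1, h2]⟩

theorem vec_comm (p q : Fin n × Bool) (h : p.1 ≠ q.1) : vec p q h = vec q p h.symm := by
  apply Subtype.ext
  funext i
  simp only [vec]
  by_cases h1 : i = p.1
  · have : i ≠ q.1 := fun e => h (h1.symm.trans e)
    rw [if_pos h1, if_neg this, if_pos h1]
  · simp only [if_neg h1]

theorem adjK (p q r : Fin n × Bool) (hq : p.1 ≠ q.1) (hr : (ng p).1 ≠ r.1) (hne : q ≠ r) :
    (signedK n 2 (-1)).Adj (vec p q hq) (vec (ng p) r hr) := by
  have e : sdot (vec p q hq) (vec (ng p) r hr) ≤ -1 := by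
    rw [sdot_two _ _ hq (fun x h1 h2 => by simp [vec, h1, h2])]
    obtain ⟨x, a⟩ := p
    obtain ⟨y, b⟩ := q
    obtain ⟨z, c⟩ := r
    have hq' : y ≠ x := fun e => hq e.symm
    by_cases h : y = z
    · subst h
      cases a <;> cases b <;> cases c <;> simp_all [vec, ng, sg]
    · cases a <;> cases b <;> cases c <;> simp [vec, ng, sg, hq', h]
  refine ⟨fun h => ?_, e⟩
  rw [← h] at e
  have : 0 ≤ sdot (vec p q hq) (vec p q hq) := sum_nonneg fun i _ => mul_self_nonneg _
  omega

theorem notK (j : ℕ) (hj : 60 ≤ j) :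
    ¬ (signedK (Nat.centralBinom (3 * j + 1)) 2 (-1)).Colorable (3 * (2 * j + 1)) := by
  classical
  rintro ⟨col⟩
  set n := Nat.centralBinom (3 * j + 1) with hn
  let f : Fin n × Bool → Fin n × Bool → Fin (3 * (2 * j + 1)) := fun p q =>
    if h : p.1 ≠ q.1 then col (vec p q h) else ⟨0, by omega⟩
  have hs : ∀ p q : Fin n × Bool, p.1 ≠ q.1 → f p q = f q p := by
    intro p q h
    simp only [f, dif_pos h, dif_pos h.symm, vec_comm p q h]
  have hH : ∀ p q r : Fin n × Bool, q.1 ≠ p.1 → r.1 ≠ p.1 → f p q = f (ng p) r → q = r := by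
    intro p q r hq hr e
    by_contra hne
    have hr' : (ng p).1 ≠ r.1 := hr.symm
    simp only [f, dif_pos hq.symm, dif_pos hr'] at e
    exact col.valid (adjK p q r hq.symm hr' hne) e
  have h1 := good_le f hs hH
  have h2 := bad_le f hs hH
  have h3 := small (2 * j + 1)
  have h4 := num j hj
  have h5 := Nat.four_pow_lt_mul_centralBinom (3 * j + 1) (by omega)
  have h6 := card_filter_add_card_filter_not (s := univ) (Good f)
  rw [card_univ, Fintype.card_fin] at h6
  have h7 := Nat.add_one_mul_choose_eq (2 * (3 * j + 1)) (3 * j + 1)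
  rw [← Nat.centralBinom_eq_two_mul_choose, Nat.choose_symm_half] at h7
  have e1 : 3 * (2 * j + 1) / 2 = 3 * j + 1 := by omega
  have e2 : 2 * (3 * j + 1) + 1 = 3 * (2 * j + 1) := by omega
  rw [e2, ← hn] at h7
  rw [e1] at h1
  rw [← hn] at h5
  generalize (3 * (2 * j + 1)).choose (3 * j + 1) = c at h1 h7
  generalize (univ.filter (Good f)).card = g at h1 h6
  generalize (univ.filter fun x => ¬ Good f x).card = b at h2 h6
  generalize (univ.filter fun A : Finset (Fin (3 * (2 * j + 1))) =>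
    3 * A.card ≤ 3 * (2 * j + 1)).card = S at h2 h3
  have a1 : n ≤ (6 * j + 4) * b := by nlinarith
  have a2 : n ≤ (6 * j + 4) * ((12 * j + 7) * S) :=
    a1.trans (Nat.mul_le_mul_left _ (h2.trans (le_of_eq (by ring))))
  have a3 : 4 ^ (3 * j + 1) * 4 ^ (2 * j + 1) = 16 * 1024 ^ j := by
    rw [show (1024 : ℕ) = 4 ^ 5 by norm_num, ← pow_mul, ← pow_add, show (16 : ℕ) = 4 ^ 2 by norm_num,
      ← pow_add]
    congr 1
    ring
  have a4 : 27 ^ (2 * j + 1) = 27 * 729 ^ j := by
    rw [pow_succ, pow_mul]; norm_num [mul_comm]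
  have a5 : 4 ^ (3 * j + 1) * 4 ^ (2 * j + 1) < (3 * j + 1) * n * 4 ^ (2 * j + 1) :=
    Nat.mul_lt_mul_of_pos_right h5 (by positivity)
  have a6 : (3 * j + 1) * n * 4 ^ (2 * j + 1) ≤
      (3 * j + 1) * ((6 * j + 4) * ((12 * j + 7) * S)) * 4 ^ (2 * j + 1) := by gcongr
  have a7 : (3 * j + 1) * ((6 * j + 4) * ((12 * j + 7) * S)) * 4 ^ (2 * j + 1) =
      (3 * j + 1) * (6 * j + 4) * (12 * j + 7) * (S * 4 ^ (2 * j + 1)) := by ring
  have a8 : (3 * j + 1) * (6 * j + 4) * (12 * j + 7) * (S * 4 ^ (2 * j + 1)) ≤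
      (3 * j + 1) * (6 * j + 4) * (12 * j + 7) * (27 * 729 ^ j) := by
    rw [← a4]; exact Nat.mul_le_mul_left _ h3
  rw [← mul_assoc _ 27] at a8
  rw [a3] at a5
  exact absurd (a5.trans_le (a6.trans (a7.le.trans (a8.trans h4)))) (lt_irrefl _)

theorem arith (a b c d : ℤ) (ha : a = -1 ∨ a = 0 ∨ a = 1) (hb : b = -1 ∨ b = 0 ∨ b = 1)
    (hc : c = -1 ∨ c = 0 ∨ c = 1) (hd : d = -1 ∨ d = 0 ∨ d = 1) (h1 : a ≠ 0) (h2 : b ≠ 0)
    (h3 : c ≠ 0 → d ≠ 0) (h4 : d ≠ 0 → c ≠ 0) (h : a * c + b * d = -1) : False := by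
  rcases ha with rfl | rfl | rfl <;> rcases hb with rfl | rfl | rfl <;> omega

theorem colJ (m : ℕ) : (signedJ (Nat.centralBinom m) 2 (-1)).Colorable (2 * m + 1) := by
  classical
  set n := Nat.centralBinom m with hn
  have hc : Fintype.card {A : Finset (Fin (2 * m)) // A.card = m} = n := by
    rw [Fintype.card_finset_len, Fintype.card_fin, hn, Nat.centralBinom_eq_two_mul_choose]
  let e := (Fintype.equivFinOfCardEq hc).symm
  let A : Fin n → Finset (Fin (2 * m)) := fun i => (e i).1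
  have hA : ∀ i, (A i).card = m := fun i => (e i).2
  have inj : ∀ i j, A i = A j → i = j := fun i j h => e.injective (Subtype.ext h)
  let P : SVec n 2 → Fin (2 * m) → Prop := fun v c =>
    ∀ i, (v.1 i = 1 → c ∈ A i) ∧ (v.1 i = -1 → c ∉ A i)
  have cc : ∀ B : Finset (Fin (2 * m)), B.card = m → Bᶜ.card = m := fun B h => by
    rw [card_compl, Fintype.card_fin, h]; omega
  have dj : ∀ B D : Finset (Fin (2 * m)), B.card = m → D.card = m → (∀ c, c ∈ B → c ∉ D) →
      D = Bᶜ := fun B D h1 h2 h => by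
    refine eq_of_subset_of_card_le (fun c hc => mem_compl.2 fun hb => h c hb hc) ?_
    rw [cc B h1, h2]
  have none_case : ∀ (v : SVec n 2) (i j : Fin n), i ≠ j → v.1 i ≠ 0 → v.1 j ≠ 0 →
      (∀ x, x ≠ i → x ≠ j → v.1 x = 0) → (¬ ∃ c, P v c) → A j = (A i)ᶜ := by
    intro v i j hij hi hj h0 hP
    have k : ∀ c, ((v.1 i = 1 → c ∈ A i) ∧ (v.1 i = -1 → c ∉ A i)) →
        ((v.1 j = 1 → c ∈ A j) ∧ (v.1 j = -1 → c ∉ A j)) → False := by
      intro c h1 h2
      refine hP ⟨c, fun x => ?_⟩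
      by_cases e1 : x = i
      · rw [e1]; exact h1
      · by_cases e2 : x = j
        · rw [e2]; exact h2
        · rw [h0 x e1 e2]; simp
    rcases v.2.1 i with a | a | a
    · rcases v.2.1 j with b | b | b
      · have := dj _ _ (cc _ (hA i)) (cc _ (hA j)) fun c h1 h2 =>
          k c (by simpa [a] using h1) (by simpa [b] using h2)
        exact compl_injective this
      · exact absurd b hj
      · have := dj _ _ (cc _ (hA i)) (hA j) fun c h1 h2 =>
          k c (by simpa [a] using h1) (by simpa [b] using h2)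
        rw [compl_compl] at this
        exact absurd (inj _ _ this).symm hij
    · exact absurd a hi
    · rcases v.2.1 j with b | b | b
      · have := dj _ _ (hA i) (cc _ (hA j)) fun c h1 h2 =>
          k c (by simpa [a] using h1) (by simpa [b] using h2)
        exact absurd (inj _ _ (compl_injective this)).symm hij
      · exact absurd b hj
      · exact dj _ _ (hA i) (hA j) fun c h1 h2 =>
          k c (by simpa [a] using h1) (by simpa [b] using h2)
  have clo : ∀ (v : SVec n 2) (i j : Fin n), i ≠ j → A j = (A i)ᶜ → (¬ ∃ c, P v c) →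
      v.1 i ≠ 0 → v.1 j ≠ 0 := by
    intro v i j hij hc hP hi
    obtain ⟨x, y, hxy, hx, hy, h0⟩ := supp v
    have h1 := none_case v x y hxy hx hy h0 hP
    by_cases e1 : i = x
    · rw [← e1, ← hc] at h1
      rw [← inj _ _ h1]; exact hy
    · by_cases e2 : i = y
      · rw [← e2] at h1
        rw [h1, compl_compl] at hc
        rw [inj _ _ hc]; exact hx
      · exact absurd (h0 i e1 e2) hi
  let col : SVec n 2 → Option (Fin (2 * m)) := fun v =>
    if h : ∃ c, P v c then some h.choose else none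
  have hcol : (signedJ n 2 (-1)).Coloring (Option (Fin (2 * m))) := by
    refine SimpleGraph.Coloring.mk col ?_
    rintro u v ⟨-, huv⟩ e
    by_cases h1 : ∃ c, P u c
    · by_cases h2 : ∃ c, P v c
      · simp only [col, dif_pos h1, dif_pos h2, Option.some.injEq] at e
        have p1 := h1.choose_spec
        have p2 := h2.choose_spec
        rw [← e] at p2
        have : 0 ≤ sdot u v := sum_nonneg fun i _ => by
          have q1 := p1 i
          have q2 := p2 i
          rcases u.2.1 i with a | a | a <;> rcases v.2.1 i with b | b | b <;> rw [a, b] <;>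
            first | omega | exact absurd (q2.1 b) (q1.2 a) | exact absurd (q1.1 a) (q2.2 b)
        omega
      · simp [col, h1, h2] at e
    · by_cases h2 : ∃ c, P v c
      · simp [col, h1, h2] at e
      · obtain ⟨i, j, hij, hi, hj, h0⟩ := supp u
        have c1 := none_case u i j hij hi hj h0 h1
        have c2 := clo v i j hij c1 h2
        have c3 := clo v j i hij.symm (by rw [c1, compl_compl]) h2
        rw [sdot_two u v hij h0] at huv
        exact arith _ _ _ _ (u.2.1 i) (u.2.1 j) (v.2.1 i) (v.2.1 j) hi hj c2 c3 huv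
  simpa using hcol.colorable

end Pool.Agent.H20.SJ
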