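import Mathlib

namespace Pool.Agent.H20

/-- Vectors in `{-1,0,1}^n` with exactly `k` nonzero coordinates. -/
def SVec (n k : ℕ) : Type :=
  {v : Fin n → ℤ // (∀ i, v i = -1 ∨ v i = 0 ∨ v i = 1) ∧
    (Finset.univ.filter fun i => v i ≠ 0).card = k}

/-- The standard scalar product. -/
def sdot {n k : ℕ} (u v : SVec n k) : ℤ := ∑ i, u.1 i * v.1 i

theorem sdot_comm {n k : ℕ} (u v : SVec n k) : sdot u v = sdot v u :=
  Finset.sum_congr rfl fun _ _ => mul_comm _ _

/-- The signed Johnson graph: distinct vectors with scalar product exactly `t`. -/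
def signedJ (n k : ℕ) (t : ℤ) : SimpleGraph (SVec n k) where
  Adj u v := u ≠ v ∧ sdot u v = t
  symm := ⟨fun u v h => ⟨h.1.symm, (sdot_comm v u).trans h.2⟩⟩
  loopless := ⟨fun _ h => h.1 rfl⟩

/-- The signed Kneser graph: distinct vectors with scalar product at most `t`. -/
def signedK (n k : ℕ) (t : ℤ) : SimpleGraph (SVec n k) where
  Adj u v := u ≠ v ∧ sdot u v ≤ t
  symm := ⟨fun u v h => ⟨h.1.symm, (sdot_comm v u).trans_le h.2⟩⟩
  loopless := ⟨fun _ h => h.1 rfl⟩

end Pool.Agent.H20
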