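import Mathlib

namespace H20Sw
open Finset

variable {W : Type} [DecidableEq W]

inductive Mt (R : W → W → Prop) : Finset W → ℕ → Prop
  | nil : Mt R ∅ 0
  | cons {C : Finset W} {k : ℕ} (a b : W) : Mt R C k → a ∉ C → b ∉ C → a ≠ b → R a b →
      Mt R (insert a (insert b C)) (k + 1)

inductive Ch (R B : W → W → Prop) : Finset W → ℕ → Prop
  | nil : Ch R B ∅ 0
  | cons {C : Finset W} {k : ℕ} (a b c : W) : Ch R B C k → a ∉ C → b ∉ C → c ∉ C → a ≠ b →
      a ≠ c → b ≠ c → R a b → B a c → Ch R B (insert a (insert b (insert c C))) (k + 1)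

theorem Mt.card {R : W → W → Prop} {C : Finset W} {k : ℕ} (h : Mt R C k) : C.card = 2 * k := by
  induction h with
  | nil => simp
  | cons a b _ ha hb hab _ ih =>
    rw [card_insert_of_notMem (by simp [ha, hab]), card_insert_of_notMem hb, ih]; ring

theorem Mt.erase {R : W → W → Prop} (hs : ∀ x y, R x y → R y x) {C : Finset W} {k : ℕ}
    (h : Mt R C k) : ∀ b ∈ C, ∃ a ∈ C, ∃ C' j, k = j + 1 ∧ a ≠ b ∧ R a b ∧ Mt R C' j ∧
      ∀ t, t ∈ C' ↔ t ∈ C ∧ t ≠ a ∧ t ≠ b := by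
  induction h with
  | nil => simp
  | @cons C k x y hm hx hy hxy hr ih =>
    intro b hb
    by_cases h1 : b = x
    · subst h1
      refine ⟨y, by simp, C, k, rfl, hxy.symm, hs _ _ hr, hm, fun t => ?_⟩
      simp only [mem_insert]; grind
    by_cases h2 : b = y
    · subst h2
      refine ⟨x, by simp, C, k, rfl, hxy, hr, hm, fun t => ?_⟩
      simp only [mem_insert]; grind
    have hb' : b ∈ C := by simpa [h1, h2] using hb
    obtain ⟨a, ha, C', j, rfl, hab, hr', hm', hC'⟩ := ih b hb'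
    refine ⟨a, by simp [ha], insert x (insert y C'), j + 1, rfl, hab, hr',
      Mt.cons x y hm' (by rw [hC']; tauto) (by rw [hC']; tauto) hxy hr, fun t => ?_⟩
    simp only [mem_insert, hC']; grind

theorem Mt.erase' {R : W → W → Prop} (hs : ∀ x y, R x y → R y x) {C : Finset W} {k : ℕ}
    (h : Mt R C (k + 1)) (b : W) (hb : b ∈ C) : ∃ a ∈ C, ∃ C', a ≠ b ∧ R a b ∧ Mt R C' k ∧
      ∀ t, t ∈ C' ↔ t ∈ C ∧ t ≠ a ∧ t ≠ b := by
  obtain ⟨a, ha, C', j, hj, h1, h2, h3, h4⟩ := h.erase hs b hb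
  obtain rfl : k = j := by omega
  exact ⟨a, ha, C', h1, h2, h3, h4⟩

theorem Mt.ne {R : W → W → Prop} {C : Finset W} {k : ℕ} (h : Mt R C (k + 1)) : ∃ x, x ∈ C := by
  have := h.card
  exact card_pos.1 (by omega)

def Good (R B : W → W → Prop) (S : Finset W) (k : ℕ) : Prop :=
  ∃ a b c C1 C2, a ∈ S ∧ b ∈ S ∧ c ∈ S ∧ a ≠ b ∧ a ≠ c ∧ b ≠ c ∧ R a b ∧ B a c ∧ Mt R C1 k ∧
    Mt B C2 k ∧ (∀ t ∈ C1, t ∈ S ∧ t ≠ a ∧ t ≠ b ∧ t ≠ c) ∧ (∀ t ∈ C2, t ∈ S ∧ t ≠ a ∧ t ≠ b ∧ t ≠ c)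

def Out (R B : W → W → Prop) (S : Finset W) (k D : ℕ) : Prop :=
  Good R B S k ∨ ∃ C1 C2, C1 ⊆ S ∧ C2 ⊆ S ∧ Mt R C1 (k + 1) ∧ Mt B C2 (k + 1) ∧ (C1 ∩ C2).card < D

theorem Out.symm {R B : W → W → Prop} {S : Finset W} {k D : ℕ} (h : Out B R S k D) :
    Out R B S k D := by
  rcases h with ⟨a, b, c, C1, C2, h1, h2, h3, h4, h5, h6, h7, h8, h9, h10, h11, h12⟩ |
    ⟨C1, C2, h1, h2, h3, h4, h5⟩
  · exact Or.inl ⟨a, c, b, C2, C1, h1, h3, h2, h5, h4, h6.symm, h8, h7, h10, h9, by grind, by grind⟩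
  · exact Or.inr ⟨C2, C1, h2, h1, h4, h3, by rwa [inter_comm]⟩

structure Col (R B : W → W → Prop) : Prop where
  sR : ∀ x y, R x y → R y x
  sB : ∀ x y, B x y → B y x
  tot : ∀ x y, x ≠ y → R x y ∨ B x y
  dis : ∀ x y, R x y → ¬ B x y

theorem Col.symm {R B : W → W → Prop} (h : Col R B) : Col B R :=
  ⟨h.sB, h.sR, fun x y hxy => (h.tot x y hxy).symm, fun x y h1 h2 => h.dis x y h2 h1⟩

section
variable {R B : W → W → Prop} {S C1 C2 : Finset W} {k : ℕ}

theorem lt_of_sub {C1' : Finset W} {b : W} (hb1 : b ∈ C1) (hb2 : b ∈ C2)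
    (h : ∀ t ∈ C1', t ∈ C2 → t ∈ C1 ∧ t ≠ b) : (C1' ∩ C2).card < (C1 ∩ C2).card := by
  have : C1' ∩ C2 ⊆ (C1 ∩ C2).erase b := by
    intro t ht
    simp only [mem_inter, mem_erase] at ht ⊢
    grind
  have h2 := card_le_card this
  have h3 := card_erase_lt_of_mem (s := C1 ∩ C2) (a := b) (by simp [hb1, hb2])
  omega

theorem caseF (hc : Col R B) (h1 : C1 ⊆ S) (h2 : C2 ⊆ S) (m2 : Mt B C2 (k + 1)) {z a b : W}
    (hz : z ∈ S) (hz1 : z ∉ C1) (hz2 : z ∉ C2) (hb1 : b ∈ C1) (hb2 : b ∈ C2) (ha1 : a ∈ C1)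
    (ha2 : a ∉ C2) (hab : a ≠ b) (hr : R a b) {C' : Finset W} (m' : Mt R C' k)
    (hC' : ∀ t ∈ C', t ∈ C1 ∧ t ≠ a ∧ t ≠ b) : Out R B S k (C1 ∩ C2).card := by
  have haz : a ≠ z := by grind
  rcases hc.tot a z haz with h | h
  · refine Or.inr ⟨insert a (insert z C'), C2, ?_, h2,
      Mt.cons a z m' (by grind) (by grind) haz h, m2, lt_of_sub hb1 hb2 ?_⟩
    · intro t ht; simp only [mem_insert] at ht; have := @h1 t; have := @h1 a; grind
    · intro t ht; simp only [mem_insert] at ht; grind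
  · obtain ⟨c, hc2, C2', hcb, hB, m2', hC2⟩ := m2.erase' hc.sB b hb2
    refine Or.inl ⟨a, b, z, C', C2', h1 ha1, h1 hb1, hz, hab, haz, by grind, hr, h, m', m2',
      fun t ht => ?_, fun t ht => ?_⟩
    · have := @h1 t; grind
    · have := @h2 t; grind

theorem caseFF (hc : Col R B) (h1 : C1 ⊆ S) (h2 : C2 ⊆ S) (m1 : Mt R C1 (k + 1))
    (m2 : Mt B C2 (k + 1)) {z w b : W} (hz : z ∈ S) (hz1 : z ∉ C1) (hz2 : z ∉ C2) (hw : w ∈ S)
    (hw1 : w ∉ C1) (hw2 : w ∉ C2) (hzw : z ≠ w) (hr : R z w) (hb1 : b ∈ C1) (hb2 : b ∈ C2) :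
    Out R B S k (C1 ∩ C2).card := by
  obtain ⟨a, ha, C', hab, hR, m', hC'⟩ := m1.erase' hc.sR b hb1
  refine Or.inr ⟨insert z (insert w C'), C2, ?_, h2,
    Mt.cons z w m' (by grind) (by grind) hzw hr, m2, lt_of_sub hb1 hb2 ?_⟩
  · intro t ht; simp only [mem_insert] at ht; have := @h1 t; grind
  · intro t ht; simp only [mem_insert] at ht; grind

theorem caseV (hc : Col R B) (h1 : C1 ⊆ S) (h2 : C2 ⊆ S) (m1 : Mt R C1 (k + 1)) {b c : W}
    (hb1 : b ∈ C1) (hb2 : b ∈ C2) (hc1 : c ∈ C1) (hc2 : c ∈ C2) (hcb : c ≠ b) (hB : B c b)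
    {C2' : Finset W} (m2' : Mt B C2' k) (hC2 : ∀ t ∈ C2', t ∈ C2 ∧ t ≠ c ∧ t ≠ b)
    (hD : ∀ t ∈ C1, t ∈ C2 → t = b ∨ t = c) : Good R B S k := by
  obtain ⟨a, ha, C1', hab, hR, m1', hC1⟩ := m1.erase' hc.sR b hb1
  have hac : a ≠ c := by rintro rfl; exact hc.dis _ _ hR hB
  obtain ⟨d, hd, C1'', j, rfl, hdc, hR2, m1'', hC1'⟩ := m1'.erase hc.sR c (by grind)
  obtain ⟨e, he⟩ := m2'.ne
  obtain ⟨f, hf, C2'', hfe, hB2, m2'', hC2'⟩ := m2'.erase' hc.sB e he
  have e1 : e ∉ C1 := by grind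
  have f1 : f ∉ C1 := by grind
  have a2 : a ∉ C2 := by grind
  have d2 : d ∉ C2 := by grind
  have mb : Mt B (insert c (insert b C2'')) (j + 1) :=
    Mt.cons c b m2'' (by grind) (by grind) hcb hB
  have hs1 : ∀ t ∈ C1, t ∈ S := fun t ht => h1 ht
  have hs2 : ∀ t ∈ C2, t ∈ S := fun t ht => h2 ht
  rcases hc.tot a e (by grind) with h | h
  · refine ⟨e, a, f, C1', _, by grind, by grind, by grind, by grind, by grind, by grind,
      hc.sR _ _ h, hc.sB _ _ hB2, m1', mb, fun t ht => by grind, fun t ht => ?_⟩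
    simp only [mem_insert] at ht; grind
  rcases hc.tot d f (by grind) with h' | h'
  · refine ⟨f, d, e, insert a (insert b C1''), _, by grind, by grind, by grind, by grind, by grind,
      by grind, hc.sR _ _ h', hB2, Mt.cons a b m1'' (by grind) (by grind) hab hR, mb,
      fun t ht => ?_, fun t ht => ?_⟩
    · simp only [mem_insert] at ht; grind
    · simp only [mem_insert] at ht; grind
  · refine ⟨a, b, e, C1', insert d (insert f C2''), by grind, by grind, by grind, by grind,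
      by grind, by grind, hR, h, m1', Mt.cons d f m2'' (by grind) (by grind) (by grind) h',
      fun t ht => by grind, fun t ht => ?_⟩
    simp only [mem_insert] at ht; grind

theorem step1 (hc : Col R B) (h1 : C1 ⊆ S) (h2 : C2 ⊆ S) (m1 : Mt R C1 (k + 1))
    (m2 : Mt B C2 (k + 1)) (hS : 4 * (k + 1) ≤ S.card + 2) : Out R B S k (C1 ∩ C2).card := by
  have hs1 : ∀ t ∈ C1, t ∈ S := fun t ht => h1 ht
  have hs2 : ∀ t ∈ C2, t ∈ S := fun t ht => h2 ht
  by_cases hD : ∃ b, b ∈ C1 ∧ b ∈ C2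
  swap
  · obtain ⟨x, hx⟩ := m1.ne
    obtain ⟨z, hz⟩ := m2.ne
    obtain ⟨y, hy, C1', hyx, hR, m1', hC1⟩ := m1.erase' hc.sR x hx
    obtain ⟨w, hw, C2', hwz, hB, m2', hC2⟩ := m2.erase' hc.sB z hz
    rcases hc.tot x z (by grind) with h | h
    · exact Or.inl ⟨z, x, w, C1', C2', by grind, by grind, by grind, by grind, by grind, by grind,
        hc.sR _ _ h, hc.sB _ _ hB, m1', m2', fun t ht => by grind, fun t ht => by grind⟩
    · exact Or.inl ⟨x, y, z, C1', C2', by grind, by grind, by grind, by grind, by grind, by grind,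
        hc.sR _ _ hR, h, m1', m2', fun t ht => by grind, fun t ht => by grind⟩
  obtain ⟨b, hb1, hb2⟩ := hD
  have c1 := m1.card
  have c2 := m2.card
  have c3 := card_union_add_card_inter C1 C2
  have c4 := card_sdiff_add_card_eq_card (union_subset h1 h2)
  by_cases hF : 1 < (S \ (C1 ∪ C2)).card
  · obtain ⟨z, hz, w, hw, hzw⟩ := one_lt_card.1 hF
    simp only [mem_sdiff, mem_union, not_or] at hz hw
    rcases hc.tot z w hzw with h | h
    · exact caseFF hc h1 h2 m1 m2 hz.1 hz.2.1 hz.2.2 hw.1 hw.2.1 hw.2.2 hzw h hb1 hb2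
    · rw [inter_comm]
      exact (caseFF hc.symm h2 h1 m2 m1 hz.1 hz.2.2 hz.2.1 hw.1 hw.2.2 hw.2.1 hzw h hb2 hb1).symm
  obtain ⟨a, ha, C1', hab, hR, m1', hC1⟩ := m1.erase' hc.sR b hb1
  obtain ⟨c, hc2, C2', hcb, hB, m2', hC2⟩ := m2.erase' hc.sB b hb2
  have hac : a ≠ c := by rintro rfl; exact hc.dis _ _ hR hB
  by_cases hF0 : (S \ (C1 ∪ C2)).card = 0
  · have hD2 : ∀ x ∈ C1, x ∈ C2 → x ≠ b → ∀ t ∈ C1, t ∈ C2 → t = b ∨ t = x := by
      intro x hx1 hx2 hxb t ht1 ht2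
      by_contra hne
      have : ({t, b, x} : Finset W) ⊆ C1 ∩ C2 := by
        intro u hu; simp only [mem_insert, mem_singleton, mem_inter] at hu ⊢; grind
      have h5 := card_le_card this
      rw [card_insert_of_notMem (by simpa using hne), card_pair hxb.symm] at h5
      omega
    by_cases hc1 : c ∈ C1
    · exact Or.inl (caseV hc h1 h2 m1 hb1 hb2 hc1 hc2 hcb hB m2' (by grind) (hD2 c hc1 hc2 hcb))
    by_cases ha2 : a ∈ C2
    · exact Out.symm (Or.inl (caseV hc.symm h2 h1 m2 hb2 hb1 ha2 ha hab hR m1' (by grind)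
        (fun t h h' => hD2 a ha ha2 hab t h' h)))
    · exact Or.inl ⟨b, a, c, C1', C2', by grind, by grind, by grind, by grind, by grind, by grind,
        hc.sR _ _ hR, hc.sB _ _ hB, m1', m2', fun t ht => by grind, fun t ht => by grind⟩
  obtain ⟨z, hz⟩ := card_pos.1 (Nat.pos_of_ne_zero hF0)
  simp only [mem_sdiff, mem_union, not_or] at hz
  by_cases ha2 : a ∈ C2
  swap
  · exact caseF hc h1 h2 m2 hz.1 hz.2.1 hz.2.2 hb1 hb2 ha ha2 hab hR m1' (by grind)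
  by_cases hc1 : c ∈ C1
  swap
  · rw [inter_comm]
    exact (caseF hc.symm h2 h1 m1 hz.1 hz.2.2 hz.2.1 hb2 hb1 hc2 hc1 hcb hB m2' (by grind)).symm
  obtain ⟨d, hd, C2'', j, rfl, hda, hB2, m2'', hC2'⟩ := m2'.erase hc.sB a (by grind)
  have hd1 : d ∉ C1 := by
    intro hd1
    have : ({d, a, c, b} : Finset W) ⊆ C1 ∩ C2 := by
      intro u hu; simp only [mem_insert, mem_singleton, mem_inter] at hu ⊢; grind
    have h5 := card_le_card this
    rw [card_insert_of_notMem (by simp only [mem_insert, mem_singleton]; grind),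
      card_insert_of_notMem (by simp only [mem_insert, mem_singleton]; grind),
      card_pair hcb] at h5
    omega
  rw [inter_comm]
  refine (caseF hc.symm h2 h1 m1 hz.1 hz.2.2 hz.2.1 ha2 ha (by grind) hd1 hda hB2
    (Mt.cons c b m2'' (by grind) (by grind) hcb hB) (fun t ht => ?_)).symm
  simp only [mem_insert] at ht; grind

theorem step2 (hc : Col R B) (hS : 4 * (k + 1) ≤ S.card + 2) : ∀ D, ∀ C1 C2 : Finset W, C1 ⊆ S →
    C2 ⊆ S → Mt R C1 (k + 1) → Mt B C2 (k + 1) → (C1 ∩ C2).card < D → Good R B S k := by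
  intro D
  induction D with
  | zero => intro _ _ _ _ _ _ h; omega
  | succ D ih =>
    intro C1 C2 h1 h2 m1 m2 hD
    rcases step1 hc h1 h2 m1 m2 hS with h | ⟨C1', C2', a, b, c, d, e⟩
    · exact h
    · exact ih C1' C2' a b c d (by omega)

theorem packing (hc : Col R B) : ∀ (k : ℕ) (S C1 C2 : Finset W), 4 * k ≤ S.card + 2 → C1 ⊆ S →
    C2 ⊆ S → Mt R C1 k → Mt B C2 k → ∃ C ⊆ S, Ch R B C k := by
  intro k
  induction k with
  | zero => intro S _ _ _ _ _ _ _; exact ⟨∅, empty_subset _, Ch.nil⟩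
  | succ k ih =>
    intro S C1 C2 hS h1 h2 m1 m2
    obtain ⟨a, b, c, D1, D2, ha, hb, hc', hab, hac, hbc, hR, hB, n1, n2, s1, s2⟩ :=
      step2 hc hS _ C1 C2 h1 h2 m1 m2 (Nat.lt_succ_self _)
    have h3 : ({a, b, c} : Finset W).card ≤ 3 := card_le_three
    have h4 := le_card_sdiff ({a, b, c} : Finset W) S
    obtain ⟨C, hC, hch⟩ := ih (S \ {a, b, c}) D1 D2 (by omega)
      (fun t ht => by simp only [mem_sdiff, mem_insert, mem_singleton]; grind)
      (fun t ht => by simp only [mem_sdiff, mem_insert, mem_singleton]; grind) n1 n2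
    have hC' : ∀ t ∈ C, t ∈ S ∧ t ≠ a ∧ t ≠ b ∧ t ≠ c := fun t ht => by
      have := hC ht; simp only [mem_sdiff, mem_insert, mem_singleton] at this; grind
    refine ⟨_, ?_, Ch.cons a b c hch (by grind) (by grind) (by grind) hab hac hbc hR hB⟩
    intro t ht; simp only [mem_insert] at ht; grind
end

section
variable {R : Fin 3 → W → W → Prop}

def App (R : W → W → Prop) (S : Finset W) : Prop := ∃ x ∈ S, ∃ y ∈ S, x ≠ y ∧ R x y

theorem four' (hs : ∀ i x y, R i x y → R i y x) (ht : ∀ x y, x ≠ y → ∃ i, R i x y)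
    {S : Finset W} (i j l : Fin 3) (h : ∀ c, c = i ∨ c = j ∨ c = l) {v p q : W} (hv : v ∈ S)
    (hp : p ∈ S) (hq : q ∈ S) (hvp : v ≠ p) (hvq : v ≠ q) (h1 : R i v p) (h2 : R j v q)
    (h3 : App (R l) S) : ∃ X ⊆ S, X.card ≤ 4 ∧ ∀ c, App (R c) X := by
  obtain ⟨s, hs', t, ht', hst, h3⟩ := h3
  have key : ∀ a b c d, a ∈ S → b ∈ S → c ∈ S → d ∈ S → App (R i) {a, b, c, d} →
      App (R j) {a, b, c, d} → App (R l) {a, b, c, d} →
      ∃ X ⊆ S, X.card ≤ 4 ∧ ∀ c, App (R c) X := by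
    intro a b c d ha hb hc hd g1 g2 g3
    refine ⟨{a, b, c, d}, ?_, card_le_four, fun c => ?_⟩
    · intro u hu; simp only [mem_insert, mem_singleton] at hu; grind
    · rcases h c with rfl | rfl | rfl <;> assumption
  by_cases hvs : v = s
  · subst hvs
    exact key v p q t hv hp hq ht' ⟨v, by simp, p, by simp, hvp, h1⟩
      ⟨v, by simp, q, by simp, hvq, h2⟩ ⟨v, by simp, t, by simp, hst, h3⟩
  obtain ⟨c, hc⟩ := ht v s hvs
  rcases h c with rfl | rfl | rfl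
  · exact key v s t q hv hs' ht' hq ⟨v, by simp, s, by simp, hvs, hc⟩
      ⟨v, by simp, q, by simp, hvq, h2⟩ ⟨s, by simp, t, by simp, hst, h3⟩
  · exact key v s t p hv hs' ht' hp ⟨v, by simp, p, by simp, hvp, h1⟩
      ⟨v, by simp, s, by simp, hvs, hc⟩ ⟨s, by simp, t, by simp, hst, h3⟩
  · exact key v p q s hv hp hq hs' ⟨v, by simp, p, by simp, hvp, h1⟩
      ⟨v, by simp, q, by simp, hvq, h2⟩ ⟨v, by simp, s, by simp, hvs, hc⟩

theorem App.mono {R : W → W → Prop} {S T : Finset W} (h : App R S) (hST : S ⊆ T) : App R T := by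
  obtain ⟨x, hx, y, hy, h⟩ := h
  exact ⟨x, hST hx, y, hST hy, h⟩

theorem four (hs : ∀ i x y, R i x y → R i y x) (ht : ∀ x y, x ≠ y → ∃ i, R i x y)
    (S : Finset W) : ∃ X ⊆ S, X.card ≤ 4 ∧ ∀ c, App (R c) S → App (R c) X := by
  have hE : ∀ i, ∃ E ⊆ S, E.card ≤ 2 ∧ (App (R i) S → App (R i) E) := by
    intro i
    by_cases h : App (R i) S
    · obtain ⟨x, hx, y, hy, h⟩ := h
      refine ⟨{x, y}, ?_, card_le_two, fun _ => ⟨x, by simp, y, by simp, h⟩⟩
      intro u hu; simp only [mem_insert, mem_singleton] at hu; grind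
    · exact ⟨∅, empty_subset _, by simp, fun h' => absurd h' h⟩
  choose E hE1 hE2 hE3 using hE
  have two : ∀ i j l : Fin 3, (∀ c, c = i ∨ c = j ∨ c = l) → ¬ App (R l) S →
      ∃ X ⊆ S, X.card ≤ 4 ∧ ∀ c, App (R c) S → App (R c) X := by
    intro i j l h hl
    refine ⟨E i ∪ E j, union_subset (hE1 i) (hE1 j), ?_, fun c hc => ?_⟩
    · have := card_union_le (E i) (E j); have := hE2 i; have := hE2 j; omega
    · rcases h c with rfl | rfl | rfl
      · exact (hE3 _ hc).mono subset_union_left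
      · exact (hE3 _ hc).mono subset_union_right
      · exact absurd hc hl
  by_cases h0 : App (R 0) S
  swap
  · exact two 1 2 0 (by decide) h0
  by_cases h1 : App (R 1) S
  swap
  · exact two 0 2 1 (by decide) h1
  by_cases h2 : App (R 2) S
  swap
  · exact two 0 1 2 (by decide) h2
  suffices h : ∃ X ⊆ S, X.card ≤ 4 ∧ ∀ c, App (R c) X by
    obtain ⟨X, a, b, c⟩ := h
    exact ⟨X, a, b, fun i _ => c i⟩
  obtain ⟨x, hx, y, hy, hxy, r0⟩ := id h0
  obtain ⟨z, hz, w, hw, hzw, r1⟩ := id h1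
  by_cases hxz : x = z
  · subst hxz
    exact four' hs ht 0 1 2 (by decide) hx hy hw hxy hzw r0 r1 h2
  obtain ⟨c, hc⟩ := ht x z hxz
  have : c = 0 ∨ c = 1 ∨ c = 2 := (by decide : ∀ c : Fin 3, c = 0 ∨ c = 1 ∨ c = 2) c
  rcases this with rfl | rfl | rfl
  · exact four' hs ht 0 1 2 (by decide) hz hx hw (Ne.symm hxz) hzw (hs _ _ _ hc) r1 h2
  · exact four' hs ht 0 1 2 (by decide) hx hy hz hxy hxz r0 hc h2
  · exact four' hs ht 0 2 1 (by decide) hx hy hz hxy hxz r0 hc h1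

theorem cl (hs : ∀ i x y, R i x y → R i y x) (ht : ∀ x y, x ≠ y → ∃ i, R i x y) :
    ∀ (k : ℕ) (S : Finset W), 4 * (k + 1) ≤ S.card + 2 → ∃ i, ∃ C ⊆ S, Mt (R i) C (k + 1) := by
  intro k
  induction k with
  | zero =>
    intro S hS
    obtain ⟨x, hx, y, hy, hxy⟩ := one_lt_card.1 (show 1 < S.card by omega)
    obtain ⟨i, hi⟩ := ht x y hxy
    refine ⟨i, _, ?_, Mt.cons x y Mt.nil (by simp) (by simp) hxy hi⟩
    intro u hu; simp only [mem_insert, notMem_empty] at hu; grind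
  | succ k ih =>
    intro S hS
    obtain ⟨X, hX, hX4, hA⟩ := four hs ht S
    have h4 := le_card_sdiff X S
    obtain ⟨i, C, hC, m⟩ := ih (S \ X) (by omega)
    have hC' : ∀ t ∈ C, t ∈ S ∧ t ∉ X := fun t ht => mem_sdiff.1 (hC ht)
    obtain ⟨b, hb⟩ := m.ne
    obtain ⟨a, ha, C', hab, hr, -⟩ := m.erase' (hs i) b hb
    obtain ⟨x, hx, y, hy, hxy, hr'⟩ := hA i ⟨a, (hC' a ha).1, b, (hC' b hb).1, hab, hr⟩
    refine ⟨i, _, ?_, Mt.cons x y m (by grind) (by grind) hxy hr'⟩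
    intro u hu; simp only [mem_insert] at hu
    have := hX hx; have := hX hy; grind
end

end H20Sw
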