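import Pool.Agent.H20.SwDefs

namespace H20Sw
open SimpleGraph

variable {N : Type} {T : SimpleGraph N}

theorem reach_ind {G : SimpleGraph N} {x : N} (P : N → Prop) (h0 : P x)
    (hs : ∀ z w, P z → G.Adj z w → P w) {z : N} (h : G.Reachable x z) : P z := by
  rw [reachable_iff_reflTransGen] at h
  induction h with
  | refl => exact h0
  | tail _ hab ih => exact hs _ _ ih hab

theorem cover2 (hT : T.Connected) (x y z : N) :
    (T.deleteEdges {s(x, y)}).Reachable x z ∨ (T.deleteEdges {s(x, y)}).Reachable y z := by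
  refine reach_ind (G := T) (x := x) (fun z => (T.deleteEdges {s(x, y)}).Reachable x z ∨
    (T.deleteEdges {s(x, y)}).Reachable y z) (Or.inl (Reachable.refl _)) ?_ (hT.preconnected x z)
  intro z w hz hzw
  by_cases h : s(z, w) = s(x, y)
  · rcases Sym2.eq_iff.1 h with ⟨-, rfl⟩ | ⟨-, rfl⟩
    · exact Or.inr (Reachable.refl _)
    · exact Or.inl (Reachable.refl _)
  · have : (T.deleteEdges {s(x, y)}).Adj z w := by simp only [deleteEdges_adj]; exact ⟨hzw, h⟩
    rcases hz with hz | hz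
    · exact Or.inl (hz.trans this.reachable)
    · exact Or.inr (hz.trans this.reachable)

theorem cover3 (hT : T.Connected) (x z : N) :
    z = x ∨ ∃ y, T.Adj x y ∧ (T.deleteEdges {s(y, x)}).Reachable y z := by
  refine reach_ind (G := T) (x := x) (fun z => z = x ∨ ∃ y, T.Adj x y ∧
    (T.deleteEdges {s(y, x)}).Reachable y z) (Or.inl rfl) ?_ (hT.preconnected x z)
  intro z w hz hzw
  by_cases hw : w = x
  · exact Or.inl hw
  by_cases hzx : z = x
  · subst hzx
    exact Or.inr ⟨w, hzw, Reachable.refl _⟩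
  rcases hz with hz | ⟨y, hy, hz⟩
  · exact absurd hz hzx
  have : (T.deleteEdges {s(y, x)}).Adj z w := by
    simp only [deleteEdges_adj]
    refine ⟨hzw, fun h => ?_⟩
    rcases Sym2.eq_iff.1 h with ⟨-, h⟩ | ⟨h, -⟩
    · exact hw h
    · exact hzx h
  exact Or.inr ⟨y, hy, hz.trans this.reachable⟩

theorem disj2 (hT : T.IsTree) {x y z : N} (hxy : T.Adj x y)
    (h1 : (T.deleteEdges {s(x, y)}).Reachable x z) (h2 : (T.deleteEdges {s(y, x)}).Reachable y z) :
    False := by
  have hb := isAcyclic_iff_forall_isBridge.1 hT.isAcyclic (e := s(x, y)) hxy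
  rw [isBridge_iff] at hb
  rw [Sym2.eq_swap] at h2
  exact hb (h1.trans h2.symm)

theorem sink [Finite N] (hT : T.IsTree) (big : N → N → Prop)
    (h : ∀ x y, T.Adj x y → big x y → big y x → False) : ∃ x, ∀ y, T.Adj x y → ¬ big y x := by
  by_contra hne
  push Not at hne
  choose f hf1 hf2 using hne
  have hc := (isTree_iff_connected_and_card.1 hT).2
  have hinj : Function.Injective (fun x => (⟨s(x, f x), hf1 x⟩ : T.edgeSet)) := by
    intro x x' hx
    have hx' : s(x, f x) = s(x', f x') := congrArg Subtype.val hx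
    rcases Sym2.eq_iff.1 hx' with ⟨h1, -⟩ | ⟨h1, h2⟩
    · exact h1
    · exfalso
      have a := hf2 x
      have b := hf2 x'
      rw [← h1, ← h2] at b
      exact h _ _ (hf1 x) b a
  have : Nat.card N ≤ Nat.card T.edgeSet := Nat.card_le_card_of_injective _ hinj
  omega

def Nd (m : Fin 3 → ℕ) : Set (ℕ × Fin 3) := {p | (p.1 = 0 ∧ p.2 = 0) ∨ (1 ≤ p.1 ∧ p.1 < 2 * m p.2)}

def rel {m : Fin 3 → ℕ} (p q : Nd m) : Prop :=
  (p.1.1 = 1 ∧ q.1.1 = 0) ∨ (2 ≤ p.1.1 ∧ q.1.1 = p.1.1 / 2 ∧ q.1.2 = p.1.2)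

def Tr (m : Fin 3 → ℕ) : SimpleGraph (Nd m) where
  Adj p q := rel p q ∨ rel q p
  symm := ⟨fun _ _ h => h.symm⟩
  loopless := ⟨fun p h => by simp only [rel] at h; omega⟩

theorem nd_ext {m : Fin 3 → ℕ} {p q : Nd m} : p = q ↔ p.1.1 = q.1.1 ∧ p.1.2 = q.1.2 :=
  ⟨fun h => by subst h; simp, fun h => Subtype.ext (Prod.ext h.1 h.2)⟩

theorem nd_fin (m : Fin 3 → ℕ) : Finite (Nd m) := by
  refine Set.Finite.to_subtype (((Set.finite_Iio (2 * (∑ i, m i) + 1)).prod
    Set.finite_univ).subset ?_)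
  intro p hp
  have : m p.2 ≤ ∑ i, m i := Finset.single_le_sum (fun _ _ => Nat.zero_le _) (Finset.mem_univ _)
  simp only [Nd, Set.mem_ofPred_eq] at hp
  simp only [Set.mem_prod, Set.mem_Iio, Set.mem_univ, and_true]
  omega

theorem par_ex {m : Fin 3 → ℕ} (p : Nd m) (hp : 1 ≤ p.1.1) : ∃ q, rel p q := by
  have h := p.2
  simp only [Nd, Set.mem_ofPred_eq] at h
  by_cases h1 : p.1.1 = 1
  · exact ⟨⟨(0, 0), Or.inl ⟨rfl, rfl⟩⟩, Or.inl ⟨h1, rfl⟩⟩
  · exact ⟨⟨(p.1.1 / 2, p.1.2), Or.inr (by dsimp only; omega)⟩, Or.inr ⟨by omega, rfl, rfl⟩⟩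

theorem par_uniq {m : Fin 3 → ℕ} {p q q' : Nd m} (h : rel p q) (h' : rel p q') : q = q' := by
  have a := q.2
  have b := q'.2
  simp only [Nd, Set.mem_ofPred_eq] at a b
  simp only [rel] at h h'
  rw [nd_ext]
  omega

theorem it_le (k : ℕ) : ∀ a : ℕ, (fun a => a / 2)^[k] a ≤ a := by
  induction k with
  | zero => simp
  | succ k ih => intro a; rw [Function.iterate_succ_apply]; exact (ih _).trans (Nat.div_le_self _ _)

theorem desc {m : Fin 3 → ℕ} {x y z : Nd m} (hxy : rel x y)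
    (h : ((Tr m).deleteEdges {s(x, y)}).Reachable x z) : z.1.2 = x.1.2 ∧ x.1.1 ≤ z.1.1 := by
  have hx : 1 ≤ x.1.1 := by simp only [rel] at hxy; omega
  have : z.1.2 = x.1.2 ∧ ∃ k, (fun a => a / 2)^[k] z.1.1 = x.1.1 := by
    refine reach_ind (fun z : Nd m => z.1.2 = x.1.2 ∧ ∃ k, (fun a => a / 2)^[k] z.1.1 = x.1.1)
      ⟨rfl, 0, rfl⟩ ?_ h
    rintro z w ⟨hz, k, hk⟩ hzw
    simp only [deleteEdges_adj, Set.mem_singleton_iff] at hzw
    obtain ⟨hzw | hzw, hne⟩ := hzw
    · cases k with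
      | zero =>
        have : z = x := nd_ext.2 ⟨hk, hz⟩
        subst this
        exact absurd (by rw [par_uniq hzw hxy]) hne
      | succ k =>
        rw [Function.iterate_succ_apply] at hk
        have := it_le k (z.1.1 / 2)
        simp only [rel] at hzw
        have h2 : w.1.1 = z.1.1 / 2 ∧ w.1.2 = z.1.2 := by
          rcases hzw with h | h
          · omega
          · exact h.2
        exact ⟨h2.2.trans hz, k, by rw [h2.1]; exact hk⟩
    · have := it_le k z.1.1
      simp only [rel] at hzw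
      have h2 : z.1.1 = w.1.1 / 2 ∧ z.1.2 = w.1.2 := by
        rcases hzw with h | h
        · omega
        · exact h.2
      exact ⟨h2.2.symm.trans hz, k + 1, by rw [Function.iterate_succ_apply]; rw [h2.1] at hk; exact hk⟩
  obtain ⟨h1, k, hk⟩ := this
  have := it_le k z.1.1
  exact ⟨h1, by omega⟩

theorem tr_conn (m : Fin 3 → ℕ) : (Tr m).Connected := by
  let r : Nd m := ⟨(0, 0), Or.inl ⟨rfl, rfl⟩⟩
  have : ∀ n, ∀ p : Nd m, p.1.1 ≤ n → (Tr m).Reachable p r := by
    intro n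
    induction n with
    | zero =>
      intro p hp
      have h := p.2
      simp only [Nd, Set.mem_ofPred_eq] at h
      have : p = r := nd_ext.2 (by simp only [r]; omega)
      rw [this]
    | succ n ih =>
      intro p hp
      by_cases h0 : p.1.1 ≤ n
      · exact ih p h0
      obtain ⟨q, hq⟩ := par_ex p (by omega)
      have : (Tr m).Adj p q := Or.inl hq
      exact this.reachable.trans (ih q (by simp only [rel] at hq; omega))
  haveI hne : Nonempty (Nd m) := ⟨r⟩
  exact ⟨fun p q => (this _ p le_rfl).trans (this _ q le_rfl).symm⟩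

theorem tr_tree (m : Fin 3 → ℕ) : (Tr m).IsTree := by
  refine ⟨tr_conn m, isAcyclic_iff_forall_isBridge.2 fun e he => ?_⟩
  induction e using Sym2.ind with
  | _ x y =>
    have key : ∀ x y : Nd m, rel x y → (Tr m).IsBridge s(x, y) := by
      intro x y h
      rw [isBridge_iff]
      intro h'
      have := (desc h h').2
      simp only [rel] at h
      omega
    rcases (show rel x y ∨ rel y x from he) with h | h
    · exact key x y h
    · rw [Sym2.eq_swap]; exact key y x h

theorem deg_leaf {m : Fin 3 → ℕ} (hm : ∀ i, 1 ≤ m i) (p : Nd m) (hp : m p.1.2 ≤ p.1.1) :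
    ((Tr m).neighborSet p).ncard = 1 := by
  obtain ⟨q, hq⟩ := par_ex p ((hm _).trans hp)
  refine Set.ncard_eq_one.2 ⟨q, Set.ext fun z => ⟨fun h => ?_, fun h => ?_⟩⟩
  · rcases (show rel p z ∨ rel z p from h) with h | h
    · exact par_uniq h hq
    · exfalso
      have a := z.2
      have := hm p.1.2
      simp only [Nd, Set.mem_ofPred_eq] at a
      simp only [rel] at h
      rcases h with h | ⟨h1, h2, h3⟩
      · omega
      · rw [← h3] at a; omega
  · rw [show z = q from h]; exact Or.inl hq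

theorem deg_int {m : Fin 3 → ℕ} (hm : ∀ i, 1 ≤ m i) (p : Nd m) (hp : p.1.1 < m p.1.2) :
    ((Tr m).neighborSet p).ncard = 3 := by
  by_cases h0 : p.1.1 = 0
  · refine Set.ncard_eq_three.2 ⟨⟨(1, 0), Or.inr ⟨le_rfl, by have := hm 0; dsimp only; omega⟩⟩,
      ⟨(1, 1), Or.inr ⟨le_rfl, by have := hm 1; dsimp only; omega⟩⟩,
      ⟨(1, 2), Or.inr ⟨le_rfl, by have := hm 2; dsimp only; omega⟩⟩, by rw [Ne, nd_ext]; simp,
      by rw [Ne, nd_ext]; simp, by rw [Ne, nd_ext]; simp,
      Set.ext fun z => ?_⟩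
    change rel p z ∨ rel z p ↔ _
    simp only [rel, Set.mem_insert_iff, Set.mem_singleton_iff, nd_ext]
    have := (by decide : ∀ c : Fin 3, c = 0 ∨ c = 1 ∨ c = 2) z.1.2
    omega
  · obtain ⟨q, hq⟩ := par_ex p (by omega)
    have hq' : q.1.1 < p.1.1 := by simp only [rel] at hq; omega
    refine Set.ncard_eq_three.2 ⟨q, ⟨(2 * p.1.1, p.1.2), Or.inr (by dsimp only; omega)⟩,
      ⟨(2 * p.1.1 + 1, p.1.2), Or.inr (by dsimp only; omega)⟩, ?_, ?_, ?_, Set.ext fun z => ?_⟩
    · rw [Ne, nd_ext]; dsimp only; omega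
    · rw [Ne, nd_ext]; dsimp only; omega
    · rw [Ne, nd_ext]; dsimp only; omega
    change rel p z ∨ rel z p ↔ _
    have e : rel p z ↔ z = q := ⟨fun h => par_uniq h hq, fun h => h ▸ hq⟩
    simp only [Set.mem_insert_iff, Set.mem_singleton_iff, e]
    refine or_congr Iff.rfl ?_
    simp only [rel, nd_ext]
    omega

theorem exists_bd {V : Type} [Finite V] (cls : V → Fin 3) (hs : Function.Surjective cls) :
    ∃ (N : Type) (_ : Finite N) (T : SimpleGraph N) (δ : V → N), IsBD T δ ∧ ∀ x y, T.Adj x y →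
      ∃ i, (∀ v ∈ side T δ x y, cls v = i) ∨ (∀ v, v ∉ side T δ x y → cls v = i) := by
  let m : Fin 3 → ℕ := fun i => Nat.card {v // cls v = i}
  let eqv : ∀ i, {v // cls v = i} ≃ Fin (m i) := fun i => Finite.equivFin _
  let idx : V → ℕ := fun v => (eqv (cls v) ⟨v, rfl⟩).val
  have key : ∀ v i (h : cls v = i), idx v = (eqv i ⟨v, h⟩).val := by
    intro v i h; subst h; rfl
  have hm : ∀ i, 1 ≤ m i := by
    intro i
    obtain ⟨v, hv⟩ := hs i
    haveI : Nonempty {v // cls v = i} := ⟨⟨v, hv⟩⟩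
    exact Nat.card_pos
  have hlt : ∀ v, idx v < m (cls v) := fun v => (eqv (cls v) ⟨v, rfl⟩).2
  let δ : V → Nd m := fun v => ⟨(m (cls v) + idx v, cls v), Or.inr (by
    have := hm (cls v); have := hlt v; dsimp only; omega)⟩
  refine ⟨Nd m, nd_fin m, Tr m, δ, ⟨tr_tree m, fun x => ?_, fun v v' h => ?_, fun x => ?_⟩,
    fun x y hxy => ?_⟩
  · by_cases h : m x.1.2 ≤ x.1.1
    · exact Or.inl (deg_leaf hm x h)
    · exact Or.inr (deg_int hm x (by omega))
  · obtain ⟨h1, h2⟩ := nd_ext.1 h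
    simp only [δ] at h1 h2
    have h3 : idx v = idx v' := by rw [h2] at h1; omega
    rw [key v _ h2, key v' _ rfl] at h3
    exact congrArg Subtype.val ((eqv _).injective (Fin.ext h3))
  · constructor
    · rintro ⟨v, rfl⟩
      exact deg_leaf hm _ (by simp only [δ]; omega)
    · intro h
      have h1 : m x.1.2 ≤ x.1.1 := by
        by_contra h'
        rw [deg_int hm x (by omega)] at h
        omega
      have a := x.2
      simp only [Nd, Set.mem_ofPred_eq] at a
      have := hm x.1.2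
      let v := (eqv x.1.2).symm ⟨x.1.1 - m x.1.2, by omega⟩
      refine ⟨v.1, nd_ext.2 ⟨?_, v.2⟩⟩
      have h2 : idx v.1 = x.1.1 - m x.1.2 := by
        rw [key v.1 _ v.2]
        simp [v]
      simp only [δ]
      rw [h2, v.2]
      omega
  · rcases (show rel x y ∨ rel y x from hxy) with h | h
    · exact ⟨x.1.2, Or.inl fun v hv => (desc h hv).1⟩
    · refine ⟨y.1.2, Or.inr fun v hv => ?_⟩
      rcases cover2 (tr_conn m) x y (δ v) with h' | h'
      · exact absurd h' hv
      · rw [Sym2.eq_swap] at h'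
        exact (desc h h').1

end H20Sw
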