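import Pool.Agent.H20.Sw1
import Pool.Agent.H20.Sw2

namespace H20Sw
open SimpleGraph Finset

abbrev Ed (n : ℕ) := (⊤ : SimpleGraph (Fin n)).edgeSet
abbrev LK (n : ℕ) : SimpleGraph (Ed n) := (⊤ : SimpleGraph (Fin n)).lineGraph

variable {n : ℕ}

def rl (A : Set (Ed n)) (x y : Fin n) : Prop := ∃ e ∈ A, e.1 = s(x, y)

theorem rl_symm (A : Set (Ed n)) (x y : Fin n) (h : rl A x y) : rl A y x := by
  obtain ⟨e, he, h⟩ := h
  exact ⟨e, he, h.trans Sym2.eq_swap⟩

theorem col (A : Set (Ed n)) : Col (rl A) (rl Aᶜ) := by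
  refine ⟨rl_symm _, rl_symm _, fun x y hxy => ?_, ?_⟩
  · let e : Ed n := ⟨s(x, y), by simpa using hxy⟩
    by_cases h : e ∈ A
    · exact Or.inl ⟨e, h, rfl⟩
    · exact Or.inr ⟨e, h, rfl⟩
  · rintro x y ⟨e, he, h⟩ ⟨e', he', h'⟩
    exact he' ((Subtype.ext (h.trans h'.symm) : e = e') ▸ he)

theorem Mt.mono {W : Type} [DecidableEq W] {R R' : W → W → Prop} (h : ∀ x y, R x y → R' x y)
    {C : Finset W} {k : ℕ} (m : Mt R C k) : Mt R' C k := by
  induction m with
  | nil => exact Mt.nil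
  | cons a b _ ha hb hab hr ih => exact Mt.cons a b ih ha hb hab (h _ _ hr)

theorem ch_mat (A : Set (Ed n)) {C : Finset (Fin n)} {k : ℕ} (h : Ch (rl A) (rl Aᶜ) C k) :
    ∃ M : Finset (Ed n × Ed n), M.card = k ∧ (∀ p ∈ M, p.1 ∈ A ∧ p.2 ∉ A ∧ (LK n).Adj p.1 p.2) ∧
      (∀ p ∈ M, ∀ q ∈ M, p ≠ q → ∀ v, (v ∈ p.1.1 ∨ v ∈ p.2.1) → ¬ (v ∈ q.1.1 ∨ v ∈ q.2.1)) ∧
      ∀ p ∈ M, ∀ v, (v ∈ p.1.1 ∨ v ∈ p.2.1) → v ∈ C := by
  classical
  induction h with
  | nil => exact ⟨∅, rfl, by simp, by simp, by simp⟩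
  | @cons C k a b c _ ha hb hc hab hac hbc hR hB ih =>
    obtain ⟨M, h1, h2, h3, h4⟩ := ih
    obtain ⟨e, he, hev⟩ := hR
    obtain ⟨f, hf, hfv⟩ := hB
    have hnew : ∀ v, (v ∈ e.1 ∨ v ∈ f.1) → v = a ∨ v = b ∨ v = c := by
      intro v hv
      rw [hev, hfv] at hv
      simp only [Sym2.mem_iff] at hv
      tauto
    have hae : a ∈ e.1 := by rw [hev]; simp
    have hnot : (e, f) ∉ M := fun h => ha (h4 _ h a (Or.inl hae))
    refine ⟨insert (e, f) M, by rw [card_insert_of_notMem hnot, h1], ?_, ?_, ?_⟩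
    · intro p hp
      rcases mem_insert.1 hp with rfl | hp
      · refine ⟨he, hf, lineGraph_adj_iff_exists.2 ⟨fun h => hf ?_, a, hae, by rw [hfv]; simp⟩⟩
        have h' : e = f := h
        exact h' ▸ he
      · exact h2 p hp
    · intro p hp q hq hpq v hv hv'
      rcases mem_insert.1 hp with rfl | hp <;> rcases mem_insert.1 hq with rfl | hq
      · exact hpq rfl
      · have := hnew v hv; have := h4 q hq v hv'; grind
      · have := hnew v hv'; have := h4 p hp v hv; grind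
      · exact h3 p hp q hq hpq v hv hv'
    · intro p hp v hv
      simp only [mem_insert]
      rcases mem_insert.1 hp with rfl | hp
      · have := hnew v hv; tauto
      · have := h4 p hp v hv; tauto

theorem le_simval (A : Set (Ed n)) {C : Finset (Fin n)} {k : ℕ} (h : Ch (rl A) (rl Aᶜ) C k) :
    k ≤ simval (LK n) A := by
  obtain ⟨M, h1, h2, h3, -⟩ := ch_mat A h
  haveI := Fintype.ofFinite (Ed n × Ed n)
  refine le_csSup ⟨Fintype.card (Ed n × Ed n), ?_⟩ ⟨M, h1, h2, ?_⟩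
  · rintro j ⟨M, rfl, -⟩
    exact card_le_univ M
  · intro p hp q hq hpq a ha b hb
    have key : ∀ v, v ∈ a.1 → v ∈ b.1 → False := by
      intro v h1 h2
      refine h3 p hp q hq hpq v ?_ ?_
      · rcases ha with rfl | rfl <;> simp [h1]
      · rcases hb with rfl | rfl <;> simp [h2]
    refine ⟨?_, fun h => ?_⟩
    · rintro rfl
      exact key _ (Sym2.out_fst_mem _) (Sym2.out_fst_mem _)
    · obtain ⟨-, v, h1, h2⟩ := lineGraph_adj_iff_exists.1 h
      exact key v h1 h2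

theorem lower {k w : ℕ} (hk : 4 * (k + 2) ≤ n + 2) {N : Type} [Finite N] {T : SimpleGraph N}
    {δ : Ed n → N} (hB : IsBD T δ) (hw : ∀ x y, T.Adj x y → simval (LK n) (side T δ x y) ≤ w) :
    k + 2 ≤ w := by
  by_contra hlt
  obtain ⟨hT, hdeg, hinj, hleaf⟩ := hB
  have hn : 4 * (k + 2) ≤ (univ : Finset (Fin n)).card + 2 := by simpa using hk
  obtain ⟨x, hx⟩ := sink hT (fun x y => ∃ C, Mt (rl (side T δ x y)) C (k + 2)) (by
    rintro x y hxy ⟨C1, m1⟩ ⟨C2, m2⟩
    have m2' : Mt (rl (side T δ x y)ᶜ) C2 (k + 2) := m2.mono (by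
      rintro a b ⟨e, he, h⟩
      exact ⟨e, fun he' => disj2 hT hxy he' he, h⟩)
    obtain ⟨C, -, hC⟩ := packing (col _) _ univ C1 C2 hn (subset_univ _) (subset_univ _) m1 m2'
    have := le_simval _ hC
    have := hw x y hxy
    omega)
  have fin3 : ∀ A : Fin 3 → Set (Ed n), (∀ e, ∃ i, e ∈ A i) → ∃ i C, Mt (rl (A i)) C (k + 2) := by
    intro A hA
    obtain ⟨i, C, -, m⟩ := cl (R := fun i => rl (A i)) (fun i => rl_symm _) (fun a b hab => by
      obtain ⟨i, hi⟩ := hA ⟨s(a, b), by simpa using hab⟩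
      exact ⟨i, _, hi, rfl⟩) (k + 1) univ hn
    exact ⟨i, C, m⟩
  rcases hdeg x with h | h
  · obtain ⟨y, hy⟩ := Set.ncard_eq_one.1 h
    have hxy : T.Adj x y := by
      have : y ∈ T.neighborSet x := by rw [hy]; rfl
      exact this
    obtain ⟨i, C, m⟩ := fin3 (fun i => if i = 0 then side T δ y x else {e | δ e = x}) (by
      intro e
      rcases cover3 hT.connected x (δ e) with h | ⟨z, hz, h⟩
      · exact ⟨1, by simpa using h⟩
      · have : z ∈ T.neighborSet x := hz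
        rw [hy] at this
        obtain rfl : z = y := this
        exact ⟨0, by change e ∈ (if (0 : Fin 3) = 0 then _ else _); rw [if_pos rfl]; exact h⟩)
    by_cases hi : i = 0
    · simp only [hi, if_true] at m
      exact hx y hxy ⟨C, m⟩
    · simp only [hi, if_false] at m
      obtain ⟨b, hb⟩ := m.ne
      obtain ⟨a, ha, C', hab, ⟨e, he, he'⟩, m', hC'⟩ := m.erase' (rl_symm _) b hb
      obtain ⟨d, hd⟩ := m'.ne
      obtain ⟨c, hc, C'', hcd, ⟨f, hf, hf'⟩, -⟩ := m'.erase' (rl_symm _) d hd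
      have hef : e = f := hinj ((show δ e = x from he).trans (show δ f = x from hf).symm)
      rw [hef, hf'] at he'
      have := (hC' c).1 hc
      rcases Sym2.eq_iff.1 he' with h | h <;> tauto
  · obtain ⟨y0, y1, y2, -, -, -, hy⟩ := Set.ncard_eq_three.1 h
    have hadj : ∀ i : Fin 3, T.Adj x (![y0, y1, y2] i) := by
      intro i
      have : ![y0, y1, y2] i ∈ T.neighborSet x := by rw [hy]; fin_cases i <;> simp
      exact this
    obtain ⟨i, C, m⟩ := fin3 (fun i => side T δ (![y0, y1, y2] i) x) (by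
      intro e
      rcases cover3 hT.connected x (δ e) with h' | ⟨z, hz, h'⟩
      · have := (hleaf x).1 ⟨e, h'⟩
        omega
      · have : z ∈ T.neighborSet x := hz
        rw [hy] at this
        rcases this with rfl | rfl | rfl
        · exact ⟨0, h'⟩
        · exact ⟨1, h'⟩
        · exact ⟨2, h'⟩)
    exact hx _ (hadj i) ⟨C, m⟩

theorem simval_le (A P : Set (Ed n)) (hA : (∀ e ∈ A, e ∈ P) ∨ ∀ e, e ∉ A → e ∈ P)
    (U : Finset (Fin n)) (j w : ℕ) (hj : ∀ e ∈ P, j ≤ (U.filter (· ∈ e.1)).card)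
    (hw : U.card < j * (w + 1)) : simval (LK n) A ≤ w := by
  refine csSup_le' ?_
  rintro k ⟨M, rfl, h1, h2⟩
  obtain ⟨g, hg1, hg2⟩ : ∃ g : Ed n × Ed n → Ed n, (∀ p ∈ M, g p ∈ P) ∧
      ∀ p, g p = p.1 ∨ g p = p.2 := by
    rcases hA with h | h
    · exact ⟨Prod.fst, fun p hp => h _ (h1 p hp).1, fun _ => Or.inl rfl⟩
    · exact ⟨Prod.snd, fun p hp => h _ (h1 p hp).2.1, fun _ => Or.inr rfl⟩
  have hd : (M.biUnion fun p => U.filter (· ∈ (g p).1)).card =
      ∑ p ∈ M, (U.filter (· ∈ (g p).1)).card := by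
    refine card_biUnion fun p hp q hq hpq => ?_
    refine disjoint_left.2 fun v hv hv' => ?_
    obtain ⟨a, b⟩ := h2 p hp q hq hpq _ (hg2 p) _ (hg2 q)
    exact b (lineGraph_adj_iff_exists.2 ⟨a, v, (mem_filter.1 hv).2, (mem_filter.1 hv').2⟩)
  have hle : (M.biUnion fun p => U.filter (· ∈ (g p).1)).card ≤ U.card :=
    card_le_card (biUnion_subset.2 fun p _ => filter_subset _ _)
  have hs : M.card • j ≤ ∑ p ∈ M, (U.filter (· ∈ (g p).1)).card :=
    card_nsmul_le_sum _ _ _ fun p hp => hj _ (hg1 p hp)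
  rw [smul_eq_mul] at hs
  have : j * M.card < j * (w + 1) := by rw [mul_comm]; omega
  have := Nat.lt_of_mul_lt_mul_left this
  omega

open Classical in
noncomputable def cls (w : ℕ) (e : Ed n) : Fin 3 :=
  if ∃ v ∈ e.1, v.1 < w then 1 else if ∃ v ∈ e.1, v.1 < 2 * w then 2 else 0

theorem card_ico (a b : ℕ) : (univ.filter fun v : Fin n => a ≤ v.1 ∧ v.1 < b).card ≤ b - a := by
  rw [← Nat.card_Ico a b]
  exact card_le_card_of_injOn (fun v => v.1) (fun v hv => by simpa using hv)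
    fun _ _ _ _ h => Fin.ext h

theorem upper {w : ℕ} (hw : 1 ≤ w) (h1 : 2 * w + 2 ≤ n) (h2 : n ≤ 4 * w + 1) :
    ∃ (N : Type) (_ : Finite N) (T : SimpleGraph N) (δ : Ed n → N), IsBD T δ ∧
      ∀ x y, T.Adj x y → simval (LK n) (side T δ x y) ≤ w := by
  have hsurj : Function.Surjective (cls (n := n) w) := by
    intro i
    have hi := (by decide : ∀ c : Fin 3, c = 0 ∨ c = 1 ∨ c = 2) i
    rcases hi with rfl | rfl | rfl
    · refine ⟨⟨s(⟨2 * w, by omega⟩, ⟨2 * w + 1, by omega⟩), by simp⟩, ?_⟩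
      unfold cls
      rw [if_neg, if_neg] <;> simp <;> omega
    · refine ⟨⟨s(⟨0, by omega⟩, ⟨2 * w + 1, by omega⟩), by simp⟩, ?_⟩
      unfold cls
      rw [if_pos]; simp; omega
    · refine ⟨⟨s(⟨w, by omega⟩, ⟨2 * w + 1, by omega⟩), by simp; omega⟩, ?_⟩
      unfold cls
      rw [if_neg, if_pos] <;> simp <;> omega
  obtain ⟨N, hN, T, δ, hB, h⟩ := exists_bd _ hsurj
  refine ⟨N, hN, T, δ, hB, fun x y hxy => ?_⟩
  obtain ⟨i, hi⟩ := h x y hxy
  have hi' := (by decide : ∀ c : Fin 3, c = 0 ∨ c = 1 ∨ c = 2) i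
  rcases hi' with rfl | rfl | rfl
  · refine simval_le _ {e | cls w e = 0} hi (univ.filter fun v => 2 * w ≤ v.1 ∧ v.1 < n) 2 w ?_
      (by have := card_ico (n := n) (2 * w) n; omega)
    rintro ⟨e, he⟩ h
    induction e using Sym2.ind with
    | _ a b =>
      have hab : a ≠ b := by simpa using he
      have h' : ¬ ∃ v ∈ s(a, b), v.1 < 2 * w := by
        intro h'
        have h : cls w ⟨s(a, b), he⟩ = 0 := h
        unfold cls at h
        rw [if_pos h'] at h
        split_ifs at h <;> simp at h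
      push Not at h'
      refine (card_pair hab).symm.le.trans (card_le_card fun v hv => ?_)
      have hv' : v ∈ s(a, b) := by simpa using hv
      simp only [mem_filter, mem_univ, true_and]
      exact ⟨⟨h' v hv', v.2⟩, hv'⟩
  · refine simval_le _ {e | cls w e = 1} hi (univ.filter fun v => 0 ≤ v.1 ∧ v.1 < w) 1 w ?_
      (by have := card_ico (n := n) 0 w; omega)
    intro e h
    have h : cls w e = 1 := h
    unfold cls at h
    split_ifs at h with a b
    · obtain ⟨v, hv, hv'⟩ := a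
      exact card_pos.2 ⟨v, by simp [hv, hv']⟩
    · simp at h
    · simp at h
  · refine simval_le _ {e | cls w e = 2} hi (univ.filter fun v => w ≤ v.1 ∧ v.1 < 2 * w) 1 w ?_
      (by have := card_ico (n := n) w (2 * w); omega)
    intro e h
    have h : cls w e = 2 := h
    unfold cls at h
    split_ifs at h with a b
    · simp at h
    · obtain ⟨v, hv, hv'⟩ := b
      push Not at a
      exact card_pos.2 ⟨v, by simp [hv, hv', a v hv]⟩
    · simp at h

theorem lower1 {w : ℕ} (hn : 3 ≤ n) {N : Type} [Finite N] {T : SimpleGraph N}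
    {δ : Ed n → N} (hB : IsBD T δ) (hw : ∀ x y, T.Adj x y → simval (LK n) (side T δ x y) ≤ w) :
    1 ≤ w := by
  obtain ⟨hT, hdeg, hinj, hleaf⟩ := hB
  let a : Fin n := ⟨0, by omega⟩
  let b : Fin n := ⟨1, by omega⟩
  let c : Fin n := ⟨2, by omega⟩
  have hab : a ≠ b := by simp [a, b]
  have hac : a ≠ c := by simp [a, c]
  have hbc : b ≠ c := by simp [b, c]
  let e : Ed n := ⟨s(a, b), by simpa using hab⟩
  let f : Ed n := ⟨s(a, c), by simpa using hac⟩
  obtain ⟨y, hy⟩ := Set.ncard_eq_one.1 ((hleaf (δ e)).1 ⟨e, rfl⟩)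
  have hxy : T.Adj (δ e) y := by
    have : y ∈ T.neighborSet (δ e) := by rw [hy]; rfl
    exact this
  have hf : f ∈ (side T δ (δ e) y)ᶜ := by
    intro hf
    rcases cover3 hT.connected (δ e) (δ f) with h | ⟨z, hz, h⟩
    · have : s(a, c) = s(a, b) := congrArg Subtype.val (hinj h)
      rcases Sym2.eq_iff.1 this with h | h
      · exact hbc h.2.symm
      · exact hab h.1
    · have : z ∈ T.neighborSet (δ e) := hz
      rw [hy] at this
      obtain rfl : z = y := this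
      exact disj2 hT hxy hf h
  have := le_simval (side T δ (δ e) y) (Ch.cons a b c Ch.nil (by simp) (by simp) (by simp) hab hac
    hbc ⟨e, Reachable.refl _, rfl⟩ ⟨f, hf, rfl⟩)
  exact this.trans (hw _ _ hxy)

theorem upper3 : ∃ (N : Type) (_ : Finite N) (T : SimpleGraph N) (δ : Ed 3 → N), IsBD T δ ∧
      ∀ x y, T.Adj x y → simval (LK 3) (side T δ x y) ≤ 1 := by
  have hsurj : Function.Surjective
      (fun e : Ed 3 => if 0 ∉ e.1 then (0 : Fin 3) else if 1 ∉ e.1 then 1 else 2) := by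
    intro i
    have hi := (by decide : ∀ c : Fin 3, c = 0 ∨ c = 1 ∨ c = 2) i
    rcases hi with rfl | rfl | rfl
    · exact ⟨⟨s(1, 2), by simp⟩, by simp⟩
    · exact ⟨⟨s(0, 2), by simp⟩, by simp⟩
    · exact ⟨⟨s(0, 1), by simp⟩, by simp⟩
  obtain ⟨N, hN, T, δ, hB, -⟩ := exists_bd _ hsurj
  refine ⟨N, hN, T, δ, hB, fun x y _ => simval_le _ Set.univ (Or.inl fun _ _ => trivial) univ 2 1
    ?_ (by simp)⟩
  rintro ⟨e, he⟩ -
  induction e using Sym2.ind with
  | _ a b =>
    have hab : a ≠ b := by simpa using he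
    refine (card_pair hab).symm.le.trans (card_le_card fun v hv => ?_)
    simpa using hv

theorem main0 (hn : 6 ≤ n) : simw (LK n) = (n + 2) / 4 := by
  have hu := upper (n := n) (w := (n + 2) / 4) (by omega) (by omega) (by omega)
  refine le_antisymm (Nat.sInf_le hu) (le_csInf ⟨_, hu⟩ ?_)
  rintro w ⟨N, hN, T, δ, hB, hw⟩
  have := lower (k := (n + 2) / 4 - 2) (by omega) hB hw
  omega

theorem main (hn : 3 ≤ n) : simw (LK n) = (n + 2) / 4 := by
  by_cases h6 : 6 ≤ n
  · exact main0 h6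
  have hu : ∃ (N : Type) (_ : Finite N) (T : SimpleGraph N) (δ : Ed n → N), IsBD T δ ∧
      ∀ x y, T.Adj x y → simval (LK n) (side T δ x y) ≤ 1 := by
    by_cases h3 : n = 3
    · subst h3; exact upper3
    · exact upper le_rfl (by omega) (by omega)
  rw [show (n + 2) / 4 = 1 by omega]
  refine le_antisymm (Nat.sInf_le hu) (le_csInf ⟨_, hu⟩ ?_)
  rintro w ⟨N, hN, T, δ, hB, hw⟩
  exact lower1 hn hB hw

end H20Sw
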