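import Mathlib

namespace H20Sw

/-- `simval G A`: the largest size of an induced matching of `G` all of whose edges have one end
in `A` and the other end outside `A` (an edge is recorded as the pair (end in `A`, end outside)). -/
noncomputable def simval {V : Type} (G : SimpleGraph V) (A : Set V) : ℕ :=
  sSup {k | ∃ M : Finset (V × V), M.card = k ∧ (∀ p ∈ M, p.1 ∈ A ∧ p.2 ∉ A ∧ G.Adj p.1 p.2) ∧
    ∀ p ∈ M, ∀ q ∈ M, p ≠ q → ∀ a, (a = p.1 ∨ a = p.2) → ∀ b, (b = q.1 ∨ b = q.2) →
      a ≠ b ∧ ¬ G.Adj a b}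

/-- The side of the tree edge `xy` that contains `x`: the `v` whose leaf `δ v` is joined to `x`
in `T - xy`. -/
def side {V N : Type} (T : SimpleGraph N) (δ : V → N) (x y : N) : Set V :=
  {v | (T.deleteEdges {s(x, y)}).Reachable x (δ v)}

/-- Branch decomposition: a tree whose vertices have degree 1 (leaves) or 3, and a bijection
`δ` from `V` onto the leaves. -/
def IsBD {V N : Type} (T : SimpleGraph N) (δ : V → N) : Prop :=
  T.IsTree ∧ (∀ x, (T.neighborSet x).ncard = 1 ∨ (T.neighborSet x).ncard = 3) ∧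
    Function.Injective δ ∧ ∀ x, x ∈ Set.range δ ↔ (T.neighborSet x).ncard = 1

/-- Sim-width: the least `w` such that some branch decomposition has all cuts of `simval ≤ w`. -/
noncomputable def simw {V : Type} (G : SimpleGraph V) : ℕ :=
  sInf {w | ∃ (N : Type) (_ : Finite N) (T : SimpleGraph N) (δ : V → N), IsBD T δ ∧
    ∀ x y, T.Adj x y → simval G (side T δ x y) ≤ w}

end H20Sw
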