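import Pool.Agent.H20.TColDefs

namespace Pool.Agent.H20.TCol
open Pool.Agent.H20

theorem four (A : Finset ℕ) (h : A.card = 4) : ∃ a b c d, a < b ∧ b < c ∧ c < d ∧
    a ∈ A ∧ b ∈ A ∧ c ∈ A ∧ d ∈ A ∧ sInf (A : Set ℕ) = a ∧ sSup (A : Set ℕ) = d := by
  let e := A.orderEmbOfFin h
  have hm : ∀ i, e i ∈ A := fun i => Finset.orderEmbOfFin_mem A h i
  have hs : ∀ x ∈ A, ∃ i, e i = x := by
    intro x hx
    have : x ∈ Set.range e := by rw [Finset.range_orderEmbOfFin]; exact hx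
    exact this
  refine ⟨e 0, e 1, e 2, e 3, e.strictMono (by decide), e.strictMono (by decide),
    e.strictMono (by decide), hm _, hm _, hm _, hm _, ?_, ?_⟩
  · apply IsLeast.csInf_eq
    refine ⟨hm _, fun x hx => ?_⟩
    obtain ⟨i, rfl⟩ := hs x hx
    exact e.monotone (Fin.zero_le i)
  · apply IsGreatest.csSup_eq
    refine ⟨hm _, fun x hx => ?_⟩
    obtain ⟨i, rfl⟩ := hs x hx
    exact e.monotone (Fin.le_last i)

def phi (lo a b : ℕ) : Fin 5 :=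
  if a + 15 ≤ b then 0 else if a ≤ lo + 4 then 3 else if b ≤ lo + 10 then 1
  else if b ≤ lo + 13 then 4 else 2

def tgt : Fin 5 → Finset ℕ :=
  ![{1, 2, 17, 18}, {7, 8, 9, 10}, {15, 16, 17, 18}, {1, 2, 3, 4}, {9, 10, 11, 12}]

theorem tgt_ok : ∀ i, (tgt i).card = 4 ∧ ∀ a ∈ tgt i, 1 ≤ a ∧ a ≤ 18 := by decide

theorem tgt_adj : ∀ i j : Fin 5, (j = i + 1 ∨ i = j + 1) → ∀ a ∈ tgt i, ∀ b ∈ tgt j,
    ((4 : ℕ) : ℤ) < |(a : ℤ) - (b : ℤ)| := by decide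

theorem shape (lo a1 a2 a3 a4 b1 b2 b3 b4 : ℕ) (h1 : a1 < a2) (h2 : a2 < a3) (h3 : a3 < a4)
    (k1 : b1 < b2) (k2 : b2 < b3) (k3 : b3 < b4) (l1 : lo ≤ a1) (l2 : a4 ≤ lo + 18)
    (l3 : lo ≤ b1) (l4 : b4 ≤ lo + 18)
    (c : ∀ a ∈ [a1, a2, a3, a4], ∀ b ∈ [b1, b2, b3, b4], a + 5 ≤ b ∨ b + 5 ≤ a) :
    a4 + 5 ≤ b1 ∨ b4 + 5 ≤ a1 ∨ (a1 + 15 ≤ a4 ∧ lo + 5 ≤ b1 ∧ b4 ≤ lo + 13) ∨
      (b1 + 15 ≤ b4 ∧ lo + 5 ≤ a1 ∧ a4 ≤ lo + 13) := by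
  simp only [List.mem_cons, List.not_mem_nil, or_false, forall_eq_or_imp, forall_eq] at c
  obtain ⟨⟨c11, c12, c13, c14⟩, ⟨c21, c22, c23, c24⟩, ⟨c31, c32, c33, c34⟩,
    ⟨c41, c42, c43, c44⟩⟩ := c
  omega

theorem phi_adj (lo a1 a4 b1 b4 : ℕ) (h : a1 + 3 ≤ a4) (k : b1 + 3 ≤ b4) (l1 : lo ≤ a1)
    (l2 : a4 ≤ lo + 18) (l3 : lo ≤ b1) (l4 : b4 ≤ lo + 18)
    (c : a4 + 5 ≤ b1 ∨ b4 + 5 ≤ a1 ∨ (a1 + 15 ≤ a4 ∧ lo + 5 ≤ b1 ∧ b4 ≤ lo + 13) ∨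
      (b1 + 15 ≤ b4 ∧ lo + 5 ≤ a1 ∧ a4 ≤ lo + 13)) :
    phi lo b1 b4 = phi lo a1 a4 + 1 ∨ phi lo a1 a4 = phi lo b1 b4 + 1 := by
  unfold phi
  split_ifs <;> first | decide | (exfalso; omega)

theorem not18 {V : Type} [Fintype V] (G : SimpleGraph V) : minSpan G 4 4 ≠ 18 := by
  intro h
  have hne : {s | ∃ S, IsTupleTCol G 4 4 S ∧ tupleSpan S = s}.Nonempty :=
    Nat.nonempty_of_pos_sInf (by unfold minSpan at h; omega)
  have hm := Nat.sInf_mem hne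
  unfold minSpan at h
  rw [h] at hm
  obtain ⟨S, hS, hsp⟩ := hm
  unfold tupleSpan at hsp
  set U := {a | ∃ x, a ∈ S x} with hU
  have hfin : U.Finite := by
    have : U = ⋃ x, (S x : Set ℕ) := by ext a; simp [hU]
    rw [this]
    exact Set.finite_iUnion fun x => (S x).finite_toSet
  have hb : ∀ x, ∀ a ∈ S x, sInf U ≤ a ∧ a ≤ sInf U + 18 := by
    intro x a ha
    have h1 : sInf U ≤ a := Nat.sInf_le ⟨x, ha⟩
    have h2 : a ≤ sSup U := le_csSup hfin.bddAbove ⟨x, ha⟩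
    omega
  let S' : V → Finset ℕ := fun x => tgt (phi (sInf U) (sInf (S x : Set ℕ)) (sSup (S x : Set ℕ)))
  have hS' : IsTupleTCol G 4 4 S' := by
    refine ⟨fun x => ⟨(tgt_ok _).1, fun a ha => ((tgt_ok _).2 a ha).1⟩, ?_⟩
    intro x y hxy
    apply tgt_adj
    obtain ⟨a1, a2, a3, a4, h1, h2, h3, m1, m2, m3, m4, e1, e2⟩ := four (S x) (hS.1 x).1
    obtain ⟨b1, b2, b3, b4, k1, k2, k3, n1, n2, n3, n4, f1, f2⟩ := four (S y) (hS.1 y).1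
    rw [e1, e2, f1, f2]
    refine phi_adj _ _ _ _ _ (by omega) (by omega) (hb x _ m1).1 (hb x _ m4).2 (hb y _ n1).1
      (hb y _ n4).2 (shape _ a1 a2 a3 a4 b1 b2 b3 b4 h1 h2 h3 k1 k2 k3 (hb x _ m1).1 (hb x _ m4).2
      (hb y _ n1).1 (hb y _ n4).2 ?_)
    intro a ha b hb
    have ha' : a ∈ S x := by
      simp only [List.mem_cons, List.not_mem_nil, or_false] at ha
      rcases ha with rfl | rfl | rfl | rfl <;> assumption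
    have hb' : b ∈ S y := by
      simp only [List.mem_cons, List.not_mem_nil, or_false] at hb
      rcases hb with rfl | rfl | rfl | rfl <;> assumption
    have := hS.2 x y hxy a ha' b hb'
    rcases lt_abs.mp this with h | h <;> omega
  have hle : sInf {s | ∃ S, IsTupleTCol G 4 4 S ∧ tupleSpan S = s} ≤ tupleSpan S' :=
    Nat.sInf_le ⟨S', hS', rfl⟩
  have h17 : tupleSpan S' ≤ 17 := by
    unfold tupleSpan
    rcases Set.eq_empty_or_nonempty {a | ∃ x, a ∈ S' x} with h0 | h0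
    · rw [h0]; simp
    · have a1 : sSup {a | ∃ x, a ∈ S' x} ≤ 18 :=
        csSup_le h0 fun a ⟨x, hx⟩ => ((tgt_ok _).2 a hx).2
      have a2 : 1 ≤ sInf {a | ∃ x, a ∈ S' x} :=
        le_csInf h0 fun a ⟨x, hx⟩ => ((tgt_ok _).2 a hx).1
      omega
  omega

end Pool.Agent.H20.TCol
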