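import Mathlib

namespace Pool.Agent.H20

/-- `S` is an `n`-tuple `T`-colouring of `G` for `T = {0, ..., r}`: every vertex gets a set of
exactly `n` positive integers, and integers on adjacent vertices differ by more than `r`. -/
def IsTupleTCol {V : Type} (G : SimpleGraph V) (r n : ℕ) (S : V → Finset ℕ) : Prop :=
  (∀ x, (S x).card = n ∧ ∀ a ∈ S x, 0 < a) ∧
  ∀ x y, G.Adj x y → ∀ a ∈ S x, ∀ b ∈ S y, (r : ℤ) < |(a : ℤ) - (b : ℤ)|

/-- Largest integer used minus smallest integer used. -/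
noncomputable def tupleSpan {V : Type} (S : V → Finset ℕ) : ℕ :=
  sSup {a | ∃ x, a ∈ S x} - sInf {a | ∃ x, a ∈ S x}

/-- The minimum span of an `n`-tuple `T`-colouring, `T = {0, ..., r}`. -/
noncomputable def minSpan {V : Type} (G : SimpleGraph V) (r n : ℕ) : ℕ :=
  sInf {s | ∃ S, IsTupleTCol G r n S ∧ tupleSpan S = s}

end Pool.Agent.H20
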