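import Pool.Agent.H20.ThueDefs

namespace Pool.Agent.H20.Thue
open Pool.Agent.H20

section
variable {V C : Type} [DecidableEq V] [DecidableEq C]

def safe (L : List V) (A : V → V → Bool) (c : V → C) (b0 : V) : ℕ → V → V → List V → Bool
  | 0, _, _, _ => false
  | n + 1, a, b, U => !(A a b0) && L.all fun a2 => !(A a a2) || U.contains a2 ||
      L.all fun b2 => !(A b b2) || U.contains b2 || a2 == b2 || c a2 != c b2 ||
        safe L A c b0 n a2 b2 (a2 :: b2 :: U)

theorem safe_sound (L : List V) (hL : ∀ x, x ∈ L) (A : V → V → Bool) (c : V → C) (f : ℕ → V)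
    (t : ℕ) (inj : ∀ i < 2 * t, ∀ j < 2 * t, f i = f j → i = j)
    (adj : ∀ i, i + 1 < 2 * t → A (f i) (f (i + 1)) = true) (hc : ∀ i < t, c (f i) = c (f (t + i))) :
    ∀ (n i : ℕ) (U : List V), i < t → (∀ x ∈ U, ∃ j ≤ i, x = f j ∨ x = f (t + j)) →
      safe L A c (f t) n (f i) (f (t + i)) U = false := by
  intro n
  induction n with
  | zero => intro i U _ _; rfl
  | succ n ih =>
    intro i U hi hU
    by_contra h
    simp only [safe, Bool.not_eq_false, Bool.and_eq_true, Bool.not_eq_true', List.all_eq_true,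
      Bool.or_eq_true, List.contains_eq_mem, decide_eq_true_eq, beq_iff_eq, bne_iff_ne] at h
    obtain ⟨h1, h2⟩ := h
    by_cases e : i + 1 = t
    · have := adj i (by omega)
      rw [e, h1] at this
      exact absurd this (by decide)
    · have n1 : f (i + 1) ∉ U := by
        intro hm
        obtain ⟨j, hj, h | h⟩ := hU _ hm
        · have := inj _ (by omega) _ (by omega) h; omega
        · have := inj _ (by omega) _ (by omega) h; omega
      have n2 : f (t + (i + 1)) ∉ U := by
        intro hm
        obtain ⟨j, hj, h | h⟩ := hU _ hm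
        · have := inj _ (by omega) _ (by omega) h; omega
        · have := inj _ (by omega) _ (by omega) h; omega
      rcases h2 (f (i + 1)) (hL _) with (h | h) | h
      · rw [adj i (by omega)] at h; exact absurd h (by decide)
      · exact n1 h
      · rcases h (f (t + (i + 1))) (hL _) with (((h | h) | h) | h) | h
        · rw [← add_assoc, adj (t + i) (by omega)] at h; exact absurd h (by decide)
        · exact n2 h
        · have := inj _ (by omega) _ (by omega) h; omega
        · exact h (hc _ (by omega))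
        · rw [ih (i + 1) _ (by omega)] at h
          · exact absurd h (by decide)
          · intro x hx
            simp only [List.mem_cons] at hx
            rcases hx with rfl | rfl | hx
            · exact ⟨i + 1, le_rfl, Or.inl rfl⟩
            · exact ⟨i + 1, le_rfl, Or.inr rfl⟩
            · obtain ⟨j, hj, h⟩ := hU x hx
              exact ⟨j, by omega, h⟩

theorem nonrep_of_safe (G : SimpleGraph V) (L : List V) (hL : ∀ x, x ∈ L) (A : V → V → Bool)
    (hA : ∀ u v, G.Adj u v → A u v = true) (c : V → C) (n : ℕ)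
    (h : (L.all fun a => L.all fun b => a == b || c a != c b || safe L A c b n a b [a, b]) = true) :
    Nonrepetitive G c := by
  intro u v p hp t ht hl e
  rw [SimpleGraph.Walk.length_support] at hl
  have inj : ∀ i < 2 * t, ∀ j < 2 * t, p.getVert i = p.getVert j → i = j := fun i hi j hj e =>
    hp.getVert_injOn (by simp; omega) (by simp; omega) e
  have hc : ∀ i < t, c (p.getVert i) = c (p.getVert (t + i)) := by
    intro i hi
    have h1 := congrArg (fun l => l[i]?) e
    simp only [List.getElem?_take, hi, if_true, List.getElem?_drop, List.getElem?_map] at h1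
    rw [← SimpleGraph.Walk.getVert_eq_support_getElem? p (by omega),
      ← SimpleGraph.Walk.getVert_eq_support_getElem? p (by omega)] at h1
    simpa using h1
  have := safe_sound L hL A c p.getVert t inj
    (fun i hi => hA _ _ (p.adj_getVert_succ (by omega))) hc n 0 [p.getVert 0, p.getVert t] ht
    (by
      intro x hx
      simp only [List.mem_cons, List.not_mem_nil, or_false] at hx
      exact ⟨0, le_rfl, by simpa using hx⟩)
  simp only [List.all_eq_true, Bool.or_eq_true, beq_iff_eq, bne_iff_ne] at h
  rcases h (p.getVert 0) (hL _) (p.getVert t) (hL _) with (h | h) | h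
  · have := inj _ (by omega) _ (by omega) h; omega
  · exact h (by simpa using hc 0 ht)
  · rw [add_zero] at this
    rw [this] at h
    exact absurd h (by decide)

end

def cyc (u v : Fin 7) : Bool := v == u + 1 || u == v + 1

theorem cyc_of : ∀ u v : Fin 7, (SimpleGraph.cycleGraph 7).Adj u v → cyc u v = true := by
  decide +kernel

theorem ad : ∀ s : Fin 7, (SimpleGraph.cycleGraph 7).Adj s (s + 1) := by decide +kernel

def col : Fin 7 → Fin 2 → Fin 6 :=
  ![![0, 0], ![1, 2], ![0, 0], ![3, 4], ![0, 1], ![5, 5], ![3, 4]]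

def LL : List (Fin 7 × Fin 2) := (List.finRange 7).product (List.finRange 2)

theorem prod6 : thueNum (lexProduct (SimpleGraph.cycleGraph 7) (⊥ : SimpleGraph (Fin 2))) ≤ 6 := by
  refine Nat.sInf_le ⟨fun x => col x.1 x.2, nonrep_of_safe _ LL (by decide +kernel)
    (fun x y => cyc x.1 y.1) ?_ _ 8 (by decide +kernel)⟩
  rintro u v (h | h)
  · exact cyc_of _ _ h
  · exact h.2.elim

theorem one : 1 ≤ thueNum (⊥ : SimpleGraph (Fin 2)) := by
  refine le_csInf ⟨2, id, nonrep_of_safe (⊥ : SimpleGraph (Fin 2)) (List.finRange 2) (by decide)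
    (fun _ _ => false) (fun _ _ h => by simp at h) _ 1 (by decide +kernel)⟩ ?_
  rintro k ⟨c, _⟩
  exact (c 0).pos

open SimpleGraph in
theorem four : 4 ≤ thueNum (SimpleGraph.cycleGraph 7) := by
  refine le_csInf ⟨7, id, nonrep_of_safe _ (List.finRange 7) (by decide) cyc cyc_of _ 1
    (by decide +kernel)⟩ ?_
  rintro k ⟨c, hc⟩
  by_contra hk
  have key : ∀ d : Fin 7 → Fin 3, ∃ s : Fin 7, d s = d (s + 1) ∨
      (d s = d (s + 1 + 1) ∧ d (s + 1) = d (s + 1 + 1 + 1)) ∨
      (d s = d (s + 1 + 1 + 1) ∧ d (s + 1) = d (s + 1 + 1 + 1 + 1) ∧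
        d (s + 1 + 1) = d (s + 1 + 1 + 1 + 1 + 1)) := by decide +kernel
  obtain ⟨s, hs⟩ := key fun v => Fin.castLE (by omega) (c v)
  simp only [Fin.castLE_inj] at hs
  rcases hs with h | h | h
  · refine hc _ _ (Walk.cons (ad s) Walk.nil) ?_ 1 (by norm_num) rfl (by simp [h])
    rw [Walk.isPath_def]
    have : ∀ s : Fin 7, [s, s + 1].Nodup := by decide +kernel
    exact this s
  · refine hc _ _ (Walk.cons (ad s) (Walk.cons (ad _) (Walk.cons (ad _) Walk.nil))) ?_ 2
      (by norm_num) rfl (by simp [h.1, h.2])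
    rw [Walk.isPath_def]
    have : ∀ s : Fin 7, [s, s + 1, s + 1 + 1, s + 1 + 1 + 1].Nodup := by decide +kernel
    exact this s
  · refine hc _ _ (Walk.cons (ad s) (Walk.cons (ad _) (Walk.cons (ad _) (Walk.cons (ad _)
      (Walk.cons (ad _) Walk.nil))))) ?_ 3 (by norm_num) rfl (by simp [h.1, h.2.1, h.2.2])
    rw [Walk.isPath_def]
    have : ∀ s : Fin 7, [s, s + 1, s + 1 + 1, s + 1 + 1 + 1, s + 1 + 1 + 1 + 1,
      s + 1 + 1 + 1 + 1 + 1].Nodup := by decide +kernel
    exact this s

end Pool.Agent.H20.Thue
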