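import Mathlib

namespace Pool.Agent.H20

/-- No path on `2t` vertices, `t ≥ 1`, has its first half coloured like its second half. -/
def Nonrepetitive {V C : Type} (G : SimpleGraph V) (c : V → C) : Prop :=
  ∀ (u v : V) (p : G.Walk u v), p.IsPath → ∀ t : ℕ, 0 < t → p.support.length = 2 * t →
    (p.support.map c).take t ≠ (p.support.map c).drop t

/-- The Thue chromatic number. -/
noncomputable def thueNum {V : Type} (G : SimpleGraph V) : ℕ :=
  sInf {k | ∃ c : V → Fin k, Nonrepetitive G c}

/-- The lexicographic product `G[H]`. -/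
def lexProduct {V W : Type} (G : SimpleGraph V) (H : SimpleGraph W) : SimpleGraph (V × W) where
  Adj x y := G.Adj x.1 y.1 ∨ (x.1 = y.1 ∧ H.Adj x.2 y.2)
  symm := ⟨fun _ _ h => h.imp (fun h => h.symm) (fun h => ⟨h.1.symm, h.2.symm⟩)⟩
  loopless := ⟨fun _ h => h.elim (fun h => h.ne rfl) (fun h => h.2.ne rfl)⟩

end Pool.Agent.H20
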