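import Pool.Agent.H20.TotDomDefs
import Pool.Agent.H20.Re

namespace Pool.Agent.H20.TotDom
open Pool.Agent.H20 Finset

theorem match_le {V : Type} [Fintype V] (G : SimpleGraph V) (M : G.Subgraph) (h : M.IsMatching) :
    2 * M.edgeSet.ncard ≤ Fintype.card V := by
  classical
  have hfin : M.edgeSet.Finite := Set.toFinite _
  rw [Set.ncard_eq_toFinset_card _ hfin, ← Re.handshake (S := hfin.toFinset)
    (fun e he => G.not_isDiag_of_mem_edgeSet (M.edgeSet_subset (by simpa using he)))]
  have : ∀ v, UDec.deg hfin.toFinset v ≤ 1 := by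
    intro v
    unfold UDec.deg
    rw [Finset.card_le_one]
    intro a ha b hb
    simp only [mem_filter, Set.Finite.mem_toFinset] at ha hb
    obtain ⟨x, rfl⟩ := Sym2.mem_iff_exists.mp ha.2
    obtain ⟨y, rfl⟩ := Sym2.mem_iff_exists.mp hb.2
    have e := (h (M.edge_vert (SimpleGraph.Subgraph.mem_edgeSet.mp ha.1))).unique
      (SimpleGraph.Subgraph.mem_edgeSet.mp ha.1) (SimpleGraph.Subgraph.mem_edgeSet.mp hb.1)
    rw [e]
  calc ∑ v, UDec.deg hfin.toFinset v ≤ ∑ _v : V, 1 := Finset.sum_le_sum fun v _ => this v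
    _ = Fintype.card V := by simp

def mask : Fin 7 → ℕ := ![64, 4, 34, 112, 104, 28, 25]

def G : SimpleGraph (Fin 7) where
  Adj u v := (mask u).testBit v = true
  symm := ⟨by decide⟩
  loopless := ⟨by decide⟩

instance : DecidableRel G.Adj := fun u v => inferInstanceAs (Decidable ((mask u).testBit v = true))

theorem conn : G.Connected := by decide +kernel

theorem tri : {v | ¬ InTriangle G v}.ncard ≤ 3 := by
  have : {v | ¬ InTriangle G v} ⊆ (({0, 1, 2} : Finset (Fin 7)) : Set (Fin 7)) := by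
    intro v
    have : ∀ v : Fin 7, (¬ ∃ a b, G.Adj v a ∧ G.Adj v b ∧ G.Adj a b) →
      v ∈ ({0, 1, 2} : Finset (Fin 7)) := by decide +kernel
    exact this v
  refine (Set.ncard_le_ncard this).trans ?_
  rw [Set.ncard_coe_finset]
  decide

theorem lt : matchingNum G < totalDomNum G := by
  have h1 : matchingNum G ≤ 3 := by
    apply csSup_le'
    rintro k ⟨M, hM, rfl⟩
    have := match_le G M hM
    simp only [Fintype.card_fin] at this
    omega
  have h2 : 4 ≤ totalDomNum G := by
    refine le_csInf ⟨7, univ, by decide +kernel, by simp⟩ ?_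
    rintro k ⟨S, hS, rfl⟩
    have : ∀ S : Finset (Fin 7), (∀ v, ∃ s ∈ S, G.Adj v s) → 4 ≤ S.card := by decide +kernel
    exact this S hS
  omega

end Pool.Agent.H20.TotDom
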