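import Mathlib

namespace Pool.Agent.H20

/-- The total domination number: least size of a set containing a neighbour of every vertex. -/
noncomputable def totalDomNum {V : Type} (G : SimpleGraph V) : ℕ :=
  sInf {k | ∃ S : Finset V, (∀ v, ∃ s ∈ S, G.Adj v s) ∧ S.card = k}

/-- The matching number: largest number of edges of a matching. -/
noncomputable def matchingNum {V : Type} (G : SimpleGraph V) : ℕ :=
  sSup {k | ∃ M : G.Subgraph, M.IsMatching ∧ M.edgeSet.ncard = k}

/-- The vertex `v` lies in a triangle. -/
def InTriangle {V : Type} (G : SimpleGraph V) (v : V) : Prop :=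
  ∃ a b, G.Adj v a ∧ G.Adj v b ∧ G.Adj a b

end Pool.Agent.H20
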