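import Mathlib
import Pool.Agent.H20.TreeSep

set_option autoImplicit false

namespace Pool.Agent.H20.TreePart

open Finset Classical Pool.Agent.H20.TreeSep

variable {V : Type} [Fintype V] (G : SimpleGraph V)

def TP (X S : Finset V) (g c : ℕ) : Prop :=
  ∃ (addr : V → List ℕ) (lab : V → ℕ), (∀ v ∈ S, addr v = []) ∧
    (∀ v ∈ X, lab v < c ∧ ∀ e ∈ addr v, e < c) ∧
    (∀ v ∈ X, (addr v = [] → lab v < g) ∧ ∀ e r, addr v = e :: r → e < g) ∧
    (∀ u ∈ X, ∀ v ∈ X, addr u = addr v → lab u = lab v → u = v) ∧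
    ∀ u ∈ X, ∀ v ∈ X, G.Adj u v →
      addr u = addr v ∨ (∃ e, addr v = addr u ++ [e]) ∨ ∃ e, addr u = addr v ++ [e]

theorem TP.mono {X S : Finset V} {g g' c : ℕ} (h : TP G X S g c) (hg : g ≤ g') :
    TP G X S g' c := by
  obtain ⟨a, l, h1, h2, h3, h4, h5⟩ := h
  exact ⟨a, l, h1, h2, fun v hv => ⟨fun e => lt_of_lt_of_le ((h3 v hv).1 e) hg,
    fun e r h => lt_of_lt_of_le ((h3 v hv).2 e r h) hg⟩, h4, h5⟩

theorem idx (R : Finset V) : ∃ f : V → ℕ, (∀ v ∈ R, f v < R.card) ∧
    ∀ u ∈ R, ∀ v ∈ R, f u = f v → u = v := by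
  refine ⟨fun v => if h : v ∈ R then (R.equivFin ⟨v, h⟩).val else 0, ?_, ?_⟩
  · intro v hv
    simp [hv]
  · intro u hu v hv e
    simp only [hu, hv, dif_pos] at e
    exact congrArg Subtype.val (R.equivFin.injective (Fin.ext e))

theorem grow (X S R S' : Finset V) (g g' c : ℕ) (hS : S ⊆ R) (hR : R.card ≤ g) (hg : 0 < g)
    (hc : g ≤ c) (hS' : ∀ r ∈ R, ∀ v ∈ X, v ∉ R → G.Adj r v → v ∈ S')
    (h : TP G (X \ R) S' g' c) : TP G X S g c := by
  obtain ⟨a, l, h1, h2, -, h4, h5⟩ := h
  obtain ⟨f, f1, f2⟩ := idx R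
  refine ⟨fun v => if v ∈ R then [] else 0 :: a v, fun v => if v ∈ R then f v else l v,
    fun v hv => if_pos (hS hv), ?_, ?_, ?_, ?_⟩
  · intro v hv
    by_cases h : v ∈ R
    · have := f1 v h
      simp only [h, if_true, List.not_mem_nil, false_imp_iff, implies_true, and_true]
      omega
    · have := h2 v (mem_sdiff.2 ⟨hv, h⟩)
      simp only [h, if_false, List.mem_cons]
      refine ⟨this.1, ?_⟩
      rintro e (rfl | he)
      · omega
      · exact this.2 e he
  · intro v hv
    by_cases h : v ∈ R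
    · have := f1 v h
      simp only [h, if_true]
      exact ⟨fun _ => by omega, fun e r h => by simp at h⟩
    · simp only [h, if_false]
      refine ⟨fun h => by simp at h, fun e r h => ?_⟩
      rw [List.cons.injEq] at h
      omega
  · intro u hu v hv
    by_cases p : u ∈ R <;> by_cases q : v ∈ R <;> simp only [p, q, if_true, if_false]
    · exact fun _ e => f2 u p v q e
    · simp
    · simp
    · intro e1 e2
      exact h4 u (mem_sdiff.2 ⟨hu, p⟩) v (mem_sdiff.2 ⟨hv, q⟩) (List.cons.inj e1).2 e2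
  · intro u hu v hv hadj
    by_cases p : u ∈ R <;> by_cases q : v ∈ R <;> simp only [p, q, if_true, if_false]
    · simp
    · simp [h1 v (hS' u p v hv q hadj)]
    · simp [h1 u (hS' v q u hu p hadj.symm)]
    · simpa using h5 u (mem_sdiff.2 ⟨hu, p⟩) v (mem_sdiff.2 ⟨hv, q⟩) hadj

def shift (g : ℕ) : List ℕ → List ℕ
  | [] => []
  | e :: r => (e + g) :: r

theorem shift_inj (g : ℕ) {l m : List ℕ} (h : shift g l = shift g m) : l = m := by
  cases l <;> cases m <;> simp_all [shift]

theorem shift_app (g : ℕ) (l : List ℕ) (e : ℕ) : ∃ e', shift g (l ++ [e]) = shift g l ++ [e'] := by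
  cases l <;> simp [shift]

theorem merge (X S : Finset V) (hS : S ⊆ X) (P Q : Set V)
    (Z : Finset V) (h1 : ∀ v, v ∈ P ∨ v ∈ Q) (h2 : ∀ v, v ∈ Z ↔ (v ∈ P ∧ v ∈ Q))
    (h3 : ∀ u v, G.Adj u v → (u ∈ P ∧ v ∈ P) ∨ (u ∈ Q ∧ v ∈ Q)) (g c : ℕ) (hgc : 2 * g ≤ c)
    (k1 : TP G (X.filter (· ∈ P)) ((S ∪ (Z ∩ X)).filter (· ∈ P)) g c)
    (k2 : TP G (X.filter (· ∈ Q)) ((S ∪ (Z ∩ X)).filter (· ∈ Q)) g c) :
    TP G X S (2 * g) c := by
  obtain ⟨a, l, a1, a2, a3, a4, a5⟩ := k1
  obtain ⟨b, m, b1, b2, b3, b4, b5⟩ := k2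
  have nP : ∀ v, v ∉ P → v ∈ Q := fun v hv => (h1 v).resolve_left hv
  have mP : ∀ v ∈ X, v ∈ P → v ∈ X.filter (· ∈ P) := fun v h h' => mem_filter.2 ⟨h, h'⟩
  have mQ : ∀ v ∈ X, v ∈ Q → v ∈ X.filter (· ∈ Q) := fun v h h' => mem_filter.2 ⟨h, h'⟩
  have hQ : ∀ v ∈ X, v ∈ Q → (if v ∈ P then a v else shift g (b v)) = shift g (b v) := by
    intro v hx hq
    by_cases hp : v ∈ P
    · have hz : v ∈ S ∪ (Z ∩ X) := mem_union_right _ (mem_inter.2 ⟨(h2 v).2 ⟨hp, hq⟩, hx⟩)
      rw [if_pos hp, a1 v (mem_filter.2 ⟨hz, hp⟩), b1 v (mem_filter.2 ⟨hz, hq⟩)]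
      rfl
    · exact if_neg hp
  refine ⟨fun v => if v ∈ P then a v else shift g (b v),
    fun v => if v ∈ P then l v else if b v = [] then m v + g else m v, ?_, ?_, ?_, ?_, ?_⟩
  · intro v hv
    by_cases hp : v ∈ P
    · simp only [hp, if_true]
      exact a1 v (mem_filter.2 ⟨mem_union_left _ hv, hp⟩)
    · simp only [hp, if_false]
      rw [b1 v (mem_filter.2 ⟨mem_union_left _ hv, nP v hp⟩)]
      rfl
  · intro v hv
    by_cases hp : v ∈ P
    · simp only [hp, if_true]
      exact a2 v (mP v hv hp)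
    · simp only [hp, if_false]
      have c1 := b2 v (mQ v hv (nP v hp))
      have c2 := b3 v (mQ v hv (nP v hp))
      cases hb : b v with
      | nil =>
        have := c2.1 hb
        simp [shift]; omega
      | cons e r =>
        have := c2.2 e r hb
        rw [hb] at c1
        simp only [shift, List.mem_cons, reduceCtorEq, if_false] at c1 ⊢
        refine ⟨c1.1, ?_⟩
        rintro x (rfl | hx)
        · omega
        · exact c1.2 x (Or.inr hx)
  · intro v hv
    by_cases hp : v ∈ P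
    · simp only [hp, if_true]
      have c1 := a3 v (mP v hv hp)
      exact ⟨fun h => by have := c1.1 h; omega, fun e r h => by have := c1.2 e r h; omega⟩
    · simp only [hp, if_false]
      have c2 := b3 v (mQ v hv (nP v hp))
      cases hb : b v with
      | nil =>
        have := c2.1 hb
        simp [shift]; omega
      | cons e r =>
        have := c2.2 e r hb
        simp only [shift, reduceCtorEq, false_imp_iff, true_and, List.cons.injEq]
        rintro x y ⟨rfl, -⟩
        omega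
  · have cross : ∀ u ∈ X, ∀ v ∈ X, u ∈ P → v ∉ P → a u = shift g (b v) →
        l u = (if b v = [] then m v + g else m v) → False := by
      intro u hu v hv p q e1 e2
      have c1 := a3 u (mP u hu p)
      cases hb : b v with
      | nil =>
        rw [hb] at e1 e2
        have := c1.1 e1
        simp at e2
        omega
      | cons e r =>
        rw [hb] at e1
        have := c1.2 _ _ e1
        omega
    intro u hu v hv
    by_cases p : u ∈ P <;> by_cases q : v ∈ P <;> simp only [p, q, if_true, if_false]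
    · exact a4 u (mP u hu p) v (mP v hv q)
    · exact fun e1 e2 => (cross u hu v hv p q e1 e2).elim
    · exact fun e1 e2 => (cross v hv u hu q p e1.symm e2.symm).elim
    · intro e1 e2
      have e3 := shift_inj g e1
      refine b4 u (mQ u hu (nP u p)) v (mQ v hv (nP v q)) e3 ?_
      rw [e3] at e2
      split_ifs at e2 <;> omega
  · intro u hu v hv hadj
    rcases h3 u v hadj with ⟨p, q⟩ | ⟨p, q⟩
    · simp only [p, q, if_true]
      exact a5 u (mP u hu p) v (mP v hv q) hadj
    · beta_reduce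
      rw [hQ u hu p, hQ v hv q]
      rcases b5 u (mQ u hu p) v (mQ v hv q) hadj with h | ⟨e, h⟩ | ⟨e, h⟩
      · left; rw [h]
      · right; left; rw [h]; exact shift_app g _ e
      · right; right; rw [h]; exact shift_app g _ e

theorem side_card (X Y Z A : Finset V) (P : Set V) (w : ℕ) (hZ : Z.card ≤ w) (hA : A ⊆ Y)
    (hw : w + 1 ≤ A.card) (hP : ∀ v ∈ A, v ∉ P) :
    ((Y ∪ (Z ∩ X)).filter (· ∈ P)).card + 1 ≤ Y.card := by
  have h1 : (Y ∪ (Z ∩ X)).filter (· ∈ P) ⊆ (Y \ A) ∪ Z := by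
    intro v hv
    obtain ⟨h1, h2⟩ := mem_filter.1 hv
    rcases mem_union.1 h1 with h | h
    · exact mem_union_left _ (mem_sdiff.2 ⟨h, fun ha => hP v ha h2⟩)
    · exact mem_union_right _ (mem_inter.1 h).1
  have h2 := card_le_card h1
  have h3 := card_union_le (Y \ A) Z
  have h4 := card_sdiff_add_card_eq_card hA
  omega

theorem main (w l : ℕ) (hs : HasSep G w) (hl : ∀ v, (G.neighborSet v).ncard ≤ l) (η : ℕ)
    (hη : (5 * w + 3) * (l + 1) ≤ η)
    (n : ℕ) : ∀ (X S : Finset V), (X \ S).card * (η + 1) + S.card = n →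
      S ⊆ X → S.card ≤ η → TP G X S (η * 2 ^ S.card) (η * 2 ^ η) := by
  induction n using Nat.strong_induction_on with
  | _ n ih =>
    intro X S hn hS hc
    have le1 : ∀ m, η ≤ η * 2 ^ m := fun m => Nat.le_mul_of_pos_right _ (by positivity)
    have le2 : η * 2 ^ S.card ≤ η * 2 ^ η :=
      Nat.mul_le_mul_left _ (Nat.pow_le_pow_right (by norm_num) hc)
    have η1 : 5 * w + 3 ≤ η := le_trans (Nat.le_mul_of_pos_right _ (by omega)) hη
    by_cases hXY : X ⊆ S
    · refine grow G X S S ∅ _ 0 _ subset_rfl (hc.trans (le1 _))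
        (lt_of_lt_of_le (by omega) (le1 _)) le2 (fun r _ v hv h => absurd (hXY hv) h) ?_
      rw [sdiff_eq_empty_iff_subset.2 hXY]
      exact ⟨fun _ => [], fun _ => 0, by simp⟩
    by_cases hsm : S.card < 5 * w + 3
    · obtain ⟨v0, hv0, hv0'⟩ := not_subset.1 hXY
      have c0 : (insert v0 S).card ≤ 5 * w + 3 := by
        rw [card_insert_of_notMem hv0']; omega
      let S' := (X \ insert v0 S).filter (fun v => ∃ r ∈ insert v0 S, G.Adj r v)
      have c1 : S'.card ≤ η := by
        have : S' ⊆ (insert v0 S).biUnion (fun r => G.neighborFinset r) := by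
          intro v hv
          obtain ⟨_, r, hr, h⟩ := mem_filter.1 hv
          exact mem_biUnion.2 ⟨r, hr, by simpa using h⟩
        refine (card_le_card this).trans ((card_biUnion_le_card_mul _ _ l ?_).trans ?_)
        · intro r _
          have := hl r
          rwa [← SimpleGraph.coe_neighborFinset, Set.ncard_coe_finset] at this
        · exact le_trans (Nat.mul_le_mul c0 (Nat.le_succ l)) hη
      have c2 : ((X \ insert v0 S) \ S').card + 1 ≤ (X \ S).card := by
        apply card_lt_card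
        refine ⟨sdiff_subset.trans (sdiff_subset_sdiff subset_rfl (subset_insert _ _)), fun h => ?_⟩
        exact (mem_sdiff.1 (mem_sdiff.1 (h (mem_sdiff.2 ⟨hv0, hv0'⟩))).1).2 (mem_insert_self _ _)
      refine grow G X S (insert v0 S) S' _ _ _ (subset_insert _ _)
        (c0.trans (η1.trans (le1 _))) (lt_of_lt_of_le (by omega) (le1 _)) le2
        (fun r hr v hv h hadj => mem_filter.2 ⟨mem_sdiff.2 ⟨hv, h⟩, r, hr, hadj⟩)
        (ih _ ?_ _ S' rfl (filter_subset _ _) c1)
      rw [← hn]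
      have := Nat.mul_le_mul_right (η + 1) c2
      rw [add_mul] at this
      omega
    · obtain ⟨P, Q, Z, z1, z2, z3, z4, ⟨A, A1, A2, A3⟩, ⟨B, B1, B2, B3⟩⟩ :=
        hs S (w + 1) (by omega) (by omega)
      have side : ∀ (P : Set V) (A : Finset V), A ⊆ S → w + 1 ≤ A.card → (∀ v ∈ A, v ∉ P) →
          TP G (X.filter (· ∈ P)) ((S ∪ (Z ∩ X)).filter (· ∈ P))
            (η * 2 ^ (S.card - 1)) (η * 2 ^ η) := by
        intro P A A1 A2 A3
        have c1 := side_card X S Z A P w z1 A1 A2 A3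
        have c2 : (X.filter (· ∈ P) \ (S ∪ (Z ∩ X)).filter (· ∈ P)).card ≤ (X \ S).card := by
          apply card_le_card
          intro v hv
          obtain ⟨h1, h2⟩ := mem_sdiff.1 hv
          obtain ⟨h3, h4⟩ := mem_filter.1 h1
          exact mem_sdiff.2 ⟨h3, fun h => h2 (mem_filter.2 ⟨mem_union_left _ h, h4⟩)⟩
        refine (ih _ ?_ _ _ rfl ?_ (by omega)).mono G ?_
        · rw [← hn]
          have := Nat.mul_le_mul_right (η + 1) c2
          omega
        · exact filter_subset_filter _ (union_subset hS inter_subset_right)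
        · exact Nat.mul_le_mul_left _ (Nat.pow_le_pow_right (by norm_num) (by omega))
      have e : η * 2 ^ S.card = 2 * (η * 2 ^ (S.card - 1)) := by
        obtain ⟨m, hm⟩ : ∃ m, S.card = m + 1 := ⟨S.card - 1, by omega⟩
        rw [hm, Nat.add_sub_cancel, pow_succ]; ring
      rw [e]
      refine merge G X S hS P Q Z z2 z3 z4 _ _ ?_ (side P A A1 A2 A3) (side Q B B1 B2 B3)
      rw [← e]
      exact le2

/-- Graphs of bounded treewidth and degree have tree-partitions of bounded width over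
trees of bounded degree. -/
theorem treePartition (w l : ℕ) : ∃ c : ℕ, ∀ (V : Type) [Fintype V] (G : SimpleGraph V),
    HasSep G w → (∀ v, (G.neighborSet v).ncard ≤ l) →
    ∃ (addr : V → List ℕ) (lab : V → ℕ), (∀ v, lab v < c ∧ ∀ e ∈ addr v, e < c) ∧
      (∀ u v, addr u = addr v → lab u = lab v → u = v) ∧
      ∀ u v, G.Adj u v →
        addr u = addr v ∨ (∃ e, addr v = addr u ++ [e]) ∨ ∃ e, addr u = addr v ++ [e] := by
  refine ⟨(5 * w + 3) * (l + 1) * 2 ^ ((5 * w + 3) * (l + 1)), fun V _ G hs hl => ?_⟩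
  obtain ⟨a, b, -, h1, -, h2, h3⟩ := main G w l hs hl _ le_rfl _ univ ∅ rfl (empty_subset _)
    (by simp)
  exact ⟨a, b, fun v => h1 v (mem_univ _), fun u v => h2 u (mem_univ _) v (mem_univ _),
    fun u v => h3 u (mem_univ _) v (mem_univ _)⟩

end Pool.Agent.H20.TreePart
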