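import Mathlib

namespace Pool.Agent.H20.UDec
open Finset

variable {V : Type} [Fintype V] [DecidableEq V]

def ND (A : Finset (Sym2 V)) : Prop := ∀ e ∈ A, ¬ e.IsDiag

def deg (A : Finset (Sym2 V)) (v : V) : ℕ := (A.filter (fun e => v ∈ e)).card

def Iso (P Q : Finset (Sym2 V)) : Prop := ∃ σ : Equiv.Perm V, P.image (Sym2.map σ) = Q

inductive Dec : ℕ → Finset (Sym2 V) → Finset (Sym2 V) → Prop
  | zero : Dec 0 ∅ ∅
  | succ {r : ℕ} {A B P Q : Finset (Sym2 V)} : Dec r A B → Iso P Q → Disjoint P A → Disjoint Q B →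
      Dec (r + 1) (P ∪ A) (Q ∪ B)

theorem ND.mono {A B : Finset (Sym2 V)} (h : ND B) (s : A ⊆ B) : ND A := fun e he => h e (s he)

theorem Iso.refl (P : Finset (Sym2 V)) : Iso P P := ⟨1, by simp⟩

theorem image_inv (σ : Equiv.Perm V) (P : Finset (Sym2 V)) :
    (P.image (Sym2.map σ)).image (Sym2.map σ.symm) = P := by
  rw [Finset.image_image]
  have : (Sym2.map σ.symm ∘ Sym2.map σ) = id := by
    rw [← Sym2.map_comp]; simp
  rw [this, Finset.image_id]

theorem Iso.symm {P Q : Finset (Sym2 V)} (h : Iso P Q) : Iso Q P := by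
  obtain ⟨σ, rfl⟩ := h
  exact ⟨σ.symm, image_inv σ P⟩

theorem Iso.trans {P Q R : Finset (Sym2 V)} (h : Iso P Q) (h' : Iso Q R) : Iso P R := by
  obtain ⟨σ, rfl⟩ := h
  obtain ⟨τ, rfl⟩ := h'
  refine ⟨σ.trans τ, ?_⟩
  rw [Finset.image_image, ← Sym2.map_comp]
  rfl

theorem card_image_perm (σ : Equiv.Perm V) (P : Finset (Sym2 V)) :
    (P.image (Sym2.map σ)).card = P.card :=
  Finset.card_image_of_injective _ (Sym2.map.injective σ.injective)

theorem Iso.card {P Q : Finset (Sym2 V)} (h : Iso P Q) : P.card = Q.card := by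
  obtain ⟨σ, rfl⟩ := h
  exact (card_image_perm σ P).symm

theorem ND.image {A : Finset (Sym2 V)} (h : ND A) (σ : Equiv.Perm V) :
    ND (A.image (Sym2.map σ)) := by
  intro e he
  obtain ⟨a, ha, rfl⟩ := Finset.mem_image.mp he
  intro hd
  apply h a ha
  have := hd.map (f := σ.symm)
  rw [Sym2.map_map] at this
  simpa using this

theorem Dec.card {r : ℕ} {A B : Finset (Sym2 V)} (h : Dec r A B) : A.card = B.card := by
  induction h with
  | zero => rfl
  | succ _ hi h1 h2 ih => rw [card_union_of_disjoint h1, card_union_of_disjoint h2, ih, hi.card]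

theorem Dec.symm {r : ℕ} {A B : Finset (Sym2 V)} (h : Dec r A B) : Dec r B A := by
  induction h with
  | zero => exact Dec.zero
  | succ _ hi h1 h2 ih => exact Dec.succ ih hi.symm h2 h1

theorem Dec.step {r : ℕ} {A B : Finset (Sym2 V)} (h : Dec r A B) : Dec (r + 1) A B := by
  have := Dec.succ h (Iso.refl ∅) (by simp) (by simp)
  simpa using this

theorem Dec.mono {r s : ℕ} {A B : Finset (Sym2 V)} (h : Dec r A B) (hrs : r ≤ s) : Dec s A B := by
  induction hrs with
  | refl => exact h
  | step _ ih => exact ih.step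

theorem Dec.empty (r : ℕ) : Dec r (∅ : Finset (Sym2 V)) ∅ := Dec.zero.mono (Nat.zero_le r)

theorem Dec.add {r s : ℕ} {A B C D : Finset (Sym2 V)} (h : Dec r A B) (h' : Dec s C D)
    (h1 : Disjoint A C) (h2 : Disjoint B D) : Dec (s + r) (A ∪ C) (B ∪ D) := by
  induction h with
  | zero => simpa using h'
  | @succ r A B P Q _ hi d1 d2 ih =>
    rw [Finset.disjoint_union_left] at h1 h2
    rw [Finset.union_assoc, Finset.union_assoc, ← add_assoc]
    exact Dec.succ (ih h1.2 h2.2) hi (Finset.disjoint_union_right.mpr ⟨d1, h1.1⟩)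
      (Finset.disjoint_union_right.mpr ⟨d2, h2.1⟩)

theorem Dec.one {P Q : Finset (Sym2 V)} (h : Iso P Q) : Dec 1 P Q := by
  have := Dec.succ Dec.zero h (by simp) (by simp)
  simpa using this

theorem Dec.image {r : ℕ} {A B : Finset (Sym2 V)} (h : Dec r A B) (τ : Equiv.Perm V) :
    Dec r (A.image (Sym2.map τ)) B := by
  induction h with
  | zero => simpa using Dec.zero
  | @succ r A B P Q _ hi d1 d2 ih =>
    rw [Finset.image_union]
    refine Dec.succ ih (Iso.trans (Iso.symm ⟨τ, rfl⟩) hi) ?_ d2
    exact (Finset.disjoint_image (Sym2.map.injective τ.injective)).mpr d1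

/-- piece removal form -/
theorem Dec.piece {r : ℕ} {A B P Q : Finset (Sym2 V)} (hP : P ⊆ A) (hQ : Q ⊆ B) (hi : Iso P Q)
    (h : Dec r (A \ P) (B \ Q)) : Dec (r + 1) A B := by
  have := Dec.succ h hi Finset.disjoint_sdiff Finset.disjoint_sdiff
  rwa [Finset.union_sdiff_of_subset hP, Finset.union_sdiff_of_subset hQ] at this

theorem Dec.colour {r : ℕ} {A B : Finset (Sym2 V)} (h : Dec r A B) :
    ∃ c c' : Sym2 V → ℕ, (∀ e ∈ A, c e < r) ∧ (∀ e ∈ B, c' e < r) ∧
      ∀ i, Iso (A.filter fun e => c e = i) (B.filter fun e => c' e = i) := by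
  induction h with
  | zero => exact ⟨fun _ => 0, fun _ => 0, by simp, by simp, fun i => by simpa using Iso.refl _⟩
  | @succ r A B P Q _ hi d1 d2 ih =>
    obtain ⟨c, c', h1, h2, h3⟩ := ih
    have key : ∀ (P A : Finset (Sym2 V)) (c : Sym2 V → ℕ), Disjoint P A → (∀ e ∈ A, c e < r) →
        ∀ i, (P ∪ A).filter (fun e => (if e ∈ P then r else c e) = i) =
          if i = r then P else A.filter fun e => c e = i := by
      intro P A c d h i
      ext e
      have hd : e ∈ P → e ∉ A := fun he => Finset.disjoint_left.mp d he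
      by_cases hi : i = r
      · subst hi
        simp only [mem_filter, mem_union, if_true]
        constructor
        · rintro ⟨h1 | h1, h2⟩
          · exact h1
          · by_contra hp
            rw [if_neg hp] at h2
            have := h e h1
            omega
        · intro hp
          exact ⟨Or.inl hp, by rw [if_pos hp]⟩
      · simp only [mem_filter, mem_union, if_neg hi]
        constructor
        · rintro ⟨h1, h2⟩
          by_cases hp : e ∈ P
          · rw [if_pos hp] at h2; exact absurd h2.symm hi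
          · rw [if_neg hp] at h2; exact ⟨h1.resolve_left hp, h2⟩
        · rintro ⟨h1, h2⟩
          have hp : e ∉ P := fun hp => hd hp h1
          exact ⟨Or.inr h1, by rw [if_neg hp]; exact h2⟩
    refine ⟨fun e => if e ∈ P then r else c e, fun e => if e ∈ Q then r else c' e, ?_, ?_, ?_⟩
    · intro e he
      by_cases hp : e ∈ P
      · simp [hp]
      · have := h1 e ((Finset.mem_union.mp he).resolve_left hp)
        simp only [if_neg hp]; omega
    · intro e he
      by_cases hp : e ∈ Q
      · simp [hp]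
      · have := h2 e ((Finset.mem_union.mp he).resolve_left hp)
        simp only [if_neg hp]; omega
    · intro i
      rw [key P A c d1 h1 i, key Q B c' d2 h2 i]
      by_cases hi' : i = r
      · simpa [hi'] using hi
      · simpa [hi'] using h3 i

theorem iso_of_equiv {S T : Finset (Sym2 V)} (φ : S ≃ T) (h : Equiv.Perm V)
    (hh : ∀ e : S, Sym2.map h e.1 = (φ e).1) : Iso S T := by
  refine ⟨h, ?_⟩
  ext x
  simp only [mem_image]
  constructor
  · rintro ⟨e, he, rfl⟩
    rw [hh ⟨e, he⟩]
    exact (φ ⟨e, he⟩).2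
  · intro hx
    refine ⟨(φ.symm ⟨x, hx⟩).1, (φ.symm ⟨x, hx⟩).2, ?_⟩
    rw [hh]; simp

theorem star_iso {S T : Finset (Sym2 V)} (hS : ND S) (hT : ND T) (v w : V) (hv : ∀ e ∈ S, v ∈ e)
    (hw : ∀ e ∈ T, w ∈ e) (hc : S.card = T.card) : Iso S T := by
  have φ : S ≃ T := Finset.equivOfCardEq hc
  have key : ∀ (S : Finset (Sym2 V)) (v : V) (hS : ND S) (hv : ∀ e ∈ S, v ∈ e),
      Function.Injective (fun o : Option S =>
        o.elim v (fun e => Sym2.Mem.other (hv e.1 e.2))) := by
    intro S v hS hv a b hab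
    cases a with
    | none =>
      cases b with
      | none => rfl
      | some b => exact absurd hab.symm (Sym2.other_ne (hS b.1 b.2) (hv b.1 b.2))
    | some a =>
      cases b with
      | none => exact absurd hab (Sym2.other_ne (hS a.1 a.2) (hv a.1 a.2))
      | some b =>
        have hab' : Sym2.Mem.other (hv a.1 a.2) = Sym2.Mem.other (hv b.1 b.2) := hab
        congr 1
        apply Subtype.ext
        rw [← Sym2.other_spec (hv a.1 a.2), ← Sym2.other_spec (hv b.1 b.2), hab']
  obtain ⟨h, hh⟩ := Equiv.Perm.exists_extending_pair _ _ (key S v hS hv)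
    ((key T w hT hw).comp (Equiv.optionCongr φ).injective)
  refine iso_of_equiv φ h fun e => ?_
  have h1 : h v = w := hh none
  have h2 : h (Sym2.Mem.other (hv e.1 e.2)) = Sym2.Mem.other (hw (φ e).1 (φ e).2) := hh (some e)
  rw [← Sym2.other_spec (hv e.1 e.2), ← Sym2.other_spec (hw (φ e).1 (φ e).2), Sym2.map_mk, h1, h2]

def Mat (M : Finset (Sym2 V)) : Prop := ∀ e ∈ M, ∀ f ∈ M, ∀ x, x ∈ e → x ∈ f → e = f

theorem out_eq (e : Sym2 V) : s(e.out.1, e.out.2) = e := Quot.out_eq e

theorem mat_iso {S T : Finset (Sym2 V)} (hS : ND S) (hT : ND T) (mS : Mat S) (mT : Mat T)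
    (hc : S.card = T.card) : Iso S T := by
  have φ : S ≃ T := Finset.equivOfCardEq hc
  have key : ∀ (S : Finset (Sym2 V)), ND S → Mat S →
      Function.Injective (fun o : S × Bool => if o.2 then o.1.1.out.1 else o.1.1.out.2) := by
    rintro S hS mS ⟨a, i⟩ ⟨b, j⟩ hab
    have hm : ∀ (a : S) (i : Bool), (if i then a.1.out.1 else a.1.out.2) ∈ a.1 := by
      intro a i
      cases i
      · exact Sym2.out_snd_mem _
      · exact Sym2.out_fst_mem _
    have h1 := hm a i
    have h2 := hm b j
    simp only at hab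
    rw [hab] at h1
    have e : a = b := Subtype.ext (mS _ a.2 _ b.2 _ h1 h2)
    subst e
    have hne : a.1.out.1 ≠ a.1.out.2 := by
      intro h
      apply hS a.1 a.2
      rw [← out_eq a.1]
      exact Sym2.mk_isDiag_iff.mpr h
    cases i <;> cases j
    · rfl
    · exact absurd hab.symm hne
    · exact absurd hab hne
    · rfl
  obtain ⟨h, hh⟩ := Equiv.Perm.exists_extending_pair _ _ (key S hS mS)
    ((key T hT mT).comp (Equiv.prodCongr φ (Equiv.refl Bool)).injective)
  refine iso_of_equiv φ h fun e => ?_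
  have h1 : h e.1.out.1 = (φ e).1.out.1 := hh (e, true)
  have h2 : h e.1.out.2 = (φ e).1.out.2 := hh (e, false)
  rw [← out_eq e.1, ← out_eq (φ e).1, Sym2.map_mk, h1, h2]

/-- `A` is covered by `k` matchings -/
def Cov (k : ℕ) (A : Finset (Sym2 V)) : Prop :=
  ∃ c : Sym2 V → ℕ, (∀ e ∈ A, c e < k) ∧
    ∀ e ∈ A, ∀ f ∈ A, c e = c f → ∀ x, x ∈ e → x ∈ f → e = f

theorem Cov.mono {k : ℕ} {A B : Finset (Sym2 V)} (h : Cov k B) (s : A ⊆ B) : Cov k A := by
  obtain ⟨c, h1, h2⟩ := h
  exact ⟨c, fun e he => h1 e (s he), fun e he f hf => h2 e (s he) f (s hf)⟩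

theorem Cov.top {k : ℕ} {A : Finset (Sym2 V)} (h : Cov (k + 1) A) :
    ∃ M ⊆ A, Mat M ∧ Cov k (A \ M) := by
  obtain ⟨c, h1, h2⟩ := h
  refine ⟨A.filter fun e => c e = k, Finset.filter_subset _ _, ?_, c, ?_, ?_⟩
  · intro e he f hf
    rw [mem_filter] at he hf
    exact h2 e he.1 f hf.1 (he.2.trans hf.2.symm)
  · intro e he
    simp only [mem_sdiff, mem_filter, not_and] at he
    have := h1 e he.1
    have := he.2 he.1
    omega
  · intro e he f hf
    exact h2 e (mem_sdiff.mp he).1 f (mem_sdiff.mp hf).1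

theorem refine_dec : ∀ (m s t : ℕ) (A B : Finset (Sym2 V)), s + t = m → ND A → ND B → Cov s A →
    Cov t B → A.card = B.card → Dec m A B := by
  intro m
  induction m with
  | zero =>
    intro s t A B hm _ _ hs _ hc
    obtain rfl : s = 0 := by omega
    obtain ⟨c, h1, _⟩ := hs
    have hA : A = ∅ := Finset.eq_empty_of_forall_notMem fun e he => by simpa using h1 e he
    subst hA
    have hB : B = ∅ := Finset.card_eq_zero.mp (by simpa using hc.symm)
    subst hB
    exact Dec.zero
  | succ m ih =>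
    intro s t A B hm nA nB hs ht hc
    rcases s with _ | s
    · obtain ⟨c, h1, _⟩ := hs
      have hA : A = ∅ := Finset.eq_empty_of_forall_notMem fun e he => by simpa using h1 e he
      subst hA
      have hB : B = ∅ := Finset.card_eq_zero.mp (by simpa using hc.symm)
      subst hB
      exact Dec.empty _
    rcases t with _ | t
    · obtain ⟨c, h1, _⟩ := ht
      have hB : B = ∅ := Finset.eq_empty_of_forall_notMem fun e he => by simpa using h1 e he
      subst hB
      have hA : A = ∅ := Finset.card_eq_zero.mp (by simpa using hc)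
      subst hA
      exact Dec.empty _
    obtain ⟨M, hM, mM, cM⟩ := hs.top
    obtain ⟨N, hN, mN, cN⟩ := ht.top
    rcases le_total M.card N.card with hle | hle
    · obtain ⟨N', hN', hc'⟩ := Finset.exists_subset_card_eq hle
      have hi : Iso M N' := mat_iso (nA.mono hM) (nB.mono (hN'.trans hN)) mM
        (fun e he f hf => mN e (hN' he) f (hN' hf)) hc'.symm
      refine Dec.piece hM (hN'.trans hN) hi (ih s (t + 1) _ _ (by omega)
        (nA.mono sdiff_subset) (nB.mono sdiff_subset) cM (ht.mono sdiff_subset) ?_)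
      rw [card_sdiff_of_subset hM, card_sdiff_of_subset (hN'.trans hN), hc, hc']
    · obtain ⟨M', hM', hc'⟩ := Finset.exists_subset_card_eq hle
      have hi : Iso M' N := mat_iso (nA.mono (hM'.trans hM)) (nB.mono hN)
        (fun e he f hf => mM e (hM' he) f (hM' hf)) mN hc'
      refine Dec.piece (hM'.trans hM) hN hi (ih (s + 1) t _ _ (by omega)
        (nA.mono sdiff_subset) (nB.mono sdiff_subset) (hs.mono sdiff_subset) cN ?_)
      rw [card_sdiff_of_subset hN, card_sdiff_of_subset (hM'.trans hM), hc, hc']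

theorem deg_mono {A B : Finset (Sym2 V)} (h : A ⊆ B) (v : V) : deg A v ≤ deg B v :=
  Finset.card_le_card (Finset.filter_subset_filter _ h)

theorem deg_union (A B : Finset (Sym2 V)) (v : V) : deg (A ∪ B) v ≤ deg A v + deg B v := by
  unfold deg
  rw [Finset.filter_union]
  exact Finset.card_union_le _ _

theorem deg_sdiff (A B : Finset (Sym2 V)) (v : V) : deg A v ≤ deg (A \ B) v + deg B v := by
  refine le_trans (deg_mono ?_ v) (deg_union _ _ v)
  intro e he
  by_cases hb : e ∈ B <;> simp [he, hb]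

theorem greedy (D : ℕ) (A : Finset (Sym2 V)) (h : ∀ v, deg A v ≤ D) : Cov (2 * D + 1) A := by
  induction A using Finset.induction_on with
  | empty => exact ⟨fun _ => 0, by simp, by simp⟩
  | @insert e A he ih =>
    have h' : ∀ v, deg A v ≤ D := fun v => (deg_mono (subset_insert _ _) v).trans (h v)
    obtain ⟨c, h1, h2⟩ := ih h'
    let N := A.filter (fun f => e.out.1 ∈ f) ∪ A.filter (fun f => e.out.2 ∈ f)
    have hN : (N.image c).card < (Finset.range (2 * D + 1)).card := by
      have a1 := h' e.out.1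
      have a2 := h' e.out.2
      have a3 : N.card ≤ deg A e.out.1 + deg A e.out.2 := Finset.card_union_le _ _
      have a4 : (N.image c).card ≤ N.card := Finset.card_image_le
      rw [card_range]; omega
    obtain ⟨k, hk, hk'⟩ := Finset.exists_mem_notMem_of_card_lt_card hN
    have hNm : ∀ f ∈ A, ∀ x, x ∈ e → x ∈ f → c f ≠ k := by
      intro f hf x hx hxf hc
      apply hk'
      refine Finset.mem_image.mpr ⟨f, ?_, hc⟩
      rw [← out_eq e, Sym2.mem_iff] at hx
      rcases hx with rfl | rfl
      · exact mem_union_left _ (mem_filter.mpr ⟨hf, hxf⟩)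
      · exact mem_union_right _ (mem_filter.mpr ⟨hf, hxf⟩)
    refine ⟨fun f => if f = e then k else c f, ?_, ?_⟩
    · intro f hf
      by_cases hfe : f = e
      · simpa [hfe] using hk
      · simp only [if_neg hfe]
        exact h1 f ((mem_insert.mp hf).resolve_left hfe)
    · intro f hf g hg hc x hxf hxg
      by_cases hfe : f = e <;> by_cases hge : g = e
      · rw [hfe, hge]
      · simp only [if_pos hfe, if_neg hge] at hc
        exact absurd hc.symm
          (hNm g ((mem_insert.mp hg).resolve_left hge) x (hfe ▸ hxf) hxg)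
      · simp only [if_neg hfe, if_pos hge] at hc
        exact absurd hc (hNm f ((mem_insert.mp hf).resolve_left hfe) x (hge ▸ hxg) hxf)
      · simp only [if_neg hfe, if_neg hge] at hc
        exact h2 f ((mem_insert.mp hf).resolve_left hfe) g ((mem_insert.mp hg).resolve_left hge)
          hc x hxf hxg

theorem low_dec (D : ℕ) {A B : Finset (Sym2 V)} (nA : ND A) (nB : ND B) (hA : ∀ v, deg A v ≤ D)
    (hB : ∀ v, deg B v ≤ D) (hc : A.card = B.card) : Dec (4 * D + 2) A B :=
  refine_dec _ (2 * D + 1) (2 * D + 1) A B (by ring) nA nB (greedy D A hA) (greedy D B hB) hc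

end Pool.Agent.H20.UDec
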