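import Pool.Agent.H20.UpColDefs
import Pool.Agent.H20.Rooted

namespace Pool.Agent.H20.UpCol
open Finset Pool.Agent.H20

def step (p x : ℕ) : ℕ := if p = 0 then 1 else if x = 2 then (if p = 1 then 2 else 1) else 0

def colf {V : Type} (par : V → V) (f : V → ℕ) : ℕ → V → ℕ
  | 0, _ => 1
  | n + 1, v => step (colf par f n (par v)) (f v)

theorem main {V : Type} [Fintype V] (T : SimpleGraph V) (hT : T.IsTree) :
    upColorWeight T ≤ romanNum T := by
  classical
  have hne : {w | ∃ f, IsRoman T f ∧ w = ∑ v, f v}.Nonempty :=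
    ⟨_, fun _ => 1, ⟨fun _ => by norm_num, fun _ h => by simp at h⟩, rfl⟩
  obtain ⟨f, hf, hw⟩ := Nat.sInf_mem hne
  unfold romanNum
  rw [hw]
  obtain ⟨r⟩ := hT.connected.nonempty
  obtain ⟨par, hp1, hp2⟩ := rooted T hT r
  let c : V → ℕ := fun v => colf par f (T.dist r v) v
  have cr : c r = 1 := by simp [c, colf]
  have cs : ∀ v, v ≠ r → c v = step (c (par v)) (f v) := by
    intro v hv
    simp only [c]
    rw [(hp1 v hv).2]
    rfl
  have c2 : ∀ v, c v ≤ 2 ∧ (c v = 2 → f v = 2) ∧ (c v = 0 → f v ≠ 2) := by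
    intro v
    by_cases hv : v = r
    · rw [hv, cr]; omega
    · have := cs v hv
      unfold step at this
      split_ifs at this <;> omega
  let D : Finset V := univ.filter fun v =>
    c v = 2 ∨ (c v = 1 ∧ (1 ≤ f v ∨ ∃ x, x ≠ r ∧ par x = v ∧ f x ≠ 2))
  have hD : ∀ v, v ∈ D ↔ c v = 2 ∨ (c v = 1 ∧ (1 ≤ f v ∨ ∃ x, x ≠ r ∧ par x = v ∧ f x ≠ 2)) :=
    fun v => by simp [D]
  have kid : ∀ v, f v = 0 → (v ≠ r → f (par v) ≠ 2) → ∃ y, y ≠ r ∧ par y = v ∧ f y = 2 := by
    intro v h0 h1
    obtain ⟨y, hy, hy2⟩ := hf.2 v h0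
    rcases hp2 v y hy with h | h
    · exact absurd (h.2 ▸ hy2) (h1 h.1)
    · exact ⟨y, h.1, h.2.symm, hy2⟩
  have hpar : ∀ v, v ≠ r → c v ≠ c (par v) := by
    intro v hv
    have := (c2 (par v)).1
    have h := cs v hv
    unfold step at h
    split_ifs at h <;> omega
  have hU : IsUpColorDom T c D := by
    refine ⟨?_, ?_, ?_⟩
    · intro u v h
      rcases hp2 u v h with h | h
      · rw [h.2]; exact hpar u h.1
      · rw [h.2]; exact (hpar v h.1).symm
    · intro v hv
      rw [hD] at hv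
      have a1 := c2 v
      by_cases h0 : c v = 0
      · have hr : v ≠ r := by rintro rfl; omega
        have a2 := hpar v hr
        have a3 := c2 (par v)
        refine ⟨par v, (hD _).mpr ?_, (hp1 v hr).1, by omega⟩
        by_cases h2 : c (par v) = 2
        · exact Or.inl h2
        · exact Or.inr ⟨by omega, Or.inr ⟨v, hr, rfl, a1.2.2 h0⟩⟩
      · have h1 : c v = 1 := by
          by_contra h
          exact hv (Or.inl (by omega))
        have hf0 : f v = 0 := by
          by_contra h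
          exact hv (Or.inr ⟨h1, Or.inl (by omega)⟩)
        obtain ⟨y, y1, y2, y3⟩ := kid v hf0 (fun hr => by
          have a2 := cs v hr
          have a3 := c2 (par v)
          unfold step at a2
          split_ifs at a2 <;> omega)
        have a4 : c y = 2 := by
          rw [cs y y1, y2, h1, y3]; rfl
        exact ⟨y, (hD _).mpr (Or.inl a4), y2 ▸ (hp1 y y1).1.symm, by omega⟩
    · intro d hd
      rw [hD] at hd
      omega
  refine le_trans (Nat.sInf_le ⟨c, D, hU, rfl⟩) ?_
  let X : Finset V := univ.filter fun v => v ∈ D ∧ f v = 0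
  let Y : Finset V := univ.filter fun s => (f s = 1 ∧ c s = 0) ∨ (f s = 2 ∧ c s = 1)
  have hXY : X.card ≤ Y.card := by
    refine le_trans (Finset.card_le_card ?_)
      (Finset.card_image_le (s := Y) (f := fun s => if f s = 1 then par s else par (par s)))
    intro v hv
    obtain ⟨h1, h2⟩ := (mem_filter.mp hv).2
    rw [hD] at h1
    have a1 := c2 v
    have h3 : c v = 1 ∧ ∃ x, x ≠ r ∧ par x = v ∧ f x ≠ 2 := by
      rcases h1 with h | ⟨h, h' | h'⟩
      · omega
      · omega
      · exact ⟨h, h'⟩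
    obtain ⟨h4, x, x1, x2, x3⟩ := h3
    have a2 : c x = 0 := by
      rw [cs x x1, x2, h4]; simp [step, x3]
    have a3 := hf.1 x
    by_cases h5 : f x = 1
    · exact mem_image.mpr ⟨x, mem_filter.mpr ⟨mem_univ _, Or.inl ⟨h5, a2⟩⟩, by simp [h5, x2]⟩
    · obtain ⟨y, y1, y2, y3⟩ := kid x (by omega) (fun _ => by rw [x2]; omega)
      have a4 : c y = 1 := by
        rw [cs y y1, y2, a2]; rfl
      exact mem_image.mpr ⟨y, mem_filter.mpr ⟨mem_univ _, Or.inr ⟨y3, a4⟩⟩, by simp [y3, y2, x2]⟩
  have e1 : ∑ d ∈ D, c d = ∑ v, if v ∈ D then c v else 0 := by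
    rw [← Finset.sum_filter]; simp
  have e2 : ∑ v, ((if v ∈ D then c v else 0) + if v ∈ Y then 1 else 0)
      ≤ ∑ v, (f v + if v ∈ X then 1 else 0) := by
    refine Finset.sum_le_sum fun v _ => ?_
    have a1 := c2 v
    have a2 := hD v
    simp only [X, Y, mem_filter, mem_univ, true_and]
    by_cases h : v ∈ D
    · have a3 := a2.mp h
      simp only [h, if_true, true_and]
      split_ifs <;> omega
    · simp only [h, if_false, false_and]
      split_ifs <;> omega
  rw [Finset.sum_add_distrib, Finset.sum_add_distrib, ← e1] at e2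
  simp only [sum_boole, Nat.cast_id, filter_mem_eq_inter, univ_inter] at e2
  omega

end Pool.Agent.H20.UpCol
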