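import Mathlib

namespace Pool.Agent.H20

/-- `c` is a proper colouring by natural numbers and `D` is an up-color dominating `c`-set. -/
def IsUpColorDom {V : Type} (G : SimpleGraph V) (c : V → ℕ) (D : Finset V) : Prop :=
  (∀ u v, G.Adj u v → c u ≠ c v) ∧ (∀ v, v ∉ D → ∃ d ∈ D, G.Adj v d ∧ c v < c d) ∧
  ∀ d ∈ D, c d ≠ 0

/-- The up-color domination weight: the least weight of an up-color dominating `c`-set over all
colourings `c`. -/
noncomputable def upColorWeight {V : Type} (G : SimpleGraph V) : ℕ :=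
  sInf {w | ∃ c D, IsUpColorDom G c D ∧ w = ∑ d ∈ D, c d}

/-- A Roman dominating function. -/
def IsRoman {V : Type} (G : SimpleGraph V) (f : V → ℕ) : Prop :=
  (∀ v, f v ≤ 2) ∧ ∀ u, f u = 0 → ∃ v, G.Adj u v ∧ f v = 2

/-- The Roman domination number. -/
noncomputable def romanNum {V : Type} [Fintype V] (G : SimpleGraph V) : ℕ :=
  sInf {w | ∃ f, IsRoman G f ∧ w = ∑ v, f v}

end Pool.Agent.H20
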